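import Pool.Agent.T3h73.SG.Def

/-! # Project SG: polynomials with full symmetric Galois group -/

set_option autoImplicit false
set_option linter.all false

open Polynomial

namespace Pool.Agent.T3h73.SG.Symm

theorem lin {ℓ : ℕ} [Fact ℓ.Prime] {ι : Type} [Fintype ι] [DecidableEq ι]
    (hc : Fintype.card ι < ℓ) (c : ι → ι → ZMod ℓ) (h1 : ∀ a, ∑ b, c a b = 0)
    (h2 : ∀ b, ∑ a, c a b = 0) (h3 : ∀ p : Equiv.Perm ι, ∑ a, c (p a) a = 0) (a b : ι) :
    c a b = 0 := by
  have hn : (Fintype.card ι : ZMod ℓ) ≠ 0 := by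
    rw [Ne, ZMod.natCast_eq_zero_iff]
    intro h
    have hpos : 0 < Fintype.card ι := Fintype.card_pos_iff.2 ⟨a⟩
    exact absurd (Nat.le_of_dvd hpos h) (by omega)
  have key : ∀ a b i j : ι, c a i - c b i = c a j - c b j := by
    intro a b i j
    by_cases hab : a = b
    · rw [hab, sub_self, sub_self]
    by_cases hij : i = j
    · rw [hij]
    -- a permutation with `i ↦ a`, `j ↦ b`
    obtain ⟨p, hp1, hp2⟩ : ∃ p : Equiv.Perm ι, p i = a ∧ p j = b := by
      refine ⟨Equiv.swap (Equiv.swap i a j) b * Equiv.swap i a, ?_, ?_⟩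
      · rw [Equiv.Perm.mul_apply, Equiv.swap_apply_left]
        apply Equiv.swap_apply_of_ne_of_ne
        · intro h
          have h5 := congrArg (Equiv.swap i a) h
          rw [Equiv.swap_apply_self, Equiv.swap_apply_right] at h5
          exact hij h5
        · exact hab
      · rw [Equiv.Perm.mul_apply, Equiv.swap_apply_left]
    have e1 := h3 p
    have e2 := h3 (Equiv.swap a b * p)
    have e3 : ∑ x, (c (p x) x - c ((Equiv.swap a b * p) x) x) = 0 := by
      rw [Finset.sum_sub_distrib, e1, e2, sub_self]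
    have hij' : j ∈ (Finset.univ : Finset ι).erase i := Finset.mem_erase.2 ⟨Ne.symm hij, Finset.mem_univ _⟩
    rw [← Finset.add_sum_erase _ _ (Finset.mem_univ i), ← Finset.add_sum_erase _ _ hij',
      Finset.sum_eq_zero (s := (Finset.univ.erase i).erase j), add_zero] at e3
    · rw [Equiv.Perm.mul_apply, Equiv.Perm.mul_apply, hp1, hp2, Equiv.swap_apply_left,
        Equiv.swap_apply_right] at e3
      linear_combination e3
    · intro x hx
      rw [Finset.mem_erase, Finset.mem_erase] at hx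
      have h6 : p x ≠ a := by
        intro h
        rw [← hp1] at h
        exact hx.2.1 (p.injective h)
      have h7 : p x ≠ b := by
        intro h
        rw [← hp2] at h
        exact hx.1 (p.injective h)
      rw [Equiv.Perm.mul_apply, Equiv.swap_apply_of_ne_of_ne h6 h7, sub_self]
  have h4 : ∀ a b i : ι, c a i = c b i := by
    intro a b i
    have h5 : ∑ j, (c a j - c b j) = (Fintype.card ι : ZMod ℓ) * (c a i - c b i) := by
      rw [Finset.sum_congr rfl fun j _ => key a b j i, Finset.sum_const, Finset.card_univ,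
        nsmul_eq_mul]
    rw [Finset.sum_sub_distrib, h1, h1, sub_self] at h5
    exact sub_eq_zero.1 ((mul_eq_zero.1 h5.symm).resolve_left hn)
  have h5 : ∑ x, c x b = (Fintype.card ι : ZMod ℓ) * c a b := by
    rw [Finset.sum_congr rfl fun x _ => h4 x a b, Finset.sum_const, Finset.card_univ, nsmul_eq_mul]
  rw [h2] at h5
  exact (mul_eq_zero.1 h5.symm).resolve_left hn

theorem big {ℓ : ℕ} (hℓ : ℓ.Prime) {K : Type} [Field K] (F : K[X]) (hsep : F.Separable)
    (hc : Nat.card (F.SplittingField ≃ₐ[K] F.SplittingField) = F.natDegree.factorial)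
    (hlt : F.natDegree < ℓ) : Def.BigGalois ℓ F := by
  classical
  haveI : Fact ℓ.Prime := ⟨hℓ⟩
  refine ⟨?_, ?_⟩
  · rw [hc, hℓ.dvd_factorial]
    omega
  have hF0 : F ≠ 0 := hsep.ne_zero
  obtain ⟨R, hR⟩ : ∃ R, R = (F.aroots F.SplittingField).toFinset := ⟨_, rfl⟩
  have hmem : ∀ x, x ∈ R ↔ aeval x F = 0 := by
    intro x
    rw [hR, Multiset.mem_toFinset, mem_aroots]
    exact ⟨fun h => h.2, fun h => ⟨hF0, h⟩⟩
  have hnd : (F.aroots F.SplittingField).Nodup :=
    (nodup_aroots_iff_of_splits hF0 (IsSplittingField.splits _ _)).2 hsep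
  have hcard : R.card = F.natDegree := by
    rw [hR, Multiset.toFinset_card_of_nodup hnd]
    have h3 := (IsSplittingField.splits F.SplittingField F).natDegree_eq_card_roots
    rw [natDegree_map] at h3
    exact h3.symm
  have hcR : Fintype.card R = F.natDegree := by rw [Fintype.card_coe, hcard]
  -- the action on the roots
  have hstab : ∀ (g : F.SplittingField ≃ₐ[K] F.SplittingField) (x : R), g x ∈ R := by
    intro g x
    rw [hmem]
    have h1 := aeval_algHom_apply (g : F.SplittingField →ₐ[K] F.SplittingField) (x : F.SplittingField) F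
    have h2 : aeval (g (x : F.SplittingField)) F = g (aeval (x : F.SplittingField) F) := h1
    rw [h2, (hmem _).1 x.2, map_zero]
  let ρ : (F.SplittingField ≃ₐ[K] F.SplittingField) → (R → R) := fun g x => ⟨g x, hstab g x⟩
  have hρi : ∀ g, Function.Bijective (ρ g) := by
    intro g
    refine (Finite.injective_iff_bijective).1 fun x y h => ?_
    apply Subtype.ext
    exact g.injective (congrArg Subtype.val h)
  let ρ' : (F.SplittingField ≃ₐ[K] F.SplittingField) → Equiv.Perm R := fun g =>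
    Equiv.ofBijective (ρ g) (hρi g)
  have hinj : Function.Injective ρ' := by
    intro g g' h
    have h1 : ∀ x ∈ R, g x = g' x := by
      intro x hx
      have h2 := congrArg (fun p : Equiv.Perm R => ((p ⟨x, hx⟩ : R) : F.SplittingField)) h
      exact h2
    have h2 : (g : F.SplittingField →ₐ[K] F.SplittingField) = (g' : _ →ₐ[K] _) := by
      have h3 := IsSplittingField.adjoin_rootSet F.SplittingField F
      refine AlgHom.ext_of_adjoin_eq_top h3 fun x hx => ?_
      exact h1 x ((hmem x).2 (aeval_eq_zero_of_mem_rootSet hx))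
    exact AlgEquiv.ext fun x => congrArg (fun φ : F.SplittingField →ₐ[K] F.SplittingField => φ x) h2
  have hsurj : Function.Surjective ρ' := by
    haveI : Finite (F.SplittingField ≃ₐ[K] F.SplittingField) := inferInstance
    haveI : Fintype (F.SplittingField ≃ₐ[K] F.SplittingField) := Fintype.ofFinite _
    refine ((Fintype.bijective_iff_injective_and_card _).2 ⟨hinj, ?_⟩).2
    rw [← Nat.card_eq_fintype_card, hc, Fintype.card_perm, hcR]
  intro c h1 h2 h3
  rw [← hR] at *
  intro a ha b hb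
  refine lin (ι := R) (by rw [hcR]; exact hlt) (fun x y => c x y) ?_ ?_ ?_ ⟨a, ha⟩ ⟨b, hb⟩
  · intro x
    rw [Finset.sum_coe_sort R (fun y => c x y)]
    exact h1 x x.2
  · intro x
    rw [Finset.sum_coe_sort R (fun y => c y x)]
    exact h2 x x.2
  · intro p
    obtain ⟨g, rfl⟩ := hsurj p
    have h4 := h3 g
    rw [← Finset.sum_coe_sort R (fun a => c (g a) a)] at h4
    exact h4

/-- doubly transitive groups of order prime to `ℓ` -/
theorem lin2 {ℓ : ℕ} [Fact ℓ.Prime] {ι : Type} [Fintype ι] [DecidableEq ι] {G : Type} [Group G]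
    [Fintype G] (ρ : G →* Equiv.Perm ι) (hG : ¬ ℓ ∣ Fintype.card G)
    (h2t : ∀ a b c d : ι, a ≠ b → c ≠ d → ∃ g, ρ g a = c ∧ ρ g b = d) (c : ι → ι → ZMod ℓ)
    (h1 : ∀ a, ∑ b, c a b = 0) (h2 : ∀ b, ∑ a, c a b = 0) (h3 : ∀ g, ∑ a, c (ρ g a) a = 0)
    (x y : ι) : c x y = 0 := by
  classical
  by_cases hy : ∃ a₀, a₀ ≠ y
  swap
  · push Not at hy
    have h4 := h1 x
    rw [Finset.sum_eq_single y (fun b _ hb => absurd (hy b) hb)
      (fun h => absurd (Finset.mem_univ _) h)] at h4
    exact h4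
  obtain ⟨a₀, ha₀⟩ := hy
  obtain ⟨x₀, hx₀⟩ : ∃ x₀, x₀ ≠ x := by
    by_cases hxy : x = y
    · exact ⟨a₀, by rw [hxy]; exact ha₀⟩
    · exact ⟨y, fun h => hxy h.symm⟩
  let N : ι → ι → ι → ι → ℕ := fun y a x z =>
    (Finset.univ.filter fun g : G => ρ g y = x ∧ ρ g a = z).card
  have hN : ∀ y a x z y' a' x' z' : ι, y ≠ a → x ≠ z → y' ≠ a' → x' ≠ z' →
      N y a x z ≤ N y' a' x' z' := by
    intro y a x z y' a' x' z' h4 h5 h6 h7
    obtain ⟨h, hh1, hh2⟩ := h2t y' a' y a h6 h4
    obtain ⟨k, hk1, hk2⟩ := h2t x z x' z' h5 h7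
    refine Finset.card_le_card_of_injOn (fun g => k * g * h) ?_ ?_
    · intro g hg
      rw [Finset.mem_coe, Finset.mem_filter] at hg ⊢
      refine ⟨Finset.mem_univ _, ?_, ?_⟩
      · rw [map_mul, map_mul, Equiv.Perm.mul_apply, Equiv.Perm.mul_apply, hh1, hg.2.1, hk1]
      · rw [map_mul, map_mul, Equiv.Perm.mul_apply, Equiv.Perm.mul_apply, hh2, hg.2.2, hk2]
    · intro g _ g' _ hgg
      exact mul_left_cancel (mul_right_cancel hgg)
  obtain ⟨m, hm⟩ : ∃ m, m = N y a₀ x x₀ := ⟨_, rfl⟩
  have hNm : ∀ a x z : ι, a ≠ y → z ≠ x → N y a x z = m := by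
    intro a x' z h4 h5
    rw [hm]
    exact le_antisymm (hN _ _ _ _ _ _ _ _ h4.symm h5.symm ha₀.symm hx₀.symm)
      (hN _ _ _ _ _ _ _ _ ha₀.symm hx₀.symm h4.symm h5.symm)
  -- sums over the `g` with `g y = x`
  have hsum : ∀ (a x : ι), a ≠ y → ∀ f : ι → ZMod ℓ,
      ∑ g ∈ Finset.univ.filter (fun g : G => ρ g y = x), f (ρ g a) =
        (m : ZMod ℓ) * ∑ z ∈ Finset.univ.erase x, f z := by
    intro a x ha f
    have h4 : ∀ g ∈ Finset.univ.filter (fun g : G => ρ g y = x), ρ g a ∈ Finset.univ.erase x := by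
      intro g hg
      rw [Finset.mem_filter] at hg
      rw [Finset.mem_erase]
      refine ⟨fun h => ha ?_, Finset.mem_univ _⟩
      apply (ρ g).injective
      rw [h, hg.2]
    rw [← Finset.sum_fiberwise_of_maps_to h4, Finset.mul_sum]
    refine Finset.sum_congr rfl fun z hz => ?_
    rw [Finset.mem_erase] at hz
    have h5 : ∀ g ∈ (Finset.univ.filter fun g : G => ρ g y = x).filter (fun g => ρ g a = z),
        f (ρ g a) = f z := by
      intro g hg
      rw [Finset.mem_filter] at hg
      rw [hg.2]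
    rw [Finset.sum_congr rfl h5, Finset.sum_const, nsmul_eq_mul, Finset.filter_filter]
    congr 2
    exact hNm a x z ha hz.1
  have hcnt : ∀ x, ((Finset.univ.filter (fun g : G => ρ g y = x)).card : ℕ) =
      m * (Finset.univ.erase x).card := by
    intro x
    have h4 : ∀ g ∈ Finset.univ.filter (fun g : G => ρ g y = x), ρ g a₀ ∈ Finset.univ.erase x := by
      intro g hg
      rw [Finset.mem_filter] at hg
      rw [Finset.mem_erase]
      refine ⟨fun h => ha₀ ?_, Finset.mem_univ _⟩
      apply (ρ g).injective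
      rw [h, hg.2]
    rw [Finset.card_eq_sum_card_fiberwise h4]
    rw [Finset.sum_congr rfl fun z hz => ?_, Finset.sum_const, smul_eq_mul, mul_comm]
    rw [Finset.mem_erase] at hz
    rw [Finset.filter_filter]
    exact hNm a₀ x z ha₀ hz.1
  have hce : ∀ x : ι, (Finset.univ.erase x).card = Fintype.card ι - 1 := by
    intro x
    rw [Finset.card_erase_of_mem (Finset.mem_univ _), Finset.card_univ]
  -- the order of the group
  have hGc : Fintype.card G = Fintype.card ι * (m * (Fintype.card ι - 1)) := by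
    have h4 : (Finset.univ : Finset G).card =
        ∑ x : ι, (Finset.univ.filter (fun g : G => ρ g y = x)).card :=
      Finset.card_eq_sum_card_fiberwise fun g _ => Finset.mem_univ _
    rw [Finset.card_univ] at h4
    rw [h4, Finset.sum_congr rfl fun x _ => by rw [hcnt x, hce x], Finset.sum_const,
      Finset.card_univ, smul_eq_mul]
  have h0 : ∑ g ∈ Finset.univ.filter (fun g : G => ρ g y = x), ∑ a, c (ρ g a) a = 0 :=
    Finset.sum_eq_zero fun g _ => h3 g
  rw [Finset.sum_comm, ← Finset.add_sum_erase _ _ (Finset.mem_univ y)] at h0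
  have e1 : ∑ g ∈ Finset.univ.filter (fun g : G => ρ g y = x), c (ρ g y) y =
      (m : ZMod ℓ) * ((Fintype.card ι - 1 : ℕ) : ZMod ℓ) * c x y := by
    have h5 : ∀ g ∈ Finset.univ.filter (fun g : G => ρ g y = x), c (ρ g y) y = c x y := by
      intro g hg
      rw [Finset.mem_filter] at hg
      rw [hg.2]
    rw [Finset.sum_congr rfl h5, Finset.sum_const, nsmul_eq_mul, hcnt, hce, Nat.cast_mul]
  have e2 : ∀ a ∈ Finset.univ.erase y,
      ∑ g ∈ Finset.univ.filter (fun g : G => ρ g y = x), c (ρ g a) a = - (m : ZMod ℓ) * c x a := by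
    intro a ha
    rw [hsum a x (Finset.ne_of_mem_erase ha) (fun z => c z a)]
    have h5 := h2 a
    rw [← Finset.add_sum_erase _ _ (Finset.mem_univ x)] at h5
    rw [← neg_eq_of_add_eq_zero_right h5]
    ring
  rw [e1, Finset.sum_congr rfl e2, ← Finset.mul_sum] at h0
  have h6 := h1 x
  rw [← Finset.add_sum_erase _ _ (Finset.mem_univ y)] at h6
  rw [← neg_eq_of_add_eq_zero_right h6] at h0
  have hn1 : 1 ≤ Fintype.card ι := Fintype.card_pos_iff.2 ⟨x⟩
  have h7 : ((m * Fintype.card ι : ℕ) : ZMod ℓ) * c x y = 0 := by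
    rw [Nat.cast_sub hn1] at h0
    push_cast at h0 ⊢
    linear_combination h0
  refine (mul_eq_zero.1 h7).resolve_left ?_
  rw [ZMod.natCast_eq_zero_iff]
  intro h8
  apply hG
  rw [hGc]
  refine h8.trans ⟨Fintype.card ι - 1, ?_⟩
  ring

/-- if the Galois group acts doubly transitively on the roots and its order is prime to `ℓ`, then it is
big -/
theorem big2 {ℓ : ℕ} (hℓ : ℓ.Prime) {K : Type} [Field K] (F : K[X]) (hF0 : F ≠ 0)
    (hG : ¬ ℓ ∣ Nat.card (F.SplittingField ≃ₐ[K] F.SplittingField))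
    (h2t : ∀ a b c d : F.SplittingField, aeval a F = 0 → aeval b F = 0 → aeval c F = 0 →
      aeval d F = 0 → a ≠ b → c ≠ d → ∃ g : F.SplittingField ≃ₐ[K] F.SplittingField,
        g a = c ∧ g b = d) : Def.BigGalois ℓ F := by
  classical
  haveI : Fact ℓ.Prime := ⟨hℓ⟩
  refine ⟨hG, ?_⟩
  obtain ⟨R, hR⟩ : ∃ R, R = (F.aroots F.SplittingField).toFinset := ⟨_, rfl⟩
  have hmem : ∀ x, x ∈ R ↔ aeval x F = 0 := by
    intro x
    rw [hR, Multiset.mem_toFinset, mem_aroots]
    exact ⟨fun h => h.2, fun h => ⟨hF0, h⟩⟩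
  have hstab : ∀ (g : F.SplittingField ≃ₐ[K] F.SplittingField) (x : R), g x ∈ R := by
    intro g x
    rw [hmem]
    have h1 := aeval_algHom_apply (g : F.SplittingField →ₐ[K] F.SplittingField) (x : F.SplittingField) F
    have h2 : aeval (g (x : F.SplittingField)) F = g (aeval (x : F.SplittingField) F) := h1
    rw [h2, (hmem _).1 x.2, map_zero]
  let ρ : (F.SplittingField ≃ₐ[K] F.SplittingField) →* Equiv.Perm R :=
    MonoidHom.toHomPerm ⟨⟨fun g => ((fun x => ⟨g x, hstab g x⟩ : R → R) : Function.End R), by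
      funext x
      rfl⟩, by
      intro g g'
      funext x
      rfl⟩
  have hρ : ∀ g x, ((ρ g x : R) : F.SplittingField) = g x := fun g x => rfl
  haveI : Fintype (F.SplittingField ≃ₐ[K] F.SplittingField) := Fintype.ofFinite _
  intro c h1 h2 h3
  rw [← hR] at *
  intro a ha b hb
  refine lin2 (ι := R) ρ (by rw [← Nat.card_eq_fintype_card]; exact hG) ?_ (fun x y => c x y) ?_ ?_ ?_
    ⟨a, ha⟩ ⟨b, hb⟩
  · intro a b c d hab hcd
    obtain ⟨g, hg1, hg2⟩ := h2t a b c d ((hmem _).1 a.2) ((hmem _).1 b.2) ((hmem _).1 c.2)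
      ((hmem _).1 d.2) (fun h => hab (Subtype.ext h)) (fun h => hcd (Subtype.ext h))
    exact ⟨g, Subtype.ext hg1, Subtype.ext hg2⟩
  · intro x
    rw [Finset.sum_coe_sort R (fun y => c x y)]
    exact h1 x x.2
  · intro x
    rw [Finset.sum_coe_sort R (fun y => c y x)]
    exact h2 x x.2
  · intro g
    have h4 := h3 g
    rw [← Finset.sum_coe_sort R (fun a => c (g a) a)] at h4
    exact h4

end Pool.Agent.T3h73.SG.Symm
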