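import Pool.Agent.T3h73.SG.StmD
import Pool.Agent.T3h73.SL.D.Adj

/-!
# Project SG, task DAV: averaging of a cocycle which is trivial on `Gal(M^sep / M)`
-/

set_option autoImplicit false
set_option linter.all false

open NumberField IsDedekindDomain Polynomial

namespace Pool.Agent.T3h73.SG.DAV

open Pool.Agent.Y713.SE Pool.Agent.Y713.SE.Dat

section
variable {ℓ n : ℕ} {E : Type} [Field E] (D : Dat ℓ n E)

lemma ex_one : ∃ m : Fin n → ℕ, (1 : ClassGroup D.A) = cl (D.PT m) :=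
  ⟨fun _ => 0, (cl_PT_of_modEq D (m := fun _ => 0) (fun _ _ => rfl)).symm⟩

lemma ex_mul {x y : ClassGroup D.A} (hx : ∃ m : Fin n → ℕ, x = cl (D.PT m))
    (hy : ∃ m : Fin n → ℕ, y = cl (D.PT m)) : ∃ m : Fin n → ℕ, x * y = cl (D.PT m) := by
  obtain ⟨m, rfl⟩ := hx
  obtain ⟨m', rfl⟩ := hy
  exact ⟨m + m', (Pool.Agent.T3h73.SL.cl_PT_add D m m').symm⟩

lemma ex_div {x y : ClassGroup D.A} (hx : ∃ m : Fin n → ℕ, x = cl (D.PT m))
    (hy : ∃ m : Fin n → ℕ, y = cl (D.PT m)) : ∃ m : Fin n → ℕ, x / y = cl (D.PT m) := by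
  obtain ⟨m, rfl⟩ := hx
  obtain ⟨m', rfl⟩ := hy
  exact ⟨_, (Pool.Agent.T3h73.SL.cl_PT_sub D m m').symm⟩

lemma ex_pow {x : ClassGroup D.A} (hx : ∃ m : Fin n → ℕ, x = cl (D.PT m)) (k : ℕ) :
    ∃ m : Fin n → ℕ, x ^ k = cl (D.PT m) := by
  induction k with
  | zero => rw [pow_zero]; exact ex_one D
  | succ k ih => rw [pow_succ]; exact ex_mul D ih hx

end

/-- `SeparableClosure M` is normal over `K` -/
lemma norm (K M : Type) [Field K] [NumberField K] [Field M] [NumberField M] [Algebra K M]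
    [IsGalois K M] : Normal K (SeparableClosure M) := by
  haveI : CharZero (SeparableClosure M) := charZero_of_injective_algebraMap
    (algebraMap M (SeparableClosure M)).injective
  haveI : IsAlgClosed (SeparableClosure M) := IsSepClosed.isAlgClosed_of_perfectField _
  haveI : Algebra.IsAlgebraic K M := inferInstance
  haveI : Algebra.IsAlgebraic M (SeparableClosure M) := inferInstance
  haveI : Algebra.IsAlgebraic K (SeparableClosure M) := Algebra.IsAlgebraic.trans K M _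
  haveI : IsAlgClosure K (SeparableClosure M) := ⟨inferInstance, inferInstance⟩
  exact IsAlgClosure.normal K (SeparableClosure M)

/-- an automorphism over `K` which fixes `M` -/
lemma fixM {K M L : Type} [Field K] [Field M] [Field L] [Algebra K M] [Algebra K L] [Algebra M L]
    [IsScalarTower K M L] (σ : L ≃ₐ[K] L) (h : ∀ x : M, σ (algebraMap M L x) = algebraMap M L x) :
    ∃ τ : L ≃ₐ[M] L, τ.restrictScalars K = σ := by
  refine ⟨AlgEquiv.ofRingEquiv (f := σ.toRingEquiv) h, ?_⟩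
  ext x
  rfl

theorem t_DAV : S_DAV := by
  intro ℓ n K M _ _ _ _ _ _ pm D ζ tm χ hD htr
  haveI hnorm : Normal K (SeparableClosure M) := norm K M
  set c : (SeparableClosure M ≃ₐ[K] SeparableClosure M) →
    ClassGroup (D.base (SeparableClosure M)).A :=
      fun σ => cl ((D.base (SeparableClosure M)).PT (χ σ)) with hc
  have hco : ∀ σ τ, c (σ * τ) = c σ * tm σ (c τ) := hD.hco
  have hfix : ∀ σ : SeparableClosure M ≃ₐ[K] SeparableClosure M,
      (∀ x : M, σ (algebraMap M _ x) = algebraMap M _ x) → c σ = 1 := by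
    intro σ h
    obtain ⟨τ, rfl⟩ := fixM σ h
    exact htr τ
  have hdep : ∀ σ τ : SeparableClosure M ≃ₐ[K] SeparableClosure M,
      (∀ x : M, σ (algebraMap M _ x) = τ (algebraMap M _ x)) → c σ = c τ := by
    intro σ τ h
    have h1 : c (τ⁻¹ * σ) = 1 := by
      apply hfix
      intro x
      rw [AlgEquiv.mul_apply, h x, ← AlgEquiv.mul_apply, inv_mul_cancel, AlgEquiv.one_apply]
    have h2 := hco τ (τ⁻¹ * σ)
    rw [mul_inv_cancel_left, h1, map_one, mul_one] at h2
    exact h2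
  have hex : ∀ σ, ∃ m : Fin n → ℕ, c σ = cl ((D.base (SeparableClosure M)).PT m) :=
    fun σ => ⟨χ σ, rfl⟩
  have hp : ℓ.Prime := D.hp
  have hcard : Nat.card (M ≃ₐ[K] M) ≠ 0 := fun h => hD.hG (h ▸ dvd_zero ℓ)
  haveI : Finite (M ≃ₐ[K] M) := Nat.finite_of_card_ne_zero hcard
  haveI : Fintype (M ≃ₐ[K] M) := Fintype.ofFinite _
  let s : (M ≃ₐ[K] M) → (SeparableClosure M ≃ₐ[K] SeparableClosure M) :=
    fun g => g.liftNormal (SeparableClosure M)
  have hs : ∀ g (x : M), s g (algebraMap M _ x) = algebraMap M _ (g x) := fun g x =>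
    AlgEquiv.liftNormal_commutes g (SeparableClosure M) x
  set b : ClassGroup (D.base (SeparableClosure M)).A := ∏ g, c (s g) with hb
  have hbex : ∃ m : Fin n → ℕ, b = cl ((D.base (SeparableClosure M)).PT m) := by
    rw [hb]
    exact Finset.prod_induction _ (fun x => ∃ m : Fin n → ℕ,
      x = cl ((D.base (SeparableClosure M)).PT m)) (fun x y => ex_mul _) (ex_one _)
      fun g _ => hex _
  have hmain : ∀ σ, c σ ^ Nat.card (M ≃ₐ[K] M) = b / tm σ b := by
    intro σ
    rw [eq_div_iff_mul_eq', hb]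
    have h1 : ∏ g, c (σ * s g) = ∏ g, c (s g) := by
      let h := σ.restrictNormal M
      have h2 : ∀ g, c (σ * s g) = c (s (h * g)) := by
        intro g
        apply hdep
        intro x
        rw [AlgEquiv.mul_apply, hs, hs, AlgEquiv.mul_apply]
        exact (AlgEquiv.restrictNormal_commutes σ M (g x)).symm
      rw [Finset.prod_congr rfl fun g _ => h2 g]
      exact Equiv.prod_comp (Equiv.mulLeft h) fun g => c (s g)
    have h3 : ∏ g, c (σ * s g) = c σ ^ Nat.card (M ≃ₐ[K] M) * tm σ (∏ g, c (s g)) := by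
      rw [Finset.prod_congr rfl fun g _ => hco σ (s g), Finset.prod_mul_distrib,
        Finset.prod_const, Finset.card_univ, Nat.card_eq_fintype_card, map_prod]
    exact h3.symm.trans h1
  have hord : ∀ σ, c σ ^ ℓ = 1 := fun σ => Pool.Agent.T3h73.SL.cl_PT_pow _ _
  obtain ⟨N, q, hN⟩ : ∃ N q : ℕ, Nat.card (M ≃ₐ[K] M) * N = ℓ * q + 1 := by
    have hcop : Nat.Coprime (Nat.card (M ≃ₐ[K] M)) ℓ :=
      ((Nat.Prime.coprime_iff_not_dvd hp).2 hD.hG).symm
    obtain ⟨N, hN⟩ := Nat.exists_mul_mod_eq_one_of_coprime hcop hp.one_lt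
    refine ⟨N, Nat.card (M ≃ₐ[K] M) * N / ℓ, ?_⟩
    have := Nat.div_add_mod (Nat.card (M ≃ₐ[K] M) * N) ℓ
    omega
  have hfin : ∀ σ, c σ = b ^ N / tm σ (b ^ N) := by
    intro σ
    have h1 : c σ = c σ ^ (Nat.card (M ≃ₐ[K] M) * N) := by
      rw [hN, pow_succ, pow_mul, hord, one_pow, one_mul]
    rw [h1, pow_mul, hmain, div_pow, map_pow]
  obtain ⟨m, hm⟩ := ex_div (D.base (SeparableClosure M)) (ex_one _) (ex_pow _ hbex N)
  refine ⟨m, fun σ => ?_⟩
  show c σ = _
  rw [hfin σ, ← hm, _root_.map_div, map_one, one_div, one_div, inv_div_inv]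

end Pool.Agent.T3h73.SG.DAV
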