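import Pool.Agent.T3h73.SG.StmD

/-! Project SG, task DCR (helper69): locally trivial cocycles with values in the kernel of `1 - s`. -/

set_option autoImplicit false
set_option linter.all false

open Polynomial IsDedekindDomain NumberField

namespace Pool.Agent.T3h73.SG

open Pool.Agent.T3h73.SL (Pl IsP Pk loc)
open Pool.Agent.T3h73.SN (Lcv Kx tor δu gu S_LCC S_ADJ S_LCV)
open Pool.Agent.Y713.SE Pool.Agent.Y713.SE.Dat
open Pool.Agent.Y713.Jac (J mapJ Gal)

namespace DCR

/-- `Gal(L/M) → Gal(L/K)` is continuous -/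
theorem continuous_rs (K M L : Type) [Field K] [Field M] [Field L] [Algebra K M] [Algebra M L]
    [Algebra K L] [IsScalarTower K M L] :
    Continuous (fun σ : L ≃ₐ[M] L => (σ.restrictScalars K : L ≃ₐ[K] L)) := by
  let f : (L ≃ₐ[M] L) →* (L ≃ₐ[K] L) :=
    { toFun := fun σ => σ.restrictScalars K
      map_one' := rfl
      map_mul' := fun _ _ => rfl }
  show Continuous f
  apply continuous_of_continuousAt_one
  rw [ContinuousAt, map_one]
  intro U hU
  rw [Filter.mem_map]
  obtain ⟨E, hE, hEU⟩ := (krullTopology_mem_nhds_one_iff K L U).1 hU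
  haveI := hE
  obtain ⟨s, hs⟩ := (Module.Finite.fg_top : (⊤ : Submodule K E).FG)
  refine (krullTopology_mem_nhds_one_iff M L _).2
    ⟨IntermediateField.adjoin M (Subtype.val '' (s : Set E)), ?_, ?_⟩
  · haveI : Finite (Subtype.val '' (s : Set E) : Set L) := (s.finite_toSet.image _)
    apply IntermediateField.finiteDimensional_adjoin
    rintro x ⟨y, -, rfl⟩
    have h2 : IsIntegral K y := IsIntegral.of_finite K _
    have h3 : IsIntegral K (y : L) := h2.map E.val
    exact h3.tower_top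
  · intro σ hσ
    apply hEU
    rw [SetLike.mem_coe, IntermediateField.mem_fixingSubgroup_iff] at hσ ⊢
    intro x hx
    have h1 : (⟨x, hx⟩ : E) ∈ Submodule.span K (s : Set E) := by
      rw [hs]; trivial
    have h2 : ∀ y : E, y ∈ Submodule.span K (s : Set E) → σ (y : L) = y := by
      intro y hy
      induction hy using Submodule.span_induction with
      | mem y hy => exact hσ y (IntermediateField.subset_adjoin M _ ⟨y, hy, rfl⟩)
      | zero => exact map_zero σ
      | add y z _ _ hy hz =>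
        show σ ((y : L) + z) = (y : L) + z
        rw [map_add, hy, hz]
      | smul a y _ hy =>
        show σ (a • (y : L)) = a • (y : L)
        have h4 : (σ.restrictScalars K : L ≃ₐ[K] L) (a • (y : L)) =
            a • (σ.restrictScalars K : L ≃ₐ[K] L) (y : L) := map_smul _ _ _
        exact h4.trans (congrArg _ hy)
    exact h2 ⟨x, hx⟩ h1

end DCR

open DCR in
theorem t_DCR (hADJ : S_ADJ) (hLCC : S_LCC) (hPLC : S_PLC) (hDKU : S_DKU) (hDAV : S_DAV) :
    S_DCR := by
  intro ℓ n h2 K M _ _ _ _ _ _ pm D ζ tm χ hC S hsep hS ht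
  have hc : D.Coc (fun σ : SeparableClosure M ≃ₐ[M] SeparableClosure M =>
      cl ((D.base (SeparableClosure M)).PT (χ (σ.restrictScalars K)))) := by
    refine ⟨?_, fun σ τ => ?_⟩
    · exact hC.hlc.comp_continuous (continuous_rs K M (SeparableClosure M))
    · have h1 := hC.hco (σ.restrictScalars K) (τ.restrictScalars K)
      rw [hC.htm] at h1
      exact h1
  obtain ⟨kd⟩ := D.exists_KD hc
  obtain ⟨x, hx⟩ := (hADJ ℓ n h2 M D (SeparableClosure M)).2 _ kd
  have hsel := hS x (hDKU ℓ n K M pm D ζ tm χ hC kd x hx) hx.1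
    (fun w _ => (hLCC ℓ n h2 M D w _ hc (ht w) kd x hx).1)
    (fun w hw => ((hLCC ℓ n h2 M D w _ hc (ht w) kd x hx).2 (hsep w hw).1 (hsep w hw).2).1)
    (fun w hw => ((hLCC ℓ n h2 M D w _ hc (ht w) kd x hx).2 (hsep w hw).1 (hsep w hw).2).2)
  refine hDAV ℓ n K M pm D ζ tm χ hC fun σ => ?_
  refine (D.base (SeparableClosure M)).cl_PT_of_modEq fun i j => ?_
  obtain ⟨z, hz⟩ := hx.2 i j
  obtain ⟨a, ha⟩ := hsel i
  obtain ⟨b, hb⟩ := hsel j
  refine D.modEq_of_pow kd (y := (a : M) * z / b) ?_ σ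
  have hb0 : (b : M) ≠ 0 := b.ne_zero
  rw [ha, hb] at hz
  push_cast at hz
  rw [div_pow, mul_pow, eq_div_iff (pow_ne_zero _ hb0)]
  exact hz

end Pool.Agent.T3h73.SG
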