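import Pool.Agent.T3h73.SG.JBas

/-!
# SG/DKU (helper88): the Kummer classes of a cocycle over `K` are equivariant
-/

set_option autoImplicit false
set_option linter.all false

open Polynomial IsDedekindDomain NumberField Topology

namespace Pool.Agent.T3h73.SG.DKU

open Pool.Agent.Y713.Jac (J mapJ Gal)
open Pool.Agent.T3h73.SL (Pl IsP)
open Pool.Agent.T3h73.SN (Kx)
open Pool.Agent.Y713.SE Pool.Agent.Y713.SE.Dat

/-- elements which agree modulo `ℓ`-th powers and whose product is an `ℓ`-th power -/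
theorem all_pow {G : Type} [CommGroup G] {ℓ n : ℕ} (hp : ℓ.Prime) (hn : ¬ ℓ ∣ n) (y : Fin n → G)
    (h1 : ∀ i j, ∃ z : G, y i / y j = z ^ ℓ) (h2 : ∃ z : G, ∏ i, y i = z ^ ℓ) (i : Fin n) :
    ∃ z : G, y i = z ^ ℓ := by
  have h3 : ∃ z : G, y i ^ n = z ^ ℓ := by
    choose z hz using fun j => h1 i j
    obtain ⟨w, hw⟩ := h2
    refine ⟨(∏ j, z j) * w, ?_⟩
    rw [mul_pow, ← hw, ← Finset.prod_pow, ← Finset.prod_mul_distrib]
    have : ∀ j, z j ^ ℓ * y j = y i := fun j => by rw [← hz j, div_mul_cancel]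
    rw [Finset.prod_congr rfl fun j _ => this j, Finset.prod_const, Finset.card_univ,
      Fintype.card_fin]
  obtain ⟨z, hz⟩ := h3
  have hc : IsCoprime (n : ℤ) (ℓ : ℤ) := by
    rw [Nat.isCoprime_iff_coprime]
    exact ((Nat.Prime.coprime_iff_not_dvd hp).2 hn).symm
  obtain ⟨a, b, hab⟩ := hc
  refine ⟨z ^ a * y i ^ b, ?_⟩
  calc y i = y i ^ (a * n + b * ℓ) := by rw [hab, zpow_one]
    _ = (y i ^ n) ^ a * (y i ^ b) ^ ℓ := by
        rw [zpow_add, mul_comm a, zpow_mul, zpow_mul, zpow_natCast, zpow_natCast]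
    _ = (z ^ a * y i ^ b) ^ ℓ := by
        rw [hz, mul_pow, ← zpow_natCast (z ^ a), ← zpow_mul, mul_comm a, zpow_mul, zpow_natCast]

theorem t_DKU : S_DKU := by
  intro ℓ n K M _ _ _ _ _ _ pm D ζ tm χ hC kd x hx γ i
  haveI : Algebra.IsSeparable K M := inferInstance
  haveI : Algebra.IsSeparable K (SeparableClosure M) := Algebra.IsSeparable.trans K M _
  haveI : IsSepClosure K (SeparableClosure M) := ⟨inferInstance, inferInstance⟩
  haveI : IsGalois K (SeparableClosure M) := IsSepClosure.isGalois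
  set L := SeparableClosure M with hL
  set ω : L := (D.base L).ζ with hω
  have hω0 : ω ≠ 0 := (D.base L).ζ_ne
  let s0 : L ≃ₐ[K] L := AlgEquiv.liftNormal γ L
  have hs0 : ∀ m : M, s0 (algebraMap M L m) = algebraMap M L (γ m) := fun m =>
    AlgEquiv.liftNormal_commutes γ L m
  have hs0ω : s0 ω = ω := by
    have h1 : ω = algebraMap K L ζ := by
      rw [hω]
      show algebraMap M L D.ζ = _
      rw [hC.hζ, ← IsScalarTower.algebraMap_apply K M L]
    rw [h1, s0.commutes]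
  -- conjugation
  have hconj : ∀ σ : L ≃ₐ[M] L, ∃ σ' : L ≃ₐ[M] L,
      σ'.restrictScalars K * s0 = s0 * σ.restrictScalars K := by
    intro σ
    refine ⟨AlgEquiv.ofRingEquiv (f := (s0 * σ.restrictScalars K * s0⁻¹).toRingEquiv) ?_, ?_⟩
    · intro m
      show s0 (σ (s0.symm (algebraMap M L m))) = algebraMap M L m
      have h1 : s0.symm (algebraMap M L m) = algebraMap M L (γ.symm m) := by
        rw [AlgEquiv.symm_apply_eq, hs0, AlgEquiv.apply_symm_apply]
      rw [h1, σ.commutes, hs0, AlgEquiv.apply_symm_apply]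
    · refine AlgEquiv.ext fun y => ?_
      show s0 (σ (s0.symm (s0 y))) = s0 (σ y)
      rw [AlgEquiv.symm_apply_apply]
  have hconj' : ∀ σ' : L ≃ₐ[M] L, ∃ σ : L ≃ₐ[M] L,
      σ'.restrictScalars K * s0 = s0 * σ.restrictScalars K := by
    intro σ'
    refine ⟨AlgEquiv.ofRingEquiv (f := (s0⁻¹ * σ'.restrictScalars K * s0).toRingEquiv) ?_, ?_⟩
    · intro m
      show s0.symm (σ' (s0 (algebraMap M L m))) = algebraMap M L m
      rw [hs0, σ'.commutes, ← hs0, AlgEquiv.symm_apply_apply]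
    · refine AlgEquiv.ext fun y => ?_
      show σ' (s0 y) = s0 (s0.symm (σ' (s0 y)))
      rw [AlgEquiv.apply_symm_apply]
  -- the congruences
  have hmod : ∀ σ σ' : L ≃ₐ[M] L, σ'.restrictScalars K * s0 = s0 * σ.restrictScalars K →
      ∀ i j, χ (σ'.restrictScalars K) (pm γ i) + χ (σ.restrictScalars K) j ≡
        χ (σ'.restrictScalars K) (pm γ j) + χ (σ.restrictScalars K) i [MOD ℓ] := by
    intro σ σ' h i j
    have h1 := hC.hco (σ'.restrictScalars K) s0
    rw [h, hC.hco, hC.htm, mC_PT, mul_comm] at h1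
    have h2 := mul_right_cancel h1
    rw [hC.hPT s0 γ hs0] at h2
    have h3 := (D.base L).PT_indep h2.symm (pm γ i) (pm γ j)
    have e1 : ∀ k, (pm γ)⁻¹ (pm γ k) = k := fun k => Equiv.symm_apply_apply _ _
    rw [e1, e1] at h3
    exact h3
  -- the Kummer classes
  have hr : ∀ i j, ∃ r : M, r ≠ 0 ∧ γ (kd.d i j) = kd.d (pm γ i) (pm γ j) * r ^ ℓ := by
    intro i j
    set θ' := kd.θ (pm γ i) (pm γ j) with hθ'
    have hθ'0 : θ' ≠ 0 := kd.h0 _ _
    have hfix : ∀ σ' : L ≃ₐ[M] L, σ' (s0 (kd.θ i j) / θ') = s0 (kd.θ i j) / θ' := by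
      intro σ'
      obtain ⟨σ, hσ⟩ := hconj' σ'
      have h1 := congrArg s0 (kd.hθ σ i j)
      rw [_root_.map_mul, _root_.map_mul, _root_.map_pow, _root_.map_pow, hs0ω] at h1
      have h2 : s0 (σ (kd.θ i j)) = σ' (s0 (kd.θ i j)) :=
        (congrArg (fun φ : L ≃ₐ[K] L => φ (kd.θ i j)) hσ).symm
      rw [h2] at h1
      have h3 := kd.hθ σ' (pm γ i) (pm γ j)
      rw [← hθ'] at h3
      have h4 := (D.base L).ζ_pow_of_modEq (hmod σ σ' hσ i j)
      rw [← hω, pow_add, pow_add] at h4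
      have h1' : ω ^ χ (σ.restrictScalars K) j * σ' (s0 (kd.θ i j)) =
        ω ^ χ (σ.restrictScalars K) i * s0 (kd.θ i j) := h1
      have h3' : ω ^ χ (σ'.restrictScalars K) (pm γ j) * σ' θ' =
        ω ^ χ (σ'.restrictScalars K) (pm γ i) * θ' := h3
      rw [map_div₀]
      have hσθ : σ' θ' ≠ 0 := (_root_.map_ne_zero _).2 hθ'0
      rw [div_eq_div_iff hσθ hθ'0]
      set a := ω ^ χ (σ.restrictScalars K) j with ha
      set b := ω ^ χ (σ.restrictScalars K) i
      set c := ω ^ χ (σ'.restrictScalars K) (pm γ j) with hc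
      set d := ω ^ χ (σ'.restrictScalars K) (pm γ i)
      set X := s0 (kd.θ i j)
      have ha0 : a ≠ 0 := pow_ne_zero _ hω0
      have hc0 : c ≠ 0 := pow_ne_zero _ hω0
      apply mul_left_cancel₀ (mul_ne_zero ha0 hc0)
      calc a * c * (σ' X * θ') = (a * σ' X) * (c * θ') := by ring
        _ = (b * X) * (c * θ') := by rw [h1']
        _ = (c * b) * X * θ' := by ring
        _ = (d * a) * X * θ' := by rw [h4]
        _ = a * X * (d * θ') := by ring
        _ = a * X * (c * σ' θ') := by rw [h3']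
        _ = a * c * (X * σ' θ') := by ring
    obtain ⟨r, hr⟩ := (InfiniteGalois.mem_range_algebraMap_iff_fixed (k := M) (K := L) _).2 hfix
    have hX : s0 (kd.θ i j) = θ' * algebraMap M L r := by
      rw [hr, mul_div_cancel₀ _ hθ'0]
    have hX0 : s0 (kd.θ i j) ≠ 0 := (_root_.map_ne_zero _).2 (kd.h0 i j)
    refine ⟨r, ?_, ?_⟩
    · rintro rfl
      rw [_root_.map_zero, mul_zero] at hX
      exact hX0 hX
    · apply (algebraMap M L).injective
      rw [← hs0, ← kd.hd, _root_.map_pow, hX, mul_pow, kd.hd, _root_.map_mul, _root_.map_pow]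
  obtain ⟨⟨z0, hz0⟩, hx2⟩ := hx
  let γu : Mˣ →* Mˣ := Units.map (γ : M →* M)
  have hγu : ∀ u : Mˣ, ((γu u : Mˣ) : M) = γ (u : M) := fun u => rfl
  obtain ⟨z, hz⟩ := all_pow D.hp D.hn (fun i => γu (x i) / x (pm γ i))
    (by
      intro i j
      obtain ⟨r, hr0, hr⟩ := hr i j
      obtain ⟨z1, hz1⟩ := hx2 i j
      obtain ⟨z2, hz2⟩ := hx2 (pm γ i) (pm γ j)
      have h1 := congrArg γ hz1
      rw [_root_.map_mul, _root_.map_mul, _root_.map_pow, hr] at h1
      let ru : Mˣ := Units.mk0 r hr0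
      refine ⟨z2 * ru / γu z1, ?_⟩
      have hxi : (γ (x i : M)) ≠ 0 := (_root_.map_ne_zero _).2 (x i).ne_zero
      have hxj : (γ (x j : M)) ≠ 0 := (_root_.map_ne_zero _).2 (x j).ne_zero
      have hxz : (γ (z1 : M)) ≠ 0 := (_root_.map_ne_zero _).2 z1.ne_zero
      have hyi := (x (pm γ i)).ne_zero
      have hyj := (x (pm γ j)).ne_zero
      have hz20 := z2.ne_zero
      ext
      simp only [Units.val_div_eq_div_val, Units.val_pow_eq_pow_val, Units.val_mul, hγu]
      show γ (x i : M) / (x (pm γ i) : M) / (γ (x j : M) / (x (pm γ j) : M)) =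
        ((z2 : M) * r / γ (z1 : M)) ^ ℓ
      rw [div_pow, mul_pow]
      have hpz : γ (z1 : M) ^ ℓ ≠ 0 := pow_ne_zero _ hxz
      rw [div_div_div_eq, div_eq_div_iff (mul_ne_zero hyi hxj) hpz]
      -- `γ x_i * x_{γ j} * γ z1 ^ ℓ = z2 ^ ℓ * r ^ ℓ * (x_{γ i} * γ x_j)`
      calc γ (x i : M) * (x (pm γ j) : M) * γ (z1 : M) ^ ℓ
          = (γ (x i : M) * γ (z1 : M) ^ ℓ) * (x (pm γ j) : M) := by ring
        _ = (kd.d (pm γ i) (pm γ j) * r ^ ℓ * γ (x j : M)) * (x (pm γ j) : M) := by rw [h1]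
        _ = (kd.d (pm γ i) (pm γ j) * (x (pm γ j) : M)) * r ^ ℓ * γ (x j : M) := by ring
        _ = (x (pm γ i) : M) * (z2 : M) ^ ℓ * r ^ ℓ * γ (x j : M) := by rw [hz2]
        _ = _ := by ring)
    (by
      refine ⟨γu z0 / z0, ?_⟩
      rw [Finset.prod_div_distrib, Equiv.prod_comp (pm γ) x, ← _root_.map_prod, hz0,
        _root_.map_pow, div_pow]) i
  refine ⟨z, ?_⟩
  have h1 : γu (x i) = x (pm γ i) * z ^ ℓ := by
    rw [← hz, mul_div_cancel]
  have h2 : ((γu (x i) : Mˣ) : M) = ((x (pm γ i) * z ^ ℓ : Mˣ) : M) := by rw [h1]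
  rw [Units.val_mul, Units.val_pow_eq_pow_val] at h2
  exact h2

end Pool.Agent.T3h73.SG.DKU
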