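import Pool.Agent.T3h73.SG.JBas
import Pool.Agent.TH115.TC.Compl

/-!
# SG/DLC (helper88): local triviality over the completions of `M`
-/

set_option autoImplicit false
set_option linter.all false

open Polynomial IsDedekindDomain NumberField Topology

namespace Pool.Agent.T3h73.SG.DLC

open Pool.Agent.Y713.Jac (J mapJ Gal)
open Pool.Agent.T3h73.SL (Pl)
open Pool.Agent.T3h73.SG.JBas

theorem grp {G : Type*} [CommGroup G] (b u v w : G) : b * (v / w) / u = (v / u) / (w / b) := by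
  simp only [div_eq_mul_inv, mul_inv, inv_inv, mul_comm, mul_left_comm, mul_assoc]

theorem core {ℓ : ℕ} {K M L Kv Mw Ov Ow : Type} [Field K] [Field M] [Field L] [Field Kv]
    [Field Mw] [Field Ov] [Field Ow]
    [Algebra K M] [Algebra K L] [Algebra M L] [IsScalarTower K M L]
    [Algebra K Kv] [Algebra Kv Ov] [Algebra K Ov] [IsScalarTower K Kv Ov]
    [Algebra M Mw] [Algebra K Mw] [Algebra Mw Ow] [Algebra M Ow]
    [IsScalarTower M Mw Ow] [Algebra K Ow] [IsScalarTower K Mw Ow] [IsScalarTower K M Ow]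
    [Normal K M] [Normal K L] [Normal Kv Ov] [Algebra.IsSeparable Kv Ov] [IsSepClosed Ow]
    (F : K[X]) (j : Kv →+* Mw) (hj : ∀ x : K, j (algebraMap K Kv x) = algebraMap K Mw x)
    (f : (L ≃ₐ[K] L) → J ℓ F L) (hf : ∀ σ τ, f (σ * τ) = f σ * mapJ ℓ F σ.toAlgHom (f τ))
    (ht : TrvL F Kv Ov f) :
    ∃ (ι : L →ₐ[M] Ow) (hι : ∀ x : K, ι (algebraMap K _ x) = algebraMap K _ x) (P : J ℓ F Ow),
      ∀ (τ : Ow ≃ₐ[Mw] Ow) (σ : L ≃ₐ[M] L), (∀ x, τ (ι x) = ι (σ x)) →
        mapJ ℓ F (⟨(ι : L →+* Ow), hι⟩ : L →ₐ[K] Ow) (f (σ.restrictScalars K)) =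
          mapJ ℓ F (τ.toAlgHom.restrictScalars K) P / P := by
  obtain ⟨ι, P, hP⟩ := ht
  letI : Algebra Kv Ow := ((algebraMap Mw Ow).comp j).toAlgebra
  have hKv : ∀ y : Kv, algebraMap Kv Ow y = algebraMap Mw Ow (j y) := fun y => rfl
  have κ : Ov →ₐ[Kv] Ow := IsSepClosed.lift
  letI : Algebra Ov Ow := (κ : Ov →+* Ow).toAlgebra
  have hOv : ∀ y : Ov, algebraMap Ov Ow y = κ y := fun y => rfl
  haveI : IsScalarTower Kv Ov Ow := IsScalarTower.of_algebraMap_eq fun y => (κ.commutes y).symm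
  have hκK : ∀ x : K, κ (algebraMap K Ov x) = algebraMap K Ow x := by
    intro x
    rw [IsScalarTower.algebraMap_apply K Kv Ov, κ.commutes, hKv, hj,
      ← IsScalarTower.algebraMap_apply K Mw Ow]
  let κK : Ov →ₐ[K] Ow := ⟨(κ : Ov →+* Ow), hκK⟩
  have hκKa : ∀ y, κK y = κ y := fun y => rfl
  let ι0 : L →ₐ[K] Ow := κK.comp ι
  have hι0 : ∀ y, ι0 y = κ (ι y) := fun y => rfl
  -- the automorphism of `M`
  let a : M →ₐ[K] Ow := ι0.comp (IsScalarTower.toAlgHom K M L)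
  let g : M ≃ₐ[K] M := Normal.algHomEquivAut K Ow M a
  have hg : ∀ m : M, ι0 (algebraMap M L m) = algebraMap M Ow (g m) := by
    intro m
    have h1 : (Normal.algHomEquivAut K Ow M).symm g = a := Equiv.symm_apply_apply _ _
    have h2 := congrArg (fun φ : M →ₐ[K] Ow => φ m) h1
    exact h2.symm
  let s0 : L ≃ₐ[K] L := AlgEquiv.liftNormal g L
  have hs0 : ∀ m : M, s0 (algebraMap M L m) = algebraMap M L (g m) := fun m =>
    AlgEquiv.liftNormal_commutes g L m
  let ιK : L →ₐ[K] Ow := ι0.comp s0.symm.toAlgHom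
  have hιK : ∀ x, ιK (s0 x) = ι0 x := by
    intro x
    show ι0 (s0.symm (s0 x)) = ι0 x
    rw [AlgEquiv.symm_apply_apply]
  have hιM : ∀ m : M, ιK (algebraMap M L m) = algebraMap M Ow m := by
    intro m
    have h1 : algebraMap M L m = s0 (algebraMap M L (g.symm m)) := by
      rw [hs0, AlgEquiv.apply_symm_apply]
    rw [h1, hιK, hg, AlgEquiv.apply_symm_apply]
  let ιM : L →ₐ[M] Ow := ⟨(ιK : L →+* Ow), hιM⟩
  have e1 : ∀ hι : ∀ x : K, ιM (algebraMap K _ x) = algebraMap K _ x,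
      (⟨(ιM : L →+* Ow), hι⟩ : L →ₐ[K] Ow) = ιK := fun hι => AlgHom.ext fun x => rfl
  -- the cocycle
  have hf1 : f 1 = 1 := by
    have h := hf 1 1
    have h2 : mapJ ℓ F (1 : L ≃ₐ[K] L).toAlgHom (f 1) = f 1 := by
      have : (1 : L ≃ₐ[K] L).toAlgHom = AlgHom.id K L := AlgHom.ext fun x => rfl
      rw [this, mapJ_id]
    rw [mul_one, h2] at h
    exact (mul_eq_left.1 h.symm)
  set b := mapJ ℓ F ιK (f s0) with hb
  refine ⟨ιM, fun x => ιK.commutes x, mapJ ℓ F κK P / b, ?_⟩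
  intro τ σ hτσ
  rw [e1]
  have hτσ' : ∀ x, τ (ιK x) = ιK (σ x) := hτσ
  set σK : L ≃ₐ[K] L := σ.restrictScalars K with hσK
  let s' : L ≃ₐ[K] L := s0⁻¹ * σK * s0
  have hs' : ∀ x, τ (ι0 x) = ι0 (s' x) := by
    intro x
    rw [← hιK x, hτσ', ← hιK (s' x)]
    congr 1
    show σ (s0 x) = s0 (s0.symm (σ (s0 x)))
    rw [AlgEquiv.apply_symm_apply]
  -- the automorphism of `Ov`
  let τ' : Ow ≃ₐ[Kv] Ow := AlgEquiv.ofRingEquiv (f := τ.toRingEquiv) (fun y => by
    show τ (algebraMap Kv Ow y) = algebraMap Kv Ow y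
    rw [hKv, τ.commutes])
  let tv : Ov ≃ₐ[Kv] Ov := τ'.restrictNormal Ov
  have htv : ∀ y, κ (tv y) = τ (κ y) := fun y => AlgEquiv.restrictNormal_commutes τ' Ov y
  have h5 := hP tv s' (fun x => by
    refine (κ : Ov →+* Ow).injective ?_
    show κ (tv (ι x)) = κ (ι (s' x))
    rw [htv]
    exact hs' x)
  have h6 := congrArg (mapJ ℓ F κK) h5
  rw [_root_.map_div, mapJ_comp, mapJ_comp] at h6
  have h7 : κK.comp (tv.toAlgHom.restrictScalars K) = (τ.toAlgHom.restrictScalars K).comp κK :=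
    AlgHom.ext fun y => htv y
  rw [h7, ← mapJ_comp κK] at h6
  have h8 : κK.comp ι = ιK.comp s0.toAlgHom := AlgHom.ext fun y => (hιK y).symm
  rw [h8, ← mapJ_comp] at h6
  -- the cocycle identity
  have h9 : f σK = f s0 * mapJ ℓ F s0.toAlgHom (f s') / mapJ ℓ F σK.toAlgHom (f s0) := by
    have h10 : f (σK * s0) = f σK * mapJ ℓ F σK.toAlgHom (f s0) := hf _ _
    have h11 : σK * s0 = s0 * s' := by
      show _ = s0 * (s0⁻¹ * σK * s0)
      group
    rw [h11, hf] at h10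
    rw [h10, mul_div_cancel_right]
  rw [h9, _root_.map_div, _root_.map_mul, h6, _root_.map_div]
  have h12 : mapJ ℓ F ιK (mapJ ℓ F σK.toAlgHom (f s0)) =
      mapJ ℓ F (τ.toAlgHom.restrictScalars K) b := by
    rw [hb]
    exact mapJ_sq _ _ _ _ (fun x => (hτσ' x).symm) _
  rw [h12, ← hb]
  exact grp _ _ _ _

theorem t_DLC (hPLC : S_PLC) : S_DLC := by
  intro ℓ K M _ _ _ _ _ _ F f hf w ht
  obtain ⟨-, -, -, -, -, -, -, -, -, hval⟩ := hPLC K M
  obtain ⟨e, he, -, hx⟩ := hval w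
  obtain ⟨j, hj, -, -⟩ := Pool.Agent.TH115.GD.exists_compl_map (lo w : Pl K) w (algebraMap K M)
    (fun x hx1 => by
      rw [hx]
      exact pow_le_one' hx1 e)
    (fun x hx1 => by
      rw [hx]
      exact pow_lt_one' hx1 he.ne')
  haveI : Algebra.IsSeparable K M := inferInstance
  haveI : Algebra.IsSeparable K (SeparableClosure M) := Algebra.IsSeparable.trans K M _
  haveI : IsSepClosure K (SeparableClosure M) := ⟨inferInstance, inferInstance⟩
  haveI : IsGalois K (SeparableClosure M) := IsSepClosure.isGalois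
  haveI : IsScalarTower K M (SeparableClosure (w.adicCompletion M)) :=
    IsScalarTower.of_algebraMap_eq fun x => rfl
  exact core F j (fun x => hj x) f hf ht

end Pool.Agent.T3h73.SG.DLC
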