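import Pool.Agent.T3h73.SG.StmD

/-! Project SG, task DMN (helper69): descent. -/

set_option autoImplicit false
set_option linter.all false

open Polynomial IsDedekindDomain NumberField

namespace Pool.Agent.T3h73.SG

open Pool.Agent.T3h73.SL (Pl IsP Pk loc)
open Pool.Agent.T3h73.SN (Lcv Kx tor δu gu S_LCC S_ADJ S_LCV)
open Pool.Agent.Y713.SE Pool.Agent.Y713.SE.Dat
open Pool.Agent.Y713.Jac (J mapJ Gal coordMap CoordRing)

namespace DMN

section functor
variable {ℓ : ℕ} {K : Type} [Field K] (F : K[X]) {L L' L'' : Type} [Field L] [Algebra K L]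
  [Field L'] [Algebra K L'] [Field L''] [Algebra K L'']

theorem coordMap_comp (φ : L →ₐ[K] L') (ψ : L' →ₐ[K] L'') :
    (coordMap ℓ F ψ).comp (coordMap ℓ F φ) = coordMap ℓ F (ψ.comp φ) := by
  apply AdjoinRoot.ringHom_ext
  · apply RingHom.ext
    intro a
    show coordMap ℓ F ψ (coordMap ℓ F φ (AdjoinRoot.of _ a)) =
      coordMap ℓ F (ψ.comp φ) (AdjoinRoot.of _ a)
    unfold coordMap
    rw [AdjoinRoot.map_of, AdjoinRoot.map_of, AdjoinRoot.map_of]
    congr 1
    rw [coe_mapRingHom, coe_mapRingHom, coe_mapRingHom, Polynomial.map_map]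
    rfl
  · show coordMap ℓ F ψ (coordMap ℓ F φ (AdjoinRoot.root _)) =
      coordMap ℓ F (ψ.comp φ) (AdjoinRoot.root _)
    unfold coordMap
    rw [AdjoinRoot.map_root, AdjoinRoot.map_root, AdjoinRoot.map_root]

theorem coordMap_id : coordMap ℓ F (AlgHom.id K L) = RingHom.id _ := by
  apply AdjoinRoot.ringHom_ext
  · apply RingHom.ext
    intro a
    show coordMap ℓ F (AlgHom.id K L) (AdjoinRoot.of _ a) = AdjoinRoot.of _ a
    unfold coordMap
    rw [AdjoinRoot.map_of]
    congr 1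
    rw [coe_mapRingHom]
    exact Polynomial.map_id
  · show coordMap ℓ F (AlgHom.id K L) (AdjoinRoot.root _) = AdjoinRoot.root _
    unfold coordMap
    rw [AdjoinRoot.map_root]

theorem mapJ_mapJ (φ : L →ₐ[K] L') (ψ : L' →ₐ[K] L'') (x : J ℓ F L) :
    mapJ ℓ F ψ (mapJ ℓ F φ x) = mapJ ℓ F (ψ.comp φ) x := by
  unfold mapJ
  rw [CommRing.Pic.mapRingHom_mapRingHom, coordMap_comp]

theorem mapJ_id (x : J ℓ F L) : mapJ ℓ F (AlgHom.id K L) x = x := by
  unfold mapJ
  rw [coordMap_id]
  exact CommRing.Pic.mapRingHom_id_apply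

theorem mapJ_one (x : J ℓ F L) : mapJ ℓ F (1 : L ≃ₐ[K] L).toAlgHom x = x := mapJ_id F x

theorem mapJ_mul (σ τ : L ≃ₐ[K] L) (x : J ℓ F L) :
    mapJ ℓ F (σ * τ).toAlgHom x = mapJ ℓ F σ.toAlgHom (mapJ ℓ F τ.toAlgHom x) := by
  rw [mapJ_mapJ]
  rfl

end functor

section act
variable {Γ A B : Type} [Group Γ] [CommGroup A] [CommGroup B] (β : A ≃* B) (ρ : Γ → B →* B)
  (h1 : ∀ x, ρ 1 x = x) (hm : ∀ σ τ x, ρ (σ * τ) x = ρ σ (ρ τ x))

/-- the transported action -/
noncomputable def tmG : Γ →* MulAut A :=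
  MonoidHom.mk' (fun σ =>
    { toFun := fun a => β.symm (ρ σ (β a))
      invFun := fun a => β.symm (ρ σ⁻¹ (β a))
      left_inv := fun a => by
        show β.symm (ρ σ⁻¹ (β (β.symm (ρ σ (β a))))) = a
        rw [β.apply_symm_apply, ← hm, inv_mul_cancel, h1, β.symm_apply_apply]
      right_inv := fun a => by
        show β.symm (ρ σ (β (β.symm (ρ σ⁻¹ (β a))))) = a
        rw [β.apply_symm_apply, ← hm, mul_inv_cancel, h1, β.symm_apply_apply]
      map_mul' := fun a b => by rw [map_mul, map_mul, map_mul] })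
    (fun σ τ => by
      apply MulEquiv.ext
      intro a
      show β.symm (ρ (σ * τ) (β a)) = β.symm (ρ σ (β (β.symm (ρ τ (β a)))))
      rw [β.apply_symm_apply, hm])

theorem tmG_apply (σ : Γ) (a : A) : tmG β ρ h1 hm σ a = β.symm (ρ σ (β a)) := rfl

theorem β_tmG (σ : Γ) (a : A) : β (tmG β ρ h1 hm σ a) = ρ σ (β a) := by
  rw [tmG_apply, β.apply_symm_apply]

end act

section coc
variable {Γ A : Type} [Group Γ] [CommGroup A] (tm : Γ →* MulAut A) {c : Γ → A}
  (h : ∀ σ τ, c (σ * τ) = c σ * tm σ (c τ))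
include h

theorem coc_div (Q : A) (σ τ : Γ) :
    c (σ * τ) / (tm (σ * τ) Q / Q) = c σ / (tm σ Q / Q) * tm σ (c τ / (tm τ Q / Q)) := by
  rw [h, map_mul, MulAut.mul_apply, _root_.map_div, _root_.map_div]
  generalize tm σ (tm τ Q) = a
  generalize tm σ Q = b
  generalize tm σ (c τ) = d
  generalize c σ = e
  rw [div_mul_div_comm, div_mul_div_comm, mul_comm b a, mul_comm Q b, mul_comm a b,
    mul_div_mul_left_eq_div]

theorem coc_map (f : A →* A) (hf : ∀ σ a, tm σ (f a) = f (tm σ a)) (σ τ : Γ) :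
    f (c (σ * τ)) = f (c σ) * tm σ (f (c τ)) := by
  rw [h, map_mul, hf]

end coc

/-- families which are invariant up to constants are constant -/
theorem const_of_inv {ℓ n : ℕ} (hp : ℓ.Prime) {G : Type} [Group G] {pm : G →* Equiv.Perm (Fin n)}
    (hG : GPm ℓ n G pm) (m : Fin n → ℕ)
    (h : ∀ (γ : G) (i j : Fin n), m ((pm γ)⁻¹ i) + m j ≡ m ((pm γ)⁻¹ j) + m i [MOD ℓ])
    (i j : Fin n) : m i ≡ m j [MOD ℓ] := by
  haveI : Fact ℓ.Prime := ⟨hp⟩
  have h1 : ∀ (γ : G) (i : Fin n), ((m ((pm γ)⁻¹ i) : ℕ) : ZMod ℓ) = (m i : ZMod ℓ) := by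
    intro γ i
    have h2 : ∀ j : Fin n, ((m ((pm γ)⁻¹ i) : ℕ) : ZMod ℓ) - (m i : ZMod ℓ) =
        ((m ((pm γ)⁻¹ j) : ℕ) : ZMod ℓ) - (m j : ZMod ℓ) := by
      intro j
      have h3 := (ZMod.natCast_eq_natCast_iff _ _ _).2 (h γ i j)
      push_cast at h3
      linear_combination h3
    have h4 : ∑ j : Fin n, (((m ((pm γ)⁻¹ i) : ℕ) : ZMod ℓ) - (m i : ZMod ℓ)) = 0 := by
      rw [Finset.sum_congr rfl fun j _ => h2 j, Finset.sum_sub_distrib,
        Equiv.sum_comp ((pm γ)⁻¹) (fun k => ((m k : ℕ) : ZMod ℓ)), sub_self]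
    rw [Finset.sum_const, Finset.card_univ, Fintype.card_fin, nsmul_eq_mul, mul_eq_zero] at h4
    rcases h4 with h4 | h4
    · exact absurd ((ZMod.natCast_eq_zero_iff _ _).1 h4) hG.hn
    · exact sub_eq_zero.1 h4
  obtain ⟨g, hg⟩ := hG.tr i j
  rw [← ZMod.natCast_eq_natCast_iff]
  have h2 := h1 g j
  have h3 : (pm g)⁻¹ j = i := by
    rw [← hg]
    exact (pm g).symm_apply_apply i
  rw [h3] at h2
  exact h2

theorem isGalois (K M : Type) [Field K] [NumberField K] [Field M] [NumberField M] [Algebra K M] :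
    IsGalois K (SeparableClosure M) := by
  haveI : FiniteDimensional K M := Module.Finite.of_restrictScalars_finite ℚ K M
  haveI : Algebra.IsAlgebraic K (SeparableClosure M) := Algebra.IsAlgebraic.trans K M _
  haveI : CharZero (SeparableClosure M) :=
    charZero_of_injective_algebraMap (algebraMap M (SeparableClosure M)).injective
  haveI : IsAlgClosed (SeparableClosure M) := IsSepClosed.isAlgClosed_of_perfectField _
  haveI : IsAlgClosure K (SeparableClosure M) := ⟨inferInstance, inferInstance⟩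
  haveI : Normal K (SeparableClosure M) := IsAlgClosure.normal K (SeparableClosure M)
  exact IsGalois.mk

end DMN

set_option maxHeartbeats 2000000 in
open DMN in
theorem t_DMN (hPLC : S_PLC) (hDTR : S_DTR) (hDLC : S_DLC) (hDPK : S_DPK) (hDRD : S_DRD)
    (hDCR : S_DCR) : S_DMN := by
  intro ℓ n h2 K M _ _ _ _ _ _ pm hG F D ζ hζ hf hpm S hsep hS
  apply hDTR ℓ K M F
  haveI : FiniteDimensional K M := Module.Finite.of_restrictScalars_finite ℚ K M
  haveI hgal := isGalois K M
  haveI : CharZero (SeparableClosure M) :=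
    charZero_of_injective_algebraMap (algebraMap M (SeparableClosure M)).injective
  obtain ⟨β, b1, b2, b3, b4⟩ := hDPK ℓ n K M F D ζ hζ hf
  -- the action
  obtain ⟨tm, htmβ⟩ : ∃ tm : (SeparableClosure M ≃ₐ[K] SeparableClosure M) →*
      MulAut (ClassGroup (D.base (SeparableClosure M)).A), ∀ σ a,
      β (SeparableClosure M) (tm σ a) =
        mapJ ℓ F σ.toAlgHom (β (SeparableClosure M) a) :=
    ⟨tmG (β (SeparableClosure M)) (fun σ => mapJ ℓ F σ.toAlgHom) (fun x => mapJ_one F x)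
      (fun σ τ x => mapJ_mul F σ τ x), fun σ a => β_tmG _ _ _ _ σ a⟩
  have hsC : ∀ σ c, tm σ ((D.base (SeparableClosure M)).sC c) =
      (D.base (SeparableClosure M)).sC (tm σ c) := by
    intro σ c
    obtain ⟨c', h1, h2⟩ := b2 (SeparableClosure M) σ c
    rw [← htmβ] at h1 h2
    rw [(β _).injective h1, (β _).injective h2]
  have htm : ∀ (σ : SeparableClosure M ≃ₐ[M] SeparableClosure M) (c),
      tm (σ.restrictScalars K) c = D.mC (au σ) c := by
    intro σ c
    apply (β (SeparableClosure M)).injective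
    rw [htmβ]
    exact b1 _ _ (au σ) (σ.restrictScalars K).toAlgHom (fun x => rfl) c
  have hPP : ∀ (σ : SeparableClosure M ≃ₐ[K] SeparableClosure M) (γ : M ≃ₐ[K] M),
      (∀ x : M, σ (algebraMap M _ x) = algebraMap M _ (γ x)) → ∀ i,
      tm σ (cl ((D.base (SeparableClosure M)).PP i)) =
        cl ((D.base (SeparableClosure M)).PP (pm γ i)) := by
    intro σ γ h i
    apply (β (SeparableClosure M)).injective
    rw [htmβ]
    exact b3 _ σ i (pm γ i) (by rw [h, hpm])
  have hPT : ∀ (σ : SeparableClosure M ≃ₐ[K] SeparableClosure M) (γ : M ≃ₐ[K] M),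
      (∀ x : M, σ (algebraMap M _ x) = algebraMap M _ (γ x)) → ∀ m : Fin n → ℕ,
      tm σ (cl ((D.base (SeparableClosure M)).PT m)) =
        cl ((D.base (SeparableClosure M)).PT (fun i => m ((pm γ)⁻¹ i))) := by
    intro σ γ h m
    rw [cl_PT, cl_PT, map_prod, ← Equiv.prod_comp (pm γ) (fun i =>
      cl ((D.base (SeparableClosure M)).PP i) ^ m ((pm γ)⁻¹ i))]
    refine Finset.prod_congr rfl fun i _ => ?_
    have h4 : (pm γ)⁻¹ (pm γ i) = i := (pm γ).symm_apply_apply i
    rw [map_pow, hPP σ γ h, h4]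
  have hphi : ∀ σ c, tm σ ((D.base (SeparableClosure M)).phi c) =
      (D.base (SeparableClosure M)).phi (tm σ c) := by
    intro σ c
    rw [phi_apply, phi_apply, _root_.map_div, hsC]
  -- the cocycles
  obtain ⟨PP, hPPd⟩ : ∃ PP : ((SeparableClosure M ≃ₐ[K] SeparableClosure M) →
      ClassGroup (D.base (SeparableClosure M)).A) → Prop, ∀ c, PP c ↔
      (IsLocallyConstant c ∧ (∀ σ τ, c (σ * τ) = c σ * tm σ (c τ)) ∧
      ∀ w : Pl M, D.Triv (w.adicCompletion M) (SeparableClosure (w.adicCompletion M))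
        (fun σ : SeparableClosure M ≃ₐ[M] SeparableClosure M => c (σ.restrictScalars K))) :=
    ⟨_, fun c => Iff.rfl⟩
  have hlift : ∀ γ : M ≃ₐ[K] M, ∃ σ : SeparableClosure M ≃ₐ[K] SeparableClosure M,
      ∀ x : M, σ (algebraMap M _ x) = algebraMap M _ (γ x) := fun γ =>
    ⟨γ.liftNormal (SeparableClosure M), fun x => γ.liftNormal_commutes (SeparableClosure M) x⟩
  have key := hDRD ℓ n (SeparableClosure M) (D.base (SeparableClosure M))
    (SeparableClosure M ≃ₐ[K] SeparableClosure M) tm hsC PP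
    (fun c hc => ((hPPd c).1 hc).2.1)
    (fun c Q hc => by
      obtain ⟨h1, h2, h3⟩ := (hPPd c).1 hc
      refine (hPPd _).2 ⟨?_, fun σ τ => ?_, fun w => ?_⟩
      · have h4 : IsLocallyConstant
            (fun σ : SeparableClosure M ≃ₐ[K] SeparableClosure M => tm σ Q) := by
          have h5 := (b4 (SeparableClosure M) (β _ Q)).comp (β (SeparableClosure M)).symm
          convert h5 using 2 with σ
          rw [Function.comp_apply, ← htmβ, MulEquiv.symm_apply_apply]
        exact h1.comp₂ (h4.comp (fun a => a / Q)) (fun a b => a / b)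
      · exact coc_div tm h2 Q σ τ
      · have h4 := Triv.div (D := D) (h3 w) Q
        simp only [htm]
        exact h4)
    (fun c hc => by
      obtain ⟨h1, h2, h3⟩ := (hPPd c).1 hc
      refine (hPPd _).2 ⟨h1.comp (D.base (SeparableClosure M)).phi, fun σ τ => ?_, fun w => ?_⟩
      · exact coc_map tm h2 _ hphi σ τ
      · exact Triv.phi (D := D) (h3 w))
    ((hPPd _).2 ⟨IsLocallyConstant.const _, fun σ τ => by rw [map_one, mul_one], fun w => by
      let ι : SeparableClosure M →ₐ[M] SeparableClosure (w.adicCompletion M) := by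
        haveI : CharZero (w.adicCompletion M) :=
          charZero_of_injective_algebraMap (algebraMap M (w.adicCompletion M)).injective
        exact IsSepClosed.lift
      exact ⟨ι, 1, fun τ σ _ => by rw [map_one, map_one, div_one]⟩⟩)
    (fun χ hχ => by
      obtain ⟨h1, h2', h3⟩ := (hPPd _).1 hχ
      exact hDCR ℓ n h2 K M pm D ζ tm χ ⟨hG.hG, hζ, hpm, htm, hPT, h1, h2'⟩ S hsep hS h3)
    (fun m hm => by
      refine cl_PT_of_modEq _ (const_of_inv D.hp hG m fun γ i j => ?_)
      obtain ⟨σ, hσ⟩ := hlift γ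
      have h1 := hm σ
      rw [hPT σ γ hσ] at h1
      exact (D.base (SeparableClosure M)).PT_indep h1 i j)
  obtain ⟨k1, k2⟩ := key
  refine ⟨fun f m hf ht hcob => ?_, fun P hP => ?_⟩
  · obtain ⟨Q, hQ⟩ := hcob
    have h1 := k1 (fun σ => (β (SeparableClosure M)).symm (f σ)) m ((hPPd _).2
      ⟨hf.1.comp _, fun σ τ => ?_, fun w => ?_⟩) ⟨(β (SeparableClosure M)).symm Q, fun σ => ?_⟩
    · obtain ⟨Q', hQ'⟩ := h1
      refine ⟨β _ Q', fun σ => ?_⟩
      rw [← htmβ, ← _root_.map_div, ← hQ', MulEquiv.apply_symm_apply]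
    · apply (β (SeparableClosure M)).injective
      rw [map_mul, htmβ, MulEquiv.apply_symm_apply, MulEquiv.apply_symm_apply,
        MulEquiv.apply_symm_apply]
      exact hf.2 σ τ
    · obtain ⟨ι, hι, P, h⟩ := hDLC ℓ K M F f hf.2 w (ht (lo w))
      haveI : IsScalarTower K M (SeparableClosure (w.adicCompletion M)) :=
        IsScalarTower.of_algebraMap_eq fun x => by
          rw [← hι x, IsScalarTower.algebraMap_apply K M (SeparableClosure M), AlgHom.commutes]
      refine ⟨ι, (β _).symm P, fun τ σ hτσ => ?_⟩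
      apply (β (SeparableClosure (w.adicCompletion M))).injective
      have e1 := b1 (SeparableClosure M) (SeparableClosure (w.adicCompletion M)) ι
        (⟨(ι : SeparableClosure M →+* SeparableClosure (w.adicCompletion M)), hι⟩ :
          SeparableClosure M →ₐ[K] SeparableClosure (w.adicCompletion M)) (fun x => rfl)
        ((β (SeparableClosure M)).symm (f (σ.restrictScalars K)))
      have e2 := b1 (SeparableClosure (w.adicCompletion M))
        (SeparableClosure (w.adicCompletion M)) (Dat.rs M τ)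
        (τ.toAlgHom.restrictScalars K) (fun x => rfl) ((β _).symm P)
      rw [_root_.map_div, ← e1, ← e2, MulEquiv.apply_symm_apply, MulEquiv.apply_symm_apply]
      exact h τ σ hτσ
    · apply (β (SeparableClosure M)).injective
      rw [map_pow, _root_.map_div, htmβ, MulEquiv.apply_symm_apply, MulEquiv.apply_symm_apply]
      exact hQ σ
  · obtain ⟨Q, ⟨hQ1, hQ2⟩, hQ3⟩ := k2 ((β (SeparableClosure M)).symm P) (fun σ => by
      apply (β (SeparableClosure M)).injective
      rw [htmβ, MulEquiv.apply_symm_apply]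
      exact hP σ)
    refine ⟨β _ Q, ⟨fun σ => ?_, ?_⟩, ?_⟩
    · rw [← htmβ, hQ1]
    · rw [← map_pow, hQ2, MulEquiv.apply_symm_apply]
    · rintro Q' ⟨h1, h2⟩
      have h3 := hQ3 ((β _).symm Q') ⟨fun σ => by
        apply (β (SeparableClosure M)).injective
        rw [htmβ, MulEquiv.apply_symm_apply]
        exact h1 σ, by rw [← map_pow, h2]⟩
      rw [← h3, MulEquiv.apply_symm_apply]

end Pool.Agent.T3h73.SG
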