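import Pool.Agent.T3h73.SG.StmD
import Pool.Agent.Y713.SE.StmT

/-!
# Project SG, task DPK (helper85): the groups `J(E)` and the class groups of the coordinate rings of `D`
-/

set_option autoImplicit false
set_option linter.all false

open Polynomial

namespace Pool.Agent.T3h73.SG.DPK

open Pool.Agent.Y713.SE Pool.Agent.Y713.SE.Dat
open Pool.Agent.Y713.Jac (J mapJ CoordRing coordMap)

section
variable {ℓ n : ℕ} {K M : Type} [Field K] [Field M] [Algebra K M] (F : K[X]) (D : Dat ℓ n M)
  (hF : D.f = F.map (algebraMap K M))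
variable {E E' : Type} [Field E] [Algebra K E] [Algebra M E] [IsScalarTower K M E] [Field E']
  [Algebra K E'] [Algebra M E'] [IsScalarTower K M E']

include hF in
lemma fE (E : Type) [Field E] [Algebra K E] [Algebra M E] [IsScalarTower K M E] :
    (D.base E).f = F.map (algebraMap K E) := by
  rw [D.f_base, hF, Polynomial.map_map, ← IsScalarTower.algebraMap_eq]

include hF in
lemma fm (φ : E →ₐ[K] E') : (D.base E).f.map (φ : E →+* E') = (D.base E').f := by
  rw [fE F D hF E, fE F D hF E', Polynomial.map_map]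
  congr 1
  exact φ.comp_algebraMap

/-- base change of functions along a `K`-linear homomorphism -/
noncomputable def mk (φ : E →ₐ[K] E') : (D.base E).A →+* (D.base E').A :=
  AdjoinRoot.lift ((algebraMap E'[X] (D.base E').A).comp (mapRingHom (φ : E →+* E')))
    (D.base E').y (by
      rw [eval₂_sub, eval₂_pow, eval₂_X, eval₂_C, (D.base E').y_pow, RingHom.comp_apply,
        coe_mapRingHom, fm F D hF φ, sub_self])

lemma mk_alg (φ : E →ₐ[K] E') (g : E[X]) :
    mk F D hF φ (algebraMap E[X] (D.base E).A g) = algebraMap E'[X] (D.base E').A (g.map φ) :=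
  AdjoinRoot.lift_of _

lemma mk_y (φ : E →ₐ[K] E') : mk F D hF φ (D.base E).y = (D.base E').y := AdjoinRoot.lift_root _

lemma mk_eq (φ : E →ₐ[K] E') (a : (D.base E).A) : mk F D hF φ a =
    ∑ j : Fin ℓ, (((D.base E).c j a).map (φ : E →+* E')) • (D.base E').y ^ (j : ℕ) := by
  conv_lhs => rw [← (D.base E).sum_c a]
  rw [map_sum]
  refine Finset.sum_congr rfl fun j _ => ?_
  rw [Algebra.smul_def, map_mul, mk_alg, map_pow, mk_y, Algebra.smul_def]

lemma c_mk (φ : E →ₐ[K] E') (a : (D.base E).A) (j : Fin ℓ) :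
    (D.base E').c j (mk F D hF φ a) = ((D.base E).c j a).map (φ : E →+* E') := by
  rw [mk_eq, c_sum]

lemma mk_inj (φ : E →ₐ[K] E') : Function.Injective (mk F D hF φ) := by
  intro a b h
  apply (D.base E).ext_c
  intro j
  apply Polynomial.map_injective (φ : E →+* E') (φ : E →+* E').injective
  rw [← c_mk F D hF, ← c_mk F D hF, h]

lemma mk_mp (φ : E →ₐ[M] E') (φ' : E →ₐ[K] E') (h : ∀ x, φ' x = φ x) :
    mk F D hF φ' = D.mp φ := by
  have e : (φ' : E →+* E') = (φ : E →+* E') := RingHom.ext h
  refine RingHom.ext fun a => ?_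
  apply (D.base E').ext_c
  intro j
  rw [c_mk, c_mp, e]

lemma mk_s (ζ : K) (hζ : D.ζ = algebraMap K M ζ) (φ : E →ₐ[K] E') (i : ℕ) (a : (D.base E).A) :
    mk F D hF φ ((D.base E).s i a) = (D.base E').s i (mk F D hF φ a) := by
  apply (D.base E').ext_c
  intro j
  have h1 : φ (algebraMap M E D.ζ) = algebraMap M E' D.ζ := by
    rw [hζ, ← IsScalarTower.algebraMap_apply, ← IsScalarTower.algebraMap_apply, φ.commutes]
  rw [c_mk, c_s, c_s, c_mk, Polynomial.map_mul, map_C]
  simp only [base_ζ, AlgHom.coe_toRingHom, map_pow, h1]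

lemma ev_mk (φ : E →ₐ[K] E') (i j : Fin n)
    (hij : φ (algebraMap M E (D.e i)) = algebraMap M E' (D.e j)) (a : (D.base E).A) :
    (D.base E').ev j (mk F D hF φ a) = φ ((D.base E).ev i a) := by
  rw [ev_eq, ev_eq, c_mk, base_e, base_e, ← hij]
  exact eval_map_apply (φ : E →+* E') _

lemma map_PP (φ : E →ₐ[K] E') (i j : Fin n)
    (hij : φ (algebraMap M E (D.e i)) = algebraMap M E' (D.e j)) :
    ((D.base E).PP i).map (mk F D hF φ) = (D.base E').PP j := by
  apply le_antisymm
  · refine Ideal.map_le_iff_le_comap.2 fun a ha => ?_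
    rw [Ideal.mem_comap, mem_PP, ev_mk F D hF φ i j hij, (D.base E).mem_PP.1 ha, map_zero]
  · apply PP_le
    · rw [← mk_y F D hF φ]
      exact Ideal.mem_map_of_mem _ ((D.base E).y_mem_PP i)
    · have h := Ideal.mem_map_of_mem (mk F D hF φ) ((D.base E).X_mem_PP i)
      rw [mk_alg] at h
      convert h using 2
      rw [Polynomial.map_sub, map_X, map_C, base_e, base_e, ← hij]
      rfl

lemma map_sI (ζ : K) (hζ : D.ζ = algebraMap K M ζ) (φ : E →ₐ[K] E') (j : ℕ)
    (I : Ideal (D.base E).A) :
    ((D.base E).sI j I).map (mk F D hF φ) = (D.base E').sI j (I.map (mk F D hF φ)) := by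
  have h : (mk F D hF φ).comp ((D.base E).s j : (D.base E).A →+* (D.base E).A) =
      ((D.base E').s j : (D.base E').A →+* (D.base E').A).comp (mk F D hF φ) :=
    RingHom.ext fun a => mk_s F D hF ζ hζ φ j a
  have h1 := Ideal.map_map (I := I) ((D.base E).s j : (D.base E).A →+* (D.base E).A) (mk F D hF φ)
  have h2 := Ideal.map_map (I := I) (mk F D hF φ)
    ((D.base E').s j : (D.base E').A →+* (D.base E').A)
  rw [h] at h1
  exact h1.trans h2.symm

/-- base change of ideal classes -/
noncomputable def mK (φ : E →ₐ[K] E') : ClassGroup (D.base E).A →* ClassGroup (D.base E').A :=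
  clm (mk F D hF φ) (mk_inj F D hF φ)

lemma mK_cl (φ : E →ₐ[K] E') {I : Ideal (D.base E).A} (hI : I ≠ ⊥) :
    mK F D hF φ (cl I) = cl (I.map (mk F D hF φ)) := clm_cl _ _ hI

lemma mK_sC (ζ : K) (hζ : D.ζ = algebraMap K M ζ) (φ : E →ₐ[K] E')
    (c : ClassGroup (D.base E).A) :
    mK F D hF φ ((D.base E).sC c) = (D.base E').sC (mK F D hF φ c) := by
  obtain ⟨I, hI, rfl⟩ := exists_cl c
  rw [sC_cl _ hI, mK_cl _ _ _ _ ((D.base E).sI_ne hI), mK_cl _ _ _ _ hI,
    sC_cl _ (map_ne _ (mk_inj F D hF φ) hI), map_sI F D hF ζ hζ]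

/-- the isomorphism with the coordinate ring of the statement -/
noncomputable def cK (E : Type) [Field E] [Algebra K E] [Algebra M E] [IsScalarTower K M E] :
    (D.base E).A ≃+* CoordRing ℓ F E := crE (fE F D hF E)

lemma cK_nat (φ : E →ₐ[K] E') :
    ((cK F D hF E' : (D.base E').A →+* CoordRing ℓ F E')).comp (mk F D hF φ) =
      (coordMap ℓ F φ).comp (cK F D hF E : (D.base E).A →+* CoordRing ℓ F E) := by
  have key : ∀ a, cK F D hF E' (mk F D hF φ a) = coordMap ℓ F φ (cK F D hF E a) := by
    intro a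
    have h1 : cK F D hF E' (mk F D hF φ (D.base E).y) =
        coordMap ℓ F φ (cK F D hF E (D.base E).y) := by
      rw [mk_y]
      have e1 : cK F D hF E' (D.base E').y = AdjoinRoot.root _ := crE_root _
      have e2 : cK F D hF E (D.base E).y = AdjoinRoot.root _ := crE_root _
      rw [e1, e2]
      unfold coordMap
      exact (AdjoinRoot.map_root _ _ _ _).symm
    have h2 : ∀ g : E[X], cK F D hF E' (mk F D hF φ (algebraMap E[X] (D.base E).A g)) =
        coordMap ℓ F φ (cK F D hF E (algebraMap E[X] (D.base E).A g)) := by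
      intro g
      rw [mk_alg]
      have e1 : ∀ g, cK F D hF E' (algebraMap E'[X] (D.base E').A g) = AdjoinRoot.of _ g :=
        fun g => crE_of _ _
      have e2 : ∀ g, cK F D hF E (algebraMap E[X] (D.base E).A g) = AdjoinRoot.of _ g :=
        fun g => crE_of _ _
      rw [e1, e2]
      exact (AdjoinRoot.map_of (mapRingHom φ.toRingHom) _ _ _ g).symm
    rw [← (D.base E).sum_c a]
    simp only [map_sum, Algebra.smul_def, map_mul, map_pow, h1, h2]
  exact RingHom.ext key

/-- the isomorphism of the class group with the group of the statement -/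
noncomputable def ThK (E : Type) [Field E] [Algebra K E] [Algebra M E] [IsScalarTower K M E] :
    ClassGroup (D.base E).A →* J ℓ F E :=
  (CommRing.Pic.mapRingHom (cK F D hF E : (D.base E).A →+* CoordRing ℓ F E)).comp pc

lemma ThK_bij (E : Type) [Field E] [Algebra K E] [Algebra M E] [IsScalarTower K M E] :
    Function.Bijective (ThK F D hF E) :=
  (mapRH_bij (cK F D hF E)).comp (pc_bij (A := (D.base E).A))

lemma ThK_nat (φ : E →ₐ[K] E') (c : ClassGroup (D.base E).A) :
    mapJ ℓ F φ (ThK F D hF E c) = ThK F D hF E' (mK F D hF φ c) := by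
  show CommRing.Pic.mapRingHom (coordMap ℓ F φ)
      (CommRing.Pic.mapRingHom (cK F D hF E : (D.base E).A →+* CoordRing ℓ F E) (pc c)) =
    CommRing.Pic.mapRingHom (cK F D hF E' : (D.base E').A →+* CoordRing ℓ F E')
    (pc (clm (mk F D hF φ) (mk_inj F D hF φ) c))
  rw [pc_nat, CommRing.Pic.mapRingHom_mapRingHom, CommRing.Pic.mapRingHom_mapRingHom,
    cK_nat F D hF φ]

/-- the isomorphism -/
noncomputable def TeK (E : Type) [Field E] [Algebra K E] [Algebra M E] [IsScalarTower K M E] :
    ClassGroup (D.base E).A ≃* J ℓ F E :=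
  MulEquiv.ofBijective (ThK F D hF E) (ThK_bij F D hF E)

lemma mk_locConst [IsGalois K E] (a : (D.base E).A) :
    IsLocallyConstant (fun σ : E ≃ₐ[K] E => mk F D hF σ.toAlgHom a) := by
  have h : ∀ s : Finset (Fin ℓ), IsLocallyConstant (fun σ : E ≃ₐ[K] E =>
      ∑ j ∈ s, (((D.base E).c j a).map ((σ.toAlgHom : E →ₐ[K] E) : E →+* E)) •
        (D.base E).y ^ (j : ℕ)) := by
    classical
    intro s
    induction s using Finset.induction_on with
    | empty => simp only [Finset.sum_empty]; exact IsLocallyConstant.const _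
    | insert j s hj ih =>
      have h1 := (map_locConst (K := K) ((D.base E).c j a)).comp
        (fun g => g • (D.base E).y ^ (j : ℕ))
      have h2 := h1.comp₂ ih (fun a b => a + b)
      convert h2 using 2
      rw [Finset.sum_insert hj]; rfl
  convert h Finset.univ using 2
  exact mk_eq _ _ _ _ _

lemma mI_locConst [IsGalois K E] (I : Ideal (D.base E).A) :
    IsLocallyConstant (fun σ : E ≃ₐ[K] E => I.map (mk F D hF σ.toAlgHom)) := by
  classical
  obtain ⟨s, rfl⟩ : ∃ s : Finset (D.base E).A, Ideal.span (s : Set (D.base E).A) = I :=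
    (isNoetherianRing_iff_ideal_fg _).1 inferInstance I
  induction s using Finset.induction_on with
  | empty =>
    convert IsLocallyConstant.const (⊥ : Ideal (D.base E).A) using 2
    rw [Finset.coe_empty, Ideal.span_empty, Ideal.map_bot]; rfl
  | insert a s ha ih =>
    have h1 := (mk_locConst F D hF a).comp (fun b => Ideal.span {b})
    have h2 := h1.comp₂ ih (fun a b => a ⊔ b)
    convert h2 using 2
    rw [Finset.coe_insert, Ideal.span_insert, Ideal.map_sup, Ideal.map_span,
      Set.image_singleton]; rfl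

lemma mK_locConst [IsGalois K E] (c : ClassGroup (D.base E).A) :
    IsLocallyConstant (fun σ : E ≃ₐ[K] E => mK F D hF σ.toAlgHom c) := by
  obtain ⟨I, hI, rfl⟩ := exists_cl c
  have h := (mI_locConst F D hF I).comp (fun J => cl J)
  convert h using 2
  exact mK_cl F D hF _ hI

end

theorem t_DPK : S_DPK := by
  intro ℓ n K M _ _ _ _ _ F D ζ hζ hF
  refine ⟨fun E _ _ _ _ => TeK F D hF E, ?_, ?_, ?_, ?_⟩
  · intro E E' _ _ _ _ _ _ _ _ φ φ' h c
    have h1 := ThK_nat F D hF φ' c
    have h2 : mK F D hF φ' c = D.mC φ c := clm_congr _ (mk_mp F D hF φ φ' h) c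
    rw [h2] at h1
    exact h1
  · intro E _ _ _ _ τ c
    refine ⟨mK F D hF τ.toAlgHom c, ThK_nat F D hF τ.toAlgHom c, ?_⟩
    rw [← mK_sC F D hF ζ hζ]
    exact ThK_nat F D hF τ.toAlgHom _
  · intro E _ _ _ _ τ i j h
    have h1 := ThK_nat F D hF τ.toAlgHom (cl ((D.base E).PP i))
    rw [mK_cl F D hF _ ((D.base E).PP_ne i), map_PP F D hF τ.toAlgHom i j h] at h1
    exact h1
  · intro E _ _ _ _ _ Q
    obtain ⟨c, rfl⟩ := (TeK F D hF E).surjective Q
    have h := (mK_locConst F D hF c).comp (TeK F D hF E)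
    convert h using 2
    exact ThK_nat F D hF _ c

end Pool.Agent.T3h73.SG.DPK
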