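import Pool.Agent.T3h73.SG.StmD

/-!
# Project SG, task DRD: reduction to cocycles with values in the kernel of `1 - s`
-/

set_option autoImplicit false
set_option linter.all false

open NumberField IsDedekindDomain Polynomial

namespace Pool.Agent.T3h73.SG.DRD

open Pool.Agent.Y713.SE Pool.Agent.Y713.SE.Dat

section
variable {ℓ n : ℕ} {E : Type} [Field E] (D : Dat ℓ n E)

lemma sC_PT (m : Fin n → ℕ) : D.sC (cl (D.PT m)) = cl (D.PT m) := by
  rw [D.sC_cl (D.PT_ne m), D.sI_PT]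

lemma phi_PT (m : Fin n → ℕ) : D.phi (cl (D.PT m)) = 1 := by
  rw [phi_apply, sC_PT, div_self']

variable [CharZero E] [IsSepClosed E]

lemma surj (b : ClassGroup D.A) : ∃ b', D.phi b' = b := by
  obtain ⟨b', hb'⟩ := D.phi_surj (p := 1) b
  exact ⟨b', by rw [phi_apply, div_eq_iff_eq_mul]; exact hb'.symm⟩

lemma ker {c : ClassGroup D.A} (hc : D.phi c = 1) : ∃ m : Fin n → ℕ, c = cl (D.PT m) := by
  rw [phi_apply, div_eq_one] at hc
  obtain ⟨m, hm⟩ := D.phi_ker (p := 1) hc.symm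
  exact ⟨m, by rw [hm, cl_PT]⟩

end

theorem t_DRD : S_DRD := by
  intro ℓ n E _ _ _ D Γ _ tm hs P hco hcob hphi h1 crit hinv
  have hcomm : ∀ γ c, tm γ (D.phi c) = D.phi (tm γ c) := by
    intro γ c
    rw [phi_apply, phi_apply, _root_.map_div, hs]
  have ker_step : ∀ c, P c → (∃ Q, ∀ σ, D.phi (c σ) = tm σ Q / Q) → ∃ Q, ∀ σ, c σ = tm σ Q / Q := by
    rintro c hc ⟨b, hb⟩
    obtain ⟨b', hb'⟩ := surj D b
    have h2 := hcob c b' hc
    have h3 : ∀ σ, ∃ m : Fin n → ℕ, c σ / (tm σ b' / b') = cl (D.PT m) := by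
      intro σ
      have h4 : D.phi (c σ / (tm σ b' / b')) = 1 := by
        rw [_root_.map_div, hb σ, _root_.map_div, ← hcomm, hb', div_self']
      exact ker D h4
    choose χ hχ using h3
    have h4 : (fun σ => c σ / (tm σ b' / b')) = fun σ => cl (D.PT (χ σ)) := funext hχ
    rw [h4] at h2
    obtain ⟨m, hm⟩ := crit χ h2
    refine ⟨cl (D.PT m) * b', fun σ => ?_⟩
    have h5 := hm σ
    rw [← hχ σ, div_eq_iff_eq_mul] at h5
    rw [h5, map_mul, mul_div_mul_comm]
  have red : ∀ N : ℕ, ∀ c : Γ → ClassGroup D.A, P c →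
      (∃ Q, ∀ σ, (D.phi)^[N] (c σ) = tm σ Q / Q) → ∃ Q, ∀ σ, c σ = tm σ Q / Q := by
    intro N
    induction N with
    | zero => intro c _ h; exact h
    | succ N ih =>
      intro c hc h
      apply ker_step c hc
      apply ih _ (hphi c hc)
      simpa only [Function.iterate_succ_apply] using h
  -- the surjectivity of `1 - s` on the invariant classes
  have isurj : ∀ R : ClassGroup D.A, (∀ σ, tm σ R = R) → ∃ R' : ClassGroup D.A,
      (∀ σ, tm σ R' = R') ∧ D.phi R' = R := by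
    intro R hR
    obtain ⟨R', hR'⟩ := surj D R
    have h3 : ∀ σ, ∃ m : Fin n → ℕ, tm σ R' / R' = cl (D.PT m) := by
      intro σ
      have h4 : D.phi (tm σ R' / R') = 1 := by
        rw [_root_.map_div, ← hcomm, hR', hR σ, div_self']
      exact ker D h4
    choose χ hχ using h3
    have h2 := hcob (fun _ => 1) R'⁻¹ h1
    have h4 : (fun σ => (1 : ClassGroup D.A) / (tm σ R'⁻¹ / R'⁻¹)) = fun σ => cl (D.PT (χ σ)) := by
      funext σ
      rw [← hχ σ, map_inv, one_div, inv_div, inv_div_inv]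
    rw [h4] at h2
    obtain ⟨m, hm⟩ := crit χ h2
    refine ⟨R' / cl (D.PT m), fun σ => ?_, ?_⟩
    · have h5 := hm σ
      rw [← hχ σ, div_eq_div_iff_mul_eq_mul] at h5
      rw [_root_.map_div, div_eq_div_iff_mul_eq_mul, h5, mul_comm]
    · rw [_root_.map_div, phi_PT, div_one, hR']
  have isurjN : ∀ (N : ℕ) (R : ClassGroup D.A), (∀ σ, tm σ R = R) → ∃ R' : ClassGroup D.A,
      (∀ σ, tm σ R' = R') ∧ (D.phi)^[N] R' = R := by
    intro N
    induction N with
    | zero => intro R hR; exact ⟨R, hR, rfl⟩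
    | succ N ih =>
      intro R hR
      obtain ⟨R1, h2, h3⟩ := ih R hR
      obtain ⟨R2, h4, h5⟩ := isurj R1 h2
      exact ⟨R2, h4, by rw [Function.iterate_succ_apply, h5, h3]⟩
  have iinj : ∀ (N : ℕ) (T : ClassGroup D.A), (∀ σ, tm σ T = T) → (D.phi)^[N] T = 1 → T = 1 := by
    intro N
    induction N with
    | zero => intro T _ h; exact h
    | succ N ih =>
      intro T hT h
      rw [Function.iterate_succ_apply] at h
      have h2 := ih (D.phi T) (fun σ => by rw [hcomm, hT]) h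
      obtain ⟨m, hm⟩ := ker D h2
      rw [hm]
      exact hinv m fun σ => by rw [← hm, hT]
  refine ⟨fun c m hc hm => ?_, fun R hR => ?_⟩
  · apply red ((ℓ - 1) * m) c hc
    obtain ⟨w, hw1, hw2⟩ := D.phi_pow m
    obtain ⟨Q, hQ⟩ := hm
    refine ⟨w Q, fun σ => ?_⟩
    rw [hw2, hQ σ, _root_.map_div]
    have h2 := hw1 (tm σ).toMonoidHom (fun x => hs σ x) Q
    have h3 : tm σ (w Q) = w (tm σ Q) := h2
    rw [h3]
  · obtain ⟨w, hw1, hw2⟩ := D.phi_pow 1
    obtain ⟨x, hx, hxR⟩ := isurjN ((ℓ - 1) * 1) R hR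
    have hw3 : ∀ σ y, tm σ (w y) = w (tm σ y) := fun σ y =>
      hw1 (tm σ).toMonoidHom (fun x => hs σ x) y
    refine ⟨w x, ⟨fun σ => by rw [hw3, hx], ?_⟩, ?_⟩
    · rw [← map_pow, ← hxR, hw2, pow_one]
    · rintro Q ⟨hQ1, hQ2⟩
      have h4 : w x ^ ℓ = R := by rw [← map_pow, ← hxR, hw2, pow_one]
      have h5 : Q / w x = 1 := by
        apply iinj ((ℓ - 1) * 1)
        · intro σ
          rw [_root_.map_div, hQ1, hw3, hx]
        · rw [hw2, pow_one, div_pow, hQ2, h4, div_self', map_one]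
      exact div_eq_one.1 h5

end Pool.Agent.T3h73.SG.DRD
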