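import Pool.Agent.T3h73.SG.JBas

/-!
# SG/DTR (helper88): change of the separable closure
-/

set_option autoImplicit false
set_option linter.all false

open Polynomial IsDedekindDomain NumberField Topology

namespace Pool.Agent.T3h73.SG.DTR

open Pool.Agent.Y713.Jac (J mapJ Gal)
open Pool.Agent.T3h73.SL (Pl)
open Pool.Agent.T3h73.SG.JBas

theorem zeroL_transport {ℓ : ℕ} {K : Type} [Field K] [NumberField K] {F : K[X]} {L1 L2 : Type}
    [Field L1] [Field L2] [Algebra K L1] [Algebra K L2] (e : L1 ≃ₐ[K] L2) (h : ZeroL ℓ F L2) :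
    ZeroL ℓ F L1 := by
  have c1 : ∀ (σ : L2 ≃ₐ[K] L2) (x : L1), e ((AlgEquiv.autCongr e).symm σ x) = σ (e x) := by
    intro σ x
    show e (e.symm (σ (e x))) = _
    rw [AlgEquiv.apply_symm_apply]
  have c2 : ∀ (σ : L2 ≃ₐ[K] L2) (x : L2), (AlgEquiv.autCongr e).symm σ (e.symm x) = e.symm (σ x) := by
    intro σ x
    show (e.symm (σ (e (e.symm x)))) = _
    rw [AlgEquiv.apply_symm_apply]
  have d1 : ∀ (σ : L2 ≃ₐ[K] L2) (P : J ℓ F L1), mapJ ℓ F e.toAlgHom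
      (mapJ ℓ F ((AlgEquiv.autCongr e).symm σ).toAlgHom P) =
      mapJ ℓ F σ.toAlgHom (mapJ ℓ F e.toAlgHom P) := fun σ P =>
    mapJ_sq _ _ _ _ (fun x => c1 σ x) P
  have d2 : ∀ (σ : L2 ≃ₐ[K] L2) (P : J ℓ F L2),
      mapJ ℓ F ((AlgEquiv.autCongr e).symm σ).toAlgHom (mapJ ℓ F e.symm.toAlgHom P) =
      mapJ ℓ F e.symm.toAlgHom (mapJ ℓ F σ.toAlgHom P) := fun σ P =>
    mapJ_sq _ _ _ _ (fun x => c2 σ x) P
  have i1 : ∀ P : J ℓ F L1, mapJ ℓ F e.symm.toAlgHom (mapJ ℓ F e.toAlgHom P) = P := fun P =>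
    mapJ_inv _ _ (fun x => e.symm_apply_apply x) P
  have i2 : ∀ P : J ℓ F L2, mapJ ℓ F e.toAlgHom (mapJ ℓ F e.symm.toAlgHom P) = P := fun P =>
    mapJ_inv _ _ (fun x => e.apply_symm_apply x) P
  refine ⟨?_, ?_⟩
  · intro f m hf hv hm
    obtain ⟨Q, hQ⟩ := h.1 (fun σ => mapJ ℓ F e.toAlgHom (f ((AlgEquiv.autCongr e).symm σ))) m
      ⟨(hf.1.comp_continuous (cont_conj e)).comp _, fun σ τ => by
        show mapJ ℓ F e.toAlgHom (f ((AlgEquiv.autCongr e).symm (σ * τ))) =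
          mapJ ℓ F e.toAlgHom (f ((AlgEquiv.autCongr e).symm σ)) *
          mapJ ℓ F σ.toAlgHom (mapJ ℓ F e.toAlgHom (f ((AlgEquiv.autCongr e).symm τ)))
        rw [_root_.map_mul, hf.2, _root_.map_mul, d1]⟩
      (fun v => by
        obtain ⟨ι, P, hP⟩ := hv v
        refine ⟨ι.comp e.symm.toAlgHom, P, fun τ σ hτσ => ?_⟩
        rw [← mapJ_comp, i1]
        refine hP τ _ fun x => ?_
        have := hτσ (e x)
        have e1 : (ι.comp e.symm.toAlgHom) (e x) = ι x := by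
          show ι (e.symm (e x)) = ι x
          rw [AlgEquiv.symm_apply_apply]
        rw [e1] at this
        exact this)
      (by
        obtain ⟨Q, hQ⟩ := hm
        refine ⟨mapJ ℓ F e.toAlgHom Q, fun σ => ?_⟩
        have h4 : f ((AlgEquiv.autCongr e).symm σ) ^ ℓ ^ m = _ := hQ ((AlgEquiv.autCongr e).symm σ)
        show mapJ ℓ F e.toAlgHom (f ((AlgEquiv.autCongr e).symm σ)) ^ ℓ ^ m =
          mapJ ℓ F σ.toAlgHom (mapJ ℓ F e.toAlgHom Q) / mapJ ℓ F e.toAlgHom Q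
        rw [← d1, ← _root_.map_div, ← h4, _root_.map_pow])
    refine ⟨mapJ ℓ F e.symm.toAlgHom Q, fun σ => ?_⟩
    have h2 := hQ (AlgEquiv.autCongr e σ)
    simp only [MulEquiv.symm_apply_apply] at h2
    have h3 := congrArg (mapJ ℓ F e.symm.toAlgHom) h2
    rw [i1, _root_.map_div, ← d2, MulEquiv.symm_apply_apply] at h3
    exact h3
  · intro P hP
    obtain ⟨Q, ⟨hQ1, hQ2⟩, hQ3⟩ := h.2 (mapJ ℓ F e.toAlgHom P) (fun σ => by rw [← d1, hP])
    refine ⟨mapJ ℓ F e.symm.toAlgHom Q, ⟨fun σ => ?_, ?_⟩, ?_⟩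
    · have h2 := d2 (AlgEquiv.autCongr e σ) Q
      rw [MulEquiv.symm_apply_apply, hQ1] at h2
      exact h2
    · rw [← _root_.map_pow, hQ2, i1]
    · rintro Q' ⟨h1, h2⟩
      have := hQ3 (mapJ ℓ F e.toAlgHom Q') ⟨fun σ => by rw [← d1, h1], by rw [← _root_.map_pow, h2]⟩
      rw [← this, i1]

theorem t_DTR : S_DTR := by
  intro ℓ K M _ _ _ _ _ F h
  haveI : Algebra.IsSeparable M (SeparableClosure M) := inferInstance
  haveI : Algebra.IsSeparable K M := inferInstance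
  haveI : Algebra.IsSeparable K (SeparableClosure M) := Algebra.IsSeparable.trans K M _
  haveI : IsSepClosure K (SeparableClosure M) := ⟨inferInstance, inferInstance⟩
  exact zeroL_transport (IsSepClosure.equiv K (SeparableClosure K) (SeparableClosure M)) h

end Pool.Agent.T3h73.SG.DTR
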