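import Pool.Agent.T3h73.SG.StmY

/-!
# Project SG, task RST: ray class characters of `M` restricted to an intermediate field `E`
-/

set_option autoImplicit false
set_option linter.all false

open NumberField IsDedekindDomain Filter Topology

namespace Pool.Agent.T3h73.SG.RST

open Pool.Agent.T3h73.SL (Pl)
open Pool.Agent.T3h73.SD (ee NA gA T0 SymSys)
open Pool.Agent.Y773.G (IsModChar)

section
variable {E M : Type} [Field E] [NumberField E] [Field M] [NumberField M] [Algebra E M]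

/-- contraction of an ideal -/
noncomputable abbrev cm (𝔟 : Ideal (𝓞 M)) : Ideal (𝓞 E) := 𝔟.comap (algebraMap (𝓞 E) (𝓞 M))

/-- extension of an ideal -/
noncomputable abbrev ex (𝔞 : Ideal (𝓞 E)) : Ideal (𝓞 M) := 𝔞.map (algebraMap (𝓞 E) (𝓞 M))

theorem inj : Function.Injective (algebraMap (𝓞 E) (𝓞 M)) :=
  FaithfulSMul.algebraMap_injective (𝓞 E) (𝓞 M)

theorem cop_iff (𝔞 : Ideal (𝓞 E)) (𝔟 : Ideal (𝓞 M)) :
    IsCoprime (ex (M := M) 𝔞) 𝔟 ↔ IsCoprime 𝔞 (cm (E := E) 𝔟) := by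
  have hint : Algebra.IsIntegral (𝓞 E) (𝓞 M) := inferInstance
  constructor
  · intro h
    rw [Ideal.isCoprime_iff_sup_eq] at h ⊢
    by_contra hne
    obtain ⟨P, hP, hle⟩ := Ideal.exists_le_maximal _ hne
    have hPp : P.IsPrime := hP.isPrime
    obtain ⟨Q, hQ1, hQ2, hQ3⟩ := Ideal.exists_ideal_over_prime_of_isIntegral P 𝔟
      (le_sup_right.trans hle)
    apply hQ2.ne_top
    rw [eq_top_iff, ← h]
    apply sup_le _ hQ1
    rw [Ideal.map_le_iff_le_comap, hQ3]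
    exact le_sup_left.trans hle
  · intro h
    rw [Ideal.isCoprime_iff_exists] at h ⊢
    obtain ⟨a, ha, b, hb, hab⟩ := h
    refine ⟨algebraMap (𝓞 E) (𝓞 M) a, Ideal.mem_map_of_mem _ ha, algebraMap (𝓞 E) (𝓞 M) b, hb, ?_⟩
    rw [← map_add, hab, map_one]

theorem cm_ne_bot {𝔟 : Ideal (𝓞 M)} (h : 𝔟 ≠ ⊥) : cm (E := E) 𝔟 ≠ ⊥ := by
  have hint : Algebra.IsIntegral (𝓞 E) (𝓞 M) := inferInstance
  exact Ideal.IsIntegral.comap_ne_bot (𝓞 E) h

theorem cm_ne_top {𝔟 : Ideal (𝓞 M)} (h : 𝔟 ≠ ⊤) : cm (E := E) 𝔟 ≠ ⊤ := by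
  intro h1
  apply h
  rw [Ideal.eq_top_iff_one] at h1 ⊢
  simpa using h1

theorem norm_cm {𝔟 : Ideal (𝓞 M)} (h : 𝔟 ≠ ⊥) :
    Ideal.absNorm (cm (E := E) 𝔟) ≤ Ideal.absNorm 𝔟 := by
  rw [Ideal.absNorm_apply, Ideal.absNorm_apply, Submodule.cardQuot_apply, Submodule.cardQuot_apply]
  have hfin : Finite (𝓞 M ⧸ 𝔟) := Ideal.finiteQuotientOfFreeOfNeBot _ h
  have hinj : Function.Injective (Ideal.quotientMap 𝔟 (algebraMap (𝓞 E) (𝓞 M)) (le_refl (cm (E := E) 𝔟))) :=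
    Ideal.quotientMap_injective
  exact Nat.card_le_card_of_injective _ hinj

/-- a prime is coprime to an ideal iff it does not contain it -/
theorem pl_cop {F : Type} [Field F] [NumberField F] (q : Pl F) (𝔟 : Ideal (𝓞 F)) :
    IsCoprime q.asIdeal 𝔟 ↔ ¬ 𝔟 ≤ q.asIdeal := by
  have hm : q.asIdeal.IsMaximal := q.isMaximal
  rw [Ideal.isCoprime_iff_sup_eq]
  constructor
  · intro h h1
    rw [sup_eq_left.mpr h1] at h
    exact hm.ne_top h
  · intro h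
    apply hm.1.2
    exact left_lt_sup.mpr h

/-- the map on ideals as a homomorphism -/
noncomputable def res (η : Ideal (𝓞 M) →*₀ ℂ) : Ideal (𝓞 E) →*₀ ℂ where
  toFun 𝔞 := η (ex (M := M) 𝔞)
  map_zero' := by
    show η (Ideal.map _ ⊥) = 0
    rw [Ideal.map_bot]
    exact map_zero η
  map_one' := by
    show η (Ideal.map _ (1 : Ideal (𝓞 E))) = 1
    rw [Ideal.one_eq_top, Ideal.map_top, ← Ideal.one_eq_top]
    exact map_one η
  map_mul' := by
    intro a b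
    show η (Ideal.map _ (a * b)) = _
    rw [Ideal.map_mul, map_mul]

theorem res_mod {𝔟 : Ideal (𝓞 M)} {η : Ideal (𝓞 M) →*₀ ℂ} (h : IsModChar 𝔟 (fun _ => 0) η) :
    IsModChar (cm (E := E) 𝔟) (fun _ => 0) (res (E := E) η) where
  ne_bot := cm_ne_bot h.ne_bot
  ne_top := cm_ne_top h.ne_top
  sig_le := fun _ => Nat.zero_le _
  cpx := fun _ _ => rfl
  supp := by
    intro 𝔞
    rw [← cop_iff]
    exact h.supp _
  sig := by
    intro x hx h1
    have h2 := h.sig (algebraMap (𝓞 E) (𝓞 M) x) (by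
      intro h3
      apply hx
      apply inj (E := E) (M := M)
      rw [h3, map_zero]) (by
      have h3 : algebraMap (𝓞 E) (𝓞 M) (x - 1) ∈ 𝔟 := h1
      rwa [map_sub, map_one] at h3)
    show η (Ideal.map _ (Ideal.span {x})) = _
    rw [Ideal.map_span, Set.image_singleton, h2]
    simp [Pool.Agent.Y773.G.sg]

end

section
variable {F : Type} [Field F] [NumberField F]

/-- a homomorphism which is trivial on the primes outside the modulus is trivial on the ideals prime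
to the modulus -/
theorem agree1 {𝔟 : Ideal (𝓞 F)} (η : Ideal (𝓞 F) →*₀ ℂ)
    (h : ∀ q : Pl F, IsCoprime q.asIdeal 𝔟 → η q.asIdeal = 1) :
    ∀ 𝔞 : Ideal (𝓞 F), IsCoprime 𝔞 𝔟 → 𝔞 ≠ ⊥ → η 𝔞 = 1 := by
  intro 𝔞
  induction 𝔞 using UniqueFactorizationMonoid.induction_on_prime with
  | h₁ => intro _ h1; exact absurd rfl h1
  | h₂ x hx =>
    intro _ _
    have : x = 1 := by rwa [Ideal.isUnit_iff, ← Ideal.one_eq_top] at hx
    rw [this, map_one]
  | h₃ a p ha hp ih =>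
    intro h1 h2
    rw [map_mul]
    have h3 : IsCoprime p 𝔟 := h1.of_mul_left_left
    have h4 : IsCoprime a 𝔟 := h1.of_mul_left_right
    rw [ih h4 ha, mul_one]
    exact h ⟨p, Ideal.isPrime_of_prime hp, hp.ne_zero⟩ h3

/-- two homomorphisms which agree on the primes outside the modulus agree on the ideals prime to the
modulus -/
theorem agree {𝔟 : Ideal (𝓞 F)} {Z : Type} [CommMonoidWithZero Z] [Nontrivial Z] (η θ : Ideal (𝓞 F) →*₀ Z)
    (h : ∀ q : Pl F, IsCoprime q.asIdeal 𝔟 → η q.asIdeal = θ q.asIdeal) :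
    ∀ 𝔞 : Ideal (𝓞 F), IsCoprime 𝔞 𝔟 → 𝔞 ≠ ⊥ → η 𝔞 = θ 𝔞 := by
  intro 𝔞
  induction 𝔞 using UniqueFactorizationMonoid.induction_on_prime with
  | h₁ => intro _ h1; exact absurd rfl h1
  | h₂ x hx =>
    intro _ _
    have : x = 1 := by rwa [Ideal.isUnit_iff, ← Ideal.one_eq_top] at hx
    rw [this, map_one, map_one]
  | h₃ a p ha hp ih =>
    intro h1 h2
    rw [map_mul, map_mul]
    have h3 : IsCoprime p 𝔟 := h1.of_mul_left_left
    have h4 : IsCoprime a 𝔟 := h1.of_mul_left_right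
    rw [ih h4 ha]
    congr 1
    exact h ⟨p, Ideal.isPrime_of_prime hp, hp.ne_zero⟩ h3

end

/-- a nontrivial `ℓ`-th root of unity has nontrivial powers with exponents prime to `ℓ` -/
theorem pow_ne {ℓ : ℕ} (hℓ : ℓ.Prime) {z : ℂ} (h1 : z ^ ℓ = 1) (h2 : z ≠ 1) {n : ℕ}
    (hn : ¬ ℓ ∣ n) : z ^ n ≠ 1 := by
  intro h3
  have h4 : orderOf z ∣ ℓ := orderOf_dvd_of_pow_eq_one h1
  have h5 : orderOf z ∣ n := orderOf_dvd_of_pow_eq_one h3
  rcases (Nat.dvd_prime hℓ).mp h4 with h6 | h6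
  · exact h2 (orderOf_eq_one_iff.mp h6)
  · exact hn (h6 ▸ h5)

section
variable {K M : Type} [Field K] [NumberField K] [Field M] [NumberField M] [Algebra K M]

/-- the action on the integers -/
noncomputable def rg (g : M ≃ₐ[K] M) : 𝓞 M ≃+* 𝓞 M := RingOfIntegers.mapRingEquiv g.toRingEquiv

theorem rg_apply (g : M ≃ₐ[K] M) (x : 𝓞 M) : ((rg g x : 𝓞 M) : M) = g (x : M) := rfl

theorem rg_inv_rg (g : M ≃ₐ[K] M) (x : 𝓞 M) : rg g⁻¹ (rg g x) = x := by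
  apply RingOfIntegers.ext
  rw [rg_apply, rg_apply]
  exact g.symm_apply_apply _

theorem rg_rg_inv (g : M ≃ₐ[K] M) (x : 𝓞 M) : rg g (rg g⁻¹ x) = x := by
  apply RingOfIntegers.ext
  rw [rg_apply, rg_apply]
  exact g.apply_symm_apply _

theorem mem_gp (g : M ≃ₐ[K] M) (w : Pl M) (x : 𝓞 M) : x ∈ (gp g w).asIdeal ↔ rg g⁻¹ x ∈ w.asIdeal :=
  Iff.rfl

theorem gp_map (g : M ≃ₐ[K] M) (w : Pl M) :
    (gp g w).asIdeal = w.asIdeal.map (rg g : 𝓞 M →+* 𝓞 M) := by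
  ext x
  rw [mem_gp]
  have h : x ∈ w.asIdeal.map (rg g : 𝓞 M →+* 𝓞 M) ↔ ∃ y ∈ w.asIdeal, rg g y = x :=
    Ideal.mem_map_of_equiv (rg g) x
  rw [h]
  constructor
  · intro h
    exact ⟨_, h, rg_rg_inv g x⟩
  · rintro ⟨y, hy, rfl⟩
    rwa [rg_inv_rg]

/-- the transform of a homomorphism -/
noncomputable def tw (g : M ≃ₐ[K] M) (η : Ideal (𝓞 M) →*₀ ℂ) : Ideal (𝓞 M) →*₀ ℂ where
  toFun 𝔞 := η (𝔞.map (rg g : 𝓞 M →+* 𝓞 M))
  map_zero' := by
    show η (Ideal.map _ ⊥) = 0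
    rw [Ideal.map_bot]
    exact map_zero η
  map_one' := by
    show η (Ideal.map _ (1 : Ideal (𝓞 M))) = 1
    rw [Ideal.one_eq_top, Ideal.map_top, ← Ideal.one_eq_top]
    exact map_one η
  map_mul' := by
    intro a b
    show η (Ideal.map _ (a * b)) = _
    rw [Ideal.map_mul, map_mul]

end

section
variable {ℓ : ℕ} {K E M : Type} [Field K] [NumberField K] [Field E] [NumberField E] [Field M]
  [NumberField M] [Algebra K E] [Algebra E M] [Algebra K M] [IsScalarTower K E M] [IsGalois K M]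
  [IsGalois E M] {S : Finset (Pl K)} {𝔪 : Ideal (𝓞 M)} {Λ : Type} [AddCommGroup Λ]
  {χ : Λ → Pl M → ZMod ℓ} {sy : Pl M → Pl M → ZMod ℓ}

theorem mem_up (hPLC : S_PLC) (w : Pl M) : w ∈ up S ↔ (lo w : Pl K) ∈ S :=
  (hPLC K M).2.2.2.2.2.2.1 S w

theorem cop_mod (hPLC : S_PLC) (hs : SymSys ℓ M (up S) 𝔪 Λ χ sy) (B : Finset (Pl M)) (w : Pl M) :
    IsCoprime w.asIdeal (𝔪 * ∏ b ∈ B, b.asIdeal) ↔ (lo w : Pl K) ∉ S ∧ w ∉ B := by
  rw [IsCoprime.mul_right_iff, IsCoprime.prod_right_iff, hs.cop, mem_up hPLC]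
  constructor
  · rintro ⟨h1, h2⟩
    refine ⟨h1, fun h3 => ?_⟩
    have h4 := h2 w h3
    rw [pl_cop] at h4
    exact h4 le_rfl
  · rintro ⟨h1, h2⟩
    refine ⟨h1, fun b hb => ?_⟩
    rw [pl_cop]
    intro h3
    apply h2
    have h4 : b.asIdeal = w.asIdeal := b.isMaximal.eq_of_le w.isPrime.ne_top h3
    have h5 : b = w := HeightOneSpectrum.ext h4
    rwa [← h5]

theorem inv_restrict (g : M ≃ₐ[E] M) : (g⁻¹).restrictScalars K = (g.restrictScalars K)⁻¹ := rfl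

theorem gp_inv_gp (hPLC : S_PLC) (g : M ≃ₐ[K] M) (w : Pl M) : gp g⁻¹ (gp g w) = w := by
  rw [← (hPLC K M).2.2.1, inv_mul_cancel, (hPLC K M).2.1]

theorem gp_gp_inv (hPLC : S_PLC) (g : M ≃ₐ[K] M) (w : Pl M) : gp g (gp g⁻¹ w) = w := by
  rw [← (hPLC K M).2.2.1, mul_inv_cancel, (hPLC K M).2.1]

theorem val_eq (hPLC : S_PLC) (hG : GSys ℓ K M S 𝔪 Λ χ sy) (h : Λ) (j : Pl M → ZMod ℓ)
    (B : Finset (Pl M)) (hB : Disjoint B (up S)) (hj : ∀ b, j b ≠ 0 ↔ b ∈ B)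
    (hχ : ∀ (g : M ≃ₐ[E] M) (w : Pl M), (lo w : Pl K) ∉ S →
      χ h (gp (g.restrictScalars K) w) = χ h w)
    (hjj : ∀ (g : M ≃ₐ[E] M) (w : Pl M), j (gp (g.restrictScalars K) w) = j w)
    (g : M ≃ₐ[E] M) (w : Pl M) (hw : (lo w : Pl K) ∉ S) :
    χ h (gp (g.restrictScalars K) w) + ∑ b ∈ B, j b * sy b (gp (g.restrictScalars K) w) =
      χ h w + ∑ b ∈ B, j b * sy b w := by
  rw [hχ g w hw]
  congr 1
  symm
  apply Finset.sum_nbij' (gp (g.restrictScalars K)) (gp (g.restrictScalars K)⁻¹)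
  · intro b hb
    rw [← hj, hjj, hj]
    exact hb
  · intro b hb
    rw [← hj, ← inv_restrict, hjj, hj]
    exact hb
  · intro b _
    exact gp_inv_gp hPLC _ _
  · intro b _
    exact gp_gp_inv hPLC _ _
  · intro b hb
    rw [hjj, hG.eqs _ _ _ _ hw]
    intro h1
    have h2 : b ∈ up S := (mem_up hPLC b).mpr h1
    exact Finset.disjoint_left.mp hB hb h2

theorem cop_gp (hPLC : S_PLC) (hs : SymSys ℓ M (up S) 𝔪 Λ χ sy) (j : Pl M → ZMod ℓ)
    (B : Finset (Pl M)) (hj : ∀ b, j b ≠ 0 ↔ b ∈ B)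
    (hjj : ∀ (g : M ≃ₐ[E] M) (w : Pl M), j (gp (g.restrictScalars K) w) = j w)
    (g : M ≃ₐ[E] M) (w : Pl M) :
    IsCoprime (gp (g.restrictScalars K) w).asIdeal (𝔪 * ∏ b ∈ B, b.asIdeal) ↔
      IsCoprime w.asIdeal (𝔪 * ∏ b ∈ B, b.asIdeal) := by
  rw [cop_mod hPLC hs, cop_mod hPLC hs, (hPLC K M).2.2.2.1, ← hj, hjj, hj]

/-- an ideal which is not coprime to a nonzero ideal is contained in a place which is not coprime
to it -/
theorem exists_pl {F : Type} [Field F] [NumberField F] {𝔞 𝔟 : Ideal (𝓞 F)} (hb : 𝔟 ≠ ⊥)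
    (h : ¬ IsCoprime 𝔞 𝔟) : ∃ w : Pl F, 𝔞 ≤ w.asIdeal ∧ 𝔟 ≤ w.asIdeal := by
  rw [Ideal.isCoprime_iff_sup_eq] at h
  obtain ⟨P, hP, hle⟩ := Ideal.exists_le_maximal _ h
  refine ⟨⟨P, hP.isPrime, ?_⟩, le_sup_left.trans hle, le_sup_right.trans hle⟩
  rintro rfl
  apply hb
  rw [eq_bot_iff]
  exact le_sup_right.trans hle

theorem cop_map (hPLC : S_PLC) (hs : SymSys ℓ M (up S) 𝔪 Λ χ sy) (j : Pl M → ZMod ℓ)
    (B : Finset (Pl M)) (hj : ∀ b, j b ≠ 0 ↔ b ∈ B)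
    (hjj : ∀ (g : M ≃ₐ[E] M) (w : Pl M), j (gp (g.restrictScalars K) w) = j w)
    (hne : 𝔪 * ∏ b ∈ B, b.asIdeal ≠ ⊥)
    (g : M ≃ₐ[E] M) (𝔞 : Ideal (𝓞 M)) (ha : IsCoprime 𝔞 (𝔪 * ∏ b ∈ B, b.asIdeal)) :
    IsCoprime (𝔞.map (rg (g.restrictScalars K) : 𝓞 M →+* 𝓞 M)) (𝔪 * ∏ b ∈ B, b.asIdeal) := by
  by_contra hc
  obtain ⟨w, hw1, hw2⟩ := exists_pl hne hc
  have h1 : ¬ IsCoprime w.asIdeal (𝔪 * ∏ b ∈ B, b.asIdeal) := by
    rw [pl_cop]
    exact fun h => h hw2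
  have h2 : ¬ IsCoprime (gp (g.restrictScalars K)⁻¹ w).asIdeal (𝔪 * ∏ b ∈ B, b.asIdeal) := by
    rw [← inv_restrict, cop_gp hPLC hs j B hj hjj]
    exact h1
  rw [pl_cop, not_not] at h2
  have h3 : 𝔞 ≤ (gp (g.restrictScalars K)⁻¹ w).asIdeal := by
    intro x hx
    rw [mem_gp, inv_inv]
    exact hw1 (Ideal.mem_map_of_mem _ hx)
  rw [Ideal.isCoprime_iff_sup_eq] at ha
  apply (gp (g.restrictScalars K)⁻¹ w).isPrime.ne_top
  rw [eq_top_iff, ← ha]
  exact sup_le h3 h2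

/-- the characters are equivariant -/
theorem tw_eq (hPLC : S_PLC) (hG : GSys ℓ K M S 𝔪 Λ χ sy) (h : Λ) (j : Pl M → ZMod ℓ)
    (B : Finset (Pl M)) (hB : Disjoint B (up S)) (hj : ∀ b, j b ≠ 0 ↔ b ∈ B)
    (hχ : ∀ (g : M ≃ₐ[E] M) (w : Pl M), (lo w : Pl K) ∉ S →
      χ h (gp (g.restrictScalars K) w) = χ h w)
    (hjj : ∀ (g : M ≃ₐ[E] M) (w : Pl M), j (gp (g.restrictScalars K) w) = j w)
    (η : Ideal (𝓞 M) →*₀ ℂ)
    (hη : ∀ q : Pl M, q ∉ up S → q ∉ B → η q.asIdeal = ee ℓ (χ h q + ∑ b ∈ B, j b * sy b q))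
    (g : M ≃ₐ[E] M) (𝔞 : Ideal (𝓞 M)) (ha : IsCoprime 𝔞 (𝔪 * ∏ b ∈ B, b.asIdeal))
    (ha0 : 𝔞 ≠ ⊥) :
    η (𝔞.map (rg (g.restrictScalars K) : 𝓞 M →+* 𝓞 M)) = η 𝔞 := by
  refine agree (𝔟 := 𝔪 * ∏ b ∈ B, b.asIdeal) (tw (g.restrictScalars K) η) η ?_ 𝔞 ha ha0
  intro q hq
  show η (q.asIdeal.map (rg (g.restrictScalars K) : 𝓞 M →+* 𝓞 M)) = η q.asIdeal
  rw [← gp_map]
  have hq' := (cop_gp hPLC hG.sys j B hj hjj g q).mpr hq
  have h1 := (cop_mod hPLC hG.sys B q).mp hq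
  have h2 := (cop_mod hPLC hG.sys B _).mp hq'
  rw [hη _ (by rw [mem_up hPLC]; exact h2.1) h2.2, hη q (by rw [mem_up hPLC]; exact h1.1) h1.2,
    val_eq hPLC hG h j B hB hj hχ hjj g q h1.1]

theorem card_E (K E M : Type) [Field K] [NumberField K] [Field E] [NumberField E] [Field M]
    [NumberField M] [Algebra K E] [Algebra E M] [Algebra K M] [IsScalarTower K E M] [IsGalois K M]
    [IsGalois E M] : Nat.card (M ≃ₐ[E] M) ∣ Nat.card (M ≃ₐ[K] M) := by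
  rw [IsGalois.card_aut_eq_finrank, IsGalois.card_aut_eq_finrank,
    ← Module.finrank_mul_finrank K E M]
  exact dvd_mul_left _ _


/-- the decomposition group -/
def dgr (hPLC : S_PLC) (w : Pl M) : Subgroup (M ≃ₐ[E] M) where
  carrier := {g | gp g w = w}
  one_mem' := (hPLC E M).2.1 w
  mul_mem' := by
    intro a b ha hb
    show gp (a * b) w = w
    rw [(hPLC E M).2.2.1]
    have ha' : gp a w = w := ha
    have hb' : gp b w = w := hb
    rw [hb', ha']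
  inv_mem' := by
    intro a ha
    show gp a⁻¹ w = w
    have ha' : gp a w = w := ha
    conv_lhs => rw [← ha']
    rw [← (hPLC E M).2.2.1, inv_mul_cancel, (hPLC E M).2.1]

theorem ncard_dvd (hPLC : S_PLC) (hPLE : S_PLE) (hS : Unr K M S) (w : Pl M)
    (hw : (lo w : Pl K) ∉ S) :
    {w' : Pl M | (lo w' : Pl E) = lo w}.ncard ∣ Nat.card (M ≃ₐ[E] M) := by
  have h1 := (hPLE K E M S hS w hw).2.2.2.1 (dgr (E := E) hPLC w) (fun g => Iff.rfl)
  exact ⟨_, h1.2.symm⟩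

end

theorem t_RST (hPLC : S_PLC) (hPLE : S_PLE) : S_RST := by
  intro ℓ hℓ K E M _ _ _ _ _ _ _ _ _ _ _ _ S 𝔪 Λ _ χ sy hG h j B hB hj hχ hjj
  obtain ⟨η, hmod, hpow, hval, hnt, hnp⟩ := hG.sys.char h j B hB hj
  have hne := hmod.ne_bot
  have hmemup : ∀ w : Pl M, w ∈ up S ↔ (lo w : Pl K) ∈ S := fun w => mem_up hPLC w
  have hval' : ∀ w : Pl M, IsCoprime w.asIdeal (𝔪 * ∏ b ∈ B, b.asIdeal) →
      η w.asIdeal = ee ℓ (χ h w + ∑ b ∈ B, j b * sy b w) := by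
    intro w hw
    have h1 := (cop_mod hPLC hG.sys B w).mp hw
    exact hval w (by rw [hmemup]; exact h1.1) h1.2
  -- places over `q`
  have hover : ∀ q : Pl E, IsCoprime q.asIdeal (cm (𝔪 * ∏ b ∈ B, b.asIdeal)) ↔
      ∀ w : Pl M, (lo w : Pl E) = q → IsCoprime w.asIdeal (𝔪 * ∏ b ∈ B, b.asIdeal) := by
    intro q
    constructor
    · intro h1 w hw
      rw [pl_cop] at h1 ⊢
      intro h2
      apply h1
      rw [← hw]
      exact Ideal.comap_mono h2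
    · intro h1
      rw [pl_cop]
      intro h2
      have hint : Algebra.IsIntegral (𝓞 E) (𝓞 M) := inferInstance
      have hq := q.isPrime
      obtain ⟨Q, hQ1, hQ2, hQ3⟩ := Ideal.exists_ideal_over_prime_of_isIntegral q.asIdeal _ h2
      have hQ0 : Q ≠ ⊥ := by
        rintro rfl
        exact hne (le_bot_iff.mp hQ1)
      have h3 := h1 ⟨Q, hQ2, hQ0⟩ (HeightOneSpectrum.ext hQ3)
      rw [pl_cop] at h3
      exact h3 hQ1
  have hlo : ∀ w w' : Pl M, (lo w' : Pl E) = lo w → ∃ g : M ≃ₐ[E] M, gp g w = w' := by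
    intro w w' h1
    exact (hPLC E M).2.2.2.2.1 w w' h1.symm
  have hgpE : ∀ (g : M ≃ₐ[E] M) (w : Pl M), gp g w = gp (g.restrictScalars K) w := by
    intro g w
    rfl
  -- coprimality depends on the place of `E` only
  have hcopE : ∀ w w' : Pl M, (lo w' : Pl E) = lo w →
      IsCoprime w.asIdeal (𝔪 * ∏ b ∈ B, b.asIdeal) →
      IsCoprime w'.asIdeal (𝔪 * ∏ b ∈ B, b.asIdeal) ∧ η w'.asIdeal = η w.asIdeal := by
    intro w w' h1 h2
    obtain ⟨g, rfl⟩ := hlo w w' h1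
    have h3 : IsCoprime (gp g w).asIdeal (𝔪 * ∏ b ∈ B, b.asIdeal) := by
      rw [hgpE, cop_gp hPLC hG.sys j B hj hjj]
      exact h2
    refine ⟨h3, ?_⟩
    rw [hval' _ h3, hval' _ h2, hgpE,
      val_eq hPLC hG h j B hB hj hχ hjj g w ((cop_mod hPLC hG.sys B w).mp h2).1]
  have hresq : ∀ q : Pl E, IsCoprime q.asIdeal (cm (𝔪 * ∏ b ∈ B, b.asIdeal)) →
      res (E := E) η q.asIdeal = ∏ᶠ w ∈ {w : Pl M | (lo w : Pl E) = q}, η w.asIdeal := by
    intro q hq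
    obtain ⟨hfin, w, hw⟩ := (hPLC E M).2.2.2.2.2.1 q
    have hw' : (lo w : Pl E) = q := hw
    have hwc := (hover q).mp hq w hw'
    have hwS := ((cop_mod hPLC hG.sys B w).mp hwc).1
    have h1 := (hPLE K E M S hG.unr w hwS).2.2.2.2
    show η (Ideal.map _ q.asIdeal) = _
    rw [← hw', h1]
    exact MonoidHom.map_finprod_mem _ (η : Ideal (𝓞 M) →* ℂ) (by rw [hw']; exact hfin)
  have hηpow : ∀ w : Pl M, IsCoprime w.asIdeal (𝔪 * ∏ b ∈ B, b.asIdeal) → η w.asIdeal ≠ 1 →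
      IsCoprime (lo w : Pl E).asIdeal (cm (𝔪 * ∏ b ∈ B, b.asIdeal)) ∧
      res (E := E) η (lo w : Pl E).asIdeal ≠ 1 := by
    intro w hw h1
    have h2 : IsCoprime (lo w : Pl E).asIdeal (cm (𝔪 * ∏ b ∈ B, b.asIdeal)) := by
      rw [hover]
      intro w' hw'
      exact (hcopE w w' hw' hw).1
    refine ⟨h2, ?_⟩
    have h5 : ∏ᶠ w' ∈ {w' : Pl M | (lo w' : Pl E) = lo w}, η w'.asIdeal =
        ∏ᶠ w' ∈ {w' : Pl M | (lo w' : Pl E) = lo w}, η w.asIdeal :=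
      finprod_mem_congr rfl (fun w' hw' => (hcopE w w' hw' hw).2)
    rw [hresq _ h2, h5,
      finprod_mem_eq_finite_toFinset_prod _ ((hPLC E M).2.2.2.2.2.1 (lo w)).1, Finset.prod_const]
    apply pow_ne hℓ (hpow _ hw) h1
    intro h3
    have h4 := ncard_dvd (E := E) hPLC hPLE hG.unr w ((cop_mod hPLC hG.sys B w).mp hw).1
    rw [Set.ncard_eq_toFinset_card _ ((hPLC E M).2.2.2.2.2.1 (lo w)).1] at h4
    exact hG.hG ((h3.trans h4).trans (card_E K E M))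
  refine ⟨cm (𝔪 * ∏ b ∈ B, b.asIdeal), res η, res_mod hmod, ?_, ?_, ?_, ?_, ?_, ?_⟩
  · have h1 := norm_cm (E := E) hne
    have h2 : Ideal.absNorm (𝔪 * ∏ b ∈ B, b.asIdeal) = Ideal.absNorm 𝔪 * NA B := by
      rw [map_mul, map_prod]
      rfl
    rw [h2] at h1
    exact_mod_cast h1
  · intro q
    rw [hover]
    constructor
    · intro h1 w hw
      exact (cop_mod hPLC hG.sys B w).mp (h1 w hw)
    · intro h1 w hw
      exact (cop_mod hPLC hG.sys B w).mpr (h1 w hw)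
  · intro 𝔞 ha
    exact hpow _ ((cop_iff 𝔞 _).mpr ha)
  · intro q hq
    rw [hresq q hq]
    apply finprod_mem_congr rfl
    intro w hw
    exact hval' w ((hover q).mp hq w hw)
  · intro h1
    have h2 : h ≠ 0 ∨ B.Nonempty := by
      rcases h1 with ⟨w, _, hw⟩ | h1
      · left
        rintro rfl
        apply hw
        have h3 := hG.sys.add 0 0 w
        rw [add_zero] at h3
        exact left_eq_add.mp h3
      · exact Or.inr h1
    obtain ⟨𝔞, ha, ha1⟩ := hnt h2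
    have ha0 : 𝔞 ≠ ⊥ := by
      rintro rfl
      rw [Ideal.isCoprime_iff_sup_eq, bot_sup_eq] at ha
      exact hmod.ne_top ha
    by_contra hcon
    push Not at hcon
    apply ha1
    apply agree1 η _ 𝔞 ha ha0
    intro q hq
    by_contra hq1
    obtain ⟨h3, h4⟩ := hηpow q hq hq1
    exact h4 (hcon _ h3)
  · intro h1
    obtain ⟨α, hα, hα1⟩ := hnp h1
    have hα0 : Ideal.span {α} ≠ ⊥ := by
      intro h3
      rw [h3, Ideal.isCoprime_iff_sup_eq, bot_sup_eq] at hα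
      exact hmod.ne_top hα
    have hnorm : algebraMap (𝓞 E) (𝓞 M) (RingOfIntegers.norm E α) =
        ∏ g : M ≃ₐ[E] M, rg (g.restrictScalars K) α := by
      apply RingOfIntegers.ext
      rw [RingOfIntegers.coe_algebraMap_norm, Algebra.norm_eq_prod_automorphisms]
      show _ = algebraMap (𝓞 M) M (∏ g : M ≃ₐ[E] M, rg (g.restrictScalars K) α)
      rw [map_prod]
      rfl
    have hex : ex (M := M) (Ideal.span {RingOfIntegers.norm E α}) =
        ∏ g : M ≃ₐ[E] M, (Ideal.span {α}).map (rg (g.restrictScalars K) : 𝓞 M →+* 𝓞 M) := by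
      show Ideal.map _ _ = _
      rw [Ideal.map_span, Set.image_singleton, hnorm, ← Ideal.prod_span_singleton]
      apply Finset.prod_congr rfl
      intro g _
      rw [Ideal.map_span, Set.image_singleton]
      rfl
    refine ⟨RingOfIntegers.norm E α, ?_, ?_⟩
    · rw [← cop_iff, hex]
      apply IsCoprime.prod_left
      intro g _
      exact cop_map hPLC hG.sys j B hj hjj hne g _ hα
    · show η (ex (M := M) (Ideal.span {RingOfIntegers.norm E α})) ≠ 1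
      rw [hex, map_prod, Finset.prod_congr rfl (fun g _ =>
        tw_eq hPLC hG h j B hB hj hχ hjj η hval g _ hα hα0), Finset.prod_const]
      apply pow_ne hℓ (hpow _ hα) hα1
      intro h3
      rw [Finset.card_univ, ← Nat.card_eq_fintype_card] at h3
      exact hG.hG (h3.trans (card_E K E M))

end Pool.Agent.T3h73.SG.RST
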