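import Pool.Agent.T3h73.SG.T_YDN
import Pool.Agent.T3h73.SG.T_RST

/-! Project SG, task GSM (helper91): the sums over the places with given decomposition group. -/

set_option autoImplicit false
set_option linter.all false

open NumberField IsDedekindDomain Filter Topology

namespace Pool.Agent.T3h73.SG.GSM

open Pool.Agent.T3h73.SL (Pl)
open Pool.Agent.T3h73.SD (ee NA SymSys)
open Pool.Agent.Y773.G (IsModChar)
open Pool.Agent.H921R2.TatePole
open Pool.Agent.T3h73.SD.MASS (one_le_nm)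
open Pool.Agent.T3h73.SG.XMAS (fib_sum)
open Pool.Agent.T3h73.SG.YDN (dec loc DG_unique fib_tsum)
open Finset (univ)

/-- summation over the fibres, for functions with signs -/
theorem fib_tsum_signed {Ω Q : Type*} (π : Ω → Q) (hfin : ∀ q, {w | π w = q}.Finite)
    (hne : ∀ q, {w | π w = q}.Nonempty) (f : Q → ℝ) (hs : Summable f) :
    Summable (fun w => f (π w) / ({w' | π w' = π w}.ncard : ℝ)) ∧
      ∑' w, f (π w) / ({w' | π w' = π w}.ncard : ℝ) = ∑' q, f q := by
  obtain ⟨a1, a2⟩ := fib_tsum π hfin hne (fun q => |f q| + f q)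
    (fun q => by linarith [neg_abs_le (f q)]) (hs.abs.add hs)
  obtain ⟨b1, b2⟩ := fib_tsum π hfin hne (fun q => |f q|) (fun q => abs_nonneg _) hs.abs
  have h1 : (fun w => f (π w) / ({w' | π w' = π w}.ncard : ℝ)) =
      fun w => (|f (π w)| + f (π w)) / ({w' | π w' = π w}.ncard : ℝ) -
        |f (π w)| / ({w' | π w' = π w}.ncard : ℝ) := by
    funext w
    ring
  rw [h1]
  refine ⟨a1.sub b1, ?_⟩
  rw [a1.tsum_sub b1, a2, b2, hs.abs.tsum_add hs]
  ring

section ee
variable {ℓ : ℕ} [NeZero ℓ]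

theorem ee_eq (a : ZMod ℓ) : ee ℓ a = (ZMod.toCircle a : ℂ) := by
  rw [ZMod.toCircle_apply, ee]

theorem ee_add (a b : ZMod ℓ) : ee ℓ (a + b) = ee ℓ a * ee ℓ b := by
  rw [ee_eq, ee_eq, ee_eq, AddChar.map_add_eq_mul]
  rfl

theorem ee_zero : ee ℓ 0 = 1 := by
  rw [ee_eq, AddChar.map_zero_eq_one]
  rfl

theorem ee_pow (a : ZMod ℓ) (n : ℕ) : ee ℓ a ^ n = ee ℓ ((n : ZMod ℓ) * a) := by
  induction n with
  | zero => rw [pow_zero, Nat.cast_zero, zero_mul, ee_zero]
  | succ n ih => rw [pow_succ, ih, Nat.cast_succ, add_mul, one_mul, ee_add]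

theorem ee_norm (a : ZMod ℓ) : ‖ee ℓ a‖ = 1 := by
  rw [ee_eq]
  exact Circle.norm_coe _

theorem re_le (a : ZMod ℓ) : |(ee ℓ a).re| ≤ 1 := by
  rw [← ee_norm a]
  exact Complex.abs_re_le_norm _

end ee

section
variable {ℓ : ℕ} {K M : Type} [Field K] [NumberField K] [Field M] [NumberField M] [Algebra K M]

open Classical in
/-- the sum over the places with decomposition group `D` -/
noncomputable def TE (S : Finset (Pl K)) (B : Finset (Pl M)) (x : Pl M → ZMod ℓ)
    (D : Subgroup (M ≃ₐ[K] M)) (s : ℝ) : ℝ :=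
  ∑' w : Pl M, if DG w D ∧ (lo w : Pl K) ∉ S ∧ w ∉ B then
    (ee ℓ (x w)).re * (nm (lo w : Pl K) : ℝ) ^ (-s) else 0

/-- the automorphisms over the fixed field of `D` are in `D` -/
theorem res_mem (D : Subgroup (M ≃ₐ[K] M)) (g : M ≃ₐ[IntermediateField.fixedField D] M) :
    g.restrictScalars K ∈ D := by
  set φ := IntermediateField.subgroupEquivAlgEquiv D with hφ
  have hφr : ∀ g : D, (φ g).restrictScalars K = (g : M ≃ₐ[K] M) := by
    intro g
    ext x
    rfl
  have h := φ.apply_symm_apply g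
  rw [← h, hφr]
  exact (φ.symm g).2

theorem mod_norm {F : Type} [Field F] [NumberField F] [NeZero ℓ] {𝔫 : Ideal (𝓞 F)}
    {η : Ideal (𝓞 F) →*₀ ℂ} (hη : IsModChar 𝔫 (fun _ => 0) η)
    (hp : ∀ 𝔞, IsCoprime 𝔞 𝔫 → η 𝔞 ^ ℓ = 1) (𝔞 : Ideal (𝓞 F)) : |(η 𝔞).re| ≤ 1 := by
  refine (Complex.abs_re_le_norm _).trans ?_
  by_cases h : η 𝔞 = 0
  · rw [h, norm_zero]
    exact zero_le_one
  · have h1 := hp 𝔞 ((hη.supp 𝔞).1 h)
    have h2 := congrArg norm h1
    rw [norm_pow, norm_one] at h2
    exact ((pow_eq_one_iff_of_nonneg (norm_nonneg _) (NeZero.ne ℓ)).1 h2).le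

open Classical in
theorem step (hPLC : S_PLC) (hPLE : S_PLE) [NeZero ℓ] [IsGalois K M]
    [Fintype (Subgroup (M ≃ₐ[K] M))] {S : Finset (Pl K)} (hU : Unr K M S)
    (D : Subgroup (M ≃ₐ[K] M)) :
    ∃ C : ℝ, 0 ≤ C ∧ ∀ (x : Pl M → ZMod ℓ) (B : Finset (Pl M)),
    (∀ g ∈ D, ∀ w : Pl M, (lo w : Pl K) ∉ S → x (gp g w) = x w) →
    (∀ g ∈ D, ∀ w : Pl M, gp g w ∈ B ↔ w ∈ B) →
    ∀ (𝔫 : Ideal (𝓞 (IntermediateField.fixedField D)))
      (η : Ideal (𝓞 (IntermediateField.fixedField D)) →*₀ ℂ), IsModChar 𝔫 (fun _ => 0) η →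
    (∀ q : Pl (IntermediateField.fixedField D), IsCoprime q.asIdeal 𝔫 ↔
      ∀ w : Pl M, (lo w : Pl (IntermediateField.fixedField D)) = q →
        (lo w : Pl K) ∉ S ∧ w ∉ B) →
    (∀ 𝔞, IsCoprime 𝔞 𝔫 → η 𝔞 ^ ℓ = 1) →
    (∀ q : Pl (IntermediateField.fixedField D), IsCoprime q.asIdeal 𝔫 → η q.asIdeal =
      ∏ᶠ w ∈ {w : Pl M | (lo w : Pl (IntermediateField.fixedField D)) = q}, ee ℓ (x w)) →
    ∀ s : ℝ, 1 < s → s ≤ 2 →
    |∑' q : Pl (IntermediateField.fixedField D), (η q.asIdeal).re * (nm q : ℝ) ^ (-s) -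
      ∑ D' ∈ univ.filter (fun D' : Subgroup (M ≃ₐ[K] M) => D' ≤ D),
        ((Nat.card D' : ℝ) / Nat.card D) *
          TE S B (fun w => ((Nat.card D / Nat.card D' : ℕ) : ZMod ℓ) * x w) D' s| ≤ C := by
  obtain ⟨-, p2, p3, p4, -, p6, p7, p8, -, -⟩ := hPLC K M
  obtain ⟨-, -, -, -, -, r6, -, -, -, -⟩ := hPLC (IntermediateField.fixedField D) M
  obtain ⟨g, hg⟩ := p8
  have hfinM : Finite (M ≃ₐ[K] M) := inferInstance
  have hD0 : (0 : ℝ) < Nat.card D := by
    have : 0 < Nat.card D := Nat.card_pos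
    exact_mod_cast this
  have hup : ∀ w : Pl M, w ∈ up S ↔ (lo w : Pl K) ∈ S := p7 S
  refine ⟨∑' w : Pl M, (nm (lo w : Pl K) : ℝ) ^ (-(2 : ℝ)) + (up S : Finset (Pl M)).card, ?_, ?_⟩
  · have : 0 ≤ ∑' w : Pl M, (nm (lo w : Pl K) : ℝ) ^ (-(2 : ℝ)) := tsum_nonneg fun w => by positivity
    positivity
  intro x B hx hB 𝔫 η hη hcop hpow hval s hs hs2
  have hs2sum := (fib_sum (lo : Pl M → Pl K) hg (by norm_num : (1 : ℝ) < 2)).1
  have hssum := (fib_sum (lo : Pl M → Pl K) hg hs).1
  have hfsum : Summable fun q : Pl (IntermediateField.fixedField D) =>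
      (η q.asIdeal).re * (nm q : ℝ) ^ (-s) := by
    refine Summable.of_norm_bounded (nm_summable hs) fun q => ?_
    rw [Real.norm_eq_abs, abs_mul, abs_of_nonneg (by positivity : (0 : ℝ) ≤ (nm q : ℝ) ^ (-s))]
    exact mul_le_of_le_one_left (by positivity) (mod_norm hη hpow _)
  obtain ⟨ha, hae⟩ := fib_tsum_signed (lo : Pl M → Pl (IntermediateField.fixedField D))
    (fun q => (r6 q).1) (fun q => (r6 q).2)
    (fun q => (η q.asIdeal).re * (nm q : ℝ) ^ (-s)) hfsum
  rw [← hae]
  -- the terms of the right-hand side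
  set T : Finset (Subgroup (M ≃ₐ[K] M)) :=
    univ.filter (fun D' : Subgroup (M ≃ₐ[K] M) => D' ≤ D) with hT
  let t : Subgroup (M ≃ₐ[K] M) → Pl M → ℝ := fun D' w =>
    ((Nat.card D' : ℝ) / Nat.card D) *
      (if DG w D' ∧ (lo w : Pl K) ∉ S ∧ w ∉ B then
        (ee ℓ (((Nat.card D / Nat.card D' : ℕ) : ZMod ℓ) * x w)).re *
          (nm (lo w : Pl K) : ℝ) ^ (-s) else 0)
  have hts : ∀ D', Summable (t D') := by
    intro D'
    refine Summable.mul_left _ ?_
    refine Summable.of_norm_bounded hssum fun w => ?_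
    split_ifs
    · rw [Real.norm_eq_abs, abs_mul,
        abs_of_nonneg (by positivity : (0 : ℝ) ≤ (nm (lo w : Pl K) : ℝ) ^ (-s))]
      exact mul_le_of_le_one_left (by positivity) (re_le _)
    · rw [norm_zero]
      positivity
  have ht : ∑ D' ∈ T, ((Nat.card D' : ℝ) / Nat.card D) *
      TE S B (fun w => ((Nat.card D / Nat.card D' : ℕ) : ZMod ℓ) * x w) D' s =
      ∑' w, ∑ D' ∈ T, t D' w := by
    rw [Summable.tsum_finsetSum fun D' _ => hts D']
    refine Finset.sum_congr rfl fun D' _ => ?_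
    simp only [t]
    rw [tsum_mul_left]
    rfl
  have htsum : Summable fun w => ∑ D' ∈ T, t D' w := summable_sum fun D' _ => hts D'
  rw [ht, ← Summable.tsum_sub ha htsum]
  -- the pointwise bound
  have hupsum : Summable fun w : Pl M => if (lo w : Pl K) ∈ S then (1 : ℝ) else 0 :=
    summable_of_ne_finset_zero (s := up S) fun w hw => by
      rw [if_neg]
      exact fun h => hw ((hup w).2 h)
  have huptsum : ∑' w : Pl M, (if (lo w : Pl K) ∈ S then (1 : ℝ) else 0) =
      (up S : Finset (Pl M)).card := by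
    rw [tsum_eq_sum (s := up S) fun w hw => by
      rw [if_neg]
      exact fun h => hw ((hup w).2 h)]
    rw [Finset.sum_congr rfl fun w hw => if_pos ((hup w).1 hw), Finset.sum_const, nsmul_eq_mul, mul_one]
  have hpt : ∀ w : Pl M, |(η (lo w : Pl (IntermediateField.fixedField D)).asIdeal).re *
      (nm (lo w : Pl (IntermediateField.fixedField D)) : ℝ) ^ (-s) /
      ({w' : Pl M | (lo w' : Pl (IntermediateField.fixedField D)) = lo w}.ncard : ℝ) -
        ∑ D' ∈ T, t D' w| ≤ (nm (lo w : Pl K) : ℝ) ^ (-(2 : ℝ)) +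
          (if (lo w : Pl K) ∈ S then (1 : ℝ) else 0) := by
    intro w
    have hn1 : 1 ≤ {w' : Pl M | (lo w' : Pl (IntermediateField.fixedField D)) = lo w}.ncard :=
      (Set.ncard_pos (r6 (lo w)).1).2 ⟨w, rfl⟩
    have hn1' : (1 : ℝ) ≤ {w' : Pl M | (lo w' : Pl (IntermediateField.fixedField D)) = lo w}.ncard := by
      exact_mod_cast hn1
    have hE1 := one_le_nm (lo w : Pl (IntermediateField.fixedField D))
    have hK1 := one_le_nm (lo w : Pl K)
    have hdiv : |(η (lo w : Pl (IntermediateField.fixedField D)).asIdeal).re *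
        (nm (lo w : Pl (IntermediateField.fixedField D)) : ℝ) ^ (-s) /
        ({w' : Pl M | (lo w' : Pl (IntermediateField.fixedField D)) = lo w}.ncard : ℝ)| ≤
        (nm (lo w : Pl (IntermediateField.fixedField D)) : ℝ) ^ (-s) := by
      rw [abs_div, abs_mul, Nat.abs_cast,
        abs_of_nonneg (by positivity : (0 : ℝ) ≤
          (nm (lo w : Pl (IntermediateField.fixedField D)) : ℝ) ^ (-s))]
      refine (div_le_self (by positivity) hn1').trans ?_
      exact mul_le_of_le_one_left (by positivity) (mod_norm hη hpow _)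
    by_cases hw : (lo w : Pl K) ∈ S
    · have h0 : ∑ D' ∈ T, t D' w = 0 := by
        refine Finset.sum_eq_zero fun D' _ => ?_
        simp only [t]
        rw [if_neg fun h => h.2.1 hw, mul_zero]
      rw [h0, sub_zero, if_pos hw]
      have h1 : (nm (lo w : Pl (IntermediateField.fixedField D)) : ℝ) ^ (-s) ≤ 1 :=
        Real.rpow_le_one_of_one_le_of_nonpos hE1 (by linarith)
      have h2 : 0 ≤ (nm (lo w : Pl K) : ℝ) ^ (-(2 : ℝ)) := by positivity
      linarith
    · rw [if_neg hw, add_zero]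
      have hDw : DG w (dec p2 p3 w) := fun g => Iff.rfl
      obtain ⟨l1, l2⟩ := loc hPLC hPLE hU D w hw (dec p2 p3 w) hDw
      obtain ⟨-, -, q3, -, -⟩ := hPLE K (IntermediateField.fixedField D) M S hU w hw
      set Dw := dec p2 p3 w with hDwd
      have hm0 : 0 < Nat.card (Dw ⊓ D : Subgroup (M ≃ₐ[K] M)) := Nat.card_pos
      by_cases hle : Dw ≤ D
      · have hin : Dw ⊓ D = Dw := inf_eq_left.2 hle
        rw [hin] at l1 l2 hm0
        have h1 : ∑ D' ∈ T, t D' w = t Dw w := by
          refine Finset.sum_eq_single_of_mem Dw ?_ fun D' _ hD' => ?_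
          · rw [hT, Finset.mem_filter]
            exact ⟨Finset.mem_univ _, hle⟩
          · simp only [t]
            rw [if_neg fun h => hD' (DG_unique h.1 hDw), mul_zero]
        have h3 : nm (lo w : Pl (IntermediateField.fixedField D)) = nm (lo w : Pl K) :=
          Nat.pow_left_injective hm0.ne' l2
        have hcw : IsCoprime (lo w : Pl (IntermediateField.fixedField D)).asIdeal 𝔫 ↔ w ∉ B := by
          rw [hcop]
          constructor
          · intro h
            exact (h w rfl).2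
          · intro h w' hw'
            obtain ⟨g', rfl⟩ := (q3 w').1 hw'
            rw [p4]
            refine ⟨hw, ?_⟩
            rw [hB _ (res_mem D g')]
            exact h
        have h4 : (η (lo w : Pl (IntermediateField.fixedField D)).asIdeal).re *
            (nm (lo w : Pl (IntermediateField.fixedField D)) : ℝ) ^ (-s) /
            ({w' : Pl M | (lo w' : Pl (IntermediateField.fixedField D)) = lo w}.ncard : ℝ) =
            ∑ D' ∈ T, t D' w := by
          rw [h1, h3]
          have h5 : ({w' : Pl M | (lo w' : Pl (IntermediateField.fixedField D)) = lo w}.ncard : ℝ) *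
              Nat.card Dw = Nat.card D := by exact_mod_cast l1
          have h6 : (0 : ℝ) < Nat.card Dw := by exact_mod_cast hm0
          have h7 : (0 : ℝ) < ({w' : Pl M | (lo w' : Pl (IntermediateField.fixedField D)) =
            lo w}.ncard : ℝ) := by linarith
          by_cases hwB : w ∈ B
          · have h8 : η (lo w : Pl (IntermediateField.fixedField D)).asIdeal = 0 := by
              by_contra h
              exact (hcw.1 ((hη.supp _).1 h)) hwB
            have h9 : t Dw w = 0 := by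
              simp only [t]
              rw [if_neg fun h => h.2.2 hwB, mul_zero]
            rw [h8, h9, Complex.zero_re, zero_mul, zero_div]
          · have h8 : η (lo w : Pl (IntermediateField.fixedField D)).asIdeal =
                ee ℓ (((Nat.card D / Nat.card Dw : ℕ) : ZMod ℓ) * x w) := by
              rw [hval _ (hcw.2 hwB), ← l1, Nat.mul_div_cancel _ hm0, ← ee_pow,
                finprod_mem_eq_finite_toFinset_prod _ (r6 (lo w)).1]
              have h10 : ∀ w' ∈ (r6 (lo w)).1.toFinset, ee ℓ (x w') = ee ℓ (x w) := by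
                intro w' hw'
                rw [Set.Finite.mem_toFinset] at hw'
                obtain ⟨g', rfl⟩ := (q3 w').1 hw'
                rw [hx _ (res_mem D g') w hw]
              rw [Finset.prod_congr rfl h10, Finset.prod_const,
                ← Set.ncard_eq_toFinset_card _ (r6 (lo w)).1]
            have h9 : t Dw w = ((Nat.card Dw : ℝ) / Nat.card D) *
                ((ee ℓ (((Nat.card D / Nat.card Dw : ℕ) : ZMod ℓ) * x w)).re *
                  (nm (lo w : Pl K) : ℝ) ^ (-s)) := by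
              simp only [t]
              rw [if_pos ⟨hDw, hw, hwB⟩]
            rw [h8, h9, ← h5]
            field_simp
        rw [h4, sub_self, abs_zero]
        positivity
      · have h0 : ∑ D' ∈ T, t D' w = 0 := by
          refine Finset.sum_eq_zero fun D' hD' => ?_
          simp only [t]
          rw [if_neg, mul_zero]
          intro h
          apply hle
          rw [← DG_unique h.1 hDw]
          rw [hT, Finset.mem_filter] at hD'
          exact hD'.2
        rw [h0, sub_zero]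
        refine hdiv.trans ?_
        -- the norm of the place of the fixed field is large
        have hdvd : Nat.card (Dw ⊓ D : Subgroup (M ≃ₐ[K] M)) ∣ Nat.card Dw :=
          Subgroup.card_dvd_of_le inf_le_left
        obtain ⟨k, hk⟩ := hdvd
        have hk2 : 2 ≤ k := by
          have hk0 : k ≠ 0 := by
            rintro rfl
            rw [mul_zero] at hk
            have : 0 < Nat.card Dw := Nat.card_pos
            omega
          have hk1 : k ≠ 1 := by
            rintro rfl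
            apply hle
            rw [mul_one] at hk
            have h8 : Dw ⊓ D = Dw := Subgroup.eq_of_le_of_card_ge inf_le_left hk.le
            exact inf_eq_left.1 h8
          omega
        rw [hk, mul_comm, pow_mul] at l2
        have h3 : nm (lo w : Pl (IntermediateField.fixedField D)) = nm (lo w : Pl K) ^ k :=
          Nat.pow_left_injective hm0.ne' l2
        rw [h3]
        push_cast
        rw [← Real.rpow_natCast, ← Real.rpow_mul (by positivity)]
        refine Real.rpow_le_rpow_of_exponent_le hK1 ?_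
        have h9 : (2 : ℝ) ≤ k := by exact_mod_cast hk2
        nlinarith
  have hdsum := ha.sub htsum
  rw [← huptsum, ← Summable.tsum_add hs2sum hupsum]
  rw [← Real.norm_eq_abs]
  exact tsum_of_norm_bounded (hs2sum.add hupsum).hasSum fun w => by
    rw [Real.norm_eq_abs]
    exact hpt w

theorem chi_zero {Λ : Type} [AddCommGroup Λ] {χ : Λ → Pl M → ZMod ℓ}
    (hadd : ∀ h h' q, χ (h + h') q = χ h q + χ h' q) (q : Pl M) : χ 0 q = 0 := by
  have h1 := hadd 0 0 q
  rw [add_zero] at h1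
  exact left_eq_add.1 h1

theorem chi_nsmul {Λ : Type} [AddCommGroup Λ] {χ : Λ → Pl M → ZMod ℓ}
    (hadd : ∀ h h' q, χ (h + h') q = χ h q + χ h' q) (n : ℕ) (h : Λ) (q : Pl M) :
    χ (n • h) q = (n : ZMod ℓ) * χ h q := by
  induction n with
  | zero => rw [zero_smul, chi_zero hadd, Nat.cast_zero, zero_mul]
  | succ n ih => rw [succ_nsmul, hadd, ih, Nat.cast_succ, add_mul, one_mul]

theorem one_le_NA (B : Finset (Pl M)) : (1 : ℝ) ≤ NA B := by
  have h : 1 ≤ NA B := by
    unfold NA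
    refine Nat.one_le_iff_ne_zero.2 (Finset.prod_ne_zero_iff.2 fun b _ => ?_)
    rw [Ne, Ideal.absNorm_eq_zero_iff]
    exact b.ne_bot
  exact_mod_cast h

theorem log_bound {a b c : ℝ} (ha : 1 ≤ a) (hb : 1 ≤ b) (hc : 1 ≤ c) (h : c ≤ a * b) :
    1 + Real.log (1 + Real.log c) ≤
      (1 + Real.log (1 + Real.log a)) * (1 + Real.log (1 + Real.log b)) := by
  have la := Real.log_nonneg ha
  have lb := Real.log_nonneg hb
  have lc := Real.log_nonneg hc
  have h1 : Real.log c ≤ Real.log a + Real.log b := by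
    rw [← Real.log_mul (by positivity) (by positivity)]
    exact Real.log_le_log (by positivity) h
  have h2 : 1 + Real.log c ≤ (1 + Real.log a) * (1 + Real.log b) := by
    nlinarith [mul_nonneg la lb]
  have h3 : Real.log (1 + Real.log c) ≤ Real.log (1 + Real.log a) + Real.log (1 + Real.log b) := by
    rw [← Real.log_mul (by positivity) (by positivity)]
    exact Real.log_le_log (by positivity) h2
  have h4 : 0 ≤ Real.log (1 + Real.log a) := Real.log_nonneg (by linarith)
  have h5 : 0 ≤ Real.log (1 + Real.log b) := Real.log_nonneg (by linarith)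
  nlinarith [mul_nonneg h4 h5]

open Classical in
theorem main (hPLC : S_PLC) (hPLE : S_PLE) (hPSB : S_PSB) (hRST : S_RST) (hℓ : ℓ.Prime)
    (hℓ2 : ℓ ≠ 2) [IsGalois K M] {S : Finset (Pl K)} {𝔪 : Ideal (𝓞 M)} {Λ : Type}
    [AddCommGroup Λ] {χ : Λ → Pl M → ZMod ℓ} {sy : Pl M → Pl M → ZMod ℓ}
    (hG : GSys ℓ K M S 𝔪 Λ χ sy) :
    ∀ (n : ℕ) (D : Subgroup (M ≃ₐ[K] M)), Nat.card D = n → ∃ C : ℝ, 0 < C ∧
    ∀ (h : Λ) (j : Pl M → ZMod ℓ) (B : Finset (Pl M)), Disjoint B (up S) →
    (∀ b, j b ≠ 0 ↔ b ∈ B) →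
    (∀ g ∈ D, ∀ w : Pl M, (lo w : Pl K) ∉ S → χ h (gp g w) = χ h w) →
    (∀ g ∈ D, ∀ w : Pl M, j (gp g w) = j w) →
    ((∃ w : Pl M, (lo w : Pl K) ∉ S ∧ χ h w ≠ 0) ∨ B.Nonempty) → ∀ s : ℝ, 1 < s → s ≤ 2 →
    |TE S B (fun w => χ h w + ∑ b ∈ B, j b * sy b w) D s| ≤
      C * (1 + Real.log (1 + Real.log (NA B))) := by
  have hne : NeZero ℓ := ⟨hℓ.ne_zero⟩
  have hfact : Fact ℓ.Prime := ⟨hℓ⟩
  intro n
  induction n using Nat.strong_induction_on with
  | _ n ih =>
    intro D hDn
    have hfin : Fintype (Subgroup (M ≃ₐ[K] M)) := Fintype.ofFinite _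
    have hex : ∀ D' : Subgroup (M ≃ₐ[K] M), ∃ C : ℝ, 0 < C ∧ (D' < D →
        ∀ (h : Λ) (j : Pl M → ZMod ℓ) (B : Finset (Pl M)), Disjoint B (up S) →
        (∀ b, j b ≠ 0 ↔ b ∈ B) →
        (∀ g ∈ D', ∀ w : Pl M, (lo w : Pl K) ∉ S → χ h (gp g w) = χ h w) →
        (∀ g ∈ D', ∀ w : Pl M, j (gp g w) = j w) →
        ((∃ w : Pl M, (lo w : Pl K) ∉ S ∧ χ h w ≠ 0) ∨ B.Nonempty) →
        ∀ s : ℝ, 1 < s → s ≤ 2 →
        |TE S B (fun w => χ h w + ∑ b ∈ B, j b * sy b w) D' s| ≤
          C * (1 + Real.log (1 + Real.log (NA B)))) := by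
      intro D'
      by_cases h : D' < D
      · have h1 : Nat.card D' < n := by
          rw [← hDn]
          refine lt_of_le_of_ne (Subgroup.card_le_of_le h.le) fun h2 => h.ne ?_
          exact Subgroup.eq_of_le_of_card_ge h.le h2.ge
        obtain ⟨C, hC, h2⟩ := ih _ h1 D' rfl
        exact ⟨C, hC, fun _ => h2⟩
      · exact ⟨1, one_pos, fun h' => absurd h' h⟩
    choose c hc0 hc using hex
    obtain ⟨C₁, hC₁, h1⟩ := step (ℓ := ℓ) hPLC hPLE hG.unr D
    obtain ⟨C₂, hC₂, h2⟩ := hPSB ℓ hℓ hℓ2 (IntermediateField.fixedField D)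
    set T : Finset (Subgroup (M ≃ₐ[K] M)) :=
      univ.filter (fun D' : Subgroup (M ≃ₐ[K] M) => D' ≤ D) with hT
    have hDT : D ∈ T := by rw [hT, Finset.mem_filter]; exact ⟨Finset.mem_univ _, le_rfl⟩
    have hm1 : (1 : ℝ) ≤ Ideal.absNorm 𝔪 := by
      have h : 1 ≤ Ideal.absNorm 𝔪 := by
        refine Nat.one_le_iff_ne_zero.2 ?_
        rw [Ne, Ideal.absNorm_eq_zero_iff]
        exact hG.sys.ne_bot
      exact_mod_cast h
    set Lm : ℝ := 1 + Real.log (1 + Real.log (Ideal.absNorm 𝔪)) with hLm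
    have hLm0 : 0 < Lm := by
      have h3 := Real.log_nonneg hm1
      have h4 : 0 ≤ Real.log (1 + Real.log (Ideal.absNorm 𝔪)) := Real.log_nonneg (by linarith)
      linarith
    refine ⟨C₂ * Lm + C₁ + ∑ D' ∈ T.erase D, c D', ?_, ?_⟩
    · have : 0 ≤ ∑ D' ∈ T.erase D, c D' := Finset.sum_nonneg fun D' _ => (hc0 D').le
      positivity
    intro h j B hBS hj hχ hjj hnt s hs hs2
    have hB1 := one_le_NA B
    set L : ℝ := 1 + Real.log (1 + Real.log (NA B)) with hL
    have hL1 : 1 ≤ L := by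
      have h3 := Real.log_nonneg hB1
      have h4 : 0 ≤ Real.log (1 + Real.log (NA B)) := Real.log_nonneg (by linarith)
      linarith
    have hD0 : 0 < Nat.card D := Nat.card_pos
    have hD0' : (0 : ℝ) < Nat.card D := by exact_mod_cast hD0
    -- the restricted character
    obtain ⟨𝔫, η, hη, hnorm, hcop, hpow, hval, hntr, -⟩ :=
      hRST ℓ hℓ K (IntermediateField.fixedField D) M S 𝔪 Λ χ sy hG h j B hBS hj
        (fun g w hw => hχ _ (res_mem D g) w hw) (fun g w => hjj _ (res_mem D g) w)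
    have h3 := h2 𝔫 η hη hpow (hntr hnt) s hs hs2
    have hn1 : (1 : ℝ) ≤ Ideal.absNorm 𝔫 := by
      have h : 1 ≤ Ideal.absNorm 𝔫 := by
        refine Nat.one_le_iff_ne_zero.2 ?_
        rw [Ne, Ideal.absNorm_eq_zero_iff]
        exact hη.ne_bot
      exact_mod_cast h
    have h4 : |∑' q : Pl (IntermediateField.fixedField D),
        (η q.asIdeal).re * (nm q : ℝ) ^ (-s)| ≤ C₂ * Lm * L := by
      refine h3.trans ?_
      rw [mul_assoc]
      exact mul_le_mul_of_nonneg_left (log_bound hm1 hB1 hn1 hnorm) hC₂.le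
    -- the invariance
    have hBst : ∀ g ∈ D, ∀ w : Pl M, gp g w ∈ B ↔ w ∈ B := by
      intro g hg w
      rw [← hj, ← hj, hjj g hg w]
    have hxinv : ∀ g ∈ D, ∀ w : Pl M, (lo w : Pl K) ∉ S →
        χ h (gp g w) + ∑ b ∈ B, j b * sy b (gp g w) = χ h w + ∑ b ∈ B, j b * sy b w := by
      intro g hg w hw
      set φ := IntermediateField.subgroupEquivAlgEquiv D with hφ
      have hφr : (φ ⟨g, hg⟩).restrictScalars K = g := by
        ext x
        rfl
      have h5 := RST.val_eq (E := IntermediateField.fixedField D) hPLC hG h j B hBS hj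
        (fun g w hw => hχ _ (res_mem D g) w hw) (fun g w => hjj _ (res_mem D g) w)
        (φ ⟨g, hg⟩) w hw
      rw [hφr] at h5
      exact h5
    have h5 := h1 (fun w => χ h w + ∑ b ∈ B, j b * sy b w) B hxinv hBst 𝔫 η hη hcop hpow hval
      s hs hs2
    -- the proper subgroups
    have h6 : ∀ D' ∈ T.erase D, |((Nat.card D' : ℝ) / Nat.card D) *
        TE S B (fun w => ((Nat.card D / Nat.card D' : ℕ) : ZMod ℓ) *
          (χ h w + ∑ b ∈ B, j b * sy b w)) D' s| ≤ c D' * L := by
      intro D' hD'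
      rw [Finset.mem_erase, hT, Finset.mem_filter] at hD'
      have hlt : D' < D := lt_of_le_of_ne hD'.2.2 hD'.1
      have hD'0 : 0 < Nat.card D' := Nat.card_pos
      have hr0 : ((Nat.card D / Nat.card D' : ℕ) : ZMod ℓ) ≠ 0 := by
        rw [Ne, ZMod.natCast_eq_zero_iff]
        intro h7
        apply hG.hG
        refine h7.trans ((Nat.div_dvd_of_dvd (Subgroup.card_dvd_of_le hlt.le)).trans ?_)
        exact Subgroup.card_subgroup_dvd_card D
      have h7 := hc D' hlt ((Nat.card D / Nat.card D' : ℕ) • h)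
        (fun w => ((Nat.card D / Nat.card D' : ℕ) : ZMod ℓ) * j w) B hBS
        (fun b => by
          rw [← hj b, Ne, mul_eq_zero, not_or]
          exact ⟨fun h => h.2, fun h => ⟨hr0, h⟩⟩)
        (fun g hg w hw => by
          rw [chi_nsmul hG.sys.add, chi_nsmul hG.sys.add, hχ g (hlt.le hg) w hw])
        (fun g hg w => by rw [hjj g (hlt.le hg) w])
        (hnt.imp (fun ⟨w, hw1, hw2⟩ => ⟨w, hw1, by
          rw [chi_nsmul hG.sys.add]
          exact mul_ne_zero hr0 hw2⟩) id) s hs hs2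
      have h8 : (fun w => χ ((Nat.card D / Nat.card D' : ℕ) • h) w +
          ∑ b ∈ B, ((Nat.card D / Nat.card D' : ℕ) : ZMod ℓ) * j b * sy b w) =
          fun w => ((Nat.card D / Nat.card D' : ℕ) : ZMod ℓ) *
            (χ h w + ∑ b ∈ B, j b * sy b w) := by
        funext w
        rw [chi_nsmul hG.sys.add, mul_add, Finset.mul_sum]
        congr 1
        exact Finset.sum_congr rfl fun b _ => mul_assoc _ _ _
      rw [h8] at h7
      rw [abs_mul, abs_of_nonneg (by positivity)]
      have h9 : (Nat.card D' : ℝ) / Nat.card D ≤ 1 := by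
        rw [div_le_one hD0']
        exact_mod_cast Subgroup.card_le_of_le hlt.le
      exact (mul_le_of_le_one_left (abs_nonneg _) h9).trans h7
    have h7 : |∑ D' ∈ T.erase D, ((Nat.card D' : ℝ) / Nat.card D) *
        TE S B (fun w => ((Nat.card D / Nat.card D' : ℕ) : ZMod ℓ) *
          (χ h w + ∑ b ∈ B, j b * sy b w)) D' s| ≤ (∑ D' ∈ T.erase D, c D') * L := by
      rw [Finset.sum_mul]
      exact (Finset.abs_sum_le_sum_abs _ _).trans (Finset.sum_le_sum h6)
    have h8 : TE S B (fun w => ((Nat.card D / Nat.card D : ℕ) : ZMod ℓ) *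
        (χ h w + ∑ b ∈ B, j b * sy b w)) D s =
        TE S B (fun w => χ h w + ∑ b ∈ B, j b * sy b w) D s := by
      rw [Nat.div_self hD0, Nat.cast_one]
      congr 1
      funext w
      rw [one_mul]
    rw [← Finset.add_sum_erase _ _ hDT, div_self hD0'.ne', one_mul, h8] at h5
    have h9 : C₁ ≤ C₁ * L := le_mul_of_one_le_right hC₁ hL1
    rw [abs_le] at h4 h5 h7 ⊢
    constructor
    · nlinarith [h4.1, h4.2, h5.1, h5.2, h7.1, h7.2]
    · nlinarith [h4.1, h4.2, h5.1, h5.2, h7.1, h7.2]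

end

open Classical in
theorem t_GSM (hPLC : S_PLC) (hPLE : S_PLE) (hPSB : S_PSB) (hRST : S_RST) : S_GSM := by
  intro ℓ hℓ hℓ2 K M _ _ _ _ _ _ S 𝔪 Λ _ χ sy hG D
  exact main hPLC hPLE hPSB hRST hℓ hℓ2 hG (Nat.card D) D rfl

end Pool.Agent.T3h73.SG.GSM
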