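import Pool.Agent.T3h73.SG.StmY
import Pool.Agent.T3h73.SD.T_LU

/-!
Task LUD of project SG (helper73): the `L`-functions of ray class characters have a derivative of at
most logarithmic growth.
-/

set_option autoImplicit false
set_option linter.all false

open NumberField Complex Filter Topology MeasureTheory Set

namespace Pool.Agent.T3h73.SG.LUD

open Pool.Agent.Y773.G
open Pool.Agent.Y773 (absNorm_span_nat LI FT rp rp_ne_bot reps_rp Dd Dd_pos Dd_mem mm mm_pos mm_mem Reps qt rz G0 g0 el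
  cube)
open Pool.Agent.T3h73.SD.LU (e0 he0 Ftot_bound Ftot_small interp mellin_bound)

lemma cpow_real {x : ℝ} (hx : 0 < x) (s : ℝ) :
    (x : ℂ) ^ ((s : ℂ) - 1) = ((x ^ (s - 1) : ℝ) : ℂ) := by
  rw [Complex.ofReal_cpow hx.le]
  push_cast
  rfl

/-- the difference of the powers for small `x` -/
lemma diff_small {x s t : ℝ} (hx : 0 < x) (hx1 : x ≤ 1) (hs : 1 < s) (hst : s ≤ t) :
    ‖(x : ℂ) ^ ((t : ℂ) - 1) - (x : ℂ) ^ ((s : ℂ) - 1)‖ ≤ (t - s) * (-Real.log x) := by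
  rw [cpow_real hx, cpow_real hx, ← Complex.ofReal_sub, Complex.norm_real, Real.norm_eq_abs]
  have e1 : x ^ (t - 1) = x ^ (s - 1) * x ^ (t - s) := by
    rw [← Real.rpow_add hx]
    congr 1
    ring
  have h1 : x ^ (s - 1) ≤ 1 := Real.rpow_le_one hx.le hx1 (by linarith)
  have h2 : 0 < x ^ (s - 1) := by positivity
  have h3 : x ^ (t - s) ≤ 1 := Real.rpow_le_one hx.le hx1 (by linarith)
  have h4 : 1 + (t - s) * Real.log x ≤ x ^ (t - s) := by
    rw [Real.rpow_def_of_pos hx]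
    have := Real.add_one_le_exp (Real.log x * (t - s))
    linarith
  have hl : Real.log x ≤ 0 := Real.log_nonpos hx.le hx1
  rw [e1, abs_sub_comm, abs_of_nonneg (by nlinarith)]
  have h5 : 0 ≤ (t - s) * (-Real.log x) := mul_nonneg (by linarith) (by linarith)
  have h6 : 1 - x ^ (t - s) ≤ (t - s) * (-Real.log x) := by linarith
  calc x ^ (s - 1) - x ^ (s - 1) * x ^ (t - s) = x ^ (s - 1) * (1 - x ^ (t - s)) := by ring
    _ ≤ x ^ (s - 1) * ((t - s) * (-Real.log x)) := mul_le_mul_of_nonneg_left h6 h2.le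
    _ ≤ _ := mul_le_of_le_one_left h5 h1

/-- the difference of the powers for large `x` -/
lemma diff_large {x s t : ℝ} (hx1 : 1 ≤ x) (hs : 1 < s) (hst : s ≤ t) (ht2 : t ≤ 2) :
    ‖(x : ℂ) ^ ((t : ℂ) - 1) - (x : ℂ) ^ ((s : ℂ) - 1)‖ ≤ (t - s) * (x * Real.log x) := by
  have hx : 0 < x := by linarith
  rw [cpow_real hx, cpow_real hx, ← Complex.ofReal_sub, Complex.norm_real, Real.norm_eq_abs]
  have e1 : x ^ (s - 1) = x ^ (t - 1) * x ^ (s - t) := by
    rw [← Real.rpow_add hx]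
    congr 1
    ring
  have h1 : x ^ (t - 1) ≤ x := by
    calc x ^ (t - 1) ≤ x ^ (1 : ℝ) := Real.rpow_le_rpow_of_exponent_le hx1 (by linarith)
      _ = x := Real.rpow_one x
  have h2 : 0 < x ^ (t - 1) := by positivity
  have h3 : x ^ (s - t) ≤ 1 := Real.rpow_le_one_of_one_le_of_nonpos hx1 (by linarith)
  have h4 : 1 + (s - t) * Real.log x ≤ x ^ (s - t) := by
    rw [Real.rpow_def_of_pos hx]
    have := Real.add_one_le_exp (Real.log x * (s - t))
    linarith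
  have hl : 0 ≤ Real.log x := Real.log_nonneg hx1
  rw [e1, abs_of_nonneg (by nlinarith)]
  have h5 : 0 ≤ (t - s) * Real.log x := mul_nonneg (by linarith) hl
  have h6 : 1 - x ^ (s - t) ≤ (t - s) * Real.log x := by linarith
  calc x ^ (t - 1) - x ^ (t - 1) * x ^ (s - t) = x ^ (t - 1) * (1 - x ^ (s - t)) := by ring
    _ ≤ x ^ (t - 1) * ((t - s) * Real.log x) := mul_le_mul_of_nonneg_left h6 h2.le
    _ ≤ x * ((t - s) * Real.log x) := mul_le_mul_of_nonneg_right h1 h5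
    _ = _ := by ring

/-- the bound for the difference of the values of the Mellin transform -/
lemma mellin_diff {F : ℝ → ℂ} {C A R : ℝ} {E : ℕ} (hC : 1 ≤ C) (hA : 1 ≤ A) (hR : 1 ≤ R)
    (h1 : ∀ t : ℝ, 0 < t → ‖F t‖ ≤ C / t ∧ ‖F t‖ ≤ C / t ^ 3)
    (h2 : ∀ t : ℝ, 0 < t → ‖F t‖ ≤ A * R ^ E * t ^ 2) {s u : ℝ} (hs : 1 < s) (hsu : s ≤ u)
    (hu2 : u ≤ 2) (hm : MellinConvergent F s) (hmu : MellinConvergent F u) :
    ‖mellin F u - mellin F s‖ ≤ (C * A * Real.exp E + 4 * C) * (1 + Real.log R) ^ 2 * (u - s) := by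
  have hL : 0 ≤ Real.log R := Real.log_nonneg hR
  obtain ⟨L, hLd⟩ : ∃ L, L = Real.log R := ⟨_, rfl⟩
  rw [← hLd] at hL ⊢
  obtain ⟨θ, hθ⟩ : ∃ θ : ℝ, θ = 1 / (1 + L) := ⟨_, rfl⟩
  have hθ0 : 0 < θ := by rw [hθ]; positivity
  have hθ1 : θ ≤ 1 := by
    rw [hθ, div_le_one (by positivity)]
    linarith
  have hR0 : 0 < R := by linarith
  have hus : 0 ≤ u - s := by linarith
  have hRE : (R ^ E : ℝ) ^ θ ≤ Real.exp E := by
    rw [← Real.rpow_natCast, ← Real.rpow_mul hR0.le, Real.rpow_def_of_pos hR0, ← hLd]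
    apply Real.exp_le_exp.mpr
    rw [hθ]
    have : L * (E * (1 / (1 + L))) = E * (L / (1 + L)) := by field_simp
    rw [this]
    have h3 : L / (1 + L) ≤ 1 := by
      rw [div_le_one (by positivity)]
      linarith
    calc (E : ℝ) * (L / (1 + L)) ≤ E * 1 := by gcongr
      _ = E := mul_one _
  -- the pointwise bounds
  have hb1 : ∀ t ∈ Ioc (0 : ℝ) 1,
      ‖(t : ℂ) ^ ((u : ℂ) - 1) • F t - (t : ℂ) ^ ((s : ℂ) - 1) • F t‖ ≤
      (u - s) * (C * A * Real.exp E / θ) * t ^ (2 * θ - 1) := by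
    intro t ht
    have ht0 : 0 < t := ht.1
    have h3 := diff_small ht0 ht.2 hs hsu
    have h4 := interp (norm_nonneg (F t)) (h1 t ht0).1 (h2 t ht0) hθ0.le hθ1
    have h5 : -Real.log t ≤ t ^ (-θ) / θ := by
      rw [le_div_iff₀ hθ0]
      have h6 : Real.log (t ^ (-θ)) ≤ t ^ (-θ) - 1 := Real.log_le_sub_one_of_pos (by positivity)
      rw [Real.log_rpow ht0] at h6
      linarith
    have h7 : ‖F t‖ ≤ (C * A * Real.exp E) * (t ^ (3 * θ - 1)) := by
      refine h4.trans ?_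
      have hA0 : 0 ≤ A := by linarith
      have hC0 : 0 ≤ C := by linarith
      have e0 : (C / t) ^ (1 - θ) * (A * R ^ E * t ^ 2) ^ θ =
          (C ^ (1 - θ) * A ^ θ * (R ^ E) ^ θ) * (t ^ (3 * θ - 1)) := by
        rw [Real.mul_rpow (by positivity) (by positivity),
          Real.mul_rpow hA0 (by positivity), Real.div_rpow hC0 ht0.le]
        have e1 : (t ^ 2 : ℝ) ^ θ = t ^ (2 * θ) := by
          rw [← Real.rpow_natCast, ← Real.rpow_mul ht0.le]
          norm_num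
        have e2 : t ^ (3 * θ - 1) = t ^ (2 * θ) * (t ^ (1 - θ))⁻¹ := by
          rw [← Real.rpow_neg ht0.le, ← Real.rpow_add ht0]
          congr 1
          ring
        rw [e1, e2]
        ring
      rw [e0]
      have e3 : C ^ (1 - θ) ≤ C := by
        calc C ^ (1 - θ) ≤ C ^ (1 : ℝ) := Real.rpow_le_rpow_of_exponent_le hC (by linarith)
          _ = C := Real.rpow_one C
      have e4 : A ^ θ ≤ A := by
        calc A ^ θ ≤ A ^ (1 : ℝ) := Real.rpow_le_rpow_of_exponent_le hA hθ1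
          _ = A := Real.rpow_one A
      gcongr
    rw [← sub_smul, norm_smul]
    have hl : 0 ≤ -Real.log t := by
      have := Real.log_nonpos ht0.le ht.2
      linarith
    calc ‖(t : ℂ) ^ ((u : ℂ) - 1) - (t : ℂ) ^ ((s : ℂ) - 1)‖ * ‖F t‖
        ≤ ((u - s) * (t ^ (-θ) / θ)) * ((C * A * Real.exp E) * (t ^ (3 * θ - 1))) := by
          refine mul_le_mul (h3.trans (mul_le_mul_of_nonneg_left h5 hus)) h7 (norm_nonneg _) ?_
          positivity
      _ = (u - s) * (C * A * Real.exp E / θ) * (t ^ (-θ) * t ^ (3 * θ - 1)) := by ring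
      _ = _ := by
          rw [← Real.rpow_add ht0]
          congr 2
          ring
  have hb2 : ∀ t ∈ Ioi (1 : ℝ),
      ‖(t : ℂ) ^ ((u : ℂ) - 1) • F t - (t : ℂ) ^ ((s : ℂ) - 1) • F t‖ ≤
      (u - s) * (2 * C) * t ^ (-(3 / 2) : ℝ) := by
    intro t ht
    have ht1 : 1 < t := ht
    have ht0 : 0 < t := by linarith
    have h3 := diff_large ht1.le hs hsu hu2
    have h5 : Real.log t ≤ 2 * t ^ (1 / 2 : ℝ) := by
      have h6 : Real.log (t ^ (1 / 2 : ℝ)) ≤ t ^ (1 / 2 : ℝ) - 1 :=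
        Real.log_le_sub_one_of_pos (by positivity)
      rw [Real.log_rpow ht0] at h6
      linarith
    rw [← sub_smul, norm_smul]
    calc ‖(t : ℂ) ^ ((u : ℂ) - 1) - (t : ℂ) ^ ((s : ℂ) - 1)‖ * ‖F t‖
        ≤ ((u - s) * (t * (2 * t ^ (1 / 2 : ℝ)))) * (C / t ^ 3) := by
          refine mul_le_mul (h3.trans ?_) (h1 t ht0).2 (norm_nonneg _) (by positivity)
          exact mul_le_mul_of_nonneg_left (mul_le_mul_of_nonneg_left h5 ht0.le) hus
      _ = (u - s) * (2 * C) * (t ^ (1 / 2 : ℝ) * t ^ (-2 : ℝ)) := by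
          rw [Real.rpow_neg ht0.le]
          have : t ^ (2 : ℝ) = t ^ 2 := by exact_mod_cast Real.rpow_natCast t 2
          rw [this]
          field_simp
      _ = _ := by
          rw [← Real.rpow_add ht0]
          norm_num
  have hint : IntegrableOn (fun t : ℝ => (t : ℂ) ^ ((s : ℂ) - 1) • F t) (Ioi 0) := hm
  have hintu : IntegrableOn (fun t : ℝ => (t : ℂ) ^ ((u : ℂ) - 1) • F t) (Ioi 0) := hmu
  have hintd : IntegrableOn (fun t : ℝ => (t : ℂ) ^ ((u : ℂ) - 1) • F t -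
      (t : ℂ) ^ ((s : ℂ) - 1) • F t) (Ioi 0) := hintu.sub hint
  have hi1 := hintd.mono_set (Ioc_subset_Ioi_self : Ioc (0 : ℝ) 1 ⊆ Ioi 0)
  have hi2 := hintd.mono_set (Ioi_subset_Ioi (zero_le_one : (0 : ℝ) ≤ 1))
  have hsplit : mellin F u - mellin F s = (∫ t in Ioc (0 : ℝ) 1, ((t : ℂ) ^ ((u : ℂ) - 1) • F t -
      (t : ℂ) ^ ((s : ℂ) - 1) • F t)) + ∫ t in Ioi (1 : ℝ), ((t : ℂ) ^ ((u : ℂ) - 1) • F t -
      (t : ℂ) ^ ((s : ℂ) - 1) • F t) := by
    unfold mellin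
    rw [← integral_sub hintu hint, ← setIntegral_union (Ioc_disjoint_Ioi le_rfl) measurableSet_Ioi
      hi1 hi2, Ioc_union_Ioi_eq_Ioi zero_le_one]
  rw [hsplit]
  refine (norm_add_le _ _).trans ?_
  have hg1 : IntegrableOn (fun t : ℝ => (u - s) * (C * A * Real.exp E / θ) * t ^ (2 * θ - 1))
      (Ioc 0 1) := by
    refine Integrable.const_mul ?_ _
    have := intervalIntegral.intervalIntegrable_rpow' (a := 0) (b := 1) (r := 2 * θ - 1) (by linarith)
    rwa [intervalIntegrable_iff_integrableOn_Ioc_of_le zero_le_one] at this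
  have hg2 : IntegrableOn (fun t : ℝ => (u - s) * (2 * C) * t ^ (-(3 / 2) : ℝ)) (Ioi 1) :=
    (integrableOn_Ioi_rpow_of_lt (by norm_num) one_pos).const_mul _
  have hn1 : ‖∫ t in Ioc (0 : ℝ) 1, ((t : ℂ) ^ ((u : ℂ) - 1) • F t -
      (t : ℂ) ^ ((s : ℂ) - 1) • F t)‖ ≤ (u - s) * (C * A * Real.exp E / θ) * (1 / (2 * θ)) := by
    refine (norm_integral_le_of_norm_le hg1
      ((ae_restrict_iff' measurableSet_Ioc).mpr (Eventually.of_forall hb1))).trans (le_of_eq ?_)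
    rw [integral_const_mul, ← intervalIntegral.integral_of_le zero_le_one,
      integral_rpow (Or.inl (by linarith))]
    congr 1
    rw [Real.one_rpow, Real.zero_rpow (by linarith)]
    ring
  have hn2 : ‖∫ t in Ioi (1 : ℝ), ((t : ℂ) ^ ((u : ℂ) - 1) • F t -
      (t : ℂ) ^ ((s : ℂ) - 1) • F t)‖ ≤ (u - s) * (2 * C) * 2 := by
    refine (norm_integral_le_of_norm_le hg2
      ((ae_restrict_iff' measurableSet_Ioi).mpr (Eventually.of_forall hb2))).trans (le_of_eq ?_)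
    rw [integral_const_mul, integral_Ioi_rpow_of_lt (by norm_num) one_pos]
    norm_num
  have h5 : C * A * Real.exp E / θ * (1 / (2 * θ)) ≤ C * A * Real.exp E * (1 + L) ^ 2 := by
    rw [hθ]
    have : C * A * Real.exp E / (1 / (1 + L)) * (1 / (2 * (1 / (1 + L)))) =
      C * A * Real.exp E * (1 + L) ^ 2 / 2 := by field_simp
    rw [this]
    have : 0 ≤ C * A * Real.exp E * (1 + L) ^ 2 := by positivity
    linarith
  have h7 : (1 : ℝ) ≤ (1 + L) ^ 2 := one_le_pow₀ (by linarith)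
  calc _ ≤ (u - s) * (C * A * Real.exp E / θ) * (1 / (2 * θ)) + (u - s) * (2 * C) * 2 :=
        add_le_add hn1 hn2
    _ = (u - s) * (C * A * Real.exp E / θ * (1 / (2 * θ)) + 4 * C) := by ring
    _ ≤ (u - s) * (C * A * Real.exp E * (1 + L) ^ 2 + 4 * C * (1 + L) ^ 2) := by
        refine mul_le_mul_of_nonneg_left ?_ hus
        have : 4 * C ≤ 4 * C * (1 + L) ^ 2 := le_mul_of_one_le_right (by linarith) h7
        linarith
    _ = _ := by ring

/-- an entire function is Lipschitz on `[1, 2]` -/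
lemma lip_entire {f : ℂ → ℂ} (hf : Differentiable ℂ f) : ∃ C : ℝ, 0 ≤ C ∧
    ∀ s t : ℝ, 1 ≤ s → s ≤ t → t ≤ 2 → ‖f t - f s‖ ≤ C * (t - s) := by
  have hc : Continuous (deriv f) := (hf.contDiff (n := 1)).continuous_deriv le_rfl
  obtain ⟨C, hC⟩ := (isCompact_Icc (a := (1 : ℝ)) (b := 2)).exists_bound_of_continuousOn
    (f := fun s : ℝ => deriv f (s : ℂ)) ((hc.comp Complex.continuous_ofReal).continuousOn)
  refine ⟨|C|, abs_nonneg _, fun s t hs hst ht => ?_⟩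
  have hd : ∀ x : ℝ, HasDerivAt (fun y : ℝ => f (y : ℂ)) (deriv f (x : ℂ)) x := fun x =>
    (hf (x : ℂ)).hasDerivAt.comp_ofReal
  have h := (convex_Icc (1 : ℝ) 2).norm_image_sub_le_of_norm_hasDerivWithin_le (C := |C|)
    (f := fun y : ℝ => f (y : ℂ)) (f' := fun x : ℝ => deriv f (x : ℂ))
    (fun x _ => (hd x).hasDerivWithinAt) (fun x hx => (hC x hx).trans (le_abs_self C))
    (show s ∈ Icc (1 : ℝ) 2 from ⟨hs, by linarith⟩) (show t ∈ Icc (1 : ℝ) 2 from ⟨by linarith, ht⟩)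
  rwa [Real.norm_eq_abs, abs_of_nonneg (by linarith : (0 : ℝ) ≤ t - s)] at h

theorem t_LUD : S_LUD := by
  intro K _ _
  obtain ⟨c, hc, hmel⟩ := mellin_Ftot K
  obtain ⟨C1, hC1, hF1⟩ := Ftot_bound K
  obtain ⟨C2, E, hC2, hF2⟩ := Ftot_small K
  -- the gamma factors
  have hdg := differentiable_gam (K := K) (ex (e0 K))
  obtain ⟨G, hG⟩ := (isCompact_Icc (a := (1 : ℝ)) (b := 2)).exists_bound_of_continuousOn
    (f := fun s : ℝ => ∏ φ : K →+* ℂ, (Complex.Gammaℝ ((s : ℂ) + ex (e0 K) φ))⁻¹)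
    ((hdg.continuous.comp Complex.continuous_ofReal).continuousOn)
  obtain ⟨G2, hG20, hG2⟩ := lip_entire hdg
  obtain ⟨C, hCd⟩ : ∃ C : ℝ, C = max C1 1 := ⟨_, rfl⟩
  obtain ⟨A, hAd⟩ : ∃ A : ℝ, A = max C2 1 := ⟨_, rfl⟩
  have hC : 1 ≤ C := hCd ▸ le_max_right _ _
  have hA : 1 ≤ A := hAd ▸ le_max_right _ _
  have hC1C : C1 ≤ C := hCd ▸ le_max_left _ _
  have hC2A : C2 ≤ A := hAd ▸ le_max_left _ _
  obtain ⟨T, hT⟩ : ∃ T : ℝ, T = c⁻¹ * (G2 * (C * A * Real.exp E + C) +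
    |G| * (C * A * Real.exp E + 4 * C)) := ⟨_, rfl⟩
  have hT0 : 0 ≤ T := by rw [hT]; positivity
  refine ⟨T + 2, by positivity, fun 𝔪 η hη hn s u hs1 hsu hu2 => ?_⟩
  have hu1 : 1 < u := by linarith
  have hs2 : s ≤ 2 := by linarith
  have hN : (1 : ℝ) ≤ (Ideal.absNorm 𝔪 : ℝ) := by
    have : Ideal.absNorm 𝔪 ≠ 0 := by
      rw [Ne, Ideal.absNorm_eq_zero_iff]
      exact hη.ne_bot
    exact_mod_cast Nat.one_le_iff_ne_zero.mpr this
  have hNice : ∀ c, Nice (e0 K) (Ps η (e0 K) (rp K c)) := fun c => hη.nice (rp_ne_bot c)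
  have hc' : (c : ℂ) ≠ 0 := by exact_mod_cast hc.ne'
  have hF1' : ∀ t : ℝ, 0 < t → ‖Ftot η (e0 K) (rp K) t‖ ≤ C / t ∧
      ‖Ftot η (e0 K) (rp K) t‖ ≤ C / t ^ 3 := fun t ht =>
    ⟨((hF1 𝔪 η hη t ht).1).trans (by gcongr), ((hF1 𝔪 η hη t ht).2).trans (by gcongr)⟩
  have hF2' : ∀ t : ℝ, 0 < t → ‖Ftot η (e0 K) (rp K) t‖ ≤ A * (Ideal.absNorm 𝔪 : ℝ) ^ E * t ^ 2 :=
    fun t ht => (hF2 𝔪 η hη hn t ht).trans (by gcongr)
  have key : ∀ s : ℝ, 1 < s → MellinConvergent (Ftot η (e0 K) (rp K)) s ∧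
      LI η (s : ℂ) = (c : ℂ)⁻¹ * (∏ φ : K →+* ℂ, (Complex.Gammaℝ ((s : ℂ) + ex (e0 K) φ))⁻¹) *
      mellin (Ftot η (e0 K) (rp K)) s := by
    intro s hs1
    have hs' : 1 < (s : ℂ).re := by simpa using hs1
    obtain ⟨hm, hmeq⟩ := hmel (rp K) reps_rp (e0 K) η hη.norm_le_one hNice (s : ℂ) hs'
    refine ⟨hm, ?_⟩
    have h3 := gam_ne_zero (K := K) (ex (e0 K)) (s := (s : ℂ)) (by linarith)
    rw [hmeq, Finset.prod_inv_distrib]
    field_simp
  obtain ⟨hm, hLs⟩ := key s hs1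
  obtain ⟨hmu, hLu⟩ := key u hu1
  have hL : 0 ≤ Real.log (Ideal.absNorm 𝔪 : ℝ) := Real.log_nonneg hN
  have hb := mellin_bound (F := Ftot η (e0 K) (rp K)) (R := (Ideal.absNorm 𝔪 : ℝ)) (E := E) hC hA hN
    hF1' hF2' hu1 hu2 hmu
  have hd := mellin_diff (F := Ftot η (e0 K) (rp K)) (R := (Ideal.absNorm 𝔪 : ℝ)) (E := E) hC hA hN
    hF1' hF2' hs1 hsu hu2 hm hmu
  have h5 := (hG s ⟨hs1.le, hs2⟩).trans (le_abs_self G)
  have h6 := hG2 s u hs1.le hsu hu2
  rw [hLs, hLu]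
  set L : ℝ := 1 + Real.log (Ideal.absNorm 𝔪 : ℝ) with hLdef
  have hL1 : 1 ≤ L := by rw [hLdef]; linarith
  generalize (∏ φ : K →+* ℂ, (Complex.Gammaℝ ((s : ℂ) + ex (e0 K) φ))⁻¹) = gs at h5 h6 ⊢
  generalize (∏ φ : K →+* ℂ, (Complex.Gammaℝ ((u : ℂ) + ex (e0 K) φ))⁻¹) = gu at h6 ⊢
  generalize mellin (Ftot η (e0 K) (rp K)) s = ms at hd ⊢
  generalize mellin (Ftot η (e0 K) (rp K)) u = mu at hd hb ⊢
  have e1 : (c : ℂ)⁻¹ * gu * mu - (c : ℂ)⁻¹ * gs * ms = (c : ℂ)⁻¹ * ((gu - gs) * mu + gs * (mu - ms)) := by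
    ring
  have hus : 0 ≤ u - s := by linarith
  have hLL : L ≤ L ^ 2 := by nlinarith
  rw [e1, norm_mul, norm_inv, Complex.norm_real, Real.norm_of_nonneg hc.le]
  calc c⁻¹ * ‖(gu - gs) * mu + gs * (mu - ms)‖
      ≤ c⁻¹ * (‖gu - gs‖ * ‖mu‖ + ‖gs‖ * ‖mu - ms‖) := by
        refine mul_le_mul_of_nonneg_left ?_ (by positivity)
        refine (norm_add_le _ _).trans (le_of_eq ?_)
        rw [norm_mul, norm_mul]
    _ ≤ c⁻¹ * ((G2 * (u - s)) * ((C * A * Real.exp E + C) * L ^ 2) +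
        |G| * ((C * A * Real.exp E + 4 * C) * L ^ 2 * (u - s))) := by
        refine mul_le_mul_of_nonneg_left ?_ (by positivity)
        refine add_le_add ?_ ?_
        · refine mul_le_mul h6 (hb.trans ?_) (norm_nonneg _) (by positivity)
          exact mul_le_mul_of_nonneg_left hLL (by positivity)
        · exact mul_le_mul h5 hd (norm_nonneg _) (abs_nonneg _)
    _ = T * L ^ 2 * (u - s) := by rw [hT]; ring
    _ ≤ (T + 2) * L ^ (T + 2) * (u - s) := by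
        refine mul_le_mul_of_nonneg_right ?_ hus
        refine mul_le_mul (by linarith) ?_ (by positivity) (by linarith)
        calc L ^ 2 = L ^ (2 : ℝ) := (Real.rpow_natCast L 2).symm.trans (by norm_num)
          _ ≤ _ := Real.rpow_le_rpow_of_exponent_le hL1 (by linarith)

end Pool.Agent.T3h73.SG.LUD
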