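import Pool.Agent.T3h73.SG.T_PLC

/-!
# Project SG, task PLE: the places of an intermediate field
-/

set_option autoImplicit false
set_option linter.all false
open NumberField IsDedekindDomain Filter Topology
open scoped Pointwise

namespace Pool.Agent.T3h73.SG.PLE

open Pool.Agent.T3h73.SL (Pl)
open Pool.Agent.T3h73.SG
open Pool.Agent.T3h73.SG.PLC

theorem ur_D {K M : Type} [Field K] [NumberField K] [Field M] [NumberField M] [Algebra K M]
    [IsGalois K M] (w : Pl M) (h : ur K w) (D : Subgroup (M ≃ₐ[K] M)) (hD : DG w D) :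
    Ideal.absNorm w.asIdeal = Ideal.absNorm (lo w : Pl K).asIdeal ^ Nat.card D ∧
    {w' : Pl M | (lo w' : Pl K) = lo w}.ncard * Nat.card D = Nat.card (M ≃ₐ[K] M) := by
  rw [DG_stab w D hD, ur_card w h]
  refine ⟨norm_eq w, ?_⟩
  have := card_formula (K := K) w
  rw [h, one_mul] at this
  exact this

section
variable {K E M : Type} [Field K] [NumberField K] [Field E] [NumberField E] [Field M]
  [NumberField M] [Algebra K E] [Algebra E M] [Algebra K M] [IsScalarTower K E M]

theorem lo_lo (w : Pl M) : (lo (lo w : Pl E) : Pl K) = lo w := by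
  apply pl_ext
  show (w.asIdeal.under (𝓞 E)).under (𝓞 K) = w.asIdeal.under (𝓞 K)
  exact Ideal.under_under w.asIdeal

theorem gp_res (g : M ≃ₐ[E] M) (w : Pl M) : gp g w = gp (g.restrictScalars K) w := by
  apply pl_ext
  ext x
  exact Iff.rfl

theorem ur_mid [IsGalois K M] (S : Finset (Pl K)) (hU : Unr K M S) (w : Pl M)
    (hw : (lo w : Pl K) ∉ S) : ur E w := by
  obtain ⟨x, hx⟩ := (lo w : Pl K).valuation_exists_uniformizer K
  have h1 := (hU w hw).1 x
  have h2 := HeightOneSpectrum.valuation_liesOver M (lo w : Pl E) w (algebraMap K E x)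
  have h3 := HeightOneSpectrum.valuation_liesOver E (lo (lo w : Pl E) : Pl K) (lo w : Pl E) x
  rw [← IsScalarTower.algebraMap_apply, h1, ← h3, ← pow_mul, lo_lo, hx] at h2
  rw [← WithZero.exp_nsmul, WithZero.exp_inj] at h2
  rw [ur]
  have h4 : ((lo w : Pl K).asIdeal.ramificationIdx' (lo w : Pl E).asIdeal *
    (lo w : Pl E).asIdeal.ramificationIdx' w.asIdeal) = 1 := by
    rw [nsmul_eq_mul] at h2
    have : (((lo w : Pl K).asIdeal.ramificationIdx' (lo w : Pl E).asIdeal *
      (lo w : Pl E).asIdeal.ramificationIdx' w.asIdeal : ℕ) : ℤ) = 1 := by linarith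
    exact_mod_cast this
  exact Nat.eq_one_of_mul_eq_one_left h4

theorem prod_eq (q : Pl E) (h : ∀ w : Pl M, (lo w : Pl E) = q → ur E w) :
    q.asIdeal.map (algebraMap (𝓞 E) (𝓞 M)) =
      ∏ᶠ w' ∈ {w' : Pl M | (lo w' : Pl E) = q}, w'.asIdeal := by
  haveI : q.asIdeal.IsMaximal := q.isMaximal
  rw [Ideal.map_algebraMap_eq_finsetProd_pow q.ne_bot]
  have h1 : ∏ᶠ w' ∈ {w' : Pl M | (lo w' : Pl E) = q}, w'.asIdeal =
      ∏ᶠ P ∈ q.asIdeal.primesOver (𝓞 M), P := by
    rw [← fiber_image q, finprod_mem_image asIdeal_inj.injOn]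
  rw [h1, finprod_mem_eq_toFinset_prod]
  apply Finset.prod_congr rfl
  intro P hP
  rw [Set.mem_toFinset, ← fiber_image q] at hP
  obtain ⟨w, hw, rfl⟩ := hP
  have h2 := h w hw
  rw [ur, Ideal.ramificationIdx'_eq_ramificationIdx _ _ (lo w : Pl E).ne_bot] at h2
  simp only
  rw [h2, pow_one]

end

theorem t_PLE (hPLC : S_PLC) : S_PLE := by
  intro K E M _ _ _ _ _ _ _ _ _ _ _ _ S hU w hw
  have hur : ∀ w' : Pl M, (lo w' : Pl E) = lo w → ur E w' := by
    intro w' h
    apply ur_mid (K := K) S hU w'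
    rw [← lo_lo (E := E), h, lo_lo]
    exact hw
  refine ⟨lo_lo w, fun g => gp_res g w, ?_, fun D hD => ur_D w (hur w rfl) D hD, prod_eq _ hur⟩
  intro w'
  constructor
  · intro h
    obtain ⟨g, hg⟩ := trans (K := E) w w' h.symm
    exact ⟨g, by rw [← gp_res]; exact hg⟩
  · rintro ⟨g, rfl⟩
    rw [← gp_res]
    exact lo_gp g w

end Pool.Agent.T3h73.SG.PLE
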