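import Mathlib

/-! Project SG, task PSB (helper66): infinite products and the final bound. -/

set_option autoImplicit false
set_option linter.all false

open Filter Topology

namespace Pool.Agent.T3h73.SG.PSB

/-- an upper bound for an infinite product -/
lemma prod_le {ι : Type*} {f : ι → ℝ} {g : ι → ℝ} {P G : ℝ} (hf0 : ∀ i, 0 ≤ f i)
    (hfg : ∀ i, f i ≤ Real.exp (g i)) (hP : HasProd f P) (hG : HasSum g G) : P ≤ Real.exp G := by
  have h1 : Tendsto (fun s : Finset ι => Real.exp (∑ i ∈ s, g i)) atTop (𝓝 (Real.exp G)) :=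
    (Real.continuous_exp.tendsto _).comp hG
  refine le_of_tendsto_of_tendsto' hP h1 fun s => ?_
  rw [Real.exp_sum]
  exact Finset.prod_le_prod (fun i _ => hf0 i) fun i _ => hfg i

lemma le_prod {ι : Type*} {f : ι → ℝ} {g : ι → ℝ} {P G : ℝ}
    (hfg : ∀ i, Real.exp (g i) ≤ f i) (hP : HasProd f P) (hG : HasSum g G) : Real.exp G ≤ P := by
  have h1 : Tendsto (fun s : Finset ι => Real.exp (∑ i ∈ s, g i)) atTop (𝓝 (Real.exp G)) :=
    (Real.continuous_exp.tendsto _).comp hG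
  refine le_of_tendsto_of_tendsto' h1 hP fun s => ?_
  rw [Real.exp_sum]
  exact Finset.prod_le_prod (fun i _ => (Real.exp_pos _).le) fun i _ => hfg i

lemma factor {w : ℂ} (hw : ‖w‖ ≤ 1 / 2) :
    Real.exp (w.re - ‖w‖ ^ 2) ≤ ‖(1 - w)⁻¹‖ ∧ ‖(1 - w)⁻¹‖ ≤ Real.exp (w.re + ‖w‖ ^ 2) := by
  have hw1 : ‖w‖ < 1 := by linarith
  have h1 := Complex.norm_log_one_sub_inv_sub_self_le hw1
  have hne : (1 - w) ≠ 0 := by
    intro h
    have : w = 1 := (sub_eq_zero.1 h).symm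
    rw [this, norm_one] at hw1
    exact lt_irrefl _ hw1
  have h2 : ‖(1 - w)⁻¹‖ = Real.exp (Complex.log (1 - w)⁻¹).re := by
    rw [← Complex.norm_exp, Complex.exp_log (inv_ne_zero hne)]
  have h3 : |(Complex.log (1 - w)⁻¹).re - w.re| ≤ ‖w‖ ^ 2 := by
    rw [← Complex.sub_re]
    refine (Complex.abs_re_le_norm _).trans (h1.trans ?_)
    have h4 : (1 - ‖w‖)⁻¹ ≤ 2 := by
      rw [inv_le_comm₀ (by linarith) two_pos]
      linarith
    have h5 : 0 ≤ ‖w‖ ^ 2 := sq_nonneg _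
    nlinarith
  rw [abs_le] at h3
  rw [h2]
  exact ⟨Real.exp_le_exp.2 (by linarith), Real.exp_le_exp.2 (by linarith)⟩

theorem two_sided {ι : Type*} (w : ι → ℂ) (hw : Summable fun i => ‖w i‖)
    (hw1 : ∀ i, ‖w i‖ ≤ 1 / 2) (L : ℂ) (hL : HasProd (fun i => (1 - w i)⁻¹) L) :
    0 < ‖L‖ ∧ |∑' i, (w i).re - Real.log ‖L‖| ≤ ∑' i, ‖w i‖ ^ 2 := by
  have hwsq : Summable fun i => ‖w i‖ ^ 2 := by
    refine hw.of_nonneg_of_le (fun i => sq_nonneg _) fun i => ?_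
    rw [sq]
    exact mul_le_of_le_one_right (norm_nonneg _) ((hw1 i).trans (by norm_num))
  have hwr : Summable fun i => (w i).re := hw.of_norm_bounded fun i => by
    rw [Real.norm_eq_abs]; exact Complex.abs_re_le_norm _
  have h1 : Real.exp (∑' i, (w i).re - ∑' i, ‖w i‖ ^ 2) ≤ ‖L‖ :=
    le_prod (fun i => (factor (hw1 i)).1) hL.norm (hwr.hasSum.sub hwsq.hasSum)
  have h2 : ‖L‖ ≤ Real.exp (∑' i, (w i).re + ∑' i, ‖w i‖ ^ 2) :=
    prod_le (fun i => norm_nonneg _) (fun i => (factor (hw1 i)).2) hL.norm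
      (hwr.hasSum.add hwsq.hasSum)
  have hpos : 0 < ‖L‖ := lt_of_lt_of_le (Real.exp_pos _) h1
  refine ⟨hpos, ?_⟩
  have h3 := (Real.le_log_iff_exp_le hpos).2 h1
  have h4 := (Real.log_le_iff_le_exp hpos).2 h2
  rw [abs_le]
  constructor <;> linarith

/-- the constants -/
noncomputable def A1 (C₂ Q : ℝ) : ℝ := Real.log C₂ + C₂ + Q
noncomputable def A2 (ℓ : ℕ) (C₂ C₃ Q : ℝ) : ℝ := C₃ / 2 + ℓ * A1 C₂ Q / 2 + Q
noncomputable def A3 (C₂ : ℝ) : ℝ := Real.log 2 + Real.log C₂ + C₂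
noncomputable def AA (ℓ : ℕ) (C₂ C₃ Q : ℝ) : ℝ :=
  2 * A2 ℓ C₂ C₃ Q + A3 C₂ + Real.log 2 + Q + A1 C₂ Q

theorem AA_pos (ℓ : ℕ) (C₂ C₃ Q : ℝ) (hC₂ : 1 ≤ C₂) (hC₃ : 0 ≤ C₃) (hQ : 0 ≤ Q) :
    0 < AA ℓ C₂ C₃ Q := by
  have h1 : 0 ≤ Real.log C₂ := Real.log_nonneg hC₂
  have h2 : 0 < Real.log 2 := Real.log_pos one_lt_two
  have h3 : 0 ≤ A1 C₂ Q := by unfold A1; linarith
  have h4 : 0 ≤ A2 ℓ C₂ C₃ Q := by
    unfold A2
    have : 0 ≤ (ℓ : ℝ) * A1 C₂ Q := mul_nonneg (Nat.cast_nonneg _) h3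
    linarith
  have h5 : 0 ≤ A3 C₂ := by unfold A3; linarith
  unfold AA
  linarith

theorem final (ℓ : ℕ) (hℓ : 3 ≤ ℓ) (L : ℕ → ℝ → ℂ) (P : ℕ → ℝ → ℝ) (y C₂ C₃ Q : ℝ) (hy : 1 ≤ y)
    (hC₂ : 1 ≤ C₂) (hC₃ : 0 ≤ C₃) (hQ : 0 ≤ Q)
    (h1 : ∀ j, 1 ≤ j → j < ℓ → ∀ s, 1 < s → s ≤ 2 →
      0 < ‖L j s‖ ∧ |P j s - Real.log ‖L j s‖| ≤ Q)
    (h2 : ∀ j, 1 ≤ j → j < ℓ → ∀ s, 1 < s → s ≤ 2 → ‖L j s‖ ≤ C₂ * y ^ C₂)
    (h3 : ∀ s t, 1 < s → s ≤ t → t ≤ 2 → ‖L 1 t - L 1 s‖ ≤ C₂ * y ^ C₂ * (t - s))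
    (h4 : ∀ s, P (ℓ - 1) s = P 1 s)
    (h5 : ∀ s, 1 < s → s ≤ 2 → -(Real.log (1 / (s - 1)) + C₃) ≤ ∑ j ∈ Finset.Ico 1 ℓ, P j s)
    (s : ℝ) (hs1 : 1 < s) (hs2 : s ≤ 2) :
    |P 1 s| ≤ AA ℓ C₂ C₃ Q * (1 + Real.log y) := by
  have hly : 0 ≤ Real.log y := Real.log_nonneg hy
  set Y : ℝ := 1 + Real.log y with hY
  have hY1 : 1 ≤ Y := by linarith
  have hlC : 0 ≤ Real.log C₂ := Real.log_nonneg hC₂
  have hl2 : 0 < Real.log 2 := Real.log_pos one_lt_two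
  have hyC : 1 ≤ y ^ C₂ := Real.one_le_rpow hy (by linarith)
  set R : ℝ := C₂ * y ^ C₂ with hR
  have hR1 : 1 ≤ R := by rw [hR]; nlinarith
  have hlR : Real.log R = Real.log C₂ + C₂ * Real.log y := by
    rw [hR, Real.log_mul (by linarith) (by linarith), Real.log_rpow (by linarith)]
  have hA1 : 0 ≤ A1 C₂ Q := by unfold A1; linarith
  have hA2 : 0 ≤ A2 ℓ C₂ C₃ Q := by
    unfold A2
    have : 0 ≤ (ℓ : ℝ) * A1 C₂ Q := mul_nonneg (Nat.cast_nonneg _) hA1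
    linarith
  have hA3 : 0 ≤ A3 C₂ := by unfold A3; linarith
  -- upper bounds
  have hU : ∀ j, 1 ≤ j → j < ℓ → ∀ s, 1 < s → s ≤ 2 → P j s ≤ A1 C₂ Q * Y := by
    intro j hj1 hj2 s hs1 hs2
    obtain ⟨k1, k2⟩ := h1 j hj1 hj2 s hs1 hs2
    have k3 := Real.log_le_log k1 (h2 j hj1 hj2 s hs1 hs2)
    rw [hlR] at k3
    rw [abs_le] at k2
    have k4 : Real.log C₂ + C₂ * Real.log y + Q ≤ A1 C₂ Q * Y := by
      rw [hY]
      unfold A1
      nlinarith [mul_nonneg hlC hly, mul_nonneg hQ hly]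
    linarith [k2.2]
  -- lower bound for the logarithm
  have hV : ∀ s, 1 < s → s ≤ 2 →
      Real.log (s - 1) / 2 - A2 ℓ C₂ C₃ Q * Y ≤ Real.log ‖L 1 s‖ := by
    intro s hs1 hs2
    have k1 := h5 s hs1 hs2
    have k2 : ∑ j ∈ Finset.Ico 1 ℓ, P j s = 2 * P 1 s + ∑ j ∈ Finset.Ico 2 (ℓ - 1), P j s := by
      obtain ⟨m, rfl⟩ : ∃ m, ℓ = m + 3 := ⟨ℓ - 3, by omega⟩
      rw [Finset.sum_eq_sum_Ico_succ_bot (by omega : 1 < m + 3)]
      have k3 : ∑ j ∈ Finset.Ico (1 + 1) (m + 3), P j s =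
          ∑ j ∈ Finset.Ico 2 (m + 2), P j s + P (m + 2) s :=
        Finset.sum_Ico_succ_top (by omega : 2 ≤ m + 2) _
      have k4 : P (m + 2) s = P 1 s := h4 s
      rw [k3, k4]
      have k5 : m + 3 - 1 = m + 2 := by omega
      rw [k5]
      ring
    have k3 : ∑ j ∈ Finset.Ico 2 (ℓ - 1), P j s ≤ ℓ * (A1 C₂ Q * Y) := by
      have k4 : ∑ j ∈ Finset.Ico 2 (ℓ - 1), P j s ≤
          ∑ j ∈ Finset.Ico 2 (ℓ - 1), A1 C₂ Q * Y := by
        refine Finset.sum_le_sum fun j hj => ?_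
        rw [Finset.mem_Ico] at hj
        exact hU j (by omega) (by omega) s hs1 hs2
      refine k4.trans ?_
      rw [Finset.sum_const, nsmul_eq_mul, Nat.card_Ico]
      apply mul_le_mul_of_nonneg_right _ (mul_nonneg hA1 (by linarith))
      exact_mod_cast (by omega : ℓ - 1 - 2 ≤ ℓ)
    have k4 := (h1 1 le_rfl (by omega) s hs1 hs2).2
    rw [abs_le] at k4
    have k5 : Real.log (1 / (s - 1)) = -Real.log (s - 1) := by
      rw [one_div, Real.log_inv]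
    rw [k2, k5] at k1
    have k6 : C₃ / 2 + ℓ * (A1 C₂ Q * Y) / 2 + Q ≤ A2 ℓ C₂ C₃ Q * Y := by
      have : A2 ℓ C₂ C₃ Q * Y = C₃ / 2 * Y + ℓ * (A1 C₂ Q * Y) / 2 + Q * Y := by
        unfold A2; ring
      rw [this]
      nlinarith
    linarith [k4.2]
  -- the point
  set r : ℝ := Real.exp (-(A2 ℓ C₂ C₃ Q * Y)) / (2 * R) with hr
  have hr0 : 0 < r := by rw [hr]; positivity
  have hexp1 : Real.exp (-(A2 ℓ C₂ C₃ Q * Y)) ≤ 1 := by
    rw [Real.exp_le_one_iff]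
    have : 0 ≤ A2 ℓ C₂ C₃ Q * Y := mul_nonneg hA2 (by linarith)
    linarith
  have hr1 : r ≤ 1 := by
    rw [hr, div_le_one (by linarith)]
    linarith
  have hlr : Real.log r = -(A2 ℓ C₂ C₃ Q * Y) - Real.log 2 - Real.log R := by
    rw [hr, Real.log_div (Real.exp_pos _).ne' (by positivity), Real.log_exp,
      Real.log_mul two_ne_zero (by linarith)]
    ring
  have hA3Y : Real.log 2 + Real.log R ≤ A3 C₂ * Y := by
    rw [hlR, hY]
    unfold A3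
    nlinarith [mul_nonneg hlC hly, mul_nonneg hl2.le hly]
  have hexpand : (2 * A2 ℓ C₂ C₃ Q + A3 C₂ + Real.log 2) * Y =
      2 * (A2 ℓ C₂ C₃ Q * Y) + A3 C₂ * Y + Real.log 2 * Y := by ring
  have hlow : -((2 * A2 ℓ C₂ C₃ Q + A3 C₂ + Real.log 2) * Y) ≤ Real.log ‖L 1 s‖ := by
    rw [hexpand]
    have hl2Y : Real.log 2 ≤ Real.log 2 * Y := by nlinarith
    have hl2Y0 : 0 ≤ Real.log 2 * Y := by nlinarith
    rcases le_or_gt (r ^ 2) (s - 1) with hc | hc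
    · have k1 := hV s hs1 hs2
      have k2 : Real.log (r ^ 2) ≤ Real.log (s - 1) := Real.log_le_log (by positivity) hc
      rw [Real.log_pow] at k2
      push_cast at k2
      linarith
    · have hr2 : r ^ 2 ≤ 1 := by nlinarith
      have k1 := hV (1 + r ^ 2) (by nlinarith [sq_pos_of_pos hr0]) (by linarith)
      have k2 := h3 s (1 + r ^ 2) hs1 (by linarith) (by linarith)
      have k3 : Real.log (1 + r ^ 2 - 1) / 2 = Real.log r := by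
        rw [add_sub_cancel_left, Real.log_pow]
        push_cast
        ring
      rw [k3] at k1
      have hposL : 0 < ‖L 1 (1 + r ^ 2)‖ :=
        (h1 1 le_rfl (by omega) _ (by nlinarith [sq_pos_of_pos hr0]) (by linarith)).1
      have k4 : r * Real.exp (-(A2 ℓ C₂ C₃ Q * Y)) ≤ ‖L 1 (1 + r ^ 2)‖ := by
        rw [← Real.log_le_log_iff (by positivity) hposL, Real.log_mul hr0.ne' (Real.exp_pos _).ne',
          Real.log_exp]
        linarith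
      have k5 : R * r ^ 2 = r * Real.exp (-(A2 ℓ C₂ C₃ Q * Y)) / 2 := by
        have : R * r = Real.exp (-(A2 ℓ C₂ C₃ Q * Y)) / 2 := by
          rw [hr]
          field_simp
        rw [sq, ← mul_assoc, this]
        ring
      have k6 : R * (1 + r ^ 2 - s) ≤ R * r ^ 2 := by
        apply mul_le_mul_of_nonneg_left _ (by linarith)
        linarith
      have k7 : ‖L 1 (1 + r ^ 2)‖ - ‖L 1 s‖ ≤ ‖L 1 (1 + r ^ 2) - L 1 s‖ := norm_sub_norm_le _ _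
      have k8 : r * Real.exp (-(A2 ℓ C₂ C₃ Q * Y)) / 2 ≤ ‖L 1 s‖ := by linarith
      have k9 := Real.log_le_log (by positivity) k8
      rw [Real.log_div (by positivity) two_ne_zero, Real.log_mul hr0.ne' (Real.exp_pos _).ne',
        Real.log_exp, hlr] at k9
      linarith
  have hk := (h1 1 le_rfl (by omega) s hs1 hs2).2
  rw [abs_le] at hk
  have hup := hU 1 le_rfl (by omega) s hs1 hs2
  have hQY : Q ≤ Q * Y := by nlinarith
  have hA1Y : 0 ≤ A1 C₂ Q * Y := mul_nonneg hA1 (by linarith)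
  have hA2Y : 0 ≤ A2 ℓ C₂ C₃ Q * Y := mul_nonneg hA2 (by linarith)
  have hA3Y' : 0 ≤ A3 C₂ * Y := mul_nonneg hA3 (by linarith)
  have hl2Y : 0 ≤ Real.log 2 * Y := mul_nonneg hl2.le (by linarith)
  have hQ0 : 0 ≤ Q * Y := mul_nonneg hQ (by linarith)
  have hAA : AA ℓ C₂ C₃ Q * Y = 2 * (A2 ℓ C₂ C₃ Q * Y) + A3 C₂ * Y + Real.log 2 * Y + Q * Y +
      A1 C₂ Q * Y := by
    unfold AA; ring
  rw [hAA, abs_le]
  rw [hexpand] at hlow
  constructor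
  · have := hk.1
    linarith
  · linarith

end Pool.Agent.T3h73.SG.PSB
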