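import Pool.Agent.T3h73.SG.StmY
import Pool.Agent.T3h73.SG.PSBa
import Pool.Agent.T3h73.SD.T_EUL
import Pool.Agent.T3h73.SD.Prs

/-! Project SG, task PSB (helper66): the sums over the primes of a ray class character. -/

set_option autoImplicit false
set_option linter.all false

open NumberField IsDedekindDomain Filter Topology

namespace Pool.Agent.T3h73.SG.PSB

open Pool.Agent.T3h73.SL (Pl)
open Pool.Agent.Y773.G (IsModChar)
open Pool.Agent.Y773 (LI)
open Pool.Agent.T3h73.SD.EUL (two_le_N ePl sum_N)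

section

variable {K : Type} [Field K] [NumberField K]

/-- the powers of a character -/
noncomputable def pw (η : Ideal (𝓞 K) →*₀ ℂ) (j : ℕ) : Ideal (𝓞 K) →*₀ ℂ :=
  if h : j ≠ 0 then (powMonoidWithZeroHom h).comp η else η

lemma pw_apply (η : Ideal (𝓞 K) →*₀ ℂ) {j : ℕ} (h : j ≠ 0) (𝔞 : Ideal (𝓞 K)) :
    pw η j 𝔞 = η 𝔞 ^ j := by
  unfold pw
  rw [dif_pos h]
  rfl

lemma pw_mod {𝔪 : Ideal (𝓞 K)} {η : Ideal (𝓞 K) →*₀ ℂ} (h : IsModChar 𝔪 (fun _ => 0) η) {j : ℕ}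
    (hj : j ≠ 0) : IsModChar 𝔪 (fun _ => 0) (pw η j) where
  ne_bot := h.ne_bot
  ne_top := h.ne_top
  sig_le := h.sig_le
  cpx := h.cpx
  supp 𝔞 := by
    rw [pw_apply η hj, ← h.supp 𝔞]
    exact (pow_eq_zero_iff hj).not
  sig x hx hxm := by
    rw [pw_apply η hj, h.sig x hx hxm]
    simp [Pool.Agent.Y773.G.sg]

end

lemma pow_ne {ℓ : ℕ} (hℓ : ℓ.Prime) {z : ℂ} (hz : z ^ ℓ = 1) (h1 : z ≠ 1) {j : ℕ} (hj : 1 ≤ j)
    (hjℓ : j < ℓ) : z ^ j ≠ 1 := by
  intro h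
  have h2 := orderOf_dvd_of_pow_eq_one hz
  have h3 := orderOf_dvd_of_pow_eq_one h
  rcases (Nat.dvd_prime hℓ).1 h2 with h4 | h4
  · exact h1 (orderOf_eq_one_iff.1 h4)
  · rw [h4] at h3
    exact absurd (Nat.le_of_dvd (by omega) h3) (by omega)

lemma sum_pow_ge {ℓ : ℕ} (hℓ : 3 ≤ ℓ) {z : ℂ} (hz : z = 0 ∨ z ^ ℓ = 1) :
    -1 ≤ ∑ j ∈ Finset.Ico 1 ℓ, (z ^ j).re := by
  rcases hz with rfl | hz
  · have : ∑ j ∈ Finset.Ico 1 ℓ, (((0 : ℂ) ^ j).re) = 0 := by
      refine Finset.sum_eq_zero fun j hj => ?_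
      rw [Finset.mem_Ico] at hj
      rw [zero_pow (by omega), Complex.zero_re]
    rw [this]
    norm_num
  · have h1 : ∑ j ∈ Finset.range ℓ, z ^ j = 1 + ∑ j ∈ Finset.Ico 1 ℓ, z ^ j := by
      rw [Finset.range_eq_Ico, Finset.sum_eq_sum_Ico_succ_bot (by omega : 0 < ℓ), pow_zero]
    rw [← Complex.re_sum]
    by_cases h2 : z = 1
    · rw [h2]
      simp only [one_pow, Finset.sum_const, Nat.card_Ico, nsmul_eq_mul, mul_one, Complex.natCast_re]
      have : (0 : ℝ) ≤ ((ℓ - 1 : ℕ) : ℝ) := Nat.cast_nonneg _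
      linarith
    · have h3 : ∑ j ∈ Finset.range ℓ, z ^ j = 0 := by
        rw [geom_sum_eq h2, hz, sub_self, zero_div]
      have h4 : ∑ j ∈ Finset.Ico 1 ℓ, z ^ j = -1 := by
        rw [h3] at h1
        linear_combination -h1
      rw [h4, Complex.neg_re, Complex.one_re]

theorem t_PSB (hLU : Pool.Agent.T3h73.SD.S_LU) (hLUD : S_LUD) : S_PSB := by
  intro ℓ hℓ hℓ2 K _ _
  have hℓ3 : 3 ≤ ℓ := by
    have := hℓ.two_le
    omega
  obtain ⟨C₀, hC₀, hLU⟩ := hLU K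
  obtain ⟨C₁, hC₁, hLUD⟩ := hLUD K
  obtain ⟨C₃, hC₃, hps⟩ := Pool.Agent.T3h73.SD.Prs.psum_le K
  set Q : ℝ := ∑' q : Pl K, (Ideal.absNorm q.asIdeal : ℝ) ^ (-(2 : ℝ)) with hQ
  have hQ0 : 0 ≤ Q := tsum_nonneg fun q => by positivity
  set C₂ : ℝ := max 1 (max C₀ C₁) with hC₂
  have hC21 : 1 ≤ C₂ := le_max_left _ _
  have hC20 : C₀ ≤ C₂ := (le_max_left _ _).trans (le_max_right _ _)
  have hC2' : C₁ ≤ C₂ := (le_max_right _ _).trans (le_max_right _ _)
  refine ⟨AA ℓ C₂ C₃ Q, AA_pos ℓ C₂ C₃ Q hC21 hC₃.le hQ0, ?_⟩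
  intro 𝔪 η hη hηℓ hηnt s hs1 hs2
  set y : ℝ := 1 + Real.log (Ideal.absNorm 𝔪) with hy
  have hy1 : 1 ≤ y := by
    have : 0 ≤ Real.log (Ideal.absNorm 𝔪) := Real.log_natCast_nonneg _
    linarith
  have hpow : ∀ C : ℝ, 0 < C → C ≤ C₂ → C * y ^ C ≤ C₂ * y ^ C₂ := by
    intro C hC hCC
    exact mul_le_mul hCC (Real.rpow_le_rpow_of_exponent_le hy1 hCC)
      (Real.rpow_nonneg (by linarith) _) (by linarith)
  have hz : ∀ 𝔞, η 𝔞 = 0 ∨ η 𝔞 ^ ℓ = 1 := by
    intro 𝔞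
    by_cases h0 : η 𝔞 = 0
    · exact Or.inl h0
    · exact Or.inr (hηℓ 𝔞 ((hη.supp 𝔞).1 h0))
  have hη1 : ∀ 𝔞, ‖η 𝔞‖ ≤ 1 := by
    intro 𝔞
    rcases hz 𝔞 with h0 | h0
    · rw [h0, norm_zero]; exact zero_le_one
    · exact (Complex.norm_eq_one_of_pow_eq_one h0 hℓ.ne_zero).le
  have hcpow : ∀ (s : ℝ) (q : Pl K), ((Ideal.absNorm q.asIdeal : ℕ) : ℂ) ^ (-(s : ℂ)) =
      (((Ideal.absNorm q.asIdeal : ℝ) ^ (-s) : ℝ) : ℂ) := by
    intro s q
    rw [Complex.ofReal_cpow (by positivity)]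
    push_cast
    rfl
  set P : ℕ → ℝ → ℝ := fun j s => ∑' q : Pl K, (pw η j q.asIdeal).re *
    (Ideal.absNorm q.asIdeal : ℝ) ^ (-s) with hP
  have hbd : ∀ (j : ℕ), 1 ≤ j → ∀ (s : ℝ), 1 < s → ∀ q : Pl K,
      ‖(pw η j q.asIdeal).re * (Ideal.absNorm q.asIdeal : ℝ) ^ (-s)‖ ≤
        (Ideal.absNorm q.asIdeal : ℝ) ^ (-s) := by
    intro j hj s hs q
    rw [norm_mul, Real.norm_of_nonneg (by positivity : 0 ≤ (Ideal.absNorm q.asIdeal : ℝ) ^ (-s)),
      Real.norm_eq_abs]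
    refine mul_le_of_le_one_left (by positivity) ?_
    refine (Complex.abs_re_le_norm _).trans ?_
    rw [pw_apply η (by omega), norm_pow]
    exact pow_le_one₀ (norm_nonneg _) (hη1 _)
  have hsum : ∀ (j : ℕ), 1 ≤ j → ∀ (s : ℝ), 1 < s → Summable fun q : Pl K =>
      (pw η j q.asIdeal).re * (Ideal.absNorm q.asIdeal : ℝ) ^ (-s) := fun j hj s hs =>
    (sum_N (K := K) hs).of_norm_bounded (hbd j hj s hs)
  have hmain := final ℓ hℓ3 (fun j s => LI (pw η j) (s : ℂ)) P y C₂ C₃ Q hy1 hC21 hC₃.le hQ0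
    (by
      intro j hj1 hj2 s hs1 hs2
      set w : Pl K → ℂ := fun q => pw η j q.asIdeal *
        ((Ideal.absNorm q.asIdeal : ℕ) : ℂ) ^ (-(s : ℂ)) with hw
      have hpj : ∀ 𝔞, ‖pw η j 𝔞‖ ≤ 1 := by
        intro 𝔞
        rw [pw_apply η (by omega), norm_pow]
        exact pow_le_one₀ (norm_nonneg _) (hη1 _)
      have hwle : ∀ q, ‖w q‖ ≤ (Ideal.absNorm q.asIdeal : ℝ) ^ (-s) := by
        intro q
        simp only [hw]
        rw [norm_mul, hcpow, Complex.norm_real, Real.norm_of_nonneg (by positivity)]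
        exact mul_le_of_le_one_left (by positivity) (hpj _)
      have hNs : ∀ q : Pl K, (Ideal.absNorm q.asIdeal : ℝ) ^ (-s) ≤
          1 / (Ideal.absNorm q.asIdeal : ℝ) := by
        intro q
        have h2 : (2 : ℝ) ≤ Ideal.absNorm q.asIdeal := by exact_mod_cast two_le_N q
        rw [one_div, ← Real.rpow_neg_one]
        exact Real.rpow_le_rpow_of_exponent_le (by linarith) (by linarith)
      have hws : Summable fun q => ‖w q‖ :=
        (sum_N (K := K) hs1).of_nonneg_of_le (fun q => norm_nonneg _) hwle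
      have hw1 : ∀ q, ‖w q‖ ≤ 1 / 2 := by
        intro q
        have h2 : (2 : ℝ) ≤ Ideal.absNorm q.asIdeal := by exact_mod_cast two_le_N q
        refine ((hwle q).trans (hNs q)).trans ?_
        exact one_div_le_one_div_of_le two_pos h2
      have hL : HasProd (fun q : Pl K => (1 - w q)⁻¹) (LI (pw η j) (s : ℂ)) := by
        have h1 := Pool.Agent.Y773.AB.hasProd_prime hpj (s := (s : ℂ)) (by simpa using hs1)
        rw [← (ePl K).hasProd_iff] at h1
        exact h1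
      obtain ⟨k1, k2⟩ := two_sided w hws hw1 _ hL
      refine ⟨k1, ?_⟩
      have k3 : ∑' q, (w q).re = P j s := by
        simp only [hP]
        refine tsum_congr fun q => ?_
        simp only [hw]
        rw [hcpow, Complex.re_mul_ofReal]
      rw [← k3]
      refine k2.trans ?_
      have hs2' : Summable fun q : Pl K => (Ideal.absNorm q.asIdeal : ℝ) ^ (-(2 : ℝ)) :=
        sum_N (K := K) (by norm_num)
      have h1 : ∀ q : Pl K, ‖w q‖ ^ 2 ≤ (Ideal.absNorm q.asIdeal : ℝ) ^ (-(2 : ℝ)) := by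
        intro q
        have h2 : (2 : ℝ) ≤ Ideal.absNorm q.asIdeal := by exact_mod_cast two_le_N q
        have h3 := (hwle q).trans (hNs q)
        have h4 : ‖w q‖ ^ 2 ≤ (1 / (Ideal.absNorm q.asIdeal : ℝ)) ^ 2 :=
          pow_le_pow_left₀ (norm_nonneg _) h3 2
        refine h4.trans (le_of_eq ?_)
        rw [Real.rpow_neg (by linarith), Real.rpow_two, one_div, inv_pow]
      exact Summable.tsum_le_tsum h1 (hs2'.of_nonneg_of_le (fun q => sq_nonneg _) h1) hs2')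
    (by
      intro j hj1 hj2 s hs1 hs2
      refine (hLU 𝔪 (pw η j) (pw_mod hη (by omega)) ?_ s hs1 hs2).trans (hpow C₀ hC₀ hC20)
      obtain ⟨𝔞, h𝔞, h𝔞1⟩ := hηnt
      refine ⟨𝔞, h𝔞, ?_⟩
      rw [pw_apply η (by omega)]
      exact pow_ne hℓ (hηℓ 𝔞 h𝔞) h𝔞1 hj1 hj2)
    (by
      intro s t hs hst ht
      refine (hLUD 𝔪 (pw η 1) (pw_mod hη one_ne_zero) ?_ s t hs hst ht).trans ?_
      · obtain ⟨𝔞, h𝔞, h𝔞1⟩ := hηnt
        refine ⟨𝔞, h𝔞, ?_⟩
        rw [pw_apply η one_ne_zero, pow_one]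
        exact h𝔞1
      · exact mul_le_mul_of_nonneg_right (hpow C₁ hC₁ hC2') (by linarith))
    (by
      intro s
      simp only [hP]
      refine tsum_congr fun q => ?_
      rw [pw_apply η (by omega), pw_apply η one_ne_zero, pow_one]
      congr 1
      rcases hz q.asIdeal with h0 | h0
      · rw [h0, zero_pow (by omega)]
      · have h1 : ‖η q.asIdeal‖ = 1 := Complex.norm_eq_one_of_pow_eq_one h0 hℓ.ne_zero
        have hne : η q.asIdeal ≠ 0 := by
          intro h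
          rw [h, norm_zero] at h1
          exact zero_ne_one h1
        have h2 : η q.asIdeal ^ (ℓ - 1) = (η q.asIdeal)⁻¹ := by
          apply mul_right_cancel₀ hne
          rw [← pow_succ, Nat.sub_add_cancel (by omega), h0, inv_mul_cancel₀ hne]
        rw [h2, Complex.inv_eq_conj h1, Complex.conj_re])
    (by
      intro s hs1 hs2
      have k1 := hps s hs1 hs2
      have k2 : ∑ j ∈ Finset.Ico 1 ℓ, P j s = ∑' q : Pl K, ∑ j ∈ Finset.Ico 1 ℓ,
          (pw η j q.asIdeal).re * (Ideal.absNorm q.asIdeal : ℝ) ^ (-s) := by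
        rw [Summable.tsum_finsetSum]
        intro j hj
        rw [Finset.mem_Ico] at hj
        exact hsum j hj.1 s hs1
      have k3 : -∑' q : Pl K, (Ideal.absNorm q.asIdeal : ℝ) ^ (-s) ≤
          ∑ j ∈ Finset.Ico 1 ℓ, P j s := by
        rw [k2, ← tsum_neg]
        refine Summable.tsum_le_tsum (fun q => ?_) (sum_N (K := K) hs1).neg
          (summable_sum fun j hj => ?_)
        · rw [← Finset.sum_mul]
          have h1 : ∑ j ∈ Finset.Ico 1 ℓ, (pw η j q.asIdeal).re =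
              ∑ j ∈ Finset.Ico 1 ℓ, (η q.asIdeal ^ j).re := by
            refine Finset.sum_congr rfl fun j hj => ?_
            rw [Finset.mem_Ico] at hj
            rw [pw_apply η (by omega)]
          rw [h1]
          have h2 := sum_pow_ge hℓ3 (hz q.asIdeal)
          have h3 : 0 ≤ (Ideal.absNorm q.asIdeal : ℝ) ^ (-s) := by positivity
          nlinarith
        · rw [Finset.mem_Ico] at hj
          exact hsum j hj.1 s hs1
      have k4 : ∑' q : Pl K, (Ideal.absNorm q.asIdeal : ℝ) ^ (-s) ≤ Real.log (1 / (s - 1)) + C₃ :=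
        k1
      linarith) s hs1 hs2
  have hfin : P 1 s = ∑' q : Pl K, (η q.asIdeal).re * (Ideal.absNorm q.asIdeal : ℝ) ^ (-s) := by
    simp only [hP]
    refine tsum_congr fun q => ?_
    rw [pw_apply η one_ne_zero, pow_one]
  rw [← hfin]
  exact hmain

end Pool.Agent.T3h73.SG.PSB
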