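import Pool.Agent.T3h73.SG.StmV
import Pool.Agent.T3h73.SN.T_DICW

/-!
# Project SG, task VDI (helper49): the dictionary between the model and the Selmer group

The proof follows `t_DICW` (helper3).
-/

set_option autoImplicit false
set_option linter.all false

open NumberField IsDedekindDomain Polynomial

namespace Pool.Agent.T3h73.SG.VDI

open Pool.Agent.T3h73.SL (Pl IsP Pk loc Sg val_loc)
open Pool.Agent.T3h73.SD (Sv)
open Pool.Agent.T3h73.SD.MDL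
open Pool.Agent.T3h73.SN (Sz tens inc Lcv tor δu gu)
open Pool.Agent.T3h73.SN.DICW
open Pool.Agent.Y713.SE Pool.Agent.Y713.SE.Dat

section
variable {K M : Type} [Field K] [NumberField K] [Field M] [NumberField M] [Algebra K M] [IsGalois K M]

lemma od_gp (hPLC : S_PLC) (γ : M ≃ₐ[K] M) (w : Pl M) (x : Mˣ) : od (gp γ w) (gU γ x) = od w x := by
  unfold od
  congr 1
  exact (hPLC K M).1 γ w (x : M)

lemma sum_up (hPLC : S_PLC) (γ : M ≃ₐ[K] M) (B : Finset (Pl K)) {A : Type} [AddCommMonoid A]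
    (f : Pl M → A) : ∑ q ∈ up B, f (gp γ q) = ∑ q ∈ up B, f q := by
  obtain ⟨-, h1, hmul, hlo, -, -, hup, -⟩ := hPLC K M
  refine Finset.sum_nbij' (fun q => gp γ q) (fun q => gp γ⁻¹ q) ?_ ?_ ?_ ?_ ?_
  · intro q hq
    rw [hup] at hq ⊢
    rw [hlo]
    exact hq
  · intro q hq
    rw [hup] at hq ⊢
    rw [hlo]
    exact hq
  · intro q _
    show gp γ⁻¹ (gp γ q) = q
    rw [← hmul, inv_mul_cancel, h1]
  · intro q _
    show gp γ (gp γ⁻¹ q) = q
    rw [← hmul, mul_inv_cancel, h1]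
  · intro q _
    rfl

end

theorem t_VDI (hPLC : S_PLC) : S_VDI := by
  classical
  intro ℓ n hfact hℓ2 hn2 K M _ _ _ _ _ _ pm S sv V _ _ _ av ψ cl η L0 L1 P u d1 C hav hst0 hst1 hPe
    δ a₀ ha1 ha2 D hD hsepK g hg LL H1 B₀ hB₀ hηS hBδ₀ hout₀ hcard
  obtain ⟨hval, h1, hmulg, hlo, -, -, hup, -⟩ := hPLC K M
  have hpr : ℓ.Prime := hfact.out
  have hpos : 0 < ℓ := hpr.pos
  have hodd : Odd ℓ := hpr.odd_of_ne_two hℓ2
  haveI : NeZero ℓ := ⟨hpr.ne_zero⟩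
  have hmul := C.ctx.mul
  obtain ⟨B, hBdef⟩ : ∃ B : Finset (Pl M), B = up B₀ := ⟨_, rfl⟩
  have hBm : ∀ w : Pl M, w ∈ B ↔ (lo w : Pl K) ∈ B₀ := fun w => by rw [hBdef]; exact hup B₀ w
  have hSm : ∀ w : Pl M, w ∉ up S ↔ (lo w : Pl K) ∉ S := fun w => not_congr (hup S w)
  have hsep : ∀ v : Pl M, v ∉ up S → D.Sep1 v := fun v hv => hsepK v ((hSm v).1 hv)
  have hBδ' : ∀ v ∈ B, Pw ℓ (v.valuation M (δ : M) * WithZero.exp (1 : ℤ)) := fun v hv =>
    hBδ₀ v ((hBm v).1 hv)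
  have hout' : ∀ v, v ∉ up S → v ∉ B → Pw ℓ (v.valuation M (δ : M)) := fun v hv hvB =>
    hout₀ v ((hSm v).1 hv) (fun h => hvB ((hBm v).2 h))
  have hBS : ∀ v ∈ B, v ∉ up S := fun v hv =>
    (hSm v).2 (Finset.disjoint_left.1 hB₀ ((hBm v).1 hv))
  have h2 : ∀ v ∈ B, (ℓ : ℤ) ∣ od v δ + 1 := by
    intro v hv
    have h := hBδ' v hv
    rw [val_od, ← WithZero.exp_add, pw_exp' hpos] at h
    exact h
  have h3 : ∀ v, v ∉ up S → v ∉ B → (ℓ : ℤ) ∣ od v δ := fun v hv hvB =>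
    (pw_od hpos v δ).1 (hout' v hv hvB)
  have hℓZ : Prime (ℓ : ℤ) := Nat.prime_iff_prime_int.1 hpr
  have hndB : ∀ v ∈ B, ¬ (ℓ : ℤ) ∣ od v δ := by
    intro v hv h
    have h4 : (ℓ : ℤ) ∣ 1 := (dvd_add_right h).1 (h2 v hv)
    exact hℓZ.not_dvd_one h4
  have hna : ¬ (ℓ : ℤ) ∣ (a₀ : ℤ) := by
    intro h
    have h4 : ℓ ∣ a₀ := by exact_mod_cast h
    exact absurd (Nat.le_of_dvd (by omega) h4) (by omega)
  have hδ : δu D = δ ^ a₀ := by
    apply Units.ext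
    rw [Units.val_pow_eq_pow_val, ← hD]
    rfl
  have hoD : ∀ v, od v (δu D) = a₀ * od v δ := by
    intro v
    rw [hδ, od_pow]
  have hpwD : ∀ v : Pl M, Pw ℓ (v.valuation M D.δ) ↔ (ℓ : ℤ) ∣ (a₀ : ℤ) * od v δ := by
    intro v
    have h : v.valuation M D.δ = v.valuation M (δu D : M) := rfl
    rw [h, pw_od hpos, hoD]
  have ha0 : (a₀ : ZMod ℓ) ≠ 0 := by
    intro h
    rw [ZMod.natCast_eq_zero_iff] at h
    exact absurd (Nat.le_of_dvd (by omega) h) (by omega)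
  obtain ⟨hs1, hs2⟩ := C.sum δ B hηS h2 h3
  have hδ'o : ∀ v, v ∉ up S → (ℓ : ℤ) ∣ od v (δ * (∏ q ∈ B, P q)⁻¹) := C.delta' δ B h2 h3
  intro x hxe hxP hxS hxoK hxiK
  -- outside `S` and `B`
  have hxo' : ∀ v, v ∉ up S → v ∉ B → ∀ i, (ℓ : ℤ) ∣ od v (x i) := by
    intro v hv hvB i
    rw [← pw_od hpos]
    exact hxoK v ((hSm v).1 hv) ((hpwD v).2 (Dvd.dvd.mul_left (h3 v hv hvB) _)) i
  have hxB : ∀ q, ∃ c : Fin n → ℤ, q ∈ B → (ℓ : ℤ) ∣ ∑ i, c i ∧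
      ∀ i, IsP ℓ (loc q (x i * (tor D c i)⁻¹)) := by
    intro q
    by_cases hq : q ∈ B
    · obtain ⟨c, hc⟩ := hxiK q ((hSm q).1 (hBS q hq)) (by
        rw [hpwD]
        intro h
        rcases hℓZ.dvd_or_dvd h with h | h
        · exact hna h
        · exact hndB q hq h)
      exact ⟨c, fun _ => hc⟩
    · exact ⟨fun _ => 0, fun h => absurd h hq⟩
  choose c hcB using hxB
  obtain ⟨w, hw⟩ : ∃ w : Fin n → Mˣ,
      w = fun i => x i * (∏ q ∈ B, P q ^ ((a₀ : ℤ) * c q i))⁻¹ := ⟨_, rfl⟩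
  have hxw : ∀ i, x i = w i * ∏ q ∈ B, P q ^ ((a₀ : ℤ) * c q i) := by
    intro i
    rw [hw]
    simp only
    rw [inv_mul_cancel_right]
  have hxBo : ∀ v, ∀ hv : v ∈ B, ∀ i, (ℓ : ℤ) ∣ od v (x i) + a₀ * c v i := by
    intro v hv i
    have h4 := dvd_of_isP hpos ((hcB v hv).2 i)
    rw [od_mul, od_inv, od_tor D (hsep v (hBS v hv)), hoD] at h4
    have h5 : od v (x i) + a₀ * c v i =
        (od v (x i) + -(c v i * (a₀ * od v δ))) + c v i * a₀ * (od v δ + 1) := by ring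
    rw [h5]
    exact dvd_add h4 (Dvd.dvd.mul_left (h2 v hv) _)
  have hwo : ∀ i, ∀ v, v ∉ up S → (ℓ : ℤ) ∣ od v (w i) := by
    intro i v hv
    rw [hw]
    simp only
    rw [od_mul, od_inv]
    by_cases hvB : v ∈ B
    · rw [C.od_mem B _ v hv hvB, neg_neg]
      exact hxBo v hvB i
    · rw [C.od_not B _ v hv hvB, neg_zero, add_zero]
      exact hxo' v hv hvB i
  have hclx : ∀ i, cl (x i) = cl (w i) +
      ∑ q ∈ B, ((a₀ : ZMod ℓ) * (c q i : ZMod ℓ)) • cl (P q) := by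
    intro i
    conv_lhs => rw [hxw i]
    rw [hmul, Pool.Agent.T3h73.SD.MDL.cl_prod hmul]
    congr 1
    refine Finset.sum_congr rfl fun q hq => ?_
    rw [cl_zpow (ℓ := ℓ) hmul, Int.cast_mul, Int.cast_natCast]
  have hcs : ∀ q ∈ B, ∑ i, ((a₀ : ZMod ℓ) * (c q i : ZMod ℓ)) = 0 := by
    intro q hq
    rw [← Finset.mul_sum, ← Int.cast_sum, (ZMod.intCast_zmod_eq_zero_iff_dvd _ ℓ).2 (hcB q hq).1,
      mul_zero]
  have hwsum : ∑ i, cl (w i) = 0 := by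
    have h4 : ∑ i, cl (x i) = 0 := by
      rw [← Pool.Agent.T3h73.SD.MDL.cl_prod hmul]
      obtain ⟨z, hz⟩ := hxP
      rw [hz, cl_pow_ell (ℓ := ℓ) hmul]
    simp only [hclx] at h4
    rw [Finset.sum_add_distrib, Finset.sum_comm, Finset.sum_eq_zero (s := B) fun q hq => by
      rw [← Finset.sum_smul, hcs q hq, zero_smul], add_zero] at h4
    exact h4
  -- equivariance
  have hclxe : ∀ (γ : M ≃ₐ[K] M) (i : Fin n), cl (x (pm γ i)) = av γ (cl (x i)) := by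
    intro γ i
    obtain ⟨z, hz⟩ := hxe γ i
    have h4 : gU γ (x i) = x (pm γ i) * z ^ ℓ := by
      apply Units.ext
      rw [Units.val_mul, Units.val_pow_eq_pow_val, ← hz]
      rfl
    rw [hav, h4, hmul, cl_pow_ell (ℓ := ℓ) hmul, add_zero]
  have hode : ∀ (γ : M ≃ₐ[K] M) (v : Pl M) (i : Fin n),
      (od (gp γ v) (x (pm γ i)) : ZMod ℓ) = (od v (x i) : ZMod ℓ) := by
    intro γ v i
    obtain ⟨z, hz⟩ := hxe γ i
    have h4 : gU γ (x i) = x (pm γ i) * z ^ ℓ := by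
      apply Units.ext
      rw [Units.val_mul, Units.val_pow_eq_pow_val, ← hz]
      rfl
    have h5 := od_gp hPLC γ v (x i)
    rw [h4, od_mul, od_pow] at h5
    rw [← h5, Int.cast_add, Int.cast_mul, Int.cast_natCast, ZMod.natCast_self, zero_mul, add_zero]
  have hBe : ∀ (γ : M ≃ₐ[K] M) (v : Pl M), gp γ v ∈ B ↔ v ∈ B := by
    intro γ v
    rw [hBm, hBm, hlo]
  have hce : ∀ (γ : M ≃ₐ[K] M) (v : Pl M), v ∈ B → ∀ i,
      (a₀ : ZMod ℓ) * (c (gp γ v) (pm γ i) : ZMod ℓ) = (a₀ : ZMod ℓ) * (c v i : ZMod ℓ) := by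
    intro γ v hv i
    have e1 := (ZMod.intCast_zmod_eq_zero_iff_dvd _ ℓ).2 (hxBo v hv i)
    have e2 := (ZMod.intCast_zmod_eq_zero_iff_dvd _ ℓ).2 (hxBo (gp γ v) ((hBe γ v).2 hv) (pm γ i))
    rw [Int.cast_add, Int.cast_mul, Int.cast_natCast] at e1 e2
    rw [hode] at e2
    linear_combination e2 - e1
  -- the element of the model
  let W : Sz ℓ n L0 := ⟨fun i => ⟨cl (w i), (C.z0 _).2 ⟨w i, hwo i, rfl⟩⟩, by
    show ∑ i, (⟨cl (w i), (C.z0 _).2 ⟨w i, hwo i, rfl⟩⟩ : L0) = 0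
    apply Subtype.ext
    rw [Submodule.coe_sum]
    exact hwsum⟩
  have hW : ∀ i, (((W : Fin n → L0) i : L0) : V) = cl (w i) := fun i => rfl
  let cb : Pl M → Sz ℓ n (ZMod ℓ) := fun q =>
    if h : q ∈ B then ⟨fun i => (a₀ : ZMod ℓ) * (c q i : ZMod ℓ), hcs q h⟩ else 0
  have hcb : ∀ q, q ∈ B → ∀ i, (cb q : Fin n → ZMod ℓ) i = (a₀ : ZMod ℓ) * (c q i : ZMod ℓ) := by
    intro q hq i
    show ((if h : q ∈ B then ⟨fun i => (a₀ : ZMod ℓ) * (c q i : ZMod ℓ), hcs q h⟩ else 0 :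
      Sz ℓ n (ZMod ℓ)) : Fin n → ZMod ℓ) i = _
    rw [dif_pos hq]
  have hcb0 : ∀ q, q ∉ B → cb q = 0 := fun q hq => dif_neg hq
  have hinvW : ∀ (γ : M ≃ₐ[K] M) (i : Fin n), cl (w (pm γ i)) = av γ (cl (w i)) := by
    intro γ i
    have e1 := hclx (pm γ i)
    have e2 := congrArg (av γ) (hclx i)
    rw [← hclxe, e1, map_add, map_sum] at e2
    have e3 : ∑ q ∈ B, ((a₀ : ZMod ℓ) * (c q (pm γ i) : ZMod ℓ)) • cl (P q) =
        ∑ q ∈ B, av γ (((a₀ : ZMod ℓ) * (c q i : ZMod ℓ)) • cl (P q)) := by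
      rw [hBdef, ← sum_up hPLC γ B₀, ← hBdef]
      refine Finset.sum_congr rfl fun q hq => ?_
      rw [map_smul, ← hPe γ q ((hSm q).1 (hBS q hq)), hce γ q hq]
    rw [e3] at e2
    exact add_right_cancel e2
  have hmem : (W, cb) ∈ MSelG pm av ψ L0 LL u g (fun q => cl (P q)) (fun p q => sv q (P p) (P q)) B₀ := by
    refine ⟨fun γ i => ?_, fun γ v i => ?_, fun v hv => ?_, ?_, fun q hq i => ?_⟩
    · show cl (w (pm γ i)) = av γ (cl (w i))
      exact hinvW γ i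
    · show (cb (gp γ v) : Fin n → ZMod ℓ) (pm γ i) = (cb v : Fin n → ZMod ℓ) i
      by_cases hv : v ∈ B
      · rw [hcb v hv, hcb _ ((hBe γ v).2 hv), hce γ v hv]
      · rw [hcb0 v hv, hcb0 _ (fun h => hv ((hBe γ v).1 h))]
        rfl
    · exact hcb0 v (fun h => hv ((hBm v).1 h))
    · have e4 : ∀ i, ((inc W + ∑ q ∈ up B₀, tens (cb q) (cl (P q)) : Sz ℓ n V) : Fin n → V) i =
          cl (x i) := by
        intro i
        rw [Submodule.coe_add, Pi.add_apply, sz_sum, hclx, ← hBdef]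
        congr 1
        refine Finset.sum_congr rfl fun q hq => ?_
        show (cb q : Fin n → ZMod ℓ) i • cl (P q) = _
        rw [hcb q hq]
      refine H1 x hxS _ e4 ?_
      intro γ i
      rw [e4, e4]
      exact hclxe γ i
    · rw [← hBdef] at hq
      show - ψ (cl (w i)) (cl (P q)) + (cb q : Fin n → ZMod ℓ) i * ψ (u : V) (cl (P q)) +
        ∑ j, ((cb q : Fin n → ZMod ℓ) i - (cb q : Fin n → ZMod ℓ) j) * ψ (g i j : V) (cl (P q)) +
        ∑ p ∈ (up B₀).erase q, ((cb p : Fin n → ZMod ℓ) i - (cb q : Fin n → ZMod ℓ) i) *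
          sv q (P p) (P q) = 0
      rw [← hBdef, Finset.sum_erase B (by rw [sub_self, zero_mul])]
      have h4 := eqn C D hδ hsep g hg B hs2 hδ'o q (hBS q hq) (x i) (w i)
        (fun p => (a₀ : ℤ) * c p i) (hxw i) (hwo i) (c q) i ((hcB q hq).2 i)
      rw [← h4]
      congr 1
      · congr 1
        · rw [hcb q hq]
        · refine Finset.sum_congr rfl fun j _ => ?_
          rw [hcb q hq, hcb q hq]
      · refine Finset.sum_congr rfl fun p hp => ?_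
        rw [hcb q hq, hcb p hp, Int.cast_mul, Int.cast_natCast]
  have hzero : (0 : Sz ℓ n L0 × (Pl M → Sz ℓ n (ZMod ℓ))) ∈
      MSelG pm av ψ L0 LL u g (fun q => cl (P q)) (fun p q => sv q (P p) (P q)) B₀ := by
    refine ⟨fun γ i => ?_, fun γ v i => rfl, fun v hv => rfl, ?_, fun q hq i => ?_⟩
    · show ((0 : L0) : V) = av γ ((0 : L0) : V)
      rw [Submodule.coe_zero, map_zero]
    · have e5 : (inc (0 : Sz ℓ n L0) + ∑ q ∈ up B₀, tens (0 : Sz ℓ n (ZMod ℓ)) (cl (P q)) :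
          Sz ℓ n V) = 0 := by
        apply Subtype.ext
        funext i
        rw [Submodule.coe_add, Pi.add_apply, sz_sum]
        have e6 : ∀ q ∈ up B₀, ((tens (0 : Sz ℓ n (ZMod ℓ)) (cl (P q)) : Sz ℓ n V) : Fin n → V) i = 0 :=
          fun q _ => zero_smul _ _
        rw [Finset.sum_eq_zero e6, add_zero]
        rfl
      exact e5 ▸ LL.zero_mem
    · show - ψ ((0 : L0) : V) (cl (P q)) + (0 : ZMod ℓ) * ψ (u : V) (cl (P q)) +
        ∑ j : Fin n, ((0 : ZMod ℓ) - 0) * ψ (g i j : V) (cl (P q)) +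
        ∑ p ∈ (up B₀).erase q, ((0 : ZMod ℓ) - 0) * sv q (P p) (P q) = 0
      simp
  have hsub := (Nat.card_eq_one_iff_unique.1 hcard).1
  have heq := hsub.elim ⟨_, hmem⟩ ⟨_, hzero⟩
  have heq' : (W, cb) = (0 : Sz ℓ n L0 × (Pl M → Sz ℓ n (ZMod ℓ))) := congrArg Subtype.val heq
  have hW0 : W = 0 := congrArg Prod.fst heq'
  have hcb00 : cb = 0 := congrArg Prod.snd heq'
  have hclw : ∀ i, cl (w i) = 0 := by
    intro i
    rw [← hW i, hW0]
    rfl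
  have hca : ∀ q ∈ B, ∀ i, (a₀ : ZMod ℓ) * (c q i : ZMod ℓ) = 0 := by
    intro q hq i
    rw [← hcb q hq i, hcb00]
    rfl
  intro i
  refine C.ctx.inj _ ?_ fun v hv => ?_
  · rw [← C.ctx.ker, hclx, hclw, zero_add]
    exact Finset.sum_eq_zero fun q hq => by rw [hca q hq, zero_smul]
  · rw [pw_od hpos]
    by_cases hvB : v ∈ B
    · have h4 := (ZMod.intCast_zmod_eq_zero_iff_dvd _ ℓ).2 (hxBo v hvB i)
      rw [Int.cast_add, Int.cast_mul, Int.cast_natCast, hca v hvB, add_zero] at h4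
      exact (ZMod.intCast_zmod_eq_zero_iff_dvd _ ℓ).1 h4
    · exact hxo' v hv hvB i

end Pool.Agent.T3h73.SG.VDI
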