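import Pool.Agent.T3h73.SG.StmV

/-!
# Project SG, task VEQ (helper7): an equivariant system of symbols
-/

set_option autoImplicit false
set_option linter.all false

open NumberField IsDedekindDomain Polynomial Filter

namespace Pool.Agent.T3h73.SG.VEQ

open Pool.Agent.T3h73.SL (Pl IsP Pk loc Sg val_loc)
open Pool.Agent.T3h73.SD (Sv LN VT S_SV)
open Pool.Agent.T3h73.SD.MDL
open Pool.Agent.Y713.SE (Pw)

theorem exists_unif' {K : Type} [Field K] [NumberField K] (v : Pl K) :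
    ∃ π : Kˣ, v.valuation K (π : K) = WithZero.exp (-1 : ℤ) := by
  obtain ⟨π, hπ⟩ := v.valuation_exists_uniformizer K
  have h0 : π ≠ 0 := by
    rintro rfl
    rw [map_zero] at hπ
    exact WithZero.exp_ne_zero hπ.symm
  exact ⟨Units.mk0 π h0, hπ⟩

theorem not_isP' {K : Type} [Field K] [NumberField K] {ℓ : ℕ} (hℓ : ℓ.Prime) {v : Pl K} {π : Kˣ}
    (hπ : v.valuation K (π : K) = WithZero.exp (-1 : ℤ)) : ¬ IsP ℓ (loc v π) := by
  intro hx
  have h2 := dvd_of_isP hℓ.pos hx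
  rw [od_eq hπ, dvd_neg] at h2
  have h3 : ℓ ∣ 1 := by exact_mod_cast h2
  exact hℓ.one_lt.ne' (Nat.dvd_one.1 h3)

theorem ex_ne {K : Type} [Field K] [NumberField K] {ℓ : ℕ} {sv : Pl K → Kˣ → Kˣ → ZMod ℓ}
    (H : Sv ℓ K sv) {v : Pl K} {x : Kˣ} (hx : ¬ IsP ℓ (loc v x)) : ∃ y, sv v x y ≠ 0 := by
  by_contra hcon
  push Not at hcon
  exact hx (H.nd v x hcon)

section
variable {K M : Type} [Field K] [Field M] [Algebra K M]

theorem gU_mul (γ γ' : M ≃ₐ[K] M) (x : Mˣ) : gU (γ * γ') x = gU γ (gU γ' x) := Units.ext rfl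

theorem gU_one (x : Mˣ) : gU (1 : M ≃ₐ[K] M) x = x := Units.ext rfl

theorem gU_kU (γ : M ≃ₐ[K] M) (x : Kˣ) : gU γ (kU x : Mˣ) = kU x := Units.ext (γ.commutes x)

end

theorem t_VEQ (hPLC : S_PLC) (hSV : S_SV) (hVTR : S_VTR) (hVUN : S_VUN) (hVGN : S_VGN)
    (hVNP : S_VNP) : S_VEQ := by
  intro ℓ hℓ hℓ2 K M _ _ _ _ _ _ ζ hζ hG
  classical
  haveI := Fact.mk hℓ
  have hζM : IsPrimitiveRoot (algebraMap K M ζ) ℓ :=
    hζ.map_of_injective (algebraMap K M).injective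
  obtain ⟨sv, H⟩ := hSV ℓ hℓ hℓ2 M _ hζM
  obtain ⟨svK, HK⟩ := hSV ℓ hℓ hℓ2 K _ hζ
  obtain ⟨-, q2, q3, -, q5, -, -, -, ⟨S₀, hS₀⟩, -⟩ := hPLC K M
  have htr : ∀ γ : M ≃ₐ[K] M, ∃ c : ZMod ℓ, ∀ w x y,
      sv (gp γ w) (gU γ x) (gU γ y) = c * sv w x y := by
    intro γ
    obtain ⟨c, hc0, hc⟩ := hVUN ℓ hℓ hℓ2 M _ hζM sv _ H ((hVTR ℓ hℓ K M γ).2.2 sv H)
    exact ⟨c, hc⟩
  choose c hc using htr
  refine ⟨sv, H, ?_⟩
  by_cases hne : Nonempty (Pl M)
  swap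
  · intro γ w
    exact absurd ⟨w⟩ hne
  obtain ⟨w₀⟩ := hne
  obtain ⟨π, hπ⟩ := exists_unif' w₀
  obtain ⟨π', hπ'⟩ := ex_ne H (not_isP' hℓ hπ)
  have hcm : ∀ γ γ' : M ≃ₐ[K] M, c (γ * γ') = c γ * c γ' := by
    intro γ γ'
    have h1 := hc (γ * γ') w₀ π π'
    rw [q3, gU_mul, gU_mul, hc, hc, ← mul_assoc] at h1
    exact (mul_right_cancel₀ hπ' h1).symm
  have hc1 : c 1 = 1 := by
    have h1 := hc 1 w₀ π π'
    rw [q2, gU_one, gU_one] at h1
    exact (mul_right_cancel₀ hπ' ((one_mul _).trans h1)).symm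
  let ch : (M ≃ₐ[K] M) →* ZMod ℓ := ⟨⟨c, hc1⟩, hcm⟩
  -- the places above `ℓ`
  have hfin : {v : Pl K | v.valuation K (ℓ : K) ≠ 1}.Finite := by
    have hl0 : (ℓ : K) ≠ 0 := Nat.cast_ne_zero.2 hℓ.ne_zero
    refine (fin_od (Units.mk0 (ℓ : K) hl0)).subset fun v hv h => hv ?_
    exact (val_one_iff v (Units.mk0 (ℓ : K) hl0)).2 h
  have hN := hVGN K M (S₀ ∪ hfin.toFinset) ch.ker (by
    intro w hw γ hγ
    rw [Finset.mem_union, not_or, Set.Finite.mem_toFinset] at hw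
    have hval := (hS₀ w hw.1).1
    have hl : (lo w : Pl K).valuation K (ℓ : K) = 1 := not_not.1 hw.2
    have hlM : w.valuation M (ℓ : M) = 1 := by
      rw [← map_natCast (algebraMap K M) ℓ, hval, hl]
    obtain ⟨y, hy⟩ := exists_unif' (lo w : Pl K)
    obtain ⟨x', hx'⟩ := ex_ne HK (not_isP' hℓ hy)
    set v : Pl K := lo w with hv
    set x : Kˣ := x' * y ^ (od v x') with hxdef
    have hx1 : od v x = 0 := by
      rw [hxdef, od_mul, od_zpow, od_eq hy]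
      ring
    have hx2 : svK v y x ≠ 0 := by
      rw [hxdef, HK.mul_right, sr_zpow HK, HK.alt, mul_zero, add_zero]
      exact hx'
    have hx3 : ¬ IsP ℓ (loc v x) := fun h => hx2 (HK.pow_right v y x h)
    have hx4 : ¬ IsP ℓ (loc w (kU x : Mˣ)) := by
      intro h
      apply hx3
      apply (hVNP ℓ hℓ K M).2.2.1 hG v x
      intro w' hw'
      obtain ⟨g, rfl⟩ := q5 w w' hw'.symm
      have h5 := ((hVTR ℓ hℓ K M g).1 w (kU x)).2 h
      rwa [gU_kU] at h5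
    obtain ⟨z, hz⟩ := ex_ne H hx4
    have hyM : od w (kU y : Mˣ) = -1 := od_eq ((hval y).trans hy)
    have hxM : od w (kU x : Mˣ) = 0 := by
      apply od_eq
      rw [WithZero.exp_zero]
      exact (hval x).trans ((val_one_iff v x).2 hx1)
    have hzz : od w (z * (kU y) ^ (od w z)) = 0 := by
      rw [od_mul, od_zpow, hyM]
      ring
    have h6 := H.unr w hlM (kU x) (z * (kU y) ^ (od w z))
      ((pw_od hℓ.pos w _).2 (by rw [hxM]; exact dvd_zero _))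
      ((pw_od hℓ.pos w _).2 (by rw [hzz]; exact dvd_zero _))
    rw [H.mul_right, sr_zpow H] at h6
    have h7 : sv w (kU x) (kU y) ≠ 0 := by
      intro h8
      rw [h8, mul_zero, add_zero] at h6
      exact hz h6
    have h9 := hc γ w (kU x) (kU y)
    rw [hγ, gU_kU, gU_kU] at h9
    rw [MonoidHom.mem_ker]
    exact (mul_right_cancel₀ h7 ((one_mul _).trans h9)).symm)
  intro γ w x y
  have h : c γ = 1 := by
    have h1 : γ ∈ ch.ker := by
      rw [hN]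
      exact Subgroup.mem_top γ
    exact h1
  rw [hc, h, one_mul]

end Pool.Agent.T3h73.SG.VEQ
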