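import Pool.Agent.T3h73.SG.YDNa

/-! Project SG, task YDN (helper47): the density of the places with given decomposition group. -/

set_option autoImplicit false
set_option linter.all false

open NumberField IsDedekindDomain Filter Topology

namespace Pool.Agent.T3h73.SG.YDN

open Pool.Agent.T3h73.SL (Pl)
open Pool.Agent.H921R2.TatePole
open Pool.Agent.T3h73.SD.MASS (one_le_nm)
open Pool.Agent.T3h73.SG.XMAS (fib_sum)
open Finset (univ)

/-- the sum over the places of a number field -/
theorem psum_two (E : Type) [Field E] [NumberField E] : ∃ C : ℝ, 0 ≤ C ∧ ∀ s : ℝ, 1 < s → s ≤ 2 →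
    |∑' q : Pl E, (nm q : ℝ) ^ (-s) - Real.log (1 / (s - 1))| ≤ C := by
  obtain ⟨C₁, hC₁, h1⟩ := SD.Prs.psum_le E
  obtain ⟨C₂, s₀, hC₂, hs₀, h2⟩ := SD.Prs.psum_ge E
  refine ⟨C₁ + C₂ + |Real.log (1 / (s₀ - 1))|, by positivity, fun s hs hs2 => ?_⟩
  have h3 := h1 s hs hs2
  have h4 := abs_nonneg (Real.log (1 / (s₀ - 1)))
  rw [abs_le]
  constructor
  · rcases lt_or_ge s s₀ with h | h
    · have := h2 s hs h
      linarith
    · have h5 : 0 ≤ ∑' q : Pl E, (nm q : ℝ) ^ (-s) := tsum_nonneg fun q => by positivity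
      have h6 : Real.log (1 / (s - 1)) ≤ Real.log (1 / (s₀ - 1)) := by
        apply Real.log_le_log
        · have : 0 < s - 1 := by linarith
          positivity
        · exact one_div_le_one_div_of_le (by linarith) (by linarith)
      have h7 := le_abs_self (Real.log (1 / (s₀ - 1)))
      linarith
  · linarith

section
variable {K M : Type} [Field K] [NumberField K] [Field M] [NumberField M] [Algebra K M]

open Classical in
/-- the sum over the places with decomposition group `D` -/
noncomputable def TD (S : Finset (Pl K)) (D : Subgroup (M ≃ₐ[K] M)) (s : ℝ) : ℝ :=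
  ∑' w : Pl M, if DG w D ∧ (lo w : Pl K) ∉ S then (nm (lo w : Pl K) : ℝ) ^ (-s) else 0

theorem DG_unique {w : Pl M} {D D' : Subgroup (M ≃ₐ[K] M)} (h : DG w D) (h' : DG w D') : D = D' := by
  ext g
  rw [h g, h' g]

open Classical in
theorem step (hPLC : S_PLC) (hPLE : S_PLE) [IsGalois K M] [Fintype (Subgroup (M ≃ₐ[K] M))]
    {S : Finset (Pl K)} (hU : Unr K M S) (D : Subgroup (M ≃ₐ[K] M)) :
    ∃ C : ℝ, 0 ≤ C ∧ ∀ s : ℝ, 1 < s → s ≤ 2 →
    |∑' q : Pl (IntermediateField.fixedField D), (nm q : ℝ) ^ (-s) -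
      ∑ D' ∈ univ.filter (fun D' : Subgroup (M ≃ₐ[K] M) => D' ≤ D),
        ((Nat.card D' : ℝ) / Nat.card D) * TD S D' s| ≤ C := by
  obtain ⟨-, p2, p3, -, -, p6, p7, p8, -, -⟩ := hPLC K M
  obtain ⟨-, -, -, -, -, r6, -, -, -, -⟩ := hPLC (IntermediateField.fixedField D) M
  obtain ⟨g, hg⟩ := p8
  have hfinM : Finite (M ≃ₐ[K] M) := inferInstance
  have hD0 : (0 : ℝ) < Nat.card D := by
    have : 0 < Nat.card D := Nat.card_pos
    exact_mod_cast this
  have hup : ∀ w : Pl M, w ∈ up S ↔ (lo w : Pl K) ∈ S := p7 S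
  refine ⟨∑' w : Pl M, (nm (lo w : Pl K) : ℝ) ^ (-(2 : ℝ)) + (up S : Finset (Pl M)).card, ?_, ?_⟩
  · have : 0 ≤ ∑' w : Pl M, (nm (lo w : Pl K) : ℝ) ^ (-(2 : ℝ)) := tsum_nonneg fun w => by positivity
    positivity
  intro s hs hs2
  have hs2sum := (fib_sum (lo : Pl M → Pl K) hg (by norm_num : (1 : ℝ) < 2)).1
  have hssum := (fib_sum (lo : Pl M → Pl K) hg hs).1
  obtain ⟨ha, hae⟩ := fib_tsum (lo : Pl M → Pl (IntermediateField.fixedField D)) (fun q => (r6 q).1)
    (fun q => (r6 q).2) (fun q => (nm q : ℝ) ^ (-s)) (fun q => by positivity) (nm_summable hs)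
  rw [← hae]
  -- the terms of the right-hand side
  set T : Finset (Subgroup (M ≃ₐ[K] M)) :=
    univ.filter (fun D' : Subgroup (M ≃ₐ[K] M) => D' ≤ D) with hT
  let t : Subgroup (M ≃ₐ[K] M) → Pl M → ℝ := fun D' w =>
    ((Nat.card D' : ℝ) / Nat.card D) *
      (if DG w D' ∧ (lo w : Pl K) ∉ S then (nm (lo w : Pl K) : ℝ) ^ (-s) else 0)
  have hts : ∀ D', Summable (t D') := by
    intro D'
    refine Summable.mul_left _ ?_
    refine Summable.of_nonneg_of_le (fun w => ?_) (fun w => ?_) hssum
    · split_ifs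
      · positivity
      · exact le_rfl
    · split_ifs
      · exact le_rfl
      · positivity
  have ht : ∑ D' ∈ T, ((Nat.card D' : ℝ) / Nat.card D) * TD S D' s = ∑' w, ∑ D' ∈ T, t D' w := by
    rw [Summable.tsum_finsetSum fun D' _ => hts D']
    refine Finset.sum_congr rfl fun D' _ => ?_
    simp only [t]
    rw [tsum_mul_left]
    rfl
  have htsum : Summable fun w => ∑ D' ∈ T, t D' w := summable_sum fun D' _ => hts D'
  rw [ht, ← Summable.tsum_sub ha htsum]
  -- the pointwise bound
  have hupsum : Summable fun w : Pl M => if (lo w : Pl K) ∈ S then (1 : ℝ) else 0 :=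
    summable_of_ne_finset_zero (s := up S) fun w hw => by
      rw [if_neg]
      exact fun h => hw ((hup w).2 h)
  have huptsum : ∑' w : Pl M, (if (lo w : Pl K) ∈ S then (1 : ℝ) else 0) =
      (up S : Finset (Pl M)).card := by
    rw [tsum_eq_sum (s := up S) fun w hw => by
      rw [if_neg]
      exact fun h => hw ((hup w).2 h)]
    rw [Finset.sum_congr rfl fun w hw => if_pos ((hup w).1 hw), Finset.sum_const, nsmul_eq_mul, mul_one]
  have hpt : ∀ w : Pl M, 0 ≤ (nm (lo w : Pl (IntermediateField.fixedField D)) : ℝ) ^ (-s) /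
      ({w' : Pl M | (lo w' : Pl (IntermediateField.fixedField D)) = lo w}.ncard : ℝ) -
        ∑ D' ∈ T, t D' w ∧
      (nm (lo w : Pl (IntermediateField.fixedField D)) : ℝ) ^ (-s) /
      ({w' : Pl M | (lo w' : Pl (IntermediateField.fixedField D)) = lo w}.ncard : ℝ) -
        ∑ D' ∈ T, t D' w ≤ (nm (lo w : Pl K) : ℝ) ^ (-(2 : ℝ)) +
          (if (lo w : Pl K) ∈ S then (1 : ℝ) else 0) := by
    intro w
    have hn1 : 1 ≤ {w' : Pl M | (lo w' : Pl (IntermediateField.fixedField D)) = lo w}.ncard :=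
      (Set.ncard_pos (r6 (lo w)).1).2 ⟨w, rfl⟩
    have hn1' : (1 : ℝ) ≤ {w' : Pl M | (lo w' : Pl (IntermediateField.fixedField D)) = lo w}.ncard := by
      exact_mod_cast hn1
    have hE1 := one_le_nm (lo w : Pl (IntermediateField.fixedField D))
    have hK1 := one_le_nm (lo w : Pl K)
    have hdiv : (nm (lo w : Pl (IntermediateField.fixedField D)) : ℝ) ^ (-s) /
        ({w' : Pl M | (lo w' : Pl (IntermediateField.fixedField D)) = lo w}.ncard : ℝ) ≤
        (nm (lo w : Pl (IntermediateField.fixedField D)) : ℝ) ^ (-s) :=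
      div_le_self (by positivity) hn1'
    by_cases hw : (lo w : Pl K) ∈ S
    · have h0 : ∑ D' ∈ T, t D' w = 0 := by
        refine Finset.sum_eq_zero fun D' _ => ?_
        simp only [t]
        rw [if_neg fun h => h.2 hw, mul_zero]
      rw [h0, sub_zero, if_pos hw]
      refine ⟨by positivity, ?_⟩
      have h1 : (nm (lo w : Pl (IntermediateField.fixedField D)) : ℝ) ^ (-s) ≤ 1 :=
        Real.rpow_le_one_of_one_le_of_nonpos hE1 (by linarith)
      have h2 : 0 ≤ (nm (lo w : Pl K) : ℝ) ^ (-(2 : ℝ)) := by positivity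
      linarith
    · rw [if_neg hw, add_zero]
      have hDw : DG w (dec p2 p3 w) := fun g => Iff.rfl
      obtain ⟨l1, l2⟩ := loc hPLC hPLE hU D w hw (dec p2 p3 w) hDw
      set Dw := dec p2 p3 w with hDwd
      have hm0 : 0 < Nat.card (Dw ⊓ D : Subgroup (M ≃ₐ[K] M)) := Nat.card_pos
      by_cases hle : Dw ≤ D
      · have hin : Dw ⊓ D = Dw := inf_eq_left.2 hle
        rw [hin] at l1 l2 hm0
        have h1 : ∑ D' ∈ T, t D' w = t Dw w := by
          refine Finset.sum_eq_single_of_mem Dw ?_ fun D' _ hD' => ?_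
          · rw [hT, Finset.mem_filter]
            exact ⟨Finset.mem_univ _, hle⟩
          · simp only [t]
            rw [if_neg fun h => hD' (DG_unique h.1 hDw), mul_zero]
        have h2 : t Dw w = ((Nat.card Dw : ℝ) / Nat.card D) * (nm (lo w : Pl K) : ℝ) ^ (-s) := by
          simp only [t]
          rw [if_pos ⟨hDw, hw⟩]
        have h3 : nm (lo w : Pl (IntermediateField.fixedField D)) = nm (lo w : Pl K) :=
          Nat.pow_left_injective hm0.ne' l2
        have h4 : (nm (lo w : Pl (IntermediateField.fixedField D)) : ℝ) ^ (-s) /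
            ({w' : Pl M | (lo w' : Pl (IntermediateField.fixedField D)) = lo w}.ncard : ℝ) -
            ∑ D' ∈ T, t D' w = 0 := by
          rw [h1, h2, h3]
          have h5 : ({w' : Pl M | (lo w' : Pl (IntermediateField.fixedField D)) = lo w}.ncard : ℝ) *
              Nat.card Dw = Nat.card D := by exact_mod_cast l1
          have h6 : (0 : ℝ) < Nat.card Dw := by exact_mod_cast hm0
          have h7 : (0 : ℝ) < ({w' : Pl M | (lo w' : Pl (IntermediateField.fixedField D)) =
            lo w}.ncard : ℝ) := by linarith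
          rw [← h5]
          field_simp
          ring
        rw [h4]
        exact ⟨le_rfl, by positivity⟩
      · have h0 : ∑ D' ∈ T, t D' w = 0 := by
          refine Finset.sum_eq_zero fun D' hD' => ?_
          simp only [t]
          rw [if_neg, mul_zero]
          intro h
          apply hle
          rw [← DG_unique h.1 hDw]
          rw [hT, Finset.mem_filter] at hD'
          exact hD'.2
        rw [h0, sub_zero]
        refine ⟨by positivity, hdiv.trans ?_⟩
        -- the norm of the place of the fixed field is large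
        have hdvd : Nat.card (Dw ⊓ D : Subgroup (M ≃ₐ[K] M)) ∣ Nat.card Dw :=
          Subgroup.card_dvd_of_le inf_le_left
        obtain ⟨k, hk⟩ := hdvd
        have hk2 : 2 ≤ k := by
          have hk0 : k ≠ 0 := by
            rintro rfl
            rw [mul_zero] at hk
            have : 0 < Nat.card Dw := Nat.card_pos
            omega
          have hk1 : k ≠ 1 := by
            rintro rfl
            apply hle
            rw [mul_one] at hk
            have h8 : Dw ⊓ D = Dw := Subgroup.eq_of_le_of_card_ge inf_le_left hk.le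
            exact inf_eq_left.1 h8
          omega
        rw [hk, mul_comm, pow_mul] at l2
        have h3 : nm (lo w : Pl (IntermediateField.fixedField D)) = nm (lo w : Pl K) ^ k :=
          Nat.pow_left_injective hm0.ne' l2
        rw [h3]
        push_cast
        rw [← Real.rpow_natCast, ← Real.rpow_mul (by positivity)]
        refine Real.rpow_le_rpow_of_exponent_le hK1 ?_
        have h9 : (2 : ℝ) ≤ k := by exact_mod_cast hk2
        nlinarith
  have hdsum := ha.sub htsum
  rw [abs_of_nonneg (tsum_nonneg fun w => (hpt w).1), ← huptsum, ← Summable.tsum_add hs2sum hupsum]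
  exact Summable.tsum_le_tsum (fun w => (hpt w).2) hdsum (hs2sum.add hupsum)

open Classical in
theorem main (hPLC : S_PLC) (hPLE : S_PLE) [IsGalois K M] {S : Finset (Pl K)} (hU : Unr K M S) :
    ∀ (n : ℕ) (D : Subgroup (M ≃ₐ[K] M)), Nat.card D = n → IsCyclic D → ∃ C : ℝ, 0 ≤ C ∧
      ∀ s : ℝ, 1 < s → s ≤ 2 →
      |TD S D s - (Nat.totient (Nat.card D) / Nat.card D : ℝ) * Real.log (1 / (s - 1))| ≤ C := by
  intro n
  induction n using Nat.strong_induction_on with
  | _ n ih =>
    intro D hDn hcyc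
    have hfin : Fintype (Subgroup (M ≃ₐ[K] M)) := Fintype.ofFinite _
    have hex : ∀ D' : Subgroup (M ≃ₐ[K] M), ∃ C : ℝ, 0 ≤ C ∧ (D' < D → ∀ s : ℝ, 1 < s → s ≤ 2 →
        |TD S D' s - (Nat.totient (Nat.card D') / Nat.card D' : ℝ) * Real.log (1 / (s - 1))| ≤ C) := by
      intro D'
      by_cases h : D' < D
      · have h1 : Nat.card D' < n := by
          rw [← hDn]
          refine lt_of_le_of_ne (Subgroup.card_le_of_le h.le) fun h2 => h.ne ?_
          exact Subgroup.eq_of_le_of_card_ge h.le h2.ge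
        obtain ⟨C, hC, h2⟩ := ih _ h1 D' rfl (Subgroup.isCyclic_of_le h.le)
        exact ⟨C, hC, fun _ => h2⟩
      · exact ⟨0, le_rfl, fun h' => absurd h' h⟩
    choose c hc0 hc using hex
    obtain ⟨C₁, hC₁, h1⟩ := step hPLC hPLE hU D
    obtain ⟨C₂, hC₂, h2⟩ := psum_two (IntermediateField.fixedField D)
    set T : Finset (Subgroup (M ≃ₐ[K] M)) :=
      univ.filter (fun D' : Subgroup (M ≃ₐ[K] M) => D' ≤ D) with hT
    have hDT : D ∈ T := by rw [hT, Finset.mem_filter]; exact ⟨Finset.mem_univ _, le_rfl⟩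
    refine ⟨C₁ + C₂ + ∑ D' ∈ T.erase D, c D', ?_, fun s hs hs2 => ?_⟩
    · have : 0 ≤ ∑ D' ∈ T.erase D, c D' := Finset.sum_nonneg fun D' _ => hc0 D'
      positivity
    have hD0 : (0 : ℝ) < Nat.card D := by
      have : 0 < Nat.card D := Nat.card_pos
      exact_mod_cast this
    have h3 := h1 s hs hs2
    have h4 := h2 s hs hs2
    obtain ⟨L, hL⟩ : ∃ L, L = Real.log (1 / (s - 1)) := ⟨_, rfl⟩
    rw [← hL] at h4 ⊢
    have htot := sum_totient D
    have htot' : ∑ D' ∈ T, (Nat.totient (Nat.card D') : ℝ) = Nat.card D := by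
      have h5 : ((∑ D' ∈ T, Nat.totient (Nat.card D') : ℕ) : ℝ) = ((Nat.card D : ℕ) : ℝ) := by
        rw [← htot]
      rw [← h5]
      push_cast
      rfl
    -- the deviations
    have hsum : ∑ D' ∈ T, ((Nat.card D' : ℝ) / Nat.card D) *
        (TD S D' s - (Nat.totient (Nat.card D') / Nat.card D' : ℝ) * L) =
        ∑ D' ∈ T, ((Nat.card D' : ℝ) / Nat.card D) * TD S D' s - L := by
      have h6 : ∀ D' ∈ T, ((Nat.card D' : ℝ) / Nat.card D) *
          (TD S D' s - (Nat.totient (Nat.card D') / Nat.card D' : ℝ) * L) =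
          ((Nat.card D' : ℝ) / Nat.card D) * TD S D' s -
            (Nat.totient (Nat.card D') : ℝ) * (L / Nat.card D) := by
        intro D' _
        have : (0 : ℝ) < Nat.card D' := by
          have : 0 < Nat.card D' := Nat.card_pos
          exact_mod_cast this
        field_simp
      rw [Finset.sum_congr rfl h6, Finset.sum_sub_distrib, ← Finset.sum_mul, htot']
      field_simp
    rw [← Finset.add_sum_erase _ _ hDT, div_self hD0.ne', one_mul] at hsum
    have h7 : |∑ D' ∈ T.erase D, ((Nat.card D' : ℝ) / Nat.card D) *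
        (TD S D' s - (Nat.totient (Nat.card D') / Nat.card D' : ℝ) * L)| ≤
        ∑ D' ∈ T.erase D, c D' := by
      refine (Finset.abs_sum_le_sum_abs _ _).trans (Finset.sum_le_sum fun D' hD' => ?_)
      rw [Finset.mem_erase, hT, Finset.mem_filter] at hD'
      have hlt : D' < D := lt_of_le_of_ne hD'.2.2 hD'.1
      have h8 := hc D' hlt s hs hs2
      rw [← hL] at h8
      rw [abs_mul, abs_of_nonneg (by positivity)]
      have h9 : (Nat.card D' : ℝ) / Nat.card D ≤ 1 := by
        rw [div_le_one hD0]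
        exact_mod_cast Subgroup.card_le_of_le hlt.le
      exact (mul_le_of_le_one_left (abs_nonneg _) h9).trans h8
    rw [abs_le] at h3 h4 h7 ⊢
    constructor
    · linarith [h3.1, h3.2, h4.1, h4.2, h7.1, h7.2]
    · linarith [h3.1, h3.2, h4.1, h4.2, h7.1, h7.2]

end

open Classical in
theorem t_YDN (hPLC : S_PLC) (hPLE : S_PLE) : S_YDN := by
  intro K M _ _ _ _ _ _ S hU D hcyc lam hlam
  obtain ⟨C, hC, h⟩ := main hPLC hPLE hU (Nat.card D) D rfl hcyc
  refine ⟨lam * C + 1, by positivity, fun s hs hs2 => ?_⟩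
  have h1 := (abs_le.1 (h s hs hs2)).2
  have h2 : TD S D s ≤ (Nat.totient (Nat.card D) / Nat.card D : ℝ) * Real.log (1 / (s - 1)) + C := by
    linarith
  have h3 := mul_le_mul_of_nonneg_left h2 hlam.le
  calc _ = lam * TD S D s := by
        unfold TD
        congr 1
    _ ≤ _ := by linarith

end Pool.Agent.T3h73.SG.YDN
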