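import Pool.Agent.T3h73.SG.StmV
import Pool.Agent.T3h73.SG.T_YDN

/-! # Project SG, task VGN: the decomposition groups generate the Galois group -/

set_option autoImplicit false
set_option linter.all false

open NumberField IsDedekindDomain Filter Topology

namespace Pool.Agent.T3h73.SG.VGN

open Pool.Agent.T3h73.SL (Pl)
open Pool.Agent.H921R2.TatePole
open Pool.Agent.T3h73.SD.MASS (one_le_nm)
open Pool.Agent.T3h73.SG.XMAS (fib_sum)
open Pool.Agent.T3h73.SG.YDN (TD card_gen fib_tsum psum_two DG_unique)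
open Finset (univ)

open Classical in
theorem grp_sum {G : Type*} [Group G] [Finite G] [Fintype (Subgroup G)] (N : Subgroup G) :
    ∑ D ∈ univ.filter (fun D : Subgroup G => IsCyclic D ∧ D ≤ N), Nat.totient (Nat.card D) ≤
      Nat.card N := by
  have : Fintype G := Fintype.ofFinite G
  have h1 : (univ.filter fun g : G => g ∈ N).card = Nat.card N := by
    rw [Nat.card_eq_fintype_card]
    exact (Fintype.card_subtype _).symm
  rw [← h1]
  have h2 : ∑ D ∈ univ.filter (fun D : Subgroup G => IsCyclic D ∧ D ≤ N),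
      Nat.totient (Nat.card D) =
      ∑ D ∈ univ.filter (fun D : Subgroup G => IsCyclic D ∧ D ≤ N),
        (univ.filter fun g : G => Subgroup.zpowers g = D).card := by
    refine Finset.sum_congr rfl fun D hD => ?_
    haveI := (Finset.mem_filter.1 hD).2.1
    exact (card_gen D).symm
  rw [h2, ← Finset.card_biUnion]
  · apply Finset.card_le_card
    intro g hg
    rw [Finset.mem_biUnion] at hg
    obtain ⟨D, hD, hg⟩ := hg
    rw [Finset.mem_filter] at hD hg ⊢
    exact ⟨Finset.mem_univ _, hD.2.2 (by rw [← hg.2]; exact Subgroup.mem_zpowers g)⟩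
  · intro D _ D' _ hne
    refine Finset.disjoint_left.2 ?_
    intro g hg hg'
    rw [Finset.mem_filter] at hg hg'
    exact hne (hg.2.symm.trans hg'.2)

theorem t_VGN (hPLC : S_PLC) (hYDN : S_YDN) : S_VGN := by
  classical
  intro K M _ _ _ _ _ _ S N hN
  obtain ⟨p1, p2, p3, p4, p5, p6, p7, p8, p9, p10⟩ := hPLC K M
  obtain ⟨g, hg⟩ := p8
  obtain ⟨S₀, hS₀⟩ := p9
  haveI hfM : Finite (M ≃ₐ[K] M) := inferInstance
  haveI : Fintype (Subgroup (M ≃ₐ[K] M)) := Fintype.ofFinite _
  set T : Finset (Pl K) := S ∪ S₀ with hT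
  have hU : Unr K M T := fun w hw => hS₀ w (fun h => hw (Finset.mem_union_right _ h))
  have hN' : ∀ w : Pl M, (lo w : Pl K) ∉ T → ∀ γ : M ≃ₐ[K] M, gp γ w = w → γ ∈ N :=
    fun w hw γ h => hN w (fun h' => hw (Finset.mem_union_left _ h')) γ h
  -- the decomposition groups
  let DW : Pl M → Subgroup (M ≃ₐ[K] M) := fun w =>
    { carrier := {γ | gp γ w = w}
      one_mem' := p2 w
      mul_mem' := by
        intro a b ha hb
        show gp (a * b) w = w
        rw [p3, show gp b w = w from hb, show gp a w = w from ha]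
      inv_mem' := by
        intro a ha
        show gp a⁻¹ w = w
        have h : gp a w = w := ha
        conv_lhs => rw [← h]
        rw [← p3, inv_mul_cancel, p2] }
  have hDW : ∀ w, DG w (DW w) := fun w γ => Iff.rfl
  set G : ℕ := Nat.card (M ≃ₐ[K] M) with hG
  have hG0 : 0 < G := Nat.card_pos
  have hG0' : (0 : ℝ) < G := by exact_mod_cast hG0
  set 𝒟 : Finset (Subgroup (M ≃ₐ[K] M)) :=
    univ.filter (fun D : Subgroup (M ≃ₐ[K] M) => IsCyclic D ∧ D ≤ N) with h𝒟
  have hC : ∀ D : Subgroup (M ≃ₐ[K] M), ∃ C : ℝ, 0 < C ∧ (IsCyclic D → ∀ s : ℝ, 1 < s → s ≤ 2 →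
      ((Nat.card D : ℝ) / G) * TD T D s ≤
        ((Nat.totient (Nat.card D) : ℝ) / G) * Real.log (1 / (s - 1)) + C) := by
    intro D
    by_cases hD : IsCyclic D
    · have hD0 : (0 : ℝ) < Nat.card D := by
        have : 0 < Nat.card D := Nat.card_pos
        exact_mod_cast this
      obtain ⟨C, hC, h⟩ := hYDN K M T hU D hD ((Nat.card D : ℝ) / G) (by positivity)
      refine ⟨C, hC, fun _ s hs hs2 => ?_⟩
      have h3 := h s hs hs2
      have e : (Nat.card D : ℝ) / G * (Nat.totient (Nat.card D) / Nat.card D : ℝ) =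
          (Nat.totient (Nat.card D) : ℝ) / G := by
        field_simp
      rw [e] at h3
      exact h3
    · exact ⟨1, one_pos, fun h => absurd h hD⟩
  choose C hC0 hC using hC
  obtain ⟨C1, hC1, hps⟩ := psum_two K
  have key : ∀ s : ℝ, 1 < s → s ≤ 2 → Real.log (1 / (s - 1)) - C1 ≤
      (T.card : ℝ) + (((Nat.card N : ℝ) / G) * Real.log (1 / (s - 1)) + ∑ D ∈ 𝒟, C D) := by
    intro s hs hs2
    have hlog : 0 ≤ Real.log (1 / (s - 1)) := by
      apply Real.log_nonneg
      rw [le_div_iff₀ (by linarith)]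
      linarith
    have hss := nm_summable (K := K) hs
    have hssM := (fib_sum (lo : Pl M → Pl K) hg hs).1
    -- splitting
    let f1 : Pl K → ℝ := fun q => if q ∈ T then (nm q : ℝ) ^ (-s) else 0
    let f2 : Pl K → ℝ := fun q => if q ∈ T then 0 else (nm q : ℝ) ^ (-s)
    have hf12 : ∀ q : Pl K, (nm q : ℝ) ^ (-s) = f1 q + f2 q := by
      intro q
      by_cases hq : q ∈ T
      · simp only [f1, f2, if_pos hq, add_zero]
      · simp only [f1, f2, if_neg hq, zero_add]
    have hf1s : Summable f1 := summable_of_ne_finset_zero (s := T) fun q hq => if_neg hq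
    have hf2n : ∀ q, 0 ≤ f2 q := by
      intro q
      by_cases hq : q ∈ T
      · simp only [f2, if_pos hq]; exact le_rfl
      · simp only [f2, if_neg hq]; positivity
    have hf2s : Summable f2 := by
      refine Summable.of_nonneg_of_le hf2n (fun q => ?_) hss
      by_cases hq : q ∈ T
      · simp only [f2, if_pos hq]; positivity
      · simp only [f2, if_neg hq]; exact le_rfl
    have h1 : ∑' q : Pl K, (nm q : ℝ) ^ (-s) = ∑' q, f1 q + ∑' q, f2 q := by
      rw [← Summable.tsum_add hf1s hf2s]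
      exact tsum_congr hf12
    have h2 : ∑' q, f1 q ≤ T.card := by
      rw [tsum_eq_sum (s := T) fun q hq => if_neg hq]
      calc ∑ q ∈ T, f1 q ≤ ∑ q ∈ T, (1 : ℝ) := by
            refine Finset.sum_le_sum fun q hq => ?_
            simp only [f1, if_pos hq]
            exact Real.rpow_le_one_of_one_le_of_nonpos (one_le_nm q) (by linarith)
        _ = T.card := by simp
    obtain ⟨ha, hae⟩ := fib_tsum (lo : Pl M → Pl K) (fun q => (p6 q).1)
      (fun q => (p6 q).2) f2 hf2n hf2s
    let t : Subgroup (M ≃ₐ[K] M) → Pl M → ℝ := fun D w =>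
      ((Nat.card D : ℝ) / G) *
        (if DG w D ∧ (lo w : Pl K) ∉ T then (nm (lo w : Pl K) : ℝ) ^ (-s) else 0)
    have hts : ∀ D, Summable (t D) := by
      intro D
      refine Summable.mul_left _ ?_
      refine Summable.of_nonneg_of_le (fun w => ?_) (fun w => ?_) hssM
      · split_ifs
        · positivity
        · exact le_rfl
      · split_ifs
        · exact le_rfl
        · positivity
    have ht : ∑' w, ∑ D ∈ 𝒟, t D w = ∑ D ∈ 𝒟, ((Nat.card D : ℝ) / G) * TD T D s := by
      rw [Summable.tsum_finsetSum fun D' _ => hts D']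
      refine Finset.sum_congr rfl fun D' _ => ?_
      simp only [t]
      rw [tsum_mul_left]
      rfl
    have hpt : ∀ w : Pl M, f2 (lo w) / ({w' : Pl M | (lo w' : Pl K) = lo w}.ncard : ℝ) =
        ∑ D ∈ 𝒟, t D w := by
      intro w
      by_cases hw : (lo w : Pl K) ∈ T
      · have e1 : f2 (lo w) = 0 := if_pos hw
        rw [e1, zero_div]
        symm
        refine Finset.sum_eq_zero fun D _ => ?_
        simp only [t]
        rw [if_neg (fun h => h.2 hw), mul_zero]
      · obtain ⟨-, hw2⟩ := hU w hw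
        obtain ⟨hcyc, -, hcard⟩ := hw2 (DW w) (hDW w)
        have hmem : DW w ∈ 𝒟 := by
          rw [h𝒟, Finset.mem_filter]
          exact ⟨Finset.mem_univ _, hcyc, fun γ hγ => hN' w hw γ hγ⟩
        rw [Finset.sum_eq_single_of_mem (DW w) hmem]
        · simp only [t, f2]
          rw [if_neg hw, if_pos ⟨hDW w, hw⟩]
          have hc' : (({w' : Pl M | (lo w' : Pl K) = lo w}.ncard : ℝ)) * (Nat.card (DW w) : ℝ) =
              (G : ℝ) := by exact_mod_cast hcard
          have hD0 : (0 : ℝ) < Nat.card (DW w) := by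
            have : 0 < Nat.card (DW w) := Nat.card_pos
            exact_mod_cast this
          have hn0 : (({w' : Pl M | (lo w' : Pl K) = lo w}.ncard : ℝ)) ≠ 0 := by
            intro h
            rw [h, zero_mul] at hc'
            exact hG0'.ne hc'
          rw [← hc']
          field_simp
        · intro D _ hne
          simp only [t]
          rw [if_neg (fun h => hne (DG_unique h.1 (hDW w))), mul_zero]
    have h3 : ∑' q, f2 q ≤ ((Nat.card N : ℝ) / G) * Real.log (1 / (s - 1)) + ∑ D ∈ 𝒟, C D := by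
      rw [← hae, tsum_congr hpt, ht]
      calc ∑ D ∈ 𝒟, ((Nat.card D : ℝ) / G) * TD T D s
          ≤ ∑ D ∈ 𝒟, (((Nat.totient (Nat.card D) : ℝ) / G) * Real.log (1 / (s - 1)) + C D) :=
            Finset.sum_le_sum fun D hD => hC D (Finset.mem_filter.1 hD).2.1 s hs hs2
        _ = ((∑ D ∈ 𝒟, (Nat.totient (Nat.card D) : ℝ)) / G) * Real.log (1 / (s - 1)) +
            ∑ D ∈ 𝒟, C D := by
            rw [Finset.sum_add_distrib, ← Finset.sum_mul, Finset.sum_div]
        _ ≤ _ := by
            have h4 : ∑ D ∈ 𝒟, (Nat.totient (Nat.card D) : ℝ) ≤ Nat.card N := by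
              exact_mod_cast grp_sum N
            gcongr
    have h5 := (abs_le.1 (hps s hs hs2)).1
    linarith
  -- conclusion
  apply Subgroup.eq_top_of_le_card
  by_contra hlt
  rw [not_le] at hlt
  have hlt' : (Nat.card N : ℝ) + 1 ≤ G := by exact_mod_cast hlt
  set R : ℝ := C1 + T.card + ∑ D ∈ 𝒟, C D with hR
  have hR0 : 0 ≤ R := by
    have : 0 ≤ ∑ D ∈ 𝒟, C D := Finset.sum_nonneg fun D _ => (hC0 D).le
    positivity
  have hs1 : (0 : ℝ) < Real.exp (-((R + 1) * G)) := Real.exp_pos _
  have hs2 : Real.exp (-((R + 1) * G)) ≤ 1 := by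
    rw [Real.exp_le_one_iff]
    have : 0 ≤ (R + 1) * G := by positivity
    linarith
  have h := key (1 + Real.exp (-((R + 1) * G))) (by linarith) (by linarith)
  have hl : Real.log (1 / (1 + Real.exp (-((R + 1) * G)) - 1)) = (R + 1) * G := by
    rw [add_sub_cancel_left, one_div, Real.log_inv, Real.log_exp, neg_neg]
  rw [hl] at h
  have h6 : ((Nat.card N : ℝ) / G) * ((R + 1) * G) = Nat.card N * (R + 1) := by
    field_simp
  rw [h6] at h
  nlinarith

end Pool.Agent.T3h73.SG.VGN
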