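import Pool.Agent.T3h73.SG.StmV

/-!
VLG: a stable isotropic complement of a stable isotropic subspace.
-/

set_option autoImplicit false
set_option linter.all false

namespace Pool.Agent.T3h73.SG.VLG

theorem t_VLG : S_VLG := by
  intro ℓ _ G _ _ hG V _ _ av ψ alt inv L0 L1' st0 iso0 hc iso1
  have : Fintype G := Fintype.ofFinite G
  have hcard : (Nat.card G : ZMod ℓ) ≠ 0 := by
    rw [Ne, ZMod.natCast_eq_zero_iff]
    exact hG
  set p' : V →ₗ[ZMod ℓ] V := Submodule.projection L0 L1' hc with hp'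
  have hp'mem : ∀ x, p' x ∈ L0 := fun x => Submodule.projection_apply_mem hc x
  have hp'id : ∀ x ∈ L0, p' x = x := fun x hx => Submodule.projection_apply_of_mem_left hc hx
  have hp'sub : ∀ x, x - p' x ∈ L1' := by
    intro x
    have h := Submodule.projection_apply_eq_zero_iff hc.symm (x := x)
    have : Submodule.projection L1' L0 hc.symm x = x - p' x :=
      Submodule.projection_eq_self_sub_projection hc x
    rw [← this]
    exact Submodule.projection_apply_mem hc.symm x
  have hψ' : ∀ x y, ψ (p' x) y + ψ x (p' y) = ψ x y := by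
    intro x y
    have h1 := iso1 _ (hp'sub x) _ (hp'sub y)
    have h2 := iso0 _ (hp'mem x) _ (hp'mem y)
    simp only [map_sub, LinearMap.sub_apply] at h1
    rw [h2] at h1
    linear_combination (-1 : ZMod ℓ) * h1
  -- the action
  have hav : ∀ (g h : G) (x : V), av g (av h x) = av (g * h) x := by
    intro g h x
    rw [map_mul]
    rfl
  have hav1 : ∀ x, av 1 x = x := by
    intro x
    rw [map_one]
    rfl
  have inv' : ∀ g x y, ψ (av g x) y = ψ x (av g⁻¹ y) := by
    intro g x y
    rw [← inv g x (av g⁻¹ y), hav, mul_inv_cancel, hav1]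
  set p : V →ₗ[ZMod ℓ] V := ((Nat.card G : ZMod ℓ))⁻¹ • ∑ g : G, (av g) ∘ₗ p' ∘ₗ (av g⁻¹) with hp
  have hpap : ∀ x, p x = ((Nat.card G : ZMod ℓ))⁻¹ • ∑ g : G, av g (p' (av g⁻¹ x)) := by
    intro x
    rw [hp]
    simp [LinearMap.smul_apply, LinearMap.sum_apply]
  have hpmem : ∀ x, p x ∈ L0 := by
    intro x
    rw [hpap]
    exact L0.smul_mem _ (L0.sum_mem fun g _ => st0 g _ (hp'mem _))
  have hpid : ∀ x ∈ L0, p x = x := by
    intro x hx
    rw [hpap]
    have : ∀ g : G, av g (p' (av g⁻¹ x)) = x := by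
      intro g
      rw [hp'id _ (st0 _ _ hx), hav, mul_inv_cancel, hav1]
    rw [Finset.sum_congr rfl fun g _ => this g, Finset.sum_const, Finset.card_univ,
      ← Nat.card_eq_fintype_card, ← Nat.cast_smul_eq_nsmul (ZMod ℓ), smul_smul,
      inv_mul_cancel₀ hcard, one_smul]
  have hpcomm : ∀ (h : G) x, p (av h x) = av h (p x) := by
    intro h x
    rw [hpap, hpap, map_smul, map_sum]
    congr 1
    refine Fintype.sum_equiv (Equiv.mulLeft h⁻¹) _ _ fun g => ?_
    rw [hav, hav]
    simp [mul_assoc]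
  have hpψ : ∀ x y, ψ (p x) y + ψ x (p y) = ψ x y := by
    intro x y
    rw [hpap, hpap, map_smul, LinearMap.smul_apply, map_smul, map_sum, map_sum,
      LinearMap.sum_apply, ← smul_add, ← Finset.sum_add_distrib]
    have : ∀ g : G, ψ (av g (p' (av g⁻¹ x))) y + ψ x (av g (p' (av g⁻¹ y))) = ψ x y := by
      intro g
      rw [inv' g]
      have h2 : ψ x (av g (p' (av g⁻¹ y))) = ψ (av g⁻¹ x) (p' (av g⁻¹ y)) := by
        rw [← inv g (av g⁻¹ x) (p' (av g⁻¹ y)), hav, mul_inv_cancel, hav1]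
      rw [h2, hψ', inv]
    rw [Finset.sum_congr rfl fun g _ => this g, Finset.sum_const, Finset.card_univ,
      ← Nat.card_eq_fintype_card, ← Nat.cast_smul_eq_nsmul (ZMod ℓ), smul_smul,
      inv_mul_cancel₀ hcard, one_smul]
  refine ⟨LinearMap.ker p, ?_, ?_, ?_⟩
  · rw [isCompl_iff, Submodule.disjoint_def, codisjoint_iff, eq_top_iff]
    refine ⟨fun x hx hx2 => ?_, fun x _ => ?_⟩
    · rw [LinearMap.mem_ker] at hx2
      rw [← hpid x hx, hx2]
    · rw [Submodule.mem_sup]
      refine ⟨p x, hpmem x, x - p x, ?_, by abel⟩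
      rw [LinearMap.mem_ker, map_sub, hpid (p x) (hpmem x), sub_self]
  · intro x hx y hy
    rw [LinearMap.mem_ker] at hx hy
    have := hpψ x y
    rw [hx, hy] at this
    simpa using this.symm
  · intro g x hx
    rw [LinearMap.mem_ker] at hx ⊢
    rw [hpcomm, hx, map_zero]

end Pool.Agent.T3h73.SG.VLG
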