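import Pool.Agent.T3h73.SG.StmV
import Pool.Agent.T3h73.SN.T_LLW

/-!
VLL: Lagrangian subspaces of the space of the invariant families.
-/

set_option autoImplicit false
set_option linter.all false

namespace Pool.Agent.T3h73.SG.VLL

open Pool.Agent.T3h73.SN (Sz)
open Pool.Agent.T3h73.SD (S_LAG)
open Pool.Agent.T3h73.SN.LLW (Psi Psi_apply Psi_nd)

section
variable {ℓ n : ℕ} {G : Type} [Group G] (pm : G →* Equiv.Perm (Fin n))
  {V : Type} [AddCommGroup V] [Module (ZMod ℓ) V] (av : G →* Module.End (ZMod ℓ) V)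

/-- the invariant families -/
def XF (ℓ n : ℕ) {G : Type} [Group G] (pm : G →* Equiv.Perm (Fin n))
    {V : Type} [AddCommGroup V] [Module (ZMod ℓ) V] (av : G →* Module.End (ZMod ℓ) V) :
    Submodule (ZMod ℓ) (Sz ℓ n V) where
  carrier := {x | InvF pm av (x : Fin n → V)}
  add_mem' := by
    intro a b ha hb g i
    show (a : Fin n → V) (pm g i) + (b : Fin n → V) (pm g i) =
      av g ((a : Fin n → V) i + (b : Fin n → V) i)
    rw [ha g i, hb g i, map_add]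
  zero_mem' := by
    intro g i
    show (0 : V) = av g (0 : V)
    rw [map_zero]
  smul_mem' := by
    intro c a ha g i
    show c • (a : Fin n → V) (pm g i) = av g (c • (a : Fin n → V) i)
    rw [ha g i, map_smul]

/-- the families with values in `L` -/
def XL (L : Submodule (ZMod ℓ) V) : Submodule (ZMod ℓ) (XF ℓ n pm av) where
  carrier := {x | ∀ i, ((x : Sz ℓ n V) : Fin n → V) i ∈ L}
  add_mem' := fun ha hb i => L.add_mem (ha i) (hb i)
  zero_mem' := fun _ => L.zero_mem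
  smul_mem' := fun c _ hx i => L.smul_mem c (hx i)

lemma av_mul (g h : G) (x : V) : av g (av h x) = av (g * h) x := by
  rw [map_mul]
  rfl

lemma av_one (x : V) : av 1 x = x := by
  rw [map_one]
  rfl

lemma pm_mul (g h : G) (i : Fin n) : pm g (pm h i) = pm (g * h) i := by
  rw [map_mul]
  rfl

lemma pm_one (i : Fin n) : pm 1 i = i := by
  rw [map_one]
  rfl

/-- the average -/
noncomputable def avg [Fintype G] (y : Sz ℓ n V) : XF ℓ n pm av :=
  ⟨⟨fun i => ∑ g : G, av g ((y : Fin n → V) (pm g⁻¹ i)), by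
    show ∑ i, ∑ g : G, av g ((y : Fin n → V) (pm g⁻¹ i)) = 0
    rw [Finset.sum_comm]
    refine Finset.sum_eq_zero fun g _ => ?_
    rw [← map_sum, Equiv.sum_comp (pm g⁻¹) (fun j => (y : Fin n → V) j),
      show ∑ i, (y : Fin n → V) i = 0 from y.2, map_zero]⟩, by
    intro h i
    show ∑ g : G, av g ((y : Fin n → V) (pm g⁻¹ (pm h i))) =
      av h (∑ g : G, av g ((y : Fin n → V) (pm g⁻¹ i)))
    rw [map_sum]
    refine Fintype.sum_equiv (Equiv.mulLeft h⁻¹) _ _ fun g => ?_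
    show av g _ = av h (av (h⁻¹ * g) ((y : Fin n → V) (pm (h⁻¹ * g)⁻¹ i)))
    rw [av_mul, pm_mul, mul_inv_cancel_left, mul_inv_rev, inv_inv]⟩

lemma Psi_avg [Fintype G] (ψ : V →ₗ[ZMod ℓ] V →ₗ[ZMod ℓ] ZMod ℓ)
    (inv : ∀ γ x y, ψ (av γ x) (av γ y) = ψ x y) (x : XF ℓ n pm av) (y : Sz ℓ n V) :
    Psi ψ (x : Sz ℓ n V) (avg pm av y : Sz ℓ n V) = (Nat.card G : ZMod ℓ) * Psi ψ (x : Sz ℓ n V) y := by
  rw [Psi_apply, Psi_apply]
  have h1 : ∀ i, ψ (((x : Sz ℓ n V) : Fin n → V) i) (((avg pm av y : Sz ℓ n V) : Fin n → V) i) =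
      ∑ g : G, ψ (((x : Sz ℓ n V) : Fin n → V) i) (av g ((y : Fin n → V) (pm g⁻¹ i))) := by
    intro i
    rw [← map_sum]
    rfl
  rw [Finset.sum_congr rfl fun i _ => h1 i, Finset.sum_comm]
  have h2 : ∀ g : G, ∑ i, ψ (((x : Sz ℓ n V) : Fin n → V) i) (av g ((y : Fin n → V) (pm g⁻¹ i))) =
      ∑ i, ψ (((x : Sz ℓ n V) : Fin n → V) i) ((y : Fin n → V) i) := by
    intro g
    rw [← Equiv.sum_comp (pm g)]
    refine Finset.sum_congr rfl fun j _ => ?_
    rw [x.2 g j, pm_mul, inv_mul_cancel, pm_one, inv]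
  rw [Finset.sum_congr rfl fun g _ => h2 g, Finset.sum_const, Finset.card_univ,
    ← Nat.card_eq_fintype_card, nsmul_eq_mul]

/-- the form on the invariant families -/
noncomputable def PsiX (ψ : V →ₗ[ZMod ℓ] V →ₗ[ZMod ℓ] ZMod ℓ) :
    XF ℓ n pm av →ₗ[ZMod ℓ] XF ℓ n pm av →ₗ[ZMod ℓ] ZMod ℓ :=
  (Psi ψ).domRestrict₁₂ (XF ℓ n pm av) (XF ℓ n pm av)

lemma PsiX_apply (ψ : V →ₗ[ZMod ℓ] V →ₗ[ZMod ℓ] ZMod ℓ) (x y : XF ℓ n pm av) :
    PsiX pm av ψ x y = ∑ i, ψ (((x : Sz ℓ n V) : Fin n → V) i) (((y : Sz ℓ n V) : Fin n → V) i) := rfl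

lemma PsiX_nd [Fact ℓ.Prime] [Finite G] (hn : ¬ ℓ ∣ n) (hG : ¬ ℓ ∣ Nat.card G)
    (ψ : V →ₗ[ZMod ℓ] V →ₗ[ZMod ℓ] ZMod ℓ)
    (nd : ∀ x, (∀ y, ψ x y = 0) → x = 0) (inv : ∀ γ x y, ψ (av γ x) (av γ y) = ψ x y)
    (x : XF ℓ n pm av) (h : ∀ y, PsiX pm av ψ x y = 0) : x = 0 := by
  have : Fintype G := Fintype.ofFinite G
  have hcard : (Nat.card G : ZMod ℓ) ≠ 0 := by
    rw [Ne, ZMod.natCast_eq_zero_iff]
    exact hG
  apply Subtype.ext
  refine Psi_nd hn ψ nd _ fun y => ?_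
  have h1 := h (avg pm av y)
  have h2 := Psi_avg pm av ψ inv x y
  rw [show Psi ψ (x : Sz ℓ n V) (avg pm av y : Sz ℓ n V) = 0 from h1] at h2
  exact (mul_eq_zero.1 h2.symm).resolve_left hcard

lemma XL_compl {L0 L1 : Submodule (ZMod ℓ) V} (hc : IsCompl L0 L1)
    (st0 : ∀ γ, ∀ x ∈ L0, av γ x ∈ L0) (st1 : ∀ γ, ∀ x ∈ L1, av γ x ∈ L1) :
    IsCompl (XL pm av L0 : Submodule (ZMod ℓ) (XF ℓ n pm av)) (XL pm av L1) := by
  rw [isCompl_iff, Submodule.disjoint_def, codisjoint_iff, eq_top_iff]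
  refine ⟨fun x h0 h1 => ?_, fun x _ => ?_⟩
  · apply Subtype.ext
    apply Subtype.ext
    funext i
    exact Submodule.disjoint_def.1 hc.disjoint _ (h0 i) (h1 i)
  · rw [Submodule.mem_sup]
    set p : V →ₗ[ZMod ℓ] V := Submodule.projection L0 L1 hc with hp
    have hpmem : ∀ x, p x ∈ L0 := fun x => Submodule.projection_apply_mem hc x
    have hpid : ∀ x ∈ L0, p x = x := fun x hx => Submodule.projection_apply_of_mem_left hc hx
    have hpsub : ∀ x, x - p x ∈ L1 := by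
      intro x
      have : Submodule.projection L1 L0 hc.symm x = x - p x :=
        Submodule.projection_eq_self_sub_projection hc x
      rw [← this]
      exact Submodule.projection_apply_mem hc.symm x
    have hp0 : ∀ x ∈ L1, p x = 0 := fun x hx => Submodule.projection_apply_of_mem_right hc hx
    have hpav : ∀ g x, p (av g x) = av g (p x) := by
      intro g x
      have h1 : av g x = av g (p x) + av g (x - p x) := by
        rw [← map_add]
        congr 1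
        abel
      rw [h1, map_add, hpid _ (st0 g _ (hpmem x)), hp0 _ (st1 g _ (hpsub x)), add_zero]
    let x0 : XF ℓ n pm av := ⟨⟨fun i => p (((x : Sz ℓ n V) : Fin n → V) i), by
      show ∑ i, p (((x : Sz ℓ n V) : Fin n → V) i) = 0
      rw [← map_sum, show ∑ i, ((x : Sz ℓ n V) : Fin n → V) i = 0 from (x : Sz ℓ n V).2, map_zero]⟩, by
      intro g i
      show p (((x : Sz ℓ n V) : Fin n → V) (pm g i)) = av g (p (((x : Sz ℓ n V) : Fin n → V) i))
      rw [x.2 g i, hpav]⟩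
    exact ⟨x0, fun i => hpmem _, x - x0, fun i => hpsub _, by abel⟩

/-- an isotropic subspace is small -/
lemma card_le [Fact ℓ.Prime] (hℓ : ℓ ≠ 2) (hLAG : S_LAG) (W : Type) [AddCommGroup W]
    [Module (ZMod ℓ) W] [Finite W] (ψ : W →ₗ[ZMod ℓ] W →ₗ[ZMod ℓ] ZMod ℓ) (alt : ∀ x, ψ x x = 0)
    (nd : ∀ x, (∀ y, ψ x y = 0) → x = 0) (I : Submodule (ZMod ℓ) W)
    (hI : ∀ x ∈ I, ∀ y ∈ I, ψ x y = 0) : Nat.card I ^ 2 ≤ Nat.card W := by
  obtain ⟨L, h1, _, h3⟩ := (hLAG ℓ hℓ W ψ alt nd).1 I hI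
  rw [← h3]
  exact Nat.pow_le_pow_left (Nat.card_mono (Set.toFinite _) h1) 2

end

theorem t_VLL (hLAG : S_LAG) : S_VLL := by
  intro ℓ n _ hℓ hn hn2 G _ _ pm hG V _ _ _ av ψ alt nd inv L0 L1 hc iso0 iso1 st0 st1 I hI hI2
  have halt : ∀ x : XF ℓ n pm av, PsiX pm av ψ x x = 0 := by
    intro x
    rw [PsiX_apply]
    exact Finset.sum_eq_zero fun i _ => alt _
  have hnd : ∀ x : XF ℓ n pm av, (∀ y, PsiX pm av ψ x y = 0) → x = 0 :=
    fun x h => PsiX_nd pm av hn hG ψ nd inv x h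
  obtain ⟨L, h1, h2, h3⟩ := (hLAG ℓ hℓ (XF ℓ n pm av) (PsiX pm av ψ) halt hnd).1
    (I.comap (XF ℓ n pm av).subtype) (fun x hx y hy => hI2 _ hx _ hy)
  have hcompl := XL_compl (n := n) pm av hc st0 st1
  have e0 : Nat.card (XL pm av L0 : Submodule (ZMod ℓ) (XF ℓ n pm av)) ^ 2 ≤
      Nat.card (XF ℓ n pm av) :=
    card_le hℓ hLAG _ (PsiX pm av ψ) halt hnd _ fun x hx y hy => by
      rw [PsiX_apply]
      exact Finset.sum_eq_zero fun i _ => iso0 _ (hx i) _ (hy i)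
  have e1 : Nat.card (XL pm av L1 : Submodule (ZMod ℓ) (XF ℓ n pm av)) ^ 2 ≤
      Nat.card (XF ℓ n pm av) :=
    card_le hℓ hLAG _ (PsiX pm av ψ) halt hnd _ fun x hx y hy => by
      rw [PsiX_apply]
      exact Finset.sum_eq_zero fun i _ => iso1 _ (hx i) _ (hy i)
  have e2 : Nat.card (XL pm av L0 : Submodule (ZMod ℓ) (XF ℓ n pm av)) *
      Nat.card (XL pm av L1 : Submodule (ZMod ℓ) (XF ℓ n pm av)) = Nat.card (XF ℓ n pm av) := by
    rw [← Nat.card_prod]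
    exact Nat.card_congr (Submodule.prodEquivOfIsCompl _ _ hcompl).toEquiv
  have p0 : 0 < Nat.card (XL pm av L0 : Submodule (ZMod ℓ) (XF ℓ n pm av)) := Nat.card_pos
  have p1 : 0 < Nat.card (XL pm av L1 : Submodule (ZMod ℓ) (XF ℓ n pm av)) := Nat.card_pos
  have e3 : Nat.card L = Nat.card (XL pm av L0 : Submodule (ZMod ℓ) (XF ℓ n pm av)) := by
    rw [← e2] at e0 e1 h3
    rw [pow_two] at e0 e1
    have h01 := Nat.le_of_mul_le_mul_left e0 p0
    have h10 := Nat.le_of_mul_le_mul_right e1 p1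
    have h11 := le_antisymm h01 h10
    rw [← h11, ← pow_two] at h3
    exact Nat.pow_left_injective (n := 2) (by norm_num) h3
  refine ⟨L.map (XF ℓ n pm av).subtype, ?_, ?_, ?_, ?_⟩
  · intro x hx
    exact ⟨⟨x, hI x hx⟩, h1 hx, rfl⟩
  · rintro x ⟨y, hy, rfl⟩
    exact y.2
  · rintro x ⟨x', hx, rfl⟩ y ⟨y', hy, rfl⟩
    exact h2 x' hx y' hy
  · have h4 : Nat.card (L.map (XF ℓ n pm av).subtype) = Nat.card L :=
      Nat.card_congr (Submodule.equivMapOfInjective _ (Submodule.injective_subtype _) L).symm.toEquiv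
    rw [h4, e3]
    refine Nat.card_congr
      { toFun := fun x => ⟨⟨fun i => ⟨_, x.2 i⟩, by
          show ∑ i, (⟨_, x.2 i⟩ : L0) = 0
          apply Subtype.ext
          rw [AddSubmonoidClass.coe_finsetSum]
          exact ((x : XF ℓ n pm av) : Sz ℓ n V).2⟩, fun g i => (x : XF ℓ n pm av).2 g i⟩
        invFun := fun x => ⟨⟨⟨fun i => (((x : Sz ℓ n L0) : Fin n → L0) i : V), by
          show ∑ i, (((x : Sz ℓ n L0) : Fin n → L0) i : V) = 0
          rw [← AddSubmonoidClass.coe_finsetSum,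
            show ∑ i, ((x : Sz ℓ n L0) : Fin n → L0) i = 0 from (x : Sz ℓ n L0).2]
          rfl⟩, x.2⟩, fun i => (((x : Sz ℓ n L0) : Fin n → L0) i).2⟩
        left_inv := fun x => rfl
        right_inv := fun x => rfl }

end Pool.Agent.T3h73.SG.VLL
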