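import Pool.Agent.T3h73.SG.T_VDI

/-!
# Project SG, task VM1 (helper49): the spaces and the uniformizers

The proof follows `t_MDNW` (helper1).
-/

set_option autoImplicit false
set_option linter.all false

open NumberField IsDedekindDomain Polynomial

namespace Pool.Agent.T3h73.SG.VM1

open Pool.Agent.T3h73.SL (Pl IsP Pk loc Sg)
open Pool.Agent.T3h73.SD (Sv LN SymSys ee TYPQ VT S_SV S_CHS S_VSP S_LZ S_LAG S_DK)
open Pool.Agent.T3h73.SD.MDL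
open Pool.Agent.T3h73.SN (Sz tens inc Lcv tor δu gu S_LCV S_LLW S_LNZ)
open Pool.Agent.Y713.SE

section
variable {ℓ : ℕ} {K M : Type} [Field K] [NumberField K] [Field M] [NumberField M] [Algebra K M]
  [IsGalois K M]

lemma gU_one (x : Mˣ) : gU (1 : M ≃ₐ[K] M) x = x := Units.ext rfl

lemma gU_mul (γ δ : M ≃ₐ[K] M) (x : Mˣ) : gU (γ * δ) x = gU γ (gU δ x) := Units.ext rfl

lemma od_gU (hPLC : S_PLC) (γ : M ≃ₐ[K] M) (v : Pl M) (x : Mˣ) :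
    od v (gU γ x) = od (gp γ⁻¹ v) x := by
  have h2 := VDI.od_gp hPLC γ (gp γ⁻¹ v) x
  rw [← (hPLC K M).2.2.1, mul_inv_cancel, (hPLC K M).2.1] at h2
  exact h2

lemma gp_up (hPLC : S_PLC) (γ : M ≃ₐ[K] M) (S : Finset (Pl K)) (v : Pl M) :
    gp γ v ∈ up S ↔ v ∈ up S := by
  obtain ⟨-, h1, hmul, hlo, -, -, hup, -⟩ := hPLC K M
  rw [hup, hup, hlo]

/-- the action on the classes -/
lemma exists_av (hPLC : S_PLC) (hVTR : S_VTR) (hℓ : ℓ.Prime) (S : Finset (Pl K)) {V : Type}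
    [AddCommGroup V] [Module (ZMod ℓ) V] (cl : Mˣ → V) (c1 : ∀ x y, cl (x * y) = cl x + cl y)
    (c2 : Function.Surjective cl) (c3 : ∀ x, cl x = 0 ↔ ∀ v ∈ (up S : Finset (Pl M)), IsP ℓ (loc v x)) :
    ∃ av : (M ≃ₐ[K] M) →* Module.End (ZMod ℓ) V, ∀ γ x, av γ (cl x) = cl (gU γ x) := by
  have hwd : ∀ (γ : M ≃ₐ[K] M) (x y : Mˣ), cl x = cl y → cl (gU γ x) = cl (gU γ y) := by
    intro γ x y hxy
    have h1 : cl (x * y⁻¹) = 0 := by
      rw [c1, cl_inv c1, hxy, add_neg_cancel]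
    have h2 : cl (gU γ (x * y⁻¹)) = 0 := by
      rw [c3]
      intro v hv
      have h3 := ((hVTR ℓ hℓ K M γ).1 (gp γ⁻¹ v) (x * y⁻¹)).2 ((c3 _).1 h1 _
        ((gp_up hPLC γ⁻¹ S v).2 hv))
      rw [← (hPLC K M).2.2.1, mul_inv_cancel, (hPLC K M).2.1] at h3
      exact h3
    rw [map_mul, map_inv, c1, cl_inv c1, add_neg_eq_zero] at h2
    exact h2
  have hs : ∀ v, cl (Function.surjInv c2 v) = v := Function.surjInv_eq c2
  let f : (M ≃ₐ[K] M) → (V →+ V) := fun γ =>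
    { toFun := fun v => cl (gU γ (Function.surjInv c2 v))
      map_zero' := by
        have h1 := hwd γ (Function.surjInv c2 0) 1 (by rw [hs, cl_one c1])
        rw [h1, map_one, cl_one c1]
      map_add' := fun v w => by
        rw [← c1, ← map_mul]
        exact hwd γ _ _ (by rw [hs, c1, hs, hs]) }
  have hf : ∀ γ x, f γ (cl x) = cl (gU γ x) := fun γ x => hwd γ _ _ (hs _)
  refine ⟨{ toFun := fun γ => (f γ).toZModLinearMap ℓ, map_one' := ?_, map_mul' := ?_ }, ?_⟩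
  · apply LinearMap.ext
    intro v
    obtain ⟨x, rfl⟩ := c2 v
    show f 1 (cl x) = cl x
    rw [hf, gU_one]
  · intro γ δ
    apply LinearMap.ext
    intro v
    obtain ⟨x, rfl⟩ := c2 v
    show f (γ * δ) (cl x) = f γ (f δ (cl x))
    rw [hf, hf, hf, gU_mul]
  · intro γ x
    exact hf γ x

end

theorem t_VM1 (hPLC : S_PLC) (hLZ : S_LZ) (hVSP : S_VSP) (hLAG : S_LAG) (hVLG : S_VLG)
    (hVTR : S_VTR) : S_VM1 := by
  classical
  intro ℓ hpr hℓ2 K M _ _ _ _ _ _ ζ hζ hG sv H heqv B₀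
  haveI : Fact ℓ.Prime := ⟨hpr⟩
  haveI : NeZero ℓ := ⟨hpr.ne_zero⟩
  have hpos : 0 < ℓ := hpr.pos
  obtain ⟨-, h1, hmulg, hlo, -, -, hup, -, ⟨S₀, hS₀⟩, -⟩ := hPLC K M
  have hζM : IsPrimitiveRoot (algebraMap K M ζ) ℓ := hζ.map_of_injective (algebraMap K M).injective
  obtain ⟨TK, hTK⟩ := hLZ ℓ hpr hℓ2 K ζ hζ
  obtain ⟨TM, hTM⟩ := hLZ ℓ hpr hℓ2 M _ hζM
  refine ⟨TK ∪ TM.image lo ∪ S₀ ∪ B₀.image lo, fun S hS => ?_⟩
  have hS1 : TK ⊆ S := fun v hv => hS (by simp [hv])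
  have hS2 : ∀ w ∈ TM, (lo w : Pl K) ∈ S := fun w hw =>
    hS (by
      rw [Finset.mem_union, Finset.mem_union, Finset.mem_union]
      exact Or.inl (Or.inl (Or.inr (Finset.mem_image_of_mem _ hw))))
  have hS3 : S₀ ⊆ S := fun v hv => hS (by simp [hv])
  have hS4 : ∀ w ∈ B₀, (lo w : Pl K) ∈ S := fun w hw =>
    hS (by
      rw [Finset.mem_union]
      exact Or.inr (Finset.mem_image_of_mem _ hw))
  obtain ⟨-, -, hgenK, hinjK, -⟩ := hTK S hS1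
  refine ⟨hS4, hgenK, hinjK, fun η => ?_⟩
  have hSm : ∀ w : Pl M, w ∉ up S ↔ (lo w : Pl K) ∉ S := fun w => not_congr (hup S w)
  obtain ⟨hSne, hab, hgen, hinj, hcard⟩ := hTM (up S) fun w hw => (hup S w).2 (hS2 w hw)
  have hunr : Unr K M S := fun w hw => hS₀ w fun h => hw (hS3 h)
  obtain ⟨V, i1, i2, i3, ψ, cl, c1, c2, c3, c4, c5, c6, c7⟩ := hVSP ℓ hpr hℓ2 M _ hζM sv H (up S)
  have C : Ctx ℓ M sv (up S) V ψ cl := ⟨hpr, H, hab, hgen, hinj, c1, c2, c3, c6⟩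
  obtain ⟨av, hav⟩ := exists_av hPLC hVTR hpr S cl c1 c2 c3
  have hinv : ∀ γ x y, ψ (av γ x) (av γ y) = ψ x y := by
    intro γ x y
    obtain ⟨a, rfl⟩ := c2 x
    obtain ⟨b, rfl⟩ := c2 y
    rw [hav, hav, c6, c6, ← VDI.sum_up hPLC γ S]
    exact Finset.sum_congr rfl fun w _ => heqv γ w a b
  -- the global classes
  obtain ⟨L0, hL0⟩ : ∃ L0, L0 = clS c1 ℓ (Sg ℓ (up S) (fun _ => ⊤)) := ⟨_, rfl⟩
  have z0 : ∀ z, z ∈ L0 ↔ ∃ x, (∀ v, v ∉ up S → (ℓ : ℤ) ∣ od v x) ∧ cl x = z := by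
    intro z
    rw [hL0, mem_clS]
    constructor
    · rintro ⟨x, hx, hxz⟩
      exact ⟨x, fun v hv => (pw_od hpos v x).1 (hx.2 v hv), hxz⟩
    · rintro ⟨x, hx, hxz⟩
      exact ⟨x, ⟨fun v _ => Subgroup.mem_top _, fun v hv => (pw_od hpos v x).2 (hx v hv)⟩, hxz⟩
  have iso0 : ∀ x ∈ L0, ∀ y ∈ L0, ψ x y = 0 := by
    intro x hx y hy
    obtain ⟨a, ha, rfl⟩ := (z0 x).1 hx
    obtain ⟨b, hb, rfl⟩ := (z0 y).1 hy
    exact C.prodS a b ha hb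
  have st0 : ∀ γ, ∀ x ∈ L0, av γ x ∈ L0 := by
    intro γ x hx
    obtain ⟨a, ha, rfl⟩ := (z0 x).1 hx
    rw [hav]
    refine (z0 _).2 ⟨_, fun v hv => ?_, rfl⟩
    rw [od_gU hPLC]
    exact ha _ fun h => hv ((gp_up hPLC γ⁻¹ S v).1 h)
  have card0 : Nat.card L0 ^ 2 = Nat.card V := by
    have h1 : Nat.card L0 = (cl '' ((Sg ℓ (up S : Finset (Pl M)) (fun _ => ⊤) : Subgroup Mˣ) : Set Mˣ)).ncard := by
      rw [hL0]
      exact Nat.card_coe_set_eq _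
    rw [h1, c7]
    refine hcard V cl fun x y => ?_
    rw [← c3, c1, cl_inv c1, add_neg_eq_zero]
  obtain ⟨hlag1, hlag2⟩ := hLAG ℓ hℓ2 V ψ c4 c5
  obtain ⟨L1', hcompl', iso1'⟩ := hlag2 L0 iso0 card0
  obtain ⟨L1, hcompl, iso1, st1⟩ := hVLG ℓ (M ≃ₐ[K] M) hG V av ψ c4 hinv L0 L1' st0 iso0 hcompl' iso1'
  obtain ⟨π, hπ⟩ : ∃ π : V →ₗ[ZMod ℓ] L0, ∀ x, x - (π x : V) ∈ L1 :=
    ⟨Submodule.projectionOnto L0 L1 hcompl, fun x => Submodule.sub_projection_mem hcompl x⟩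
  -- uniformizers
  have hP : ∀ q : Pl M, ∃ p : Mˣ, (∀ v, v ∉ up S → v ≠ q → od v p = 0) ∧ (q ∉ up S → od q p = -1) ∧
      cl p ∈ L1 := by
    intro q
    obtain ⟨y, hy⟩ := hgen (Pi.single (M := fun _ : Pl M => ℤ) q 1)
      ((Set.finite_singleton q).subset (by
        intro v hv
        by_contra hc
        exact hv (Pi.single_eq_of_ne hc _)))
    obtain ⟨x, hx, hx'⟩ := (z0 _).1 (π (cl y)).2
    obtain ⟨x0, hx0, hx0'⟩ := C.unit_rep x hx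
    refine ⟨y * x0⁻¹, fun v hv hvq => ?_, fun hq => ?_, ?_⟩
    · rw [od_mul, od_inv, hx0' v hv, od_eq (hy v hv), Pi.single_eq_of_ne hvq]
      simp
    · rw [od_mul, od_inv, hx0' q hq, od_eq (hy q hq), Pi.single_eq_same]
      simp
    · rw [c1, cl_inv c1, hx0, hx', ← sub_eq_add_neg]
      exact hπ _
  choose P pP pP1 pL using hP
  obtain ⟨u, hu⟩ : ∃ u, u = π (cl (kU η)) := ⟨_, rfl⟩
  obtain ⟨d1, hd1⟩ : ∃ d1, d1 = cl (kU η) - (u : V) := ⟨_, rfl⟩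
  have d1m : d1 ∈ L1 := by
    rw [hd1, hu]
    exact hπ _
  have hee : (u : V) + d1 = cl (kU η) := by
    rw [hd1, add_sub_cancel]
  have C2 : Ctx2 ℓ M sv (up S) V ψ cl (kU η) L0 L1 ⊤ P u d1 :=
    ⟨C, z0, hcompl, iso1, fun _ _ => trivial, pP, pP1, pL, d1m, hee⟩
  refine ⟨V, i1, i2, i3, av, ψ, cl, L0, L1, P, u, d1, ⟨C2, hSne, hunr, hG, c4, c5, hinv, iso0, hav, st0,
    st1, fun γ w hw => ?_, heqv⟩⟩
  have hwS : w ∉ up S := (hSm w).2 hw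
  have e1 : cl (P (gp γ w) * (gU γ (P w))⁻¹) = cl (P (gp γ w)) - av γ (cl (P w)) := by
    rw [c1, cl_inv c1, ← hav, sub_eq_add_neg]
  have e2 : cl (P (gp γ w) * (gU γ (P w))⁻¹) ∈ L0 := by
    refine (z0 _).2 ⟨_, fun v hv => ?_, rfl⟩
    have hv' : gp γ⁻¹ v ∉ up S := fun h => hv ((gp_up hPLC γ⁻¹ S v).1 h)
    rw [od_mul, od_inv, od_gU hPLC]
    by_cases h2 : v = gp γ w
    · have h3 : gp γ⁻¹ v = w := by
        rw [h2, ← hmulg, inv_mul_cancel, h1]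
      rw [h3, ← h2, pP1 v hv, pP1 w hwS]
      simp
    · have h3 : gp γ⁻¹ v ≠ w := by
        intro h4
        apply h2
        rw [← h4, ← hmulg, mul_inv_cancel, h1]
      rw [pP _ v hv h2, pP w _ hv' h3]
      simp
  have e3 : cl (P (gp γ w) * (gU γ (P w))⁻¹) ∈ L1 := by
    rw [e1]
    exact L1.sub_mem (pL _) (st1 γ _ (pL _))
  have e4 := Submodule.disjoint_def.1 hcompl.disjoint _ e2 e3
  rw [e1] at e4
  exact sub_eq_zero.1 e4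

end Pool.Agent.T3h73.SG.VM1
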