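import Pool.Agent.T3h73.SG.T_VDI

/-!
# Project SG, task VM2 (helper49): the model

The proof follows `t_MDNW` (helper1).
-/

set_option autoImplicit false
set_option linter.all false

open NumberField IsDedekindDomain Polynomial

namespace Pool.Agent.T3h73.SG.VM2

open Pool.Agent.T3h73.SL (Pl IsP Pk loc Sg)
open Pool.Agent.T3h73.SD (Sv LN SymSys ee TYPQ VT S_SV S_CHS S_VSP S_LZ S_LAG S_DK)
open Pool.Agent.T3h73.SD.MDL
open Pool.Agent.T3h73.SN (Sz tens inc Lcv tor δu gu S_LCV S_LLW S_LNZ)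
open Pool.Agent.T3h73.SN.DICW (od_gu cl_gu_symm)
open Pool.Agent.Y713.SE Pool.Agent.Y713.SE.Dat

lemma isP_loc {ℓ : ℕ} {M : Type} [Field M] [NumberField M] {x : Mˣ} (h : IsP ℓ x) (v : Pl M) :
    IsP ℓ (loc v x) := by
  obtain ⟨z, hz⟩ := h
  exact ⟨loc v z, by rw [hz, map_pow]⟩

section
variable {ℓ : ℕ} {K M : Type} [Field K] [NumberField K] [Field M] [NumberField M] [Algebra K M]

lemma gU_kU (γ : M ≃ₐ[K] M) (η : Kˣ) : gU γ (kU η : Mˣ) = kU η := by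
  apply Units.ext
  exact γ.commutes (η : K)

lemma gU_gu {n : ℕ} (D : Dat ℓ n M) (pm : (M ≃ₐ[K] M) →* Equiv.Perm (Fin n))
    (hDe : ∀ (γ : M ≃ₐ[K] M) (i : Fin n), γ (D.e i) = D.e (pm γ i)) (γ : M ≃ₐ[K] M) (i j : Fin n) :
    gu D (pm γ i) (pm γ j) = gU γ (gu D i j) := by
  by_cases h : i = j
  · subst h
    unfold gu
    rw [dif_pos rfl, dif_pos rfl, map_one]
  · have h' : pm γ i ≠ pm γ j := fun hh => h ((pm γ).injective hh)
    unfold gu
    rw [dif_neg h, dif_neg h']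
    apply Units.ext
    show D.e (pm γ i) - D.e (pm γ j) = γ (D.e i - D.e j)
    rw [map_sub, hDe, hDe]

variable [IsGalois K M]

/-- the elements `P (gp g p)` and `gU g (P p)` differ by an `ℓ`-th power -/
lemma P_gp (hPLC : S_PLC) {S : Finset (Pl K)} {sv : Pl M → Mˣ → Mˣ → ZMod ℓ} {V : Type} [AddCommGroup V]
    [Module (ZMod ℓ) V] {av : (M ≃ₐ[K] M) →* Module.End (ZMod ℓ) V}
    {ψ : V →ₗ[ZMod ℓ] V →ₗ[ZMod ℓ] ZMod ℓ} {cl : Mˣ → V} {η : Kˣ}
    {L0 L1 : Submodule (ZMod ℓ) V} {P : Pl M → Mˣ} {u : L0} {d1 : V}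
    (C : CtV ℓ K M S sv V av ψ cl η L0 L1 P u d1) (g : M ≃ₐ[K] M) (p : Pl M)
    (hp : (lo p : Pl K) ∉ S) : IsP ℓ (P (gp g p) * (gU g (P p))⁻¹) := by
  obtain ⟨-, h1, hmul, hlo, -, -, hup, -⟩ := hPLC K M
  have hSm : ∀ w : Pl M, w ∉ up S ↔ (lo w : Pl K) ∉ S := fun w => not_congr (hup S w)
  refine C.c2.ctx.inj _ ?_ fun v hv => ?_
  · rw [← C.c2.ctx.ker, C.c2.ctx.mul, cl_inv C.c2.ctx.mul, C.hP g p hp, C.hav, add_neg_cancel]
  · rw [pw_od C.c2.ctx.pr.pos, od_mul, od_inv]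
    have e1 : od v (gU g (P p)) = od (gp g⁻¹ v) (P p) := by
      have h2 := VDI.od_gp hPLC g (gp g⁻¹ v) (P p)
      rw [← hmul, mul_inv_cancel, h1] at h2
      exact h2
    have hv' : gp g⁻¹ v ∉ up S := by
      rw [hSm, hlo]
      exact (hSm v).1 hv
    rw [e1]
    by_cases h2 : v = gp g p
    · have h3 : gp g⁻¹ v = p := by
        rw [h2, ← hmul, inv_mul_cancel, h1]
      rw [h3, ← h2, C.c2.pP1 v hv, C.c2.pP1 p ((hSm p).2 hp)]
      simp
    · have h3 : gp g⁻¹ v ≠ p := by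
        intro h4
        apply h2
        rw [← h4, ← hmul, mul_inv_cancel, h1]
      rw [C.c2.pP _ v hv h2, C.c2.pP p _ hv' h3]
      simp

end

theorem t_VM2 (hPLC : S_PLC) (hCHS : S_CHS) (hLCV : S_LCV) (hLLW : S_LLW) (hVLL : S_VLL) : S_VM2 := by
  classical
  intro ℓ n hfact hℓ2 K M _ _ _ _ _ _ pm hG S sv V _ _ _ av ψ cl η L0 L1 P u d1 C D hDe hsepK a₀ ha₁ ha₂
  obtain ⟨-, h1, hmulg, hlo, -, -, hup, -⟩ := hPLC K M
  have hpr : ℓ.Prime := hfact.out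
  have hpos : 0 < ℓ := hpr.pos
  haveI : NeZero ℓ := ⟨hpr.ne_zero⟩
  have hSm : ∀ w : Pl M, w ∉ up S ↔ (lo w : Pl K) ∉ S := fun w => not_congr (hup S w)
  have hsep : ∀ v : Pl M, v ∉ up S → D.Sep1 v := fun v hv => hsepK v ((hSm v).1 hv)
  have C2 := C.c2
  have c1 := C2.ctx.mul
  have ha0 : (a₀ : ZMod ℓ) ≠ 0 := by
    intro h
    rw [ZMod.natCast_eq_zero_iff] at h
    exact absurd (Nat.le_of_dvd ha₁ h) (not_le.2 ha₂)
  have hodd : Odd ℓ := hpr.odd_of_ne_two hℓ2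
  obtain ⟨𝔪, h𝔪0, h𝔪c, h𝔪⟩ := hCHS ℓ hpr hℓ2 M D.ζ D.hζ sv C2.ctx.hs (up S) C2.ctx.ab C.ne
  obtain ⟨π, hπ⟩ : ∃ π : V →ₗ[ZMod ℓ] L0, ∀ x, x - (π x : V) ∈ L1 :=
    ⟨Submodule.projectionOnto L0 L1 C2.compl, fun x => Submodule.sub_projection_mem C2.compl x⟩
  obtain ⟨LL', isoL', -, zL'⟩ := hLLW ℓ n hℓ2 M D hG.hn2 sv C2.ctx.hs (up S) V ψ cl c1 C2.ctx.surj
    C2.ctx.ker C.alt C.nd C2.ctx.psi
  -- the classes of the differences
  have gm : ∀ i j, cl (gu D i j) ∈ L0 := by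
    intro i j
    rw [C2.z0]
    refine ⟨_, fun v hv => ?_, rfl⟩
    rw [od_gu D (hsep v hv)]
    exact dvd_zero _
  obtain ⟨g, hg⟩ : ∃ g : Fin n → Fin n → L0, ∀ i j, g i j =
      (a₀ : ZMod ℓ)⁻¹ • (⟨cl (gu D i j), gm i j⟩ : L0) := ⟨_, fun i j => rfl⟩
  have hg1 : ∀ i j, (a₀ : ZMod ℓ) • (g i j : V) = cl (gu D i j) := by
    intro i j
    rw [hg, Submodule.coe_smul, smul_smul, mul_inv_cancel₀ ha0, one_smul]
  have gsymm : ∀ i j, g i j = g j i := by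
    intro i j
    rw [hg, hg]
    congr 1
    exact Subtype.ext (cl_gu_symm hodd D c1 i j)
  have gdiag : ∀ i, g i i = 0 := by
    intro i
    rw [hg]
    have h2 : (⟨cl (gu D i i), gm i i⟩ : L0) = 0 := Subtype.ext (by
      show cl (gu D i i) = 0
      have h3 : gu D i i = 1 := by
        unfold gu
        rw [dif_pos rfl]
      rw [h3, cl_one c1])
    rw [h2, smul_zero]
  have ginv : ∀ γ i j, (g (pm γ i) (pm γ j) : V) = av γ (g i j) := by
    intro γ i j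
    rw [hg, hg, Submodule.coe_smul, Submodule.coe_smul, map_smul]
    congr 1
    show cl (gu D (pm γ i) (pm γ j)) = av γ (cl (gu D i j))
    rw [C.hav, gU_gu D pm hDe]
  -- the invariance of `u` and `d1`
  have huv : ∀ γ, av γ (u : V) = u ∧ av γ d1 = d1 := by
    intro γ
    have e1 : av γ (u : V) + av γ d1 = u + d1 := by
      rw [← map_add, C2.e, C.hav, gU_kU]
    have e2 : av γ (u : V) - u ∈ L0 := L0.sub_mem (C.st0 γ _ u.2) u.2
    have e3 : av γ (u : V) - u = d1 - av γ d1 := by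
      rw [sub_eq_sub_iff_add_eq_add, e1, add_comm]
    have e4 : av γ (u : V) - u ∈ L1 := by
      rw [e3]
      exact L1.sub_mem C2.d1m (C.st1 γ _ C2.d1m)
    have e5 := Submodule.disjoint_def.1 C2.compl.disjoint _ e2 e4
    refine ⟨sub_eq_zero.1 e5, ?_⟩
    rw [e3] at e5
    exact (sub_eq_zero.1 e5).symm
  -- the subspace of the local conditions
  have hL1 : ∀ (v : Pl M) (x y : Fin n → Mˣ),
      (fun i => loc v (x i)) ∈ Lcv (D.base (v.adicCompletion M)) →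
      (fun i => loc v (y i)) ∈ Lcv (D.base (v.adicCompletion M)) →
      (fun i => loc v (x i * y i)) ∈ Lcv (D.base (v.adicCompletion M)) := by
    intro v x y hx hy
    have h := (hLCV ℓ n hℓ2 (v.adicCompletion M) (D.base (v.adicCompletion M))).1 _ hx _ hy
    have e : (fun i => loc v (x i * y i)) = (fun i => loc v (x i)) * (fun i => loc v (y i)) := by
      funext i
      rw [map_mul]
      rfl
    rw [e]
    exact h
  have hL0 : ∀ v : Pl M, (fun _ : Fin n => loc v (1 : Mˣ)) ∈ Lcv (D.base (v.adicCompletion M)) := by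
    intro v
    refine (hLCV ℓ n hℓ2 (v.adicCompletion M) (D.base (v.adicCompletion M))).2.1 _ fun i => ?_
    refine ⟨1, ?_⟩
    show loc v (1 : Mˣ) = 1 ^ ℓ
    rw [map_one, one_pow]
  have hLp : ∀ (v : Pl M) (x : Fin n → Mˣ) (k : ℕ),
      (fun i => loc v (x i)) ∈ Lcv (D.base (v.adicCompletion M)) →
      (fun i => loc v (x i ^ k)) ∈ Lcv (D.base (v.adicCompletion M)) := by
    intro v x k hx
    induction k with
    | zero =>
      simp only [pow_zero]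
      exact hL0 v
    | succ k ih =>
      simp only [pow_succ]
      exact hL1 v (fun i => x i ^ k) x ih hx
  let I : Submodule (ZMod ℓ) (Sz ℓ n V) :=
    { carrier := {y | InvF pm av (y : Fin n → V) ∧ ∃ x : Fin n → Mˣ,
        (∀ v ∈ up S, (fun i => loc v (x i)) ∈ Lcv (D.base (v.adicCompletion M))) ∧
        ∀ i, (y : Fin n → V) i = cl (x i)}
      add_mem' := by
        rintro y y' ⟨hi, x, hx, hy⟩ ⟨hi', x', hx', hy'⟩
        refine ⟨fun γ i => ?_, fun i => x i * x' i, fun v hv => hL1 v x x' (hx v hv) (hx' v hv),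
          fun i => ?_⟩
        · show (y : Fin n → V) (pm γ i) + (y' : Fin n → V) (pm γ i) =
            av γ ((y : Fin n → V) i + (y' : Fin n → V) i)
          rw [hi γ i, hi' γ i, map_add]
        · show (y : Fin n → V) i + (y' : Fin n → V) i = _
          rw [hy, hy', c1]
      zero_mem' := ⟨fun γ i => by
          show (0 : V) = av γ 0
          rw [map_zero], fun _ => 1, fun v _ => hL0 v, fun i => (cl_one c1).symm⟩
      smul_mem' := by
        rintro c y ⟨hi, x, hx, hy⟩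
        refine ⟨fun γ i => ?_, fun i => x i ^ c.val, fun v hv => hLp v x c.val (hx v hv), fun i => ?_⟩
        · show c • (y : Fin n → V) (pm γ i) = av γ (c • (y : Fin n → V) i)
          rw [hi γ i, map_smul]
        · show c • (y : Fin n → V) i = _
          rw [hy, cl_powval (ℓ := ℓ) c1] }
  have hI1 : ∀ y ∈ I, InvF pm av (y : Fin n → V) := fun y hy => hy.1
  have hI2 : ∀ y ∈ I, ∀ y' ∈ I, ∑ i, ψ ((y : Fin n → V) i) ((y' : Fin n → V) i) = 0 := by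
    rintro y ⟨-, x, hx, hy⟩ y' ⟨-, x', hx', hy'⟩
    exact isoL' y (zL' x hx y hy) y' (zL' x' hx' y' hy')
  obtain ⟨LL, hILL, LLinv, isoL, cardL⟩ := hVLL ℓ n hℓ2 hG.hn hG.hn2 (M ≃ₐ[K] M) pm hG.hG V av ψ
    C.alt C.nd C.inv L0 L1 C2.compl C.iso0 C2.iso1 C.st0 C.st1 I hI1 hI2
  refine ⟨𝔪, LL, π, g, ⟨⟨hG, C.alt, C.nd, C2.compl, C.iso0, C2.iso1, hπ, C2.d1m, C.inv, C.st0, C.st1,
    fun γ => (huv γ).1, fun γ => (huv γ).2, LLinv, isoL, cardL, gsymm, gdiag, ginv⟩,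
    fun w _ => C2.pL w, C.hP, ⟨C.unr, C.hG, ⟨h𝔪0, h𝔪c, ?_, ?_, ?_⟩, ?_⟩⟩, hg1,
    fun x hx y hy hyi => hILL ⟨hyi, x, hx, hy⟩⟩
  · intro h h' q
    show ψ ((h + h' : L0) : V) (cl (P q)) = _
    rw [Submodule.coe_add, map_add, LinearMap.add_apply]
  · intro p q hp hq hpq
    exact C2.symm hp hq hpq
  · intro h j B hB hj
    exact C2.char 𝔪 h𝔪 h j B hB hj
  · intro γ p q hp hq
    have H := C2.ctx.hs
    show sv (gp γ q) (P (gp γ p)) (P (gp γ q)) = sv q (P p) (P q)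
    rw [sl_of_isP H _ (isP_loc (P_gp hPLC C γ p hp) _), s_anti H,
      sl_of_isP H _ (isP_loc (P_gp hPLC C γ q hq) _), ← s_anti H, C.eqv]

end Pool.Agent.T3h73.SG.VM2
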