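import Pool.Agent.T3h73.SG.StmV

/-! # Project SG, task VM3: the model controls the arithmetic of the curves -/

set_option autoImplicit false
set_option linter.all false

open NumberField IsDedekindDomain Polynomial

namespace Pool.Agent.T3h73.SG.VM3

open Pool.Agent.T3h73.SL (Pl IsP Pk loc Sg)
open Pool.Agent.T3h73.SD (Sv LN SymSys ee TYPQ VT S_SV S_CHS S_VSP S_LZ S_LAG S_DK)
open Pool.Agent.T3h73.SD.MDL
open Pool.Agent.T3h73.SN (Sz tens inc Lcv tor δu gu S_LCV S_LLW S_LNZ)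
open Pool.Agent.Y713.SE Pool.Agent.Y713.SE.Dat

lemma gu_val {ℓ n : ℕ} {E : Type} [Field E] (D : Dat ℓ n E) {i j : Fin n} (h : i ≠ j) :
    (gu D i j : E) = D.e i - D.e j := by
  unfold gu
  rw [dif_neg h]
  rfl

section
variable {K M : Type} [Field K] [NumberField K] [Field M] [NumberField M] [Algebra K M] [IsGalois K M]

lemma up_disj (hPLC : S_PLC) {P S : Finset (Pl K)} (h : Disjoint P S) :
    Disjoint (up P : Finset (Pl M)) (up S) := by
  have hm := (hPLC K M).2.2.2.2.2.2.1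
  rw [Finset.disjoint_left]
  intro w h1 h2
  exact Finset.disjoint_left.1 h ((hm P w).1 h1) ((hm S w).1 h2)

open Classical in
lemma sum_up (hPLC : S_PLC) (P : Finset (Pl K)) {A : Type} [AddCommMonoid A] (f : Pl M → A) :
    ∑ q ∈ P, ∑ w ∈ up {q}, f w = ∑ w ∈ up P, f w := by
  have hm := (hPLC K M).2.2.2.2.2.2.1
  rw [← Finset.sum_biUnion]
  · refine Finset.sum_congr ?_ fun _ _ => rfl
    ext w
    rw [Finset.mem_biUnion, hm]
    constructor
    · rintro ⟨q, hq, hw⟩
      rw [hm, Finset.mem_singleton] at hw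
      rwa [hw]
    · intro hw
      exact ⟨_, hw, (hm _ w).2 (Finset.mem_singleton_self _)⟩
  · intro q _ q' _ hqq
    rw [Function.onFun, Finset.disjoint_left]
    intro w h1 h2
    rw [hm, Finset.mem_singleton] at h1 h2
    exact hqq (h1.symm.trans h2)

end

theorem t_VM3 (hPLC : S_PLC) (hVEQ : S_VEQ) (hVM1 : S_VM1) (hVM2 : S_VM2) (hVDI : S_VDI)
    (hVNP : S_VNP) (hLCV : S_LCV) (hDMN : S_DMN) : S_VM3 := by
  classical
  intro ℓ n hfact hℓ2 K M _ _ _ _ _ _ pm hgpm ζ hζ e he hpm F hF a₀ ha₁ ha₂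
  have hpr : ℓ.Prime := hfact.out
  have hpos : 0 < ℓ := hpr.pos
  haveI : NeZero ℓ := ⟨hpr.ne_zero⟩
  have hℓM : (ℓ : M) ≠ 0 := Nat.cast_ne_zero.2 hpr.ne_zero
  have hζM : IsPrimitiveRoot (algebraMap K M ζ) ℓ :=
    hζ.map_of_injective (algebraMap K M).injective
  have hm := (hPLC K M).2.2.2.2.2.2.1
  have hsurj := (hPLC K M).2.2.2.2.2.1
  -- the curves
  let DD : Kˣ → Dat ℓ n M := fun δ =>
    ⟨hpr, hℓM, algebraMap K M ζ, hζM, algebraMap K M (δ : K) ^ a₀,
      pow_ne_zero _ ((_root_.map_ne_zero _).2 δ.ne_zero), e, he, hgpm.hn⟩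
  obtain ⟨sv, H, hsv⟩ := hVEQ ℓ hpr hℓ2 K M ζ hζ hgpm.hG
  have hfin : (⋃ i, ⋃ j, {v : Pl M | od v (gu (DD 1) i j) ≠ 0}).Finite :=
    Set.finite_iUnion fun i => Set.finite_iUnion fun j => fin_od _
  obtain ⟨T₀, hT₀⟩ := hVM1 ℓ hpr hℓ2 K M ζ hζ hgpm.hG sv H hsv hfin.toFinset
  refine ⟨T₀, fun S hS η => ?_⟩
  obtain ⟨hbad, hgen, hinj, hη⟩ := hT₀ S hS
  obtain ⟨V, i1, i2, i3, av, ψ, cl, L0, L1, P, u, d1, C⟩ := hη η
  have hgu : ∀ w : Pl M, (lo w : Pl K) ∉ S → ∀ i j, od w (gu (DD 1) i j) = 0 := by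
    intro w hw i j
    by_contra hc
    refine hw (hbad w ?_)
    rw [Set.Finite.mem_toFinset, Set.mem_iUnion]
    refine ⟨i, ?_⟩
    rw [Set.mem_iUnion]
    exact ⟨j, hc⟩
  have hsep : ∀ (δ : Kˣ) (w : Pl M), (lo w : Pl K) ∉ S → (DD δ).Sep1 w := by
    intro δ v hv i j hij
    have h1 := (val_one_iff v (gu (DD 1) i j)).2 (hgu v hv i j)
    rwa [gu_val (DD 1) hij] at h1
  obtain ⟨𝔪, LL, π, g, hM, hg, hLL⟩ := hVM2 ℓ n hℓ2 K M pm hgpm S sv V av ψ cl η L0 L1 P u d1 C
    (DD η) hpm (hsep η) a₀ ha₁ ha₂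
  have hC2 := C.c2
  refine ⟨𝔪, V, i1, i2, i3, av, ψ, L0, L1, LL, π, u, d1, g, fun w => cl (P w),
    fun p q => sv q (P p) (P q), hM, ?_, ?_, hinj⟩
  · intro δ B h1 hB h2 h3
    -- the local conditions over `M`
    have h1' : ∀ w ∈ up S, ∃ z, loc w (kU δ : Mˣ) = loc w (kU η : Mˣ) * z ^ ℓ := by
      intro w hw
      obtain ⟨z, hz⟩ := h1 _ ((hm S w).1 hw)
      have h4 : IsP ℓ (loc (lo w : Pl K) (δ * η⁻¹)) := by
        refine ⟨z, ?_⟩
        rw [map_mul, map_inv, hz, mul_comm (loc _ η), mul_inv_cancel_right]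
      obtain ⟨y, hy⟩ := (hVNP ℓ hpr K M).1 w _ h4
      refine ⟨y, ?_⟩
      rw [← hy, map_mul, map_mul, map_inv, map_inv, mul_comm (loc w (kU δ : Mˣ)), mul_inv_cancel_left]
    have hval : ∀ w : Pl M, (lo w : Pl K) ∉ S →
        w.valuation M ((kU δ : Mˣ) : M) = (lo w : Pl K).valuation K (δ : K) := fun w hw =>
      (C.unr w hw).1 (δ : K)
    have h2' : ∀ w : Pl M, (lo w : Pl K) ∈ B →
        Pw ℓ (w.valuation M ((kU δ : Mˣ) : M) * WithZero.exp (1 : ℤ)) := by
      intro w hw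
      rw [hval w (Finset.disjoint_left.1 hB hw)]
      exact h2 _ hw
    have h3' : ∀ w : Pl M, (lo w : Pl K) ∉ S → (lo w : Pl K) ∉ B →
        Pw ℓ (w.valuation M ((kU δ : Mˣ) : M)) := by
      intro w hw hwB
      rw [hval w hw]
      exact h3 _ hw hwB
    have hsum := (hC2.sum (kU δ) (up B) h1' (fun w hw => by
        have h := h2' w ((hm B w).1 hw)
        rw [val_od, ← WithZero.exp_add, pw_exp' hpos] at h
        exact h)
      (fun w hw hwB => (pw_od hpos w (kU δ)).1 (h3' w (fun h => hw ((hm S w).2 h))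
        (fun h => hwB ((hm B w).2 h))))).1
    refine ⟨?_, fun hne hns => ?_⟩
    · rw [← hsum]
      exact sum_up hPLC B (fun w => cl (P w))
    · have hL : ∀ w ∈ (up S : Finset (Pl M)), Lcv ((DD δ).base (w.adicCompletion M)) =
          Lcv ((DD η).base (w.adicCompletion M)) := by
        intro w hw
        obtain ⟨z, hz⟩ := h1' w hw
        refine (hLCV ℓ n hℓ2 _ ((DD η).base (w.adicCompletion M))).2.2.2.2
          ((DD δ).base (w.adicCompletion M)) ((z : w.adicCompletion M) ^ a₀) rfl rfl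
          (pow_ne_zero _ z.ne_zero) ?_
        have h4 := congrArg (fun y : (w.adicCompletion M)ˣ => (y : w.adicCompletion M)) hz
        simp only [Units.val_mul, Units.val_pow_eq_pow_val] at h4
        show algebraMap M (w.adicCompletion M) (algebraMap K M (δ : K) ^ a₀) =
          algebraMap M (w.adicCompletion M) (algebraMap K M (η : K) ^ a₀) *
            ((z : w.adicCompletion M) ^ a₀) ^ ℓ
        rw [map_pow, map_pow]
        have h5 : algebraMap M (w.adicCompletion M) (algebraMap K M (δ : K)) =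
            algebraMap M (w.adicCompletion M) (algebraMap K M (η : K)) *
              (z : w.adicCompletion M) ^ ℓ := h4
        rw [h5]
        ring
      have hmin := hVDI ℓ n hℓ2 hgpm.hn2 K M pm S sv V av ψ cl (kU η) L0 L1 P u d1 hC2 C.hav C.st0
        C.st1 C.hP (kU δ) a₀ ha₁ ha₂ (DD δ) rfl (hsep δ) g hg LL
        (fun x hx y hy hy' => hLL x (fun w hw => by rw [← hL w hw]; exact hx w hw) y hy hy') B hB h1'
        h2' h3' hns
      refine hDMN ℓ n hℓ2 K M pm hgpm (Polynomial.C ((δ : K) ^ a₀) * F) (DD δ) ζ rfl ?_ hpm S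
        (fun w hw => ⟨hsep δ w hw, ?_⟩) hmin
      · rw [Polynomial.map_mul, map_C, hF, map_pow]
        rfl
      · by_contra hc
        exact hw ((hm S w).1 (hC2.ctx.ab w hc))
  · intro B hB hs
    have hs' : ∑ q ∈ up B, cl (P q) = d1 := by
      rw [← sum_up hPLC B (fun w => cl (P w))]
      exact hs
    obtain ⟨d, hd1, hd2, hd3⟩ := hC2.exists_delta (up B) (up_disj hPLC hB) hs'
    have hdB : ∀ w : Pl M, (lo w : Pl K) ∈ B → w.valuation M (d : M) = WithZero.exp (-1 : ℤ) :=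
      fun w hw => hd2 w ((hm B w).2 hw)
    have hd0 : ∀ w : Pl M, (lo w : Pl K) ∉ S → (lo w : Pl K) ∉ B → w.valuation M (d : M) = 1 :=
      fun w hw hwB => hd3 w (fun h => hw ((hm S w).1 h)) (fun h => hwB ((hm B w).1 h))
    obtain ⟨G, hG⟩ : ∃ G, G = Nat.card (M ≃ₐ[K] M) := ⟨_, rfl⟩
    have hlo := (hPLC K M).2.2.2.1
    haveI : Finite (M ≃ₐ[K] M) := inferInstance
    have hG0 : 0 < G := by
      rw [hG]
      exact Nat.card_pos
    have hcG : (Finset.univ : Finset (M ≃ₐ[K] M)).card = G := by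
      rw [hG, Finset.card_univ, Nat.card_eq_fintype_card]
    obtain ⟨nu1, nu2, nu3, nu4⟩ := hVNP ℓ hpr K M
    -- valuations of the norm
    have hNB : ∀ v ∈ B, v.valuation K ((nU d : Kˣ) : K) = WithZero.exp (-(G : ℤ)) := by
      intro v hv
      obtain ⟨w, hw⟩ := (hsurj v).2
      have hw' : (lo w : Pl K) = v := hw
      have hvS : v ∉ S := Finset.disjoint_left.1 hB hv
      have h4 := nu4 S C.unr w (by rw [hw']; exact hvS) d
      rw [hw'] at h4
      rw [h4, Finset.prod_congr rfl fun γ _ => hdB (gp γ w) (by rw [hlo, hw']; exact hv),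
        Finset.prod_const, hcG, ← WithZero.exp_nsmul]
      congr 1
      simp
    have hN0 : ∀ v, v ∉ S → v ∉ B → v.valuation K ((nU d : Kˣ) : K) = 1 := by
      intro v hv hvB
      obtain ⟨w, hw⟩ := (hsurj v).2
      have hw' : (lo w : Pl K) = v := hw
      have h4 := nu4 S C.unr w (by rw [hw']; exact hv) d
      rw [hw'] at h4
      rw [h4]
      exact Finset.prod_eq_one fun γ _ => hd0 (gp γ w) (by rw [hlo, hw']; exact hv)
        (by rw [hlo, hw']; exact hvB)
    -- local behaviour of the norm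
    have hNS : ∀ v ∈ S, IsP ℓ (loc v (nU d * (η ^ G)⁻¹)) := by
      intro v hv
      have h4 : nU d * (η ^ G)⁻¹ = nU (d * (kU η : Mˣ)⁻¹) := by
        rw [map_mul, map_inv]
        congr 2
        apply Units.ext
        show (η ^ G : Kˣ).val = Algebra.norm K (algebraMap K M (η : K))
        rw [Algebra.norm_algebraMap, ← IsGalois.card_aut_eq_finrank, ← hG]
        rfl
      rw [h4]
      refine nu2 v _ fun w hw => ?_
      obtain ⟨z, hz⟩ := hd1 w ((hm S w).2 (by rw [hw]; exact hv))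
      refine ⟨z, ?_⟩
      rw [map_mul, map_inv, hz, mul_comm (loc w (kU η : Mˣ)), mul_inv_cancel_right]
    -- the exponents
    have hcop : Nat.Coprime G ℓ := by
      rw [Nat.coprime_comm, hpr.coprime_iff_not_dvd, hG]
      exact hgpm.hG
    obtain ⟨b, -, hb⟩ := Nat.exists_mul_mod_eq_one_of_coprime hcop hpr.one_lt
    obtain ⟨k, hk⟩ : ∃ k : ℕ, b * G = 1 + k * ℓ := by
      refine ⟨G * b / ℓ, ?_⟩
      have h5 := Nat.mod_add_div (G * b) ℓ
      rw [hb] at h5
      rw [mul_comm b G, mul_comm (G * b / ℓ) ℓ]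
      exact h5.symm
    obtain ⟨y, hy⟩ := hgen (fun v => if v ∈ B then -(k : ℤ) else 0) (by
      refine B.finite_toSet.subset fun v hv => ?_
      by_contra hc
      exact hv (if_neg hc))
    have hyB : ∀ v ∈ B, v.valuation K (y : K) = WithZero.exp (k : ℤ) := by
      intro v hv
      rw [hy v (Finset.disjoint_left.1 hB hv), if_pos hv, neg_neg]
    have hy0 : ∀ v, v ∉ S → v ∉ B → v.valuation K (y : K) = 1 := by
      intro v hv hvB
      rw [hy v hv, if_neg hvB, neg_zero, WithZero.exp_zero]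
    refine ⟨nU d ^ b * y ^ ℓ, fun v hv => ?_, fun v hv => ?_, fun v hv hvB => ?_⟩
    · obtain ⟨z, hz⟩ := hNS v hv
      refine ⟨z ^ b * loc v η ^ k * loc v y, ?_⟩
      have h6 : loc v (nU d) = loc v η ^ G * z ^ ℓ := by
        rw [← hz, map_mul, map_inv, map_pow, mul_comm (loc v (nU d)), mul_inv_cancel_left]
      rw [map_mul, map_pow, map_pow, h6, mul_pow, ← pow_mul, mul_comm G b, hk, pow_add, pow_one,
        pow_mul, mul_pow, mul_pow, ← pow_mul z, ← pow_mul z, mul_comm ℓ b]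
      rw [mul_assoc (loc v η), mul_assoc (loc v η), mul_comm ((loc v η ^ k) ^ ℓ) (z ^ (b * ℓ))]
    · rw [Units.val_mul, Units.val_pow_eq_pow_val, Units.val_pow_eq_pow_val, map_mul, map_pow,
        map_pow, hNB v hv, hyB v hv, ← WithZero.exp_nsmul, ← WithZero.exp_nsmul, ← WithZero.exp_add]
      congr 1
      simp only [nsmul_eq_mul]
      have h7 : (b : ℤ) * G = 1 + k * ℓ := by exact_mod_cast hk
      linear_combination -h7
    · rw [Units.val_mul, Units.val_pow_eq_pow_val, Units.val_pow_eq_pow_val, map_mul, map_pow,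
        map_pow, hN0 v hv hvB, hy0 v hv hvB, one_pow, one_pow, one_mul]

end Pool.Agent.T3h73.SG.VM3
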