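import Pool.Agent.T3h73.SG.StmV
import Pool.Agent.TH115.TC.Compl
import Pool.Agent.T3h73.SL.T_WA

/-! # Project SG, task VNP: local powers and norms -/

set_option autoImplicit false
set_option linter.all false

open NumberField IsDedekindDomain Polynomial WithZero

namespace Pool.Agent.T3h73.SG.VNP

open Pool.Agent.T3h73.SL (Pl IsP Pk loc Sg)
open Pool.Agent.T3h73.SL.Nwt (vv)

section
variable {K M : Type} [Field K] [NumberField K] [Field M] [NumberField M] [Algebra K M]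

lemma isP_up (ℓ : ℕ) (w : Pl M) (e : ℕ) (he0 : 0 < e)
    (he : ∀ x : K, w.valuation M (algebraMap K M x) = (lo w : Pl K).valuation K x ^ e) (x : Kˣ)
    (h : IsP ℓ (loc (lo w : Pl K) x)) : IsP ℓ (loc w (kU x : Mˣ)) := by
  obtain ⟨j, hj, -, -⟩ := Pool.Agent.TH115.GD.exists_compl_map (lo w : Pl K) w (algebraMap K M)
    (fun x hx => by rw [he]; exact pow_le_one' hx e)
    (fun x hx => by rw [he]; exact pow_lt_one₀ zero_le hx he0.ne')
  obtain ⟨z, hz⟩ := h
  refine ⟨Units.map (j : (lo w : Pl K).adicCompletion K →* w.adicCompletion M) z, ?_⟩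
  rw [← map_pow, ← hz]
  apply Units.ext
  exact (hj x).symm

/-- a product of elements close to 1 -/
lemma prod_near {ι : Type} (w : Pl M) (c : WithZero (Multiplicative ℤ)) (hc : c ≤ 1) (f : ι → M)
    (s : Finset ι) (hf : ∀ i ∈ s, w.valuation M (f i - 1) ≤ c) :
    w.valuation M (∏ i ∈ s, f i - 1) ≤ c := by
  classical
  have h1 : ∀ y : M, w.valuation M (y - 1) ≤ c → w.valuation M y ≤ 1 := by
    intro y hy
    have e : y = (y - 1) + 1 := by ring
    rw [e]
    refine (Valuation.map_add _ _ _).trans (max_le (hy.trans hc) ?_)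
    rw [map_one]
  induction s using Finset.induction_on with
  | empty => simp
  | insert a s ha ih =>
    rw [Finset.prod_insert ha]
    have h2 := ih (fun i hi => hf i (Finset.mem_insert_of_mem hi))
    have h3 := hf a (Finset.mem_insert_self a s)
    have e : f a * ∏ i ∈ s, f i - 1 = f a * (∏ i ∈ s, f i - 1) + (f a - 1) := by ring
    rw [e]
    refine (Valuation.map_add _ _ _).trans (max_le ?_ h3)
    rw [map_mul]
    exact (mul_le_mul' (h1 _ h3) h2).trans (by rw [one_mul])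

lemma nU_val [IsGalois K M] (x : Mˣ) : algebraMap K M ((nU x : Kˣ) : K) = ∏ γ : M ≃ₐ[K] M, γ (x : M) := by
  show algebraMap K M (Algebra.norm K (x : M)) = _
  exact Algebra.norm_eq_prod_automorphisms K (x : M)

lemma isP_mul {ℓ : ℕ} {G : Type} [CommGroup G] {x y : G} (hx : IsP ℓ x) (hy : IsP ℓ y) :
    IsP ℓ (x * y) := by
  obtain ⟨a, rfl⟩ := hx
  obtain ⟨b, rfl⟩ := hy
  exact ⟨a * b, (mul_pow _ _ _).symm⟩

/-- approximation of the local roots -/
lemma approx_root (ℓ m : ℕ) (hℓ : ℓ ≠ 0) (T : Finset (Pl M)) (x : Mˣ)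
    (hT : T.Nonempty) (hx : ∀ w ∈ T, IsP ℓ (loc w x)) :
    ∃ z : Mˣ, ∀ w ∈ T, w.valuation M ((x * z ^ ℓ : Mˣ) - 1 : M) ≤ exp (-(m : ℤ)) := by
  classical
  have h1 : ∀ w : Pl M, ∃ d : (w.adicCompletion M)ˣ, w ∈ T → loc w x = d ^ ℓ := by
    intro w
    by_cases hw : w ∈ T
    · obtain ⟨d, hd⟩ := hx w hw
      exact ⟨d, fun _ => hd⟩
    · exact ⟨1, fun h => absurd h hw⟩
  choose d hd using h1
  have hd0 : ∀ w : Pl M, vv w (d w : w.adicCompletion M) ≠ 0 := fun w =>
    (Valuation.ne_zero_iff _).2 (d w).ne_zero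
  obtain ⟨z, hz⟩ := Pool.Agent.T3h73.SL.Wa.approx T
    (fun w => (d w : w.adicCompletion M)⁻¹)
    (fun w => (vv w (d w : w.adicCompletion M))⁻¹ * exp (-(m : ℤ)))
    (fun w => mul_ne_zero (inv_ne_zero (hd0 w)) exp_ne_zero)
  have hu : ∀ w ∈ T, vv w (algebraMap M (w.adicCompletion M) z * d w - 1) < exp (-(m : ℤ)) := by
    intro w hw
    have h2 := hz w hw
    have e : algebraMap M (w.adicCompletion M) z * d w - 1 =
        d w * (algebraMap M (w.adicCompletion M) z - (d w : w.adicCompletion M)⁻¹) := by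
      rw [mul_sub, mul_inv_cancel₀ (d w).ne_zero, mul_comm]
    rw [e, map_mul]
    calc vv w (d w : w.adicCompletion M) *
          vv w (algebraMap M (w.adicCompletion M) z - (d w : w.adicCompletion M)⁻¹)
        < vv w (d w : w.adicCompletion M) *
          ((vv w (d w : w.adicCompletion M))⁻¹ * exp (-(m : ℤ))) :=
          (mul_lt_mul_iff_right₀ (zero_lt_iff.2 (hd0 w))).2 h2
      _ = exp (-(m : ℤ)) := by rw [← mul_assoc, mul_inv_cancel₀ (hd0 w), one_mul]
  have hexp : exp (-(m : ℤ)) ≤ (1 : WithZero (Multiplicative ℤ)) := by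
    rw [← exp_zero, exp_le_exp]; omega
  have hz0 : z ≠ 0 := by
    rintro rfl
    obtain ⟨w, hw⟩ := hT
    have h2 := hu w hw
    rw [map_zero, zero_mul, zero_sub, Valuation.map_neg, map_one] at h2
    exact absurd h2 (not_lt.2 hexp)
  refine ⟨Units.mk0 z hz0, fun w hw => ?_⟩
  have h3 : vv w (algebraMap M (w.adicCompletion M) (((x * (Units.mk0 z hz0) ^ ℓ : Mˣ) : M) - 1)) =
    w.valuation M (((x * (Units.mk0 z hz0) ^ ℓ : Mˣ) : M) - 1) :=
    Pool.Agent.H723R3.valued_algebraMap w _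
  rw [← h3]
  set u := algebraMap M (w.adicCompletion M) z * d w with hudef
  have h4 : algebraMap M (w.adicCompletion M) (((x * (Units.mk0 z hz0) ^ ℓ : Mˣ) : M) - 1) =
      u ^ ℓ - 1 := by
    have h5 : algebraMap M (w.adicCompletion M) (x : M) = (d w : w.adicCompletion M) ^ ℓ := by
      have h50 := congrArg (fun t : (w.adicCompletion M)ˣ => (t : w.adicCompletion M)) (hd w hw)
      simp only [Units.val_pow_eq_pow_val] at h50
      exact h50
    rw [map_sub, map_one, Units.val_mul, map_mul, h5, Units.val_pow_eq_pow_val, map_pow,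
      Units.val_mk0, hudef, mul_pow, mul_comm]
  rw [h4]
  have h6 := hu w hw
  rw [← hudef] at h6
  have h7 : vv w u ≤ 1 := by
    have e : u = (u - 1) + 1 := by ring
    rw [e]
    refine (Valuation.map_add _ _ _).trans (max_le (h6.le.trans hexp) ?_)
    rw [map_one]
  have h8 : u ^ ℓ - 1 = (u - 1) * (∑ i ∈ Finset.range ℓ, u ^ i) := (mul_geom_sum u ℓ).symm
  rw [h8, map_mul]
  have h9 : vv w (∑ i ∈ Finset.range ℓ, u ^ i) ≤ 1 := by
    refine Valuation.map_sum_le _ (fun i _ => ?_)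
    rw [map_pow]
    exact pow_le_one' h7 i
  exact (mul_le_mul' h6.le h9).trans (by rw [mul_one])

end

theorem t_VNP (hPLC : S_PLC) (hNB : Pool.Agent.T3h73.SL.S_NB) : S_VNP := by
  intro ℓ hℓ K M _ _ _ _ _ _
  obtain ⟨hgx, hg1, hgm, hlo, htr, hfin, hup, hfib, hunr, hram⟩ := hPLC K M
  -- valuations of conjugates
  have hgi : ∀ (γ : M ≃ₐ[K] M) (w : Pl M) (y : M),
      w.valuation M (γ y) = (gp γ⁻¹ w).valuation M y := by
    intro γ w y
    have h := hgx γ (gp γ⁻¹ w) y
    rw [← hgm, mul_inv_cancel, hg1] at h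
    exact h
  have h2 : ∀ (v : Pl K) (x : Mˣ), (∀ w : Pl M, lo w = v → IsP ℓ (loc w x)) →
      IsP ℓ (loc v (nU x)) := by
    intro v x hx
    obtain ⟨N, hN1, hN⟩ := hNB ℓ hℓ K v
    obtain ⟨hf, hne⟩ := hfin v
    set c := Nat.card (M ≃ₐ[K] M) with hc
    obtain ⟨z, hz⟩ := approx_root ℓ (N * c) hℓ.ne_zero hf.toFinset x
      (by simpa using hne) (fun w hw => hx w (by simpa using hw))
    obtain ⟨w, hw⟩ := hne
    have hw' : (lo w : Pl K) = v := hw
    have h3 : IsP ℓ (loc v (nU (x * z ^ ℓ))) := by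
      apply hN
      have h4 : w.valuation M (algebraMap K M (((nU (x * z ^ ℓ) : Kˣ) : K) - 1)) ≤
          exp (-((N * c : ℕ) : ℤ)) := by
        rw [map_sub, map_one, nU_val]
        apply prod_near w
        · rw [← exp_zero, exp_le_exp]; omega
        intro γ _
        have h5 : γ ((x * z ^ ℓ : Mˣ) : M) - 1 = γ (((x * z ^ ℓ : Mˣ) : M) - 1) := by
          rw [map_sub, map_one]
        rw [h5, hgi]
        apply hz
        rw [Set.Finite.mem_toFinset]
        show (lo (gp γ⁻¹ w) : Pl K) = v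
        rw [hlo]; exact hw'
      obtain ⟨e, he0, hed, he⟩ := hram w
      rw [he, hw'] at h4
      by_contra h6
      rw [not_le] at h6
      have h7 := pow_lt_pow_left₀ h6 zero_le he0.ne'
      have h8 := lt_of_lt_of_le h7 h4
      rw [← exp_nsmul, exp_lt_exp] at h8
      have h9 : e ≤ c := Nat.le_of_dvd Nat.card_pos hed
      have h10 : (N : ℤ) * e ≤ N * c := by exact_mod_cast Nat.mul_le_mul_left N h9
      simp only [nsmul_eq_mul, Nat.cast_mul] at h8
      nlinarith
    have h11 : (nU x : Kˣ) = nU (x * z ^ ℓ) * (nU z⁻¹) ^ ℓ := by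
      rw [← map_pow, ← map_mul]
      congr 1
      rw [inv_pow, mul_assoc, mul_inv_cancel, mul_one]
    rw [h11, map_mul]
    exact isP_mul h3 ⟨loc v (nU z⁻¹), by rw [map_pow]⟩
  refine ⟨?_, h2, ?_, ?_⟩
  · intro w x hx
    obtain ⟨e, he0, hed, he⟩ := hram w
    exact isP_up ℓ w e he0 he x hx
  · intro hG v x hx
    have h3 := h2 v (kU x) hx
    have h4 : (nU (kU x : Mˣ) : Kˣ) = x ^ Nat.card (M ≃ₐ[K] M) := by
      apply Units.ext
      show Algebra.norm K (algebraMap K M (x : K)) = ((x ^ Nat.card (M ≃ₐ[K] M) : Kˣ) : K)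
      rw [Algebra.norm_algebraMap, Units.val_pow_eq_pow_val, IsGalois.card_aut_eq_finrank]
    rw [h4, map_pow] at h3
    obtain ⟨z, hz⟩ := h3
    set c := Nat.card (M ≃ₐ[K] M) with hc
    have h5 : IsCoprime (c : ℤ) (ℓ : ℤ) := by
      rw [Nat.isCoprime_iff_coprime]
      exact ((Nat.Prime.coprime_iff_not_dvd hℓ).2 hG).symm
    obtain ⟨a, b, hab⟩ := h5
    refine ⟨z ^ a * loc v x ^ b, ?_⟩
    have h6 : loc v x = loc v x ^ (a * (c : ℤ) + b * (ℓ : ℤ)) := by rw [hab, zpow_one]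
    conv_lhs => rw [h6]
    rw [zpow_add, mul_comm a, zpow_mul, zpow_natCast, hz, mul_pow]
    congr 1
    · rw [← zpow_natCast z ℓ, ← zpow_natCast (z ^ a) ℓ, ← zpow_mul, ← zpow_mul, mul_comm]
    · rw [zpow_mul, zpow_natCast]
  · intro S hS w hw x
    obtain ⟨hv, -⟩ := hS w hw
    rw [← hv, nU_val, map_prod]
    have h3 : ∀ γ : M ≃ₐ[K] M, w.valuation M (γ (x : M)) = (gp γ⁻¹ w).valuation M (x : M) :=
      fun γ => hgi γ w _
    simp_rw [h3]
    exact Fintype.prod_equiv (Equiv.inv (M ≃ₐ[K] M)) _ _ (fun γ => rfl)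

end Pool.Agent.T3h73.SG.VNP
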