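import Pool.Agent.T3h73.SG.StmV

/-!
# Project SG, task VUN (helper7): two systems of symbols are proportional
-/

set_option autoImplicit false
set_option linter.all false

open NumberField IsDedekindDomain Polynomial Filter

namespace Pool.Agent.T3h73.SG.VUN

open Pool.Agent.T3h73.SL (Pl IsP Pk loc Sg val_loc)
open Pool.Agent.T3h73.SD (Sv LN VT Dens S_VSP S_LZ S_DK)
open Pool.Agent.T3h73.SD.MDL
open Pool.Agent.T3h73.SN (S_LNZ)
open Pool.Agent.Y713.SE (Pw)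

/-! ### abstract proportionality -/

section abs
variable {ℓ : ℕ} {G : Type} [CommGroup G]

/-- bimultiplicative and antisymmetric -/
structure Bm (s : G → G → ZMod ℓ) : Prop where
  l : ∀ x x' y, s (x * x') y = s x y + s x' y
  r : ∀ x y y', s x (y * y') = s x y + s x y'
  a : ∀ x y, s x y = - s y x

theorem Bm.rpow {s : G → G → ZMod ℓ} (h : Bm s) (x y : G) (n : ℕ) : s x (y ^ n) = n * s x y := by
  induction n with
  | zero =>
    have h1 := h.r x 1 1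
    rw [mul_one] at h1
    rw [pow_zero, Nat.cast_zero, zero_mul]
    exact left_eq_add.1 h1
  | succ n ih =>
    rw [pow_succ, h.r, ih]
    push_cast
    ring

theorem cross [Fact ℓ.Prime] {s s' : G → G → ZMod ℓ} (h : Bm s) (h' : Bm s')
    (hz : ∀ x y, s x y = 0 → s' x y = 0) (x y y1 : G) : s x y * s' x y1 = s x y1 * s' x y := by
  have h1 : s x (y ^ (s x y1).val * y1 ^ (- s x y).val) = 0 := by
    rw [h.r, h.rpow, h.rpow, ZMod.natCast_zmod_val, ZMod.natCast_zmod_val]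
    ring
  have h2 := hz _ _ h1
  rw [h'.r, h'.rpow, h'.rpow, ZMod.natCast_zmod_val, ZMod.natCast_zmod_val] at h2
  linear_combination -h2

theorem cross' [Fact ℓ.Prime] {s s' : G → G → ZMod ℓ} (h : Bm s) (h' : Bm s')
    (hz : ∀ x y, s x y = 0 → s' x y = 0) (x x1 y : G) : s x y * s' x1 y = s x1 y * s' x y := by
  have h1 := cross h h' hz y x x1
  rw [h.a y x, h.a y x1, h'.a y x, h'.a y x1] at h1
  linear_combination h1

theorem prop_const [Fact ℓ.Prime] {s s' : G → G → ZMod ℓ} (h : Bm s) (h' : Bm s')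
    (hz : ∀ x y, s x y = 0 → s' x y = 0) (hz' : ∀ x y, s' x y = 0 → s x y = 0) :
    ∃ c : ZMod ℓ, c ≠ 0 ∧ ∀ x y, s' x y = c * s x y := by
  by_cases h0 : ∀ x y, s x y = 0
  · exact ⟨1, one_ne_zero, fun x y => by rw [h0 x y, hz _ _ (h0 x y), mul_zero]⟩
  push Not at h0
  obtain ⟨x0, y0, h0⟩ := h0
  have key : ∀ x y, s' x y * s x0 y0 = s x y * s' x0 y0 := by
    intro x y
    by_cases e1 : s x y = 0
    · rw [e1, hz _ _ e1, zero_mul, zero_mul]
    by_cases e2 : s x y0 = 0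
    · by_cases e3 : s x0 y = 0
      · have f1 := cross' h h' hz x x0 (y * y0)
        rw [h.r, h'.r, h.r, h'.r, e2, e3, hz _ _ e2, hz _ _ e3] at f1
        linear_combination -f1
      · have f1 := cross h h' hz x0 y y0
        have f2 := cross' h h' hz x x0 y
        apply mul_right_cancel₀ e3
        linear_combination - s x y * f1 - s x0 y0 * f2
    · have f1 := cross h h' hz x y y0
      have f2 := cross' h h' hz x x0 y0
      apply mul_right_cancel₀ e2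
      linear_combination - s x0 y0 * f1 - s x y * f2
  refine ⟨s' x0 y0 * (s x0 y0)⁻¹, mul_ne_zero (fun e => h0 (hz' _ _ e)) (inv_ne_zero h0), ?_⟩
  intro x y
  have := key x y
  field_simp
  linear_combination this

end abs

section
variable {K : Type} [Field K] [NumberField K]

/-! ### densities (compare `SN/T_LNI.lean`) -/

lemma fin_le (x : ℝ) : {q : Pl K | (Ideal.absNorm q.asIdeal : ℝ) ≤ x}.Finite := by
  have h1 := Ideal.finite_setOfPred_absNorm_le (S := 𝓞 K) ⌊x⌋₊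
  refine (Set.Finite.preimage (f := fun q : Pl K => q.asIdeal) ?_ h1).subset ?_
  · intro a _ b _ hab
    exact HeightOneSpectrum.ext hab
  · intro q hq
    exact Nat.le_floor hq

/-- the places of norm at most `x` with property `P` -/
def SS (P : Pl K → Prop) (x : ℝ) : Set (Pl K) :=
  {q : Pl K | (Ideal.absNorm q.asIdeal : ℝ) ≤ x ∧ P q}

lemma fin_leP (P : Pl K → Prop) (x : ℝ) : (SS P x).Finite :=
  (fin_le x).subset fun _ hq => hq.1

lemma dens_mono' {P Q : Pl K → Prop} {a b : ℝ} (T : Finset (Pl K)) (h : ∀ q, q ∉ T → P q → Q q)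
    (hP : Dens P a) (hQ : Dens Q b) : a ≤ b := by
  classical
  have h0 : Tendsto (fun x : ℝ => (∑ q ∈ T, Real.log (Ideal.absNorm q.asIdeal)) / x) atTop
      (nhds 0) := tendsto_const_nhds.div_atTop tendsto_id
  have hQ' := hQ.add h0
  rw [add_zero] at hQ'
  refine le_of_tendsto_of_tendsto hP hQ' ?_
  filter_upwards [eventually_gt_atTop 0] with x hx
  rw [← add_div]
  refine div_le_div_of_nonneg_right ?_ hx.le
  change (∑ᶠ q ∈ SS P x, Real.log (Ideal.absNorm q.asIdeal)) ≤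
    (∑ᶠ q ∈ SS Q x, Real.log (Ideal.absNorm q.asIdeal)) + _
  rw [finsum_mem_eq_finite_toFinset_sum _ (fin_leP P x),
    finsum_mem_eq_finite_toFinset_sum _ (fin_leP Q x)]
  refine le_trans (Finset.sum_le_sum_of_subset_of_nonneg
    (t := (fin_leP Q x).toFinset ∪ T) ?_ fun q _ _ => Real.log_natCast_nonneg _)
    ?_
  · intro q hq
    rw [Set.Finite.mem_toFinset] at hq
    rw [Finset.mem_union, Set.Finite.mem_toFinset]
    by_cases hqT : q ∈ T
    · exact Or.inr hqT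
    · exact Or.inl ⟨hq.1, h q hqT hq.2⟩
  · rw [← Finset.sum_union_inter]
    have : 0 ≤ ∑ q ∈ (fin_leP Q x).toFinset ∩ T, Real.log (Ideal.absNorm q.asIdeal) :=
      Finset.sum_nonneg fun q _ => Real.log_natCast_nonneg _
    linarith

/-! ### the constants -/

theorem bm {ℓ : ℕ} {sv : Pl K → Kˣ → Kˣ → ZMod ℓ} (H : Sv ℓ K sv) (v : Pl K) : Bm (sv v) :=
  ⟨H.mul_left v, H.mul_right v, s_anti H v⟩

theorem loc_const (hLNZ : S_LNZ) {ℓ : ℕ} (hℓ : ℓ.Prime) (hℓ2 : ℓ ≠ 2) {ζ : K}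
    (hζ : IsPrimitiveRoot ζ ℓ) {sv sv' : Pl K → Kˣ → Kˣ → ZMod ℓ} (H : Sv ℓ K sv)
    (H' : Sv ℓ K sv') (v : Pl K) : ∃ c : ZMod ℓ, c ≠ 0 ∧ ∀ x y, sv' v x y = c * sv v x y := by
  haveI := Fact.mk hℓ
  exact prop_const (bm H v) (bm H' v)
    (fun x y h => H'.ln v x y (hLNZ ℓ hℓ hℓ2 K ζ hζ sv H v x y h))
    (fun x y h => H.ln v x y (hLNZ ℓ hℓ hℓ2 K ζ hζ sv' H' v x y h))

theorem exists_unif (v : Pl K) : ∃ π : Kˣ, v.valuation K (π : K) = WithZero.exp (-1 : ℤ) := by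
  obtain ⟨π, hπ⟩ := v.valuation_exists_uniformizer K
  have h0 : π ≠ 0 := by
    rintro rfl
    rw [map_zero] at hπ
    exact WithZero.exp_ne_zero hπ.symm
  exact ⟨Units.mk0 π h0, hπ⟩

theorem sr_of_isP {ℓ : ℕ} {sv : Pl K → Kˣ → Kˣ → ZMod ℓ} (H : Sv ℓ K sv) {v : Pl K} {y y' : Kˣ}
    (x : Kˣ) (h : ∃ z, loc v y = loc v y' * z ^ ℓ) : sv v x y = sv v x y' := by
  rw [s_anti H v x y, s_anti H v x y']
  congr 1
  apply sl_of_isP H
  obtain ⟨z, hz⟩ := h
  exact ⟨z, by rw [map_mul, map_inv, hz, mul_comm (loc v y'), mul_inv_cancel_right]⟩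

/-- `u` is an `ℓ`-th power at `q` -/
theorem isP_of_unif {ℓ : ℕ} (hℓ : ℓ.Prime) {sv : Pl K → Kˣ → Kˣ → ZMod ℓ} (H : Sv ℓ K sv)
    {q : Pl K} (hq : q.valuation K (ℓ : K) = 1) {u p : Kˣ} (hu : (ℓ : ℤ) ∣ od q u)
    (hp : od q p = -1) (h : sv q u p = 0) : IsP ℓ (loc q u) := by
  apply H.nd
  intro z
  have h1 : od q (z * p ^ (od q z)) = 0 := by
    rw [od_mul, od_zpow, hp]
    ring
  have h2 := H.unr q hq u (z * p ^ (od q z)) ((pw_od hℓ.pos q u).2 hu)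
    ((pw_od hℓ.pos q _).2 (by rw [h1]; exact dvd_zero _))
  rw [H.mul_right, sr_zpow H, h, mul_zero, add_zero] at h2
  exact h2

/-- the orthogonal of a large isotropic subspace -/
theorem orth_le {ℓ : ℕ} [Fact ℓ.Prime] {V : Type} [AddCommGroup V] [Module (ZMod ℓ) V] [Finite V]
    {ψ : LinearMap.BilinForm (ZMod ℓ) V} (hr : ψ.IsRefl) (hnd : ψ.Nondegenerate)
    {L : Submodule (ZMod ℓ) V} (hiso : ∀ x ∈ L, ∀ y ∈ L, ψ x y = 0)
    (hcard : Nat.card L ^ 2 = Nat.card V) : ψ.orthogonal L = L := by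
  have hle : L ≤ ψ.orthogonal L := fun x hx => by
    rw [LinearMap.BilinForm.mem_orthogonal_iff]
    intro n hn
    exact hiso n hn x hx
  have := Fintype.ofFinite V
  have := Fintype.ofFinite L
  have e1 := Module.card_eq_pow_finrank (K := ZMod ℓ) (V := V)
  have e2 := Module.card_eq_pow_finrank (K := ZMod ℓ) (V := L)
  rw [ZMod.card] at e1 e2
  rw [Nat.card_eq_fintype_card, Nat.card_eq_fintype_card, e1, e2, ← pow_mul] at hcard
  have h3 := Nat.pow_right_injective (Fact.out : ℓ.Prime).two_le hcard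
  symm
  apply Submodule.eq_of_le_of_finrank_eq hle
  rw [LinearMap.BilinForm.finrank_orthogonal hnd]
  omega

theorem isP_root {ℓ : ℕ} (hℓ : ℓ.Prime) {G : Type} [CommGroup G] {x : G} {a : ℕ} (ha : ¬ ℓ ∣ a)
    (h : IsP ℓ (x ^ a)) : IsP ℓ x := by
  obtain ⟨z, hz⟩ := h
  have hco : IsCoprime (a : ℤ) (ℓ : ℤ) := by
    rw [Int.isCoprime_iff_gcd_eq_one, Int.gcd_natCast_natCast]
    exact ((Nat.Prime.coprime_iff_not_dvd hℓ).2 ha).symm
  obtain ⟨r, s, hrs⟩ := hco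
  refine ⟨z ^ r * x ^ s, ?_⟩
  calc x = x ^ (r * a + s * ℓ : ℤ) := by rw [hrs, zpow_one]
    _ = (x ^ a) ^ r * (x ^ s) ^ ℓ := by
        rw [zpow_add, mul_comm r, zpow_mul, zpow_natCast, zpow_mul, zpow_natCast]
    _ = _ := by
        rw [hz, mul_pow]
        congr 1
        rw [← zpow_natCast (z ^ r), ← zpow_mul, ← zpow_natCast, ← zpow_mul, mul_comm]

theorem isP_of {ℓ : ℕ} {v : Pl K} {x y : Kˣ} (h : ∃ z, loc v x = loc v y * z ^ ℓ)
    (hx : IsP ℓ (loc v x)) : IsP ℓ (loc v y) := by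
  obtain ⟨z, hz⟩ := h
  obtain ⟨w, hw⟩ := hx
  refine ⟨w * z⁻¹, ?_⟩
  rw [mul_pow, inv_pow, ← hw, hz, mul_inv_cancel_right]

theorem not_isP {ℓ : ℕ} (hℓ : ℓ.Prime) {v : Pl K} {x π : Kˣ}
    (hπ : v.valuation K (π : K) = WithZero.exp (-1 : ℤ)) (h : ∃ z, loc v x = loc v π * z ^ ℓ) :
    ¬ IsP ℓ (loc v x) := by
  intro hx
  have h2 := dvd_of_isP hℓ.pos (isP_of h hx)
  rw [od_eq hπ, dvd_neg] at h2
  have h3 : ℓ ∣ 1 := by exact_mod_cast h2
  exact hℓ.one_lt.ne' (Nat.dvd_one.1 h3)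

/-- the classes which are allowed to be arbitrary at the places where `x0` is an `ℓ`-th power -/
def GT (ℓ : ℕ) (S : Finset (Pl K)) (x0 : Kˣ) : Subgroup Kˣ where
  carrier := {y | ∀ q, q ∉ S → IsP ℓ (loc q x0) ∨ (ℓ : ℤ) ∣ od q y}
  mul_mem' := by
    intro a b ha hb q hq
    rcases ha q hq with h | h
    · exact Or.inl h
    · rcases hb q hq with h' | h'
      · exact Or.inl h'
      · exact Or.inr (by rw [od_mul]; exact dvd_add h h')
  one_mem' := by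
    intro q hq
    right
    have h : od q (1 : Kˣ) = 0 := (val_one_iff q 1).1 (by rw [Units.val_one, map_one])
    rw [h]
    exact dvd_zero _
  inv_mem' := by
    intro a ha q hq
    rcases ha q hq with h | h
    · exact Or.inl h
    · exact Or.inr (by rw [od_inv]; exact (dvd_neg).2 h)

theorem const_eq (hVSP : S_VSP) (hLZ : S_LZ) (hDK : S_DK) (hWA : Pool.Agent.T3h73.SL.S_WA)
    {ℓ : ℕ} (hℓ : ℓ.Prime) (hℓ2 : ℓ ≠ 2) {ζ : K} (hζ : IsPrimitiveRoot ζ ℓ)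
    {sv sv' : Pl K → Kˣ → Kˣ → ZMod ℓ} (H : Sv ℓ K sv) (H' : Sv ℓ K sv') (c : Pl K → ZMod ℓ)
    (hc : ∀ v x y, sv' v x y = c v * sv v x y) {v1 v2 : Pl K} (hne : v1 ≠ v2) : c v1 = c v2 := by
  classical
  haveI := Fact.mk hℓ
  -- the element `x0`
  obtain ⟨π1, hπ1⟩ := exists_unif v1
  obtain ⟨π2, hπ2⟩ := exists_unif v2
  obtain ⟨x0, hx0⟩ := hWA ℓ hℓ K {v1, v2} (fun v => if v = v1 then loc v π1 else loc v π2)
  have hx01 : ¬ IsP ℓ (loc v1 x0) := by
    have h1 := hx0 v1 (by simp)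
    rw [if_pos rfl] at h1
    exact not_isP hℓ hπ1 h1
  have hx02 : ¬ IsP ℓ (loc v2 x0) := by
    have h1 := hx0 v2 (by simp)
    rw [if_neg hne.symm] at h1
    exact not_isP hℓ hπ2 h1
  have hx0g : ¬ IsP ℓ x0 := by
    rintro ⟨z, hz⟩
    exact hx01 ⟨loc v1 z, by rw [hz, map_pow]⟩
  -- the set `S`
  obtain ⟨T0, hT0⟩ := hLZ ℓ hℓ hℓ2 K ζ hζ
  obtain ⟨S, hST, hS1, hS2, hSx⟩ : ∃ S : Finset (Pl K), T0 ⊆ S ∧ v1 ∈ S ∧ v2 ∈ S ∧
      ∀ v, v ∉ S → od v x0 = 0 := by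
    refine ⟨T0 ∪ ({v1, v2} ∪ (fin_od x0).toFinset), Finset.subset_union_left, by simp, by simp, ?_⟩
    intro v hv
    by_contra hcon
    apply hv
    rw [Finset.mem_union, Finset.mem_union, Set.Finite.mem_toFinset]
    exact Or.inr (Or.inr hcon)
  obtain ⟨_, hab, hgen, hinj, hcard⟩ := hT0 S hST
  obtain ⟨V, _, _, _, ψ, cl, hmul, hsurj, hker, halt, hnd, hpsi, hV⟩ :=
    hVSP ℓ hℓ hℓ2 K ζ hζ sv H S
  have C : Ctx ℓ K sv S V ψ cl := ⟨hℓ, H, hab, hgen, hinj, hmul, hsurj, hker, hpsi⟩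
  have hl1 : ∀ v, v ∉ S → v.valuation K (ℓ : K) = 1 := by
    intro v hv
    by_contra hcon
    exact hv (hab v hcon)
  -- the element `y0`
  obtain ⟨y1, hy1⟩ : ∃ y, sv v1 x0 y = 1 := by
    obtain ⟨w, hw⟩ : ∃ y, sv v1 x0 y ≠ 0 := by
      by_contra hcon
      push Not at hcon
      exact hx01 (H.nd v1 x0 hcon)
    refine ⟨w ^ ((sv v1 x0 w)⁻¹).val, ?_⟩
    rw [(bm H v1).rpow, ZMod.natCast_zmod_val, inv_mul_cancel₀ hw]
  obtain ⟨y2, hy2⟩ : ∃ y, sv v2 x0 y = -1 := by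
    obtain ⟨w, hw⟩ : ∃ y, sv v2 x0 y ≠ 0 := by
      by_contra hcon
      push Not at hcon
      exact hx02 (H.nd v2 x0 hcon)
    refine ⟨w ^ (-(sv v2 x0 w)⁻¹).val, ?_⟩
    rw [(bm H v2).rpow, ZMod.natCast_zmod_val, neg_mul, inv_mul_cancel₀ hw]
  obtain ⟨y0, hy0⟩ := hWA ℓ hℓ K S
    (fun v => if v = v1 then loc v y1 else if v = v2 then loc v y2 else 1)
  have hy01 : sv v1 x0 y0 = 1 := by
    have h := hy0 v1 hS1
    rw [if_pos rfl] at h
    rw [sr_of_isP H x0 h, hy1]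
  have hy02 : sv v2 x0 y0 = -1 := by
    have h := hy0 v2 hS2
    rw [if_neg hne.symm, if_pos rfl] at h
    rw [sr_of_isP H x0 h, hy2]
  have hy03 : ∀ v ∈ S, v ≠ v1 ∧ v ≠ v2 → sv v x0 y0 = 0 := by
    intro v hv hvn
    obtain ⟨z, hz⟩ := hy0 v hv
    rw [if_neg hvn.1, if_neg hvn.2, one_mul] at hz
    exact H.pow_right v x0 y0 ⟨z, hz⟩
  have h0 : ψ (cl x0) (cl y0) = 0 := by
    rw [hpsi, Finset.sum_eq_add_of_mem v1 v2 hS1 hS2 hne hy03, hy01, hy02, add_neg_cancel]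
  -- the subspaces
  have hr : LinearMap.BilinForm.IsRefl ψ := LinearMap.IsAlt.isRefl halt
  have hndg : LinearMap.BilinForm.Nondegenerate ψ :=
    (LinearMap.IsRefl.nondegenerate_iff_separatingLeft hr).2 hnd
  have hL0 : LinearMap.BilinForm.orthogonal ψ (clS hmul ℓ (Sg ℓ S (fun _ => ⊤))) =
      clS hmul ℓ (Sg ℓ S (fun _ => ⊤)) := by
    apply orth_le hr hndg
    · rintro _ ⟨a, ha, rfl⟩ _ ⟨b, hb, rfl⟩
      exact C.prodS a b (fun v hv => (pw_od hℓ.pos v a).1 (ha.2 v hv))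
        (fun v hv => (pw_od hℓ.pos v b).1 (hb.2 v hv))
    · rw [hV, ← hcard V cl (fun x y => by
        rw [← hker, hmul, cl_inv hmul, add_neg_eq_zero])]
      rfl
  have hperp : ∀ h ∈ LinearMap.BilinForm.orthogonal ψ (clS hmul ℓ (GT ℓ S x0)),
      ψ h (cl y0) = 0 := by
    intro h hh
    have hhL : h ∈ LinearMap.BilinForm.orthogonal ψ (clS hmul ℓ (Sg ℓ S (fun _ => ⊤))) := by
      rw [LinearMap.BilinForm.mem_orthogonal_iff]
      rintro _ ⟨a, ha, rfl⟩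
      exact hh _ ⟨a, fun q hq => Or.inr ((pw_od hℓ.pos q a).1 (ha.2 q hq)), rfl⟩
    rw [hL0] at hhL
    obtain ⟨u', hu', rfl⟩ := hhL
    obtain ⟨u, hu1, hu2⟩ := C.unit_rep u' (fun v hv => (pw_od hℓ.pos v u').1 (hu'.2 v hv))
    rw [← hu1] at hh ⊢
    have hu3 : ∀ q, q ∉ S → IsP ℓ (loc q x0) → IsP ℓ (loc q u) := by
      intro q hq hqx
      obtain ⟨p, hp⟩ := hgen (Pi.single q 1) ((Set.finite_singleton q).subset (by
        intro v hv
        by_contra hcon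
        exact hv (Pi.single_eq_of_ne hcon _)))
      have hp1 : od q p = -1 := by
        rw [od_eq (hp q hq), Pi.single_eq_same]
      have hp2 : ∀ v, v ∉ S → v ≠ q → od v p = 0 := by
        intro v hv hvq
        rw [od_eq (hp v hv), Pi.single_eq_of_ne hvq, neg_zero]
      have hpT : cl p ∈ clS hmul ℓ (GT ℓ S x0) := by
        refine ⟨p, fun v hv => ?_, rfl⟩
        by_cases hvq : v = q
        · rw [hvq]
          exact Or.inl hqx
        · right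
          rw [hp2 v hv hvq]
          exact dvd_zero _
      have h1 : ψ (cl p) (cl u) = 0 := hh _ hpT
      have h2 := C.prodq hq p u (fun v hv hvq => by rw [hp2 v hv hvq]; exact dvd_zero _)
        (fun v hv _ => by rw [hu2 v hv]; exact dvd_zero _)
      have h3 : sv q u p = 0 := by
        rw [s_anti H, h2, h1, neg_zero, neg_zero]
      exact isP_of_unif hℓ H (hl1 q hq) (by rw [hu2 q hq]; exact dvd_zero _) hp1 h3
    obtain ⟨a, b, hab', hnot⟩ : ∃ a b : ℕ, IsP ℓ (x0 ^ a * u ^ b) ∧ ¬ (ℓ ∣ a ∧ ℓ ∣ b) := by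
      by_contra hcon
      push Not at hcon
      obtain ⟨d1, d2⟩ := hDK ℓ hℓ K ζ hζ x0 u hx0g
      have h4 := dens_mono' S (fun q hq h => ⟨h, hu3 q hq h⟩) d1 (d2 hcon)
      have h5 : (1 : ℝ) < ℓ := by exact_mod_cast hℓ.one_lt
      have h6 : (1 : ℝ) / ℓ ^ 2 < 1 / ℓ := by
        apply one_div_lt_one_div_of_lt (by linarith)
        nlinarith
      linarith
    have hb : ¬ ℓ ∣ b := by
      intro hb
      have ha : ¬ ℓ ∣ a := fun ha => hnot ⟨ha, hb⟩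
      obtain ⟨b', rfl⟩ := hb
      obtain ⟨z, hz⟩ := hab'
      apply hx0g
      apply isP_root hℓ ha
      refine ⟨z * (u ^ b')⁻¹, ?_⟩
      rw [mul_pow, ← hz, inv_pow, ← pow_mul, mul_comm b', mul_inv_cancel_right]
    obtain ⟨z, hz⟩ := hab'
    have h7 : cl (x0 ^ a * u ^ b) = 0 := by
      rw [hz, cl_pow_ell hmul]
    rw [hmul, cl_pow (ℓ := ℓ) hmul, cl_pow (ℓ := ℓ) hmul] at h7
    have h8 : ψ ((a : ZMod ℓ) • cl x0 + (b : ZMod ℓ) • cl u) (cl y0) = 0 := by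
      rw [h7, map_zero, LinearMap.zero_apply]
    rw [map_add, map_smul, map_smul, LinearMap.add_apply, LinearMap.smul_apply,
      LinearMap.smul_apply, h0, smul_zero, zero_add, smul_eq_mul] at h8
    rcases mul_eq_zero.1 h8 with h9 | h9
    · exact absurd ((ZMod.natCast_eq_zero_iff _ _).1 h9) hb
    · exact h9
  have hmem : cl y0 ∈ LinearMap.BilinForm.orthogonal ψ
      (LinearMap.BilinForm.orthogonal ψ (clS hmul ℓ (GT ℓ S x0))) := by
    rw [LinearMap.BilinForm.mem_orthogonal_iff]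
    exact hperp
  rw [LinearMap.BilinForm.orthogonal_orthogonal hndg hr] at hmem
  obtain ⟨y, hyG, hy⟩ := hmem
  -- the product formula
  have hyS : ∀ v ∈ S, sv v x0 y = sv v x0 y0 := fun v hv => sr_of_isP H x0 (C.isP_of_cl hy v hv)
  have hyN : ∀ v, v ∉ S → sv v x0 y = 0 := by
    intro v hv
    rcases hyG v hv with h | h
    · exact H.pow_left v x0 y h
    · exact H.unr v (hl1 v hv) x0 y ((pw_od hℓ.pos v x0).2 (by rw [hSx v hv]; exact dvd_zero _))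
        ((pw_od hℓ.pos v y).2 h)
  obtain ⟨B, hSB, hBy⟩ : ∃ B : Finset (Pl K), S ⊆ B ∧ ∀ v, v ∉ B → od v y = 0 := by
    refine ⟨S ∪ (fin_od y).toFinset, Finset.subset_union_left, ?_⟩
    intro v hv
    by_contra hcon
    apply hv
    rw [Finset.mem_union, Set.Finite.mem_toFinset]
    exact Or.inr hcon
  have hPw : ∀ v, v ∉ B → Pw ℓ (v.valuation K (x0 : K)) ∧ Pw ℓ (v.valuation K (y : K)) := by
    intro v hv
    refine ⟨(pw_od hℓ.pos v x0).2 ?_, (pw_od hℓ.pos v y).2 ?_⟩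
    · rw [hSx v (fun h => hv (hSB h))]
      exact dvd_zero _
    · rw [hBy v hv]
      exact dvd_zero _
  have h10 := H'.prod B (fun v hv => hSB (hab v hv)) x0 y hPw
  rw [Finset.sum_eq_add_of_mem v1 v2 (hSB hS1) (hSB hS2) hne (fun v hv hvn => by
    rw [hc]
    by_cases hvS : v ∈ S
    · rw [hyS v hvS, hy03 v hvS hvn, mul_zero]
    · rw [hyN v hvS, mul_zero]), hc, hc, hyS v1 hS1, hyS v2 hS2, hy01, hy02] at h10
  linear_combination h10

end

theorem t_VUN (hLNZ : S_LNZ) (hVSP : S_VSP) (hLZ : S_LZ) (hDK : S_DK)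
    (hWA : Pool.Agent.T3h73.SL.S_WA) : S_VUN := by
  intro ℓ hℓ hℓ2 K _ _ ζ hζ sv sv' H H'
  choose c hc0 hc using loc_const hLNZ hℓ hℓ2 hζ H H'
  by_cases hne : Nonempty (Pl K)
  · obtain ⟨v0⟩ := hne
    refine ⟨c v0, hc0 v0, fun v x y => ?_⟩
    rw [hc]
    by_cases hv : v = v0
    · rw [hv]
    · rw [const_eq hVSP hLZ hDK hWA hℓ hℓ2 hζ H H' c hc hv]
  · haveI := Fact.mk hℓ
    exact ⟨1, one_ne_zero, fun v => absurd ⟨v⟩ hne⟩

end Pool.Agent.T3h73.SG.VUN
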