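import Pool.Agent.T3h73.SG.StmX

/-! Project SG, task XAN (helper74; template SD/T_AN by helper62): the asymptotics of the coloured
sums. -/

set_option autoImplicit false
set_option linter.all false

open NumberField IsDedekindDomain Filter Topology

namespace Pool.Agent.T3h73.SG.XAN

open Pool.Agent.T3h73.SL (Pl)
open Pool.Agent.T3h73.SD (T0)

lemma div_lim {f : ℝ → ℂ} {T : ℝ → ℝ} {c s₀ : ℝ} (hc : 0 < c) (hs₀ : 1 < s₀)
    (hT : ∀ s : ℝ, 1 < s → s < s₀ → c / (s - 1) ≤ T s)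
    (hf : Tendsto (fun s : ℝ => ((s - 1 : ℝ) : ℂ) * f s) (𝓝[>] 1) (𝓝 0)) :
    Tendsto (fun s : ℝ => f s / ((T s : ℝ) : ℂ)) (𝓝[>] 1) (𝓝 0) := by
  have h1 : Tendsto (fun s : ℝ => ‖((s - 1 : ℝ) : ℂ) * f s‖ / c) (𝓝[>] 1) (𝓝 0) := by
    have := hf.norm.div_const c
    rwa [norm_zero, zero_div] at this
  refine squeeze_zero_norm' ?_ h1
  have h2 : ∀ᶠ s : ℝ in 𝓝[>] 1, 1 < s ∧ s < s₀ := Ioo_mem_nhdsGT hs₀
  filter_upwards [h2] with s hs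
  have hs1 : 0 < s - 1 := by linarith [hs.1]
  have hT' := hT s hs.1 hs.2
  have hTp : 0 < T s := lt_of_lt_of_le (div_pos hc hs1) hT'
  rw [norm_div, norm_mul, Complex.norm_real, Complex.norm_real, Real.norm_eq_abs, Real.norm_eq_abs,
    abs_of_pos hs1, abs_of_pos hTp, div_le_div_iff₀ hTp hc]
  have h3 : c ≤ (s - 1) * T s := by
    rw [div_le_iff₀ hs1] at hT'
    linarith
  calc ‖f s‖ * c ≤ ‖f s‖ * ((s - 1) * T s) := mul_le_mul_of_nonneg_left h3 (norm_nonneg _)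
    _ = (s - 1) * ‖f s‖ * T s := by ring

theorem t_XAN (hXTUP : S_XTUP) (hXAN1 : S_XAN1) (hXAN2 : S_XAN2) (hXAN3 : S_XAN3)
    (hT0L : Pool.Agent.T3h73.SD.S_T0L) : S_XAN := by
  classical
  intro ℓ hℓ K _ _ S Ω kp C _ Om lam mu I χ ρ lk good triv hcs
  obtain ⟨κ₀, hκ₀, h1⟩ := hXAN1 ℓ hℓ K S Ω kp C Om lam mu I χ ρ lk good triv hcs
  obtain ⟨c, s₀, hc, hs₀, hT0⟩ := hT0L K S
  have hT : ∀ s : ℝ, 1 < s → s < s₀ → c / (s - 1) ≤ T0 S s := fun s h1 h2 => (hT0 s h1 h2).2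
  let L : Finset C → ℂ := fun W => if (∀ c ∈ W, ∀ c' ∈ W, c ≠ c' → ¬ lk c c') ∧
    ∑ c ∈ W, mu c = 1 ∧ (∀ c ∈ W, triv c) then 1 else 0
  have hW : ∀ W : Finset C, Tendsto (fun s : ℝ => MX S kp Om lam I ρ ((1 / (s - 1)) ^ κ₀) W s /
      ((T0 S s : ℝ) : ℂ)) (𝓝[>] 1) (𝓝 (L W)) := by
    intro W
    by_cases hl : ∀ c ∈ W, ∀ c' ∈ W, c ≠ c' → ¬ lk c c'
    · rcases (hcs.mass W hl).lt_or_eq with hlt | heq
      · have e : L W = 0 := if_neg fun hh => absurd hh.2.1 (ne_of_lt hlt)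
        rw [e]
        exact div_lim hc hs₀ hT
          (hXAN2 ℓ hℓ K S Ω kp C Om lam mu I χ ρ lk good triv hcs κ₀ hκ₀ W hlt)
      · have e : L W = if ∀ c ∈ W, triv c then 1 else 0 := by
          show (if _ then _ else _) = _
          by_cases h0 : ∀ c ∈ W, triv c
          · rw [if_pos h0, if_pos ⟨hl, heq, h0⟩]
          · rw [if_neg h0, if_neg fun hh => h0 hh.2.2]
        rw [e]
        exact hXAN3 ℓ hℓ K S Ω kp C Om lam mu I χ ρ lk good triv hcs κ₀ hκ₀ W hl heq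
    · have e : L W = 0 := if_neg fun hh => hl hh.1
      rw [e]
      push Not at hl
      obtain ⟨a, ha, b, hb, hab, hlk⟩ := hl
      exact div_lim hc hs₀ hT (h1 κ₀ le_rfl W a b ha hb hab hlk)
  have hsum : Tendsto (fun s : ℝ => ∑ W : Finset C, MX S kp Om lam I ρ ((1 / (s - 1)) ^ κ₀) W s /
      ((T0 S s : ℝ) : ℂ)) (𝓝[>] 1) (𝓝 (∑ W : Finset C, L W)) :=
    tendsto_finsetSum _ fun W _ => hW W
  have hL : ∑ W : Finset C, L W = (Nat.card {U : Finset C //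
      (∀ c ∈ U, ∀ c' ∈ U, c ≠ c' → ¬ lk c c') ∧ ∑ c ∈ U, mu c = 1 ∧ ∀ c ∈ U, triv c} : ℂ) := by
    rw [Finset.sum_boole, Nat.card_eq_fintype_card, Fintype.card_subtype]
  rw [hL] at hsum
  refine hsum.congr' ?_
  have h2 : ∀ᶠ s : ℝ in 𝓝[>] 1, 1 < s ∧ s < 2 := Ioo_mem_nhdsGT one_lt_two
  filter_upwards [h2] with s hs
  rw [hXTUP ℓ hℓ K S Ω kp C Om lam mu I χ ρ lk good triv hcs s ((1 / (s - 1)) ^ κ₀) hs.1 hs.2.le,
    Finset.sum_div]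

end Pool.Agent.T3h73.SG.XAN
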