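import Pool.Agent.T3h73.SG.StmX
import Pool.Agent.T3h73.SD.T_AN1

/-! Project SG, task XAN1 (helper74; template SD/T_AN1): two large linked variables. -/

set_option autoImplicit false
set_option linter.all false

open NumberField IsDedekindDomain Filter Topology

namespace Pool.Agent.T3h73.SG.XAN1

open Pool.Agent.T3h73.SL (Pl)
open Pool.Agent.T3h73.SD (ee)
open Pool.Agent.T3h73.SD.Fam (pi_sum norm_ee)
open Pool.Agent.T3h73.SD.AN1 (phi_sum glue glue_a glue_b glue_d glueE prod_split ee_add)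

section
variable {K : Type} [Field K] [NumberField K] {Ω : Type}

theorem one_le_NO (kp : Ω → Pl K) (A : Finset Ω) : (1 : ℝ) ≤ (NO kp A : ℝ) := by
  unfold NO
  push_cast
  exact Finset.one_le_prod (fun w _ => Pool.Agent.T3h73.SD.MASS.one_le_nm (kp w))

/-- double sums of a pairing -/
def syP {ℓ : ℕ} (P : Ω → Ω → ZMod ℓ) (A B : Finset Ω) : ZMod ℓ := ∑ w ∈ A, ∑ w' ∈ B, P w w'

theorem syP_empty_left {ℓ : ℕ} (P : Ω → Ω → ZMod ℓ) (B : Finset Ω) : syP P ∅ B = 0 := by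
  unfold syP; simp

theorem syP_empty_right {ℓ : ℕ} (P : Ω → Ω → ZMod ℓ) (B : Finset Ω) : syP P B ∅ = 0 := by
  unfold syP; simp

open Classical in
/-- the term of the double sum -/
noncomputable def dbl {ℓ : ℕ} (kp : Ω → Pl K) (P : Ω → Ω → ZMod ℓ)
    (α β : Finset Ω → ℂ) (p : Finset Ω × Finset Ω) : ℂ :=
  if Dj kp p.1 p.2 then α p.1 * β p.2 * ee ℓ (syP P p.1 p.2) else 0

theorem norm_dbl_le {ℓ : ℕ} (kp : Ω → Pl K) (P : Ω → Ω → ZMod ℓ)
    (α β : Finset Ω → ℂ) (p : Finset Ω × Finset Ω) :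
    ‖dbl kp P α β p‖ ≤ ‖α p.1‖ * ‖β p.2‖ := by
  unfold dbl
  split_ifs
  · rw [norm_mul, norm_mul, norm_ee, mul_one]
  · rw [norm_zero]; positivity

open Classical in
/-- the hypothesis BL for one pair of colours -/
def BLc (ℓ : ℕ) (S : Finset (Pl K)) (kp : Ω → Pl K) (Om₁ Om₂ : Ω → Prop) (P : Ω → Ω → ZMod ℓ)
    (C θ : ℝ) : Prop :=
  ∀ M N : ℝ, 1 ≤ M → 1 ≤ N → ∀ 𝒜 ℬ : Finset (Finset Ω),
  (∀ A ∈ 𝒜, Ad S kp Om₁ A ∧ (NO kp A : ℝ) ≤ M) → (∀ B ∈ ℬ, Ad S kp Om₂ B ∧ (NO kp B : ℝ) ≤ N) →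
  ∀ α β : Finset Ω → ℂ, (∀ A, ‖α A‖ ≤ 1) → (∀ B, ‖β B‖ ≤ 1) →
  ‖∑ A ∈ 𝒜, ∑ B ∈ ℬ, if Dj kp A B then α A * β B * ee ℓ (syP P A B) else 0‖ ≤
    C * M * N * (min M N) ^ (-θ) * (1 + Real.log M + Real.log N) ^ C

open Classical in
/-- one dyadic block -/
theorem block {ℓ : ℕ} {S : Finset (Pl K)} {kp : Ω → Pl K} {Om₁ Om₂ : Ω → Prop}
    {P : Ω → Ω → ZMod ℓ} {C θ : ℝ} (hC : 0 < C)
    (hθ : 0 < θ) (hBL : BLc ℓ S kp Om₁ Om₂ P C θ) {s Z : ℝ} (hs : 1 < s)
    (hZ : 1 ≤ Z) {α β : Finset Ω → ℂ} (hα : ∀ A, ‖α A‖ ≤ (NO kp A : ℝ) ^ (-s))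
    (hβ : ∀ A, ‖β A‖ ≤ (NO kp A : ℝ) ^ (-s)) (hα' : ∀ A, α A ≠ 0 → Ad S kp Om₁ A ∧ Z < (NO kp A : ℝ))
    (hβ' : ∀ A, β A ≠ 0 → Ad S kp Om₂ A ∧ Z < (NO kp A : ℝ)) (i k : ℕ)
    (𝒜 ℬ : Finset (Finset Ω)) (h𝒜 : ∀ A ∈ 𝒜, Nat.log 2 (NO kp A) = i)
    (hℬ : ∀ A ∈ ℬ, Nat.log 2 (NO kp A) = k) :
    ‖∑ A ∈ 𝒜, ∑ B ∈ ℬ, dbl kp P α β (A, B)‖ ≤
      (4 * C * Z ^ (-θ)) * ((((2 : ℝ) ^ i) ^ (-(s - 1)) * (3 + i) ^ C) *
        (((2 : ℝ) ^ k) ^ (-(s - 1)) * (3 + k) ^ C)) := by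
  have hR0 : 0 ≤ (4 * C * Z ^ (-θ)) * ((((2 : ℝ) ^ i) ^ (-(s - 1)) * (3 + i) ^ C) *
        (((2 : ℝ) ^ k) ^ (-(s - 1)) * (3 + k) ^ C)) := by positivity
  have hNA0 : ∀ A : Finset Ω, NO kp A ≠ 0 := by
    intro A h0
    have := one_le_NO kp A
    rw [h0] at this
    norm_num at this
  have hlt : ∀ (A : Finset Ω) (i : ℕ), Nat.log 2 (NO kp A) = i → (NO kp A : ℝ) < 2 ^ (i + 1) := by
    intro A i h
    have := Nat.lt_pow_succ_log_self (b := 2) (by norm_num) (NO kp A)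
    rw [h] at this
    exact_mod_cast this
  have hge : ∀ (A : Finset Ω) (i : ℕ), Nat.log 2 (NO kp A) = i → (2 : ℝ) ^ i ≤ (NO kp A : ℝ) := by
    intro A i h
    have := Nat.pow_log_le_self 2 (hNA0 A)
    rw [h] at this
    exact_mod_cast this
  -- vanishing blocks
  by_cases hiZ : (2 : ℝ) ^ (i + 1) ≤ Z
  · have hz : ∑ A ∈ 𝒜, ∑ B ∈ ℬ, dbl kp P α β (A, B) = 0 := by
      refine Finset.sum_eq_zero fun A hA => Finset.sum_eq_zero fun B _ => ?_
      have h0 : α A = 0 := by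
        by_contra h0
        have h1 := (hα' A h0).2
        have h2 := hlt A i (h𝒜 A hA)
        linarith
      unfold dbl
      rw [h0]; simp
    rw [hz, norm_zero]; exact hR0
  by_cases hkZ : (2 : ℝ) ^ (k + 1) ≤ Z
  · have hz : ∑ A ∈ 𝒜, ∑ B ∈ ℬ, dbl kp P α β (A, B) = 0 := by
      refine Finset.sum_eq_zero fun A _ => Finset.sum_eq_zero fun B hB => ?_
      have h0 : β B = 0 := by
        by_contra h0
        have h1 := (hβ' B h0).2
        have h2 := hlt B k (hℬ B hB)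
        linarith
      unfold dbl
      rw [h0]; simp
    rw [hz, norm_zero]; exact hR0
  have hiZ' := not_le.mp hiZ
  have hkZ' := not_le.mp hkZ
  -- normalised coefficients
  set α' : Finset Ω → ℂ := fun A => if A ∈ 𝒜 then ((((2 : ℝ) ^ i) ^ s : ℝ) : ℂ) * α A else 0
    with hα''
  set β' : Finset Ω → ℂ := fun A => if A ∈ ℬ then ((((2 : ℝ) ^ k) ^ s : ℝ) : ℂ) * β A else 0
    with hβ''
  have nrm : ∀ (γ : Finset Ω → ℂ), (∀ A, ‖γ A‖ ≤ (NO kp A : ℝ) ^ (-s)) → ∀ (i : ℕ)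
      (A : Finset Ω), Nat.log 2 (NO kp A) = i → ‖((((2 : ℝ) ^ i) ^ s : ℝ) : ℂ) * γ A‖ ≤ 1 := by
    intro γ hγ i A hA
    rw [norm_mul, Complex.norm_real, Real.norm_eq_abs, abs_of_nonneg (by positivity)]
    have hN1 := one_le_NO kp A
    have hN0 : (0 : ℝ) < (NO kp A : ℝ) := by linarith
    have h1 : ((2 : ℝ) ^ i) ^ s ≤ (NO kp A : ℝ) ^ s :=
      Real.rpow_le_rpow (by positivity) (hge A i hA) (by linarith)
    calc ((2 : ℝ) ^ i) ^ s * ‖γ A‖ ≤ (NO kp A : ℝ) ^ s * (NO kp A : ℝ) ^ (-s) :=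
          mul_le_mul h1 (hγ A) (norm_nonneg _) (by positivity)
      _ = 1 := by rw [← Real.rpow_add hN0, add_neg_cancel, Real.rpow_zero]
  have hα1 : ∀ A, ‖α' A‖ ≤ 1 := by
    intro A
    simp only [hα'']
    split_ifs with h
    · exact nrm α hα i A (h𝒜 A h)
    · simp
  have hβ1 : ∀ A, ‖β' A‖ ≤ 1 := by
    intro A
    simp only [hβ'']
    split_ifs with h
    · exact nrm β hβ k A (hℬ A h)
    · simp
  have h2i : (1 : ℝ) ≤ 2 ^ (i + 1) := one_le_pow₀ (by norm_num)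
  have h2k : (1 : ℝ) ≤ 2 ^ (k + 1) := one_le_pow₀ (by norm_num)
  have hmain := hBL (2 ^ (i + 1)) (2 ^ (k + 1)) h2i h2k (𝒜.filter (fun A => Ad S kp Om₁ A))
    (ℬ.filter (fun A => Ad S kp Om₂ A))
    (fun A hA => ⟨(Finset.mem_filter.mp hA).2, (hlt A i (h𝒜 A (Finset.mem_filter.mp hA).1)).le⟩)
    (fun A hA => ⟨(Finset.mem_filter.mp hA).2, (hlt A k (hℬ A (Finset.mem_filter.mp hA).1)).le⟩)
    α' β' hα1 hβ1
  have hc0 : ((((2 : ℝ) ^ i) ^ s : ℝ) : ℂ) ≠ 0 := by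
    rw [Ne, Complex.ofReal_eq_zero]
    positivity
  have hd0 : ((((2 : ℝ) ^ k) ^ s : ℝ) : ℂ) ≠ 0 := by
    rw [Ne, Complex.ofReal_eq_zero]
    positivity
  -- relation of the sums
  have hrel : (((((2 : ℝ) ^ i) ^ s : ℝ) : ℂ) * ((((2 : ℝ) ^ k) ^ s : ℝ) : ℂ)) *
      ∑ A ∈ 𝒜, ∑ B ∈ ℬ, dbl kp P α β (A, B) =
      ∑ A ∈ 𝒜.filter (fun A => Ad S kp Om₁ A), ∑ B ∈ ℬ.filter (fun A => Ad S kp Om₂ A),
        if Dj kp A B then α' A * β' B * ee ℓ (syP P A B) else 0 := by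
    rw [Finset.sum_filter, Finset.mul_sum]
    refine Finset.sum_congr rfl fun A hA => ?_
    by_cases hAS : Ad S kp Om₁ A
    · rw [if_pos hAS, Finset.sum_filter, Finset.mul_sum]
      refine Finset.sum_congr rfl fun B hB => ?_
      by_cases hBS : Ad S kp Om₂ B
      · rw [if_pos hBS]
        unfold dbl
        by_cases hAB : Dj kp A B
        · rw [if_pos hAB, if_pos hAB]
          simp only [hα'', hβ'', if_pos hA, if_pos hB]
          ring
        · rw [if_neg hAB, if_neg hAB, mul_zero]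
      · rw [if_neg hBS]
        have h0 : β B = 0 := by
          by_contra h0
          exact hBS (hβ' B h0).1
        unfold dbl
        rw [h0]; simp
    · rw [if_neg hAS]
      have h0 : α A = 0 := by
        by_contra h0
        exact hAS (hα' A h0).1
      have : ∑ B ∈ ℬ, dbl kp P α β (A, B) = 0 := by
        refine Finset.sum_eq_zero fun B _ => ?_
        unfold dbl
        rw [h0]; simp
      rw [this, mul_zero]
  have hnorm : ((2 : ℝ) ^ i) ^ s * ((2 : ℝ) ^ k) ^ s *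
      ‖∑ A ∈ 𝒜, ∑ B ∈ ℬ, dbl kp P α β (A, B)‖ ≤
      C * 2 ^ (i + 1) * 2 ^ (k + 1) * (min (2 ^ (i + 1)) (2 ^ (k + 1))) ^ (-θ) *
        (1 + Real.log (2 ^ (i + 1)) + Real.log (2 ^ (k + 1))) ^ C := by
    rw [← hrel, norm_mul, norm_mul, Complex.norm_real, Complex.norm_real, Real.norm_eq_abs,
      Real.norm_eq_abs, abs_of_nonneg (by positivity), abs_of_nonneg (by positivity)] at hmain
    exact hmain
  have hmin : (min ((2 : ℝ) ^ (i + 1)) (2 ^ (k + 1))) ^ (-θ) ≤ Z ^ (-θ) :=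
    Real.rpow_le_rpow_of_nonpos (by linarith) (le_min hiZ'.le hkZ'.le) (by linarith)
  have hlog : (1 + Real.log ((2 : ℝ) ^ (i + 1)) + Real.log (2 ^ (k + 1))) ^ C ≤
      (3 + (i : ℝ)) ^ C * (3 + (k : ℝ)) ^ C := by
    rw [← Real.mul_rpow (by positivity) (by positivity)]
    refine Real.rpow_le_rpow ?_ ?_ hC.le
    · have h1 := Real.log_nonneg h2i
      have h2 := Real.log_nonneg h2k
      linarith
    · rw [Real.log_pow, Real.log_pow]
      have hl2' : Real.log 2 ≤ 1 := by have := Real.log_two_lt_d9; linarith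
      have hi0 : (0 : ℝ) ≤ i := Nat.cast_nonneg i
      have hk0 : (0 : ℝ) ≤ k := Nat.cast_nonneg k
      push_cast
      nlinarith [mul_nonneg hi0 hk0]
  have e1 : ∀ i : ℕ, ((2 : ℝ) ^ i) ^ s * ((2 : ℝ) ^ i) ^ (-(s - 1)) = 2 ^ i := by
    intro i
    rw [← Real.rpow_add (by positivity)]
    have : s + -(s - 1) = 1 := by ring
    rw [this, Real.rpow_one]
  have hpos : 0 < ((2 : ℝ) ^ i) ^ s * ((2 : ℝ) ^ k) ^ s := by positivity
  rw [← mul_le_mul_iff_right₀ hpos]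
  refine hnorm.trans ?_
  calc C * 2 ^ (i + 1) * 2 ^ (k + 1) * (min ((2 : ℝ) ^ (i + 1)) (2 ^ (k + 1))) ^ (-θ) *
        (1 + Real.log ((2 : ℝ) ^ (i + 1)) + Real.log (2 ^ (k + 1))) ^ C
      ≤ C * 2 ^ (i + 1) * 2 ^ (k + 1) * Z ^ (-θ) * ((3 + (i : ℝ)) ^ C * (3 + (k : ℝ)) ^ C) := by
        refine mul_le_mul ?_ hlog (Real.rpow_nonneg (by
          have h1 := Real.log_nonneg h2i
          have h2 := Real.log_nonneg h2k
          linarith) _) (by positivity)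
        exact mul_le_mul_of_nonneg_left hmin (by positivity)
    _ = (4 * C * Z ^ (-θ)) * ((2 ^ i * (3 + (i : ℝ)) ^ C) * (2 ^ k * (3 + (k : ℝ)) ^ C)) := by
        rw [pow_succ, pow_succ]; ring
    _ = _ := by
        have hi := e1 i
        have hk := e1 k
        generalize ((2 : ℝ) ^ i) ^ s = u1 at hi ⊢
        generalize ((2 : ℝ) ^ i) ^ (-(s - 1)) = u2 at hi ⊢
        generalize ((2 : ℝ) ^ k) ^ s = u3 at hk ⊢
        generalize ((2 : ℝ) ^ k) ^ (-(s - 1)) = u4 at hk ⊢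
        generalize (3 + (i : ℝ)) ^ C = w1
        generalize (3 + (k : ℝ)) ^ C = w2
        generalize Z ^ (-θ) = z
        rw [← hi, ← hk]; ring

/-- the norm of a sum bounded on all squares -/
theorem norm_tsum_le_of_square {α β : Type} {f : α × β → ℂ} (hf : Summable f) {R : ℝ}
    (h : ∀ (𝒜 : Finset α) (ℬ : Finset β), ‖∑ A ∈ 𝒜, ∑ B ∈ ℬ, f (A, B)‖ ≤ R) :
    ‖∑' p, f p‖ ≤ R := by
  classical
  by_contra hcon
  push Not at hcon
  have h1 : Tendsto (fun T : Finset (α × β) => ‖∑ p ∈ T, f p‖) atTop (𝓝 ‖∑' p, f p‖) :=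
    hf.hasSum.norm
  have h2 := h1.eventually (lt_mem_nhds hcon)
  obtain ⟨T₀, hT₀⟩ := eventually_atTop.1 h2
  have h3 := hT₀ ((T₀.image Prod.fst) ×ˢ (T₀.image Prod.snd)) (fun p hp => by
    rw [Finset.mem_product]
    exact ⟨Finset.mem_image_of_mem _ hp, Finset.mem_image_of_mem _ hp⟩)
  rw [Finset.sum_product] at h3
  exact absurd (h _ _) (not_le.2 h3)

open Classical in
theorem inner {ℓ : ℕ} {S : Finset (Pl K)} {kp : Ω → Pl K} {Om₁ Om₂ : Ω → Prop}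
    {P : Ω → Ω → ZMod ℓ} {C θ : ℝ} (hC : 0 < C)
    (hθ : 0 < θ) (hBL : BLc ℓ S kp Om₁ Om₂ P C θ) {s Z : ℝ} (hs : 1 < s)
    (hZ : 1 ≤ Z) {α β : Finset Ω → ℂ} (hα : ∀ A, ‖α A‖ ≤ (NO kp A : ℝ) ^ (-s))
    (hβ : ∀ A, ‖β A‖ ≤ (NO kp A : ℝ) ^ (-s)) (hα' : ∀ A, α A ≠ 0 → Ad S kp Om₁ A ∧ Z < (NO kp A : ℝ))
    (hβ' : ∀ A, β A ≠ 0 → Ad S kp Om₂ A ∧ Z < (NO kp A : ℝ))
    (hsα : Summable (fun A => ‖α A‖)) (hsβ : Summable (fun A => ‖β A‖))
    (hφ : Summable (fun i : ℕ => ((2 : ℝ) ^ i) ^ (-(s - 1)) * (3 + i) ^ C)) :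
    ‖∑' p, dbl kp P α β p‖ ≤ (4 * C * Z ^ (-θ)) *
      (∑' i : ℕ, ((2 : ℝ) ^ i) ^ (-(s - 1)) * (3 + i) ^ C) ^ 2 := by
  have hsm : Summable (dbl kp P α β) := by
    have h1 := hsα.mul_of_nonneg hsβ (fun A => norm_nonneg _) (fun A => norm_nonneg _)
    exact Summable.of_norm_bounded h1 fun p => norm_dbl_le kp P α β p
  set φ : ℕ → ℝ := fun i : ℕ => ((2 : ℝ) ^ i) ^ (-(s - 1)) * (3 + i) ^ C with hφdef
  have hφ0 : ∀ i, 0 ≤ φ i := fun i => by simp only [hφdef]; positivity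
  refine norm_tsum_le_of_square hsm fun 𝒜 ℬ => ?_
  have hdec : ∑ A ∈ 𝒜, ∑ B ∈ ℬ, dbl kp P α β (A, B) =
      ∑ i ∈ 𝒜.image (fun A => Nat.log 2 (NO kp A)), ∑ k ∈ ℬ.image (fun A => Nat.log 2 (NO kp A)),
        ∑ A ∈ 𝒜.filter (fun A => Nat.log 2 (NO kp A) = i),
          ∑ B ∈ ℬ.filter (fun A => Nat.log 2 (NO kp A) = k), dbl kp P α β (A, B) := by
    rw [← Finset.sum_fiberwise_of_maps_to (s := 𝒜)
      (t := 𝒜.image (fun A => Nat.log 2 (NO kp A))) (g := fun A => Nat.log 2 (NO kp A))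
      (fun A hA => Finset.mem_image_of_mem _ hA)]
    refine Finset.sum_congr rfl fun i _ => ?_
    rw [Finset.sum_comm' (s := ℬ.image (fun A => Nat.log 2 (NO kp A)))
      (t := fun _ => 𝒜.filter (fun A => Nat.log 2 (NO kp A) = i))
      (t' := 𝒜.filter (fun A => Nat.log 2 (NO kp A) = i))
      (s' := fun _ => ℬ.image (fun A => Nat.log 2 (NO kp A))) (by intro x y; tauto)]
    refine Finset.sum_congr rfl fun A _ => ?_
    exact (Finset.sum_fiberwise_of_maps_to (s := ℬ)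
      (t := ℬ.image (fun A => Nat.log 2 (NO kp A))) (g := fun A => Nat.log 2 (NO kp A))
      (fun A hA => Finset.mem_image_of_mem _ hA) _).symm
  rw [hdec]
  have hc0 : 0 ≤ 4 * C * Z ^ (-θ) := by positivity
  calc ‖∑ i ∈ 𝒜.image (fun A => Nat.log 2 (NO kp A)), ∑ k ∈ ℬ.image (fun A => Nat.log 2 (NO kp A)),
        ∑ A ∈ 𝒜.filter (fun A => Nat.log 2 (NO kp A) = i),
          ∑ B ∈ ℬ.filter (fun A => Nat.log 2 (NO kp A) = k), dbl kp P α β (A, B)‖
      ≤ ∑ i ∈ 𝒜.image (fun A => Nat.log 2 (NO kp A)), ∑ k ∈ ℬ.image (fun A => Nat.log 2 (NO kp A)),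
        (4 * C * Z ^ (-θ)) * (φ i * φ k) := by
        refine (norm_sum_le _ _).trans (Finset.sum_le_sum fun i _ => ?_)
        refine (norm_sum_le _ _).trans (Finset.sum_le_sum fun k _ => ?_)
        exact block hC hθ hBL hs hZ hα hβ hα' hβ' i k _ _ (fun A hA => (Finset.mem_filter.mp hA).2)
          (fun A hA => (Finset.mem_filter.mp hA).2)
    _ = (4 * C * Z ^ (-θ)) * ((∑ i ∈ 𝒜.image (fun A => Nat.log 2 (NO kp A)), φ i) *
          (∑ k ∈ ℬ.image (fun A => Nat.log 2 (NO kp A)), φ k)) := by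
        rw [Finset.sum_mul_sum, Finset.mul_sum]
        refine Finset.sum_congr rfl fun i _ => ?_
        rw [Finset.mul_sum]
    _ ≤ (4 * C * Z ^ (-θ)) * ((∑' i, φ i) * (∑' i, φ i)) := by
        refine mul_le_mul_of_nonneg_left ?_ hc0
        exact mul_le_mul (hφ.sum_le_tsum _ fun i _ => hφ0 i) (hφ.sum_le_tsum _ fun i _ => hφ0 i)
          (Finset.sum_nonneg fun i _ => hφ0 i) (tsum_nonneg hφ0)
    _ = _ := by rw [pow_two]

end

section expo
variable {K : Type} [Field K] [NumberField K] {Ω : Type}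

open Classical in
/-- the exponent of a family -/
noncomputable def expo {ℓ : ℕ} {C : Type} [Fintype C] (ρ : C → C → Ω → Ω → ZMod ℓ)
    (A : C → Finset Ω) : ZMod ℓ :=
  ∑ c, ∑ c', if c = c' then 0 else syP (ρ c c') (A c) (A c')

open Classical in
theorem expo_mixed {ℓ : ℕ} {C : Type} [Fintype C] (ρ : C → C → Ω → Ω → ZMod ℓ) {a b : C}
    (hab : a ≠ b) (X Y : Finset Ω) (r : {c : C // c ≠ a ∧ c ≠ b} → Finset Ω) :
    expo ρ (glue a b X Y r) = expo ρ (glue a b ∅ ∅ r) +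
      (expo ρ (glue a b X ∅ r) - expo ρ (glue a b ∅ ∅ r)) +
      (expo ρ (glue a b ∅ Y r) - expo ρ (glue a b ∅ ∅ r)) +
      (syP (ρ a b) X Y + syP (ρ b a) Y X) := by
  have hQ : ∀ c c', (if c = c' then 0 else syP (ρ c c') (glue a b X Y r c) (glue a b X Y r c')) -
      (if c = c' then 0 else syP (ρ c c') (glue a b X ∅ r c) (glue a b X ∅ r c')) -
      (if c = c' then 0 else syP (ρ c c') (glue a b ∅ Y r c) (glue a b ∅ Y r c')) +
      (if c = c' then 0 else syP (ρ c c') (glue a b ∅ ∅ r c) (glue a b ∅ ∅ r c')) =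
      (if c = a then (if c' = b then syP (ρ a b) X Y else 0) else 0) +
      (if c = b then (if c' = a then syP (ρ b a) Y X else 0) else 0) := by
    intro c c'
    have hba : b ≠ a := Ne.symm hab
    by_cases ha : c = a
    · subst ha
      by_cases ha' : c' = c
      · subst ha'
        simp [hab]
      by_cases hb' : c' = b
      · subst hb'
        simp [hab, glue_a, glue_b hab, syP_empty_left, syP_empty_right]
      · simp only [glue_a, glue_d _ _ r c' ha' hb', if_neg (Ne.symm ha'), if_neg hb', if_neg hab,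
          if_true]
        ring
    by_cases hb : c = b
    · subst hb
      by_cases ha' : c' = a
      · subst ha'
        simp [hba, glue_a, glue_b hab, syP_empty_left, syP_empty_right]
      by_cases hb' : c' = c
      · subst hb'
        simp [hba]
      · simp only [glue_b hab, glue_d _ _ r c' ha' hb', if_neg (Ne.symm hb'), if_neg ha',
          if_neg hba, if_true]
        ring
    · by_cases hcc : c = c'
      · simp [hcc] at ha hb ⊢
        simp [ha, hb]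
      rw [if_neg ha, if_neg hb, if_neg hcc, if_neg hcc, if_neg hcc, if_neg hcc]
      by_cases ha' : c' = a
      · subst ha'
        simp only [glue_a, glue_d _ _ r c ha hb]
        ring
      by_cases hb' : c' = b
      · subst hb'
        simp only [glue_b hab, glue_d _ _ r c ha hb]
        ring
      · simp only [glue_d _ _ r c ha hb, glue_d _ _ r c' ha' hb']
        ring
  have hQ' := Finset.sum_congr (rfl : (Finset.univ : Finset C) = Finset.univ) fun c _ =>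
    Finset.sum_congr (rfl : (Finset.univ : Finset C) = Finset.univ) fun c' _ => hQ c c'
  simp only [Finset.sum_add_distrib, Finset.sum_sub_distrib, Finset.sum_const_zero,
    Finset.sum_ite_eq', Finset.mem_univ, if_true, Finset.sum_ite_irrel] at hQ'
  unfold expo
  linear_combination hQ'

theorem syP_add {ℓ : ℕ} (P Q : Ω → Ω → ZMod ℓ) (X Y : Finset Ω) :
    syP P X Y + syP Q Y X = syP (fun w w' => P w w' + Q w' w) X Y := by
  unfold syP
  rw [Finset.sum_comm (s := Y) (t := X), ← Finset.sum_add_distrib]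
  refine Finset.sum_congr rfl fun w _ => ?_
  rw [← Finset.sum_add_distrib]

theorem Dj_symm {kp : Ω → Pl K} {A B : Finset Ω} (h : Dj kp A B) : Dj kp B A :=
  fun w hw w' hw' => Ne.symm (h w' hw' w hw)

/-- the conditions on the rest -/
def Adm {C : Type} (S : Finset (Pl K)) (kp : Ω → Pl K) (Om : C → Ω → Prop) (W : Finset C) (Z : ℝ)
    (a b : C) (r : {c : C // c ≠ a ∧ c ≠ b} → Finset Ω) : Prop :=
  (∀ d, Ad S kp (Om d.1) (r d)) ∧ (∀ d d', d ≠ d' → Dj kp (r d) (r d')) ∧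
    ∀ d, d.1 ∈ W ↔ Z < (NO kp (r d) : ℝ)

/-- the conditions on one of the two sets -/
def Ok {D : Type} (S : Finset (Pl K)) (kp : Ω → Pl K) (Oma : Ω → Prop) (Z : ℝ) (r : D → Finset Ω)
    (X : Finset Ω) : Prop :=
  Ad S kp Oma X ∧ (∀ d, Dj kp X (r d)) ∧ Z < (NO kp X : ℝ)

theorem tup_glue {C : Type} (S : Finset (Pl K)) (kp : Ω → Pl K) (Om : C → Ω → Prop)
    (W : Finset C) (Z : ℝ) {a b : C} (hab : a ≠ b)
    (haW : a ∈ W) (hbW : b ∈ W) (X Y : Finset Ω)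
    (r : {c : C // c ≠ a ∧ c ≠ b} → Finset Ω) :
    (TupX S kp Om (glue a b X Y r) ∧ ∀ c, c ∈ W ↔ Z < (NO kp (glue a b X Y r c) : ℝ)) ↔
      Adm S kp Om W Z a b r ∧ Ok S kp (Om a) Z r X ∧ Ok S kp (Om b) Z r Y ∧ Dj kp X Y := by
  have hba : b ≠ a := Ne.symm hab
  constructor
  · rintro ⟨⟨h1, h2⟩, h3⟩
    have ea := glue_a a b X Y r
    have eb := glue_b hab X Y r
    have ed : ∀ d : {c : C // c ≠ a ∧ c ≠ b}, glue a b X Y r d.1 = r d := fun d =>
      glue_d X Y r d.1 d.2.1 d.2.2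
    refine ⟨⟨fun d => ?_, fun d d' hd => ?_, fun d => ?_⟩, ⟨?_, fun d => ?_, ?_⟩,
      ⟨?_, fun d => ?_, ?_⟩, ?_⟩
    · rw [← ed d]; exact h1 d.1
    · rw [← ed d, ← ed d']; exact h2 d.1 d'.1 fun h => hd (Subtype.ext h)
    · rw [← ed d]; exact h3 d.1
    · have := h1 a; rwa [ea] at this
    · have := h2 a d.1 (Ne.symm d.2.1); rwa [ea, ed] at this
    · have := (h3 a).mp haW; rwa [ea] at this
    · have := h1 b; rwa [eb] at this
    · have := h2 b d.1 (Ne.symm d.2.2); rwa [eb, ed] at this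
    · have := (h3 b).mp hbW; rwa [eb] at this
    · have := h2 a b hab; rwa [ea, eb] at this
  · rintro ⟨⟨h1, h2, h3⟩, ⟨x1, x2, x3⟩, ⟨y1, y2, y3⟩, hXY⟩
    refine ⟨⟨fun c => ?_, fun c c' hc => ?_⟩, fun c => ?_⟩
    · by_cases ha : c = a
      · subst ha; rwa [glue_a]
      by_cases hb : c = b
      · subst hb; rwa [glue_b hab]
      rw [glue_d X Y r c ha hb]; exact h1 ⟨c, ha, hb⟩
    · by_cases ha : c = a
      · subst ha
        by_cases hb' : c' = b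
        · subst hb'; rwa [glue_a, glue_b hab]
        rw [glue_a, glue_d X Y r c' (Ne.symm hc) hb']; exact x2 _
      by_cases hb : c = b
      · subst hb
        by_cases ha' : c' = a
        · subst ha'; rw [glue_a, glue_b hab]; exact Dj_symm hXY
        rw [glue_b hab, glue_d X Y r c' ha' (Ne.symm hc)]; exact y2 _
      by_cases ha' : c' = a
      · subst ha'; rw [glue_a, glue_d X Y r c ha hb]; exact Dj_symm (x2 _)
      by_cases hb' : c' = b
      · subst hb'; rw [glue_b hab, glue_d X Y r c ha hb]; exact Dj_symm (y2 _)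
      rw [glue_d X Y r c ha hb, glue_d X Y r c' ha' hb']
      exact h2 _ _ fun h => hc (congrArg Subtype.val h)
    · by_cases ha : c = a
      · subst ha; rw [glue_a]; exact ⟨fun _ => x3, fun _ => haW⟩
      by_cases hb : c = b
      · subst hb; rw [glue_b hab]; exact ⟨fun _ => y3, fun _ => hbW⟩
      rw [glue_d X Y r c ha hb]; exact h3 ⟨c, ha, hb⟩

/-- the weight of a set -/
noncomputable def wl (kp : Ω → Pl K) (l s : ℝ) (A : Finset Ω) : ℝ :=
  l ^ A.card * (NO kp A : ℝ) ^ (-s)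

theorem wl_nonneg (kp : Ω → Pl K) {l : ℝ} (hl : 0 < l) (s : ℝ) (A : Finset Ω) :
    0 ≤ wl kp l s A := by
  unfold wl; positivity

theorem wl_le (kp : Ω → Pl K) {l : ℝ} (hl : 0 < l) (hl1 : l ≤ 1) (s : ℝ) (A : Finset Ω) :
    wl kp l s A ≤ (NO kp A : ℝ) ^ (-s) :=
  mul_le_of_le_one_left (by positivity) (pow_le_one₀ hl.le hl1)

open Classical in
/-- the weight of an admissible set -/
noncomputable def wa (S : Finset (Pl K)) (kp : Ω → Pl K) (Om₁ : Ω → Prop) (l s : ℝ)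
    (A : Finset Ω) : ℝ := if Ad S kp Om₁ A then wl kp l s A else 0

theorem wa_nonneg (S : Finset (Pl K)) (kp : Ω → Pl K) (Om₁ : Ω → Prop) {l : ℝ} (hl : 0 < l)
    (s : ℝ) (A : Finset Ω) : 0 ≤ wa S kp Om₁ l s A := by
  unfold wa
  split_ifs
  · exact wl_nonneg kp hl s A
  · exact le_rfl

open Classical in
/-- the term of MX -/
noncomputable def FW {ℓ : ℕ} (S : Finset (Pl K)) (kp : Ω → Pl K) {C : Type} [Fintype C]
    (Om : C → Ω → Prop) (lam : C → ℝ) (I : C → Finset Ω → ℂ) (ρ : C → C → Ω → Ω → ZMod ℓ)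
    (Z : ℝ) (W : Finset C) (s : ℝ) (A : C → Finset Ω) : ℂ :=
  if TupX S kp Om A ∧ ∀ c, c ∈ W ↔ Z < (NO kp (A c) : ℝ) then trmX kp lam I ρ s A else 0

open Classical in
theorem norm_FW_le {ℓ : ℕ} (S : Finset (Pl K)) (kp : Ω → Pl K) {C : Type} [Fintype C]
    (Om : C → Ω → Prop) {lam : C → ℝ} (hlam : ∀ c, 0 < lam c) {I : C → Finset Ω → ℂ}
    (hI : ∀ c A, ‖I c A‖ ≤ 1) (ρ : C → C → Ω → Ω → ZMod ℓ) (Z : ℝ) (W : Finset C) (s : ℝ)
    (A : C → Finset Ω) : ‖FW S kp Om lam I ρ Z W s A‖ ≤ ∏ c, wa S kp (Om c) (lam c) s (A c) := by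
  unfold FW
  split_ifs with h
  · have e : ∀ c, wa S kp (Om c) (lam c) s (A c) = wl kp (lam c) s (A c) := fun c => by
      unfold wa
      rw [if_pos (h.1.1 c)]
    rw [Finset.prod_congr rfl fun c _ => e c]
    unfold trmX
    rw [norm_mul, norm_ee, mul_one, norm_mul, Complex.norm_real, Real.norm_eq_abs,
      abs_of_nonneg (Finset.prod_nonneg fun c _ => by have := hlam c; positivity), norm_prod]
    refine mul_le_of_le_one_right (Finset.prod_nonneg fun c _ => by have := hlam c; positivity) ?_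
    exact Finset.prod_le_one (fun c _ => norm_nonneg _) (fun c _ => hI c _)
  · rw [norm_zero]
    exact Finset.prod_nonneg fun c _ => wa_nonneg S kp (Om c) (hlam c) s _

open Classical in
theorem fixed_r {ℓ : ℕ} (hℓ : ℓ.Prime) (S : Finset (Pl K)) (kp : Ω → Pl K) {C : Type} [Fintype C]
    (Om : C → Ω → Prop) {lam : C → ℝ} (hlam : ∀ c, 0 < lam c ∧ lam c ≤ 1) {I : C → Finset Ω → ℂ}
    (hI : ∀ c A, ‖I c A‖ ≤ 1) (ρ : C → C → Ω → Ω → ZMod ℓ) (Z : ℝ) (W : Finset C) {s : ℝ}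
    {a b : C} (hab : a ≠ b) (haW : a ∈ W) (hbW : b ∈ W)
    (r : {c : C // c ≠ a ∧ c ≠ b} → Finset Ω) :
    ∃ α β : Finset Ω → ℂ, (∀ A, ‖α A‖ ≤ wa S kp (Om a) (lam a) s A) ∧
      (∀ A, ‖β A‖ ≤ wa S kp (Om b) (lam b) s A) ∧ (∀ A, ‖α A‖ ≤ (NO kp A : ℝ) ^ (-s)) ∧
      (∀ A, ‖β A‖ ≤ (NO kp A : ℝ) ^ (-s)) ∧
      (∀ A, α A ≠ 0 → Ad S kp (Om a) A ∧ Z < (NO kp A : ℝ)) ∧
      (∀ A, β A ≠ 0 → Ad S kp (Om b) A ∧ Z < (NO kp A : ℝ)) ∧
      ∃ c : ℂ, ‖c‖ ≤ ∏ d, wa S kp (Om d.1) (lam d.1) s (r d) ∧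
      ∀ p : Finset Ω × Finset Ω, FW S kp Om lam I ρ Z W s (glue a b p.1 p.2 r) =
        c * dbl kp (fun w w' => ρ a b w w' + ρ b a w' w) α β p := by
  set E0 := expo ρ (glue a b ∅ ∅ r) with hE0
  set EX : Finset Ω → ZMod ℓ := fun X => expo ρ (glue a b X ∅ r) - E0 with hEX
  set EY : Finset Ω → ZMod ℓ := fun Y => expo ρ (glue a b ∅ Y r) - E0 with hEY
  have hα : ∀ A, ‖(if Ok S kp (Om a) Z r A then ((wl kp (lam a) s A : ℝ) : ℂ) * I a A *
      ee ℓ (EX A) else 0)‖ ≤ wa S kp (Om a) (lam a) s A := by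
    intro A
    split_ifs with h
    · unfold wa
      rw [if_pos h.1, norm_mul, norm_ee, mul_one, norm_mul, Complex.norm_real, Real.norm_eq_abs,
        abs_of_nonneg (wl_nonneg kp (hlam a).1 s A)]
      exact mul_le_of_le_one_right (wl_nonneg kp (hlam a).1 s A) (hI a A)
    · rw [norm_zero]; exact wa_nonneg S kp (Om a) (hlam a).1 s A
  have hβ : ∀ A, ‖(if Ok S kp (Om b) Z r A then ((wl kp (lam b) s A : ℝ) : ℂ) * I b A *
      ee ℓ (EY A) else 0)‖ ≤ wa S kp (Om b) (lam b) s A := by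
    intro A
    split_ifs with h
    · unfold wa
      rw [if_pos h.1, norm_mul, norm_ee, mul_one, norm_mul, Complex.norm_real, Real.norm_eq_abs,
        abs_of_nonneg (wl_nonneg kp (hlam b).1 s A)]
      exact mul_le_of_le_one_right (wl_nonneg kp (hlam b).1 s A) (hI b A)
    · rw [norm_zero]; exact wa_nonneg S kp (Om b) (hlam b).1 s A
  have hwa : ∀ c A, wa S kp (Om c) (lam c) s A ≤ (NO kp A : ℝ) ^ (-s) := by
    intro c A
    unfold wa
    split_ifs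
    · exact wl_le kp (hlam c).1 (hlam c).2 s A
    · positivity
  refine ⟨fun X => if Ok S kp (Om a) Z r X then ((wl kp (lam a) s X : ℝ) : ℂ) * I a X *
      ee ℓ (EX X) else 0,
    fun Y => if Ok S kp (Om b) Z r Y then ((wl kp (lam b) s Y : ℝ) : ℂ) * I b Y *
      ee ℓ (EY Y) else 0, hα, hβ, fun A => (hα A).trans (hwa a A), fun A => (hβ A).trans (hwa b A),
    ?_, ?_, if Adm S kp Om W Z a b r then
      ((∏ d : {c : C // c ≠ a ∧ c ≠ b}, wl kp (lam d.1) s (r d) : ℝ) : ℂ) *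
        (∏ d : {c : C // c ≠ a ∧ c ≠ b}, I d.1 (r d)) * ee ℓ E0 else 0, ?_, ?_⟩
  · intro A hA
    have : Ok S kp (Om a) Z r A := by
      by_contra hno
      simp only [if_neg hno, ne_eq, not_true_eq_false] at hA
    exact ⟨this.1, this.2.2⟩
  · intro A hA
    have : Ok S kp (Om b) Z r A := by
      by_contra hno
      simp only [if_neg hno, ne_eq, not_true_eq_false] at hA
    exact ⟨this.1, this.2.2⟩
  · split_ifs with h
    · have e : ∀ d : {c : C // c ≠ a ∧ c ≠ b}, wa S kp (Om d.1) (lam d.1) s (r d) =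
          wl kp (lam d.1) s (r d) := fun d => by
        unfold wa
        rw [if_pos (h.1 d)]
      rw [Finset.prod_congr rfl fun d _ => e d]
      have h0 : 0 ≤ ∏ d : {c : C // c ≠ a ∧ c ≠ b}, wl kp (lam d.1) s (r d) :=
        Finset.prod_nonneg fun d _ => wl_nonneg kp (hlam d.1).1 s _
      rw [norm_mul, norm_ee, mul_one, norm_mul, Complex.norm_real, Real.norm_eq_abs,
        abs_of_nonneg h0, norm_prod]
      exact mul_le_of_le_one_right h0
        (Finset.prod_le_one (fun d _ => norm_nonneg _) (fun d _ => hI d.1 _))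
    · rw [norm_zero]
      exact Finset.prod_nonneg fun d _ => wa_nonneg S kp (Om d.1) (hlam d.1).1 s _
  · rintro ⟨X, Y⟩
    unfold FW dbl
    by_cases hc : Adm S kp Om W Z a b r ∧ Ok S kp (Om a) Z r X ∧ Ok S kp (Om b) Z r Y ∧ Dj kp X Y
    · rw [if_pos ((tup_glue S kp Om W Z hab haW hbW X Y r).mpr hc)]
      obtain ⟨h1, h2, h3, h4⟩ := hc
      rw [if_pos h1, if_pos h4]
      simp only [if_pos h2, if_pos h3]
      have hexp : expo ρ (glue a b X Y r) = E0 + EX X + EY Y +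
          syP (fun w w' => ρ a b w w' + ρ b a w' w) X Y := by
        rw [expo_mixed ρ hab X Y r, syP_add]
      have htrm : trmX kp lam I ρ s (glue a b X Y r) =
          ((∏ c, wl kp (lam c) s (glue a b X Y r c) : ℝ) : ℂ) *
            (∏ c, I c (glue a b X Y r c)) * ee ℓ (expo ρ (glue a b X Y r)) := by
        unfold trmX expo wl syP
        rfl
      rw [htrm, hexp, prod_split hab (fun c => wl kp (lam c) s (glue a b X Y r c)),
        prod_split hab (fun c => I c (glue a b X Y r c)), glue_a, glue_b hab,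
        ee_add ℓ hℓ, ee_add ℓ hℓ, ee_add ℓ hℓ]
      have hd : ∏ d : {c : C // c ≠ a ∧ c ≠ b}, wl kp (lam d.1) s (glue a b X Y r d.1) =
          ∏ d : {c : C // c ≠ a ∧ c ≠ b}, wl kp (lam d.1) s (r d) := by
        refine Finset.prod_congr rfl fun d _ => ?_
        rw [glue_d X Y r d.1 d.2.1 d.2.2]
      have hd' : ∏ d : {c : C // c ≠ a ∧ c ≠ b}, I d.1 (glue a b X Y r d.1) =
          ∏ d : {c : C // c ≠ a ∧ c ≠ b}, I d.1 (r d) := by
        refine Finset.prod_congr rfl fun d _ => ?_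
        rw [glue_d X Y r d.1 d.2.1 d.2.2]
      rw [hd, hd']
      push_cast
      ring
    · rw [if_neg fun hh => hc ((tup_glue S kp Om W Z hab haW hbW X Y r).mp hh)]
      by_cases h1 : Adm S kp Om W Z a b r
      · by_cases h2 : Ok S kp (Om a) Z r X
        · by_cases h3 : Ok S kp (Om b) Z r Y
          · have h4 : ¬ Dj kp X Y := fun h4 => hc ⟨h1, h2, h3, h4⟩
            simp only [if_neg h4, mul_zero]
          · simp only [if_neg h3]
            simp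
        · simp only [if_neg h2]
          simp
      · simp only [if_neg h1, zero_mul]

end expo

open Classical in
/-- one pair of linked colours -/
theorem pair (hXMAS : S_XMAS) {ℓ : ℕ} (hℓ : ℓ.Prime) {K : Type} [Field K] [NumberField K]
    (S : Finset (Pl K)) {Ω : Type} (kp : Ω → Pl K) {C : Type} [Fintype C] (Om : C → Ω → Prop)
    (lam mu : C → ℝ) (I : C → Finset Ω → ℂ) (χ : C → Ω → ZMod ℓ) (ρ : C → C → Ω → Ω → ZMod ℓ)
    (lk : C → C → Prop) (good triv : C → Prop) (hcs : CS ℓ K S Ω kp C Om lam mu I χ ρ lk good triv)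
    (a b : C) (hab : a ≠ b) (hlk : lk a b) :
    ∃ κ₀ : ℝ, 0 < κ₀ ∧ ∀ κ : ℝ, κ₀ ≤ κ → ∀ W : Finset C, a ∈ W → b ∈ W →
      Tendsto (fun s : ℝ => ((s - 1 : ℝ) : ℂ) * MX S kp Om lam I ρ ((1 / (s - 1)) ^ κ) W s)
        (𝓝[>] 1) (𝓝 0) := by
  obtain ⟨C₀, θ, hC₀, hθ, hbl⟩ := hcs.BL a b hab hlk
  have hbl' : BLc ℓ S kp (Om a) (Om b) (fun w w' => ρ a b w w' + ρ b a w' w) C₀ θ := hbl
  obtain ⟨B, n, hB, hphi⟩ := phi_sum C₀ hC₀
  -- one variable
  have hone : ∀ c, ∃ D : ℝ, 0 < D ∧ ∀ s : ℝ, 1 < s → s ≤ 2 →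
      Summable (fun A : Finset Ω => wa S kp (Om c) (lam c) s A) ∧
      ∑' A : Finset Ω, wa S kp (Om c) (lam c) s A ≤ D * (1 / (s - 1)) ^ (mu c) := by
    intro c
    obtain ⟨D, hD, h1, -⟩ := hXMAS K S Ω kp (Om c) (lam c) (mu c) hcs.fib (hcs.lam_pos c).1
      (hcs.lam_pos c).2 (hcs.mu_pos c) (hcs.dens c) 0 1 le_rfl
    refine ⟨D, hD, fun s hs hs2 => ?_⟩
    obtain ⟨h2, h3⟩ := h1 s hs hs2
    constructor
    · refine Summable.of_nonneg_of_le (fun A => wa_nonneg S kp (Om c) (hcs.lam_pos c).1 s A)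
        (fun A => ?_) h2
      unfold wa
      split_ifs
      · rw [Nat.cast_one, one_pow, one_mul, Real.rpow_zero, mul_one]
        exact wl_le kp (hcs.lam_pos c).1 (hcs.lam_pos c).2 s A
      · exact le_rfl
    · have e : ∀ A : Finset Ω, wa S kp (Om c) (lam c) s A =
          (if Ad S kp (Om c) A then lam c ^ A.card * (NO kp A : ℝ) ^ (-s) * gO kp A ^ (0 : ℝ)
            else 0) := by
        intro A
        unfold wa wl
        rw [Real.rpow_zero, mul_one]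
      rw [tsum_congr e]
      exact h3
  choose D hD hone using hone
  set D₁ : ℝ := ∏ d : {c : C // c ≠ a ∧ c ≠ b}, D d.1 with hD₁
  have hD₁0 : 0 < D₁ := Finset.prod_pos fun d _ => hD d.1
  set N : ℝ := ∑ d : {c : C // c ≠ a ∧ c ≠ b}, mu d.1 with hN
  have hN0 : 0 ≤ N := Finset.sum_nonneg fun d _ => (hcs.mu_pos d.1).le
  refine ⟨((N : ℝ) + 2 * n + 1) / θ, by positivity, fun κ hκ W haW hbW => ?_⟩
  have hκθ : (N : ℝ) + 2 * n + 1 ≤ κ * θ := by rwa [div_le_iff₀ hθ] at hκ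
  have hκ0 : 0 < κ := lt_of_lt_of_le (by positivity) hκ
  -- the limit
  set Q : ℝ := D₁ * (4 * C₀ * B ^ 2) with hQ
  have hlim : Tendsto (fun s : ℝ => Q * (s - 1)) (𝓝[>] 1) (𝓝 0) := by
    have : Tendsto (fun s : ℝ => Q * (s - 1)) (𝓝 1) (𝓝 (Q * (1 - 1))) :=
      ((continuous_id.sub continuous_const).const_mul Q).tendsto 1
    rw [sub_self, mul_zero] at this
    exact this.mono_left nhdsWithin_le_nhds
  rw [tendsto_zero_iff_norm_tendsto_zero]
  refine squeeze_zero' (Eventually.of_forall fun s => norm_nonneg _) ?_ hlim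
  have hev : ∀ᶠ s : ℝ in 𝓝[>] 1, s ≤ 2 :=
    (eventually_le_nhds (show (1 : ℝ) < 2 by norm_num)).filter_mono nhdsWithin_le_nhds
  filter_upwards [self_mem_nhdsWithin, hev] with s hs hs2
  have hs1 : 1 < s := hs
  have hs0 : 0 < s - 1 := by linarith
  set u : ℝ := 1 / (s - 1) with hu
  have hu1 : 1 ≤ u := by rw [hu, le_div_iff₀ hs0]; linarith
  have hu0 : 0 < u := by linarith
  have hsu : (s - 1) * u = 1 := by rw [hu]; field_simp
  set Z : ℝ := u ^ κ with hZ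
  have hZ1 : 1 ≤ Z := Real.one_le_rpow hu1 hκ0.le
  obtain ⟨hφ1, hφ2⟩ := hphi (s - 1) hs0 (by linarith)
  set Φ : ℝ := ∑' i : ℕ, ((2 : ℝ) ^ i) ^ (-(s - 1)) * (3 + i) ^ C₀ with hΦ
  have hΦ0 : 0 ≤ Φ := tsum_nonneg fun i => by positivity
  -- summability of the terms
  have hFW : Summable (FW S kp Om lam I ρ Z W s) := by
    refine Summable.of_norm_bounded
      (pi_sum (fun c : C => wa S kp (Om c) (lam c) s)
        (fun c A => wa_nonneg S kp (Om c) (hcs.lam_pos c).1 s A)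
        (fun c => (hone c s hs1 hs2).1)).1 fun A => ?_
    exact norm_FW_le S kp Om (fun c => (hcs.lam_pos c).1) hcs.I_le ρ Z W s A
  have hFW' : Summable (fun p => FW S kp Om lam I ρ Z W s (glueE hab p)) :=
    (Equiv.summable_iff (glueE hab)).mpr hFW
  have hMW : MX S kp Om lam I ρ Z W s = ∑' r : {c : C // c ≠ a ∧ c ≠ b} → Finset Ω,
      ∑' p : Finset Ω × Finset Ω, FW S kp Om lam I ρ Z W s (glueE hab (r, p)) := by
    rw [← hFW'.tsum_prod, Equiv.tsum_eq (glueE hab) (FW S kp Om lam I ρ Z W s)]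
    rfl
  set J : ℝ := (4 * C₀ * Z ^ (-θ)) * Φ ^ 2 with hJ
  have hJ0 : 0 ≤ J := by positivity
  obtain ⟨hp1, hp2⟩ := pi_sum (fun d : {c : C // c ≠ a ∧ c ≠ b} => wa S kp (Om d.1) (lam d.1) s)
    (fun d A => wa_nonneg S kp (Om d.1) (hcs.lam_pos d.1).1 s A)
    (fun d => (hone d.1 s hs1 hs2).1)
  have hMWle : ‖MX S kp Om lam I ρ Z W s‖ ≤
      (∑' r : {c : C // c ≠ a ∧ c ≠ b} → Finset Ω, ∏ d, wa S kp (Om d.1) (lam d.1) s (r d)) * J := by
    rw [hMW, ← tsum_mul_right]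
    refine tsum_of_norm_bounded (hp1.mul_right J).hasSum fun r => ?_
    obtain ⟨α, β, ha0, hb0, ha1, hb1', ha2, hb2', c, hc, hcp⟩ := fixed_r hℓ S kp Om hcs.lam_pos
      hcs.I_le ρ Z W (s := s) hab haW hbW r
    have e : ∑' p : Finset Ω × Finset Ω, FW S kp Om lam I ρ Z W s (glueE hab (r, p)) =
        c * ∑' p, dbl kp (fun w w' => ρ a b w w' + ρ b a w' w) α β p := by
      rw [← tsum_mul_left]
      exact tsum_congr fun p => hcp p
    rw [e, norm_mul]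
    have hin := inner hC₀ hθ hbl' hs1 hZ1 ha1 hb1' ha2 hb2'
      (Summable.of_nonneg_of_le (fun A => norm_nonneg _) ha0 (hone a s hs1 hs2).1)
      (Summable.of_nonneg_of_le (fun A => norm_nonneg _) hb0 (hone b s hs1 hs2).1) hφ1
    exact mul_le_mul hc hin (norm_nonneg _)
      (Finset.prod_nonneg fun d _ => wa_nonneg S kp (Om d.1) (hcs.lam_pos d.1).1 s _)
  -- the sum over the rest
  have hrest : ∑' r : {c : C // c ≠ a ∧ c ≠ b} → Finset Ω, ∏ d, wa S kp (Om d.1) (lam d.1) s (r d) ≤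
      D₁ * u ^ N := by
    refine hp2.trans ?_
    rw [hD₁, hN, Real.rpow_sum_of_pos hu0, ← Finset.prod_mul_distrib]
    exact Finset.prod_le_prod
      (fun d _ => tsum_nonneg fun A => wa_nonneg S kp (Om d.1) (hcs.lam_pos d.1).1 s A)
      (fun d _ => (hone d.1 s hs1 hs2).2)
  have hZθ : Z ^ (-θ) ≤ u ^ (-((N : ℝ) + 2 * n)) := by
    rw [hZ, ← Real.rpow_mul hu0.le]
    refine Real.rpow_le_rpow_of_exponent_le hu1 ?_
    linarith
  have hJle : J ≤ (4 * C₀ * u ^ (-((N : ℝ) + 2 * n))) * (B * u ^ n) ^ 2 := by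
    rw [hJ]
    refine mul_le_mul (mul_le_mul_of_nonneg_left hZθ (by positivity))
      (pow_le_pow_left₀ hΦ0 hφ2 2) (by positivity) (by positivity)
  have hun : u ^ N * (u ^ (-((N : ℝ) + 2 * n)) * (u ^ n) ^ 2) = 1 := by
    rw [← Real.rpow_natCast u n, ← Real.rpow_natCast (u ^ (n : ℝ)) 2,
      ← Real.rpow_mul hu0.le, ← Real.rpow_add hu0, ← Real.rpow_add hu0]
    have : (N : ℝ) + (-((N : ℝ) + 2 * n) + n * ((2 : ℕ) : ℝ)) = 0 := by push_cast; ring
    rw [this, Real.rpow_zero]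
  rw [norm_mul, Complex.norm_real, Real.norm_eq_abs, abs_of_pos hs0]
  calc (s - 1) * ‖MX S kp Om lam I ρ Z W s‖
      ≤ (s - 1) * ((D₁ * u ^ N) * ((4 * C₀ * u ^ (-((N : ℝ) + 2 * n))) * (B * u ^ n) ^ 2)) := by
        refine mul_le_mul_of_nonneg_left ?_ hs0.le
        exact hMWle.trans (mul_le_mul hrest hJle hJ0 (by positivity))
    _ = Q * (s - 1) * (u ^ N * (u ^ (-((N : ℝ) + 2 * n)) * (u ^ n) ^ 2)) := by
        rw [mul_pow B (u ^ n) 2, hQ]
        generalize u ^ (-((N : ℝ) + 2 * n)) = x1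
        generalize u ^ n = x2
        generalize u ^ N = x3
        generalize D₁ = x4
        generalize s - 1 = x5
        ring
    _ = Q * (s - 1) := by rw [hun, mul_one]

open Classical in
theorem t_XAN1 (hXMAS : S_XMAS) : S_XAN1 := by
  intro ℓ hℓ K _ _ S Ω kp C _ Om lam mu I χ ρ lk good triv hcs
  have hp : ∀ p : C × C, ∃ κ₀ : ℝ, 0 < κ₀ ∧ (p.1 ≠ p.2 → lk p.1 p.2 → ∀ κ : ℝ, κ₀ ≤ κ →
      ∀ W : Finset C, p.1 ∈ W → p.2 ∈ W →
      Tendsto (fun s : ℝ => ((s - 1 : ℝ) : ℂ) * MX S kp Om lam I ρ ((1 / (s - 1)) ^ κ) W s)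
        (𝓝[>] 1) (𝓝 0)) := by
    intro p
    by_cases h : p.1 ≠ p.2 ∧ lk p.1 p.2
    · obtain ⟨κ₀, h0, h1⟩ := pair hXMAS hℓ S kp Om lam mu I χ ρ lk good triv hcs p.1 p.2 h.1 h.2
      exact ⟨κ₀, h0, fun _ _ => h1⟩
    · exact ⟨1, one_pos, fun h1 h2 => absurd ⟨h1, h2⟩ h⟩
  choose k hk0 hk using hp
  refine ⟨1 + ∑ p, k p, ?_, fun κ hκ W a b ha hb hab hlk => ?_⟩
  · have : 0 ≤ ∑ p, k p := Finset.sum_nonneg fun p _ => (hk0 p).le
    linarith
  · refine hk (a, b) hab hlk κ (le_trans ?_ hκ) W ha hb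
    have := Finset.single_le_sum (f := k) (fun p _ => (hk0 p).le) (Finset.mem_univ (a, b))
    linarith

end Pool.Agent.T3h73.SG.XAN1
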