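import Pool.Agent.T3h73.SG.FamX

/-!
Task XAN2 of project SG (helper73): families whose large sets have total mass less than one.
-/

set_option autoImplicit false
set_option linter.all false

open NumberField IsDedekindDomain Filter Topology

namespace Pool.Agent.T3h73.SG.XAN2

open Pool.Agent.T3h73.SL (Pl)
open Pool.Agent.T3h73.SG.FamX
open Pool.Agent.T3h73.SD.Fam (pi_sum lim_log)

open Classical in
theorem norm_MX_le {K : Type} [Field K] [NumberField K] {Ω : Type} {ℓ : ℕ} (S : Finset (Pl K))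
    (kp : Ω → Pl K) {C : Type} [Fintype C]
    (Om : C → Ω → Prop) (lam : C → ℝ) (hl : ∀ c, 0 ≤ lam c) (I : C → Finset Ω → ℂ)
    (hI : ∀ c A, ‖I c A‖ ≤ 1) (ρ : C → C → Ω → Ω → ZMod ℓ) (Z : ℝ) (W : Finset C) (s : ℝ)
    (t : C → Finset Ω → ℝ) (ht0 : ∀ c A, 0 ≤ t c A) (ht : ∀ c, Summable (t c))
    (hle : ∀ c A, (c ∈ W ↔ Z < (NO kp A : ℝ)) → wX S kp (Om c) (lam c) s A ≤ t c A) :
    ‖MX S kp Om lam I ρ Z W s‖ ≤ ∏ c, ∑' A, t c A := by
  obtain ⟨h1, h2⟩ := pi_sum t ht0 ht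
  refine le_trans ?_ h2
  unfold MX
  refine tsum_of_norm_bounded h1.hasSum fun A => ?_
  split_ifs with hA
  · refine (norm_trmX_le S kp Om lam hl I hI ρ s A hA.1).trans ?_
    exact Finset.prod_le_prod (fun c _ => wX_nonneg S kp (Om c) (hl c) s _)
      fun c _ => hle c (A c) (hA.2 c)
  · rw [norm_zero]
    exact Finset.prod_nonneg fun c _ => ht0 c _

open Classical in
theorem t_XAN2 (hXMAS : S_XMAS) : S_XAN2 := by
  intro ℓ hℓ K _ _ S Ω kp C _ Om lam mu I χ ρ lk good triv hCS κ hκ W hW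
  have hone : ∀ c, _ := fun c => one_var hXMAS S kp (Om c) (lam c) (mu c) hCS.fib (hCS.lam_pos c).1
      (hCS.lam_pos c).2 (hCS.mu_pos c) (hCS.dens c)
  choose C₁ hC₁ h1 h2 using hone
  set N : ℕ := ⌈∑ c, C₁ c⌉₊ with hN
  set ε : ℝ := 1 - ∑ c ∈ W, mu c with hε
  have hε0 : 0 < ε := by rw [hε]; linarith
  have hlim := (lim_log κ ε hκ hε0 N).const_mul (∏ c, C₁ c)
  rw [mul_zero] at hlim
  rw [tendsto_zero_iff_norm_tendsto_zero]
  refine squeeze_zero' (Eventually.of_forall fun s => norm_nonneg _) ?_ hlim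
  have hev : ∀ᶠ s : ℝ in 𝓝[>] 1, s ≤ 2 :=
    (eventually_le_nhds (show (1 : ℝ) < 2 by norm_num)).filter_mono nhdsWithin_le_nhds
  filter_upwards [self_mem_nhdsWithin, hev] with s hs hs2
  have hs1 : 1 < s := hs
  have hs0 : 0 < s - 1 := by linarith
  set u : ℝ := 1 / (s - 1) with hu
  have hu1 : 1 ≤ u := by rw [hu, le_div_iff₀ hs0]; linarith
  have hu0 : 0 < u := by linarith
  set Z : ℝ := u ^ κ with hZ
  have hZ1 : 1 ≤ Z := Real.one_le_rpow hu1 hκ.le
  have hlZ : Real.log Z = κ * Real.log u := by rw [hZ, Real.log_rpow hu0]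
  have hlu : 0 ≤ Real.log u := Real.log_nonneg hu1
  set t : C → Finset Ω → ℝ := fun c A =>
    if c ∈ W then wX S kp (Om c) (lam c) s A else
      (if (NO kp A : ℝ) ≤ Z then wX S kp (Om c) (lam c) s A else 0) with ht
  have ht0 : ∀ c A, 0 ≤ t c A := by
    intro c A
    simp only [ht]
    have := wX_nonneg S kp (Om c) (hCS.lam_pos c).1.le s A
    split_ifs
    · exact this
    · exact this
    · exact le_rfl
  have hts : ∀ c, Summable (t c) := by
    intro c
    by_cases hc : c ∈ W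
    · simpa only [ht, if_pos hc] using (h1 c s hs1 hs2).1
    · simpa only [ht, if_neg hc] using (h2 c Z hZ1 s hs1).1
  have hb := norm_MX_le S kp Om lam (fun c => (hCS.lam_pos c).1.le) I hCS.I_le ρ Z W s t ht0 hts (by
    intro c A hcA
    simp only [ht]
    by_cases hc : c ∈ W
    · rw [if_pos hc]
    · rw [if_neg hc, if_pos (not_lt.mp fun hlt => hc (hcA.mpr hlt))])
  have hcu : 0 ≤ κ * Real.log u := by positivity
  have hcu1 : 1 ≤ 1 + κ * Real.log u := by linarith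
  have hcu0 : 0 < 1 + κ * Real.log u := by linarith
  have hC0 : ∀ c, 0 ≤ C₁ c := fun c => by linarith [hC₁ c]
  -- the product
  have hprod : ∏ c, ∑' A, t c A ≤
      ∏ c, (C₁ c * (1 + κ * Real.log u) ^ (C₁ c)) * (if c ∈ W then u ^ (mu c) else 1) := by
    refine Finset.prod_le_prod (fun c _ => tsum_nonneg (ht0 c)) fun c _ => ?_
    by_cases hc : c ∈ W
    · simp only [ht, if_pos hc]
      refine (h1 c s hs1 hs2).2.trans ?_
      have : C₁ c ≤ C₁ c * (1 + κ * Real.log u) ^ (C₁ c) :=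
        le_mul_of_one_le_right (hC0 c) (Real.one_le_rpow hcu1 (hC0 c))
      exact mul_le_mul_of_nonneg_right this (by positivity)
    · simp only [ht, if_neg hc, mul_one]
      have := (h2 c Z hZ1 s hs1).2
      rwa [hlZ] at this
  have hprod2 : ∏ c, (C₁ c * (1 + κ * Real.log u) ^ (C₁ c)) * (if c ∈ W then u ^ (mu c) else 1) =
      (∏ c, C₁ c) * (1 + κ * Real.log u) ^ (∑ c, C₁ c) * u ^ (∑ c ∈ W, mu c) := by
    rw [Finset.prod_mul_distrib, Finset.prod_mul_distrib, Real.rpow_sum_of_pos hcu0,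
      Real.rpow_sum_of_pos hu0]
    congr 1
    rw [Finset.prod_ite_mem, Finset.univ_inter]
  have hpN : (1 + κ * Real.log u) ^ (∑ c, C₁ c) ≤ (1 + κ * Real.log u) ^ N := by
    rw [← Real.rpow_natCast]
    exact Real.rpow_le_rpow_of_exponent_le hcu1 (Nat.le_ceil _)
  have hue : (s - 1) * u ^ (∑ c ∈ W, mu c) = (s - 1) ^ ε := by
    rw [hu, one_div, Real.inv_rpow hs0.le, ← Real.rpow_neg hs0.le]
    have h5 : (s - 1) * (s - 1) ^ (-∑ c ∈ W, mu c) = (s - 1) ^ (1 + (-∑ c ∈ W, mu c)) := by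
      rw [Real.rpow_add hs0, Real.rpow_one]
    rw [h5, hε]
    congr 1
  have hPC : 0 ≤ ∏ c, C₁ c := Finset.prod_nonneg fun c _ => hC0 c
  rw [norm_mul, Complex.norm_real, Real.norm_eq_abs, abs_of_pos hs0]
  calc (s - 1) * ‖MX S kp Om lam I ρ Z W s‖
      ≤ (s - 1) * ((∏ c, C₁ c) * (1 + κ * Real.log u) ^ (∑ c, C₁ c) * u ^ (∑ c ∈ W, mu c)) := by
        rw [← hprod2]
        exact mul_le_mul_of_nonneg_left (hb.trans hprod) hs0.le
    _ = (∏ c, C₁ c) * (((s - 1) * u ^ (∑ c ∈ W, mu c)) *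
        (1 + κ * Real.log u) ^ (∑ c, C₁ c)) := by ring
    _ ≤ (∏ c, C₁ c) * (((s - 1) * u ^ (∑ c ∈ W, mu c)) * (1 + κ * Real.log u) ^ N) := by
        refine mul_le_mul_of_nonneg_left ?_ hPC
        exact mul_le_mul_of_nonneg_left hpN (by positivity)
    _ = _ := by rw [hue]

end Pool.Agent.T3h73.SG.XAN2
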