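import Pool.Agent.T3h73.SG.Xan3E

/-!
# SG/XAN3 (helper88): unlinked large variables
-/

set_option autoImplicit false
set_option linter.all false

open NumberField IsDedekindDomain Filter Topology

namespace Pool.Agent.T3h73.SG.XAN3

/-- XAN3 -/
theorem t_XAN3 (hXMAS : S_XMAS) : S_XAN3 := by
  intro ℓ hℓ K _ _ S Ω kp C _ Om lam mu I χ ρ lk good triv hc κ hκ W hW hW1
  exact xan3 hXMAS hℓ hc hc.I_empty hκ W hW hW1

end Pool.Agent.T3h73.SG.XAN3
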