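import Pool.Agent.T3h73.SG.StmX
import Pool.Agent.T3h73.SD.T_MASS

/-!
Task XMAS of project SG (helper73): sums of absolute values over finite sets of marked places.
-/

set_option autoImplicit false
set_option linter.all false

open NumberField IsDedekindDomain Filter Topology

namespace Pool.Agent.T3h73.SG.XMAS

open Pool.Agent.T3h73.SL (Pl)
open Pool.Agent.H921R2.TatePole
open Pool.Agent.T3h73.SD.MASS (one_le_nm fac_le)

variable {K : Type} [Field K] [NumberField K] {Ω : Type}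

theorem NO_rpow (kp : Ω → Pl K) (A : Finset Ω) (s : ℝ) :
    (NO kp A : ℝ) ^ (-s) = ∏ w ∈ A, (nm (kp w) : ℝ) ^ (-s) := by
  unfold NO
  push_cast
  rw [Real.finsetProd_rpow _ _ (fun v _ => by positivity)]
  rfl

theorem gO_rpow (kp : Ω → Pl K) (A : Finset Ω) (D : ℝ) :
    gO kp A ^ D = ∏ w ∈ A, (1 + 1 / (nm (kp w) : ℝ)) ^ D := by
  unfold gO
  rw [Real.finsetProd_rpow _ _ (fun v _ => by positivity)]
  rfl

theorem one_le_NO (kp : Ω → Pl K) (A : Finset Ω) : (1 : ℝ) ≤ (NO kp A : ℝ) := by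
  unfold NO
  push_cast
  exact Finset.one_le_prod (fun w _ => one_le_nm (kp w))

theorem gO_pos (kp : Ω → Pl K) (A : Finset Ω) : 0 < gO kp A := by
  unfold gO
  exact Finset.prod_pos fun w _ => by positivity

theorem term_eq (kp : Ω → Pl K) (A : Finset Ω) (c s D : ℝ) :
    c ^ A.card * (NO kp A : ℝ) ^ (-s) * gO kp A ^ D =
      ∏ w ∈ A, (c * (nm (kp w) : ℝ) ^ (-s) * (1 + 1 / (nm (kp w) : ℝ)) ^ D) := by
  rw [NO_rpow, gO_rpow, Finset.prod_mul_distrib, Finset.prod_mul_distrib, Finset.prod_const]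

/-- the sum over the marked places converges -/
theorem fib_sum (kp : Ω → Pl K) {g : ℕ}
    (hg : ∀ q : Pl K, {w | kp w = q}.Finite ∧ {w | kp w = q}.ncard ≤ g) {s : ℝ} (hs : 1 < s) :
    Summable (fun w : Ω => (nm (kp w) : ℝ) ^ (-s)) ∧
      ∑' w : Ω, (nm (kp w) : ℝ) ^ (-s) ≤ g * ∑' q : Pl K, (nm q : ℝ) ^ (-s) := by
  classical
  have hS := nm_summable (K := K) hs
  have key : ∀ T : Finset Ω, ∑ w ∈ T, (nm (kp w) : ℝ) ^ (-s) ≤
      g * ∑' q : Pl K, (nm q : ℝ) ^ (-s) := by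
    intro T
    have h1 : ∑ w ∈ T, (nm (kp w) : ℝ) ^ (-s) =
        ∑ q ∈ T.image kp, ∑ w ∈ T with kp w = q, (nm (kp w) : ℝ) ^ (-s) :=
      (Finset.sum_fiberwise_of_maps_to (fun w hw => Finset.mem_image_of_mem kp hw) _).symm
    rw [h1]
    have h2 : ∀ q ∈ T.image kp, ∑ w ∈ T with kp w = q, (nm (kp w) : ℝ) ^ (-s) ≤
        g * (nm q : ℝ) ^ (-s) := by
      intro q _
      have h3 : ∑ w ∈ T with kp w = q, (nm (kp w) : ℝ) ^ (-s) =
          ∑ w ∈ T with kp w = q, (nm q : ℝ) ^ (-s) :=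
        Finset.sum_congr rfl fun w hw => by rw [(Finset.mem_filter.1 hw).2]
      rw [h3, Finset.sum_const, nsmul_eq_mul]
      refine mul_le_mul_of_nonneg_right ?_ (by positivity)
      have h4 : (T.filter fun w => kp w = q).card ≤ {w | kp w = q}.ncard := by
        rw [← Set.ncard_coe_finset]
        refine Set.ncard_le_ncard ?_ (hg q).1
        intro w hw
        rw [Finset.mem_coe, Finset.mem_filter] at hw
        exact hw.2
      exact_mod_cast h4.trans (hg q).2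
    refine (Finset.sum_le_sum h2).trans ?_
    rw [← Finset.mul_sum]
    refine mul_le_mul_of_nonneg_left ?_ (by positivity)
    exact hS.sum_le_tsum _ fun q _ => by positivity
  have hs' : Summable (fun w : Ω => (nm (kp w) : ℝ) ^ (-s)) :=
    summable_of_sum_le (fun w => by positivity) key
  exact ⟨hs', hs'.tsum_le_of_sum_le key⟩

open Classical in
/-- the factor of one marked place -/
noncomputable def fac (S : Finset (Pl K)) (kp : Ω → Pl K) (Om : Ω → Prop) (c s D : ℝ) (w : Ω) : ℝ :=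
  if Om w ∧ kp w ∉ S then c * (nm (kp w) : ℝ) ^ (-s) * (1 + 1 / (nm (kp w) : ℝ)) ^ D else 0

theorem fac_nonneg (S : Finset (Pl K)) (kp : Ω → Pl K) (Om : Ω → Prop) {c : ℝ} (hc : 0 ≤ c)
    (s D : ℝ) (w : Ω) : 0 ≤ fac S kp Om c s D w := by
  unfold fac
  split_ifs
  · positivity
  · exact le_rfl

open Classical in
theorem fac_bd (S : Finset (Pl K)) (kp : Ω → Pl K) (Om : Ω → Prop) {c s : ℝ} (hc : 0 ≤ c)
    (hs : 1 < s) (D : ℝ) (w : Ω) : fac S kp Om c s D w ≤
      c * (if Om w ∧ kp w ∉ S then (nm (kp w) : ℝ) ^ (-s) else 0) +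
        c * 3 ^ ⌈D⌉₊ * (nm (kp w) : ℝ) ^ (-(2 : ℝ)) := by
  unfold fac
  split_ifs
  · exact fac_le (kp w) D hc hs
  · rw [mul_zero, zero_add]
    positivity

open Classical in
theorem ind_summable (S : Finset (Pl K)) (kp : Ω → Pl K) (Om : Ω → Prop) {g : ℕ}
    (hg : ∀ q : Pl K, {w | kp w = q}.Finite ∧ {w | kp w = q}.ncard ≤ g) {s : ℝ} (hs : 1 < s) :
    Summable (fun w : Ω => if Om w ∧ kp w ∉ S then (nm (kp w) : ℝ) ^ (-s) else 0) := by
  refine Summable.of_nonneg_of_le (fun w => ?_) (fun w => ?_) (fib_sum kp hg hs).1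
  · split_ifs
    · positivity
    · exact le_rfl
  · split_ifs
    · exact le_rfl
    · positivity

open Classical in
theorem fac_sum (S : Finset (Pl K)) (kp : Ω → Pl K) (Om : Ω → Prop) {g : ℕ}
    (hg : ∀ q : Pl K, {w | kp w = q}.Finite ∧ {w | kp w = q}.ncard ≤ g) {c s : ℝ} (hc : 0 ≤ c)
    (hs : 1 < s) (D : ℝ) : Summable (fac S kp Om c s D) ∧
      ∑' w, fac S kp Om c s D w ≤
        c * ∑' w, (if Om w ∧ kp w ∉ S then (nm (kp w) : ℝ) ^ (-s) else 0) +
        c * 3 ^ ⌈D⌉₊ * ∑' w : Ω, (nm (kp w) : ℝ) ^ (-(2 : ℝ)) := by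
  have h1 := (ind_summable S kp Om hg hs).mul_left c
  have h2 := ((fib_sum kp hg (by norm_num : (1 : ℝ) < 2)).1).mul_left (c * 3 ^ ⌈D⌉₊)
  have h3 : Summable (fac S kp Om c s D) :=
    Summable.of_nonneg_of_le (fac_nonneg S kp Om hc s D) (fac_bd S kp Om hc hs D) (h1.add h2)
  refine ⟨h3, ?_⟩
  rw [← tsum_mul_left, ← tsum_mul_left, ← Summable.tsum_add h1 h2]
  exact Summable.tsum_le_tsum (fac_bd S kp Om hc hs D) h3 (h1.add h2)

open Classical in
/-- the sum over the admissible sets -/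
theorem ad_sum (S : Finset (Pl K)) (kp : Ω → Pl K) (Om : Ω → Prop) {g : ℕ}
    (hg : ∀ q : Pl K, {w | kp w = q}.Finite ∧ {w | kp w = q}.ncard ≤ g) {c s : ℝ} (hc : 0 ≤ c)
    (hs : 1 < s) (D : ℝ) :
    Summable (fun A : Finset Ω => if Ad S kp Om A then
      c ^ A.card * (NO kp A : ℝ) ^ (-s) * gO kp A ^ D else 0) ∧
    ∑' A : Finset Ω, (if Ad S kp Om A then c ^ A.card * (NO kp A : ℝ) ^ (-s) * gO kp A ^ D else 0) ≤
      Real.exp (∑' w, fac S kp Om c s D w) := by
  obtain ⟨h1, -⟩ := fac_sum S kp Om hg hc hs D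
  obtain ⟨h2, h3⟩ := SD.Prs.fsum (fac S kp Om c s D) (fac_nonneg S kp Om hc s D) h1
  have h4 : ∀ A : Finset Ω, 0 ≤ (if Ad S kp Om A then
      c ^ A.card * (NO kp A : ℝ) ^ (-s) * gO kp A ^ D else 0) := by
    intro A
    split_ifs
    · have := gO_pos kp A
      positivity
    · exact le_rfl
  have h5 : ∀ A : Finset Ω, (if Ad S kp Om A then
      c ^ A.card * (NO kp A : ℝ) ^ (-s) * gO kp A ^ D else 0) ≤
      ∏ w ∈ A, fac S kp Om c s D w := by
    intro A
    split_ifs with hA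
    · rw [term_eq]
      refine le_of_eq (Finset.prod_congr rfl fun w hw => ?_)
      unfold fac
      rw [if_pos (hA.1 w hw)]
    · exact Finset.prod_nonneg fun w _ => fac_nonneg S kp Om hc s D w
  have h6 := Summable.of_nonneg_of_le h4 h5 h2
  exact ⟨h6, (Summable.tsum_le_tsum h5 h6 h2).trans h3⟩

/-- finitely many sets of bounded norm -/
theorem ad_fin (S : Finset (Pl K)) (kp : Ω → Pl K) (Om : Ω → Prop) {g : ℕ}
    (hg : ∀ q : Pl K, {w | kp w = q}.Finite ∧ {w | kp w = q}.ncard ≤ g) (Z : ℝ) :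
    {A : Finset Ω | Ad S kp Om A ∧ (NO kp A : ℝ) ≤ Z}.Finite := by
  classical
  by_cases hZ : Z < 1
  · refine Set.Finite.subset Set.finite_empty ?_
    rintro A ⟨-, hA⟩
    exact absurd (hA.trans_lt hZ) (not_lt.2 (one_le_NO kp A))
  · rw [not_lt] at hZ
    have hfin : {w : Ω | (nm (kp w) : ℝ) ≤ Z}.Finite := by
      have h1 := (fib_sum kp hg (by norm_num : (1 : ℝ) < 2)).1.tendsto_cofinite_zero
      have h2 := h1.eventually (gt_mem_nhds (show (0 : ℝ) < Z ^ (-(2 : ℝ)) by positivity))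
      rw [Filter.eventually_cofinite] at h2
      refine h2.subset ?_
      intro w hw
      have hw' : (nm (kp w) : ℝ) ≤ Z := hw
      change ¬ ((nm (kp w) : ℝ) ^ (-(2 : ℝ)) < Z ^ (-(2 : ℝ)))
      rw [not_lt]
      have h0 : (0 : ℝ) < nm (kp w) := by linarith [one_le_nm (kp w)]
      exact Real.rpow_le_rpow_of_nonpos h0 hw' (by norm_num)
    refine Set.Finite.subset (hfin.toFinset.powerset.finite_toSet) ?_
    rintro A ⟨-, hA⟩
    rw [Finset.mem_coe, Finset.mem_powerset]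
    intro w hw
    rw [Set.Finite.mem_toFinset]
    refine le_trans ?_ hA
    have h3 : NO kp A = nm (kp w) * ∏ v ∈ A.erase w, Ideal.absNorm (kp v).asIdeal := by
      unfold NO
      rw [← Finset.mul_prod_erase A _ hw]
      rfl
    have h4 : (1 : ℝ) ≤ ((∏ v ∈ A.erase w, Ideal.absNorm (kp v).asIdeal : ℕ) : ℝ) :=
      one_le_NO kp (A.erase w)
    rw [h3]
    push_cast at h4 ⊢
    exact le_mul_of_one_le_right (by positivity) h4

theorem t_XMAS : S_XMAS := by
  classical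
  intro K _ _ S Ω kp Om lam mu hF hl0 hl1 hmu hM D m hD
  obtain ⟨g, hg⟩ := hF
  obtain ⟨C₀, hC₀, hp⟩ := SD.Prs.psum_le K
  obtain ⟨C₁, hC₁, hm⟩ := hM
  set T2 : ℝ := ∑' w : Ω, (nm (kp w) : ℝ) ^ (-(2 : ℝ)) with hT2
  have hT2' : 0 ≤ T2 := tsum_nonneg fun w => by positivity
  set Ca : ℝ := Real.exp (C₁ + 3 ^ ⌈D⌉₊ * T2) with hCa
  set Cb : ℝ := Real.exp 1 * Real.exp ((m : ℝ) * (g : ℝ) * C₀ + (m : ℝ) * 3 ^ ⌈D⌉₊ * T2) with hCb
  have hCa0 : 0 < Ca := Real.exp_pos _
  have hCb0 : 0 < Cb := by rw [hCb]; positivity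
  have hmg : 0 ≤ (m : ℝ) * (g : ℝ) := by positivity
  refine ⟨Ca + Cb + (m : ℝ) * (g : ℝ), by positivity, ?_, ?_⟩
  · intro s hs hs2
    refine ⟨?_, ?_⟩
    · convert (ad_sum S kp Om hg (c := (m : ℝ)) (by positivity) hs D).1 using 1
    · have h1 := (ad_sum S kp Om hg (c := lam) hl0.le hs D).2
      have h2 := (fac_sum S kp Om hg (c := lam) hl0.le hs D).2
      have h3 := hm s hs hs2
      have hs0 : 0 < s - 1 := by linarith
      have h4 : lam * 3 ^ ⌈D⌉₊ * T2 ≤ 3 ^ ⌈D⌉₊ * T2 := by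
        rw [mul_assoc]
        exact mul_le_of_le_one_left (by positivity) hl1
      have h5 : ∑' w, fac S kp Om lam s D w ≤
          (C₁ + 3 ^ ⌈D⌉₊ * T2) + Real.log (1 / (s - 1)) * mu := by
        have h6 : lam * ∑' w : Ω, (if Om w ∧ kp w ∉ S then (nm (kp w) : ℝ) ^ (-s) else 0) ≤
            mu * Real.log (1 / (s - 1)) + C₁ := h3
        linarith
      calc _ ≤ Real.exp (∑' w, fac S kp Om lam s D w) := by convert h1 using 1
        _ ≤ Real.exp ((C₁ + 3 ^ ⌈D⌉₊ * T2) + Real.log (1 / (s - 1)) * mu) := Real.exp_le_exp.mpr h5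
        _ = Ca * (1 / (s - 1)) ^ mu := by
            rw [Real.exp_add, Real.rpow_def_of_pos (by positivity)]
        _ ≤ _ := mul_le_mul_of_nonneg_right (by linarith) (by positivity)
  · intro Z hZ
    refine ⟨ad_fin S kp Om hg Z, ?_⟩
    have hfin := ad_fin S kp Om hg Z
    have hlZ : 0 ≤ Real.log Z := Real.log_nonneg hZ
    rw [finsum_mem_eq_finite_toFinset_sum _ hfin]
    set s : ℝ := 1 + 1 / (1 + Real.log Z) with hs
    have h1Z : 0 < 1 + Real.log Z := by linarith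
    have hs1 : 1 < s := by
      rw [hs]
      have : 0 < 1 / (1 + Real.log Z) := by positivity
      linarith
    have hs2 : s ≤ 2 := by
      rw [hs]
      have : 1 / (1 + Real.log Z) ≤ 1 := by rw [div_le_one h1Z]; linarith
      linarith
    have hinv : 1 / (s - 1) = 1 + Real.log Z := by
      rw [hs]; simp
    obtain ⟨hk1, hk2⟩ := ad_sum S kp Om hg (c := (m : ℝ)) (by positivity) hs1 D
    have h2 := (fac_sum S kp Om hg (c := (m : ℝ)) (by positivity) hs1 D).2
    have hterm : ∀ A ∈ hfin.toFinset, (m : ℝ) ^ A.card * ((NO kp A : ℝ))⁻¹ * gO kp A ^ D ≤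
        Real.exp 1 * (if Ad S kp Om A then
          (m : ℝ) ^ A.card * (NO kp A : ℝ) ^ (-s) * gO kp A ^ D else 0) := by
      intro A hA
      rw [Set.Finite.mem_toFinset] at hA
      obtain ⟨hAd, hNZ⟩ := hA
      have hN1 : (1 : ℝ) ≤ (NO kp A : ℝ) := one_le_NO kp A
      have hN0 : (0 : ℝ) < (NO kp A : ℝ) := by linarith
      have hg0 := gO_pos kp A
      rw [if_pos hAd, ← mul_assoc, ← mul_assoc]
      refine mul_le_mul_of_nonneg_right ?_ (by positivity)
      rw [mul_comm (Real.exp 1), mul_assoc]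
      refine mul_le_mul_of_nonneg_left ?_ (by positivity)
      have h3 : ((NO kp A : ℝ))⁻¹ = (NO kp A : ℝ) ^ (s - 1) * (NO kp A : ℝ) ^ (-s) := by
        rw [← Real.rpow_add hN0, ← Real.rpow_neg_one]
        congr 1
        ring
      rw [h3]
      refine mul_le_mul_of_nonneg_right ?_ (by positivity)
      rw [Real.rpow_def_of_pos hN0]
      apply Real.exp_le_exp.mpr
      have h4 : Real.log (NO kp A : ℝ) ≤ Real.log Z := Real.log_le_log hN0 hNZ
      have h5 : s - 1 = 1 / (1 + Real.log Z) := by rw [hs]; ring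
      rw [h5, mul_one_div, div_le_one h1Z]
      linarith
    have h6 : ∑' w, fac S kp Om (m : ℝ) s D w ≤
        ((m : ℝ) * (g : ℝ) * C₀ + (m : ℝ) * 3 ^ ⌈D⌉₊ * T2) +
          Real.log (1 + Real.log Z) * ((m : ℝ) * (g : ℝ)) := by
      have h7 : ∑' w : Ω, (if Om w ∧ kp w ∉ S then (nm (kp w) : ℝ) ^ (-s) else 0) ≤
          ∑' w : Ω, (nm (kp w) : ℝ) ^ (-s) := by
        refine Summable.tsum_le_tsum (fun w => ?_) (ind_summable S kp Om hg hs1)
          (fib_sum kp hg hs1).1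
        split_ifs
        · exact le_rfl
        · positivity
      have h8 := (fib_sum kp hg hs1).2
      have h9 := hp s hs1 hs2
      rw [hinv] at h9
      have h10 : ∑' w : Ω, (if Om w ∧ kp w ∉ S then (nm (kp w) : ℝ) ^ (-s) else 0) ≤
          (g : ℝ) * (Real.log (1 + Real.log Z) + C₀) :=
        (h7.trans h8).trans (mul_le_mul_of_nonneg_left h9 (by positivity))
      have h11 : (m : ℝ) * ∑' w : Ω, (if Om w ∧ kp w ∉ S then (nm (kp w) : ℝ) ^ (-s) else 0) ≤
          (m : ℝ) * ((g : ℝ) * (Real.log (1 + Real.log Z) + C₀)) :=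
        mul_le_mul_of_nonneg_left h10 (by positivity)
      refine h2.trans ?_
      have h12 : (m : ℝ) * ((g : ℝ) * (Real.log (1 + Real.log Z) + C₀)) =
        (m : ℝ) * (g : ℝ) * C₀ + Real.log (1 + Real.log Z) * ((m : ℝ) * (g : ℝ)) := by ring
      linarith
    have h13 : ∑ A ∈ hfin.toFinset, (if Ad S kp Om A then
          (m : ℝ) ^ A.card * (NO kp A : ℝ) ^ (-s) * gO kp A ^ D else 0) ≤
        Real.exp (((m : ℝ) * (g : ℝ) * C₀ + (m : ℝ) * 3 ^ ⌈D⌉₊ * T2) +
          Real.log (1 + Real.log Z) * ((m : ℝ) * (g : ℝ))) := by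
      refine (hk1.sum_le_tsum _ fun A _ => ?_).trans (hk2.trans (Real.exp_le_exp.mpr h6))
      split_ifs
      · have := gO_pos kp A
        positivity
      · exact le_rfl
    refine (Finset.sum_le_sum hterm).trans ?_
    rw [← Finset.mul_sum]
    calc Real.exp 1 * ∑ A ∈ hfin.toFinset, (if Ad S kp Om A then
          (m : ℝ) ^ A.card * (NO kp A : ℝ) ^ (-s) * gO kp A ^ D else 0)
        ≤ Real.exp 1 * Real.exp (((m : ℝ) * (g : ℝ) * C₀ + (m : ℝ) * 3 ^ ⌈D⌉₊ * T2) +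
          Real.log (1 + Real.log Z) * ((m : ℝ) * (g : ℝ))) :=
          mul_le_mul_of_nonneg_left h13 (by positivity)
      _ = Cb * (1 + Real.log Z) ^ ((m : ℝ) * (g : ℝ)) := by
          rw [Real.exp_add, Real.rpow_def_of_pos h1Z, hCb]
          ring
      _ ≤ (Ca + Cb + (m : ℝ) * (g : ℝ)) * (1 + Real.log Z) ^ ((m : ℝ) * (g : ℝ)) :=
          mul_le_mul_of_nonneg_right (by linarith) (by positivity)
      _ ≤ _ := by
          refine mul_le_mul_of_nonneg_left ?_ (by positivity)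
          exact Real.rpow_le_rpow_of_exponent_le (by linarith) (by linarith)

end Pool.Agent.T3h73.SG.XMAS
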