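import Pool.Agent.T3h73.SG.FamX

/-!
Task XTUP of project SG (helper73): splitting the coloured sum.
-/

set_option autoImplicit false
set_option linter.all false

open NumberField IsDedekindDomain Filter Topology

namespace Pool.Agent.T3h73.SG.XTUP

open Pool.Agent.T3h73.SL (Pl)
open Pool.Agent.T3h73.SG.FamX

open Classical in
theorem t_XTUP (hXMAS : S_XMAS) : S_XTUP := by
  intro ℓ hℓ K _ _ S Ω kp C _ Om lam mu I χ ρ lk good triv hCS s Z hs hs2
  have hsum : ∀ c, Summable (fun A : Finset Ω => wX S kp (Om c) (lam c) s A) := by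
    intro c
    obtain ⟨C₁, -, h1, -⟩ := one_var hXMAS S kp (Om c) (lam c) (mu c) hCS.fib (hCS.lam_pos c).1
      (hCS.lam_pos c).2 (hCS.mu_pos c) (hCS.dens c)
    exact (h1 s hs hs2).1
  have hw0 : ∀ c A, 0 ≤ wX S kp (Om c) (lam c) s A := fun c A =>
    wX_nonneg S kp (Om c) (hCS.lam_pos c).1.le s A
  obtain ⟨hP, -⟩ := SD.Fam.pi_sum (fun c A => wX S kp (Om c) (lam c) s A) hw0 hsum
  have hMs : ∀ W : Finset C, Summable (fun A : C → Finset Ω =>
      if TupX S kp Om A ∧ ∀ c, c ∈ W ↔ Z < (NO kp (A c) : ℝ) then trmX kp lam I ρ s A else 0) := by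
    intro W
    refine Summable.of_norm_bounded hP fun A => ?_
    split_ifs with h
    · exact norm_trmX_le S kp Om lam (fun c => (hCS.lam_pos c).1.le) I hCS.I_le ρ s A h.1
    · rw [norm_zero]
      exact Finset.prod_nonneg fun c _ => hw0 c _
  unfold CSum MX
  rw [← Summable.tsum_finsetSum fun W _ => hMs W]
  refine tsum_congr fun A => ?_
  by_cases hT : TupX S kp Om A
  · rw [if_pos hT, Finset.sum_eq_single (Finset.univ.filter fun c => Z < (NO kp (A c) : ℝ))]
    · rw [if_pos]
      refine ⟨hT, fun c => ?_⟩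
      rw [Finset.mem_filter]
      exact ⟨fun h1 => h1.2, fun h1 => ⟨Finset.mem_univ _, h1⟩⟩
    · intro W _ hW
      rw [if_neg]
      rintro ⟨-, h1⟩
      apply hW
      ext c
      rw [h1, Finset.mem_filter]
      exact ⟨fun h1 => ⟨Finset.mem_univ _, h1⟩, fun h1 => h1.2⟩
    · intro h1
      exact absurd (Finset.mem_univ _) h1
  · rw [if_neg hT]
    refine (Finset.sum_eq_zero fun W _ => ?_).symm
    rw [if_neg fun h1 => hT h1.1]

end Pool.Agent.T3h73.SG.XTUP
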