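import Pool.Agent.T3h73.SG.StmY
import Pool.Agent.T3h73.SD.T_BL

/-! Project SG, task YBL (helper74), part b: places, the function attached to a set, characters. -/

set_option autoImplicit false
set_option linter.all false

open NumberField IsDedekindDomain Filter Topology

namespace Pool.Agent.T3h73.SG.YBL

open Pool.Agent.T3h73.SL (Pl)
open Pool.Agent.T3h73.SD (ee NA gA S_LS SymSys)
open Pool.Agent.T3h73.SD.BL
open Pool.Agent.Y773.G (IsModChar)

/-! ### characters with enlarged modulus -/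

section
variable {E : Type} [Field E] [NumberField E]

open Classical in
/-- the character made zero at the places in `T` -/
noncomputable def ext (η : Ideal (𝓞 E) →*₀ ℂ) (T : Finset (Pl E)) : Ideal (𝓞 E) →*₀ ℂ where
  toFun 𝔞 := if IsCoprime 𝔞 (II T) then η 𝔞 else 0
  map_zero' := by
    split_ifs with h
    · exact map_zero η
    · rfl
  map_one' := by rw [if_pos isCoprime_one_left, map_one]
  map_mul' x y := by
    by_cases hx : IsCoprime x (II T)
    · by_cases hy : IsCoprime y (II T)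
      · rw [if_pos hx, if_pos hy, if_pos (IsCoprime.mul_left hx hy), map_mul]
      · rw [if_neg hy, if_neg fun h => hy (IsCoprime.of_mul_left_right h), mul_zero]
    · rw [if_neg hx, if_neg fun h => hx (IsCoprime.of_mul_left_left h), zero_mul]

open Classical in
lemma ext_apply (η : Ideal (𝓞 E) →*₀ ℂ) (T : Finset (Pl E)) (𝔞 : Ideal (𝓞 E)) :
    ext η T 𝔞 = if IsCoprime 𝔞 (II T) then η 𝔞 else 0 := rfl

lemma ext_mc {η : Ideal (𝓞 E) →*₀ ℂ} {𝔫 : Ideal (𝓞 E)} (h : IsModChar 𝔫 (fun _ => 0) η)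
    (T : Finset (Pl E)) : IsModChar (𝔫 * II T) (fun _ => 0) (ext η T) where
  ne_bot := mul_ne_zero h.ne_bot (II_ne_bot T)
  ne_top := fun h1 => by
    have h5 : 𝔫 * II T ≤ 𝔫 := Ideal.mul_le_left
    rw [h1] at h5
    exact h.ne_top (top_le_iff.1 h5)
  sig_le := h.sig_le
  cpx := h.cpx
  supp 𝔞 := by
    rw [ext_apply]
    constructor
    · intro h1
      split_ifs at h1 with h2
      · exact IsCoprime.mul_right ((h.supp 𝔞).1 h1) h2
      · exact absurd rfl h1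
    · intro h1
      rw [if_pos (IsCoprime.of_mul_right_right h1)]
      exact (h.supp 𝔞).2 (IsCoprime.of_mul_right_left h1)
  sig x hx h1 := by
    have h5 : 𝔫 * II T ≤ 𝔫 := Ideal.mul_le_left
    have h6 : 𝔫 * II T ≤ II T := Ideal.mul_le_right
    have h2 : x - 1 ∈ 𝔫 := h5 h1
    have h3 : x - 1 ∈ II T := h6 h1
    have h4 : IsCoprime (Ideal.span {x}) (II T) := by
      refine coprime_congr (α := 1) ?_ h3
      rw [Ideal.span_singleton_one, ← Ideal.one_eq_top]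
      exact isCoprime_one_left
    rw [ext_apply, if_pos h4]
    exact h.sig x hx h2

lemma norm_ext_le {ℓ : ℕ} (hℓ : ℓ ≠ 0) {η : Ideal (𝓞 E) →*₀ ℂ} {𝔫 : Ideal (𝓞 E)}
    (h : IsModChar 𝔫 (fun _ => 0) η) (hp : ∀ 𝔞, IsCoprime 𝔞 𝔫 → η 𝔞 ^ ℓ = 1)
    (T : Finset (Pl E)) (𝔞 : Ideal (𝓞 E)) : ‖ext η T 𝔞‖ ≤ 1 := by
  rw [ext_apply]
  split_ifs
  · by_cases hc : IsCoprime 𝔞 𝔫
    · have h1 := hp 𝔞 hc
      have h2 : ‖η 𝔞‖ ^ ℓ = 1 := by rw [← norm_pow, h1, norm_one]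
      exact ((pow_eq_one_iff_of_nonneg (norm_nonneg _) hℓ).1 h2).le
    · have h1 : η 𝔞 = 0 := by
        by_contra h1
        exact hc ((h.supp 𝔞).1 h1)
      rw [h1, norm_zero]
      exact zero_le_one
  · rw [norm_zero]
    exact zero_le_one

open Classical in
lemma ext_II (η : Ideal (𝓞 E) →*₀ ℂ) (T Q : Finset (Pl E)) :
    ext η T (II Q) = ∏ q ∈ Q, if q ∉ T then η q.asIdeal else 0 := by
  unfold II
  rw [map_prod]
  refine Finset.prod_congr rfl fun q _ => ?_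
  rw [ext_apply]
  by_cases h : q ∉ T
  · rw [if_pos h, if_pos ((coprime_II q T).2 h)]
  · rw [if_neg h, if_neg fun h1 => h ((coprime_II q T).1 h1)]

/-- an ideal is coprime to `𝔫` if no place divides both -/
lemma coprime_of_pl {I J : Ideal (𝓞 E)}
    (h : ∀ q : Pl E, ¬ IsCoprime q.asIdeal J → IsCoprime I q.asIdeal) : IsCoprime I J := by
  rw [Ideal.isCoprime_iff_sup_eq]
  by_contra hne
  obtain ⟨P, hP, hle⟩ := Ideal.exists_le_maximal _ hne
  have hI : I ≤ P := le_sup_left.trans hle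
  have hJ : J ≤ P := le_sup_right.trans hle
  by_cases hbot : P = ⊥
  · -- a field: impossible
    rw [hbot] at hP
    exact RingOfIntegers.not_isField E (Ring.isField_iff_maximal_bot.2 hP)
  · set q : Pl E := ⟨P, hP.isPrime, hbot⟩ with hq
    have h1 : ¬ IsCoprime q.asIdeal J := by
      rw [Ideal.isCoprime_iff_sup_eq]
      intro h2
      rw [sup_eq_left.2 hJ] at h2
      exact hP.ne_top h2
    have h3 := h q h1
    rw [Ideal.isCoprime_iff_sup_eq] at h3
    rw [sup_eq_right.2 hI] at h3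
    exact hP.ne_top h3

end

/-! ### places -/

section
variable {K M : Type} [Field K] [NumberField K] [Field M] [NumberField M] [Algebra K M]

/-- the facts used on the action on the places -/
structure PF (K M : Type) [Field K] [NumberField K] [Field M] [NumberField M] [Algebra K M] :
    Prop where
  pone : ∀ w : Pl M, gp (1 : M ≃ₐ[K] M) w = w
  pmul : ∀ (g h : M ≃ₐ[K] M) (w : Pl M), gp (g * h) w = gp g (gp h w)
  plo : ∀ (g : M ≃ₐ[K] M) (w : Pl M), (lo (gp g w) : Pl K) = lo w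
  ptr : ∀ w w' : Pl M, (lo w : Pl K) = lo w' → ∃ g : M ≃ₐ[K] M, gp g w = w'
  pup : ∀ (P : Finset (Pl K)) (w : Pl M), w ∈ up P ↔ (lo w : Pl K) ∈ P
  pfib : Fib (lo : Pl M → Pl K)

lemma pf (h : S_PLC) [IsGalois K M] : PF K M := by
  obtain ⟨-, h1, h2, h3, h4, -, h6, h7, -⟩ := h K M
  exact ⟨h1, h2, h3, h4, h6, h7⟩

lemma gp_inj (hP : PF K M) {g : M ≃ₐ[K] M} {v w : Pl M} (h : gp g v = gp g w) : v = w := by
  have := congrArg (gp g⁻¹) h
  rwa [← hP.pmul, ← hP.pmul, inv_mul_cancel, hP.pone, hP.pone] at this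

/-- the decomposition group -/
def stab (hP : PF K M) (w : Pl M) : Subgroup (M ≃ₐ[K] M) where
  carrier := {g | gp g w = w}
  one_mem' := hP.pone w
  mul_mem' {a b} ha hb := by
    show gp (a * b) w = w
    rw [hP.pmul, show gp b w = w from hb, show gp a w = w from ha]
  inv_mem' {a} ha := by
    show gp a⁻¹ w = w
    have h1 : gp a w = w := ha
    apply gp_inj hP (g := a)
    rw [← hP.pmul, mul_inv_cancel, hP.pone, h1]

lemma stab_DG (hP : PF K M) (w : Pl M) : DG w (stab hP w) := fun g => Iff.rfl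

open Classical in
/-- the function attached to a set -/
noncomputable def jA {ℓ : ℕ} (c : (M ≃ₐ[K] M) → ZMod ℓ) (A : Finset (Pl M)) (v : Pl M) : ZMod ℓ :=
  ∑ w ∈ A, ∑ g : M ≃ₐ[K] M, if gp g w = v then c g else 0

open Classical in
lemma jsupp (hP : PF K M) {ℓ : ℕ} (c : (M ≃ₐ[K] M) → ZMod ℓ) (A : Finset (Pl M)) (v : Pl M)
    (h : jA c A v ≠ 0) : (lo v : Pl K) ∈ A.image (lo : Pl M → Pl K) := by
  by_contra h1
  apply h
  unfold jA
  refine Finset.sum_eq_zero fun w hw => Finset.sum_eq_zero fun g _ => ?_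
  rw [if_neg]
  rintro rfl
  apply h1
  rw [hP.plo]
  exact Finset.mem_image_of_mem _ hw

open Classical in
lemma jsum (hP : PF K M) {ℓ : ℕ} (c : (M ≃ₐ[K] M) → ZMod ℓ) (A : Finset (Pl M))
    (f : Pl M → ZMod ℓ) (B : Finset (Pl M)) (hB : ∀ v, jA c A v ≠ 0 → v ∈ B) :
    ∑ w ∈ A, ∑ g : M ≃ₐ[K] M, c g * f (gp g w) = ∑ v ∈ B, jA c A v * f v := by
  have h1 : ∑ w ∈ A, ∑ g : M ≃ₐ[K] M, c g * f (gp g w) =
      ∑ v ∈ up (A.image (lo : Pl M → Pl K)), jA c A v * f v := by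
    have e1 : ∀ v, jA c A v * f v =
        ∑ w ∈ A, ∑ g : M ≃ₐ[K] M, (if gp g w = v then c g else 0) * f v := by
      intro v
      unfold jA
      rw [Finset.sum_mul]
      refine Finset.sum_congr rfl fun w _ => ?_
      rw [Finset.sum_mul]
    symm
    rw [Finset.sum_congr rfl fun v _ => e1 v, Finset.sum_comm]
    refine Finset.sum_congr rfl fun w hw => ?_
    rw [Finset.sum_comm]
    refine Finset.sum_congr rfl fun g _ => ?_
    rw [Finset.sum_eq_single (gp g w)]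
    · rw [if_pos rfl]
    · intro v _ hv
      rw [if_neg (Ne.symm hv), zero_mul]
    · intro h
      refine absurd ((hP.pup _ _).2 ?_) h
      rw [hP.plo]
      exact Finset.mem_image_of_mem _ hw
  rw [h1]
  have h2 : ∑ v ∈ B ∩ up (A.image (lo : Pl M → Pl K)), jA c A v * f v =
      ∑ v ∈ up (A.image (lo : Pl M → Pl K)), jA c A v * f v := by
    refine Finset.sum_subset Finset.inter_subset_right ?_
    intro v hv hv2
    by_cases h0 : jA c A v = 0
    · rw [h0, zero_mul]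
    · exact absurd (Finset.mem_inter.2 ⟨hB v h0, hv⟩) hv2
  have h3 : ∑ v ∈ B ∩ up (A.image (lo : Pl M → Pl K)), jA c A v * f v =
      ∑ v ∈ B, jA c A v * f v := by
    refine Finset.sum_subset Finset.inter_subset_left ?_
    intro v hv hv2
    by_cases h0 : jA c A v = 0
    · rw [h0, zero_mul]
    · exact absurd (Finset.mem_inter.2 ⟨hv, (hP.pup _ _).2 (jsupp hP c A v h0)⟩) hv2
  rw [← h2, h3]

open Classical in
lemma jinv (hP : PF K M) {ℓ : ℕ} (c : (M ≃ₐ[K] M) → ZMod ℓ) {h : M ≃ₐ[K] M}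
    (hc : ∀ g, c (h * g) = c g) (A : Finset (Pl M)) (v : Pl M) : jA c A (gp h v) = jA c A v := by
  unfold jA
  refine Finset.sum_congr rfl fun w _ => ?_
  rw [← Equiv.sum_comp (Equiv.mulLeft h) (fun g : M ≃ₐ[K] M => if gp g w = gp h v then c g else 0)]
  refine Finset.sum_congr rfl fun g _ => ?_
  show (if gp (h * g) w = gp h v then c (h * g) else 0) = _
  rw [hc, hP.pmul]
  by_cases h1 : gp g w = v
  · rw [if_pos h1, if_pos (congrArg _ h1)]
  · rw [if_neg h1, if_neg fun h2 => h1 (gp_inj hP h2)]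

open Classical in
lemma jval (hP : PF K M) {ℓ : ℕ} (c : (M ≃ₐ[K] M) → ZMod ℓ) {D : Subgroup (M ≃ₐ[K] M)}
    {A : Finset (Pl M)} (hA : ∀ w ∈ A, DG w D) (hinj : Set.InjOn (lo : Pl M → Pl K) (A : Set (Pl M)))
    (hc : ∀ g, ∀ d ∈ D, c (g * d) = c g) {w : Pl M} (hw : w ∈ A) (g : M ≃ₐ[K] M) :
    jA c A (gp g w) = (Nat.card D : ZMod ℓ) * c g := by
  unfold jA
  rw [Finset.sum_eq_single w]
  · rw [← Equiv.sum_comp (Equiv.mulLeft g)
      (fun g1 : M ≃ₐ[K] M => if gp g1 w = gp g w then c g1 else 0)]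
    have e1 : ∀ d : M ≃ₐ[K] M, (if gp ((Equiv.mulLeft g) d) w = gp g w then
        c ((Equiv.mulLeft g) d) else 0) = if d ∈ D then c g else 0 := by
      intro d
      show (if gp (g * d) w = gp g w then c (g * d) else 0) = _
      rw [hP.pmul]
      by_cases hd : d ∈ D
      · rw [if_pos hd, hc g d hd, if_pos]
        rw [(hA w hw d).1 hd]
      · rw [if_neg hd, if_neg]
        intro h1
        exact hd ((hA w hw d).2 (gp_inj hP h1))
    rw [Finset.sum_congr rfl fun d _ => e1 d, ← Finset.sum_filter, Finset.sum_const,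
      nsmul_eq_mul]
    congr 2
    rw [Nat.card_eq_fintype_card]
    exact (Fintype.card_of_subtype _ (by simp)).symm
  · intro w1 hw1 hne
    refine Finset.sum_eq_zero fun g1 _ => ?_
    rw [if_neg]
    intro h1
    apply hne
    refine hinj hw1 hw ?_
    have := congrArg (lo : Pl M → Pl K) h1
    rwa [hP.plo, hP.plo] at this
  · intro h
    exact absurd hw h

lemma card_ne {ℓ : ℕ} (hG : ¬ ℓ ∣ Nat.card (M ≃ₐ[K] M)) (D : Subgroup (M ≃ₐ[K] M)) :
    (Nat.card D : ZMod ℓ) ≠ 0 := by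
  intro h
  rw [ZMod.natCast_eq_zero_iff] at h
  exact hG (h.trans (Subgroup.card_subgroup_dvd_card D))

open Classical in
lemma image_supp (hP : PF K M) {ℓ : ℕ} (hℓ : ℓ.Prime) (hG : ¬ ℓ ∣ Nat.card (M ≃ₐ[K] M))
    (c : (M ≃ₐ[K] M) → ZMod ℓ) (hc0 : ∃ g, c g ≠ 0) {D : Subgroup (M ≃ₐ[K] M)}
    {A : Finset (Pl M)} (hA : ∀ w ∈ A, DG w D) (hinj : Set.InjOn (lo : Pl M → Pl K) (A : Set (Pl M)))
    (hc : ∀ g, ∀ d ∈ D, c (g * d) = c g) {B : Finset (Pl M)} (hB : ∀ v, jA c A v ≠ 0 ↔ v ∈ B) :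
    B.image (lo : Pl M → Pl K) = A.image (lo : Pl M → Pl K) := by
  haveI : Fact ℓ.Prime := ⟨hℓ⟩
  obtain ⟨g, hg⟩ := hc0
  ext q
  constructor
  · intro h
    obtain ⟨v, hv, rfl⟩ := Finset.mem_image.1 h
    exact jsupp hP c A v ((hB v).2 hv)
  · intro h
    obtain ⟨w, hw, rfl⟩ := Finset.mem_image.1 h
    refine Finset.mem_image.2 ⟨gp g w, (hB _).1 ?_, hP.plo g w⟩
    rw [jval hP c hA hinj hc hw g]
    exact mul_ne_zero (card_ne hG D) hg

/-! ### norms -/

lemma NA_dvd {A B : Finset (Pl K)} (h : A ⊆ B) : NA A ≤ NA B := by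
  refine Nat.le_of_dvd (NA_pos B) ?_
  unfold NA
  exact Finset.prod_dvd_prod_of_subset _ _ _ h

open Classical in
lemma NO_eq {A : Finset (Pl M)} (hinj : Set.InjOn (lo : Pl M → Pl K) (A : Set (Pl M))) :
    NO (lo : Pl M → Pl K) A = NA (A.image (lo : Pl M → Pl K)) := by
  unfold NO NA
  rw [Finset.prod_image hinj]

lemma norm_le_pow (hP : PF K M) {S : Finset (Pl K)} (hU : Unr K M S) {v : Pl M}
    (hv : (lo v : Pl K) ∉ S) : Ideal.absNorm v.asIdeal ≤
      Ideal.absNorm (lo v : Pl K).asIdeal ^ Nat.card (M ≃ₐ[K] M) := by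
  obtain ⟨-, h1, -⟩ := (hU v hv).2 _ (stab_DG hP v)
  rw [h1]
  exact Nat.pow_le_pow_right (norm_pl _) (Subgroup.card_le_card_group _)

open Classical in
lemma up_eq (hP : PF K M) (Q : Finset (Pl K)) :
    (up Q : Finset (Pl M)) = Q.biUnion fun q => up {q} := by
  ext v
  rw [hP.pup, Finset.mem_biUnion]
  constructor
  · intro h
    exact ⟨lo v, h, (hP.pup _ _).2 (Finset.mem_singleton_self _)⟩
  · rintro ⟨q, hq, h⟩
    rw [hP.pup, Finset.mem_singleton] at h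
    rw [h]
    exact hq

lemma card_up_one {g : ℕ} (hP : PF K M)
    (hg : ∀ q : Pl K, {w : Pl M | (lo w : Pl K) = q}.Finite ∧ {w : Pl M | (lo w : Pl K) = q}.ncard ≤ g)
    (q : Pl K) : (up {q} : Finset (Pl M)).card ≤ g := by
  refine le_trans (le_of_eq ?_) (hg q).2
  rw [← Set.ncard_coe_finset]
  congr 1
  ext v
  rw [Finset.mem_coe, hP.pup, Finset.mem_singleton]
  rfl

open Classical in
lemma card_up {g : ℕ} (hP : PF K M)
    (hg : ∀ q : Pl K, {w : Pl M | (lo w : Pl K) = q}.Finite ∧ {w : Pl M | (lo w : Pl K) = q}.ncard ≤ g)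
    (Q : Finset (Pl K)) : (up Q : Finset (Pl M)).card ≤ Q.card * g := by
  rw [up_eq hP]
  exact Finset.card_biUnion_le_card_mul _ _ _ fun q _ => card_up_one hP hg q

open Classical in
lemma NA_up {g : ℕ} (hP : PF K M) {S : Finset (Pl K)} (hU : Unr K M S)
    (hg : ∀ q : Pl K, {w : Pl M | (lo w : Pl K) = q}.Finite ∧ {w : Pl M | (lo w : Pl K) = q}.ncard ≤ g)
    {Q : Finset (Pl K)} (hQ : ∀ q ∈ Q, q ∉ S) :
    NA (up Q : Finset (Pl M)) ≤ NA Q ^ (Nat.card (M ≃ₐ[K] M) * (g + 1)) := by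
  rw [up_eq hP]
  unfold NA
  rw [Finset.prod_biUnion, ← Finset.prod_pow]
  · refine Finset.prod_le_prod (fun _ _ => Nat.zero_le _) fun q hq => ?_
    have h1 : ∏ v ∈ (up {q} : Finset (Pl M)), Ideal.absNorm v.asIdeal ≤
        ∏ v ∈ (up {q} : Finset (Pl M)), Ideal.absNorm q.asIdeal ^ Nat.card (M ≃ₐ[K] M) := by
      refine Finset.prod_le_prod (fun _ _ => Nat.zero_le _) fun v hv => ?_
      rw [hP.pup, Finset.mem_singleton] at hv
      have h2 := norm_le_pow hP hU (v := v) (by rw [hv]; exact hQ q hq)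
      rwa [hv] at h2
    refine h1.trans ?_
    rw [Finset.prod_const, ← pow_mul]
    refine Nat.pow_le_pow_right (norm_pl _) (Nat.mul_le_mul_left _ ?_)
    exact (card_up_one hP hg q).trans (Nat.le_succ g)
  · intro q _ q' _ hne
    rw [Function.onFun, Finset.disjoint_left]
    intro v hv hv'
    rw [hP.pup, Finset.mem_singleton] at hv hv'
    exact hne (hv.symm.trans hv')

open Classical in
/-- the number of the sets with a given image -/
lemma fibcount (hP : PF K M) (ε : ℝ) (hε : 0 < ε) : ∃ C : ℝ, 1 ≤ C ∧ ∀ N : ℝ, 1 ≤ N →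
    ∀ 𝒜 : Finset (Finset (Pl M)), (∀ A ∈ 𝒜, Set.InjOn (lo : Pl M → Pl K) (A : Set (Pl M)) ∧
      (NO (lo : Pl M → Pl K) A : ℝ) ≤ N) → ∀ Q : Finset (Pl K),
      ((𝒜.filter fun A => A.image (lo : Pl M → Pl K) = Q).card : ℝ) ≤ C * N ^ ε := by
  obtain ⟨g, hg⟩ := hP.pfib
  obtain ⟨C, hC1, hC⟩ := pow_card_le (K := K) (2 ^ g) (one_le_pow₀ (by norm_num)) ε hε
  refine ⟨C, hC1, ?_⟩
  intro N hN 𝒜 h𝒜 Q
  rcases Finset.eq_empty_or_nonempty (𝒜.filter fun A => A.image (lo : Pl M → Pl K) = Q) with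
    h0 | ⟨A₀, hA₀⟩
  · rw [h0, Finset.card_empty, Nat.cast_zero]
    positivity
  obtain ⟨h1, h2⟩ := Finset.mem_filter.1 hA₀
  have h3 : (NA Q : ℝ) ≤ N := by
    rw [← h2, ← NO_eq (h𝒜 A₀ h1).1]
    exact (h𝒜 A₀ h1).2
  have h4 : (𝒜.filter fun A => A.image (lo : Pl M → Pl K) = Q) ⊆ (up Q : Finset (Pl M)).powerset := by
    intro A hA
    rw [Finset.mem_powerset]
    intro v hv
    rw [hP.pup, ← (Finset.mem_filter.1 hA).2]
    exact Finset.mem_image_of_mem _ hv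
  have h5 := Finset.card_le_card h4
  rw [Finset.card_powerset] at h5
  have h6 : (2 : ℕ) ^ (up Q : Finset (Pl M)).card ≤ 2 ^ (Q.card * g) :=
    Nat.pow_le_pow_right (by norm_num) (card_up hP hg Q)
  have h7 : ((𝒜.filter fun A => A.image (lo : Pl M → Pl K) = Q).card : ℝ) ≤
      ((2 : ℝ) ^ g) ^ Q.card := by
    rw [← pow_mul, mul_comm g]
    exact_mod_cast h5.trans h6
  refine h7.trans ((hC Q).trans ?_)
  refine mul_le_mul_of_nonneg_left ?_ (by linarith)
  exact Real.rpow_le_rpow (by positivity) h3 hε.le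

open Classical in
lemma cardcount (hP : PF K M) (ε : ℝ) (hε : 0 < ε) : ∃ C : ℝ, 1 ≤ C ∧ ∀ N : ℝ, 1 ≤ N →
    ∀ 𝒜 : Finset (Finset (Pl M)), (∀ A ∈ 𝒜, Set.InjOn (lo : Pl M → Pl K) (A : Set (Pl M)) ∧
      (NO (lo : Pl M → Pl K) A : ℝ) ≤ N) → (𝒜.card : ℝ) ≤ C * N ^ (1 + ε) := by
  obtain ⟨C, hC1, hC⟩ := fibcount (K := K) (M := M) hP ε hε
  obtain ⟨C₁, hC₁, hcount⟩ := count_IX K
  refine ⟨C₁ * C, one_le_mul_of_one_le_of_one_le hC₁ hC1, ?_⟩
  intro N hN 𝒜 h𝒜
  have h1 : 𝒜.card = ∑ Q ∈ 𝒜.image fun A => A.image (lo : Pl M → Pl K),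
      (𝒜.filter fun A => A.image (lo : Pl M → Pl K) = Q).card :=
    Finset.card_eq_sum_card_image _ _
  have h2 : (𝒜.card : ℝ) ≤ ((𝒜.image fun A => A.image (lo : Pl M → Pl K)).card : ℝ) *
      (C * N ^ ε) := by
    rw [h1]
    push_cast
    rw [← nsmul_eq_mul]
    exact Finset.sum_le_card_nsmul _ _ _ fun Q _ => hC N hN 𝒜 h𝒜 Q
  have h3 : ((𝒜.image fun A => A.image (lo : Pl M → Pl K)).card : ℝ) ≤ C₁ * N := by
    refine card_le hN hcount _ ?_
    intro Q hQ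
    obtain ⟨A, hA, rfl⟩ := Finset.mem_image.1 hQ
    rw [← NO_eq (h𝒜 A hA).1]
    exact (h𝒜 A hA).2
  refine h2.trans ?_
  have h4 : C₁ * C * N ^ (1 + ε) = C₁ * N * (C * N ^ ε) := by
    rw [Real.rpow_add (by linarith), Real.rpow_one]
    ring
  rw [h4]
  exact mul_le_mul_of_nonneg_right h3 (by positivity)

end

/-! ### the intermediate field -/

section
variable {K E M : Type} [Field K] [NumberField K] [Field E] [NumberField E] [Field M]
  [NumberField M] [Algebra K E] [Algebra E M] [Algebra K M] [IsScalarTower K E M] [IsGalois K M]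
  [IsGalois E M] {S : Finset (Pl K)} {D' : Subgroup (M ≃ₐ[K] M)}

lemma lo_iff (hPLE : S_PLE) (hU : Unr K M S)
    (hD : ∀ g : M ≃ₐ[K] M, g ∈ D' ↔ ∃ g' : M ≃ₐ[E] M, g'.restrictScalars K = g) {w' : Pl M}
    (hw : (lo w' : Pl K) ∉ S) (hDG : DG w' D') (v : Pl M) : (lo v : Pl E) = lo w' ↔ v = w' := by
  constructor
  · intro h
    obtain ⟨g, hg⟩ := ((hPLE K E M S hU w' hw).2.2.1 v).1 h
    rw [← hg]
    exact (hDG _).1 ((hD _).2 ⟨g, rfl⟩)
  · rintro rfl
    rfl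

lemma norm_lo (hPLE : S_PLE) (hU : Unr K M S)
    (hD : ∀ g : M ≃ₐ[K] M, g ∈ D' ↔ ∃ g' : M ≃ₐ[E] M, g'.restrictScalars K = g) {w' : Pl M}
    (hw : (lo w' : Pl K) ∉ S) (hDG : DG w' D') :
    Ideal.absNorm (lo w' : Pl E).asIdeal = Ideal.absNorm (lo w' : Pl K).asIdeal := by
  obtain ⟨-, h1, -, h2, -⟩ := hPLE K E M S hU w' hw
  have h3 : DG w' (⊤ : Subgroup (M ≃ₐ[E] M)) := by
    intro g
    constructor
    · intro _
      rw [h1]
      exact (hDG _).1 ((hD _).2 ⟨g, rfl⟩)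
    · intro _
      exact Subgroup.mem_top g
  obtain ⟨h4, -⟩ := h2 _ h3
  obtain ⟨-, h5, -⟩ := (hU w' hw).2 _ hDG
  have h6 : Nat.card (⊤ : Subgroup (M ≃ₐ[E] M)) = Nat.card D' := by
    rw [Subgroup.card_top]
    refine Nat.card_eq_of_bijective (fun g => (⟨g.restrictScalars K, (hD _).2 ⟨g, rfl⟩⟩ : D')) ?_
    constructor
    · intro g g' h
      exact AlgEquiv.restrictScalars_injective K (Subtype.ext_iff.1 h)
    · rintro ⟨g, hg⟩
      obtain ⟨g', hg'⟩ := (hD g).1 hg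
      exact ⟨g', Subtype.ext hg'⟩
  rw [h6] at h4
  rw [h4] at h5
  exact Nat.pow_left_injective (Nat.card_pos (α := D')).ne' h5

lemma norm_lo_le (hPLC : S_PLC) (hPLE : S_PLE) (hU : Unr K M S) {v : Pl M}
    (hv : (lo v : Pl K) ∉ S) : Ideal.absNorm (lo v : Pl E).asIdeal ≤ Ideal.absNorm v.asIdeal := by
  obtain ⟨-, -, -, h2, -⟩ := hPLE K E M S hU v hv
  obtain ⟨h4, -⟩ := h2 _ (stab_DG (pf hPLC) v)
  rw [h4]
  exact Nat.le_self_pow (Nat.card_pos).ne' _

open Classical in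
lemma NA_image_le (hPLC : S_PLC) (hPLE : S_PLE) (hU : Unr K M S) {T : Finset (Pl M)}
    (hT : ∀ v ∈ T, (lo v : Pl K) ∉ S) : NA (T.image (lo : Pl M → Pl E)) ≤ NA T := by
  have h1 : NA T ≥ ∏ v ∈ T, Ideal.absNorm (lo v : Pl E).asIdeal := by
    unfold NA
    exact Finset.prod_le_prod (fun _ _ => Nat.zero_le _) fun v hv => norm_lo_le hPLC hPLE hU (hT v hv)
  refine le_trans ?_ h1
  have h2 := Finset.prod_comp (s := T) (fun q : Pl E => Ideal.absNorm q.asIdeal) (lo : Pl M → Pl E)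
  rw [h2]
  unfold NA
  refine Finset.prod_le_prod (fun _ _ => Nat.zero_le _) fun q hq => ?_
  refine Nat.le_self_pow ?_ _
  obtain ⟨v, hv, hvq⟩ := Finset.mem_image.1 hq
  exact Finset.card_ne_zero_of_mem (Finset.mem_filter.2 ⟨hv, hvq⟩)

end

end Pool.Agent.T3h73.SG.YBL
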