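import Pool.Agent.T3h73.SG.YBLa
import Pool.Agent.T3h73.SG.YBLb

/-! Project SG, task YBL (helper74): bilinear sums over places with given decomposition groups. -/

set_option autoImplicit false
set_option linter.all false

open NumberField IsDedekindDomain Filter Topology

namespace Pool.Agent.T3h73.SG.YBL

open Pool.Agent.T3h73.SL (Pl)
open Pool.Agent.T3h73.SD (ee NA gA S_LS SymSys)
open Pool.Agent.T3h73.SD.BL
open Pool.Agent.Y773.G (IsModChar)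
open Pool.Agent.N912.RC (IX)

/-! ### the characters -/

lemma dvd_of_not_coprime {E : Type} [Field E] [NumberField E] {q : Pl E} {J : Ideal (𝓞 E)}
    (h : ¬ IsCoprime q.asIdeal J) : q.asIdeal ∣ J := by
  rw [Ideal.dvd_iff_le]
  by_contra h1
  apply h
  rw [Ideal.isCoprime_iff_sup_eq]
  exact q.isMaximal.out.2 _ (lt_of_le_of_ne le_sup_left fun h => h1 (h ▸ le_sup_right))

section
variable {K E M : Type} [Field K] [NumberField K] [Field E] [NumberField E] [Field M]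
  [NumberField M] [Algebra K E] [Algebra E M] [Algebra K M] [IsScalarTower K E M] [IsGalois K M]
  [IsGalois E M]

/-- the character attached to `j` -/
structure IsR {ℓ : ℕ} (S : Finset (Pl K)) (𝔪 : Ideal (𝓞 M)) (sy : Pl M → Pl M → ZMod ℓ)
    (j : Pl M → ZMod ℓ) (B : Finset (Pl M)) (𝔫 : Ideal (𝓞 E)) (η : Ideal (𝓞 E) →*₀ ℂ) : Prop where
  supp : ∀ b, j b ≠ 0 ↔ b ∈ B
  disj : ∀ b ∈ B, (lo b : Pl K) ∉ S
  mc : IsModChar 𝔫 (fun _ => 0) η
  nm : (Ideal.absNorm 𝔫 : ℝ) ≤ Ideal.absNorm 𝔪 * NA B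
  cop : ∀ q : Pl E, IsCoprime q.asIdeal 𝔫 ↔ ∀ w : Pl M, (lo w : Pl E) = q →
    (lo w : Pl K) ∉ S ∧ w ∉ B
  pw : ∀ 𝔞, IsCoprime 𝔞 𝔫 → η 𝔞 ^ ℓ = 1
  val : ∀ q : Pl E, IsCoprime q.asIdeal 𝔫 → η q.asIdeal =
    ∏ᶠ w ∈ {w : Pl M | (lo w : Pl E) = q}, ee ℓ (∑ b ∈ B, j b * sy b w)
  nt : B.Nonempty → ∃ α : 𝓞 E, IsCoprime (Ideal.span {α}) 𝔫 ∧ η (Ideal.span {α}) ≠ 1

variable {ℓ : ℕ} {S : Finset (Pl K)} {𝔪 : Ideal (𝓞 M)} {Λ : Type} [AddCommGroup Λ]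
  {χ : Λ → Pl M → ZMod ℓ} {sy : Pl M → Pl M → ZMod ℓ}

lemma exists_R (hPLC : S_PLC) (hRST : S_RST) (hℓ : ℓ.Prime) (hsys : GSys ℓ K M S 𝔪 Λ χ sy)
    {D' : Subgroup (M ≃ₐ[K] M)}
    (hD : ∀ g : M ≃ₐ[K] M, g ∈ D' ↔ ∃ g' : M ≃ₐ[E] M, g'.restrictScalars K = g)
    {j : Pl M → ZMod ℓ} {B : Finset (Pl M)} (h1 : ∀ b, j b ≠ 0 ↔ b ∈ B)
    (h2 : ∀ b ∈ B, (lo b : Pl K) ∉ S) (h3 : ∀ g ∈ D', ∀ w, j (gp g w) = j w) :
    ∃ (𝔫 : Ideal (𝓞 E)) (η : Ideal (𝓞 E) →*₀ ℂ), IsR S 𝔪 sy j B 𝔫 η := by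
  have hP : PF K M := pf hPLC
  have hχ : ∀ w, χ 0 w = 0 := by
    intro w
    have := hsys.sys.add 0 0 w
    rw [add_zero] at this
    exact left_eq_add.1 this
  obtain ⟨𝔫, η, e1, e2, e3, e4, e5, -, e7⟩ := hRST ℓ hℓ K E M S 𝔪 Λ χ sy hsys 0 j B
    (by
      rw [Finset.disjoint_left]
      intro b hb hb2
      exact h2 b hb ((hP.pup _ _).1 hb2))
    h1 (fun g w _ => by rw [hχ, hχ]) (fun g w => h3 _ ((hD _).2 ⟨g, rfl⟩) w)
  refine ⟨𝔫, η, ⟨h1, h2, e1, e2, e3, e4, ?_, e7⟩⟩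
  intro q hq
  rw [e5 q hq]
  simp only [hχ, zero_add]

open Classical in
lemma sep (hPLC : S_PLC) (hRST : S_RST) (hℓ : ℓ.Prime) (hsys : GSys ℓ K M S 𝔪 Λ χ sy)
    {D' : Subgroup (M ≃ₐ[K] M)}
    (hD : ∀ g : M ≃ₐ[K] M, g ∈ D' ↔ ∃ g' : M ≃ₐ[E] M, g'.restrictScalars K = g)
    {j j' : Pl M → ZMod ℓ} {B B' : Finset (Pl M)} {𝔫 𝔫' : Ideal (𝓞 E)}
    {η η' : Ideal (𝓞 E) →*₀ ℂ} (hR : IsR S 𝔪 sy j B 𝔫 η) (hR' : IsR S 𝔪 sy j' B' 𝔫' η')
    (h3 : ∀ g ∈ D', ∀ w, j (gp g w) = j w) (h3' : ∀ g ∈ D', ∀ w, j' (gp g w) = j' w)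
    (hne : j ≠ j') (T T' : Finset (Pl E)) :
    ∃ α : 𝓞 E, IsCoprime (Ideal.span {α}) ((𝔫 * II T) * (𝔫' * II T')) ∧
      ext η T (Ideal.span {α}) ≠ ext η' T' (Ideal.span {α}) := by
  haveI : NeZero ℓ := ⟨hℓ.ne_zero⟩
  have hPE : PF E M := pf hPLC
  set jd : Pl M → ZMod ℓ := fun v => j v - j' v with hjd
  set Bd : Finset (Pl M) := (B ∪ B').filter fun v => jd v ≠ 0 with hBd
  have hs : ∀ b, jd b ≠ 0 ↔ b ∈ Bd := by
    intro b
    rw [hBd, Finset.mem_filter]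
    refine ⟨fun h => ⟨?_, h⟩, fun h => h.2⟩
    rw [Finset.mem_union, ← hR.supp, ← hR'.supp]
    by_contra h1
    push Not at h1
    apply h
    rw [hjd]
    show j b - j' b = 0
    rw [h1.1, h1.2, sub_zero]
  have hsub : Bd ⊆ B ∪ B' := Finset.filter_subset _ _
  obtain ⟨v₀, hv₀⟩ : ∃ v, j v ≠ j' v := by
    by_contra h
    push Not at h
    exact hne (funext h)
  have hBne : Bd.Nonempty := ⟨v₀, (hs v₀).1 (sub_ne_zero.2 hv₀)⟩
  obtain ⟨𝔫d, ψ, hψ⟩ := exists_R (E := E) hPLC hRST hℓ hsys hD hs (by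
    intro b hb
    rcases Finset.mem_union.1 (hsub hb) with h | h
    · exact hR.disj b h
    · exact hR'.disj b h) (by
    intro g hg w
    show j (gp g w) - j' (gp g w) = j w - j' w
    rw [h3 g hg, h3' g hg])
  obtain ⟨α', hα1, hα2⟩ := hψ.nt hBne
  set 𝔐 : Ideal (𝓞 E) := (𝔫 * II T) * (𝔫' * II T') with h𝔐
  have h𝔐0 : 𝔐 ≠ 0 := mul_ne_zero (mul_ne_zero hR.mc.ne_bot (II_ne_bot T))
    (mul_ne_zero hR'.mc.ne_bot (II_ne_bot T'))
  set P : Finset (Pl E) := (Ideal.finite_factors h𝔐0).toFinset.filter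
    (fun q => IsCoprime q.asIdeal 𝔫d) with hPdef
  have hcop : IsCoprime 𝔫d (II P) := by
    refine IsCoprime.prod_right fun q hq => ?_
    exact (Finset.mem_filter.1 hq).2.symm
  obtain ⟨α, hα3, hα4⟩ := crt hcop α'
  have hα5 : IsCoprime (Ideal.span {α}) 𝔫d := coprime_congr hα1 hα3
  have hα6 : ψ (Ideal.span {α}) ≠ 1 := by
    rw [char_congr hψ.mc hα1 hα3]
    exact hα2
  have hα7 : IsCoprime (Ideal.span {α}) (II P) := by
    refine coprime_congr (α := 1) ?_ hα4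
    rw [Ideal.span_singleton_one, ← Ideal.one_eq_top]
    exact isCoprime_one_left
  have hcc : IsCoprime (Ideal.span {α}) 𝔐 := by
    refine coprime_of_pl fun q hq => ?_
    by_cases hqd : IsCoprime q.asIdeal 𝔫d
    · refine (IsCoprime.prod_right_iff.1 hα7) q ?_
      rw [hPdef, Finset.mem_filter, Set.Finite.mem_toFinset]
      exact ⟨dvd_of_not_coprime hq, hqd⟩
    · exact IsCoprime.of_isCoprime_of_dvd_right hα5 (dvd_of_not_coprime hqd)
  refine ⟨α, hcc, ?_⟩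
  have hc1 : IsCoprime (Ideal.span {α}) (𝔫 * II T) := IsCoprime.of_mul_right_left hcc
  have hc2 : IsCoprime (Ideal.span {α}) (𝔫' * II T') := IsCoprime.of_mul_right_right hcc
  rw [ext_apply, ext_apply, if_pos (IsCoprime.of_mul_right_right hc1),
    if_pos (IsCoprime.of_mul_right_right hc2)]
  intro heq
  have h6 : ∀ 𝔞 : Ideal (𝓞 E), IsCoprime 𝔞 𝔐 → (ψ * η') 𝔞 = η 𝔞 := by
    refine char_ext fun q hq => ?_
    have hq1 : IsCoprime q.asIdeal 𝔫 := IsCoprime.of_mul_right_left (IsCoprime.of_mul_right_left hq)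
    have hq2 : IsCoprime q.asIdeal 𝔫' := IsCoprime.of_mul_right_left (IsCoprime.of_mul_right_right hq)
    have hq3 : IsCoprime q.asIdeal 𝔫d := by
      rw [hψ.cop]
      intro w hw
      have g1 := (hR.cop q).1 hq1 w hw
      have g2 := (hR'.cop q).1 hq2 w hw
      refine ⟨g1.1, fun h => ?_⟩
      rcases Finset.mem_union.1 (hsub h) with h | h
      · exact g1.2 h
      · exact g2.2 h
    have hfin : {w : Pl M | (lo w : Pl E) = q}.Finite := by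
      obtain ⟨g, hg⟩ := hPE.pfib
      exact (hg q).1
    show ψ q.asIdeal * η' q.asIdeal = η q.asIdeal
    rw [hψ.val q hq3, hR'.val q hq2, hR.val q hq1, ← finprod_mem_mul_distrib hfin]
    refine finprod_mem_congr rfl fun w _ => ?_
    rw [← ee_add]
    congr 1
    have e1 : ∑ b ∈ B, j b * sy b w = ∑ b ∈ B ∪ B', j b * sy b w := by
      refine Finset.sum_subset Finset.subset_union_left ?_
      intro b _ hb
      have : j b = 0 := by
        by_contra h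
        exact hb ((hR.supp b).1 h)
      rw [this, zero_mul]
    have e2 : ∑ b ∈ B', j' b * sy b w = ∑ b ∈ B ∪ B', j' b * sy b w := by
      refine Finset.sum_subset Finset.subset_union_right ?_
      intro b _ hb
      have : j' b = 0 := by
        by_contra h
        exact hb ((hR'.supp b).1 h)
      rw [this, zero_mul]
    have e3 : ∑ b ∈ Bd, jd b * sy b w = ∑ b ∈ B ∪ B', jd b * sy b w := by
      refine Finset.sum_subset hsub ?_
      intro b _ hb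
      have : jd b = 0 := by
        by_contra h
        exact hb ((hs b).1 h)
      rw [this, zero_mul]
    rw [e1, e2, e3, ← Finset.sum_add_distrib]
    refine Finset.sum_congr rfl fun b _ => ?_
    rw [hjd]
    ring
  have h7 := h6 _ hcc
  have h8 : η' (Ideal.span {α}) ≠ 0 := (hR'.mc.supp _).2 (IsCoprime.of_mul_right_left hc2)
  rw [heq] at h7
  have h9 : ψ (Ideal.span {α}) * η' (Ideal.span {α}) = 1 * η' (Ideal.span {α}) := by
    rw [one_mul]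
    exact h7
  exact hα6 (mul_right_cancel₀ h8 h9)

open Classical in
/-- the places of `E` over the places below a set -/
noncomputable def TT (K E : Type) {M : Type} [Field K] [NumberField K] [Field E] [NumberField E]
    [Field M] [NumberField M] [Algebra E M] [Algebra K M] (B : Finset (Pl M)) : Finset (Pl E) :=
  (up (B.image (lo : Pl M → Pl K)) : Finset (Pl M)).image (lo : Pl M → Pl E)

open Classical in
lemma eval (hPLC : S_PLC) (hPLE : S_PLE) (hℓ : ℓ.Prime) (hsys : GSys ℓ K M S 𝔪 Λ χ sy)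
    {D D' : Subgroup (M ≃ₐ[K] M)}
    (hD : ∀ g : M ≃ₐ[K] M, g ∈ D' ↔ ∃ g' : M ≃ₐ[E] M, g'.restrictScalars K = g)
    (c : (M ≃ₐ[K] M) → ZMod ℓ) (hc0 : ∃ g, c g ≠ 0) (hc : ∀ g, ∀ d ∈ D, c (g * d) = c g)
    {A : Finset (Pl M)} (hA : Ad S (lo : Pl M → Pl K) (fun w => DG w D) A)
    {B : Finset (Pl M)} {𝔫 : Ideal (𝓞 E)} {η : Ideal (𝓞 E) →*₀ ℂ}
    (hR : IsR S 𝔪 sy (jA c A) B 𝔫 η)
    {Q : Finset (Pl M)} (hQ : Ad S (lo : Pl M → Pl K) (fun w => DG w D') Q) :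
    ext η (TT K E B) (II (Q.image (lo : Pl M → Pl E))) =
      if Dj (lo : Pl M → Pl K) A Q then
        ee ℓ (∑ w ∈ A, ∑ w' ∈ Q, ∑ g : M ≃ₐ[K] M, c g * sy (gp g w) w') else 0 := by
  haveI : NeZero ℓ := ⟨hℓ.ne_zero⟩
  have hP : PF K M := pf hPLC
  have hU := hsys.unr
  have hloE : ∀ w' ∈ Q, ∀ v : Pl M, (lo v : Pl E) = lo w' ↔ v = w' := fun w' hw' v =>
    lo_iff hPLE hU hD (hQ.1 w' hw').2 (hQ.1 w' hw').1 v
  have hinjE : Set.InjOn (lo : Pl M → Pl E) (Q : Set (Pl M)) := by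
    intro v _ w' hw' h
    exact (hloE w' hw' v).1 h
  have him : B.image (lo : Pl M → Pl K) = A.image (lo : Pl M → Pl K) :=
    image_supp hP hℓ hsys.hG c hc0 (fun w hw => (hA.1 w hw).1) hA.2 hc hR.supp
  have hT : ∀ w' ∈ Q, (lo w' : Pl E) ∈ TT K E B ↔ (lo w' : Pl K) ∈ A.image (lo : Pl M → Pl K) := by
    intro w' hw'
    unfold TT
    rw [Finset.mem_image]
    constructor
    · rintro ⟨v, hv, hvw⟩
      rw [(hloE w' hw' v).1 hvw, hP.pup, him] at hv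
      exact hv
    · intro h
      refine ⟨w', ?_, rfl⟩
      rw [hP.pup, him]
      exact h
  rw [ext_II, Finset.prod_image hinjE]
  by_cases hDj : Dj (lo : Pl M → Pl K) A Q
  · rw [if_pos hDj]
    have hnot : ∀ w' ∈ Q, (lo w' : Pl K) ∉ A.image (lo : Pl M → Pl K) := by
      intro w' hw' h
      obtain ⟨w, hw, hww⟩ := Finset.mem_image.1 h
      exact hDj w hw w' hw' hww
    have h1 : ∀ w' ∈ Q, (if (lo w' : Pl E) ∉ TT K E B then η (lo w' : Pl E).asIdeal else 0) =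
        ee ℓ (∑ w ∈ A, ∑ g : M ≃ₐ[K] M, c g * sy (gp g w) w') := by
      intro w' hw'
      rw [if_pos fun h => hnot w' hw' ((hT w' hw').1 h)]
      have hcop : IsCoprime (lo w' : Pl E).asIdeal 𝔫 := by
        rw [hR.cop]
        intro w hw
        rw [(hloE w' hw' w).1 hw]
        refine ⟨(hQ.1 w' hw').2, fun h => ?_⟩
        apply hnot w' hw'
        rw [← him]
        exact Finset.mem_image_of_mem _ h
      have hset : {w : Pl M | (lo w : Pl E) = lo w'} = {w'} := by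
        ext w
        exact hloE w' hw' w
      rw [hR.val _ hcop, hset, finprod_mem_singleton,
        jsum hP c A (fun v => sy v w') B fun v hv => (hR.supp v).1 hv]
    rw [Finset.prod_congr rfl h1, ← ee_sum, Finset.sum_comm]
  · rw [if_neg hDj]
    unfold Dj at hDj
    push Not at hDj
    obtain ⟨w, hw, w', hw', hww⟩ := hDj
    refine Finset.prod_eq_zero hw' ?_
    rw [if_neg]
    rw [not_not, hT w' hw', ← hww]
    exact Finset.mem_image_of_mem _ hw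

open Classical in
/-- the short variable is the first one -/
theorem oneE (hPLC : S_PLC) (hPLE : S_PLE) (hRST : S_RST) (hLS : S_LS) (hℓ : ℓ.Prime)
    (hsys : GSys ℓ K M S 𝔪 Λ χ sy) {D D' : Subgroup (M ≃ₐ[K] M)}
    (hD : ∀ g : M ≃ₐ[K] M, g ∈ D' ↔ ∃ g' : M ≃ₐ[E] M, g'.restrictScalars K = g)
    (c : (M ≃ₐ[K] M) → ZMod ℓ) (hc0 : ∃ g, c g ≠ 0) (hc : ∀ g, ∀ d ∈ D, c (g * d) = c g)
    (hc' : ∀ d ∈ D', ∀ g, c (d * g) = c g) :
    ∃ C θ : ℝ, 0 < C ∧ 0 < θ ∧ ∀ M₀ N : ℝ, 1 ≤ M₀ → M₀ ≤ N → ∀ 𝒜 ℬ : Finset (Finset (Pl M)),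
    (∀ A ∈ 𝒜, Ad S (lo : Pl M → Pl K) (fun w => DG w D) A ∧ (NO (lo : Pl M → Pl K) A : ℝ) ≤ M₀) →
    (∀ B ∈ ℬ, Ad S (lo : Pl M → Pl K) (fun w => DG w D') B ∧ (NO (lo : Pl M → Pl K) B : ℝ) ≤ N) →
    ∀ α β : Finset (Pl M) → ℂ, (∀ A, ‖α A‖ ≤ 1) → (∀ B, ‖β B‖ ≤ 1) →
    ‖∑ A ∈ 𝒜, ∑ B ∈ ℬ, if Dj (lo : Pl M → Pl K) A B then α A * β B *
        ee ℓ (∑ w ∈ A, ∑ w' ∈ B, ∑ g : M ≃ₐ[K] M, c g * sy (gp g w) w') else 0‖ ≤
      C * M₀ * N * M₀ ^ (-θ) := by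
  haveI : NeZero ℓ := ⟨hℓ.ne_zero⟩
  have hP : PF K M := pf hPLC
  have hU := hsys.unr
  obtain ⟨g, hg⟩ := hP.pfib
  set m₀ : ℕ := Nat.card (M ≃ₐ[K] M) * (g + 1) with hm₀
  have hm₀1 : 1 ≤ m₀ := Nat.mul_pos Nat.card_pos (Nat.succ_pos g)
  set k : ℝ := ((2 * m₀ : ℕ) : ℝ) with hk
  have hk1 : 1 ≤ k := by
    rw [hk]
    have : 1 ≤ 2 * m₀ := by omega
    exact_mod_cast this
  obtain ⟨r, hr⟩ := core hLS E k hk1
  set t : ℝ := 1 / (4 * ((r : ℝ) + 1)) with ht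
  have ht0 : 0 < t := by positivity
  obtain ⟨C₅, hC₅1, hC₅⟩ := cardcount (K := K) (M := M) hP (1 / (4 * (2 * (r : ℝ) + 1))) (by positivity)
  obtain ⟨C₆, hC₆1, hC₆⟩ := fibcount (K := K) (M := M) hP (t / 2) (by positivity)
  set c₀ : ℝ := (Ideal.absNorm 𝔪 : ℝ) with hc₀
  have hc₀1 : 1 ≤ c₀ := by
    have : 1 ≤ Ideal.absNorm 𝔪 :=
      Nat.pos_of_ne_zero fun h => hsys.sys.ne_bot (Ideal.absNorm_eq_zero_iff.1 h)
    rw [hc₀]
    exact_mod_cast this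
  obtain ⟨C, hC1, hC⟩ := hr c₀ C₅ hc₀1 hC₅1
  refine ⟨C₆ * C, t / 2, by positivity, by positivity, ?_⟩
  intro M₀ N hM₀ hMN 𝒜 ℬ h𝒜 hℬ α β hα hβ
  have hM₀0 : 0 < M₀ := by linarith
  have hN1 : 1 ≤ N := hM₀.trans hMN
  have h𝒜' : ∀ A ∈ 𝒜, Set.InjOn (lo : Pl M → Pl K) (A : Set (Pl M)) ∧
      (NO (lo : Pl M → Pl K) A : ℝ) ≤ M₀ := fun A hA => ⟨(h𝒜 A hA).1.2, (h𝒜 A hA).2⟩
  set 𝒴 : Finset (Pl M → ZMod ℓ) := 𝒜.image (jA c) with h𝒴
  have hjS : ∀ A ∈ 𝒜, ∀ v, jA c A v ≠ 0 → (lo v : Pl K) ∉ S := by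
    intro A hA v hv
    obtain ⟨w, hw, hwv⟩ := Finset.mem_image.1 (jsupp hP c A v hv)
    rw [← hwv]
    exact ((h𝒜 A hA).1.1 w hw).2
  have hinv : ∀ j ∈ 𝒴, ∀ g ∈ D', ∀ w, j (gp g w) = j w := by
    intro j hj g hg w
    obtain ⟨A, hA, rfl⟩ := Finset.mem_image.1 hj
    exact jinv hP c (hc' g hg) A w
  -- the characters
  have hex : ∀ j : Pl M → ZMod ℓ, ∃ (B : Finset (Pl M)) (𝔫 : Ideal (𝓞 E))
      (η : Ideal (𝓞 E) →*₀ ℂ), j ∈ 𝒴 → IsR S 𝔪 sy j B 𝔫 η := by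
    intro j
    by_cases hj : j ∈ 𝒴
    · obtain ⟨A, hA, hAj⟩ := Finset.mem_image.1 hj
      obtain ⟨𝔫, η, h1⟩ := exists_R (E := E) hPLC hRST hℓ hsys hD (j := j)
        (B := (up (A.image (lo : Pl M → Pl K)) : Finset (Pl M)).filter fun v => j v ≠ 0) (by
          intro b
          rw [Finset.mem_filter]
          refine ⟨fun h => ⟨?_, h⟩, fun h => h.2⟩
          rw [hP.pup]
          rw [← hAj] at h
          exact jsupp hP c A b h) (by
          intro b hb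
          have h2 := (Finset.mem_filter.1 hb).2
          rw [← hAj] at h2
          exact hjS A hA b h2) (hinv j hj)
      exact ⟨_, 𝔫, η, fun _ => h1⟩
    · obtain ⟨𝔫, η, h1⟩ := exists_R (E := E) hPLC hRST hℓ hsys hD (j := fun _ => 0) (B := ∅)
        (by simp) (by simp) (by simp)
      exact ⟨∅, 𝔫, η, fun h => absurd h hj⟩
  choose Bf 𝔫f ηf hR using hex
  have himg : ∀ A ∈ 𝒜, (Bf (jA c A)).image (lo : Pl M → Pl K) = A.image (lo : Pl M → Pl K) := by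
    intro A hA
    exact image_supp hP hℓ hsys.hG c hc0 (fun w hw => ((h𝒜 A hA).1.1 w hw).1) (h𝒜 A hA).1.2 hc
      (hR _ (Finset.mem_image_of_mem _ hA)).supp
  have hfam : Fam 𝒴 (fun j => 𝔫f j * II (TT K E (Bf j))) (fun j => ext (ηf j) (TT K E (Bf j)))
      (c₀ * M₀ ^ k) := by
    refine ⟨fun j hj => ext_mc (hR j hj).mc _,
      fun j hj 𝔞 => norm_ext_le hℓ.ne_zero (hR j hj).mc (hR j hj).pw _ 𝔞, ?_, ?_⟩
    · intro j hj
      obtain ⟨A, hA, rfl⟩ := Finset.mem_image.1 hj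
      have hr1 := hR _ hj
      have hSi : ∀ q ∈ A.image (lo : Pl M → Pl K), q ∉ S := by
        intro q hq
        obtain ⟨w, hw, rfl⟩ := Finset.mem_image.1 hq
        exact ((h𝒜 A hA).1.1 w hw).2
      have hup : (NA (up (A.image (lo : Pl M → Pl K)) : Finset (Pl M)) : ℝ) ≤ M₀ ^ m₀ := by
        have h1 := NA_up (g := g) hP hU hg (Q := A.image (lo : Pl M → Pl K)) hSi
        have h2 : (NA (up (A.image (lo : Pl M → Pl K)) : Finset (Pl M)) : ℝ) ≤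
            (NA (A.image (lo : Pl M → Pl K)) : ℝ) ^ m₀ := by exact_mod_cast h1
        refine h2.trans ?_
        refine pow_le_pow_left₀ (Nat.cast_nonneg _) ?_ _
        rw [← NO_eq (h𝒜 A hA).1.2]
        exact (h𝒜 A hA).2
      have hB : (NA (Bf (jA c A)) : ℝ) ≤ M₀ ^ m₀ := by
        refine le_trans ?_ hup
        have : NA (Bf (jA c A)) ≤ NA (up (A.image (lo : Pl M → Pl K)) : Finset (Pl M)) := by
          refine NA_dvd ?_
          intro v hv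
          rw [hP.pup, ← himg A hA]
          exact Finset.mem_image_of_mem _ hv
        exact_mod_cast this
      have hT : (NA (TT K E (Bf (jA c A))) : ℝ) ≤ M₀ ^ m₀ := by
        refine le_trans ?_ hup
        have : NA (TT K E (Bf (jA c A))) ≤
            NA (up (A.image (lo : Pl M → Pl K)) : Finset (Pl M)) := by
          unfold TT
          rw [himg A hA]
          refine NA_image_le hPLC hPLE hU ?_
          intro v hv
          rw [hP.pup] at hv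
          exact hSi _ hv
        exact_mod_cast this
      show (Ideal.absNorm (𝔫f (jA c A) * II (TT K E (Bf (jA c A)))) : ℝ) ≤ c₀ * M₀ ^ k
      rw [map_mul, norm_II]
      push_cast
      have h3 : M₀ ^ k = M₀ ^ m₀ * M₀ ^ m₀ := by
        rw [hk, Real.rpow_natCast, two_mul, pow_add]
      rw [h3, ← mul_assoc]
      refine mul_le_mul (hr1.nm.trans ?_) hT (Nat.cast_nonneg _) (by positivity)
      exact mul_le_mul_of_nonneg_left hB (by positivity)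
    · intro j hj j' hj' hne
      exact sep hPLC hRST hℓ hsys hD (hR j hj) (hR j' hj') (hinv j hj) (hinv j' hj') hne _ _
  have hcard : (𝒴.card : ℝ) ≤ C₅ * M₀ ^ (1 + 1 / (4 * (2 * (r : ℝ) + 1))) := by
    refine le_trans ?_ (hC₅ M₀ hM₀ 𝒜 h𝒜')
    exact_mod_cast Finset.card_image_le
  -- the long variable
  set φ : Finset (Pl M) → Finset (Pl E) := fun B => B.image (lo : Pl M → Pl E) with hφ
  have hφinj : Set.InjOn φ (ℬ : Set (Finset (Pl M))) := by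
    have key : ∀ B ∈ ℬ, ∀ B' ∈ ℬ, φ B = φ B' → B ⊆ B' := by
      intro B hB B' hB' h v hv
      have h1 : (lo v : Pl E) ∈ φ B' := by
        rw [← h]
        exact Finset.mem_image_of_mem _ hv
      obtain ⟨v', hv', hvv⟩ := Finset.mem_image.1 h1
      have h2 := (lo_iff hPLE hU hD ((hℬ B hB).1.1 v hv).2 ((hℬ B hB).1.1 v hv).1 v').1 hvv
      rwa [← h2]
    intro B hB B' hB' h
    exact Finset.Subset.antisymm (key B hB B' hB' h) (key B' hB' B hB h.symm)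
  have hlong : ∀ Q ∈ ℬ.image φ, (NA Q : ℝ) ≤ N := by
    intro Q hQ
    obtain ⟨B, hB, rfl⟩ := Finset.mem_image.1 hQ
    have h1 : NA (φ B) = NO (lo : Pl M → Pl K) B := by
      unfold NA NO
      rw [hφ]
      show ∏ q ∈ B.image (lo : Pl M → Pl E), Ideal.absNorm q.asIdeal = _
      rw [Finset.prod_image]
      · refine Finset.prod_congr rfl fun w' hw' => ?_
        exact norm_lo hPLE hU hD ((hℬ B hB).1.1 w' hw').2 ((hℬ B hB).1.1 w' hw').1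
      · intro v _ w' hw' h
        exact (lo_iff hPLE hU hD ((hℬ B hB).1.1 w' hw').2 ((hℬ B hB).1.1 w' hw').1 v).1 h
    rw [h1]
    exact (hℬ B hB).2
  set β' : Finset (Pl E) → ℂ := fun Q => β (Function.invFunOn φ (ℬ : Set (Finset (Pl M))) Q) with hβ'
  have hmain := hC N M₀ hM₀ hMN (Pl M → ZMod ℓ) 𝒴 _ _ hfam hcard (ℬ.image φ) hlong β'
    (fun Q => hβ _)
  set Z : (Pl M → ZMod ℓ) → ℝ := fun j =>
    ‖∑ Q ∈ ℬ.image φ, β' Q * ext (ηf j) (TT K E (Bf j)) (II Q)‖ with hZ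
  have hZA : ∀ A ∈ 𝒜, ‖∑ B ∈ ℬ, if Dj (lo : Pl M → Pl K) A B then α A * β B *
        ee ℓ (∑ w ∈ A, ∑ w' ∈ B, ∑ g : M ≃ₐ[K] M, c g * sy (gp g w) w') else 0‖ ≤
      Z (jA c A) := by
    intro A hA
    have h1 : ∑ Q ∈ ℬ.image φ, β' Q * ext (ηf (jA c A)) (TT K E (Bf (jA c A))) (II Q) =
        ∑ B ∈ ℬ, β B * (if Dj (lo : Pl M → Pl K) A B then
          ee ℓ (∑ w ∈ A, ∑ w' ∈ B, ∑ g : M ≃ₐ[K] M, c g * sy (gp g w) w') else 0) := by
      rw [Finset.sum_image hφinj]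
      refine Finset.sum_congr rfl fun B hB => ?_
      have h2 : β' (φ B) = β B := by
        show β (Function.invFunOn φ (ℬ : Set (Finset (Pl M))) (φ B)) = β B
        rw [hφinj.leftInvOn_invFunOn hB]
      rw [h2, hφ]
      show β B * ext _ _ (II (B.image (lo : Pl M → Pl E))) = _
      rw [eval hPLC hPLE hℓ hsys hD c hc0 hc (h𝒜 A hA).1 (hR _ (Finset.mem_image_of_mem _ hA))
        (hℬ B hB).1]
    have h3 : ∑ B ∈ ℬ, (if Dj (lo : Pl M → Pl K) A B then α A * β B *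
        ee ℓ (∑ w ∈ A, ∑ w' ∈ B, ∑ g : M ≃ₐ[K] M, c g * sy (gp g w) w') else 0) =
        α A * ∑ B ∈ ℬ, β B * (if Dj (lo : Pl M → Pl K) A B then
          ee ℓ (∑ w ∈ A, ∑ w' ∈ B, ∑ g : M ≃ₐ[K] M, c g * sy (gp g w) w') else 0) := by
      rw [Finset.mul_sum]
      refine Finset.sum_congr rfl fun B _ => ?_
      split_ifs
      · ring
      · ring
    rw [h3, norm_mul, hZ]
    show _ ≤ ‖∑ Q ∈ ℬ.image φ, β' Q * ext (ηf (jA c A)) (TT K E (Bf (jA c A))) (II Q)‖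
    rw [h1]
    exact mul_le_of_le_one_left (norm_nonneg _) (hα A)
  have hZ0 : ∀ j, 0 ≤ Z j := fun j => norm_nonneg _
  have hsum : ∑ A ∈ 𝒜, Z (jA c A) ≤ (C₆ * M₀ ^ (t / 2)) * ∑ j ∈ 𝒴, Z j := by
    rw [Finset.sum_comp Z (jA c), Finset.mul_sum]
    refine Finset.sum_le_sum fun j hj => ?_
    rw [nsmul_eq_mul]
    refine mul_le_mul_of_nonneg_right ?_ (hZ0 j)
    refine le_trans ?_ (hC₆ M₀ hM₀ 𝒜 h𝒜' ((Bf j).image (lo : Pl M → Pl K)))
    refine Nat.cast_le.2 (Finset.card_le_card ?_)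
    intro A hA
    obtain ⟨h1, h2⟩ := Finset.mem_filter.1 hA
    refine Finset.mem_filter.2 ⟨h1, ?_⟩
    rw [← h2, himg A h1]
  calc ‖∑ A ∈ 𝒜, ∑ B ∈ ℬ, if Dj (lo : Pl M → Pl K) A B then α A * β B *
        ee ℓ (∑ w ∈ A, ∑ w' ∈ B, ∑ g : M ≃ₐ[K] M, c g * sy (gp g w) w') else 0‖
      ≤ ∑ A ∈ 𝒜, Z (jA c A) := (norm_sum_le _ _).trans (Finset.sum_le_sum hZA)
    _ ≤ (C₆ * M₀ ^ (t / 2)) * ∑ j ∈ 𝒴, Z j := hsum
    _ ≤ (C₆ * M₀ ^ (t / 2)) * (C * N * M₀ ^ (1 - t)) :=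
        mul_le_mul_of_nonneg_left hmain (by positivity)
    _ = C₆ * C * M₀ * N * M₀ ^ (-(t / 2)) := by
        have h1 : M₀ ^ (t / 2) * M₀ ^ (1 - t) = M₀ * M₀ ^ (-(t / 2)) := by
          rw [← Real.rpow_add hM₀0]
          nth_rewrite 2 [← Real.rpow_one M₀]
          rw [← Real.rpow_add hM₀0]
          congr 1
          ring
        calc (C₆ * M₀ ^ (t / 2)) * (C * N * M₀ ^ (1 - t))
            = C₆ * C * N * (M₀ ^ (t / 2) * M₀ ^ (1 - t)) := by ring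
          _ = C₆ * C * M₀ * N * M₀ ^ (-(t / 2)) := by rw [h1]; ring

end

open Classical in
theorem one (hPLC : S_PLC) (hPLE : S_PLE) (hRST : S_RST) (hLS : S_LS) {ℓ : ℕ} (hℓ : ℓ.Prime)
    {K M : Type} [Field K] [NumberField K] [Field M] [NumberField M] [Algebra K M] [IsGalois K M]
    {S : Finset (Pl K)} {𝔪 : Ideal (𝓞 M)} {Λ : Type} [AddCommGroup Λ]
    {χ : Λ → Pl M → ZMod ℓ} {sy : Pl M → Pl M → ZMod ℓ}
    (hsys : GSys ℓ K M S 𝔪 Λ χ sy) (D D' : Subgroup (M ≃ₐ[K] M))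
    (c : (M ≃ₐ[K] M) → ZMod ℓ) (hc0 : ∃ g, c g ≠ 0)
    (hc : ∀ g, ∀ g' ∈ D', ∀ g'' ∈ D, c (g' * g * g'') = c g) :
    ∃ C θ : ℝ, 0 < C ∧ 0 < θ ∧ ∀ M₀ N : ℝ, 1 ≤ M₀ → M₀ ≤ N → ∀ 𝒜 ℬ : Finset (Finset (Pl M)),
    (∀ A ∈ 𝒜, Ad S (lo : Pl M → Pl K) (fun w => DG w D) A ∧ (NO (lo : Pl M → Pl K) A : ℝ) ≤ M₀) →
    (∀ B ∈ ℬ, Ad S (lo : Pl M → Pl K) (fun w => DG w D') B ∧ (NO (lo : Pl M → Pl K) B : ℝ) ≤ N) →
    ∀ α β : Finset (Pl M) → ℂ, (∀ A, ‖α A‖ ≤ 1) → (∀ B, ‖β B‖ ≤ 1) →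
    ‖∑ A ∈ 𝒜, ∑ B ∈ ℬ, if Dj (lo : Pl M → Pl K) A B then α A * β B *
        ee ℓ (∑ w ∈ A, ∑ w' ∈ B, ∑ g : M ≃ₐ[K] M, c g * sy (gp g w) w') else 0‖ ≤
      C * M₀ * N * M₀ ^ (-θ) := by
  have hD : ∀ g : M ≃ₐ[K] M, g ∈ D' ↔
      ∃ g' : M ≃ₐ[IntermediateField.fixedField D'] M, g'.restrictScalars K = g := by
    intro g
    constructor
    · intro hg
      have h1 : g ∈ (IntermediateField.fixedField D').fixingSubgroup := by
        rw [IntermediateField.fixingSubgroup_fixedField]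
        exact hg
      refine ⟨IntermediateField.fixingSubgroupEquiv _ ⟨g, h1⟩, ?_⟩
      ext x
      rfl
    · rintro ⟨g', rfl⟩
      have h3 : ∀ g : M ≃ₐ[K] M, g ∈ (IntermediateField.fixedField D').fixingSubgroup → g ∈ D' := by
        intro g hg
        rwa [IntermediateField.fixingSubgroup_fixedField] at hg
      apply h3
      rw [IntermediateField.mem_fixingSubgroup_iff]
      intro x hx
      exact g'.commutes ⟨x, hx⟩
  exact oneE (E := IntermediateField.fixedField D') hPLC hPLE hRST hLS hℓ hsys hD c hc0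
    (fun g d hd => by
      have := hc g 1 (one_mem _) d hd
      rwa [one_mul] at this)
    (fun d hd g => by
      have := hc g d hd 1 (one_mem _)
      rwa [mul_one] at this)

theorem t_YBL (hPLC : S_PLC) (hPLE : S_PLE) (hRST : S_RST) (hLS : Pool.Agent.T3h73.SD.S_LS) :
    S_YBL := by
  classical
  intro ℓ hℓ K M _ _ _ _ _ _ S 𝔪 Λ _ χ sy hsys D D' c hc hc0
  have hP : PF K M := pf hPLC
  obtain ⟨C₁, θ₁, hC₁, hθ₁, h1⟩ := one hPLC hPLE hRST hLS hℓ hsys D D' c hc0 hc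
  obtain ⟨C₂, θ₂, hC₂, hθ₂, h2⟩ := one hPLC hPLE hRST hLS hℓ hsys D' D (fun g => c g⁻¹)
    (by
      obtain ⟨g, hg⟩ := hc0
      exact ⟨g⁻¹, by rwa [inv_inv]⟩)
    (by
      intro g g' hg' g'' hg''
      show c (g' * g * g'')⁻¹ = c g⁻¹
      rw [mul_inv_rev, mul_inv_rev, ← mul_assoc]
      exact hc g⁻¹ _ (inv_mem hg'') _ (inv_mem hg'))
  set C : ℝ := max C₁ C₂ with hC
  have hC0 : 0 < C := lt_max_of_lt_left hC₁
  refine ⟨C, min θ₁ θ₂, hC0, lt_min hθ₁ hθ₂, ?_⟩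
  intro M₀ N hM₀ hN 𝒜 ℬ h𝒜 hℬ α β hα hβ
  have hlog : 1 ≤ (1 + Real.log M₀ + Real.log N) ^ C := by
    refine Real.one_le_rpow ?_ hC0.le
    have h3 := Real.log_nonneg hM₀
    have h4 := Real.log_nonneg hN
    linarith
  rcases le_total M₀ N with hMN | hMN
  · have h3 := h1 M₀ N hM₀ hMN 𝒜 ℬ h𝒜 hℬ α β hα hβ
    rw [min_eq_left hMN]
    have h4 : M₀ ^ (-θ₁) ≤ M₀ ^ (-min θ₁ θ₂) :=
      Real.rpow_le_rpow_of_exponent_le hM₀ (neg_le_neg (min_le_left _ _))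
    have h5 : C₁ * M₀ * N * M₀ ^ (-θ₁) ≤ C * M₀ * N * M₀ ^ (-min θ₁ θ₂) := by
      refine mul_le_mul ?_ h4 (by positivity) (by positivity)
      refine mul_le_mul_of_nonneg_right ?_ (by linarith)
      exact mul_le_mul_of_nonneg_right (le_max_left _ _) (by linarith)
    refine (h3.trans h5).trans (le_mul_of_one_le_right ?_ hlog)
    positivity
  · have h3 := h2 N M₀ hN hMN ℬ 𝒜 hℬ h𝒜 β α hβ hα
    rw [min_eq_right hMN]
    have h4 : N ^ (-θ₂) ≤ N ^ (-min θ₁ θ₂) :=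
      Real.rpow_le_rpow_of_exponent_le hN (neg_le_neg (min_le_right _ _))
    have h5 : C₂ * N * M₀ * N ^ (-θ₂) ≤ C * M₀ * N * N ^ (-min θ₁ θ₂) := by
      have : C₂ * N * M₀ = C₂ * M₀ * N := by ring
      rw [this]
      refine mul_le_mul ?_ h4 (by positivity) (by positivity)
      refine mul_le_mul_of_nonneg_right ?_ (by linarith)
      exact mul_le_mul_of_nonneg_right (le_max_right _ _) (by linarith)
    have h6 : ∑ A ∈ 𝒜, ∑ B ∈ ℬ, (if Dj (lo : Pl M → Pl K) A B then α A * β B *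
        ee ℓ (∑ w ∈ A, ∑ w' ∈ B, ∑ g : M ≃ₐ[K] M, c g * sy (gp g w) w') else 0) =
        ∑ B ∈ ℬ, ∑ A ∈ 𝒜, (if Dj (lo : Pl M → Pl K) B A then β B * α A *
        ee ℓ (∑ w' ∈ B, ∑ w ∈ A, ∑ g : M ≃ₐ[K] M, c g⁻¹ * sy (gp g w') w) else 0) := by
      rw [Finset.sum_comm]
      refine Finset.sum_congr rfl fun B hB => Finset.sum_congr rfl fun A hA => ?_
      by_cases hAB : Dj (lo : Pl M → Pl K) A B
      · have hBA : Dj (lo : Pl M → Pl K) B A := fun w hw w' hw' h => hAB w' hw' w hw h.symm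
        rw [if_pos hAB, if_pos hBA, mul_comm (α A) (β B)]
        congr 2
        rw [Finset.sum_comm]
        refine Finset.sum_congr rfl fun w' hw' => Finset.sum_congr rfl fun w hw => ?_
        rw [← Equiv.sum_comp (Equiv.inv (M ≃ₐ[K] M)) (fun g : M ≃ₐ[K] M => c g * sy (gp g w) w')]
        refine Finset.sum_congr rfl fun g _ => ?_
        show c g⁻¹ * sy (gp g⁻¹ w) w' = c g⁻¹ * sy (gp g w') w
        congr 1
        have hwS : (lo w : Pl K) ∉ S := ((h𝒜 A hA).1.1 w hw).2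
        have hwS' : (lo w' : Pl K) ∉ S := ((hℬ B hB).1.1 w' hw').2
        have e1 := hsys.eqs g (gp g⁻¹ w) w' (by rw [hP.plo]; exact hwS) hwS'
        rw [← hP.pmul, mul_inv_cancel, hP.pone] at e1
        rw [← e1]
        refine hsys.sys.symm w (gp g w') ?_ ?_ ?_
        · rw [hP.pup]
          exact hwS
        · rw [hP.pup, hP.plo]
          exact hwS'
        · intro h
          apply hAB w hw w' hw'
          rw [h, hP.plo]
      · rw [if_neg hAB, if_neg fun h => hAB fun w hw w' hw' h1 => h w' hw' w hw h1.symm]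
    rw [h6]
    refine (h3.trans h5).trans (le_mul_of_one_le_right ?_ hlog)
    positivity

end Pool.Agent.T3h73.SG.YBL
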