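import Mathlib
import Pool.Agent.T3h73.SD.EULa

/-! Project SG, task YEU: sums over the finite sets with at most one element in every fibre. -/

set_option autoImplicit false
set_option linter.all false

open Filter Topology

namespace Pool.Agent.T3h73.SG.YEU

section comb
variable {Ω Q : Type}

open Classical in
/-- the finite sets over `T` with at most one element in every fibre -/
noncomputable def PT (kp : Ω → Q) (fib : Q → Finset Ω) (T : Finset Q) : Finset (Finset Ω) :=
  (T.biUnion fib).powerset.filter fun A => Set.InjOn kp (A : Set Ω)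

open Classical in
theorem mem_PT {kp : Ω → Q} {fib : Q → Finset Ω} (hfib : ∀ q w, w ∈ fib q ↔ kp w = q)
    {T : Finset Q} {A : Finset Ω} :
    A ∈ PT kp fib T ↔ (∀ w ∈ A, kp w ∈ T) ∧ Set.InjOn kp (A : Set Ω) := by
  unfold PT
  rw [Finset.mem_filter, Finset.mem_powerset]
  refine and_congr_left fun _ => ?_
  constructor
  · intro h w hw
    obtain ⟨q, hq, h1⟩ := Finset.mem_biUnion.1 (h hw)
    rw [(hfib q w).1 h1]
    exact hq
  · intro h w hw
    exact Finset.mem_biUnion.2 ⟨kp w, h w hw, (hfib _ _).2 rfl⟩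

open Classical in
theorem PT_insert {kp : Ω → Q} {fib : Q → Finset Ω} (hfib : ∀ q w, w ∈ fib q ↔ kp w = q)
    {q : Q} {T : Finset Q} (hq : q ∉ T) :
    PT kp fib (insert q T) = PT kp fib T ∪
      (fib q ×ˢ PT kp fib T).image (fun x => insert x.1 x.2) := by
  ext A
  rw [Finset.mem_union, Finset.mem_image, mem_PT hfib, mem_PT hfib]
  constructor
  · rintro ⟨h1, h2⟩
    by_cases h3 : ∃ w ∈ A, kp w = q
    · right
      obtain ⟨w, hw, hwq⟩ := h3
      refine ⟨(w, A.erase w), ?_, Finset.insert_erase hw⟩
      rw [Finset.mem_product]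
      refine ⟨(hfib q w).2 hwq, (mem_PT hfib).2 ⟨fun x hx => ?_, ?_⟩⟩
      · rw [Finset.mem_erase] at hx
        have h4 := h1 x hx.2
        rw [Finset.mem_insert] at h4
        rcases h4 with h4 | h4
        · exact absurd (h2 hx.2 hw (h4.trans hwq.symm)) hx.1
        · exact h4
      · exact h2.mono (Finset.coe_subset.2 (Finset.erase_subset _ _))
    · left
      refine ⟨fun w hw => ?_, h2⟩
      have h4 := h1 w hw
      rw [Finset.mem_insert] at h4
      exact h4.resolve_left fun h5 => h3 ⟨w, hw, h5⟩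
  · rintro (⟨h1, h2⟩ | ⟨⟨w, A'⟩, h1, h2⟩)
    · exact ⟨fun w hw => Finset.mem_insert_of_mem (h1 w hw), h2⟩
    · rw [Finset.mem_product] at h1
      obtain ⟨h3, h4⟩ := h1
      rw [mem_PT hfib] at h4
      have hw : kp w = q := (hfib q w).1 h3
      simp only at h2
      subst h2
      refine ⟨fun x hx => ?_, ?_⟩
      · rcases Finset.mem_insert.1 hx with h5 | h5
        · rw [h5, hw]
          exact Finset.mem_insert_self _ _
        · exact Finset.mem_insert_of_mem (h4.1 x h5)
      · rw [Finset.coe_insert, Set.injOn_insert]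
        · refine ⟨h4.2, ?_⟩
          rintro ⟨x, hx, hx2⟩
          apply hq
          rw [← hw, ← hx2]
          exact h4.1 x hx
        · intro h5
          apply hq
          rw [← hw]
          exact h4.1 w h5

open Classical in
theorem inj_prod {kp : Ω → Q} {fib : Q → Finset Ω} (hfib : ∀ q w, w ∈ fib q ↔ kp w = q)
    (v : Ω → ℂ) (T : Finset Q) :
    ∑ A ∈ PT kp fib T, ∏ w ∈ A, v w = ∏ q ∈ T, (1 + ∑ w ∈ fib q, v w) := by
  induction T using Finset.induction_on with
  | empty =>
    have h : PT kp fib (∅ : Finset Q) = {∅} := by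
      ext A
      rw [mem_PT hfib, Finset.mem_singleton]
      constructor
      · rintro ⟨h1, -⟩
        rw [Finset.eq_empty_iff_forall_notMem]
        intro w hw
        exact absurd (h1 w hw) (Finset.notMem_empty _)
      · rintro rfl
        exact ⟨fun w hw => absurd hw (Finset.notMem_empty _), by simp⟩
    rw [h, Finset.sum_singleton, Finset.prod_empty, Finset.prod_empty]
  | insert q T hq ih =>
    have hnot : ∀ w ∈ fib q, ∀ A ∈ PT kp fib T, w ∉ A := by
      intro w hw A hA hwA
      apply hq
      rw [← (hfib q w).1 hw]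
      exact ((mem_PT hfib).1 hA).1 w hwA
    rw [Finset.prod_insert hq, PT_insert hfib hq, Finset.sum_union, Finset.sum_image,
      Finset.sum_product, ← ih, add_mul, one_mul, Finset.sum_mul]
    · congr 1
      refine Finset.sum_congr rfl fun w hw => ?_
      rw [Finset.mul_sum]
      exact Finset.sum_congr rfl fun A hA => Finset.prod_insert (hnot w hw A hA)
    · rintro ⟨w, A⟩ hx ⟨w', A'⟩ hx' heq
      rw [Finset.mem_coe, Finset.mem_product] at hx hx'
      simp only at heq hx hx'
      have h1 : w = w' := by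
        have h2 : w ∈ insert w' A' := by rw [← heq]; exact Finset.mem_insert_self _ _
        rcases Finset.mem_insert.1 h2 with h3 | h3
        · exact h3
        · exact absurd h3 (hnot w hx.1 A' hx'.2)
      subst h1
      have h2 : A = A' := by
        rw [← Finset.erase_insert (hnot w hx.1 A hx.2), heq, Finset.erase_insert (hnot w hx.1 A' hx'.2)]
      rw [h2]
    · rw [Finset.disjoint_left]
      intro A hA hA'
      obtain ⟨⟨w, A'⟩, h1, h2⟩ := Finset.mem_image.1 hA'
      rw [Finset.mem_product] at h1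
      exact hnot w h1.1 A hA (by rw [← h2]; exact Finset.mem_insert_self _ _)

open Classical in
theorem euler_bound {kp : Ω → Q} {fib : Q → Finset Ω} (hfib : ∀ q w, w ∈ fib q ↔ kp w = q)
    (v : Ω → ℂ) (hv : Summable fun w => ‖v w‖) {C : ℝ}
    (hC : ∀ T : Finset Q, ∑ q ∈ T, (∑ w ∈ fib q, ‖v w‖) ^ 2 ≤ C) :
    ‖∑' A : Finset Ω, if Set.InjOn kp (A : Set Ω) then ∏ w ∈ A, v w else 0‖ ≤
      Real.exp (∑' w, (v w).re + C / 2) := by
  have hcof : Tendsto (fun T : Finset Q => T.biUnion fib) atTop atTop := by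
    refine tendsto_atTop_finset_of_monotone ?_ ?_
    · intro T T' h
      exact Finset.biUnion_subset_biUnion_of_subset_left fib h
    · intro w
      exact ⟨{kp w}, Finset.mem_biUnion.2 ⟨kp w, Finset.mem_singleton_self _, (hfib _ _).2 rfl⟩⟩
  have hcof2 : Tendsto (fun U : Finset Ω => U.powerset) atTop atTop := by
    refine tendsto_atTop_finset_of_monotone ?_ ?_
    · intro T T' h
      exact Finset.powerset_mono.2 h
    · intro A
      exact ⟨A, Finset.mem_powerset_self A⟩
  have hf : Summable fun A : Finset Ω => if Set.InjOn kp (A : Set Ω) then ∏ w ∈ A, v w else 0 := by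
    refine Summable.of_norm_bounded (summable_finsetProd_of_summable_nonneg
      (f := fun w => ‖v w‖) (fun w => norm_nonneg _) hv) fun A => ?_
    split_ifs
    · rw [norm_prod]
    · rw [norm_zero]
      exact Finset.prod_nonneg fun w _ => norm_nonneg _
  have h1 := ((hf.hasSum).comp (hcof2.comp hcof)).norm
  have hre : Summable fun w => (v w).re := hv.of_norm_bounded fun w => by
    rw [Real.norm_eq_abs]
    exact Complex.abs_re_le_norm _
  have h2 := (Real.continuous_exp.tendsto _).comp ((hre.hasSum.comp hcof).add_const (C / 2))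
  refine le_of_tendsto_of_tendsto' h1 h2 fun T => ?_
  simp only [Function.comp_apply]
  rw [← Finset.sum_filter]
  change ‖∑ A ∈ PT kp fib T, ∏ w ∈ A, v w‖ ≤ _
  rw [inj_prod hfib, norm_prod]
  have h3 : ∀ q, ‖1 + ∑ w ∈ fib q, v w‖ ≤
      Real.exp ((∑ w ∈ fib q, (v w).re) + (∑ w ∈ fib q, ‖v w‖) ^ 2 / 2) := by
    intro q
    refine (SD.EUL.norm_one_add_le _).trans (Real.exp_le_exp.mpr ?_)
    rw [Complex.re_sum]
    have h4 : ‖∑ w ∈ fib q, v w‖ ^ 2 ≤ (∑ w ∈ fib q, ‖v w‖) ^ 2 :=
      pow_le_pow_left₀ (norm_nonneg _) (norm_sum_le _ _) 2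
    linarith
  refine (Finset.prod_le_prod (fun q _ => norm_nonneg _) fun q _ => h3 q).trans ?_
  rw [← Real.exp_sum]
  apply Real.exp_le_exp.mpr
  rw [Finset.sum_add_distrib, ← Finset.sum_div, Finset.sum_biUnion]
  · have := hC T
    linarith
  · intro q _ q' _ hqq'
    rw [Function.onFun, Finset.disjoint_left]
    intro w hw hw'
    exact hqq' (((hfib q w).1 hw).symm.trans ((hfib q' w).1 hw'))

end comb

end Pool.Agent.T3h73.SG.YEU
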