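import Pool.Agent.T3h73.SG.T_XMAS

/-! Project SG, task YEU: the sum of the inverses of the norms of the places dividing an ideal. -/

set_option autoImplicit false
set_option linter.all false

open NumberField IsDedekindDomain Filter Topology

namespace Pool.Agent.T3h73.SG.YEU

open Pool.Agent.T3h73.SL (Pl)
open Pool.Agent.H921R2.TatePole
open Pool.Agent.T3h73.SD.MASS (one_le_nm)

theorem inv_sum (K : Type) [Field K] [NumberField K] : ∃ C : ℝ, 0 < C ∧
    ∀ (P : Finset (Pl K)) (X : ℝ), 1 ≤ X → (∏ q ∈ P, (nm q : ℝ)) ≤ X →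
    ∑ q ∈ P, 1 / (nm q : ℝ) ≤ C * (1 + Real.log (1 + Real.log X)) := by
  classical
  obtain ⟨C₀, hC₀, hp⟩ := SD.Prs.psum_le K
  refine ⟨Real.exp 1 + Real.exp 1 * C₀ + 2, by positivity, ?_⟩
  intro P X hX hPX
  have hlX : 0 ≤ Real.log X := Real.log_nonneg hX
  set Y : ℝ := 1 + Real.log X with hY
  have hY1 : 1 ≤ Y := by rw [hY]; linarith
  have hY0 : 0 < Y := by linarith
  have hlY : 0 ≤ Real.log Y := Real.log_nonneg hY1
  have h1Y : 0 < 1 + Real.log Y := by linarith
  set s : ℝ := 1 + 1 / (1 + Real.log Y) with hs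
  have hs1 : 1 < s := by
    rw [hs]
    have : 0 < 1 / (1 + Real.log Y) := by positivity
    linarith
  have hs2 : s ≤ 2 := by
    rw [hs]
    have : 1 / (1 + Real.log Y) ≤ 1 := by rw [div_le_one h1Y]; linarith
    linarith
  have hinv : 1 / (s - 1) = 1 + Real.log Y := by
    rw [hs]; simp
  rw [← Finset.sum_filter_add_sum_filter_not P (fun q => (nm q : ℝ) ≤ Y)]
  -- the places of small norm
  have h1 : ∑ q ∈ P.filter (fun q => (nm q : ℝ) ≤ Y), 1 / (nm q : ℝ) ≤
      Real.exp 1 * (Real.log Y + C₀) := by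
    have h2 : ∀ q ∈ P.filter (fun q => (nm q : ℝ) ≤ Y), 1 / (nm q : ℝ) ≤
        Real.exp 1 * (nm q : ℝ) ^ (-s) := by
      intro q hq
      have hqY : (nm q : ℝ) ≤ Y := (Finset.mem_filter.1 hq).2
      have hN1 := one_le_nm q
      have hN0 : (0 : ℝ) < nm q := by linarith
      have h3 : 1 / (nm q : ℝ) = (nm q : ℝ) ^ (s - 1) * (nm q : ℝ) ^ (-s) := by
        rw [one_div, ← Real.rpow_add hN0, ← Real.rpow_neg_one]
        congr 1
        ring
      rw [h3]
      refine mul_le_mul_of_nonneg_right ?_ (by positivity)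
      rw [Real.rpow_def_of_pos hN0]
      apply Real.exp_le_exp.mpr
      have h4 : Real.log (nm q : ℝ) ≤ Real.log Y := Real.log_le_log hN0 hqY
      have h5 : s - 1 = 1 / (1 + Real.log Y) := by rw [hs]; ring
      rw [h5, mul_one_div, div_le_one h1Y]
      linarith
    refine (Finset.sum_le_sum h2).trans ?_
    rw [← Finset.mul_sum]
    refine mul_le_mul_of_nonneg_left ?_ (Real.exp_pos _).le
    have h6 := (nm_summable (K := K) hs1).sum_le_tsum (P.filter (fun q => (nm q : ℝ) ≤ Y))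
      fun q _ => by positivity
    have h7 := hp s hs1 hs2
    rw [hinv] at h7
    have h8 : Real.log (1 + Real.log Y) ≤ Real.log Y := by
      have := Real.log_le_sub_one_of_pos h1Y
      linarith
    linarith
  -- the places of large norm
  have h9 : ∑ q ∈ P.filter (fun q => ¬ (nm q : ℝ) ≤ Y), 1 / (nm q : ℝ) ≤ 2 := by
    have h10 : ∑ q ∈ P.filter (fun q => ¬ (nm q : ℝ) ≤ Y), 1 / (nm q : ℝ) ≤
        ∑ q ∈ P.filter (fun q => ¬ (nm q : ℝ) ≤ Y), 1 / Y := by
      refine Finset.sum_le_sum fun q hq => ?_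
      have hqY : Y < (nm q : ℝ) := not_le.1 (Finset.mem_filter.1 hq).2
      exact one_div_le_one_div_of_le hY0 hqY.le
    refine h10.trans ?_
    rw [Finset.sum_const, nsmul_eq_mul, mul_one_div, div_le_iff₀ hY0]
    have h11 : (2 : ℝ) ^ (P.filter (fun q => ¬ (nm q : ℝ) ≤ Y)).card ≤ X := by
      refine le_trans ?_ hPX
      rw [← Finset.prod_const, ← Finset.prod_filter_mul_prod_filter_not P (fun q => (nm q : ℝ) ≤ Y)]
      have h17 : (1 : ℝ) ≤ ∏ q ∈ P.filter (fun q => (nm q : ℝ) ≤ Y), (nm q : ℝ) :=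
        Finset.one_le_prod (fun q _ => one_le_nm q)
      have h18 : ∏ q ∈ P.filter (fun q => ¬ (nm q : ℝ) ≤ Y), (2 : ℝ) ≤
          ∏ q ∈ P.filter (fun q => ¬ (nm q : ℝ) ≤ Y), (nm q : ℝ) :=
        Finset.prod_le_prod (fun _ _ => by norm_num) fun q _ => by exact_mod_cast two_le_nm q
      have h19 : (0 : ℝ) ≤ ∏ q ∈ P.filter (fun q => ¬ (nm q : ℝ) ≤ Y), (nm q : ℝ) :=
        Finset.prod_nonneg fun q _ => by positivity
      exact h18.trans (le_mul_of_one_le_left h19 h17)
    have h12 : ((P.filter (fun q => ¬ (nm q : ℝ) ≤ Y)).card : ℝ) * Real.log 2 ≤ Real.log X := by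
      rw [← Real.log_pow]
      exact Real.log_le_log (by positivity) h11
    have h13 : (1 / 2 : ℝ) ≤ Real.log 2 := by
      have := Real.log_two_gt_d9
      linarith
    have h14 : (0 : ℝ) ≤ ((P.filter (fun q => ¬ (nm q : ℝ) ≤ Y)).card : ℝ) := by positivity
    nlinarith
  have h15 : 0 ≤ Real.exp 1 * C₀ * Real.log Y := by positivity
  have h16 := Real.exp_pos 1
  nlinarith [mul_nonneg h16.le hlY]

end Pool.Agent.T3h73.SG.YEU
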