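import Pool.Agent.T3h73.SG.StmY
import Pool.Agent.T3h73.SG.YEUa
import Pool.Agent.T3h73.SG.YEUb
import Pool.Agent.T3h73.SD.Fam

/-! Project SG, task YEU (helper47): the sums over one variable. -/

set_option autoImplicit false
set_option linter.all false

open NumberField IsDedekindDomain Filter Topology

namespace Pool.Agent.T3h73.SG.YEU

open Pool.Agent.T3h73.SL (Pl)
open Pool.Agent.T3h73.SD (ee NA gA SymSys)
open Pool.Agent.H921R2.TatePole
open Pool.Agent.T3h73.SD.MASS (one_le_nm)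
open Pool.Agent.T3h73.SG.XMAS (fib_sum)

lemma ee_eq {ℓ : ℕ} [NeZero ℓ] (a : ZMod ℓ) : ee ℓ a = (ZMod.toCircle a : ℂ) := by
  rw [ZMod.toCircle_apply, ee]

lemma ee_add {ℓ : ℕ} [NeZero ℓ] (a b : ZMod ℓ) : ee ℓ (a + b) = ee ℓ a * ee ℓ b := by
  rw [ee_eq, ee_eq, ee_eq, AddChar.map_add_eq_mul]
  rfl

lemma ee_zero {ℓ : ℕ} [NeZero ℓ] : ee ℓ 0 = 1 := by
  rw [ee_eq, AddChar.map_zero_eq_one]
  rfl

lemma ee_sum {ℓ : ℕ} [NeZero ℓ] {ι : Type*} (A : Finset ι) (f : ι → ZMod ℓ) :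
    ee ℓ (∑ i ∈ A, f i) = ∏ i ∈ A, ee ℓ (f i) := by
  classical
  induction A using Finset.induction_on with
  | empty => rw [Finset.sum_empty, Finset.prod_empty, ee_zero]
  | insert a A ha ih => rw [Finset.sum_insert ha, Finset.prod_insert ha, ee_add, ih]

section
variable {K : Type} [Field K] [NumberField K]

lemma exp_le_sq {x : ℝ} (h0 : 0 ≤ x) (h1 : x ≤ 1 / 2) : Real.exp x ≤ (1 + x) ^ 2 := by
  have h2 : 0 < 1 - x := by linarith
  have h3 : Real.exp x ≤ (1 - x)⁻¹ := by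
    have h4 := Real.add_one_le_exp (-x)
    rw [le_inv_comm₀ (Real.exp_pos _) h2, ← Real.exp_neg]
    linarith
  refine h3.trans ?_
  rw [inv_le_iff_one_le_mul₀ h2]
  nlinarith [mul_nonneg h0 h0, mul_nonneg (mul_nonneg h0 h0) h0]

lemma exp_sum_le (F : Finset (Pl K)) :
    Real.exp (∑ q ∈ F, 1 / (nm q : ℝ)) ≤ gA F ^ 2 := by
  unfold gA
  rw [Real.exp_sum, ← Finset.prod_pow]
  refine Finset.prod_le_prod (fun q _ => (Real.exp_pos _).le) fun q _ => ?_
  have h2 : (2 : ℝ) ≤ nm q := by exact_mod_cast two_le_nm q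
  change Real.exp (1 / (nm q : ℝ)) ≤ (1 + 1 / (nm q : ℝ)) ^ 2
  apply exp_le_sq (by positivity)
  rw [div_le_div_iff₀ (by linarith) two_pos]
  linarith

lemma one_le_gA (A : Finset (Pl K)) : 1 ≤ gA A := by
  unfold gA
  exact Finset.one_le_prod fun q _ => by
    have : (0 : ℝ) ≤ 1 / (Ideal.absNorm q.asIdeal : ℝ) := by positivity
    linarith

lemma sum_inv_le (F : Finset (Pl K)) : ∑ q ∈ F, 1 / (nm q : ℝ) ≤ 2 * Real.log (gA F) := by
  have h1 := exp_sum_le F
  have h2 := one_le_gA F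
  have h3 := (Real.le_log_iff_exp_le (by positivity)).2 h1
  rwa [Real.log_pow, Nat.cast_two] at h3

end

section
variable {K M : Type} [Field K] [NumberField K] [Field M] [NumberField M] [Algebra K M]

/-- the decomposition group of a place -/
def dec (h1 : ∀ w : Pl M, gp (1 : M ≃ₐ[K] M) w = w)
    (h2 : ∀ (g h : M ≃ₐ[K] M) (w : Pl M), gp (g * h) w = gp g (gp h w)) (w : Pl M) :
    Subgroup (M ≃ₐ[K] M) where
  carrier := {g | gp g w = w}
  one_mem' := h1 w
  mul_mem' := by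
    intro a b ha hb
    have ha' : gp a w = w := ha
    have hb' : gp b w = w := hb
    change gp (a * b) w = w
    rw [h2, hb', ha']
  inv_mem' := by
    intro a ha
    have ha' : gp a w = w := ha
    change gp a⁻¹ w = w
    calc gp a⁻¹ w = gp a⁻¹ (gp a w) := by rw [ha']
      _ = gp (a⁻¹ * a) w := (h2 _ _ _).symm
      _ = w := by rw [inv_mul_cancel, h1]

lemma norm_lo_le (h1 : ∀ w : Pl M, gp (1 : M ≃ₐ[K] M) w = w)
    (h2 : ∀ (g h : M ≃ₐ[K] M) (w : Pl M), gp (g * h) w = gp g (gp h w)) {S : Finset (Pl K)}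
    (hU : Unr K M S) {w : Pl M} (hw : (lo w : Pl K) ∉ S) :
    nm (lo w : Pl K) ≤ nm w := by
  have h3 := ((hU w hw).2 (dec h1 h2 w) (fun g => Iff.rfl)).2.1
  have h4 : Nat.card (dec h1 h2 w) ≠ 0 := Nat.card_pos.ne'
  change Ideal.absNorm (lo w : Pl K).asIdeal ≤ Ideal.absNorm w.asIdeal
  rw [h3]
  exact Nat.le_self_pow h4 _

end

open Classical in
theorem t_YEU (hPLC : S_PLC) (hGSM : S_GSM) : S_YEU := by
  intro ℓ hℓ hℓ2 K M _ _ _ _ _ _ S 𝔪 Λ _ χ sy hsys D lam hlam hlam1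
  have hne : NeZero ℓ := ⟨hℓ.ne_zero⟩
  obtain ⟨-, p2, p3, -, -, p6, p7, p8, -, -⟩ := hPLC K M
  obtain ⟨g, hg⟩ := p8
  obtain ⟨C₁, hC₁, hGS⟩ := hGSM ℓ hℓ hℓ2 K M S 𝔪 Λ χ sy hsys D
  obtain ⟨C₃, hC₃, hinv⟩ := inv_sum K
  set T2 : ℝ := ∑' q : Pl K, (nm q : ℝ) ^ (-(2 : ℝ)) with hT2
  have hT20 : 0 ≤ T2 := tsum_nonneg fun q => by positivity
  -- the fibres
  let fib : Pl K → Finset (Pl M) := fun q => (hg q).1.toFinset
  have hfib : ∀ q w, w ∈ fib q ↔ (lo w : Pl K) = q := by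
    intro q w
    simp only [fib, Set.Finite.mem_toFinset]
    exact Iff.rfl
  have hcard : ∀ q, ((fib q).card : ℝ) ≤ g := by
    intro q
    have h1 : (fib q).card = {w : Pl M | (lo w : Pl K) = q}.ncard := by
      rw [Set.ncard_eq_toFinset_card _ (hg q).1]
    rw [h1]
    exact_mod_cast (hg q).2
  set E : ℝ := Real.exp (C₁ + g * C₃ + (g : ℝ) ^ 2 * T2 / 2) + C₁ + g * C₃ + 2 * g + 1 with hE
  have hg0 : (0 : ℝ) ≤ g := Nat.cast_nonneg g
  have hE0 : 0 < E := by rw [hE]; positivity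
  refine ⟨E, hE0, ?_⟩
  intro h j B F hBS hjB hχ hj hnt s hs1 hs2
  have hNs : ∀ q : Pl K, (nm q : ℝ) ^ (-s) ≤ 1 / (nm q : ℝ) := by
    intro q
    have h2 := one_le_nm q
    rw [one_div, ← Real.rpow_neg_one]
    exact Real.rpow_le_rpow_of_exponent_le h2 (by linarith)
  set ξ : Pl M → ZMod ℓ := fun w => χ h w + ∑ b ∈ B, j b * sy b w with hξ
  obtain ⟨P2, hP2⟩ : ∃ P2 : Pl M → Prop, ∀ w, P2 w ↔ (DG w D ∧ (lo w : Pl K) ∉ S ∧
    (lo w : Pl K) ∉ F ∧ ∀ b ∈ B, (lo w : Pl K) ≠ lo b) := ⟨_, fun _ => Iff.rfl⟩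
  let v : Pl M → ℂ := fun w => if P2 w then
    ((lam * (nm (lo w : Pl K) : ℝ) ^ (-s) : ℝ) : ℂ) * ee ℓ (ξ w) else 0
  -- the terms
  have hterm : ∀ A : Finset (Pl M), (if Ad S (lo : Pl M → Pl K) (fun w => DG w D) A ∧
      (∀ w ∈ A, ∀ b ∈ B, (lo w : Pl K) ≠ lo b) ∧ Disjoint (A.image (lo : Pl M → Pl K)) F then
    ((lam ^ A.card * (NO (lo : Pl M → Pl K) A : ℝ) ^ (-s) : ℝ) : ℂ) *
      ee ℓ (∑ w ∈ A, (χ h w + ∑ b ∈ B, j b * sy b w)) else 0) =
      if Set.InjOn (lo : Pl M → Pl K) (A : Set (Pl M)) then ∏ w ∈ A, v w else 0 := by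
    intro A
    by_cases hi : Set.InjOn (lo : Pl M → Pl K) (A : Set (Pl M))
    · rw [if_pos hi]
      split_ifs with hA
      · obtain ⟨⟨hA1, -⟩, hA2, hA3⟩ := hA
        have h1 : ∀ w ∈ A, v w = ((lam * (nm (lo w : Pl K) : ℝ) ^ (-s) : ℝ) : ℂ) * ee ℓ (ξ w) := by
          intro w hw
          have h2 : P2 w := (hP2 w).2 ⟨(hA1 w hw).1, (hA1 w hw).2,
            fun h3 => Finset.disjoint_left.1 hA3 (Finset.mem_image_of_mem _ hw) h3, hA2 w hw⟩
          simp only [v]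
          rw [if_pos h2]
        rw [Finset.prod_congr rfl h1, Finset.prod_mul_distrib, ← ee_sum, ← Complex.ofReal_prod,
          Finset.prod_mul_distrib, Finset.prod_const, XMAS.NO_rpow]
      · symm
        have h2 : ∃ w ∈ A, ¬ P2 w := by
          by_contra hcon
          push Not at hcon
          have hcon' := fun w hw => (hP2 w).1 (hcon w hw)
          apply hA
          refine ⟨⟨fun w hw => ⟨(hcon' w hw).1, (hcon' w hw).2.1⟩, hi⟩,
            fun w hw => (hcon' w hw).2.2.2, ?_⟩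
          rw [Finset.disjoint_left]
          intro q hq hqF
          obtain ⟨w, hw, rfl⟩ := Finset.mem_image.1 hq
          exact (hcon' w hw).2.2.1 hqF
        obtain ⟨w, hw, h3⟩ := h2
        apply Finset.prod_eq_zero hw
        simp only [v]
        rw [if_neg h3]
    · rw [if_neg hi, if_neg]
      rintro ⟨⟨-, h1⟩, -⟩
      exact hi h1
  rw [tsum_congr hterm]
  -- the sizes
  have hvle : ∀ w, ‖v w‖ ≤ (nm (lo w : Pl K) : ℝ) ^ (-s) := by
    intro w
    simp only [v]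
    split_ifs
    · rw [norm_mul, SD.Fam.norm_ee, mul_one, Complex.norm_real, Real.norm_of_nonneg (by positivity)]
      exact mul_le_of_le_one_left (by positivity) hlam1
    · rw [norm_zero]
      positivity
  have hlos := (fib_sum (lo : Pl M → Pl K) hg hs1).1
  have hvs : Summable fun w => ‖v w‖ :=
    Summable.of_nonneg_of_le (fun w => norm_nonneg _) hvle hlos
  have hsq : ∀ T : Finset (Pl K), ∑ q ∈ T, (∑ w ∈ fib q, ‖v w‖) ^ 2 ≤ (g : ℝ) ^ 2 * T2 := by
    intro T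
    have h1 : ∀ q ∈ T, (∑ w ∈ fib q, ‖v w‖) ^ 2 ≤ (g : ℝ) ^ 2 * (nm q : ℝ) ^ (-(2 : ℝ)) := by
      intro q _
      have h2 : ∑ w ∈ fib q, ‖v w‖ ≤ g * (nm q : ℝ) ^ (-s) := by
        calc ∑ w ∈ fib q, ‖v w‖ ≤ ∑ w ∈ fib q, (nm q : ℝ) ^ (-s) := by
              refine Finset.sum_le_sum fun w hw => ?_
              rw [← (hfib q w).1 hw]
              exact hvle w
          _ = (fib q).card * (nm q : ℝ) ^ (-s) := by rw [Finset.sum_const, nsmul_eq_mul]
          _ ≤ _ := mul_le_mul_of_nonneg_right (hcard q) (by positivity)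
      calc (∑ w ∈ fib q, ‖v w‖) ^ 2 ≤ (g * (nm q : ℝ) ^ (-s)) ^ 2 :=
            pow_le_pow_left₀ (Finset.sum_nonneg fun w _ => norm_nonneg _) h2 2
        _ = (g : ℝ) ^ 2 * (nm q : ℝ) ^ (-s * 2) := by
            rw [mul_pow, Real.rpow_mul (by positivity)]
            norm_num
        _ ≤ _ := by
            refine mul_le_mul_of_nonneg_left ?_ (by positivity)
            exact Real.rpow_le_rpow_of_exponent_le (one_le_nm q) (by linarith)
    refine (Finset.sum_le_sum h1).trans ?_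
    rw [← Finset.mul_sum]
    refine mul_le_mul_of_nonneg_left ?_ (by positivity)
    exact (nm_summable (K := K) (by norm_num : (1 : ℝ) < 2)).sum_le_tsum T fun q _ => by positivity
  refine (euler_bound hfib v hvs hsq).trans ?_
  -- the real parts
  let r : Pl M → ℝ := fun w => (ee ℓ (ξ w)).re * (nm (lo w : Pl K) : ℝ) ^ (-s)
  have hrle : ∀ w, |r w| ≤ (nm (lo w : Pl K) : ℝ) ^ (-s) := by
    intro w
    simp only [r]
    rw [abs_mul, abs_of_nonneg (show (0 : ℝ) ≤ (nm (lo w : Pl K) : ℝ) ^ (-s) by positivity)]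
    refine mul_le_of_le_one_left (by positivity) ?_
    exact (Complex.abs_re_le_norm _).trans (SD.Fam.norm_ee ℓ _).le
  obtain ⟨P1, hP1⟩ : ∃ P1 : Pl M → Prop, ∀ w, P1 w ↔ (DG w D ∧ (lo w : Pl K) ∉ S ∧ w ∉ B) :=
    ⟨_, fun _ => Iff.rfl⟩
  have h21 : ∀ w, P2 w → P1 w := fun w hw => by
    rw [hP2] at hw
    exact (hP1 w).2 ⟨hw.1, hw.2.1, fun hB => hw.2.2.2 w hB rfl⟩
  have hsum : ∀ P : Pl M → Prop, Summable fun w => if P w then r w else 0 := by
    intro P
    refine Summable.of_norm_bounded hlos fun w => ?_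
    split_ifs
    · exact hrle w
    · rw [norm_zero]
      positivity
  have hre : ∑' w, (v w).re = lam * ∑' w, (if P2 w then r w else 0) := by
    rw [← tsum_mul_left]
    refine tsum_congr fun w => ?_
    simp only [v, r]
    split_ifs
    · rw [Complex.re_ofReal_mul]
      ring
    · rw [Complex.zero_re, mul_zero]
  obtain ⟨P3, hP3⟩ : ∃ P3 : Pl M → Prop, ∀ w, P3 w ↔ P1 w ∧ ¬ P2 w := ⟨_, fun _ => Iff.rfl⟩
  have hdiff : ∑' w, (if P2 w then r w else 0) = ∑' w, (if P1 w then r w else 0) -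
      ∑' w, (if P3 w then r w else 0) := by
    rw [← Summable.tsum_sub (hsum P1) (hsum P3)]
    refine tsum_congr fun w => ?_
    by_cases h2 : P2 w
    · rw [if_pos h2, if_pos (h21 w h2), if_neg (fun h3 => ((hP3 w).1 h3).2 h2), sub_zero]
    · rw [if_neg h2]
      by_cases h1 : P1 w
      · rw [if_pos h1, if_pos ((hP3 w).2 ⟨h1, h2⟩), sub_self]
      · rw [if_neg h1, if_neg fun h3 => h1 ((hP3 w).1 h3).1, sub_zero]
  have hG1 : |∑' w, (if P1 w then r w else 0)| ≤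
      C₁ * (1 + Real.log (1 + Real.log (NA B))) := by
    refine le_trans (le_of_eq ?_) (hGS h j B hBS hjB hχ hj hnt s hs1 hs2)
    congr 1
    refine tsum_congr fun w => ?_
    by_cases h1 : P1 w
    · rw [if_pos h1, if_pos ((hP1 w).1 h1)]
      rfl
    · rw [if_neg h1, if_neg fun h2 => h1 ((hP1 w).2 h2)]
  -- the places over `F` and below `B`
  set LB : Finset (Pl K) := B.image (lo : Pl M → Pl K) with hLB
  have hmiss : |∑' w, (if P3 w then r w else 0)| ≤
      g * (∑ q ∈ F, 1 / (nm q : ℝ)) + g * ∑ q ∈ LB, 1 / (nm q : ℝ) := by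
    have hsupp : ∀ w ∉ (F ∪ LB).biUnion fib, (if P3 w then r w else 0) = 0 := by
      intro w hw
      rw [if_neg]
      intro h12
      obtain ⟨h1, h2⟩ := (hP3 w).1 h12
      rw [hP1] at h1
      apply h2
      rw [hP2]
      refine ⟨h1.1, h1.2.1, fun hF => ?_, fun b hb hwb => ?_⟩
      · apply hw
        rw [Finset.mem_biUnion]
        exact ⟨lo w, Finset.mem_union_left _ hF, (hfib _ _).2 rfl⟩
      · apply hw
        rw [Finset.mem_biUnion]
        refine ⟨lo w, Finset.mem_union_right _ ?_, (hfib _ _).2 rfl⟩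
        rw [hwb]
        exact Finset.mem_image_of_mem _ hb
    rw [tsum_eq_sum hsupp]
    refine (Finset.abs_sum_le_sum_abs _ _).trans ?_
    have h1 : ∀ w ∈ (F ∪ LB).biUnion fib, |if P3 w then r w else 0| ≤
        1 / (nm (lo w : Pl K) : ℝ) := by
      intro w _
      split_ifs
      · exact (hrle w).trans (hNs _)
      · rw [abs_zero]
        positivity
    refine (Finset.sum_le_sum h1).trans ?_
    have hdisj : ∀ q q' : Pl K, q ≠ q' → Disjoint (fib q) (fib q') := by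
      intro q q' hqq'
      rw [Finset.disjoint_left]
      intro w hw hw'
      exact hqq' (((hfib q w).1 hw).symm.trans ((hfib q' w).1 hw'))
    rw [Finset.sum_biUnion fun q _ q' _ hqq' => hdisj q q' hqq']
    have h2 : ∀ q ∈ F ∪ LB, ∑ w ∈ fib q, 1 / (nm (lo w : Pl K) : ℝ) ≤ g * (1 / (nm q : ℝ)) := by
      intro q _
      have h3 : ∑ w ∈ fib q, 1 / (nm (lo w : Pl K) : ℝ) = ∑ w ∈ fib q, 1 / (nm q : ℝ) :=
        Finset.sum_congr rfl fun w hw => by rw [(hfib q w).1 hw]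
      rw [h3, Finset.sum_const, nsmul_eq_mul]
      exact mul_le_mul_of_nonneg_right (hcard q) (by positivity)
    refine (Finset.sum_le_sum h2).trans ?_
    rw [← Finset.mul_sum, ← mul_add]
    refine mul_le_mul_of_nonneg_left ?_ hg0
    have h4 := Finset.sum_union_inter (s₁ := F) (s₂ := LB) (f := fun q : Pl K => 1 / (nm q : ℝ))
    have h5 : 0 ≤ ∑ q ∈ F ∩ LB, 1 / (nm q : ℝ) := Finset.sum_nonneg fun q _ => by positivity
    linarith
  have hF := sum_inv_le F
  have hBS' : ∀ b ∈ B, (lo b : Pl K) ∉ S := fun b hb hS =>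
    Finset.disjoint_left.1 hBS hb ((p7 S b).2 hS)
  have hNB1 : (1 : ℝ) ≤ NA B := by
    unfold NA
    push_cast
    exact Finset.one_le_prod fun q _ => one_le_nm q
  have hprodLB : ∏ q ∈ LB, (nm q : ℝ) ≤ NA B := by
    have h1 : ∏ q ∈ LB, (nm q : ℝ) ≤ ∏ b ∈ B, (nm (lo b : Pl K) : ℝ) := by
      rw [hLB, ← Finset.prod_fiberwise_of_maps_to (s := B) (t := B.image (lo : Pl M → Pl K))
        (g := (lo : Pl M → Pl K)) (fun b hb => Finset.mem_image_of_mem _ hb)
        (fun b => (nm (lo b : Pl K) : ℝ))]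
      refine Finset.prod_le_prod (fun q _ => by positivity) fun q hq => ?_
      obtain ⟨b, hb, rfl⟩ := Finset.mem_image.1 hq
      have hb' : b ∈ B.filter fun x => (lo x : Pl K) = lo b := Finset.mem_filter.2 ⟨hb, rfl⟩
      rw [← Finset.mul_prod_erase _ _ hb']
      refine le_mul_of_one_le_right (by positivity) ?_
      exact Finset.one_le_prod fun x _ => one_le_nm _
    refine h1.trans ?_
    unfold NA
    push_cast
    refine Finset.prod_le_prod (fun b _ => by positivity) fun b hb => ?_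
    exact_mod_cast norm_lo_le p2 p3 hsys.unr (hBS' b hb)
  have hLBs := hinv LB (NA B) hNB1 hprodLB
  -- conclusion
  set Y : ℝ := 1 + Real.log (NA B) with hY
  have hlogB : 0 ≤ Real.log (NA B : ℝ) := Real.log_nonneg hNB1
  have hY1 : 1 ≤ Y := by rw [hY]; linarith
  have hY0 : 0 < Y := by linarith
  have hlY : 0 ≤ Real.log Y := Real.log_nonneg hY1
  have hG := one_le_gA F
  have hG0 : 0 < gA F := by linarith
  have hlG : 0 ≤ Real.log (gA F) := Real.log_nonneg hG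
  have hmain : ∑' w, (v w).re ≤ (C₁ + g * C₃) * (1 + Real.log Y) + 2 * g * Real.log (gA F) := by
    rw [hre, hdiff]
    have h1 := (abs_le.1 hG1).2
    have h2 := (abs_le.1 hmiss).1
    have h3 : ∑' w, (if P1 w then r w else 0) - ∑' w, (if P3 w then r w else 0) ≤
        (C₁ + g * C₃) * (1 + Real.log Y) + 2 * g * Real.log (gA F) := by
      have h4 : g * (∑ q ∈ F, 1 / (nm q : ℝ)) ≤ g * (2 * Real.log (gA F)) :=
        mul_le_mul_of_nonneg_left hF hg0
      have h5 : g * ∑ q ∈ LB, 1 / (nm q : ℝ) ≤ g * (C₃ * (1 + Real.log Y)) :=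
        mul_le_mul_of_nonneg_left hLBs hg0
      linarith
    have h6 : 0 ≤ (C₁ + g * C₃) * (1 + Real.log Y) + 2 * g * Real.log (gA F) := by positivity
    calc _ ≤ lam * ((C₁ + g * C₃) * (1 + Real.log Y) + 2 * g * Real.log (gA F)) :=
          mul_le_mul_of_nonneg_left h3 hlam.le
      _ ≤ _ := mul_le_of_le_one_left h6 hlam1
  have hfin : Real.exp (∑' w, (v w).re + (g : ℝ) ^ 2 * T2 / 2) ≤
      Real.exp (C₁ + g * C₃ + (g : ℝ) ^ 2 * T2 / 2) * Y ^ (C₁ + g * C₃) * gA F ^ (2 * g : ℝ) := by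
    rw [Real.rpow_def_of_pos hY0, Real.rpow_def_of_pos hG0, ← Real.exp_add, ← Real.exp_add]
    apply Real.exp_le_exp.mpr
    linarith
  refine hfin.trans ?_
  have e0 : 0 < Real.exp (C₁ + g * C₃ + (g : ℝ) ^ 2 * T2 / 2) := Real.exp_pos _
  have e00 : 0 ≤ g * C₃ := by positivity
  have e1 : Real.exp (C₁ + g * C₃ + (g : ℝ) ^ 2 * T2 / 2) ≤ E := by rw [hE]; linarith
  have e2 : Y ^ (C₁ + g * C₃) ≤ Y ^ E :=
    Real.rpow_le_rpow_of_exponent_le hY1 (by rw [hE]; linarith)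
  have e3 : gA F ^ (2 * g : ℝ) ≤ gA F ^ E :=
    Real.rpow_le_rpow_of_exponent_le hG (by rw [hE]; linarith)
  exact mul_le_mul (mul_le_mul e1 e2 (by positivity) hE0.le) e3 (by positivity) (by positivity)

end Pool.Agent.T3h73.SG.YEU
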