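import Pool.Agent.T3h73.SG.ColB

/-!
# SG/ZBL (helper11): the bilinear sums for two linked colours
-/

set_option autoImplicit false
set_option linter.all false

open NumberField IsDedekindDomain Filter Topology Finset

namespace Pool.Agent.T3h73.SG.ZBL

open Pool.Agent.T3h73.SL (Pl IsP Pk loc)
open Pool.Agent.T3h73.SD (ee NA gA T0 SymSys SP Cl kap TYPQ S_T0L S_MASS)
open Pool.Agent.T3h73.SN (Sz tens inc ClW slc hcW S_DISTA)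
open Pool.Agent.T3h73.SG.ColB

/-- ZBL -/
theorem t_ZBL (hPLC : S_PLC) (hYBL : S_YBL) : S_ZBL := by
  intro ℓ n hℓ h2 K M _ _ _ _ _ _ pm S 𝔪 V _ _ _ av ψ L0 L1 LL π u d1 g t sy hM k x y hlk
  set c : (M ≃ₐ[K] M) → ZMod ℓ := fun γ => -((Nat.card x.1.1 : ZMod ℓ)⁻¹ *
    (Nat.card y.1.1 : ZMod ℓ)⁻¹ * QW (aC pm γ x.1.2.1 - y.1.2.1)) with hc
  have hinv : ∀ γ, ∀ γ' ∈ y.1.1, ∀ γ'' ∈ x.1.1, c (γ' * γ * γ'') = c γ := by
    intro γ γ' hγ' γ'' hγ''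
    have h1 : QW (aC pm (γ' * γ * γ'') x.1.2.1 - y.1.2.1) = QW (aC pm γ x.1.2.1 - y.1.2.1) := by
      have e1 : aC pm (γ' * γ * γ'') x.1.2.1 = aC pm γ' (aC pm γ x.1.2.1) := by
        rw [aC_mul, aC_mul, x.2.2 γ'' hγ'']
      have e2 : y.1.2.1 = aC pm γ' y.1.2.1 := (y.2.2 γ' hγ').symm
      rw [e1]
      conv_lhs => rw [e2]
      rw [← aC_sub, QW_aC]
    simp only [hc, h1]
  have hne : ∃ γ, c γ ≠ 0 := by
    obtain ⟨γ, hγ⟩ := hlk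
    refine ⟨γ, ?_⟩
    simp only [hc]
    exact neg_ne_zero.2 (mul_ne_zero (mul_ne_zero (inv_ne_zero (card_ne hM.sys.hG _))
      (inv_ne_zero (card_ne hM.sys.hG _))) hγ)
  obtain ⟨E, θ, hE, hθ, hb⟩ := hYBL ℓ hℓ.out K M S 𝔪 L0 _ sy hM.sys x.1.1 y.1.1 c hinv hne
  refine ⟨E, θ, hE, hθ, fun M₀ N hM₀ hN 𝒜 ℬ h𝒜 hℬ α β hα hβ => ?_⟩
  refine le_trans (le_of_eq ?_) (hb M₀ N hM₀ hN 𝒜 ℬ h𝒜 hℬ α β hα hβ)
  congr 1
  refine sum_congr rfl fun A hA => sum_congr rfl fun B hB => ?_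
  by_cases hd : Dj (lo : Pl M → Pl K) A B
  · rw [if_pos hd, if_pos hd]
    congr 2
    refine sum_congr rfl fun w hw => sum_congr rfl fun w' hw' => ?_
    exact rho_add hPLC h2 hM.sys x y ((h𝒜 A hA).1.1 w hw).2 ((hℬ B hB).1.1 w' hw').2 (hd w hw w' hw')
  · rw [if_neg hd, if_neg hd]

end Pool.Agent.T3h73.SG.ZBL
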