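import Pool.Agent.T3h73.SG.ColB

/-!
# SG/ZCS (helper11): the coloured system
-/

set_option autoImplicit false
set_option linter.all false

open NumberField IsDedekindDomain Filter Topology Finset

namespace Pool.Agent.T3h73.SG.ZCS

open Pool.Agent.T3h73.SL (Pl IsP Pk loc)
open Pool.Agent.T3h73.SD (ee NA gA T0 SymSys SP Cl kap TYPQ S_T0L S_MASS)
open Pool.Agent.T3h73.SN (Sz tens inc ClW slc hcW S_DISTA)
open Pool.Agent.T3h73.SG.ColB

theorem norm_ee (ℓ : ℕ) (a : ZMod ℓ) : ‖ee ℓ a‖ = 1 := by
  unfold ee
  have h : (2 * Real.pi * Complex.I * (a.val : ℂ) / ℓ) =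
      ((2 * Real.pi * (a.val : ℝ) / ℓ : ℝ) : ℂ) * Complex.I := by
    push_cast
    ring
  rw [h, Complex.norm_exp_ofReal_mul_I]

section

variable {K M : Type} [Field K] [NumberField K] [Field M] [NumberField M] [Algebra K M]

/-- the decomposition group -/
def DGrp (w : Pl M) (p1 : ∀ w : Pl M, gp (1 : M ≃ₐ[K] M) w = w)
    (p2 : ∀ (g h : M ≃ₐ[K] M) (w : Pl M), gp (g * h) w = gp g (gp h w)) :
    Subgroup (M ≃ₐ[K] M) where
  carrier := {g | gp g w = w}
  mul_mem' := by
    intro a b ha hb
    show gp (a * b) w = w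
    rw [p2, show gp b w = w from hb, show gp a w = w from ha]
  one_mem' := p1 w
  inv_mem' := by
    intro a ha
    show gp a⁻¹ w = w
    have h : gp a w = w := ha
    have h2 := p2 a⁻¹ a w
    rw [inv_mul_cancel, p1, h] at h2
    exact h2.symm

theorem DG_DGrp (w : Pl M) (p1 : ∀ w : Pl M, gp (1 : M ≃ₐ[K] M) w = w)
    (p2 : ∀ (g h : M ≃ₐ[K] M) (w : Pl M), gp (g * h) w = gp g (gp h w)) :
    DG w (DGrp w p1 p2) := fun _ => Iff.rfl

theorem DG_uniq {w : Pl M} {D D' : Subgroup (M ≃ₐ[K] M)} (h : DG w D) (h' : DG w D') : D = D' := by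
  ext g
  rw [h g, h' g]

end

/-- ZCS -/
theorem t_ZCS (hPLC : S_PLC) (hYDN : S_YDN) (hZMF : S_ZMF) (hZBL : S_ZBL) (hZEU : S_ZEU) :
    S_ZCS := by
  intro ℓ n hℓ h2 K M _ _ _ _ _ _ pm S 𝔪 V _ _ _ av ψ L0 L1 LL π u d1 g t sy hM k hh hhh
  obtain ⟨hmf1, hmf2, hmf3⟩ := hZMF ℓ n h2 (M ≃ₐ[K] M) pm hM.lin.gpm k
  obtain ⟨-, p1, p2, p3, -, p5, hup, hfib, -, -⟩ := hPLC K M
  have hGpos : (0 : ℝ) < Nat.card (M ≃ₐ[K] M) := by
    have : 0 < Nat.card (M ≃ₐ[K] M) := Nat.card_pos
    exact_mod_cast this
  exact
    { fib := hfib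
      lam_pos := fun x => ⟨(hmf1 x).1, (hmf1 x).2.1⟩
      mu_pos := fun x => (hmf1 x).2.2
      dens := by
        intro x
        have h := hYDN K M S hM.sys.unr x.1.1 x.2.1 (lamG pm x) (hmf1 x).1
        have hc : (0 : ℝ) < Nat.card x.1.1 := by
          have : 0 < Nat.card x.1.1 := Nat.card_pos
          exact_mod_cast this
        have e : lamG pm x * (Nat.totient (Nat.card x.1.1) / Nat.card x.1.1 : ℝ) = muG pm x := by
          unfold lamG muG
          field_simp
        rw [e] at h
        exact h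
      I_le := fun x A => (norm_ee ℓ _).le
      I_empty := by
        intro x
        unfold IG
        rw [Finset.sum_empty, Finset.sum_empty, add_zero]
        simp [ee]
      I_good := by
        intro x hx A _
        unfold IG
        have e : ∑ w ∈ A, ∑ w' ∈ A, rhoG pm sy x x w w' = 0 := by
          refine sum_eq_zero fun w _ => sum_eq_zero fun w' _ => ?_
          unfold rhoG
          rw [sum_eq_zero fun γ _ => by rw [hx γ, zero_mul], mul_zero, neg_zero]
        rw [e, add_zero]
      lk_symm := fun x y h => lkG_symm pm h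
      unl := by
        intro x y _ hl w w' _ _ _ _ _
        have h1 : ∀ γ, QW (aC pm γ x.1.2.1 - y.1.2.1) = 0 := fun γ => by
          by_contra h
          exact hl ⟨γ, h⟩
        have h3 : ∀ γ, QW (aC pm γ y.1.2.1 - x.1.2.1) = 0 := fun γ => by
          by_contra h
          exact hl (lkG_symm pm ⟨γ, h⟩)
        unfold rhoG
        rw [sum_eq_zero fun γ _ => by rw [h1 γ, zero_mul],
          sum_eq_zero fun γ _ => by rw [h3 γ, zero_mul], mul_zero, mul_zero, neg_zero, add_zero]
      BL := fun x y _ hl => hZBL ℓ n h2 K M pm S 𝔪 V av ψ L0 L1 LL π u d1 g t sy hM k x y hl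
      EUL := fun x hx => hZEU ℓ n h2 K M pm S 𝔪 V av ψ L0 L1 LL π u d1 g t sy hM k hh hhh x hx
      trv := by
        intro x _ hx w _ _
        have hx' : hh x.1.2.1 = 0 := hx
        unfold chiG
        rw [hx', Submodule.coe_zero, map_zero, LinearMap.zero_apply, mul_zero]
      mass := fun U hU => (hmf2 U hU).1
      full := by
        intro U hU hsum
        obtain ⟨Y, hY, rfl⟩ := (hmf2 U hU).2 hsum
        obtain ⟨-, hgood, hlam⟩ := hmf3 Y hY
        refine ⟨hgood, fun q hq => ?_⟩
        obtain ⟨hf, w₀, hw₀⟩ := p5 q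
        rw [finsum_mem_eq_finite_toFinset_sum _ hf]
        have hval : ∀ w ∈ hf.toFinset,
            (∑ x ∈ UY pm Y, open Classical in (if OmG pm x w then lamG pm x else 0)) =
              1 / ({w : Pl M | (lo w : Pl K) = q}.ncard : ℝ) := by
          intro w hw
          have hwq : (lo w : Pl K) = q := (Set.Finite.mem_toFinset hf).1 hw
          set D := DGrp w p1 p2 with hD
          have hDG : DG w D := DG_DGrp w p1 p2
          obtain ⟨hcyc, -, hcount⟩ := (hM.sys.unr w (by rw [hwq]; exact hq)).2 D hDG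
          rw [hwq] at hcount
          have h1 : ∑ x ∈ UY pm Y, (open Classical in (if OmG pm x w then lamG pm x else 0)) =
              ∑ x ∈ UY pm Y, (open Classical in (if x.1.1 = D then lamG pm x else 0)) := by
            refine sum_congr rfl fun x _ => ?_
            by_cases h : x.1.1 = D
            · rw [if_pos h, if_pos]
              show DG w x.1.1
              rw [h]
              exact hDG
            · rw [if_neg h, if_neg]
              intro h'
              exact h (DG_uniq h' hDG)
          rw [h1, hlam D hcyc]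
          have hc : (0 : ℝ) < Nat.card D := by
            have : 0 < Nat.card D := Nat.card_pos
            exact_mod_cast this
          have hcount' : ({w : Pl M | (lo w : Pl K) = q}.ncard : ℝ) * Nat.card D =
              Nat.card (M ≃ₐ[K] M) := by exact_mod_cast hcount
          have hn : ({w : Pl M | (lo w : Pl K) = q}.ncard : ℝ) ≠ 0 := by
            intro h0
            rw [h0, zero_mul] at hcount'
            exact hGpos.ne hcount'
          rw [← hcount']
          field_simp
        rw [sum_congr rfl hval, sum_const, nsmul_eq_mul, ← Set.ncard_eq_toFinset_card _ hf]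
        have hn : ({w : Pl M | (lo w : Pl K) = q}.ncard : ℝ) ≠ 0 := by
          have : {w : Pl M | (lo w : Pl K) = q}.ncard ≠ 0 :=
            ((Set.ncard_pos hf).2 ⟨w₀, hw₀⟩).ne'
          exact_mod_cast this
        field_simp }

end Pool.Agent.T3h73.SG.ZCS
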