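import Pool.Agent.T3h73.SG.Zex8

/-!
Project SG (helper73, MP_a43263), task ZEX (helper85): the moments in terms of the coloured sums.
-/

set_option autoImplicit false
set_option linter.all false

open NumberField IsDedekindDomain Filter Topology

namespace Pool.Agent.T3h73.SG.ZEX

open Pool.Agent.T3h73.SL (Pl)
open Pool.Agent.T3h73.SD (ee NA SP)
open Pool.Agent.T3h73.SD.EXP (ee_add ee_zero ee_sum norm_ee)
open Pool.Agent.T3h73.SN (Sz tens inc ClW slc hcW RcW)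

open Classical in
/-- the term of one set -/
lemma term_one (hPLC : S_PLC) (hZHI : S_ZHI) (ℓ n : ℕ) [Fact ℓ.Prime] (K M : Type) [Field K]
    [NumberField K] [Field M] [NumberField M] [Algebra K M] [IsGalois K M]
    (pm : (M ≃ₐ[K] M) →* Equiv.Perm (Fin n))
    (S : Finset (Pl K)) (𝔪 : Ideal (𝓞 M)) (V : Type) [AddCommGroup V] [Module (ZMod ℓ) V]
    [Fintype V] (av : (M ≃ₐ[K] M) →* Module.End (ZMod ℓ) V)
    (ψ : V →ₗ[ZMod ℓ] V →ₗ[ZMod ℓ] ZMod ℓ) (L0 L1 : Submodule (ZMod ℓ) V)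
    (LL : Submodule (ZMod ℓ) (Sz ℓ n V)) (π : V →ₗ[ZMod ℓ] L0) (u : L0) (d1 : V)
    (g : Fin n → Fin n → L0) (t : Pl M → V) (sy : Pl M → Pl M → ZMod ℓ)
    (hM : ModelG ℓ n K M pm S 𝔪 V av ψ L0 L1 LL π u d1 g t sy) (H : PF K M) (k : ℕ) (s : ℝ)
    (P : Finset (Pl K)) (hP : Disjoint P S) :
    ∑ X : Fin k → XG pm av L0, ∑ α : L0G av L0, ∑ Z : Fin k → LL,
        ee ℓ ((Nat.card (M ≃ₐ[K] M) : ZMod ℓ)⁻¹ * (- ψ (α.1 : V) d1 +
          ∑ r, ∑ i, ψ (((Z r : Sz ℓ n V) : Fin n → V) i) (((X r).1 : Fin n → L0) i : V))) *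
        RR pm ψ L0 t sy H S (hcW π u g (fun s => (X s).1) α.1 Z) s P =
    ((Nat.card (L0G av L0) : ℂ) * (Nat.card (XG pm av L0) : ℂ) ^ k) *
      ((if ∑ q ∈ P, tK t q = d1 then (NA P : ℝ) ^ (-s) *
        (nG pm av ψ L0 LL u g t sy P : ℝ) ^ k else 0 : ℝ) : ℂ) := by
  have hup : ∀ w : up (M := M) P, (lo w.1 : Pl K) ∉ S := fun w =>
    Finset.disjoint_left.1 hP ((H.up_iff P w.1).1 w.2)
  have hG0 : (Nat.card (M ≃ₐ[K] M) : ZMod ℓ) ≠ 0 := by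
    intro h
    exact hM.lin.gpm.hG ((ZMod.natCast_eq_zero_iff _ _).1 h)
  have hw := wholeG pm av ψ (acU H P) (acU_one H P) (acU_mul H P) L0 L1 LL π u d1 g hM.lin
    (fun q => t q.1) (fun q => hM.t_mem q.1 (hup q)) (fun γ q => hM.t_eq γ q.1 (hup q))
    (fun p q => sy p.1 q.1) (fun γ p q => hM.sys.eqs γ p.1 q.1 (hup p) (hup q)) k
    (Nat.card (M ≃ₐ[K] M) : ZMod ℓ)⁻¹ (inv_ne_zero hG0)
  have hE0 : (Nat.card (EqW ℓ n pm (acU H P)) : ℂ) ≠ 0 := by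
    have : 0 < Nat.card (EqW ℓ n pm (acU H P)) := Nat.card_pos
    exact_mod_cast this.ne'
  have hLL : Nat.card LL = Nat.card (XG pm av L0) := hM.lin.card
  have htK : ∑ q ∈ P, (tK t q : V) = ∑ q : up (M := M) P, t q.1 := by
    rw [Finset.sum_coe_sort (up P) (fun q => t q), up_sum H P t]
    rfl
  have e1 : ∀ (X : Fin k → XG pm av L0) (α : L0G av L0) (Z : Fin k → LL),
      ee ℓ ((Nat.card (M ≃ₐ[K] M) : ZMod ℓ)⁻¹ * (- ψ (α.1 : V) d1 +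
          ∑ r, ∑ i, ψ (((Z r : Sz ℓ n V) : Fin n → V) i) (((X r).1 : Fin n → L0) i : V))) *
        RR pm ψ L0 t sy H S (hcW π u g (fun s => (X s).1) α.1 Z) s P =
      ((((NA P : ℝ) ^ (-s) : ℝ) : ℂ) * ((Nat.card (EqW ℓ n pm (acU H P)) : ℂ) ^ k)⁻¹) *
      (ee ℓ ((Nat.card (M ≃ₐ[K] M) : ZMod ℓ)⁻¹ * (- ψ (α.1 : V) d1 +
        ∑ r, ∑ i, ψ (((Z r : Sz ℓ n V) : Fin n → V) i) (((X r).1 : Fin n → L0) i : V))) *
        ∑ col : EqC ℓ k pm (acU H P),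
          ee ℓ ((Nat.card (M ≃ₐ[K] M) : ZMod ℓ)⁻¹ * (∑ q : up (M := M) P,
            ψ ((hcW π u g (fun s => (X s).1) α.1 Z (col.1 q) : L0) : V) (t q) +
        ∑ p : up (M := M) P, ∑ q : up (M := M) P, if p = q then 0 else
          RcW ℓ n k (col.1 p) (col.1 q) * sy p q))) := by
    intro X α Z
    rw [RR, if_pos hP]
    ring
  simp_rw [e1, ← Finset.mul_sum]
  rw [hw, ← htK, ← card_selG pm av ψ L0 LL u g t sy H P]
  by_cases h : ∑ q ∈ P, (tK t q : V) = d1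
  · rw [if_pos h, if_pos h, hLL]
    push_cast
    rw [mul_pow, mul_pow]
    field_simp
  · rw [if_neg h, if_neg h]
    simp

open Classical in
theorem t_ZEX (hPLC : S_PLC) (hXMAS : S_XMAS) (hYDN : S_YDN) (hZHI : S_ZHI) : S_ZEX := by
  intro ℓ n _ hl2 K M _ _ _ _ _ _ pm S 𝔪 V _ _ _ av ψ L0 L1 LL π u d1 g t sy hM k s hs hs2
  have H : PF K M := pf hPLC K M
  have hc1 : (Nat.card (L0G av L0) : ℂ) ≠ 0 := by
    haveI : Nonempty (L0G av L0) := ⟨⟨0, fun γ => map_zero _⟩⟩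
    have : 0 < Nat.card (L0G av L0) := Nat.card_pos
    exact_mod_cast this.ne'
  have hc2 : (Nat.card (XG pm av L0) : ℂ) ≠ 0 := by
    haveI : Nonempty (XG pm av L0) := ⟨⟨0, fun γ i => (map_zero _).symm⟩⟩
    have : 0 < Nat.card (XG pm av L0) := Nat.card_pos
    exact_mod_cast this.ne'
  have hhi : ∀ (X : Fin k → XG pm av L0) (α : L0G av L0) (Z : Fin k → LL) (γ : M ≃ₐ[K] M)
      (a : ClW ℓ n k), av γ (hcW π u g (fun s => (X s).1) α.1 Z a : V) =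
      hcW π u g (fun s => (X s).1) α.1 Z (aC pm γ a) := fun X α Z γ a =>
    hZHI ℓ n (M ≃ₐ[K] M) pm V av ψ L0 L1 LL π u d1 g hM.lin k X α Z γ a
  have hss : ∀ (w w' : Pl M), (lo w : Pl K) ∉ S → (lo w' : Pl K) ∉ S → w ≠ w' →
      sy w w' = sy w' w := fun w w' hw hw' h => hM.sys.sys.symm w w'
    (fun h2 => hw ((H.up_iff S w).1 h2)) (fun h2 => hw' ((H.up_iff S w').1 h2)) h
  have hC : ∀ (X : Fin k → XG pm av L0) (α : L0G av L0) (Z : Fin k → LL), _ :=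
    fun X α Z => CSum_eq pm av ψ L0 t sy H S hPLC hXMAS hYDN hM.sys.unr hl2 hM.lin.gpm.hG
      hM.lin.inv (hcW π u g (fun s => (X s).1) α.1 Z) (hhi X α Z) hM.t_eq
      (fun γ w w' hw hw' => hM.sys.eqs γ w w' hw hw') hss s hs hs2
  rw [SP, Complex.ofReal_tsum]
  have h1 : ∀ (X : Fin k → XG pm av L0) (α : L0G av L0) (Z : Fin k → LL),
      ee ℓ ((Nat.card (M ≃ₐ[K] M) : ZMod ℓ)⁻¹ * (- ψ (α.1 : V) d1 +
          ∑ r, ∑ i, ψ (((Z r : Sz ℓ n V) : Fin n → V) i) (((X r).1 : Fin n → L0) i : V))) *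
        CSum S lo (OmG pm (k := k) (ℓ := ℓ)) (lamG pm)
          (IG pm ψ L0 t sy (hcW π u g (fun s => (X s).1) α.1 Z)) (rhoG pm sy) s =
      ∑' P : Finset (Pl K), ee ℓ ((Nat.card (M ≃ₐ[K] M) : ZMod ℓ)⁻¹ * (- ψ (α.1 : V) d1 +
          ∑ r, ∑ i, ψ (((Z r : Sz ℓ n V) : Fin n → V) i) (((X r).1 : Fin n → L0) i : V))) *
        RR pm ψ L0 t sy H S (hcW π u g (fun s => (X s).1) α.1 Z) s P := by
    intro X α Z
    rw [tsum_mul_left, (hC X α Z).2]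
  have h2 : ∀ (X : Fin k → XG pm av L0) (α : L0G av L0) (Z : Fin k → LL),
      Summable (fun P : Finset (Pl K) => ee ℓ ((Nat.card (M ≃ₐ[K] M) : ZMod ℓ)⁻¹ *
        (- ψ (α.1 : V) d1 +
          ∑ r, ∑ i, ψ (((Z r : Sz ℓ n V) : Fin n → V) i) (((X r).1 : Fin n → L0) i : V))) *
        RR pm ψ L0 t sy H S (hcW π u g (fun s => (X s).1) α.1 Z) s P) :=
    fun X α Z => (hC X α Z).1.mul_left _
  simp_rw [h1]
  simp_rw [← Summable.tsum_finsetSum (fun Z _ => h2 _ _ Z)]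
  simp_rw [← Summable.tsum_finsetSum (fun α _ => summable_sum (fun Z _ => h2 _ α Z))]
  rw [← Summable.tsum_finsetSum (fun X _ => summable_sum (fun α _ =>
    summable_sum (fun Z _ => h2 X α Z)))]
  rw [← tsum_mul_left]
  refine tsum_congr (fun P => ?_)
  by_cases hP : Disjoint P S
  · have h3 := term_one hPLC hZHI ℓ n K M pm S 𝔪 V av ψ L0 L1 LL π u d1 g t sy hM H k s P hP
    rw [h3, ← mul_assoc, inv_mul_cancel₀ (mul_ne_zero hc1 (pow_ne_zero _ hc2)), one_mul]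
    simp only [hP, true_and]
  · simp [RR, hP]

end Pool.Agent.T3h73.SG.ZEX
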