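import Pool.Agent.T3h73.SG.StmM

/-!
# SG/ZHI (helper11): the invariance of the characters of the colours
-/

set_option autoImplicit false
set_option linter.all false

open NumberField IsDedekindDomain Filter Topology Finset

namespace Pool.Agent.T3h73.SG.ZHI

open Pool.Agent.T3h73.SL (Pl IsP Pk loc)
open Pool.Agent.T3h73.SD (ee NA gA T0 SymSys SP Cl kap TYPQ S_T0L S_MASS)
open Pool.Agent.T3h73.SN (Sz tens inc ClW slc hcW S_DISTA)

section

variable {ℓ n : ℕ} [Fact ℓ.Prime] {G : Type} [Group G]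
  {pm : G →* Equiv.Perm (Fin n)} {V : Type} [AddCommGroup V] [Module (ZMod ℓ) V]
  {av : G →* Module.End (ZMod ℓ) V} {ψ : V →ₗ[ZMod ℓ] V →ₗ[ZMod ℓ] ZMod ℓ}
  {L0 L1 : Submodule (ZMod ℓ) V} {LL : Submodule (ZMod ℓ) (Sz ℓ n V)} {π : V →ₗ[ZMod ℓ] L0}
  {u : L0} {d1 : V} {g : Fin n → Fin n → L0}

theorem pi_av (h : LinG ℓ n G pm V av ψ L0 L1 LL π u d1 g) (γ : G) (x : V) :
    (π (av γ x) : V) = av γ (π x : V) := by
  have h1 : av γ x - av γ (π x : V) ∈ L1 := by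
    rw [← map_sub]
    exact h.st1 γ _ (h.proj x)
  have h2 : av γ (π x : V) ∈ L0 := h.st0 γ _ (π x).2
  have h3 := h.proj (av γ x)
  have h4 : (π (av γ x) : V) - av γ (π x : V) ∈ L1 := by
    have := L1.sub_mem h1 h3
    have e : av γ x - av γ (π x : V) - (av γ x - (π (av γ x) : V)) =
        (π (av γ x) : V) - av γ (π x : V) := by abel
    rwa [e] at this
  have h5 : (π (av γ x) : V) - av γ (π x : V) ∈ L0 := L0.sub_mem (π (av γ x)).2 h2
  have h6 : (π (av γ x) : V) - av γ (π x : V) ∈ L0 ⊓ L1 := ⟨h5, h4⟩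
  rw [h.compl.inf_eq_bot, Submodule.mem_bot] at h6
  exact sub_eq_zero.1 h6

/-- the value in `V` -/
theorem hc_coe (k : ℕ) (w : Fin k → Sz ℓ n L0) (α : L0) (Z : Fin k → LL) (a : ClW ℓ n k) :
    (hcW π u g w α Z a : V) =
      (α : V) + ∑ s, ∑ i, (a.1 s : Fin n → ZMod ℓ) i • (π (((Z s : Sz ℓ n V) : Fin n → V) i) : V) -
    ∑ s, ∑ i, (a.2 s : Fin n → ZMod ℓ) i • ((w s : Fin n → L0) i : V) +
    (∑ s, ∑ i, (a.2 s : Fin n → ZMod ℓ) i * (a.1 s : Fin n → ZMod ℓ) i) • (u : V) +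
    ∑ s, ∑ i, ∑ j, ((a.2 s : Fin n → ZMod ℓ) i *
      ((a.1 s : Fin n → ZMod ℓ) i - (a.1 s : Fin n → ZMod ℓ) j)) • (g i j : V) := by
  unfold hcW slc
  simp only [Submodule.coe_add, Submodule.coe_sub, Submodule.coe_sum, Submodule.coe_smul]

end

/-- ZHI -/
theorem t_ZHI : S_ZHI := by
  intro ℓ n _ G _ pm V _ _ av ψ L0 L1 LL π u d1 g h k X α Z γ a
  rw [hc_coe, hc_coe]
  have e1 : ∀ (s : Fin k) (i : Fin n), ((aC pm γ a).1 s : Fin n → ZMod ℓ) (pm γ i) =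
      (a.1 s : Fin n → ZMod ℓ) i := fun s i => by
    show (a.1 s : Fin n → ZMod ℓ) ((pm γ).symm (pm γ i)) = _
    rw [Equiv.symm_apply_apply]
  have e2 : ∀ (s : Fin k) (i : Fin n), ((aC pm γ a).2 s : Fin n → ZMod ℓ) (pm γ i) =
      (a.2 s : Fin n → ZMod ℓ) i := fun s i => by
    show (a.2 s : Fin n → ZMod ℓ) ((pm γ).symm (pm γ i)) = _
    rw [Equiv.symm_apply_apply]
  rw [map_add, map_add, map_sub, map_add, α.2 γ]
  refine congrArg₂ (· + ·) (congrArg₂ (· + ·) (congrArg₂ (· - ·) (congrArg₂ (· + ·) rfl ?_) ?_) ?_) ?_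
  · rw [map_sum]
    refine sum_congr rfl fun s _ => ?_
    rw [map_sum]
    conv_rhs => rw [← Equiv.sum_comp (pm γ)]
    refine sum_congr rfl fun i _ => ?_
    rw [e1, map_smul, h.LL_inv _ (Z s).2 γ i, pi_av h]
  · rw [map_sum]
    refine sum_congr rfl fun s _ => ?_
    rw [map_sum]
    conv_rhs => rw [← Equiv.sum_comp (pm γ)]
    refine sum_congr rfl fun i _ => ?_
    rw [e2, map_smul]
    exact congrArg _ ((X s).2 γ i).symm
  · rw [map_smul, h.u_inv]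
    congr 1
    refine sum_congr rfl fun s _ => ?_
    conv_rhs => rw [← Equiv.sum_comp (pm γ)]
    refine sum_congr rfl fun i _ => ?_
    rw [e1, e2]
  · rw [map_sum]
    refine sum_congr rfl fun s _ => ?_
    rw [map_sum]
    conv_rhs => rw [← Equiv.sum_comp (pm γ)]
    refine sum_congr rfl fun i _ => ?_
    rw [map_sum]
    conv_rhs => rw [← Equiv.sum_comp (pm γ)]
    refine sum_congr rfl fun j _ => ?_
    rw [e1, e2, e1, map_smul, h.ginv]

end Pool.Agent.T3h73.SG.ZHI
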