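import Pool.Agent.T3h73.SG.ZB7

/-!
# Project SG, task ZMF (helper7): the masses of the unlinked sets of colours
-/

set_option autoImplicit false
set_option linter.all false

open Module

namespace Pool.Agent.T3h73.SG.ZMF

open Pool.Agent.T3h73.SD (Cl)
open Pool.Agent.T3h73.SN (Sz ClW slc)
open Pool.Agent.T3h73.SG.ZB7

section
variable {G : Type} [Group G] [Finite G]

/-- the generators of a cyclic subgroup -/
lemma card_gen (D : Subgroup G) (hD : IsCyclic D) :
    Nat.card {g : G // Subgroup.zpowers g = D} = Nat.totient (Nat.card D) := by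
  classical
  haveI := Fintype.ofFinite D
  have e : {g : G // Subgroup.zpowers g = D} ≃ {x : D // x ∈ Finset.univ.filter
      fun x : D => orderOf x = Fintype.card D} :=
    { toFun := fun g => ⟨⟨g.1, by
          have h := Subgroup.mem_zpowers g.1
          rwa [g.2] at h⟩, Finset.mem_filter.mpr ⟨Finset.mem_univ _, by
            rw [Subgroup.orderOf_mk, ← Nat.card_zpowers, g.2, Nat.card_eq_fintype_card]⟩⟩
      invFun := fun x => ⟨x.1.1, by
        have h1 : Subgroup.zpowers (x.1 : G) ≤ D := Subgroup.zpowers_le.mpr x.1.2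
        refine Subgroup.eq_of_le_of_card_ge h1 ?_
        rw [Nat.card_zpowers, Subgroup.orderOf_coe, (Finset.mem_filter.mp x.2).2,
          Nat.card_eq_fintype_card]⟩
      left_inv := fun g => rfl
      right_inv := fun x => rfl }
  rw [Nat.card_congr e, Nat.card_eq_fintype_card, Fintype.card_coe,
    IsCyclic.card_orderOf_eq_totient dvd_rfl, Nat.card_eq_fintype_card]

open Classical in
lemma sum_tot [Fintype (Subgroup G)] :
    ∑ D : Subgroup G, (if IsCyclic D then Nat.totient (Nat.card D) else 0) = Nat.card G := by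
  rw [← Nat.card_congr (Equiv.sigmaFiberEquiv (fun g : G => Subgroup.zpowers g)), Nat.card_sigma]
  refine Finset.sum_congr rfl fun D _ => ?_
  split_ifs with hD
  · exact (card_gen D hD).symm
  · haveI : IsEmpty {g : G // Subgroup.zpowers g = D} := by
      refine ⟨fun g => hD ?_⟩
      rw [← g.2]
      infer_instance
    rw [Nat.card_of_isEmpty]

end

theorem t_ZMF (hZUN : S_ZUN) (hZUY : S_ZUY) : S_ZMF := by
  intro ℓ n hp h2 G _ _ pm hG k
  classical
  haveI := Fintype.ofFinite (Subgroup G)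
  have hN : 0 < (Nat.card G : ℝ) := by exact_mod_cast Nat.card_pos
  have hw : ∀ D : Subgroup G, 0 < (wD pm ℓ D : ℝ) ^ k := fun D =>
    pow_pos (by exact_mod_cast wD_pos D) k
  have hw1 : ∀ D : Subgroup G, 1 ≤ (wD pm ℓ D : ℝ) ^ k := fun D =>
    one_le_pow₀ (by exact_mod_cast wD_pos D)
  have hD0 : ∀ D : Subgroup G, 0 < (Nat.card D : ℝ) := fun D => by exact_mod_cast Nat.card_pos
  have hDle : ∀ D : Subgroup G, (Nat.card D : ℝ) ≤ Nat.card G := fun D => by
    exact_mod_cast Subgroup.card_le_card_group D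
  have ht0 : ∀ D : Subgroup G, 0 < (Nat.totient (Nat.card D) : ℝ) := fun D => by
    exact_mod_cast Nat.totient_pos.mpr Nat.card_pos
  set c : Subgroup G → ℝ := fun D =>
    1 / 2 * ((wD pm ℓ D : ℝ) ^ k)⁻¹ * (Nat.totient (Nat.card D) / Nat.card G : ℝ) with hc
  have hc0 : ∀ D, 0 < c D := fun D =>
    mul_pos (mul_pos one_half_pos (inv_pos.mpr (hw D))) (div_pos (ht0 D) hN)
  set T : Subgroup G → ℝ := fun D =>
    if IsCyclic D then (Nat.totient (Nat.card D) / Nat.card G : ℝ) else 0 with hTd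
  have hT : ∑ D, T D = 1 := by
    have h3 : ∀ D : Subgroup G, T D =
        ((if IsCyclic D then Nat.totient (Nat.card D) else 0 : ℕ) : ℝ) / (Nat.card G : ℝ) := by
      intro D
      simp only [hTd]
      split_ifs
      · rfl
      · simp
    rw [Finset.sum_congr rfl fun D _ => h3 D, ← Finset.sum_div, ← Nat.cast_sum, sum_tot,
      div_self hN.ne']
  have h2w : ∀ D : Subgroup G, (2 * (wD pm ℓ D : ℝ) ^ k) * c D =
      Nat.totient (Nat.card D) / Nat.card G := by
    intro D
    simp only [hc]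
    have := (hw D).ne'
    field_simp
  have hsum : ∀ V : Finset (CG pm ℓ k), ∑ x ∈ V, muG pm x =
      ∑ D : Subgroup G, ((V.filter fun x => x.1.1 = D).card : ℝ) * c D := by
    intro V
    rw [← Finset.sum_fiberwise V (fun x => x.1.1) (fun x => muG pm x)]
    refine Finset.sum_congr rfl fun D _ => ?_
    rw [← nsmul_eq_mul, ← Finset.sum_const]
    refine Finset.sum_congr rfl fun x hx => ?_
    have h3 := (Finset.mem_filter.mp hx).2
    show 1 / 2 * ((wD pm ℓ x.1.1 : ℝ) ^ k)⁻¹ *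
      (Nat.totient (Nat.card x.1.1) / Nat.card G : ℝ) = c D
    rw [h3]
  have hemp : ∀ (V : Finset (CG pm ℓ k)) (D : Subgroup G), ¬ IsCyclic D →
      (V.filter fun x => x.1.1 = D).card = 0 := by
    intro V D hD
    rw [Finset.card_eq_zero, Finset.filter_eq_empty_iff]
    rintro x _ rfl
    exact hD x.2.1
  refine ⟨?_, ?_, ?_⟩
  · intro x
    refine ⟨mul_pos (mul_pos one_half_pos (inv_pos.mpr (hw _))) (div_pos (hD0 _) hN), ?_,
      mul_pos (mul_pos one_half_pos (inv_pos.mpr (hw _))) (div_pos (ht0 _) hN)⟩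
    have h3 : ((wD pm ℓ x.1.1 : ℝ) ^ k)⁻¹ ≤ 1 := inv_le_one_of_one_le₀ (hw1 _)
    have h4 : (Nat.card x.1.1 / Nat.card G : ℝ) ≤ 1 := (div_le_one hN).mpr (hDle _)
    have h5 : 0 ≤ (Nat.card x.1.1 / Nat.card G : ℝ) := (div_pos (hD0 _) hN).le
    have h6 : 0 ≤ ((wD pm ℓ x.1.1 : ℝ) ^ k)⁻¹ := (inv_pos.mpr (hw _)).le
    show 1 / 2 * ((wD pm ℓ x.1.1 : ℝ) ^ k)⁻¹ * (Nat.card x.1.1 / Nat.card G : ℝ) ≤ 1
    calc 1 / 2 * ((wD pm ℓ x.1.1 : ℝ) ^ k)⁻¹ * (Nat.card x.1.1 / Nat.card G : ℝ)
        ≤ 1 / 2 * 1 * 1 := by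
          refine mul_le_mul (mul_le_mul_of_nonneg_left h3 (by norm_num)) h4 h5 (by norm_num)
      _ ≤ 1 := by norm_num
  · intro U hU
    obtain ⟨h3, h4⟩ := hZUN ℓ n h2 G pm hG k U hU
    have h5 : ∀ D ∈ (Finset.univ : Finset (Subgroup G)),
        ((U.filter fun x => x.1.1 = D).card : ℝ) * c D ≤ T D := by
      intro D _
      simp only [hTd]
      split_ifs with hD
      · rw [← h2w D]
        refine mul_le_mul_of_nonneg_right ?_ (hc0 D).le
        exact_mod_cast h3 D hD
      · rw [hemp U D hD, Nat.cast_zero, zero_mul]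
    rw [hsum U]
    refine ⟨(Finset.sum_le_sum h5).trans hT.le, fun h6 => h4 fun D hD => ?_⟩
    rw [← hT] at h6
    have h7 := (Finset.sum_eq_sum_iff_of_le h5).mp h6 D (Finset.mem_univ _)
    have h8 : T D = (2 * (wD pm ℓ D : ℝ) ^ k) * c D := by
      rw [h2w D]
      simp only [hTd]
      rw [if_pos hD]
    rw [h8] at h7
    have h9 := mul_right_cancel₀ (hc0 D).ne' h7
    exact_mod_cast h9
  · intro Y hY
    obtain ⟨h3, h4⟩ := (hZUY ℓ n h2 G pm hG k).1 Y hY
    refine ⟨?_, ?_, ?_⟩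
    · rw [hsum, ← hT]
      refine Finset.sum_congr rfl fun D _ => ?_
      simp only [hTd]
      split_ifs with hD
      · rw [h4 D hD, ← h2w D]
        push_cast
        ring
      · rw [hemp _ D hD, Nat.cast_zero, zero_mul]
    · intro x hx g
      by_contra h5
      exact h3 x hx x hx ⟨g, h5⟩
    · intro D hD
      rw [← Finset.sum_filter]
      have h5 : ∀ x ∈ (UY pm Y).filter (fun x => x.1.1 = D), lamG pm x =
          1 / 2 * ((wD pm ℓ D : ℝ) ^ k)⁻¹ * (Nat.card D / Nat.card G : ℝ) := by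
        intro x hx
        have h6 := (Finset.mem_filter.mp hx).2
        show 1 / 2 * ((wD pm ℓ x.1.1 : ℝ) ^ k)⁻¹ * (Nat.card x.1.1 / Nat.card G : ℝ) = _
        rw [h6]
      rw [Finset.sum_congr rfl h5, Finset.sum_const, h4 D hD, nsmul_eq_mul]
      push_cast
      have := (hw D).ne'
      field_simp

end Pool.Agent.T3h73.SG.ZMF
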