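import Pool.Agent.T3h73.SG.StmM
import Pool.Agent.T3h73.SN.MAINW1
import Pool.Agent.T3h73.SD.T_MAINU

/-!
# Project SG, task ZMN (helper49): the contribution of `W ⊗ Y`

The sum is the one of `core_sum` (project SD, MAINU) for the space of the invariant families of sum zero,
with the form `(card G)⁻¹ ∑ i, ψ (x i) (y i)`.
-/

set_option autoImplicit false
set_option linter.all false

namespace Pool.Agent.T3h73.SG.ZMN

open Pool.Agent.T3h73.SD (ee Cl S_MAINU Lin)
open Pool.Agent.T3h73.SD.MAINU (Cnd core_sum)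
open Pool.Agent.T3h73.SN (Sz tens inc ClW slc hcW)
open Pool.Agent.T3h73.SN.MAINW (psW psW_apply L0W HH HH_eq sg sum_sg swap2 TT TT_sub TT_zero TT_sum hcW_eq)

section
variable {ℓ n : ℕ} [Fact ℓ.Prime] {G : Type} [Group G] (pm : G →* Equiv.Perm (Fin n))
  {V : Type} [AddCommGroup V] [Module (ZMod ℓ) V] (av : G →* Module.End (ZMod ℓ) V)

/-- the invariant families -/
def XI : Submodule (ZMod ℓ) (Sz ℓ n V) where
  carrier := {x | InvF pm av (x : Fin n → V)}
  add_mem' := by
    intro a b ha hb γ i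
    show (a : Fin n → V) (pm γ i) + (b : Fin n → V) (pm γ i) = av γ ((a : Fin n → V) i + (b : Fin n → V) i)
    rw [ha γ i, hb γ i, map_add]
  zero_mem' := by
    intro γ i
    show (0 : V) = av γ 0
    rw [map_zero]
  smul_mem' := by
    intro c x hx γ i
    show c • (x : Fin n → V) (pm γ i) = av γ (c • (x : Fin n → V) i)
    rw [hx γ i, map_smul]

lemma mem_XI (x : Sz ℓ n V) : x ∈ XI pm av ↔ InvF pm av (x : Fin n → V) := Iff.rfl

/-- the invariant families in a subspace -/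
def LI (L : Submodule (ZMod ℓ) V) : Submodule (ZMod ℓ) (XI (n := n) pm av) :=
  (L0W n L).comap (XI pm av).subtype

lemma mem_LI (L : Submodule (ZMod ℓ) V) (x : XI (n := n) pm av) :
    x ∈ LI pm av L ↔ ∀ i, ((x : Sz ℓ n V) : Fin n → V) i ∈ L := Iff.rfl

/-- the form on the invariant families -/
noncomputable def psI (n : ℕ) (pm : G →* Equiv.Perm (Fin n)) (ψ : V →ₗ[ZMod ℓ] V →ₗ[ZMod ℓ] ZMod ℓ) :
    XI (n := n) pm av →ₗ[ZMod ℓ] XI (n := n) pm av →ₗ[ZMod ℓ] ZMod ℓ :=
  (Nat.card G : ZMod ℓ)⁻¹ • (psW n ψ).domRestrict₁₂ (XI pm av) (XI pm av)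

lemma psI_apply (ψ : V →ₗ[ZMod ℓ] V →ₗ[ZMod ℓ] ZMod ℓ) (x y : XI (n := n) pm av) :
    psI av n pm ψ x y = (Nat.card G : ZMod ℓ)⁻¹ *
      ∑ i, ψ (((x : Sz ℓ n V) : Fin n → V) i) (((y : Sz ℓ n V) : Fin n → V) i) := rfl

end

section
variable {ℓ n : ℕ} [Fact ℓ.Prime] {G : Type} [Group G] {pm : G →* Equiv.Perm (Fin n)}
  {V : Type} [AddCommGroup V] [Module (ZMod ℓ) V] {av : G →* Module.End (ZMod ℓ) V}
  {ψ : V →ₗ[ZMod ℓ] V →ₗ[ZMod ℓ] ZMod ℓ}
  {L0 L1 : Submodule (ZMod ℓ) V} {LL : Submodule (ZMod ℓ) (Sz ℓ n V)} {π : V →ₗ[ZMod ℓ] L0}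
  {u : L0} {d1 : V} {g : Fin n → Fin n → L0}

lemma pi0 (h : LinG ℓ n G pm V av ψ L0 L1 LL π u d1 g) {x : V} (hx : x ∈ L0) : (π x : V) = x := by
  have h1 : x - (π x : V) ∈ L0 ⊓ L1 := ⟨L0.sub_mem hx (π x).2, h.proj x⟩
  rw [h.compl.inf_eq_bot, Submodule.mem_bot, sub_eq_zero] at h1
  exact h1.symm

lemma pi1 (h : LinG ℓ n G pm V av ψ L0 L1 LL π u d1 g) {x : V} (hx : x ∈ L1) : π x = 0 := by
  have h1 : (π x : V) ∈ L0 ⊓ L1 := by
    refine ⟨(π x).2, ?_⟩
    have := L1.sub_mem hx (h.proj x)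
    rwa [sub_sub_cancel] at this
  rw [h.compl.inf_eq_bot, Submodule.mem_bot] at h1
  exact Subtype.ext h1

/-- the projection commutes with the action -/
lemma pi_av (h : LinG ℓ n G pm V av ψ L0 L1 LL π u d1 g) (γ : G) (x : V) :
    (π (av γ x) : V) = av γ (π x : V) := by
  have h1 : av γ x = av γ (π x : V) + av γ (x - (π x : V)) := by
    rw [← map_add]
    congr 1
    abel
  rw [h1, map_add, Submodule.coe_add, pi0 h (h.st0 γ _ (π x).2), pi1 h (h.st1 γ _ (h.proj x)),
    Submodule.coe_zero, add_zero]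

/-- the projection of the invariant families -/
noncomputable def piI (h : LinG ℓ n G pm V av ψ L0 L1 LL π u d1 g) :
    XI (n := n) pm av →ₗ[ZMod ℓ] LI (n := n) pm av L0 where
  toFun x := ⟨⟨⟨fun i => (π (((x : Sz ℓ n V) : Fin n → V) i) : V), by
      show ∑ i, (π (((x : Sz ℓ n V) : Fin n → V) i) : V) = 0
      have h1 : ∑ i, ((x : Sz ℓ n V) : Fin n → V) i = 0 := (x : Sz ℓ n V).2
      rw [← Submodule.coe_sum, ← map_sum, h1, map_zero, Submodule.coe_zero]⟩,
    fun γ i => by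
      show (π (((x : Sz ℓ n V) : Fin n → V) (pm γ i)) : V) = av γ (π (((x : Sz ℓ n V) : Fin n → V) i) : V)
      rw [x.2 γ i, pi_av h]⟩,
    fun i => (π (((x : Sz ℓ n V) : Fin n → V) i)).2⟩
  map_add' := by
    intro x y
    apply Subtype.ext
    apply Subtype.ext
    apply Subtype.ext
    funext i
    show ((π (((x : Sz ℓ n V) : Fin n → V) i + ((y : Sz ℓ n V) : Fin n → V) i) : L0) : V) = _
    rw [map_add]
    rfl
  map_smul' := by
    intro c x
    apply Subtype.ext
    apply Subtype.ext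
    apply Subtype.ext
    funext i
    show ((π (c • ((x : Sz ℓ n V) : Fin n → V) i) : L0) : V) = _
    rw [map_smul]
    rfl

lemma piI_apply (h : LinG ℓ n G pm V av ψ L0 L1 LL π u d1 g) (x : XI (n := n) pm av) (i : Fin n) :
    ((((piI h x : LI (n := n) pm av L0) : XI (n := n) pm av) : Sz ℓ n V) : Fin n → V) i =
      (π (((x : Sz ℓ n V) : Fin n → V) i) : V) := rfl

/-- the form on all families of sum zero is nondegenerate -/
lemma ndW (h : LinG ℓ n G pm V av ψ L0 L1 LL π u d1 g) (x : Sz ℓ n V)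
    (hx : ∀ y : Sz ℓ n V, psW n ψ x y = 0) : x = 0 := by
  have h1 : ∀ i j : Fin n, (x : Fin n → V) i = (x : Fin n → V) j := by
    intro i j
    by_cases hij : i = j
    · rw [hij]
    · have h2 : (x : Fin n → V) i - (x : Fin n → V) j = 0 := by
        apply h.nd
        intro v
        have h3 := hx ⟨fun m => (if m = i then v else 0) - (if m = j then v else 0), by
          show ∑ m, ((if m = i then v else 0) - (if m = j then v else 0)) = 0
          rw [Finset.sum_sub_distrib, Finset.sum_ite_eq', Finset.sum_ite_eq']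
          simp⟩
        rw [psW_apply] at h3
        have h4 : ∀ m : Fin n, ψ ((x : Fin n → V) m) ((if m = i then v else 0) - (if m = j then v else 0)) =
            (if m = i then ψ ((x : Fin n → V) m) v else 0) - (if m = j then ψ ((x : Fin n → V) m) v else 0) := by
          intro m
          rw [map_sub]
          congr 1 <;> split_ifs <;> simp
        have h5 : ∑ m : Fin n, ψ ((x : Fin n → V) m) ((if m = i then v else 0) - (if m = j then v else 0)) = 0 := h3
        rw [Finset.sum_congr rfl fun m _ => h4 m, Finset.sum_sub_distrib, Finset.sum_ite_eq',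
          Finset.sum_ite_eq'] at h5
        simp only [Finset.mem_univ, if_true] at h5
        rw [map_sub, LinearMap.sub_apply]
        exact h5
      exact sub_eq_zero.1 h2
  have h0 : ∀ i : Fin n, (x : Fin n → V) i = 0 := by
    intro i
    have h2 : ∑ j, (x : Fin n → V) j = 0 := x.2
    rw [Finset.sum_congr rfl fun j _ => h1 j i, Finset.sum_const, Finset.card_univ, Fintype.card_fin] at h2
    have h3 : ((n : ℕ) : ZMod ℓ) • (x : Fin n → V) i = 0 := by
      rw [Nat.cast_smul_eq_nsmul]; exact h2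
    have h4 : ((n : ℕ) : ZMod ℓ) ≠ 0 := by
      rw [Ne, ZMod.natCast_eq_zero_iff]
      exact h.gpm.hn
    exact (smul_eq_zero.1 h3).resolve_left h4
  apply Subtype.ext
  funext i
  exact h0 i

lemma cardG_ne [Finite G] (h : LinG ℓ n G pm V av ψ L0 L1 LL π u d1 g) : (Nat.card G : ZMod ℓ) ≠ 0 := by
  rw [Ne, ZMod.natCast_eq_zero_iff]
  exact h.gpm.hG

/-- the sum of the translates of a family -/
noncomputable def avg [Finite G] (y : Sz ℓ n V) : XI (n := n) pm av := by
  letI : Fintype G := Fintype.ofFinite G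
  exact ⟨⟨fun i => ∑ γ : G, av γ ((y : Fin n → V) ((pm γ)⁻¹ i)), by
    show ∑ i, ∑ γ : G, av γ ((y : Fin n → V) ((pm γ)⁻¹ i)) = 0
    rw [Finset.sum_comm]
    refine Finset.sum_eq_zero fun γ _ => ?_
    rw [← map_sum, Equiv.sum_comp ((pm γ)⁻¹) (fun i => (y : Fin n → V) i),
      show ∑ i, (y : Fin n → V) i = 0 from y.2, map_zero]⟩, by
    intro δ i
    show ∑ γ : G, av γ ((y : Fin n → V) ((pm γ)⁻¹ (pm δ i))) =
      av δ (∑ γ : G, av γ ((y : Fin n → V) ((pm γ)⁻¹ i)))
    rw [← Equiv.sum_comp (Equiv.mulLeft δ), map_sum]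
    refine Finset.sum_congr rfl fun γ _ => ?_
    have e : (pm δ)⁻¹ (pm δ i) = i := Equiv.symm_apply_apply (pm δ) i
    rw [Equiv.coe_mulLeft, map_mul, map_mul, mul_inv_rev, Equiv.Perm.mul_apply, e]
    rfl⟩

lemma psI_avg [Finite G] (h : LinG ℓ n G pm V av ψ L0 L1 LL π u d1 g) (x : XI (n := n) pm av)
    (y : Sz ℓ n V) : psI av n pm ψ x (avg y) = psW n ψ (x : Sz ℓ n V) y := by
  letI : Fintype G := Fintype.ofFinite G
  rw [psI_apply, psW_apply]
  have h1 : ∑ i, ψ (((x : Sz ℓ n V) : Fin n → V) i)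
      ((((avg y : XI (n := n) pm av) : Sz ℓ n V) : Fin n → V) i) =
      ∑ γ : G, ∑ i, ψ (((x : Sz ℓ n V) : Fin n → V) i) (av γ ((y : Fin n → V) ((pm γ)⁻¹ i))) := by
    rw [Finset.sum_comm]
    refine Finset.sum_congr rfl fun i _ => ?_
    show ψ (((x : Sz ℓ n V) : Fin n → V) i) (∑ γ : G, av γ ((y : Fin n → V) ((pm γ)⁻¹ i))) = _
    rw [map_sum]
  have h2 : ∀ γ : G, ∑ i, ψ (((x : Sz ℓ n V) : Fin n → V) i) (av γ ((y : Fin n → V) ((pm γ)⁻¹ i))) =
      ∑ i, ψ (((x : Sz ℓ n V) : Fin n → V) i) ((y : Fin n → V) i) := by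
    intro γ
    rw [← Equiv.sum_comp (pm γ)]
    refine Finset.sum_congr rfl fun i _ => ?_
    have e : (pm γ)⁻¹ (pm γ i) = i := Equiv.symm_apply_apply (pm γ) i
    rw [e, x.2 γ i, h.inv]
  rw [h1, Finset.sum_congr rfl fun γ _ => h2 γ, Finset.sum_const, Finset.card_univ,
    ← Nat.card_eq_fintype_card, nsmul_eq_mul, ← mul_assoc, inv_mul_cancel₀ (cardG_ne h), one_mul]

/-- the data for `core_sum` -/
lemma linI [Finite G] (h : LinG ℓ n G pm V av ψ L0 L1 LL π u d1 g) :
    Lin ℓ (XI (n := n) pm av) (psI av n pm ψ) (LI pm av L0) (LI pm av L1)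
      (LL.comap (XI pm av).subtype) (piI h) 0 0 where
  alt := fun x => by
    rw [psI_apply, Finset.sum_eq_zero fun i _ => h.alt _, mul_zero]
  nd := by
    intro x hx
    apply Subtype.ext
    apply ndW h
    intro y
    rw [← psI_avg h x y]
    exact hx _
  compl := by
    constructor
    · rw [disjoint_iff, eq_bot_iff]
      intro x hx
      rw [Submodule.mem_bot]
      apply Subtype.ext
      apply Subtype.ext
      funext i
      have h1 : ((x : Sz ℓ n V) : Fin n → V) i ∈ L0 ⊓ L1 := ⟨hx.1 i, hx.2 i⟩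
      rw [h.compl.inf_eq_bot, Submodule.mem_bot] at h1
      exact h1
    · rw [codisjoint_iff, eq_top_iff]
      intro x _
      rw [Submodule.mem_sup]
      refine ⟨((piI h x : LI (n := n) pm av L0) : XI (n := n) pm av), (piI h x).2,
        x - ((piI h x : LI (n := n) pm av L0) : XI (n := n) pm av), ?_, ?_⟩
      · intro i
        exact h.proj _
      · abel
  iso0 := fun x hx y hy => by
    have e : ∑ i, ψ (((x : Sz ℓ n V) : Fin n → V) i) (((y : Sz ℓ n V) : Fin n → V) i) = 0 :=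
      Finset.sum_eq_zero fun i _ => h.iso0 _ (hx i) _ (hy i)
    rw [psI_apply, e, mul_zero]
  iso1 := fun x hx y hy => by
    have e : ∑ i, ψ (((x : Sz ℓ n V) : Fin n → V) i) (((y : Sz ℓ n V) : Fin n → V) i) = 0 :=
      Finset.sum_eq_zero fun i _ => h.iso1 _ (hx i) _ (hy i)
    rw [psI_apply, e, mul_zero]
  isoL := fun x hx y hy => by
    have e : ∑ i, ψ (((x : Sz ℓ n V) : Fin n → V) i) (((y : Sz ℓ n V) : Fin n → V) i) = 0 :=
      h.isoL _ hx _ hy
    rw [psI_apply, e, mul_zero]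
  card := by
    have e1 : Nat.card (LL.comap (XI (n := n) pm av).subtype) = Nat.card LL :=
      Nat.card_congr
        { toFun := fun x => ⟨((x : XI (n := n) pm av) : Sz ℓ n V), x.2⟩
          invFun := fun x => ⟨⟨(x : Sz ℓ n V), h.LL_inv _ x.2⟩, x.2⟩
          left_inv := fun x => rfl
          right_inv := fun x => rfl }
    rw [e1, h.card]
    exact Nat.card_congr
      { toFun := fun x => ⟨⟨inc x.1, x.2⟩, fun i => ((x.1 : Fin n → L0) i).2⟩
        invFun := fun x => ⟨⟨fun i => ⟨(((x : XI (n := n) pm av) : Sz ℓ n V) : Fin n → V) i, x.2 i⟩, by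
          show ∑ i, (⟨(((x : XI (n := n) pm av) : Sz ℓ n V) : Fin n → V) i, x.2 i⟩ : L0) = 0
          apply Subtype.ext
          rw [Submodule.coe_sum, Submodule.coe_zero]
          exact ((x : XI (n := n) pm av) : Sz ℓ n V).2⟩, x.1.2⟩
        left_inv := fun x => rfl
        right_inv := fun x => rfl }
  proj := fun x i => h.proj _
  d1_mem := Submodule.zero_mem _
  d_mem := by
    rw [Submodule.coe_zero, add_zero]
    exact Submodule.zero_mem _

/-- the quadratic part vanishes -/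
lemma quad (hg : ∀ i j, g i j = g j i) (u : L0) (hℓ : ℓ ≠ 2) {k : ℕ} (Y : Submodule (ZMod ℓ) (Cl ℓ k))
    (hY : ∀ x ∈ Y, ∀ y ∈ Y, ∑ s, (x.1 s * y.2 s + y.1 s * x.2 s) = 0) (x : ClW ℓ n k)
    (hx : ∀ i, slc x i ∈ Y) :
    ∑ s, ∑ i, (x.2 s : Fin n → ZMod ℓ) i • sg u g (x.1 s : Fin n → ZMod ℓ) i = 0 := by
  have h2 : (2 : ZMod ℓ) ≠ 0 := by
    intro h0
    have h1 : ((2 : ℕ) : ZMod ℓ) = 0 := by exact_mod_cast h0
    rw [ZMod.natCast_eq_zero_iff] at h1
    exact hℓ ((Nat.prime_dvd_prime_iff_eq (Fact.out) Nat.prime_two).1 h1)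
  have hself : ∀ y ∈ Y, ∑ s, y.2 s * y.1 s = 0 := by
    intro y hy
    have h1 := hY y hy y hy
    have h3 : ∑ s, (y.1 s * y.2 s + y.1 s * y.2 s) = 2 * ∑ s, y.2 s * y.1 s := by
      rw [Finset.mul_sum]
      refine Finset.sum_congr rfl fun s _ => ?_
      ring
    rw [h3] at h1
    exact (mul_eq_zero.1 h1).resolve_left h2
  simp_rw [sum_sg]
  rw [Finset.sum_add_distrib, ← Finset.sum_smul]
  have e1 : ∑ s, ∑ i, (x.2 s : Fin n → ZMod ℓ) i * (x.1 s : Fin n → ZMod ℓ) i = 0 := by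
    rw [Finset.sum_comm]
    exact Finset.sum_eq_zero fun i _ => hself _ (hx i)
  rw [e1, zero_smul, zero_add]
  have e2 : (2 : ZMod ℓ) • ∑ s, ∑ i, ∑ j, ((x.2 s : Fin n → ZMod ℓ) i *
      ((x.1 s : Fin n → ZMod ℓ) i - (x.1 s : Fin n → ZMod ℓ) j)) • g i j = 0 := by
    rw [Finset.smul_sum, Finset.sum_congr rfl fun s _ =>
      swap2 g hg (x.1 s : Fin n → ZMod ℓ) (x.2 s : Fin n → ZMod ℓ), Finset.sum_comm]
    refine Finset.sum_eq_zero fun i _ => ?_
    rw [Finset.sum_comm]
    refine Finset.sum_eq_zero fun j _ => ?_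
    rw [← Finset.sum_smul]
    have := hself _ (Y.sub_mem (hx i) (hx j))
    have e3 : ∑ s, ((x.2 s : Fin n → ZMod ℓ) i - (x.2 s : Fin n → ZMod ℓ) j) *
        ((x.1 s : Fin n → ZMod ℓ) i - (x.1 s : Fin n → ZMod ℓ) j) = 0 := this
    rw [e3, zero_smul]
  exact (smul_eq_zero.1 e2).resolve_left h2

/-- the values of the characters on `W ⊗ Y` -/
lemma hval [Finite V] (h : LinG ℓ n G pm V av ψ L0 L1 LL π u d1 g) (hℓ : ℓ ≠ 2) {k : ℕ}
    (Y : Submodule (ZMod ℓ) (Cl ℓ k))
    (hY : ∀ x ∈ Y, ∀ y ∈ Y, ∑ s, (x.1 s * y.2 s + y.1 s * x.2 s) = 0)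
    (w : Fin k → Sz ℓ n L0) (α : L0) (z : Fin k → LL) (x : ClW ℓ n k) (hx : ∀ i, slc x i ∈ Y) :
    hcW π u g w α z x = α + ∑ i, TT w z π (slc x i) i := by
  rw [hcW_eq]
  congr 1
  have h1 : ∑ s, HH u g (x.1 s : Fin n → ZMod ℓ) (x.2 s : Fin n → ZMod ℓ)
      (fun i => π (((z s : Sz ℓ n V) : Fin n → V) i)) (w s : Fin n → L0) =
      ∑ s, ∑ i, ((x.1 s : Fin n → ZMod ℓ) i • π (((z s : Sz ℓ n V) : Fin n → V) i) -
        (x.2 s : Fin n → ZMod ℓ) i • (w s : Fin n → L0) i) +
      ∑ s, ∑ i, (x.2 s : Fin n → ZMod ℓ) i • sg u g (x.1 s : Fin n → ZMod ℓ) i := by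
    rw [← Finset.sum_add_distrib]
    refine Finset.sum_congr rfl fun s _ => ?_
    rw [HH_eq, ← Finset.sum_add_distrib]
  rw [h1, quad h.gsymm u hℓ Y hY x hx, add_zero, Finset.sum_comm]
  rfl

/-- the condition of vanishing on `W ⊗ Y` -/
lemma cond [Finite V] (h : LinG ℓ n G pm V av ψ L0 L1 LL π u d1 g) (hℓ : ℓ ≠ 2) {k : ℕ}
    (Y : Submodule (ZMod ℓ) (Cl ℓ k))
    (hY : ∀ x ∈ Y, ∀ y ∈ Y, ∑ s, (x.1 s * y.2 s + y.1 s * x.2 s) = 0)
    (w : Fin k → Sz ℓ n L0) (α : L0) (z : Fin k → LL) :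
    (∀ a : ClW ℓ n k, (∀ i, slc a i ∈ Y) → hcW π u g w α z a = 0) ↔
    α = 0 ∧ ∀ y ∈ Y, ∀ i, TT w z π y i = 0 := by
  constructor
  · intro H
    have h0 : α = 0 := by
      have h1 := H 0 (fun i => Y.zero_mem)
      rw [hval h hℓ Y hY w α z 0 (fun i => Y.zero_mem)] at h1
      have h3 : ∀ i : Fin n, TT w z π (slc (0 : ClW ℓ n k) i) i = 0 := fun i => TT_zero _ _ i
      rw [Finset.sum_eq_zero fun i _ => h3 i, add_zero] at h1
      exact h1
    refine ⟨h0, ?_⟩
    intro y hy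
    have hall : ∀ i j : Fin n, TT w z π y i = TT w z π y j := by
      intro i j
      let x : ClW ℓ n k := (fun s => ⟨fun m => (if m = i then y.1 s else 0) - (if m = j then y.1 s else 0), by
          show ∑ m, ((if m = i then y.1 s else 0) - (if m = j then y.1 s else 0)) = 0
          rw [Finset.sum_sub_distrib, Finset.sum_ite_eq', Finset.sum_ite_eq']
          simp⟩,
        fun s => ⟨fun m => (if m = i then y.2 s else 0) - (if m = j then y.2 s else 0), by
          show ∑ m, ((if m = i then y.2 s else 0) - (if m = j then y.2 s else 0)) = 0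
          rw [Finset.sum_sub_distrib, Finset.sum_ite_eq', Finset.sum_ite_eq']
          simp⟩)
      have hslc : ∀ m, slc x m = (if m = i then y else 0) - (if m = j then y else 0) := by
        intro m
        apply Prod.ext
        · funext s
          show (if m = i then y.1 s else 0) - (if m = j then y.1 s else 0) = _
          split_ifs <;> rfl
        · funext s
          show (if m = i then y.2 s else 0) - (if m = j then y.2 s else 0) = _
          split_ifs <;> rfl
      have hxY : ∀ m, slc x m ∈ Y := by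
        intro m
        rw [hslc]
        apply Y.sub_mem
        · split_ifs
          · exact hy
          · exact Y.zero_mem
        · split_ifs
          · exact hy
          · exact Y.zero_mem
      have h1 := H x hxY
      rw [hval h hℓ Y hY w α z x hxY, h0, zero_add] at h1
      have h2 : ∀ m : Fin n, TT w z π (slc x m) m =
          (if m = i then TT w z π y m else 0) - (if m = j then TT w z π y m else 0) := by
        intro m
        rw [hslc, TT_sub]
        congr 1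
        · split_ifs
          · rfl
          · exact TT_zero _ _ _
        · split_ifs
          · rfl
          · exact TT_zero _ _ _
      rw [Finset.sum_congr rfl fun m _ => h2 m, Finset.sum_sub_distrib, Finset.sum_ite_eq',
        Finset.sum_ite_eq'] at h1
      simp only [Finset.mem_univ, if_true] at h1
      exact sub_eq_zero.1 h1
    intro i
    have h1 := TT_sum (π := π) w z y
    rw [Finset.sum_congr rfl fun j _ => hall j i, Finset.sum_const, Finset.card_univ, Fintype.card_fin] at h1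
    have h3 : ((n : ℕ) : ZMod ℓ) • TT w z π y i = 0 := by
      rw [Nat.cast_smul_eq_nsmul]; exact h1
    have h4 : ((n : ℕ) : ZMod ℓ) ≠ 0 := by
      rw [Ne, ZMod.natCast_eq_zero_iff]
      exact h.gpm.hn
    exact (smul_eq_zero.1 h3).resolve_left h4
  · rintro ⟨h0, h1⟩ a ha
    rw [hval h hℓ Y hY w α z a ha, h0, zero_add]
    exact Finset.sum_eq_zero fun i _ => h1 _ (ha i) i

/-- the invariant families in `L0` -/
def EI (n : ℕ) (pm : G →* Equiv.Perm (Fin n)) (av : G →* Module.End (ZMod ℓ) V)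
    (L0 : Submodule (ZMod ℓ) V) :
    {x : Sz ℓ n L0 // InvF pm av (fun i => ((x : Fin n → L0) i : V))} ≃ LI (n := n) pm av L0 where
  toFun := fun x => ⟨⟨inc x.1, x.2⟩, fun i => ((x.1 : Fin n → L0) i).2⟩
  invFun := fun x => ⟨⟨fun i => ⟨(((x : XI (n := n) pm av) : Sz ℓ n V) : Fin n → V) i, x.2 i⟩, by
    show ∑ i, (⟨(((x : XI (n := n) pm av) : Sz ℓ n V) : Fin n → V) i, x.2 i⟩ : L0) = 0
    apply Subtype.ext
    rw [Submodule.coe_sum, Submodule.coe_zero]
    exact ((x : XI (n := n) pm av) : Sz ℓ n V).2⟩, x.1.2⟩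
  left_inv := fun x => rfl
  right_inv := fun x => rfl

/-- the elements of `LL` as invariant families -/
def EL (h : LinG ℓ n G pm V av ψ L0 L1 LL π u d1 g) :
    LL ≃ LL.comap (XI (n := n) pm av).subtype where
  toFun := fun x => ⟨⟨(x : Sz ℓ n V), h.LL_inv _ x.2⟩, x.2⟩
  invFun := fun x => ⟨((x : XI (n := n) pm av) : Sz ℓ n V), x.2⟩
  left_inv := fun x => rfl
  right_inv := fun x => rfl

/-- the conditions agree -/
lemma cnd_iff (h : LinG ℓ n G pm V av ψ L0 L1 LL π u d1 g) {k : ℕ} (Y : Submodule (ZMod ℓ) (Cl ℓ k))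
    (X : Fin k → {x : Sz ℓ n L0 // InvF pm av (fun i => ((x : Fin n → L0) i : V))})
    (z : Fin k → LL) :
    Cnd Y (LL.comap (XI (n := n) pm av).subtype) (piI h) (fun s => EI n pm av L0 (X s))
      (fun s => EL h (z s)) ↔ ∀ y ∈ Y, ∀ i, TT (fun s => (X s).1) z π y i = 0 := by
  have key : ∀ (y : Cl ℓ k) (i : Fin n),
      ((((∑ s, (y.1 s • piI h ((EL h (z s) : LL.comap (XI (n := n) pm av).subtype) : XI (n := n) pm av) -
        y.2 s • EI n pm av L0 (X s)) : LI (n := n) pm av L0) : XI (n := n) pm av) : Sz ℓ n V) :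
        Fin n → V) i = ((TT (fun s => (X s).1) z π y i : L0) : V) := by
    intro y i
    unfold TT
    rw [Submodule.coe_sum, Submodule.coe_sum, Submodule.coe_sum, Finset.sum_apply, Submodule.coe_sum]
    rfl
  unfold Cnd
  constructor
  · intro H y hy i
    apply Subtype.ext
    rw [← key y i, H y hy]
    rfl
  · intro H y hy
    apply Subtype.ext
    apply Subtype.ext
    apply Subtype.ext
    funext i
    rw [key y i, H y hy i]
    rfl

end

open Classical in
theorem t_ZMN (hMAINU : Pool.Agent.T3h73.SD.S_MAINU) : S_ZMN := by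
  intro ℓ n _ hℓ G _ _ pm V _ _ _ av ψ L0 L1 LL π u d1 g h k Y hY
  obtain ⟨hY1, hY2⟩ := hY
  haveI : Finite (Sz ℓ n V) := inferInstance
  letI : Fintype (XI (n := n) pm av) := Fintype.ofFinite _
  have key := core_sum hℓ (linI h) Y hY1 hY2
  have hcard : (Nat.card {x : Sz ℓ n L0 // InvF pm av (fun i => ((x : Fin n → L0) i : V))} : ℂ) =
      (Nat.card (LI (n := n) pm av L0) : ℂ) := by
    rw [Nat.card_congr (EI n pm av L0)]
  rw [hcard]
  refine Eq.trans ?_ key
  clear key hcard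
  refine Fintype.sum_equiv (Equiv.piCongrRight fun _ => EI n pm av L0) _ _ fun X => ?_
  rw [Finset.sum_comm]
  refine Fintype.sum_equiv (Equiv.piCongrRight fun _ => EL h) _ _ fun z => ?_
  have hα0 : ∀ γ, av γ ((0 : L0) : V) = ((0 : L0) : V) := by
    intro γ
    rw [Submodule.coe_zero, map_zero]
  rw [Finset.sum_eq_single (⟨0, hα0⟩ : {α : L0 // ∀ γ, av γ (α : V) = α})]
  · have e1 := cnd_iff h Y X z
    have e2 := cond h hℓ Y hY1 (fun s => (X s).1) 0 z
    by_cases hC : ∀ y ∈ Y, ∀ i, TT (fun s => (X s).1) z π y i = 0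
    · rw [if_pos (e2.2 ⟨rfl, hC⟩)]
      refine Eq.trans ?_ (if_pos (e1.2 hC)).symm
      congr 1
      show (Nat.card G : ZMod ℓ)⁻¹ * (- ψ ((0 : L0) : V) d1 + _) = _
      rw [Submodule.coe_zero, map_zero, LinearMap.zero_apply, neg_zero, zero_add, Finset.mul_sum]
      rfl
    · rw [if_neg (fun H => hC (e2.1 H).2)]
      exact (if_neg (fun H => hC (e1.1 H))).symm
  · intro α _ hne
    rw [if_neg]
    intro H
    apply hne
    apply Subtype.ext
    exact ((cond h hℓ Y hY1 (fun s => (X s).1) α.1 z).1 H).1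
  · intro H
    exact absurd (Finset.mem_univ _) H

end Pool.Agent.T3h73.SG.ZMN
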