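import Pool.Agent.T3h73.SG.StmM

/-!
# Project SG, task ZMO (helper49): the moments
-/

set_option autoImplicit false
set_option linter.all false

open NumberField IsDedekindDomain Filter Topology

namespace Pool.Agent.T3h73.SG.ZMO

open Pool.Agent.T3h73.SL (Pl IsP Pk loc)
open Pool.Agent.T3h73.SD (ee NA gA T0 SymSys SP Cl)
open Pool.Agent.T3h73.SN (Sz tens inc ClW slc hcW)

lemma aC_one {ℓ n k : ℕ} {G : Type} [Group G] (pm : G →* Equiv.Perm (Fin n)) (a : ClW ℓ n k) :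
    aC pm 1 a = a := by
  have h : ∀ c : Sz ℓ n (ZMod ℓ), aW pm 1 c = c := by
    intro c
    apply Subtype.ext
    funext i
    show (c : Fin n → ZMod ℓ) ((pm 1)⁻¹ i) = _
    rw [map_one, inv_one]
    rfl
  unfold aC
  simp only [h]

open Classical in
/-- the unlinked sets of mass one are the `UY Y` -/
lemma card_eq (hZMF : S_ZMF) (hZUY : S_ZUY) {ℓ n : ℕ} [Fact ℓ.Prime] (hℓ : ℓ ≠ 2) {G : Type} [Group G]
    [Finite G] {pm : G →* Equiv.Perm (Fin n)} (hG : GPm ℓ n G pm) (k : ℕ)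
    [Fintype {Y : Submodule (ZMod ℓ) (Cl ℓ k) // Iso ℓ k Y}] (P : ClW ℓ n k → Prop) :
    ((Nat.card {U : Finset (CG pm ℓ k) // (∀ c ∈ U, ∀ c' ∈ U, c ≠ c' → ¬ lkG pm c c') ∧
      ∑ c ∈ U, muG pm c = 1 ∧ ∀ c ∈ U, P c.1.2.1} : ℕ) : ℂ) =
    ∑ Y : {Y : Submodule (ZMod ℓ) (Cl ℓ k) // Iso ℓ k Y},
      if (∀ a : ClW ℓ n k, (∀ i, slc a i ∈ Y.1) → P a) then 1 else 0 := by
  rw [Finset.sum_boole]
  congr 1
  obtain ⟨-, hm2, hm3⟩ := hZMF ℓ n hℓ G pm hG k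
  obtain ⟨hu1, hu2, -⟩ := hZUY ℓ n hℓ G pm hG k
  have hP : ∀ Y : Submodule (ZMod ℓ) (Cl ℓ k), (∀ c ∈ UY pm Y, P c.1.2.1) ↔
      ∀ a : ClW ℓ n k, (∀ i, slc a i ∈ Y) → P a := by
    intro Y
    constructor
    · intro H a ha
      have h1 : ∀ g ∈ (⊥ : Subgroup G), aC pm g a = a := by
        intro g hg
        rw [Subgroup.mem_bot.1 hg, aC_one]
      exact H ⟨(⊥, a, 0), inferInstance, h1⟩ (by
        unfold UY
        rw [Finset.mem_filter]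
        exact ⟨Finset.mem_univ _, ha⟩)
    · intro H c hc
      unfold UY at hc
      rw [Finset.mem_filter] at hc
      exact H _ hc.2
  let F : {Y : {Y : Submodule (ZMod ℓ) (Cl ℓ k) // Iso ℓ k Y} //
      ∀ a : ClW ℓ n k, (∀ i, slc a i ∈ Y.1) → P a} →
      {U : Finset (CG pm ℓ k) // (∀ c ∈ U, ∀ c' ∈ U, c ≠ c' → ¬ lkG pm c c') ∧
      ∑ c ∈ U, muG pm c = 1 ∧ ∀ c ∈ U, P c.1.2.1} := fun Y =>
    ⟨UY pm Y.1.1, fun c hc c' hc' _ => (hu1 Y.1.1 Y.1.2).1 c hc c' hc', (hm3 Y.1.1 Y.1.2).1,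
      (hP Y.1.1).2 Y.2⟩
  have hF : Function.Bijective F := by
    constructor
    · intro Y Y' h
      have h1 := congrArg Subtype.val h
      exact Subtype.ext (Subtype.ext (hu2 _ _ h1))
    · rintro ⟨U, h1, h2, h3⟩
      obtain ⟨Y, hY, rfl⟩ := (hm2 U h1).2 h2
      exact ⟨⟨⟨Y, hY⟩, (hP Y).1 h3⟩, rfl⟩
  rw [← Nat.card_congr (Equiv.ofBijective F hF), Nat.card_eq_fintype_card, Fintype.card_subtype]

/-- the sum does not depend on the instance -/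
lemma sum_inst {ι : Type} (i1 i2 : Fintype ι) (f g : ι → ℂ) (h : ∀ x, f x = g x) :
    @Finset.sum ι ℂ _ (@Finset.univ ι i1) f = @Finset.sum ι ℂ _ (@Finset.univ ι i2) g := by
  have h1 : i1 = i2 := Subsingleton.elim _ _
  subst h1
  exact Finset.sum_congr rfl fun x _ => h x

open Classical in
theorem t_ZMO (hXAN : S_XAN) (hZHI : S_ZHI) (hZCS : S_ZCS) (hZMF : S_ZMF) (hZUY : S_ZUY)
    (hZEX : S_ZEX) (hZMN : S_ZMN) : S_ZMO := by
  intro ℓ n _ hℓ2 K M _ _ _ _ _ _ pm S 𝔪 V _ _ _ av ψ L0 L1 LL π u d1 g t sy hM k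
  letI : Fintype V := Fintype.ofFinite V
  haveI : Finite (Submodule (ZMod ℓ) (Cl ℓ k)) :=
    Finite.of_injective (fun Y : Submodule (ZMod ℓ) (Cl ℓ k) => (Y : Set (Cl ℓ k)))
      SetLike.coe_injective
  letI : Fintype {Y : Submodule (ZMod ℓ) (Cl ℓ k) // Iso ℓ k Y} := Fintype.ofFinite _
  have hℓ : ℓ.Prime := Fact.out
  have hlim : ∀ (X : Fin k → XG pm av L0) (α : L0G av L0) (Z : Fin k → LL),
      Tendsto (fun s : ℝ => CSum S lo (OmG pm (k := k) (ℓ := ℓ)) (lamG pm)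
          (IG pm ψ L0 t sy (hcW π u g (fun s => (X s).1) α.1 Z)) (rhoG pm sy) s /
            ((T0 S s : ℝ) : ℂ)) (𝓝[>] 1)
      (𝓝 (∑ Y : {Y : Submodule (ZMod ℓ) (Cl ℓ k) // Iso ℓ k Y},
        if (∀ a : ClW ℓ n k, (∀ i, slc a i ∈ Y.1) →
          hcW π u g (fun s => (X s).1) α.1 Z a = 0) then 1 else 0)) := by
    intro X α Z
    have hcs := hZCS ℓ n hℓ2 K M pm S 𝔪 V av ψ L0 L1 LL π u d1 g t sy hM k
      (hcW π u g (fun s => (X s).1) α.1 Z) (by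
        intro D a ha γ hγ
        rw [hZHI ℓ n (M ≃ₐ[K] M) pm V av ψ L0 L1 LL π u d1 g hM.lin k X α Z γ a, ha γ hγ])
    have h := hXAN ℓ hℓ K S (Pl M) lo (CG pm ℓ k) (OmG pm) (lamG pm) (muG pm) _ _ _ _ _ _ hcs
    rw [card_eq hZMF hZUY hℓ2 hM.lin.gpm k
      (fun a => hcW π u g (fun s => (X s).1) α.1 Z a = 0)] at h
    have key : ∀ (p : Prop) (i1 i2 : Decidable p), (@ite ℂ p i1 1 0) = (@ite ℂ p i2 1 0) := by
      intro p i1 i2
      by_cases hp : p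
      · rw [if_pos hp, if_pos hp]
      · rw [if_neg hp, if_neg hp]
    refine Eq.subst (motive := fun z => Tendsto _ _ (𝓝 z)) ?_ h
    exact Finset.sum_congr rfl fun Y _ => key _ _ _
  have h1 : ∀ᶠ s : ℝ in 𝓝[>] 1, ((Nat.card (L0G av L0) : ℂ) * (Nat.card (XG pm av L0) : ℂ) ^ k)⁻¹ *
      ∑ X : Fin k → XG pm av L0, ∑ α : L0G av L0, ∑ Z : Fin k → LL,
        ee ℓ ((Nat.card (M ≃ₐ[K] M) : ZMod ℓ)⁻¹ * (- ψ (α.1 : V) d1 +
          ∑ r, ∑ i, ψ (((Z r : Sz ℓ n V) : Fin n → V) i) (((X r).1 : Fin n → L0) i : V))) *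
        (CSum S lo (OmG pm (k := k) (ℓ := ℓ)) (lamG pm)
          (IG pm ψ L0 t sy (hcW π u g (fun s => (X s).1) α.1 Z)) (rhoG pm sy) s /
            ((T0 S s : ℝ) : ℂ)) =
      ((SP (ℓ := ℓ) S (tK t : Pl K → V) d1
        (fun P => (nG pm av ψ L0 LL u g t sy P : ℝ) ^ k) s / T0 S s : ℝ) : ℂ) := by
    filter_upwards [Ioc_mem_nhdsGT (show (1 : ℝ) < 2 by norm_num)] with s hs
    rw [Complex.ofReal_div, hZEX ℓ n hℓ2 K M pm S 𝔪 V av ψ L0 L1 LL π u d1 g t sy hM k s hs.1 hs.2,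
      mul_div_assoc, Finset.sum_div]
    congr 1
    refine Finset.sum_congr rfl fun X _ => ?_
    rw [Finset.sum_div]
    refine Finset.sum_congr rfl fun α _ => ?_
    rw [Finset.sum_div]
    refine Finset.sum_congr rfl fun z _ => ?_
    rw [mul_div_assoc]
  have h2 : Tendsto (fun s : ℝ => ((Nat.card (L0G av L0) : ℂ) * (Nat.card (XG pm av L0) : ℂ) ^ k)⁻¹ *
      ∑ X : Fin k → XG pm av L0, ∑ α : L0G av L0, ∑ Z : Fin k → LL,
        ee ℓ ((Nat.card (M ≃ₐ[K] M) : ZMod ℓ)⁻¹ * (- ψ (α.1 : V) d1 +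
          ∑ r, ∑ i, ψ (((Z r : Sz ℓ n V) : Fin n → V) i) (((X r).1 : Fin n → L0) i : V))) *
        (CSum S lo (OmG pm (k := k) (ℓ := ℓ)) (lamG pm)
          (IG pm ψ L0 t sy (hcW π u g (fun s => (X s).1) α.1 Z)) (rhoG pm sy) s /
            ((T0 S s : ℝ) : ℂ))) (𝓝[>] 1)
      (𝓝 (((Nat.card (L0G av L0) : ℂ) * (Nat.card (XG pm av L0) : ℂ) ^ k)⁻¹ *
      ∑ X : Fin k → XG pm av L0, ∑ α : L0G av L0, ∑ Z : Fin k → LL,
        ee ℓ ((Nat.card (M ≃ₐ[K] M) : ZMod ℓ)⁻¹ * (- ψ (α.1 : V) d1 +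
          ∑ r, ∑ i, ψ (((Z r : Sz ℓ n V) : Fin n → V) i) (((X r).1 : Fin n → L0) i : V))) *
        ∑ Y : {Y : Submodule (ZMod ℓ) (Cl ℓ k) // Iso ℓ k Y},
        if (∀ a : ClW ℓ n k, (∀ i, slc a i ∈ Y.1) →
          hcW π u g (fun s => (X s).1) α.1 Z a = 0) then 1 else 0)) :=
    Tendsto.const_mul _ (tendsto_finset_sum _ fun X _ => tendsto_finset_sum _ fun α _ =>
      tendsto_finset_sum _ fun Z _ => Tendsto.const_mul _ (hlim X α Z))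
  have h3 : ((Nat.card (L0G av L0) : ℂ) * (Nat.card (XG pm av L0) : ℂ) ^ k)⁻¹ *
      ∑ X : Fin k → XG pm av L0, ∑ α : L0G av L0, ∑ Z : Fin k → LL,
        ee ℓ ((Nat.card (M ≃ₐ[K] M) : ZMod ℓ)⁻¹ * (- ψ (α.1 : V) d1 +
          ∑ r, ∑ i, ψ (((Z r : Sz ℓ n V) : Fin n → V) i) (((X r).1 : Fin n → L0) i : V))) *
        (∑ Y : {Y : Submodule (ZMod ℓ) (Cl ℓ k) // Iso ℓ k Y},
        if (∀ a : ClW ℓ n k, (∀ i, slc a i ∈ Y.1) →
          hcW π u g (fun s => (X s).1) α.1 Z a = 0) then 1 else 0) =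
      (((Nat.card (L0G av L0) : ℝ)⁻¹ * ∏ i ∈ Finset.range k, (1 + (ℓ : ℝ) ^ i) : ℝ) : ℂ) := by
    have h4 : ∑ X : Fin k → XG pm av L0, ∑ α : L0G av L0, ∑ Z : Fin k → LL,
        ee ℓ ((Nat.card (M ≃ₐ[K] M) : ZMod ℓ)⁻¹ * (- ψ (α.1 : V) d1 +
          ∑ r, ∑ i, ψ (((Z r : Sz ℓ n V) : Fin n → V) i) (((X r).1 : Fin n → L0) i : V))) *
        (∑ Y : {Y : Submodule (ZMod ℓ) (Cl ℓ k) // Iso ℓ k Y},
        if (∀ a : ClW ℓ n k, (∀ i, slc a i ∈ Y.1) →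
          hcW π u g (fun s => (X s).1) α.1 Z a = 0) then 1 else 0) =
        ∑ Y : {Y : Submodule (ZMod ℓ) (Cl ℓ k) // Iso ℓ k Y},
          ∑ X : Fin k → XG pm av L0, ∑ α : L0G av L0, ∑ Z : Fin k → LL,
          (if ∀ a : ClW ℓ n k, (∀ i, slc a i ∈ Y.1) →
            hcW π u g (fun s => (X s).1) α.1 Z a = 0 then
            ee ℓ ((Nat.card (M ≃ₐ[K] M) : ZMod ℓ)⁻¹ * (- ψ (α.1 : V) d1 +
              ∑ r, ∑ i, ψ (((Z r : Sz ℓ n V) : Fin n → V) i) (((X r).1 : Fin n → L0) i : V)))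
          else 0) := by
      conv_rhs => rw [Finset.sum_comm]
      refine Finset.sum_congr rfl fun X _ => ?_
      conv_rhs => rw [Finset.sum_comm]
      refine Finset.sum_congr rfl fun α _ => ?_
      conv_rhs => rw [Finset.sum_comm]
      refine Finset.sum_congr rfl fun Z _ => ?_
      rw [Finset.mul_sum]
      refine Finset.sum_congr rfl fun Y _ => ?_
      rw [mul_ite, mul_one, mul_zero]
    rw [h4]
    have h5 : ∀ Y : {Y : Submodule (ZMod ℓ) (Cl ℓ k) // Iso ℓ k Y},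
        ∑ X : Fin k → XG pm av L0, ∑ α : L0G av L0, ∑ Z : Fin k → LL,
          (if ∀ a : ClW ℓ n k, (∀ i, slc a i ∈ Y.1) →
            hcW π u g (fun s => (X s).1) α.1 Z a = 0 then
            ee ℓ ((Nat.card (M ≃ₐ[K] M) : ZMod ℓ)⁻¹ * (- ψ (α.1 : V) d1 +
              ∑ r, ∑ i, ψ (((Z r : Sz ℓ n V) : Fin n → V) i) (((X r).1 : Fin n → L0) i : V)))
          else 0) = (Nat.card (XG pm av L0) : ℂ) ^ k := by
      intro Y
      have h6 := hZMN ℓ n hℓ2 (M ≃ₐ[K] M) pm V av ψ L0 L1 LL π u d1 g hM.lin k Y.1 Y.2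
      have key : ∀ (p : Prop) (i1 i2 : Decidable p) (a b : ℂ), (@ite ℂ p i1 a b) = (@ite ℂ p i2 a b) := by
        intro p i1 i2 a b
        by_cases hp : p
        · rw [if_pos hp, if_pos hp]
        · rw [if_neg hp, if_neg hp]
      refine Eq.trans ?_ h6
      exact sum_inst _ _ _ _ fun X => sum_inst _ _ _ _ fun α => sum_inst _ _ _ _ fun Z =>
        key _ _ _ _ _
    rw [Finset.sum_congr rfl fun Y _ => h5 Y, Finset.sum_const, Finset.card_univ,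
      ← Nat.card_eq_fintype_card, (hZUY ℓ n hℓ2 (M ≃ₐ[K] M) pm hM.lin.gpm k).2.2, nsmul_eq_mul]
    have h7 : (Nat.card (XG pm av L0) : ℂ) ≠ 0 := by
      haveI : Nonempty (XG pm av L0) := ⟨⟨0, fun γ i => by
        show ((0 : L0) : V) = av γ ((0 : L0) : V)
        rw [Submodule.coe_zero, map_zero]⟩⟩
      have : 0 < Nat.card (XG pm av L0) := Nat.card_pos
      exact_mod_cast this.ne'
    push_cast
    rw [mul_inv]
    field_simp
  rw [h3] at h2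
  have h8 := h2.congr' h1
  have h9 := (Complex.continuous_re.tendsto _).comp h8
  exact h9

end Pool.Agent.T3h73.SG.ZMO
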