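import Pool.Agent.T3h73.SG.StmM
import Pool.Agent.T3h73.SN.T_ORDW

/-!
# SG/ZOR (helper11): the order of the Selmer group of the model (after SN/ORDW by helper26)
-/

set_option autoImplicit false
set_option linter.all false

open NumberField IsDedekindDomain Filter Topology Finset

namespace Pool.Agent.T3h73.SG.ZOR

open Pool.Agent.T3h73.SL (Pl IsP Pk loc)
open Pool.Agent.T3h73.SD (ee NA gA T0 SymSys SP Cl kap TYPQ S_T0L S_MASS)
open Pool.Agent.T3h73.SN (Sz tens inc ClW slc hcW S_DISTA)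
open Pool.Agent.T3h73.SN.ORDW (inc_add inc_smul inc_zero tens_add tens_smul tens_zero eqn eqn_add
  eqn_smul)

section

variable {ℓ n : ℕ} {K M : Type} [Field K] [NumberField K] [Field M] [NumberField M] [Algebra K M]
  (pm : (M ≃ₐ[K] M) →* Equiv.Perm (Fin n)) {V : Type} [AddCommGroup V] [Module (ZMod ℓ) V]
  (av : (M ≃ₐ[K] M) →* Module.End (ZMod ℓ) V) (ψ : V →ₗ[ZMod ℓ] V →ₗ[ZMod ℓ] ZMod ℓ)
  (L0 : Submodule (ZMod ℓ) V) (LL : Submodule (ZMod ℓ) (Sz ℓ n V)) (u : L0)
  (g : Fin n → Fin n → L0) (t : Pl M → V) (sy : Pl M → Pl M → ZMod ℓ)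

/-- the Selmer group as a submodule -/
def MG (P : Finset (Pl K)) : Submodule (ZMod ℓ) (Sz ℓ n L0 × (Pl M → Sz ℓ n (ZMod ℓ))) where
  carrier := MSelG pm av ψ L0 LL u g t sy P
  add_mem' := by
    rintro x y ⟨hx0, hx0', hx1, hx2, hx3⟩ ⟨hy0, hy0', hy1, hy2, hy3⟩
    refine ⟨fun γ i => ?_, fun γ w i => ?_, fun q hq => ?_, ?_, fun q hq i => ?_⟩
    · show (((x.1 : Fin n → L0) (pm γ i) + (y.1 : Fin n → L0) (pm γ i) : L0) : V) =
        av γ (((x.1 : Fin n → L0) i + (y.1 : Fin n → L0) i : L0) : V)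
      rw [Submodule.coe_add, Submodule.coe_add, map_add]
      exact congrArg₂ _ (hx0 γ i) (hy0 γ i)
    · show (x.2 (gp γ w) : Fin n → ZMod ℓ) (pm γ i) + (y.2 (gp γ w) : Fin n → ZMod ℓ) (pm γ i) =
        (x.2 w : Fin n → ZMod ℓ) i + (y.2 w : Fin n → ZMod ℓ) i
      rw [hx0' γ w i, hy0' γ w i]
    · show x.2 q + y.2 q = 0
      rw [hx1 q hq, hy1 q hq, add_zero]
    · have h1 : inc (x + y).1 + ∑ q ∈ up P, tens ((x + y).2 q) (t q) =
          (inc x.1 + ∑ q ∈ up P, tens (x.2 q) (t q)) +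
            (inc y.1 + ∑ q ∈ up P, tens (y.2 q) (t q)) := by
        have h2 : ∑ q ∈ up P, tens ((x + y).2 q) (t q) =
            ∑ q ∈ up P, tens (x.2 q) (t q) + ∑ q ∈ up P, tens (y.2 q) (t q) := by
          rw [← Finset.sum_add_distrib]
          exact sum_congr rfl fun q _ => tens_add (x.2 q) (y.2 q) (t q)
        have h3 : inc (x + y).1 = inc x.1 + inc y.1 := inc_add x.1 y.1
        rw [h2, h3]
        abel
      rw [h1]
      exact LL.add_mem hx2 hy2
    · have h1 := eqn_add ψ L0 u g t sy (up P) q i x y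
      have h2 : eqn ψ L0 u g t sy (up P) q i x = 0 := hx3 q hq i
      have h3 : eqn ψ L0 u g t sy (up P) q i y = 0 := hy3 q hq i
      rw [h2, h3, add_zero] at h1
      exact h1
  zero_mem' := by
    refine ⟨fun γ i => ?_, fun γ w i => rfl, fun q _ => rfl, ?_, fun q hq i => ?_⟩
    · show ((0 : L0) : V) = av γ ((0 : L0) : V)
      rw [Submodule.coe_zero, map_zero]
    · have h1 : inc (0 : Sz ℓ n L0 × (Pl M → Sz ℓ n (ZMod ℓ))).1 +
          ∑ q ∈ up P, tens ((0 : Sz ℓ n L0 × (Pl M → Sz ℓ n (ZMod ℓ))).2 q) (t q) = 0 := by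
        rw [show (0 : Sz ℓ n L0 × (Pl M → Sz ℓ n (ZMod ℓ))).1 = 0 from rfl, inc_zero, zero_add]
        exact sum_eq_zero fun q _ => tens_zero (t q)
      rw [h1]
      exact LL.zero_mem
    · have h1 := eqn_smul ψ L0 u g t sy (up P) q i 0 0
      rw [smul_zero, zero_mul] at h1
      exact h1
  smul_mem' := by
    rintro a x ⟨hx0, hx0', hx1, hx2, hx3⟩
    refine ⟨fun γ i => ?_, fun γ w i => ?_, fun q hq => ?_, ?_, fun q hq i => ?_⟩
    · show ((a • (x.1 : Fin n → L0) (pm γ i) : L0) : V) =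
        av γ ((a • (x.1 : Fin n → L0) i : L0) : V)
      rw [Submodule.coe_smul, Submodule.coe_smul, map_smul]
      exact congrArg _ (hx0 γ i)
    · show a * (x.2 (gp γ w) : Fin n → ZMod ℓ) (pm γ i) = a * (x.2 w : Fin n → ZMod ℓ) i
      rw [hx0' γ w i]
    · show a • x.2 q = 0
      rw [hx1 q hq, smul_zero]
    · have h1 : inc (a • x).1 + ∑ q ∈ up P, tens ((a • x).2 q) (t q) =
          a • (inc x.1 + ∑ q ∈ up P, tens (x.2 q) (t q)) := by
        rw [smul_add, Finset.smul_sum]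
        congr 1
        exact sum_congr rfl fun q _ => tens_smul a (x.2 q) (t q)
      rw [h1]
      exact LL.smul_mem a hx2
    · have h1 := eqn_smul ψ L0 u g t sy (up P) q i a x
      have h2 : eqn ψ L0 u g t sy (up P) q i x = 0 := hx3 q hq i
      rw [h2, mul_zero] at h1
      exact h1

theorem nG_eq (P : Finset (Pl K)) :
    nG pm av ψ L0 LL u g t sy P = Nat.card (MG pm av ψ L0 LL u g t sy P) := rfl

/-- the injection in a finite set -/
def inj (P : Finset (Pl K)) (x : MG pm av ψ L0 LL u g t sy P) :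
    (Fin n → V) × (↥(up P : Finset (Pl M)) → Fin n → ZMod ℓ) :=
  (fun i => ((x.1.1 : Fin n → L0) i : V), fun q i => (x.1.2 q : Fin n → ZMod ℓ) i)

theorem inj_inj (hup : ∀ (P : Finset (Pl K)) (w : Pl M), w ∈ up P ↔ (lo w : Pl K) ∈ P)
    (P : Finset (Pl K)) : Function.Injective (inj pm av ψ L0 LL u g t sy P) := by
  intro x y h
  have h1 : (fun i => ((x.1.1 : Fin n → L0) i : V)) = fun i => ((y.1.1 : Fin n → L0) i : V) :=
    congrArg Prod.fst h
  have h2 : (fun (q : ↥(up P : Finset (Pl M))) i => (x.1.2 q : Fin n → ZMod ℓ) i) =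
      fun (q : ↥(up P : Finset (Pl M))) i => (y.1.2 q : Fin n → ZMod ℓ) i := congrArg Prod.snd h
  apply Subtype.ext
  apply Prod.ext
  · apply Subtype.ext
    funext i
    exact Subtype.ext (congrFun h1 i)
  · funext q
    by_cases hq : q ∈ (up P : Finset (Pl M))
    · apply Subtype.ext
      funext i
      exact congrFun (congrFun h2 ⟨q, hq⟩) i
    · have hq' : (lo q : Pl K) ∉ P := fun h => hq ((hup P q).2 h)
      rw [x.2.2.2.1 q hq', y.2.2.2.1 q hq']

theorem card_cod [Fact ℓ.Prime] [Finite V] (P : Finset (Pl K)) :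
    Nat.card ((Fin n → V) × (↥(up P : Finset (Pl M)) → Fin n → ZMod ℓ)) =
      Nat.card V ^ n * ℓ ^ (n * (up P : Finset (Pl M)).card) := by
  rw [Nat.card_prod, Nat.card_fun, Nat.card_fun, Nat.card_fun, Nat.card_eq_fintype_card (α := Fin n),
    Fintype.card_fin, Nat.card_zmod, Nat.card_eq_fintype_card (α := ↥(up P : Finset (Pl M))),
    Fintype.card_coe, pow_mul]

end

/-- the number of the places above `P` -/
theorem card_up {K M : Type} [Field K] [NumberField K] [Field M] [NumberField M] [Algebra K M]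
    (hup : ∀ (P : Finset (Pl K)) (w : Pl M), w ∈ up P ↔ (lo w : Pl K) ∈ P) {c : ℕ}
    (hc : ∀ q : Pl K, {w : Pl M | (lo w : Pl K) = q}.Finite ∧
      {w : Pl M | (lo w : Pl K) = q}.ncard ≤ c) (P : Finset (Pl K)) :
    (up P : Finset (Pl M)).card ≤ c * P.card := by
  classical
  have h1 : (up P : Finset (Pl M)).card =
      ∑ q ∈ P, ((up P : Finset (Pl M)).filter fun w => (lo w : Pl K) = q).card :=
    Finset.card_eq_sum_card_fiberwise fun w hw => (hup P w).1 hw
  rw [h1, mul_comm, ← smul_eq_mul]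
  refine Finset.sum_le_card_nsmul _ _ _ fun q hq => ?_
  refine le_trans ?_ (hc q).2
  rw [← Set.ncard_coe_finset]
  refine Set.ncard_le_ncard ?_ (hc q).1
  intro w hw
  exact (Finset.mem_filter.1 (Finset.mem_coe.1 hw)).2

/-- ZOR -/
theorem t_ZOR (hPLC : S_PLC) : S_ZOR := by
  intro ℓ n _ K M _ _ _ _ _ _ pm V _ _ _ av ψ L0 LL u g t sy
  obtain ⟨-, -, -, -, -, -, hup, ⟨c, hc⟩, -, -⟩ := hPLC K M
  have hpos : 0 < ℓ := (Fact.out : ℓ.Prime).pos
  constructor
  · intro P
    haveI hfin : Finite (MG pm av ψ L0 LL u g t sy P) :=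
      Finite.of_injective _ (inj_inj pm av ψ L0 LL u g t sy hup P)
    rw [nG_eq, Module.natCard_eq_pow_finrank (K := ZMod ℓ), Nat.card_zmod]
    exact ⟨_, rfl⟩
  · refine ⟨Nat.card V ^ n, ℓ ^ (n * c), fun P => ?_⟩
    rw [nG_eq]
    refine (Nat.card_le_card_of_injective _ (inj_inj pm av ψ L0 LL u g t sy hup P)).trans ?_
    rw [card_cod, ← pow_mul]
    refine Nat.mul_le_mul_left _ (Nat.pow_le_pow_right hpos ?_)
    rw [mul_assoc]
    exact Nat.mul_le_mul_left _ (card_up hup hc P)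

end Pool.Agent.T3h73.SG.ZOR
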