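import Pool.Agent.T3h73.SG.StmM

/-!
# SG/ZTY (helper11): the proportion for one type (after SN/TYPW by helper26)
-/

set_option autoImplicit false
set_option linter.all false

open NumberField IsDedekindDomain Filter Topology Finset

namespace Pool.Agent.T3h73.SG.ZTY

open Pool.Agent.T3h73.SL (Pl IsP Pk loc)
open Pool.Agent.T3h73.SD (ee NA gA T0 SymSys SP Cl kap TYPQ S_T0L S_MASS Gs Tw)
open Pool.Agent.T3h73.SN (Sz tens inc ClW slc hcW S_DISTA)
open Pool.Agent.Y713.SE (Pw)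

theorem Pw_one (ℓ : ℕ) : Pw ℓ 1 := ⟨1, by rw [one_pow]⟩

theorem exp_mul : (WithZero.exp (-1 : ℤ) : WithZero (Multiplicative ℤ)) * WithZero.exp (1 : ℤ) = 1 := by
  rw [← WithZero.exp_add, neg_add_cancel, WithZero.exp_zero]

open Classical in
/-- ZTY -/
theorem t_ZTY (hPLC : S_PLC) (hZMO : S_ZMO) (hDISTA : S_DISTA) (hZOR : S_ZOR)
    (hT0L : Pool.Agent.T3h73.SD.S_T0L) : S_ZTY := by
  intro ℓ n hℓ hℓ2 K M _ _ _ _ _ _ pm Q hMDL
  haveI : Fact ℓ.Prime := ⟨hℓ⟩
  obtain ⟨T₀, hT₀⟩ := hMDL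
  refine ⟨T₀, fun S hS => ⟨?_, fun η => ?_⟩⟩
  · obtain ⟨𝔪, V, _, _, _, av, ψ, L0, L1, LL, π, u, d1, g, t, sy, hM, h2, h3, h4⟩ := hT₀ S hS 1
    exact h4
  obtain ⟨𝔪, V, _, _, _, av, ψ, L0, L1, LL, π, u, d1, g, t, sy, hM, h2, h3, h4⟩ := hT₀ S hS η
  have hG : ∀ P, P ∈ Gs ℓ S η ↔ Disjoint P S ∧ ∑ q ∈ P, (tK t q : V) = d1 := by
    intro P
    constructor
    · rintro ⟨hd, δ, a, b, c⟩
      exact ⟨hd, (h2 δ P a hd b c).1⟩
    · rintro ⟨hd, hs⟩
      obtain ⟨δ, a, b, c⟩ := h3 P hd hs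
      refine ⟨hd, δ, a, fun v hv => ?_, fun v hv hv' => ?_⟩
      · rw [b v hv, exp_mul]
        exact Pw_one ℓ
      · rw [c v hv hv']
        exact Pw_one ℓ
  have hsum : ∀ s : ℝ, ∑' P : Finset (Pl K), (if P ∈ Gs ℓ S η then (NA P : ℝ) ^ (-s) else 0) =
      SP (ℓ := ℓ) S (tK t : Pl K → V) d1 (fun _ => 1) s := by
    intro s
    unfold SP
    refine tsum_congr fun P => ?_
    by_cases h : P ∈ Gs ℓ S η
    · rw [if_pos h, if_pos ((hG P).1 h), mul_one]
    · rw [if_neg h, if_neg fun h' => h ((hG P).2 h')]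
  obtain ⟨c0, s₀, hc0, hs₀, hT⟩ := hT0L K S
  have hev : ∀ᶠ s : ℝ in 𝓝[>] 1, 1 < s ∧ s < s₀ := by
    filter_upwards [Ioo_mem_nhdsGT hs₀] with s hs
    exact ⟨hs.1, hs.2⟩
  have hT0 : ∀ᶠ s : ℝ in 𝓝[>] 1, 0 < T0 S s := by
    filter_upwards [hev] with s hs
    have h := (hT s hs.1 hs.2).2
    have h' : 0 < c0 / (s - 1) := div_pos hc0 (by linarith [hs.1])
    linarith
  have hcard : (0 : ℝ) < Nat.card (L0G av L0) := by
    haveI : Nonempty (L0G av L0) := ⟨⟨0, fun γ => by rw [Submodule.coe_zero, map_zero]⟩⟩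
    haveI : Finite (L0G av L0) := inferInstance
    have : 0 < Nat.card (L0G av L0) := Nat.card_pos
    exact_mod_cast this
  constructor
  · have h5 := hZMO ℓ n hℓ2 K M pm S 𝔪 V av ψ L0 L1 LL π u d1 g t sy hM 0
    simp only [pow_zero, Finset.range_zero, Finset.prod_empty, mul_one] at h5
    have h6 : (Nat.card (L0G av L0) : ℝ)⁻¹ / 2 < (Nat.card (L0G av L0) : ℝ)⁻¹ := by
      have := inv_pos.2 hcard
      linarith
    refine ⟨(Nat.card (L0G av L0) : ℝ)⁻¹ / 2, by positivity, ?_⟩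
    filter_upwards [h5.eventually (lt_mem_nhds h6), hT0] with s h7 h8
    rw [hsum s]
    rw [lt_div_iff₀ h8] at h7
    exact h7.le
  · intro ε hε
    obtain ⟨hord1, hord2⟩ := hZOR ℓ n K M pm V av ψ L0 LL u g t sy
    have h5 := hDISTA ℓ hℓ2 K S V (tK t : Pl K → V) d1 (nG pm av ψ L0 LL u g t sy) 1
      ((Nat.card (L0G av L0) : ℝ)⁻¹)
      one_pos (inv_pos.2 hcard) (fun P hP1 hP2 hP3 => by
        obtain ⟨r, hr⟩ := hord1 P
        exact ⟨r, by rw [hr, one_mul]⟩)
      hord2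
      (fun k => by
        have := hZMO ℓ n hℓ2 K M pm S 𝔪 V av ψ L0 L1 LL π u d1 g t sy hM k
        rw [Nat.cast_one, one_pow, one_mul]
        exact this) ε hε
    filter_upwards [h5, hev] with s h6 h7
    rw [hsum s]
    refine h6.trans ?_
    have hsm := (hT s h7.1 h7.2).1
    have h0 : ∀ P : Finset (Pl K), 0 ≤ (NA P : ℝ) ^ (-s) := fun P =>
      Real.rpow_nonneg (Nat.cast_nonneg _) _
    unfold SP
    refine Summable.tsum_le_tsum (fun P => ?_) ?_ ?_
    · beta_reduce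
      by_cases h : Disjoint P S ∧ ∑ q ∈ P, (tK t q : V) = d1
      · rw [if_pos h]
        by_cases h' : P.Nonempty ∧ nG pm av ψ L0 LL u g t sy P = 1
        · rw [if_pos h', mul_one, if_pos]
          refine ⟨(hG P).2 h, fun δ hδ => ?_⟩
          exact (h2 δ P hδ.1 h.1 hδ.2.1 hδ.2.2).2 h'.1 h'.2
        · rw [if_neg h', mul_zero]
          split_ifs
          · exact h0 P
          · exact le_rfl
      · rw [if_neg h]
        split_ifs
        · exact h0 P
        · exact le_rfl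
    · refine Summable.of_nonneg_of_le (fun P => ?_) (fun P => ?_) hsm
      · beta_reduce
        split_ifs
        · rw [mul_one]
          exact h0 P
        · rw [mul_zero]
        · exact le_rfl
      · beta_reduce
        split_ifs
        · rw [mul_one]
        · rw [mul_zero]
          exact h0 P
        · exact h0 P
    · refine Summable.of_nonneg_of_le (fun P => ?_) (fun P => ?_) hsm
      · split_ifs
        · exact h0 P
        · exact le_rfl
      · split_ifs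
        · exact le_rfl
        · exact h0 P

end Pool.Agent.T3h73.SG.ZTY
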