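import Pool.Agent.T3h73.SG.ZB7

/-!
# Project SG, task ZUN (helper7): unlinked sets of colours
-/

set_option autoImplicit false
set_option linter.all false

open Module

namespace Pool.Agent.T3h73.SG.ZUN

open Pool.Agent.T3h73.SD (Cl)
open Pool.Agent.T3h73.SN (Sz ClW slc)
open Pool.Agent.T3h73.SG.ZB7

section
variable {ℓ k : ℕ} [Fact ℓ.Prime]

lemma BL_span {S T : Set (Cl ℓ k)} (h : ∀ s ∈ S, ∀ t ∈ T, BL ℓ k s t = 0) :
    ∀ s ∈ Submodule.span (ZMod ℓ) S, ∀ t ∈ Submodule.span (ZMod ℓ) T, BL ℓ k s t = 0 := by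
  intro s hs t ht
  induction hs using Submodule.span_induction with
  | mem s hs =>
    induction ht using Submodule.span_induction with
    | mem t ht => exact h s hs t ht
    | zero => rw [map_zero]
    | add x y _ _ hx hy => rw [map_add, hx, hy, add_zero]
    | smul c x _ hx => rw [map_smul, hx, smul_zero]
  | zero => rw [map_zero, LinearMap.zero_apply]
  | add x y _ _ hx hy => rw [map_add, LinearMap.add_apply, hx, hy, add_zero]
  | smul c x _ hx => rw [map_smul, LinearMap.smul_apply, hx, smul_zero]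

lemma exists_aniso (h2 : ℓ ≠ 2) {ι : Type} (v : ι → Cl ℓ k)
    (h : ¬ ∀ i j, BL ℓ k (v i) (v j) = 0) :
    ∃ w ∈ Submodule.span (ZMod ℓ) (Set.range v), BL ℓ k w w ≠ 0 := by
  by_contra hcon
  push Not at hcon
  apply h
  intro i j
  have hi : v i ∈ Submodule.span (ZMod ℓ) (Set.range v) :=
    Submodule.subset_span (Set.mem_range_self i)
  have hj : v j ∈ Submodule.span (ZMod ℓ) (Set.range v) :=
    Submodule.subset_span (Set.mem_range_self j)
  have h1 := hcon _ (Submodule.add_mem _ hi hj)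
  simp only [map_add, LinearMap.add_apply, hcon _ hi, hcon _ hj, zero_add, add_zero,
    BL_symm (v j) (v i), ← two_mul] at h1
  exact (mul_eq_zero.mp h1).resolve_left (Pool.Agent.T3h73.SN.GDUW.two_ne h2)

/-- the dimension count -/
lemma dim_count (Y : Submodule (ZMod ℓ) (Cl ℓ k)) (hY : ∀ x ∈ Y, ∀ y ∈ Y, BL ℓ k x y = 0)
    {ι : Type} [Fintype ι] (w : ι → Cl ℓ k) (hw : ∀ i, BL ℓ k (w i) (w i) ≠ 0)
    (hww : ∀ i j, i ≠ j → BL ℓ k (w i) (w j) = 0) (hwY : ∀ i, ∀ y ∈ Y, BL ℓ k y (w i) = 0) :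
    2 * finrank (ZMod ℓ) Y + Fintype.card ι ≤ 2 * k := by
  classical
  set W := Submodule.span (ZMod ℓ) (Set.range w) with hW
  have h1 : LinearIndependent (ZMod ℓ) w :=
    LinearMap.BilinForm.linearIndependent_of_iIsOrtho (B := BL ℓ k)
      (LinearMap.BilinForm.iIsOrtho_def.mpr hww) hw
  have h2 : finrank (ZMod ℓ) W = Fintype.card ι := finrank_span_eq_card h1
  have h3 : Y ⊓ W = ⊥ := by
    rw [eq_bot_iff]
    rintro z ⟨hzY, hzW⟩
    obtain ⟨c, hc⟩ := (Submodule.mem_span_range_iff_exists_fun (ZMod ℓ)).mp hzW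
    have h4 : ∀ j, c j = 0 := by
      intro j
      have h5 := hwY j z hzY
      rw [← hc, map_sum, LinearMap.sum_apply, Finset.sum_eq_single j] at h5
      · rw [map_smul, LinearMap.smul_apply, smul_eq_mul] at h5
        exact (mul_eq_zero.mp h5).resolve_right (hw j)
      · intro i _ hij
        rw [map_smul, LinearMap.smul_apply, hww i j hij, smul_zero]
      · intro h6
        exact absurd (Finset.mem_univ j) h6
    rw [Submodule.mem_bot, ← hc]
    exact Finset.sum_eq_zero fun i _ => by rw [h4 i, zero_smul]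
  have h5 : Y ⊔ W ≤ (BL ℓ k).orthogonal Y := by
    refine sup_le (fun y hy x hx => hY x hx y hy) (Submodule.span_le.mpr ?_)
    rintro _ ⟨i, rfl⟩ x hx
    exact hwY i x hx
  have h6 := Submodule.finrank_sup_add_finrank_inf_eq Y W
  rw [h3, finrank_bot, add_zero, h2] at h6
  have h7 := Submodule.finrank_mono h5
  rw [LinearMap.BilinForm.finrank_orthogonal BL_nondeg, finrank_Cl] at h7
  have h8 : finrank (ZMod ℓ) Y ≤ 2 * k := by
    rw [← finrank_Cl (ℓ := ℓ)]
    exact Submodule.finrank_le Y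
  omega

end

lemma pow_ge (w : ℕ) (hw : 3 ≤ w) (j : ℕ) : 1 + 2 * j ≤ w ^ j := by
  induction j with
  | zero => simp
  | succ j ih =>
    rw [pow_succ]
    nlinarith

lemma num (w r k m : ℕ) (hw : 3 ≤ w) (h : 2 * r + m ≤ 2 * k) :
    2 * w ^ r + m ≤ 2 * w ^ k ∧ (r < k → 2 * w ^ r + m < 2 * w ^ k) := by
  obtain ⟨j, rfl⟩ : ∃ j, k = r + j := ⟨k - r, by omega⟩
  have h1 := pow_ge w hw j
  have h2 : 1 ≤ w ^ r := Nat.one_le_pow _ _ (by omega)
  have h3 : w ^ r + 2 * j ≤ w ^ (r + j) := by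
    rw [pow_add]
    nlinarith
  constructor
  · omega
  · intro h4
    omega

theorem t_ZUN : S_ZUN := by
  intro ℓ n hp h2 G _ _ pm hG k U hU
  classical
  have hun : ∀ x ∈ U, ∀ y ∈ U, x ≠ y →
      ∀ i j, BL ℓ k (slc x.1.2.1 i) (slc y.1.2.1 j) = 0 := by
    intro x hx y hy hxy
    have h3 := hU x hx y hy hxy
    unfold lkG at h3
    push Not at h3
    exact (key hG _ _ h3).2
  set I : Finset (CG pm ℓ k) := U.filter fun x =>
    ∀ i j, BL ℓ k (slc x.1.2.1 i) (slc x.1.2.1 j) = 0 with hI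
  set Bd : Finset (CG pm ℓ k) := U.filter fun x =>
    ¬ ∀ i j, BL ℓ k (slc x.1.2.1 i) (slc x.1.2.1 j) = 0 with hBd
  set Y : Submodule (ZMod ℓ) (Cl ℓ k) :=
    Submodule.span (ZMod ℓ) {y | ∃ x ∈ I, ∃ i, slc x.1.2.1 i = y} with hYd
  have hIY : ∀ x ∈ I, ∀ i, slc x.1.2.1 i ∈ Y := fun x hx i =>
    Submodule.subset_span ⟨x, hx, i, rfl⟩
  have hYY : ∀ x ∈ Y, ∀ y ∈ Y, BL ℓ k x y = 0 := by
    apply BL_span
    rintro _ ⟨x, hx, i, rfl⟩ _ ⟨y, hy, j, rfl⟩
    by_cases hxy : x = y
    · subst hxy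
      exact (Finset.mem_filter.mp hx).2 i j
    · exact hun x (Finset.mem_filter.mp hx).1 y (Finset.mem_filter.mp hy).1 hxy i j
  have hex : ∀ x : Bd, ∃ w ∈ Submodule.span (ZMod ℓ) (Set.range (fun i => slc x.1.1.2.1 i)),
      BL ℓ k w w ≠ 0 := fun x =>
    exists_aniso h2 (fun i => slc x.1.1.2.1 i) (Finset.mem_filter.mp x.2).2
  choose w hw1 hw2 using hex
  have hww : ∀ x y : Bd, x ≠ y → BL ℓ k (w x) (w y) = 0 := by
    intro x y hxy
    refine BL_span ?_ _ (hw1 x) _ (hw1 y)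
    rintro _ ⟨i, rfl⟩ _ ⟨j, rfl⟩
    exact hun x.1 (Finset.mem_filter.mp x.2).1 y.1 (Finset.mem_filter.mp y.2).1
      (fun h => hxy (Subtype.ext h)) i j
  have hwY : ∀ x : Bd, ∀ y ∈ Y, BL ℓ k y (w x) = 0 := by
    intro x y hy
    refine BL_span ?_ _ hy _ (hw1 x)
    rintro _ ⟨z, hz, i, rfl⟩ _ ⟨j, rfl⟩
    refine hun z (Finset.mem_filter.mp hz).1 x.1 (Finset.mem_filter.mp x.2).1 ?_ i j
    rintro rfl
    exact (Finset.mem_filter.mp x.2).2 (Finset.mem_filter.mp hz).2
  have hdim := dim_count Y hYY w hw2 hww hwY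
  rw [Fintype.card_coe] at hdim
  have hle : ∀ D : Subgroup G, IsCyclic D → (U.filter fun x => x.1.1 = D).card ≤
      2 * wD pm ℓ D ^ finrank (ZMod ℓ) Y + (Bd.filter fun x => x.1.1 = D).card := by
    intro D hD
    have h3 : (U.filter fun x => x.1.1 = D) ⊆
        ((UY pm Y).filter fun x => x.1.1 = D) ∪ (Bd.filter fun x => x.1.1 = D) := by
      intro x hx
      obtain ⟨hx1, hx2⟩ := Finset.mem_filter.mp hx
      rw [Finset.mem_union]
      by_cases h4 : ∀ i j, BL ℓ k (slc x.1.2.1 i) (slc x.1.2.1 j) = 0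
      · left
        refine Finset.mem_filter.mpr ⟨Finset.mem_filter.mpr ⟨Finset.mem_univ _, ?_⟩, hx2⟩
        exact hIY x (Finset.mem_filter.mpr ⟨hx1, h4⟩)
      · right
        exact Finset.mem_filter.mpr ⟨Finset.mem_filter.mpr ⟨hx1, h4⟩, hx2⟩
    refine (Finset.card_le_card h3).trans ((Finset.card_union_le _ _).trans ?_)
    rw [card_UY D hD]
  have hBle : ∀ D : Subgroup G, (Bd.filter fun x => x.1.1 = D).card ≤ Bd.card := fun D =>
    Finset.card_le_card (Finset.filter_subset _ _)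
  constructor
  · intro D hD
    refine (hle D hD).trans ?_
    by_cases h3 : (Bd.filter fun x => x.1.1 = D) = ∅
    · rw [h3, Finset.card_empty, add_zero]
      exact Nat.mul_le_mul_left _ (Nat.pow_le_pow_right (wD_pos D) (by omega))
    · obtain ⟨x, hx⟩ := Finset.nonempty_iff_ne_empty.mpr h3
      obtain ⟨hx1, hx2⟩ := Finset.mem_filter.mp hx
      have h4 : 3 ≤ wD pm ℓ D := by
        refine (three_le h2).trans ?_
        have h5 : x.1.2.1 ≠ 0 := by
          intro h6
          apply (Finset.mem_filter.mp hx1).2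
          intro i j
          rw [h6, show slc (0 : ClW ℓ n k) i = 0 from rfl, map_zero, LinearMap.zero_apply]
        have h6 : (∃ s, x.1.2.1.1 s ≠ 0) ∨ ∃ s, x.1.2.1.2 s ≠ 0 := by
          by_contra h7
          push Not at h7
          exact h5 (Prod.ext (funext h7.1) (funext h7.2))
        rcases h6 with ⟨s, hs⟩ | ⟨s, hs⟩
        · refine le_wD D _ hs fun g hg => ?_
          have h8 := x.2.2 g (by rw [hx2]; exact hg)
          exact congrFun (congrArg Prod.fst h8) s
        · refine le_wD D _ hs fun g hg => ?_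
          have h8 := x.2.2 g (by rw [hx2]; exact hg)
          exact congrFun (congrArg Prod.snd h8) s
      refine (num (wD pm ℓ D) (finrank (ZMod ℓ) Y) k _ h4 ?_).1
      have := hBle D
      omega
  · intro heq
    have hrk : finrank (ZMod ℓ) Y = k := by
      by_contra hne
      have hlt : finrank (ZMod ℓ) Y < k := by omega
      have h4 : 3 ≤ wD pm ℓ (⊥ : Subgroup G) := by
        refine (three_le h2).trans ?_
        obtain ⟨m, rfl⟩ : ∃ m, n = m + 2 := ⟨n - 2, by have := hG.hn2; omega⟩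
        refine le_wD ⊥ ((Pool.Agent.T3h73.SN.GDUW.emb ℓ k m ((fun _ => 1), 0)).1
          ⟨0, by omega⟩) ?_ ?_
        · intro h5
          have h6 := congrFun (congrArg Subtype.val h5) 0
          exact one_ne_zero h6
        · intro g hg
          rw [Subgroup.mem_bot.mp hg]
          apply Subtype.ext
          funext i
          show _ = _
          simp only [aW, map_one, inv_one, Equiv.Perm.one_apply]
      have h5 := (num (wD pm ℓ (⊥ : Subgroup G)) (finrank (ZMod ℓ) Y) k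
        (Bd.filter fun x => x.1.1 = (⊥ : Subgroup G)).card h4
        (by have := hBle (⊥ : Subgroup G); omega)).2 hlt
      have h6 := hle ⊥ inferInstance
      have h7 := heq ⊥ inferInstance
      omega
    have hB0 : Bd = ∅ := by
      rw [← Finset.card_eq_zero]
      omega
    have hsub : U ⊆ UY pm Y := by
      intro x hx
      refine Finset.mem_filter.mpr ⟨Finset.mem_univ _, hIY x (Finset.mem_filter.mpr ⟨hx, ?_⟩)⟩
      by_contra h3
      have h4 : x ∈ Bd := Finset.mem_filter.mpr ⟨hx, h3⟩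
      rw [hB0] at h4
      exact Finset.notMem_empty _ h4
    refine ⟨Y, ⟨hYY, hrk⟩, Finset.Subset.antisymm hsub ?_⟩
    intro x hx
    have h3 : (U.filter fun y => y.1.1 = x.1.1) = ((UY pm Y).filter fun y => y.1.1 = x.1.1) := by
      refine Finset.eq_of_subset_of_card_le (Finset.filter_subset_filter _ hsub) ?_
      rw [card_UY _ x.2.1, hrk, heq _ x.2.1]
    have h4 : x ∈ (UY pm Y).filter fun y => y.1.1 = x.1.1 := Finset.mem_filter.mpr ⟨hx, rfl⟩
    rw [← h3] at h4
    exact (Finset.mem_filter.mp h4).1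

end Pool.Agent.T3h73.SG.ZUN
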