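import Pool.Agent.T3h73.SG.ZB7

/-!
# Project SG, task ZUY (helper7): the maximal unlinked sets of colours and their number
-/

set_option autoImplicit false
set_option linter.all false

open Module

namespace Pool.Agent.T3h73.SG.ZUY

open Pool.Agent.T3h73.SD (Cl)
open Pool.Agent.T3h73.SN (Sz ClW slc)
open Pool.Agent.T3h73.SG.ZB7
open Pool.Agent.T3h73.SN.GDUW (emb emb_mem mem_XW card_Lag)

theorem t_ZUY (hUNL : Pool.Agent.T3h73.SD.S_UNL) (hCNTU : Pool.Agent.T3h73.SD.S_CNTU) :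
    S_ZUY := by
  intro ℓ n hp h2 G _ _ pm hG k
  refine ⟨fun Y hY => ⟨?_, ?_⟩, ?_, ?_⟩
  · intro x hx y hy
    rintro ⟨g, hg⟩
    apply hg
    rw [QW_eq]
    refine Finset.sum_eq_zero fun i _ => ?_
    have h3 : slc (aC pm g x.1.2.1 - y.1.2.1) i ∈ Y := by
      rw [slc_sub, slc_aC]
      exact Y.sub_mem (mem_UY.mp hx _) (mem_UY.mp hy _)
    exact qf_zero h2 _ (hY.1 _ h3 _ h3)
  · intro D hD
    rw [card_UY D hD, hY.2]
  · intro Y Y' hYY
    obtain ⟨m, rfl⟩ : ∃ m, n = m + 2 := ⟨n - 2, by have := hG.hn2; omega⟩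
    let f : Cl ℓ k → CG pm ℓ k := fun y => ⟨(⊥, emb ℓ k m y, 0), inferInstance, fun g hg => by
      rw [Subgroup.mem_bot.mp hg]
      exact aC_one _⟩
    have h3 : ∀ (Z : Submodule (ZMod ℓ) (Cl ℓ k)) (y : Cl ℓ k), f y ∈ UY pm Z ↔ y ∈ Z := by
      intro Z y
      rw [← emb_mem (n := m) Z y, mem_XW]
      exact mem_UY
    ext y
    rw [← h3 Y y, ← h3 Y' y, hYY]
  · exact card_Lag h2 hUNL hCNTU k

end Pool.Agent.T3h73.SG.ZUY
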