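import Pool.Agent.T3h73.SG.Asm
import Pool.Agent.T3h73.SG.Symm
import Pool.Agent.T3h73.SG.T_DAV
import Pool.Agent.T3h73.SG.T_DCR
import Pool.Agent.T3h73.SG.T_DKU
import Pool.Agent.T3h73.SG.T_DLC
import Pool.Agent.T3h73.SG.T_DMN
import Pool.Agent.T3h73.SG.T_DPK
import Pool.Agent.T3h73.SG.T_DRD
import Pool.Agent.T3h73.SG.T_DTR
import Pool.Agent.T3h73.SG.T_GSM
import Pool.Agent.T3h73.SG.T_LUD
import Pool.Agent.T3h73.SG.T_PLC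
import Pool.Agent.T3h73.SG.T_PLE
import Pool.Agent.T3h73.SG.T_PSB
import Pool.Agent.T3h73.SG.T_RST
import Pool.Agent.T3h73.SG.T_VDI
import Pool.Agent.T3h73.SG.T_VEQ
import Pool.Agent.T3h73.SG.T_VGN
import Pool.Agent.T3h73.SG.T_VLG
import Pool.Agent.T3h73.SG.T_VLL
import Pool.Agent.T3h73.SG.T_VM1
import Pool.Agent.T3h73.SG.T_VM2
import Pool.Agent.T3h73.SG.T_VM3
import Pool.Agent.T3h73.SG.T_VNP
import Pool.Agent.T3h73.SG.T_VTR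
import Pool.Agent.T3h73.SG.T_VUN
import Pool.Agent.T3h73.SG.T_XAN
import Pool.Agent.T3h73.SG.T_XAN1
import Pool.Agent.T3h73.SG.T_XAN2
import Pool.Agent.T3h73.SG.T_XAN3
import Pool.Agent.T3h73.SG.T_XMAS
import Pool.Agent.T3h73.SG.T_XTUP
import Pool.Agent.T3h73.SG.T_YBL
import Pool.Agent.T3h73.SG.T_YDN
import Pool.Agent.T3h73.SG.T_YEU
import Pool.Agent.T3h73.SG.T_ZBL
import Pool.Agent.T3h73.SG.T_ZCS
import Pool.Agent.T3h73.SG.T_ZEU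
import Pool.Agent.T3h73.SG.T_ZEX
import Pool.Agent.T3h73.SG.T_ZHI
import Pool.Agent.T3h73.SG.T_ZMF
import Pool.Agent.T3h73.SG.T_ZMN
import Pool.Agent.T3h73.SG.T_ZMO
import Pool.Agent.T3h73.SG.T_ZOR
import Pool.Agent.T3h73.SG.T_ZTY
import Pool.Agent.T3h73.SG.T_ZUN
import Pool.Agent.T3h73.SG.T_ZUY
import Pool.Agent.T3h73.SL.T_NB
import Pool.Agent.T3h73.SL.T_WA
import Pool.Agent.T3h73.SN.All

/-! Project SG: all the parts together. -/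

set_option autoImplicit false
set_option linter.all false

open NumberField IsDedekindDomain Filter Topology Polynomial

namespace Pool.Agent.T3h73.SG

open Pool.Agent.T3h73.SL (Pl IsP Pk loc)
open Pool.Agent.T3h73.SD
open Pool.Agent.T3h73.SD.Def
open Pool.Agent.T3h73.SN

theorem all_PLE : S_PLE := PLE.t_PLE PLC.t_PLC

theorem all_PSB : S_PSB := PSB.t_PSB LU.t_LU LUD.t_LUD

theorem all_RST : S_RST := RST.t_RST PLC.t_PLC all_PLE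

theorem all_GSM : S_GSM := GSM.t_GSM PLC.t_PLC all_PLE all_PSB all_RST

theorem all_YDN : S_YDN := YDN.t_YDN PLC.t_PLC all_PLE

theorem all_YEU : S_YEU := YEU.t_YEU PLC.t_PLC all_GSM

theorem all_YBL : S_YBL := YBL.t_YBL PLC.t_PLC all_PLE all_RST LS.t_LS

theorem all_ZEU : S_ZEU := ZEU.t_ZEU PLC.t_PLC all_YEU

theorem all_ZUY : S_ZUY := ZUY.t_ZUY UNL.t_UNL (CNTU.t_CNTU UNL.t_UNL)

theorem all_ZMF : S_ZMF := ZMF.t_ZMF ZUN.t_ZUN all_ZUY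

theorem all_ZCS : S_ZCS :=
  ZCS.t_ZCS PLC.t_PLC all_YDN all_ZMF (ZBL.t_ZBL PLC.t_PLC all_YBL) all_ZEU

theorem all_XMAS : S_XMAS := XMAS.t_XMAS

theorem all_XAN : S_XAN :=
  XAN.t_XAN (XTUP.t_XTUP all_XMAS) (XAN1.t_XAN1 all_XMAS) (XAN2.t_XAN2 all_XMAS)
    (XAN3.t_XAN3 all_XMAS) T0L.t_T0L

theorem all_ZEX : S_ZEX := ZEX.t_ZEX PLC.t_PLC all_XMAS all_YDN ZHI.t_ZHI

theorem all_ZMO : S_ZMO :=
  ZMO.t_ZMO all_XAN ZHI.t_ZHI all_ZCS all_ZMF all_ZUY all_ZEX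
    (ZMN.t_ZMN (MAINU.t_MAINU UNL.t_UNL))

theorem all_ZTY : S_ZTY :=
  ZTY.t_ZTY PLC.t_PLC all_ZMO (DISTA.t_DISTA KAP.t_KAP T0L.t_T0L MASS.t_MASS)
    (ZOR.t_ZOR PLC.t_PLC) T0L.t_T0L

theorem all_VNP : S_VNP := VNP.t_VNP PLC.t_PLC Pool.Agent.T3h73.SL.Nb.t_NB

theorem all_VUN : S_VUN :=
  VUN.t_VUN (LNZ.t_LNZ all_LNI) VSP.t_VSP all_LZ DK.t_DK Pool.Agent.T3h73.SL.Wa.t_WA

theorem all_VGN : S_VGN := VGN.t_VGN PLC.t_PLC all_YDN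

theorem all_VDI : S_VDI := VDI.t_VDI PLC.t_PLC

theorem all_VTR : S_VTR := VTR.t_VTR PLC.t_PLC

theorem all_VEQ : S_VEQ := VEQ.t_VEQ PLC.t_PLC all_SV all_VTR all_VUN all_VGN all_VNP

theorem all_VM1 : S_VM1 := VM1.t_VM1 PLC.t_PLC all_LZ VSP.t_VSP LAG.t_LAG VLG.t_VLG all_VTR

theorem all_VLL : S_VLL := VLL.t_VLL LAG.t_LAG

theorem all_VM2 : S_VM2 := VM2.t_VM2 PLC.t_PLC all_CHS LCV.t_LCV all_LLW all_VLL

theorem all_DCR : S_DCR := t_DCR ADJ.t_ADJ all_LCC PLC.t_PLC DKU.t_DKU DAV.t_DAV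

theorem all_DMN : S_DMN :=
  t_DMN PLC.t_PLC DTR.t_DTR (DLC.t_DLC PLC.t_PLC) DPK.t_DPK DRD.t_DRD all_DCR

theorem all_VM3 : S_VM3 :=
  VM3.t_VM3 PLC.t_PLC all_VEQ all_VM1 all_VM2 all_VDI all_VNP LCV.t_LCV all_DMN

theorem final {ℓ : ℕ} (hℓ : ℓ.Prime) (h2 : ℓ ≠ 2) {K : Type} [Field K]
    [NumberField K] {ζ : K} (hζ : IsPrimitiveRoot ζ ℓ) (F : K[X]) (hirr : Irreducible F)
    (hm : F.Monic) (hn2 : 2 ≤ F.natDegree) (hbig : SG.Def.BigGalois ℓ F)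
    (S₀ : Finset (Pl K)) (η : Kˣ) (A : Finset ℕ) (hA : A.Nonempty) (hA' : ∀ a ∈ A, 1 ≤ a ∧ a < ℓ) :
    (∀ s : ℝ, 1 < s → Summable (fun c : Kˣ ⧸ (powMonoidHom ℓ : Kˣ →* Kˣ).range =>
      ht ℓ (Quotient.out c) ^ (-s))) ∧
    Tendsto (fun s : ℝ => csum ℓ (Near ℓ S₀ η) s) (𝓝[>] 1) atTop ∧
    ∀ ε : ℝ, 0 < ε → ∀ᶠ s : ℝ in 𝓝[>] 1,
      (1 - A.card * (1 - kap ℓ) - ε) * csum ℓ (Near ℓ S₀ η) s ≤
        csum ℓ (fun δ => Near ℓ S₀ η δ ∧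
          ∀ a ∈ A, SG.Def.Zero ℓ K (C ((δ : K) ^ a) * F)) s :=
  Asm.final all_ZTY all_VM3 hℓ h2 hζ F hirr hm hn2 hbig S₀ η A hA hA'

end Pool.Agent.T3h73.SG
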