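import Pool.Agent.T3h73.SG.StmV
import Pool.Agent.T3h73.SN.Asm

/-! # Project SG: the final assembly -/

set_option autoImplicit false
set_option linter.all false

open NumberField IsDedekindDomain Filter Topology Polynomial

namespace Pool.Agent.T3h73.SG.Asm

open Pool.Agent.T3h73.SL (Pl IsP Pk loc)
open Pool.Agent.T3h73.SD
open Pool.Agent.T3h73.SD.Def

section
variable {K M : Type} [Field K] [Field M] [Algebra K M] {n : ℕ}

/-- the action on the indices of the roots -/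
theorem exists_pm (e : Fin n → M) (he : Function.Injective e) (F : K[X])
    (hF : F.map (algebraMap K M) = ∏ i, (X - C (e i))) :
    ∃ pm : (M ≃ₐ[K] M) →* Equiv.Perm (Fin n), ∀ γ i, γ (e i) = e (pm γ i) := by
  classical
  have hroot : ∀ x : M, (∃ i, e i = x) ↔ (F.map (algebraMap K M)).eval x = 0 := by
    intro x
    rw [hF, eval_prod, Finset.prod_eq_zero_iff]
    constructor
    · rintro ⟨i, rfl⟩
      exact ⟨i, Finset.mem_univ _, by simp⟩
    · rintro ⟨i, -, hi⟩
      refine ⟨i, ?_⟩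
      simp only [eval_sub, eval_X, eval_C] at hi
      exact (sub_eq_zero.1 hi).symm
  have h1 : ∀ (γ : M ≃ₐ[K] M) (i : Fin n), ∃ j, e j = γ (e i) := by
    intro γ i
    rw [hroot]
    have h2 := (hroot (e i)).1 ⟨i, rfl⟩
    have h3 : (F.map (algebraMap K M)).eval (γ (e i)) = γ ((F.map (algebraMap K M)).eval (e i)) := by
      rw [eval_map, eval_map, ← aeval_def, ← aeval_def]
      exact aeval_algHom_apply (γ : M →ₐ[K] M) (e i) F
    rw [h3, h2, map_zero]
  choose f hf using h1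
  have hfm : ∀ γ γ' i, f (γ * γ') i = f γ (f γ' i) := by
    intro γ γ' i
    apply he
    rw [hf, hf, hf]
    rfl
  have hf1 : ∀ i, f 1 i = i := by
    intro i
    apply he
    rw [hf]
    rfl
  refine ⟨MonoidHom.toHomPerm ⟨⟨fun γ => (f γ : Function.End (Fin n)), ?_⟩, ?_⟩, fun γ i => ?_⟩
  · funext i
    exact hf1 i
  · intro γ γ'
    funext i
    exact hfm γ γ' i
  · exact (hf γ i).symm

end

theorem gpm {ℓ : ℕ} (hℓ : ℓ.Prime) {K M : Type} [Field K] [CharZero K] [Field M] [Algebra K M] [FiniteDimensional K M]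
    [IsGalois K M] {n : ℕ} (hn2 : 2 ≤ n) (e : Fin n → M) (he : Function.Injective e) (F : K[X])
    (hirr : Irreducible F) (hm : F.Monic)
    (hF : F.map (algebraMap K M) = ∏ i, (X - C (e i)))
    (pm : (M ≃ₐ[K] M) →* Equiv.Perm (Fin n)) (hpm : ∀ γ i, γ (e i) = e (pm γ i))
    (hG : ¬ ℓ ∣ Nat.card (M ≃ₐ[K] M))
    (hspan : ∀ c : M → M → ZMod ℓ, (∀ i, ∑ j, c (e i) (e j) = 0) → (∀ j, ∑ i, c (e i) (e j) = 0) →
      (∀ g : M ≃ₐ[K] M, ∑ i, c (g (e i)) (e i) = 0) → ∀ i j, c (e i) (e j) = 0) :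
    GPm ℓ n (M ≃ₐ[K] M) pm := by
  classical
  have hdeg : F.natDegree = n := by
    have h1 := congrArg natDegree hF
    rw [natDegree_map, natDegree_prod_of_monic _ _ fun i _ => monic_X_sub_C _] at h1
    simpa using h1
  have hev : ∀ i, aeval (e i) F = 0 := by
    intro i
    rw [aeval_def, ← eval_map, hF, eval_prod]
    exact Finset.prod_eq_zero (Finset.mem_univ i) (by simp)
  have hmin : ∀ i, minpoly K (e i) = F := fun i =>
    (minpoly.eq_of_irreducible_of_monic hirr (hev i) hm).symm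
  refine ⟨?_, hn2, hG, ?_, ?_⟩
  · intro h
    apply hG
    refine h.trans ?_
    rw [IsGalois.card_aut_eq_finrank, ← hdeg]
    have i0 : Fin n := ⟨0, by omega⟩
    rw [← hmin i0]
    exact minpoly.degree_dvd (IsIntegral.of_finite K (e i0))
  · intro i j
    have h1 : IsConjRoot K (e i) (e j) := by
      rw [IsConjRoot, hmin, hmin]
    obtain ⟨σ, hσ⟩ := (isConjRoot_iff_exists_algEquiv).1 h1
    refine ⟨σ⁻¹, ?_⟩
    apply he
    rw [← hpm, ← hσ]
    exact σ.symm_apply_apply _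
  · intro c h1 h2 h3 i j
    let c' : M → M → ZMod ℓ := fun a b =>
      if h : (∃ i, e i = a) ∧ ∃ j, e j = b then c h.1.choose h.2.choose else 0
    have hc' : ∀ i j, c' (e i) (e j) = c i j := by
      intro i j
      have h4 : (∃ i', e i' = e i) ∧ ∃ j', e j' = e j := ⟨⟨i, rfl⟩, ⟨j, rfl⟩⟩
      have h5 : h4.1.choose = i := he h4.1.choose_spec
      have h6 : h4.2.choose = j := he h4.2.choose_spec
      show (if h : (∃ i', e i' = e i) ∧ ∃ j', e j' = e j then c h.1.choose h.2.choose else 0) = _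
      rw [dif_pos h4, h5, h6]
    rw [← hc']
    refine hspan c' ?_ ?_ ?_ i j
    · intro i
      simp only [hc']
      exact h1 i
    · intro j
      simp only [hc']
      exact h2 j
    · intro g
      simp only [hpm, hc']
      exact h3 g

/-- the proportion, for a general Galois extension `M / K` -/
theorem typM (hZTY : S_ZTY) (hVM3 : S_VM3) {ℓ : ℕ} (hℓ : ℓ.Prime) (h2 : ℓ ≠ 2) {K M : Type} [Field K]
    [NumberField K] [Field M] [NumberField M] [Algebra K M] [IsGalois K M] {ζ : K}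
    (hζ : IsPrimitiveRoot ζ ℓ) {n : ℕ} (hn2 : 2 ≤ n) (e : Fin n → M) (he : Function.Injective e)
    (F : K[X]) (hirr : Irreducible F) (hm : F.Monic)
    (hF : F.map (algebraMap K M) = ∏ i, (X - C (e i)))
    (hG : ¬ ℓ ∣ Nat.card (M ≃ₐ[K] M))
    (hspan : ∀ c : M → M → ZMod ℓ, (∀ i, ∑ j, c (e i) (e j) = 0) → (∀ j, ∑ i, c (e i) (e j) = 0) →
      (∀ g : M ≃ₐ[K] M, ∑ i, c (g (e i)) (e i) = 0) → ∀ i j, c (e i) (e j) = 0)
    (a : ℕ) (h1 : 1 ≤ a) (h1' : a < ℓ) :
    TYPQ ℓ K (fun δ => SG.Def.Zero ℓ K (C ((δ : K) ^ a) * F)) := by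
  haveI : Fact ℓ.Prime := ⟨hℓ⟩
  haveI : FiniteDimensional K M := Module.Finite.of_restrictScalars_finite ℚ K M
  obtain ⟨pm, hpm⟩ := exists_pm e he F hF
  have hg := gpm hℓ hn2 e he F hirr hm hF pm hpm hG hspan
  exact hZTY ℓ n hℓ h2 K M pm _ (hVM3 ℓ n h2 K M pm hg ζ hζ e he hpm F hF a h1 h1')

/-- the proportion -/
theorem typ (hZTY : S_ZTY) (hVM3 : S_VM3) {ℓ : ℕ} (hℓ : ℓ.Prime) (h2 : ℓ ≠ 2) {K : Type} [Field K]
    [NumberField K] {ζ : K} (hζ : IsPrimitiveRoot ζ ℓ) (F : K[X]) (hirr : Irreducible F)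
    (hm : F.Monic) (hn2 : 2 ≤ F.natDegree) (hbig : SG.Def.BigGalois ℓ F)
    (a : ℕ) (h1 : 1 ≤ a) (h1' : a < ℓ) :
    TYPQ ℓ K (fun δ => SG.Def.Zero ℓ K (C ((δ : K) ^ a) * F)) := by
  classical
  haveI : NumberField F.SplittingField := NumberField.of_module_finite K F.SplittingField
  have hsep : F.Separable := hirr.separable
  haveI : IsGalois K F.SplittingField := IsGalois.of_separable_splitting_field hsep
  have hnd : (F.aroots F.SplittingField).Nodup := nodup_aroots_iff_of_splits hirr.ne_zero (IsSplittingField.splits _ _) |>.2 hsep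
  have hcard : (F.aroots F.SplittingField).toFinset.card = F.natDegree := by
    rw [Multiset.toFinset_card_of_nodup hnd]
    have h3 := (IsSplittingField.splits F.SplittingField F).natDegree_eq_card_roots
    rw [natDegree_map] at h3
    exact h3.symm
  let e0 : Fin F.natDegree ≃ (F.aroots F.SplittingField).toFinset :=
    (finCongr hcard.symm).trans (F.aroots F.SplittingField).toFinset.equivFin.symm
  have hsum : ∀ f : F.SplittingField → ZMod ℓ,
      ∑ i, f (e0 i : F.SplittingField) = ∑ b ∈ (F.aroots F.SplittingField).toFinset, f b := by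
    intro f
    rw [← Finset.sum_coe_sort (F.aroots F.SplittingField).toFinset]
    exact Equiv.sum_comp e0 (fun b => f (b : F.SplittingField))
  have hsurj : ∀ a ∈ (F.aroots F.SplittingField).toFinset, ∃ i, (e0 i : F.SplittingField) = a := by
    intro a ha
    refine ⟨e0.symm ⟨a, ha⟩, ?_⟩
    rw [Equiv.apply_symm_apply]
  refine typM hZTY hVM3 hℓ h2 hζ hn2 (fun i => (e0 i : F.SplittingField))
    (fun i j h => e0.injective (Subtype.ext h)) F hirr hm ?_ hbig.1 ?_ a h1 h1'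
  · have h3 := (IsSplittingField.splits F.SplittingField F).eq_prod_roots
    rw [(hm.map _).leadingCoeff, C_1, one_mul] at h3
    rw [h3]
    have h4 : ((F.map (algebraMap K F.SplittingField)).roots.map fun a => X - C a).prod =
        ∏ b ∈ (F.aroots F.SplittingField).toFinset, (X - C b) := by
      rw [Finset.prod, Multiset.toFinset_val, Multiset.dedup_eq_self.2 hnd]
    rw [h4, ← Finset.prod_coe_sort (F.aroots F.SplittingField).toFinset]
    exact (Equiv.prod_comp e0 (fun b => X - C (b : F.SplittingField))).symm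
  · intro c h3 h4 h5 i j
    refine hbig.2 c ?_ ?_ ?_ _ (e0 i).2 _ (e0 j).2
    · intro a ha
      obtain ⟨k, rfl⟩ := hsurj a ha
      rw [← hsum (fun b => c _ b)]
      exact h3 k
    · intro b hb
      obtain ⟨k, rfl⟩ := hsurj b hb
      rw [← hsum (fun a => c a _)]
      exact h4 k
    · intro g
      rw [← hsum (fun a => c (g a) a)]
      exact h5 g

theorem final (hZTY : S_ZTY) (hVM3 : S_VM3) {ℓ : ℕ} (hℓ : ℓ.Prime) (h2 : ℓ ≠ 2) {K : Type} [Field K]
    [NumberField K] {ζ : K} (hζ : IsPrimitiveRoot ζ ℓ) (F : K[X]) (hirr : Irreducible F)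
    (hm : F.Monic) (hn2 : 2 ≤ F.natDegree) (hbig : SG.Def.BigGalois ℓ F)
    (S₀ : Finset (Pl K)) (η : Kˣ) (A : Finset ℕ) (hA : A.Nonempty) (hA' : ∀ a ∈ A, 1 ≤ a ∧ a < ℓ) :
    (∀ s : ℝ, 1 < s → Summable (fun c : Kˣ ⧸ (powMonoidHom ℓ : Kˣ →* Kˣ).range =>
      ht ℓ (Quotient.out c) ^ (-s))) ∧
    Tendsto (fun s : ℝ => csum ℓ (Near ℓ S₀ η) s) (𝓝[>] 1) atTop ∧
    ∀ ε : ℝ, 0 < ε → ∀ᶠ s : ℝ in 𝓝[>] 1,
      (1 - A.card * (1 - kap ℓ) - ε) * csum ℓ (Near ℓ S₀ η) s ≤
        csum ℓ (fun δ => Near ℓ S₀ η δ ∧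
          ∀ a ∈ A, SG.Def.Zero ℓ K (C ((δ : K) ^ a) * F)) s :=
  SN.Asm.mainQ hℓ hA (fun a ha => typ hZTY hVM3 hℓ h2 hζ F hirr hm hn2 hbig a (hA' a ha).1
    (hA' a ha).2) S₀ η

end Pool.Agent.T3h73.SG.Asm
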