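import Pool.Agent.T3h73.SG.BKDef
import Pool.Agent.T3h73.SN.BK.T_ABS
import Pool.Agent.T3h73.SN.BK.T_GDJ
import Pool.Agent.T3h73.SN.BK.T_BKM

/-! # The vanishing of the Bloch-Kato Selmer group, general `F` -/

set_option autoImplicit false
set_option linter.all false

open Polynomial IsDedekindDomain NumberField

namespace Pool.Agent.T3h73.SG.BK

open Pool.Agent.Y713.Jac (J mapJ Gal)
open Pool.Agent.T3h73.SN.BK (t_ABS t_GDJ t_BKM)

theorem of_zero {ℓ : ℕ} (hℓ : ℓ.Prime) {K : Type} [Field K] [NumberField K] {F : K[X]}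
    (h : Pool.Agent.T3h73.SG.Def.Zero ℓ K F) : BothZero ℓ K F := by
  have hone : ∀ P : J ℓ F (SeparableClosure K), (∀ σ : Gal K, mapJ ℓ F σ.toAlgHom P = P) →
      P ^ ℓ = 1 → P = 1 := by
    intro P hP hPT
    obtain ⟨Q, -, hQ⟩ := h.2 1 (fun σ => map_one _)
    have h1 : P = Q := hQ P ⟨hP, hPT⟩
    have h2 : (1 : J ℓ F (SeparableClosure K)) = Q := hQ 1 ⟨fun σ => map_one _, one_pow _⟩
    rw [h1, ← h2]
  refine ⟨?_, ⊥, inferInstance, ?_, ?_⟩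
  · intro c hc hk
    obtain ⟨x, hx1, hx2⟩ := t_ABS ℓ hℓ (Gal K) (J ℓ F (SeparableClosure K))
      (fun σ => mapJ ℓ F σ.toAlgHom)
      (fun f => Pool.Agent.Y713.Jac.IsLocallyTrivial ℓ F (𝓞 K) f)
      (fun f h1 h2 h3 m h4 => h.1 f m ⟨h1, h2⟩ h3 ⟨1, fun σ => by
        show f σ ^ ℓ ^ m = _
        rw [h4 σ, map_one, div_one]⟩)
      {1}
      (by
        rintro t rfl t' rfl
        simp)
      (by
        rintro t rfl
        exact ⟨fun σ => map_one _, one_pow _⟩)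
      rfl
      (by
        intro P hP
        obtain ⟨Q, ⟨hQ1, hQ2⟩, -⟩ := h.2 P hP
        exact ⟨1, rfl, Q, hQ1, by rw [hQ2, one_mul]⟩)
      (fun P hP hPT => hone P hP hPT)
      c (fun n => (hc.2 n).1) (fun σ n => hc.1 σ n) (fun σ τ n => (hc.2 n).2 σ τ)
      (fun n v => by
        obtain ⟨ι, Q, -, hQ⟩ := hk v
        exact ⟨ι, Q n, fun τ σ h => hQ n τ σ h⟩)
    exact ⟨x, hx1, hx2⟩
  · rintro ⟨P, hP⟩
    obtain ⟨Q, ⟨hQ1, hQ2⟩, -⟩ := h.2 P hP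
    exact ⟨1, Subgroup.one_mem _, ⟨Q, hQ1⟩, Subtype.ext (by
      show P = ((1 * (⟨Q, hQ1⟩ : RatPts ℓ F) ^ ℓ : RatPts ℓ F) : J ℓ F (SeparableClosure K))
      rw [one_mul, Subgroup.coe_pow]
      exact hQ2.symm)⟩
  · rintro ⟨P, hP⟩ hPT
    refine Subgroup.mem_bot.2 (Subtype.ext (hone P hP ?_))
    have h1 := congrArg Subtype.val (Subgroup.mem_bot.1 hPT)
    rw [Subgroup.coe_pow] at h1
    exact h1

theorem of_minimal {ℓ n : ℕ} (hp : ℓ.Prime) {K : Type} [Field K] [NumberField K] {ζ : K}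
    (hζ : IsPrimitiveRoot ζ ℓ) (hn : ¬ ℓ ∣ n) (e : Fin n → K) (he : Function.Injective e) (δ : K)
    (hδ : δ ≠ 0) (hmin : Pool.Agent.T3h73.SN.Def.Minimal ℓ K (Pool.Agent.T3h73.SN.Def.crv e δ)) :
    BothZero ℓ K (Pool.Agent.T3h73.SN.Def.crv e δ) := by
  obtain ⟨h1, T₀, hT0, hT1, hT2, hT3⟩ := t_BKM t_ABS t_GDJ ℓ n hp K ζ hζ hn e he δ hδ hmin
  obtain ⟨hinj, hdesc⟩ := t_GDJ ℓ n hp K ζ hζ hn e he δ hδ
  have hfix : ∀ (σ : Gal K) (P : J ℓ (SN.Def.crv e δ) K), mapJ ℓ (SN.Def.crv e δ) σ.toAlgHom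
      (mapJ ℓ (SN.Def.crv e δ) (Algebra.ofId K (SeparableClosure K)) P) =
      mapJ ℓ (SN.Def.crv e δ) (Algebra.ofId K (SeparableClosure K)) P := by
    intro σ P
    rw [SN.BK.mapJ_comp]
    congr 1
    congr 1
    exact AlgHom.ext fun x => σ.commutes x
  haveI : Finite T₀ := Nat.finite_of_card_ne_zero (by
    rw [hT0]
    exact pow_ne_zero _ hp.ne_zero)
  have hr : ∀ t : J ℓ (SN.Def.crv e δ) K,
      mapJ ℓ (SN.Def.crv e δ) (Algebra.ofId K (SeparableClosure K)) t ∈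
        RatPts ℓ (SN.Def.crv e δ) := fun t σ => hfix σ t
  let f : J ℓ (SN.Def.crv e δ) K →* RatPts ℓ (SN.Def.crv e δ) :=
    (mapJ ℓ (SN.Def.crv e δ) (Algebra.ofId K (SeparableClosure K))).codRestrict _ hr
  have hf : Function.Bijective f := by
    constructor
    · intro t t' h
      exact hinj (congrArg Subtype.val h)
    · rintro ⟨P, hP⟩
      obtain ⟨Q, hQ⟩ := hdesc P hP
      exact ⟨Q, Subtype.ext hQ⟩
  refine ⟨h1, T₀.map f, ?_, ?_, ?_⟩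
  · have h2 : ((T₀.map f : Subgroup _) : Set (RatPts ℓ (SN.Def.crv e δ))).Finite := by
      rw [Subgroup.coe_map]
      exact (Set.toFinite (T₀ : Set (J ℓ (SN.Def.crv e δ) K))).image _
    exact h2.to_subtype
  · intro P
    obtain ⟨P₀, rfl⟩ := hf.2 P
    obtain ⟨t, ht, Q, rfl⟩ := hT2 P₀
    exact ⟨_, ⟨t, ht, rfl⟩, f Q, by rw [map_mul, map_pow]⟩
  · intro P hPT
    obtain ⟨P₀, rfl⟩ := hf.2 P
    obtain ⟨t, ht, htP⟩ := hPT
    rw [← map_pow] at htP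
    have h1 := hf.1 htP
    exact ⟨P₀, hT3 P₀ (h1 ▸ ht), rfl⟩

end Pool.Agent.T3h73.SG.BK
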