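import Pool.Agent.T3h73.SG.Def
import Pool.Agent.T3h73.SN.BK.Def

/-!
# Twists of superelliptic curves, Bloch-Kato Selmer groups: the definitions used in the statement

`V_ℓ J`, its cocycles and the statement `BKZero` that the Bloch-Kato Selmer group `H ^ 1_f (K, V_ℓ J)` is zero
are defined in `Pool.Agent.T3h73.SN.BK.Def`, the property `Indep` in `Pool.Agent.T3h73.SN.Def`.
-/

set_option autoImplicit false

open NumberField Polynomial

namespace Pool.Agent.T3h73.SG.BK

open Pool.Agent.Y713.Jac (J)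

/-- The group `J(K)` for the Jacobian `J` of `y ^ ℓ = F(x)`: the points of `J(K^sep)` which are fixed by the
absolute Galois group of `K`. -/
def RatPts (ℓ : ℕ) {K : Type} [Field K] (F : K[X]) : Subgroup (J ℓ F (SeparableClosure K)) where
  carrier := {P | Pool.Agent.T3h73.SG.Def.Rat ℓ F P}
  mul_mem' := fun hP hQ σ => by rw [map_mul, hP σ, hQ σ]
  one_mem' := fun σ => map_one _
  inv_mem' := fun hP σ => by rw [map_inv, hP σ]

/-- The commutative group `A` (written as a product) has a finite subgroup `T` such that multiplication by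
`ℓ` is bijective on `A / T`. If `A` is finitely generated this means that `A` is finite, so that
`A ⊗ ℚ_ℓ = 0`. -/
def ZeroTensor (ℓ : ℕ) (A : Type) [CommGroup A] : Prop :=
  ∃ T : Subgroup A, Finite T ∧ (∀ P : A, ∃ t ∈ T, ∃ Q, P = t * Q ^ ℓ) ∧ ∀ P : A, P ^ ℓ ∈ T → P ∈ T

/-- Both sides of the conjecture are zero for the Jacobian `J` of `y ^ ℓ = F(x)`: `H ^ 1_f (K, V_ℓ J) = 0`, and
`J(K) ⊗ ℚ_ℓ = 0` (`J(K)` is finitely generated by the theorem of Mordell and Weil). -/
def BothZero (ℓ : ℕ) (K : Type) [Field K] [NumberField K] (F : K[X]) : Prop :=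
  Pool.Agent.T3h73.SN.BK.BKZero ℓ K F ∧ ZeroTensor ℓ (RatPts ℓ F)

/-- `F` is the product of `n ≥ 2` different monic linear factors `x - e_i`, with `n` prime to `ℓ`, and the
differences of the `e_i` are independent modulo `ℓ`-th powers. -/
def SplitIndep (ℓ : ℕ) {K : Type} [Field K] (F : K[X]) : Prop :=
  ∃ (n : ℕ) (e : Fin n → K), 2 ≤ n ∧ ¬ ℓ ∣ n ∧ Function.Injective e ∧
    Pool.Agent.T3h73.SN.Def.Indep ℓ e ∧ F = ∏ i, (X - C (e i))

/-- `F` is monic and irreducible of degree at least `2`, the Galois group of its splitting field over `K`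
has order prime to `ℓ` and is doubly transitive on the roots of `F`. -/
def DoublyTransitive (ℓ : ℕ) {K : Type} [Field K] (F : K[X]) : Prop :=
  Irreducible F ∧ F.Monic ∧ 2 ≤ F.natDegree ∧
    ¬ ℓ ∣ Nat.card (F.SplittingField ≃ₐ[K] F.SplittingField) ∧
    ∀ a b c d : F.SplittingField, aeval a F = 0 → aeval b F = 0 → aeval c F = 0 → aeval d F = 0 →
      a ≠ b → c ≠ d → ∃ g : F.SplittingField ≃ₐ[K] F.SplittingField, g a = c ∧ g b = d

end Pool.Agent.T3h73.SG.BK
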