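import Pool.Agent.T3h73.SG.All
import Pool.Agent.T3h73.SG.BK0
import Pool.Agent.T3h73.SN.BK.Fin

/-! # Bloch-Kato Selmer groups of the twists of superelliptic curves: the final assembly -/

set_option autoImplicit false
set_option linter.all false

open NumberField IsDedekindDomain Filter Topology Polynomial

namespace Pool.Agent.T3h73.SG.BK

open Pool.Agent.T3h73.SD.Def

theorem final {ℓ : ℕ} (hℓ : ℓ.Prime) (h2 : ℓ ≠ 2) {K : Type} [Field K] [NumberField K] {ζ : K}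
    (hζ : IsPrimitiveRoot ζ ℓ) (F : K[X]) (hF : SplitIndep ℓ F ∨ DoublyTransitive ℓ F)
    (S₀ : Finset (HeightOneSpectrum (𝓞 K))) (η : Kˣ) (A : Finset ℕ) (hA : A.Nonempty)
    (hA' : ∀ a ∈ A, 1 ≤ a ∧ a < ℓ) :
    (∀ s : ℝ, 1 < s → Summable (fun c : Kˣ ⧸ (powMonoidHom ℓ : Kˣ →* Kˣ).range =>
      ht ℓ (Quotient.out c) ^ (-s))) ∧
    Tendsto (fun s : ℝ => csum ℓ (Near ℓ S₀ η) s) (𝓝[>] 1) atTop ∧
    ∀ ε : ℝ, 0 < ε → ∀ᶠ s : ℝ in 𝓝[>] 1,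
      (1 - A.card * (1 - SD.kap ℓ) - ε) * csum ℓ (Near ℓ S₀ η) s ≤
        csum ℓ (fun δ => Near ℓ S₀ η δ ∧
          ∀ a ∈ A, BothZero ℓ K (C ((δ : K) ^ a) * F)) s := by
  rcases hF with ⟨n, e, hn2, hn, he, hind, rfl⟩ | ⟨hirr, hm, hn2, hG, h2t⟩
  · have h := SN.final hℓ h2 hn hn2 hζ e he hind S₀ η A hA hA'
    refine ⟨h.1, h.2.1, fun ε hε => ?_⟩
    have h3 : ∀ᶠ s : ℝ in 𝓝[>] (1 : ℝ), s ∈ Set.Ioi (1 : ℝ) := self_mem_nhdsWithin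
    filter_upwards [h.2.2 ε hε, h3] with s hs hs1
    refine hs.trans (SN.BK.csum_mono (h.1 s hs1) fun δ hδ => ⟨hδ.1, fun a ha => ?_⟩)
    exact of_minimal hℓ hζ hn e he _ (pow_ne_zero _ δ.ne_zero) (hδ.2 a ha)
  · have h := SG.final hℓ h2 hζ F hirr hm hn2 (Symm.big2 hℓ F hirr.ne_zero hG h2t) S₀ η A hA hA'
    refine ⟨h.1, h.2.1, fun ε hε => ?_⟩
    have h3 : ∀ᶠ s : ℝ in 𝓝[>] (1 : ℝ), s ∈ Set.Ioi (1 : ℝ) := self_mem_nhdsWithin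
    filter_upwards [h.2.2 ε hε, h3] with s hs hs1
    refine hs.trans (SN.BK.csum_mono (h.1 s hs1) fun δ hδ => ⟨hδ.1, fun a ha => ?_⟩)
    exact of_zero hℓ (hδ.2 a ha)

end Pool.Agent.T3h73.SG.BK
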