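import Pool.Agent.T3h73.SG.StmM

/-!
# SG (helper11): the colours, basic facts
-/

set_option autoImplicit false
set_option linter.all false

open NumberField IsDedekindDomain Filter Topology Finset

namespace Pool.Agent.T3h73.SG.ColB

open Pool.Agent.T3h73.SL (Pl IsP Pk loc)
open Pool.Agent.T3h73.SD (ee NA gA T0 SymSys SP Cl kap TYPQ S_T0L S_MASS)
open Pool.Agent.T3h73.SN (Sz tens inc ClW slc hcW S_DISTA)

section

variable {ℓ n k : ℕ} {G : Type} [Group G] (pm : G →* Equiv.Perm (Fin n))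

theorem aW_mul (g h : G) (c : Sz ℓ n (ZMod ℓ)) : aW pm (g * h) c = aW pm g (aW pm h c) := by
  apply Subtype.ext
  funext i
  show (c : Fin n → ZMod ℓ) ((pm (g * h))⁻¹ i) = (c : Fin n → ZMod ℓ) ((pm h)⁻¹ ((pm g)⁻¹ i))
  rw [map_mul, mul_inv_rev]
  rfl

theorem aW_one (c : Sz ℓ n (ZMod ℓ)) : aW pm (1 : G) c = c := by
  apply Subtype.ext
  funext i
  show (c : Fin n → ZMod ℓ) ((pm 1)⁻¹ i) = _
  rw [map_one, inv_one]
  rfl

theorem aW_sub (g : G) (c c' : Sz ℓ n (ZMod ℓ)) : aW pm g (c - c') = aW pm g c - aW pm g c' := by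
  apply Subtype.ext
  funext i
  rfl

theorem aC_mul (g h : G) (a : ClW ℓ n k) : aC pm (g * h) a = aC pm g (aC pm h a) := by
  apply Prod.ext
  · funext s
    exact aW_mul pm g h (a.1 s)
  · funext s
    exact aW_mul pm g h (a.2 s)

theorem aC_one (a : ClW ℓ n k) : aC pm (1 : G) a = a := by
  apply Prod.ext
  · funext s
    exact aW_one pm (a.1 s)
  · funext s
    exact aW_one pm (a.2 s)

theorem aC_sub (g : G) (a b : ClW ℓ n k) : aC pm g (a - b) = aC pm g a - aC pm g b := by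
  apply Prod.ext
  · funext s
    exact aW_sub pm g (a.1 s) (b.1 s)
  · funext s
    exact aW_sub pm g (a.2 s) (b.2 s)

theorem QW_neg (a : ClW ℓ n k) : QW (-a) = QW a := by
  unfold QW
  refine sum_congr rfl fun s _ => sum_congr rfl fun i _ => ?_
  show -((a.1 s : Fin n → ZMod ℓ) i) * -((a.2 s : Fin n → ZMod ℓ) i) = _
  rw [neg_mul_neg]

theorem QW_aC (g : G) (a : ClW ℓ n k) : QW (aC pm g a) = QW a := by
  unfold QW
  refine sum_congr rfl fun s _ => ?_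
  exact Equiv.sum_comp ((pm g)⁻¹ : Equiv.Perm (Fin n))
    (fun i => (a.1 s : Fin n → ZMod ℓ) i * (a.2 s : Fin n → ZMod ℓ) i)

theorem QW_swap (g : G) (a b : ClW ℓ n k) : QW (aC pm g b - a) = QW (aC pm g⁻¹ a - b) := by
  rw [← QW_aC pm g (aC pm g⁻¹ a - b), aC_sub, ← aC_mul, mul_inv_cancel, aC_one, ← QW_neg,
    neg_sub]

theorem lkG_symm {x y : CG pm ℓ k} (h : lkG pm x y) : lkG pm y x := by
  obtain ⟨g, hg⟩ := h
  refine ⟨g⁻¹, ?_⟩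
  rw [QW_swap pm g⁻¹ x.1.2.1 y.1.2.1, inv_inv]
  exact hg

end

/-- `1 / 2 + 1 / 2 = 1` -/
theorem half_add {ℓ : ℕ} [hℓ : Fact ℓ.Prime] (h2 : ℓ ≠ 2) : (2 : ZMod ℓ)⁻¹ + (2 : ZMod ℓ)⁻¹ = 1 := by
  have h : (2 : ZMod ℓ) ≠ 0 := by
    intro h
    have h1 : ((2 : ℕ) : ZMod ℓ) = 0 := by exact_mod_cast h
    rw [ZMod.natCast_eq_zero_iff] at h1
    exact h2 ((Nat.prime_dvd_prime_iff_eq hℓ.out Nat.prime_two).1 h1)
  rw [← two_mul, mul_inv_cancel₀ h]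

section

variable {ℓ n : ℕ} [hℓ : Fact ℓ.Prime] {K M : Type} [Field K] [NumberField K] [Field M]
  [NumberField M] [Algebra K M] {pm : (M ≃ₐ[K] M) →* Equiv.Perm (Fin n)}
  {S : Finset (Pl K)} {𝔪 : Ideal (𝓞 M)} {Λ : Type} [AddCommGroup Λ] {χ : Λ → Pl M → ZMod ℓ}
  {sy : Pl M → Pl M → ZMod ℓ} {k : ℕ}

/-- the sum of the two pairings -/
theorem rho_add [IsGalois K M] (hPLC : S_PLC) (h2 : ℓ ≠ 2) (hs : GSys ℓ K M S 𝔪 Λ χ sy)
    (x y : CG pm ℓ k) {w w' : Pl M} (hw : (lo w : Pl K) ∉ S) (hw' : (lo w' : Pl K) ∉ S)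
    (hne : (lo w : Pl K) ≠ lo w') :
    rhoG pm sy x y w w' + rhoG pm sy y x w' w =
      ∑ γ : M ≃ₐ[K] M, (-((Nat.card x.1.1 : ZMod ℓ)⁻¹ * (Nat.card y.1.1 : ZMod ℓ)⁻¹ *
        QW (aC pm γ x.1.2.1 - y.1.2.1))) * sy (gp γ w) w' := by
  obtain ⟨-, p1, p2, p3, -, -, hup, -, -, -⟩ := hPLC K M
  have e1 : ∑ γ : M ≃ₐ[K] M, QW (aC pm γ y.1.2.1 - x.1.2.1) * sy (gp γ w') w =
      ∑ γ : M ≃ₐ[K] M, QW (aC pm γ x.1.2.1 - y.1.2.1) * sy (gp γ w) w' := by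
    rw [← Equiv.sum_comp (Equiv.inv (M ≃ₐ[K] M))]
    refine sum_congr rfl fun γ _ => ?_
    rw [Equiv.inv_apply, QW_swap pm γ⁻¹ x.1.2.1 y.1.2.1, inv_inv]
    congr 1
    have h1 : (lo (gp γ w) : Pl K) ∉ S := by rw [p3]; exact hw
    have h3 : sy (gp γ (gp γ⁻¹ w')) (gp γ w) = sy (gp γ⁻¹ w') w :=
      hs.eqs γ _ _ (by rw [p3]; exact hw') hw
    rw [← p2, mul_inv_cancel, p1] at h3
    rw [← h3]
    refine hs.sys.symm _ _ (fun h => hw' ((hup S w').1 h)) (fun h => h1 ((hup S _).1 h)) ?_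
    intro h
    apply hne
    rw [h, p3]
  unfold rhoG
  rw [e1]
  have e2 : ∑ γ : M ≃ₐ[K] M, (-((Nat.card x.1.1 : ZMod ℓ)⁻¹ * (Nat.card y.1.1 : ZMod ℓ)⁻¹ *
        QW (aC pm γ x.1.2.1 - y.1.2.1))) * sy (gp γ w) w' =
      -((Nat.card x.1.1 : ZMod ℓ)⁻¹ * (Nat.card y.1.1 : ZMod ℓ)⁻¹) *
        ∑ γ : M ≃ₐ[K] M, QW (aC pm γ x.1.2.1 - y.1.2.1) * sy (gp γ w) w' := by
    rw [Finset.mul_sum]
    refine sum_congr rfl fun γ _ => ?_
    ring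
  rw [e2]
  have e3 := half_add (ℓ := ℓ) h2
  linear_combination (-((Nat.card x.1.1 : ZMod ℓ)⁻¹ * (Nat.card y.1.1 : ZMod ℓ)⁻¹) *
        ∑ γ : M ≃ₐ[K] M, QW (aC pm γ x.1.2.1 - y.1.2.1) * sy (gp γ w) w') * e3

/-- the orders of subgroups are invertible -/
theorem card_ne (hG : ¬ ℓ ∣ Nat.card (M ≃ₐ[K] M)) (D : Subgroup (M ≃ₐ[K] M)) :
    (Nat.card D : ZMod ℓ) ≠ 0 := by
  intro h
  rw [ZMod.natCast_eq_zero_iff] at h
  exact hG (h.trans (Subgroup.card_subgroup_dvd_card D))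

end

end Pool.Agent.T3h73.SG.ColB
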