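import Pool.Agent.Y713.SE.Stm

/-!
# Twists of superelliptic curves: the definitions used in the statement

The Jacobian `J` of the curve `y ^ ℓ = F(x)`, its cocycles, the Tate-Shafarevich group and the statement
`ShaPrimaryTrivial` that its `ℓ`-primary part is zero are defined in `Pool.Agent.Y713.SE.Stm`.
-/

set_option autoImplicit false

open NumberField Polynomial

namespace Pool.Agent.T3h73.SG.Def

open Pool.Agent.Y713.Jac (J mapJ Gal)

/-- `P ∈ J(K^sep)` is a `K`-rational point of the Jacobian `J` of `y ^ ℓ = F(x)`: it is fixed by the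
absolute Galois group of `K`. -/
def Rat (ℓ : ℕ) {K : Type} [Field K] (F : K[X]) (P : J ℓ F (SeparableClosure K)) : Prop :=
  ∀ σ : Gal K, mapJ ℓ F σ.toAlgHom P = P

/-- The `ℓ`-part of the arithmetic of the Jacobian `J` of the curve `y ^ ℓ = F(x)` over the number field
`K` is zero:

* the `ℓ`-primary part of the Tate-Shafarevich group of `J` over `K` is zero;
* multiplication by `ℓ` is bijective on `J(K)` (the group law of `J` is written as a product). By the
  theorem of Mordell and Weil this means that `J(K)` is finite and of order prime to `ℓ`. -/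
def Zero (ℓ : ℕ) (K : Type) [Field K] [NumberField K] (F : K[X]) : Prop :=
  Pool.Agent.Y713.Jac.ShaPrimaryTrivial ℓ F (𝓞 K) ∧
  ∀ P : J ℓ F (SeparableClosure K), Rat ℓ F P →
    ∃! Q : J ℓ F (SeparableClosure K), Rat ℓ F Q ∧ Q ^ ℓ = P

/-- Let `M` be the splitting field of `F` over `K`. The Galois group `G` of `M` over `K` has order prime
to `ℓ`, and the permutations of the roots of `F` given by the elements of `G` generate the space of
the endomorphisms of the space `W` of the functions from the set of the roots to `𝔽_ℓ` with sum zero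
(that is, `W` is absolutely irreducible; in dual form: a matrix `c` whose rows and columns have sum
zero and which satisfies `∑ c (g a) a = 0` for all `g ∈ G` is zero). -/
def BigGalois (ℓ : ℕ) {K : Type} [Field K] (F : K[X]) : Prop :=
  open Classical in
  ¬ ℓ ∣ Nat.card (F.SplittingField ≃ₐ[K] F.SplittingField) ∧
  ∀ c : F.SplittingField → F.SplittingField → ZMod ℓ,
    (∀ a ∈ (F.aroots F.SplittingField).toFinset, ∑ b ∈ (F.aroots F.SplittingField).toFinset,
      c a b = 0) →
    (∀ b ∈ (F.aroots F.SplittingField).toFinset, ∑ a ∈ (F.aroots F.SplittingField).toFinset,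
      c a b = 0) →
    (∀ g : F.SplittingField ≃ₐ[K] F.SplittingField,
      ∑ a ∈ (F.aroots F.SplittingField).toFinset, c (g a) a = 0) →
    ∀ a ∈ (F.aroots F.SplittingField).toFinset, ∀ b ∈ (F.aroots F.SplittingField).toFinset,
      c a b = 0

end Pool.Agent.T3h73.SG.Def
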