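import Pool.Agent.T3h73.SG.StmX
import Pool.Agent.T3h73.SG.T_XMAS
import Pool.Agent.T3h73.SD.Fam

/-!
Sums over families of finite sets of marked places: tools for the tasks XTUP, XAN1, XAN2 of project SG.
-/

set_option autoImplicit false
set_option linter.all false

open NumberField IsDedekindDomain Filter Topology

namespace Pool.Agent.T3h73.SG.FamX

open Pool.Agent.T3h73.SL (Pl)
open Pool.Agent.T3h73.SG.XMAS (one_le_NO gO_pos)
open Pool.Agent.T3h73.SD (ee)

variable {K : Type} [Field K] [NumberField K] {Ω : Type}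

open Classical in
/-- the weight of an admissible set -/
noncomputable def wX (S : Finset (Pl K)) (kp : Ω → Pl K) (Om : Ω → Prop) (lam s : ℝ)
    (A : Finset Ω) : ℝ :=
  if Ad S kp Om A then lam ^ A.card * (NO kp A : ℝ) ^ (-s) else 0

theorem wX_nonneg (S : Finset (Pl K)) (kp : Ω → Pl K) (Om : Ω → Prop) {lam : ℝ} (hl : 0 ≤ lam)
    (s : ℝ) (A : Finset Ω) : 0 ≤ wX S kp Om lam s A := by
  unfold wX
  split_ifs
  · positivity
  · exact le_rfl

theorem norm_trmX_le {ℓ : ℕ} (S : Finset (Pl K)) (kp : Ω → Pl K) {C : Type} [Fintype C]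
    (Om : C → Ω → Prop) (lam : C → ℝ) (hl : ∀ c, 0 ≤ lam c) (I : C → Finset Ω → ℂ)
    (hI : ∀ c A, ‖I c A‖ ≤ 1) (ρ : C → C → Ω → Ω → ZMod ℓ) (s : ℝ) (A : C → Finset Ω)
    (hA : TupX S kp Om A) :
    ‖trmX kp lam I ρ s A‖ ≤ ∏ c, wX S kp (Om c) (lam c) s (A c) := by
  unfold trmX
  rw [norm_mul, SD.Fam.norm_ee, mul_one, norm_mul, Complex.norm_real, Real.norm_eq_abs,
    abs_of_nonneg (Finset.prod_nonneg fun c _ => mul_nonneg (pow_nonneg (hl c) _) (by positivity)),
    norm_prod]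
  have h1 : ∏ c, ‖I c (A c)‖ ≤ 1 :=
    Finset.prod_le_one (fun c _ => norm_nonneg _) fun c _ => hI c _
  refine (mul_le_of_le_one_right (Finset.prod_nonneg fun c _ =>
    mul_nonneg (pow_nonneg (hl c) _) (by positivity)) h1).trans (le_of_eq ?_)
  refine Finset.prod_congr rfl fun c _ => ?_
  unfold wX
  rw [if_pos (hA.1 c)]

open Classical in
/-- the two bounds for the sums over one set -/
theorem one_var (hXMAS : S_XMAS) (S : Finset (Pl K)) (kp : Ω → Pl K) (Om : Ω → Prop)
    (lam mu : ℝ) (hF : Fib kp) (hl0 : 0 < lam) (hl1 : lam ≤ 1) (hmu : 0 < mu)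
    (hM : Mass S kp Om lam mu) : ∃ C : ℝ, 1 ≤ C ∧
    (∀ s : ℝ, 1 < s → s ≤ 2 → Summable (fun A : Finset Ω => wX S kp Om lam s A) ∧
      ∑' A : Finset Ω, wX S kp Om lam s A ≤ C * (1 / (s - 1)) ^ mu) ∧
    ∀ (Z : ℝ), 1 ≤ Z → ∀ s : ℝ, 1 < s →
      Summable (fun A : Finset Ω => if (NO kp A : ℝ) ≤ Z then wX S kp Om lam s A else 0) ∧
      ∑' A : Finset Ω, (if (NO kp A : ℝ) ≤ Z then wX S kp Om lam s A else 0) ≤
        C * (1 + Real.log Z) ^ C := by
  obtain ⟨C₁, hC₁, h1, h2⟩ := hXMAS K S Ω kp Om lam mu hF hl0 hl1 hmu hM 0 1 le_rfl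
  have hpow : ∀ A : Finset Ω, lam ^ A.card ≤ 1 := fun A => pow_le_one₀ hl0.le hl1
  refine ⟨C₁ + 1, by linarith, ?_, ?_⟩
  · intro s hs hs2
    obtain ⟨h3, h4⟩ := h1 s hs hs2
    have hs0 : 0 < s - 1 := by linarith
    constructor
    · refine Summable.of_nonneg_of_le (fun A => wX_nonneg S kp Om hl0.le s A) (fun A => ?_) h3
      unfold wX
      split_ifs
      · rw [Real.rpow_zero, mul_one]
        refine mul_le_mul_of_nonneg_right ?_ (by positivity)
        rw [Nat.cast_one, one_pow]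
        exact hpow A
      · exact le_rfl
    · have e : ∀ A : Finset Ω, (if Ad S kp Om A then lam ^ A.card * (NO kp A : ℝ) ^ (-s) *
          gO kp A ^ (0 : ℝ) else 0) = wX S kp Om lam s A := by
        intro A
        unfold wX
        rw [Real.rpow_zero, mul_one]
      rw [tsum_congr e] at h4
      exact h4.trans (mul_le_mul_of_nonneg_right (by linarith) (by positivity))
  · intro Z hZ s hs
    obtain ⟨hfin, hle⟩ := h2 Z hZ
    have hlZ : 0 ≤ Real.log Z := Real.log_nonneg hZ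
    rw [finsum_mem_eq_finite_toFinset_sum _ hfin] at hle
    have hsupp : ∀ A ∉ hfin.toFinset,
        (if (NO kp A : ℝ) ≤ Z then wX S kp Om lam s A else 0) = 0 := by
      intro A hA
      rw [Set.Finite.mem_toFinset] at hA
      split_ifs with h3
      · unfold wX
        rw [if_neg fun h4 => hA ⟨h4, h3⟩]
      · rfl
    refine ⟨summable_of_ne_finset_zero hsupp, ?_⟩
    rw [tsum_eq_sum hsupp]
    have h5 : ∑ A ∈ hfin.toFinset, (if (NO kp A : ℝ) ≤ Z then wX S kp Om lam s A else 0) ≤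
        ∑ A ∈ hfin.toFinset, ((1 : ℕ) : ℝ) ^ A.card * ((NO kp A : ℝ))⁻¹ * gO kp A ^ (0 : ℝ) := by
      refine Finset.sum_le_sum fun A _ => ?_
      rw [Real.rpow_zero, mul_one, Nat.cast_one, one_pow, one_mul]
      have hN1 : (1 : ℝ) ≤ (NO kp A : ℝ) := one_le_NO kp A
      have hN0 : (0 : ℝ) < (NO kp A : ℝ) := by linarith
      split_ifs
      · unfold wX
        split_ifs
        · refine (mul_le_of_le_one_left (by positivity) (hpow A)).trans ?_
          rw [← Real.rpow_neg_one]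
          exact Real.rpow_le_rpow_of_exponent_le hN1 (by linarith)
        · positivity
      · positivity
    refine (h5.trans hle).trans ?_
    refine mul_le_mul (by linarith) ?_ (by positivity) (by linarith)
    exact Real.rpow_le_rpow_of_exponent_le (by linarith) (by linarith)

end Pool.Agent.T3h73.SG.FamX
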