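import Pool.Agent.T3h73.SG.StmD

/-!
# SG (helper88): functoriality of `mapJ`, conjugation of Galois groups
-/

set_option autoImplicit false
set_option linter.all false

open Polynomial IsDedekindDomain NumberField Topology

namespace Pool.Agent.T3h73.SG.JBas

open Pool.Agent.Y713.Jac (J mapJ Gal CoordRing coordMap)

theorem mapJ_comp {ℓ : ℕ} {K : Type} [Field K] {F : K[X]} {L L' L'' : Type} [Field L]
    [Algebra K L] [Field L'] [Algebra K L'] [Field L''] [Algebra K L''] (φ : L →ₐ[K] L')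
    (ψ : L' →ₐ[K] L'') (P : J ℓ F L) : mapJ ℓ F ψ (mapJ ℓ F φ P) = mapJ ℓ F (ψ.comp φ) P := by
  unfold mapJ
  rw [CommRing.Pic.mapRingHom_mapRingHom]
  congr 1
  have h : (coordMap ℓ F ψ).comp (coordMap ℓ F φ) = coordMap ℓ F (ψ.comp φ) := by
    apply AdjoinRoot.ringHom_ext
    · ext x
      · simp [coordMap, AdjoinRoot.map_of]
      · simp [coordMap, AdjoinRoot.map_of]
    · simp [coordMap, AdjoinRoot.map_root]
  rw [h]

theorem mapJ_id {ℓ : ℕ} {K : Type} [Field K] {F : K[X]} {L : Type} [Field L]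
    [Algebra K L] (P : J ℓ F L) : mapJ ℓ F (AlgHom.id K L) P = P := by
  unfold mapJ
  have h : coordMap ℓ F (AlgHom.id K L) = RingHom.id _ := by
    apply AdjoinRoot.ringHom_ext
    · ext x
      · simp [coordMap, AdjoinRoot.map_of]
      · simp [coordMap, AdjoinRoot.map_of]
    · simp [coordMap, AdjoinRoot.map_root]
  rw [h, CommRing.Pic.mapRingHom_id_apply]

theorem mapJ_sq {ℓ : ℕ} {K : Type} [Field K] {F : K[X]} {L L1 L2 L3 : Type} [Field L]
    [Algebra K L] [Field L1] [Algebra K L1] [Field L2] [Algebra K L2] [Field L3] [Algebra K L3]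
    (φ : L →ₐ[K] L1) (ψ : L1 →ₐ[K] L3) (φ' : L →ₐ[K] L2) (ψ' : L2 →ₐ[K] L3)
    (h : ∀ x, ψ (φ x) = ψ' (φ' x)) (P : J ℓ F L) :
    mapJ ℓ F ψ (mapJ ℓ F φ P) = mapJ ℓ F ψ' (mapJ ℓ F φ' P) := by
  rw [mapJ_comp, mapJ_comp]
  congr 1
  congr 1
  exact AlgHom.ext h

theorem mapJ_inv {ℓ : ℕ} {K : Type} [Field K] {F : K[X]} {L L1 : Type} [Field L]
    [Algebra K L] [Field L1] [Algebra K L1] (φ : L →ₐ[K] L1) (ψ : L1 →ₐ[K] L)
    (h : ∀ x, ψ (φ x) = x) (P : J ℓ F L) : mapJ ℓ F ψ (mapJ ℓ F φ P) = P := by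
  rw [mapJ_comp]
  have : ψ.comp φ = AlgHom.id K L := AlgHom.ext h
  rw [this, mapJ_id]

theorem cont_conj {K L1 L2 : Type} [Field K] [Field L1] [Field L2] [Algebra K L1] [Algebra K L2]
    (e : L1 ≃ₐ[K] L2) :
    Continuous ((AlgEquiv.autCongr e).symm : (L2 ≃ₐ[K] L2) → (L1 ≃ₐ[K] L1)) := by
  have h : Continuous ((AlgEquiv.autCongr e).symm : (L2 ≃ₐ[K] L2) →* (L1 ≃ₐ[K] L1)) := by
    refine continuous_of_continuousAt_one _ ?_
    intro U hU
    rw [map_one, krullTopology_mem_nhds_one_iff] at hU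
    obtain ⟨E, hE, hEU⟩ := hU
    rw [Filter.mem_map, krullTopology_mem_nhds_one_iff]
    refine ⟨E.map (e : L1 →ₐ[K] L2), ?_, ?_⟩
    · exact LinearEquiv.finiteDimensional (E.intermediateFieldMap e).toLinearEquiv
    · intro σ hσ
      apply hEU
      rw [SetLike.mem_coe, IntermediateField.mem_fixingSubgroup_iff] at hσ ⊢
      intro x hx
      have h1 : σ (e x) = e x := hσ (e x) ⟨x, hx, rfl⟩
      show e.symm (σ (e x)) = x
      rw [h1, AlgEquiv.symm_apply_apply]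
  exact h

end Pool.Agent.T3h73.SG.JBas
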