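import Pool.Agent.T3h73.SG.StmX

/-!
# Project SG. Places of a Galois extension `M / K`
-/

set_option autoImplicit false
set_option linter.all false

open NumberField IsDedekindDomain Filter Topology

namespace Pool.Agent.T3h73.SG

open Pool.Agent.T3h73.SL (Pl)

section
variable {K M : Type} [Field K] [NumberField K] [Field M] [NumberField M] [Algebra K M]

/-- the place of `K` below `w` -/
noncomputable def lo (w : Pl M) : Pl K where
  asIdeal := w.asIdeal.under (𝓞 K)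
  isPrime := inferInstance
  ne_bot := by
    have h : Algebra.IsIntegral (𝓞 K) (𝓞 M) := inferInstance
    exact Ideal.IsIntegral.comap_ne_bot (𝓞 K) w.ne_bot

/-- the place `g w`: an integer `x` is in the prime ideal `g w` if and only if `g⁻¹ x` is in `w` -/
noncomputable def gp (g : M ≃ₐ[K] M) (w : Pl M) : Pl M where
  asIdeal := w.asIdeal.comap
    (RingOfIntegers.mapRingEquiv (g⁻¹ : M ≃ₐ[K] M).toRingEquiv : 𝓞 M ≃+* 𝓞 M)
  isPrime := inferInstance
  ne_bot := by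
    intro h
    apply w.ne_bot
    rw [eq_bot_iff]
    intro x hx
    have h1 : (RingOfIntegers.mapRingEquiv (g⁻¹ : M ≃ₐ[K] M).toRingEquiv).symm x ∈
        w.asIdeal.comap
          (RingOfIntegers.mapRingEquiv (g⁻¹ : M ≃ₐ[K] M).toRingEquiv : 𝓞 M ≃+* 𝓞 M) := by
      rw [Ideal.mem_comap]
      show (RingOfIntegers.mapRingEquiv (g⁻¹ : M ≃ₐ[K] M).toRingEquiv)
        ((RingOfIntegers.mapRingEquiv (g⁻¹ : M ≃ₐ[K] M).toRingEquiv).symm x) ∈ w.asIdeal
      rwa [RingEquiv.apply_symm_apply]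
    rw [h, Ideal.mem_bot] at h1
    rw [Ideal.mem_bot]
    exact (RingEquiv.symm _).injective (h1.trans (map_zero _).symm)

/-- `D` is the decomposition group of `w` -/
def DG (w : Pl M) (D : Subgroup (M ≃ₐ[K] M)) : Prop := ∀ g : M ≃ₐ[K] M, g ∈ D ↔ gp g w = w

open Classical in
/-- the places of `M` above the places in `P` -/
noncomputable def up (P : Finset (Pl K)) : Finset (Pl M) :=
  if h : {w : Pl M | (lo w : Pl K) ∈ P}.Finite then h.toFinset else ∅

/-- outside `S` the extension `M / K` is unramified (and what follows from this for Galois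
extensions) -/
def Unr (K M : Type) [Field K] [NumberField K] [Field M] [NumberField M] [Algebra K M]
    (S : Finset (Pl K)) : Prop :=
  ∀ w : Pl M, (lo w : Pl K) ∉ S →
    (∀ x : K, w.valuation M (algebraMap K M x) = (lo w : Pl K).valuation K x) ∧
    ∀ D : Subgroup (M ≃ₐ[K] M), DG w D → IsCyclic D ∧
      Ideal.absNorm w.asIdeal = Ideal.absNorm (lo w : Pl K).asIdeal ^ Nat.card D ∧
      {w' : Pl M | (lo w' : Pl K) = lo w}.ncard * Nat.card D = Nat.card (M ≃ₐ[K] M)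

end

/-- PLC: basic facts on the action of the Galois group on the places -/
def S_PLC : Prop := ∀ (K M : Type) [Field K] [NumberField K] [Field M] [NumberField M]
  [Algebra K M] [IsGalois K M],
  (∀ (g : M ≃ₐ[K] M) (w : Pl M) (x : M), (gp g w).valuation M (g x) = w.valuation M x) ∧
  (∀ w : Pl M, gp (1 : M ≃ₐ[K] M) w = w) ∧
  (∀ (g h : M ≃ₐ[K] M) (w : Pl M), gp (g * h) w = gp g (gp h w)) ∧
  (∀ (g : M ≃ₐ[K] M) (w : Pl M), (lo (gp g w) : Pl K) = lo w) ∧
  (∀ w w' : Pl M, (lo w : Pl K) = lo w' → ∃ g : M ≃ₐ[K] M, gp g w = w') ∧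
  (∀ q : Pl K, {w : Pl M | (lo w : Pl K) = q}.Finite ∧ {w : Pl M | (lo w : Pl K) = q}.Nonempty) ∧
  (∀ (P : Finset (Pl K)) (w : Pl M), w ∈ up P ↔ (lo w : Pl K) ∈ P) ∧
  Fib (lo : Pl M → Pl K) ∧
  (∃ S₀ : Finset (Pl K), Unr K M S₀) ∧
  (∀ (w : Pl M), ∃ e : ℕ, 0 < e ∧ e ∣ Nat.card (M ≃ₐ[K] M) ∧ ∀ x : K,
    w.valuation M (algebraMap K M x) = (lo w : Pl K).valuation K x ^ e)

/-- PLE: the places of an intermediate field `E`; `M / K` is unramified outside `S` -/
def S_PLE : Prop := ∀ (K E M : Type) [Field K] [NumberField K] [Field E] [NumberField E] [Field M]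
  [NumberField M] [Algebra K E] [Algebra E M] [Algebra K M] [IsScalarTower K E M] [IsGalois K M]
  [IsGalois E M] (S : Finset (Pl K)), Unr K M S → ∀ w : Pl M, (lo w : Pl K) ∉ S →
  (lo (lo w : Pl E) : Pl K) = lo w ∧
  (∀ g : M ≃ₐ[E] M, gp g w = gp (g.restrictScalars K) w) ∧
  (∀ w' : Pl M, (lo w' : Pl E) = lo w ↔ ∃ g : M ≃ₐ[E] M, gp (g.restrictScalars K) w = w') ∧
  (∀ D : Subgroup (M ≃ₐ[E] M), DG w D →
    Ideal.absNorm w.asIdeal = Ideal.absNorm (lo w : Pl E).asIdeal ^ Nat.card D ∧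
    {w' : Pl M | (lo w' : Pl E) = lo w}.ncard * Nat.card D = Nat.card (M ≃ₐ[E] M)) ∧
  (lo w : Pl E).asIdeal.map (algebraMap (𝓞 E) (𝓞 M)) =
    ∏ᶠ w' ∈ {w' : Pl M | (lo w' : Pl E) = lo w}, w'.asIdeal

end Pool.Agent.T3h73.SG
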