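import Pool.Agent.T3h73.SG.StmM
import Pool.Agent.T3h73.SG.Def
import Pool.Agent.T3h73.SN.Stm3

/-!
# Project SG. Part D: descent

`K` is a number field with a primitive `ℓ`-th root of unity, `M / K` a Galois extension of degree prime to
`ℓ`, `F ∈ K[x]` a polynomial whose roots are in `M`; `D : Dat ℓ n M` (library `Pool.Agent.Y713.SE`) is the
curve `y ^ ℓ = F(x)` over `M`.
-/

set_option autoImplicit false
set_option linter.all false

open NumberField IsDedekindDomain Polynomial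

namespace Pool.Agent.T3h73.SG

open Pool.Agent.T3h73.SL (Pl IsP Pk loc)
open Pool.Agent.T3h73.SN (Lcv Kx tor δu gu S_LCC S_ADJ S_LCV)
open Pool.Agent.Y713.SE Pool.Agent.Y713.SE.Dat
open Pool.Agent.Y713.Jac (J mapJ Gal)

/-- the invariant part of the Selmer group of the curve `D` over `M` is zero (`S` contains the bad
places) -/
def SelMinG {ℓ n : ℕ} {K M : Type} [Field K] [NumberField K] [Field M] [NumberField M] [Algebra K M]
    (pm : (M ≃ₐ[K] M) →* Equiv.Perm (Fin n)) (D : Dat ℓ n M) (S : Finset (Pl K)) : Prop :=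
  ∀ x : Fin n → Mˣ,
    (∀ (γ : M ≃ₐ[K] M) (i : Fin n), ∃ z : Mˣ, γ (x i : M) = (x (pm γ i) : M) * (z : M) ^ ℓ) →
    IsP ℓ (∏ i, x i) →
    (∀ w ∈ up S, (fun i => loc w (x i)) ∈ Lcv (D.base (w.adicCompletion M))) →
    (∀ w : Pl M, (lo w : Pl K) ∉ S → Pw ℓ (w.valuation M D.δ) → ∀ i, Pw ℓ (w.valuation M (x i : M))) →
    (∀ w : Pl M, (lo w : Pl K) ∉ S → ¬ Pw ℓ (w.valuation M D.δ) → ∃ c : Fin n → ℤ,
      (ℓ : ℤ) ∣ ∑ i, c i ∧ ∀ i, IsP ℓ (loc w (x i * (tor D c i)⁻¹))) →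
    ∀ i, IsP ℓ (x i)

section
variable {ℓ : ℕ} {K : Type} [Field K] (F : K[X]) {L : Type} [Field L] [Algebra K L]

/-- cocycles of `Gal(L / K)` with values in `J(L)` -/
def CocL (f : (L ≃ₐ[K] L) → J ℓ F L) : Prop :=
  IsLocallyConstant f ∧ ∀ σ τ, f (σ * τ) = f σ * mapJ ℓ F σ.toAlgHom (f τ)

/-- coboundaries -/
def CobL (f : (L ≃ₐ[K] L) → J ℓ F L) : Prop := ∃ Q : J ℓ F L, ∀ σ, f σ = mapJ ℓ F σ.toAlgHom Q / Q

/-- triviality over an extension -/
def TrvL (E Ω : Type) [Field E] [Field Ω] [Algebra K E] [Algebra E Ω] [Algebra K Ω]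
    [IsScalarTower K E Ω] (f : (L ≃ₐ[K] L) → J ℓ F L) : Prop :=
  ∃ (ι : L →ₐ[K] Ω) (P : J ℓ F Ω), ∀ (τ : Ω ≃ₐ[E] Ω) (σ : L ≃ₐ[K] L),
    (∀ x : L, τ (ι x) = ι (σ x)) → mapJ ℓ F ι (f σ) = mapJ ℓ F (τ.toAlgHom.restrictScalars K) P / P

end

/-- `Def.Zero` in terms of another separable closure `L` of `K` -/
def ZeroL (ℓ : ℕ) {K : Type} [Field K] [NumberField K] (F : K[X]) (L : Type) [Field L]
    [Algebra K L] : Prop :=
  (∀ (f : (L ≃ₐ[K] L) → J ℓ F L) (m : ℕ), CocL F f →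
    (∀ v : Pl K, TrvL F (v.adicCompletion K) (SeparableClosure (v.adicCompletion K)) f) →
    CobL F (fun σ => f σ ^ ℓ ^ m) → CobL F f) ∧
  ∀ P : J ℓ F L, (∀ σ : L ≃ₐ[K] L, mapJ ℓ F σ.toAlgHom P = P) →
    ∃! Q : J ℓ F L, (∀ σ : L ≃ₐ[K] L, mapJ ℓ F σ.toAlgHom Q = Q) ∧ Q ^ ℓ = P

/-- DTR: change of the separable closure -/
def S_DTR : Prop := ∀ (ℓ : ℕ) (K M : Type) [Field K] [NumberField K] [Field M] [NumberField M]
  [Algebra K M] (F : K[X]), ZeroL ℓ F (SeparableClosure M) → Def.Zero ℓ K F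

/-- DLC: cocycles which are trivial over the completion of `K` are trivial over the completions of
`M` -/
def S_DLC : Prop := ∀ (ℓ : ℕ) (K M : Type) [Field K] [NumberField K] [Field M] [NumberField M]
  [Algebra K M] [IsGalois K M] (F : K[X])
  (f : (SeparableClosure M ≃ₐ[K] SeparableClosure M) → J ℓ F (SeparableClosure M)),
  (∀ σ τ, f (σ * τ) = f σ * mapJ ℓ F σ.toAlgHom (f τ)) → ∀ w : Pl M,
  TrvL F ((lo w : Pl K).adicCompletion K) (SeparableClosure ((lo w : Pl K).adicCompletion K)) f →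
  ∃ (ι : SeparableClosure M →ₐ[M] SeparableClosure (w.adicCompletion M))
    (hι : ∀ x : K, ι (algebraMap K _ x) = algebraMap K _ x)
    (P : J ℓ F (SeparableClosure (w.adicCompletion M))),
    ∀ (τ : SeparableClosure (w.adicCompletion M) ≃ₐ[w.adicCompletion M]
        SeparableClosure (w.adicCompletion M)) (σ : SeparableClosure M ≃ₐ[M] SeparableClosure M),
      (∀ x, τ (ι x) = ι (σ x)) →
      mapJ ℓ F (⟨(ι : SeparableClosure M →+* SeparableClosure (w.adicCompletion M)), hι⟩ :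
          SeparableClosure M →ₐ[K] SeparableClosure (w.adicCompletion M)) (f (σ.restrictScalars K)) =
        mapJ ℓ F (τ.toAlgHom.restrictScalars K) P / P

/-- DPK: the groups `J(E)` and the class groups of the coordinate rings of `D` -/
def S_DPK : Prop := ∀ (ℓ n : ℕ) (K M : Type) [Field K] [CharZero K] [Field M] [Algebra K M]
  [FiniteDimensional K M] (F : K[X]) (D : Dat ℓ n M) (ζ : K), D.ζ = algebraMap K M ζ →
  D.f = F.map (algebraMap K M) →
  ∃ β : ∀ (E : Type) [Field E] [Algebra K E] [Algebra M E] [IsScalarTower K M E],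
    ClassGroup (D.base E).A ≃* J ℓ F E,
  (∀ (E E' : Type) [Field E] [Algebra K E] [Algebra M E] [IsScalarTower K M E] [Field E']
    [Algebra K E'] [Algebra M E'] [IsScalarTower K M E'] (φ : E →ₐ[M] E') (φ' : E →ₐ[K] E'),
    (∀ x, φ' x = φ x) → ∀ c, mapJ ℓ F φ' (β E c) = β E' (D.mC φ c)) ∧
  (∀ (E : Type) [Field E] [Algebra K E] [Algebra M E] [IsScalarTower K M E] (τ : E ≃ₐ[K] E)
    (c : ClassGroup (D.base E).A), ∃ c' : ClassGroup (D.base E).A,
      mapJ ℓ F τ.toAlgHom (β E c) = β E c' ∧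
      mapJ ℓ F τ.toAlgHom (β E ((D.base E).sC c)) = β E ((D.base E).sC c')) ∧
  (∀ (E : Type) [Field E] [Algebra K E] [Algebra M E] [IsScalarTower K M E] (τ : E ≃ₐ[K] E)
    (i j : Fin n), τ (algebraMap M E (D.e i)) = algebraMap M E (D.e j) →
    mapJ ℓ F τ.toAlgHom (β E (cl ((D.base E).PP i))) = β E (cl ((D.base E).PP j))) ∧
  (∀ (E : Type) [Field E] [Algebra K E] [Algebra M E] [IsScalarTower K M E] [IsGalois K E]
    (Q : J ℓ F E), IsLocallyConstant (fun σ : E ≃ₐ[K] E => mapJ ℓ F σ.toAlgHom Q))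

/-- DRD: reduction to cocycles with values in the kernel of `1 - s`, for a group `Γ` acting on the
class group; `P` is the set of the (locally constant, locally trivial) cocycles -/
def S_DRD : Prop := ∀ (ℓ n : ℕ) (E : Type) [Field E] [CharZero E] [IsSepClosed E] (D : Dat ℓ n E)
  (Γ : Type) [Group Γ] (tm : Γ →* MulAut (ClassGroup D.A)),
  (∀ γ c, tm γ (D.sC c) = D.sC (tm γ c)) → ∀ P : (Γ → ClassGroup D.A) → Prop,
  (∀ c, P c → ∀ σ τ, c (σ * τ) = c σ * tm σ (c τ)) →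
  (∀ c Q, P c → P (fun σ => c σ / (tm σ Q / Q))) → (∀ c, P c → P (fun σ => D.phi (c σ))) →
  P (fun _ => 1) →
  (∀ χ : Γ → Fin n → ℕ, P (fun σ => cl (D.PT (χ σ))) →
    ∃ m : Fin n → ℕ, ∀ σ, cl (D.PT (χ σ)) = tm σ (cl (D.PT m)) / cl (D.PT m)) →
  (∀ m : Fin n → ℕ, (∀ σ, tm σ (cl (D.PT m)) = cl (D.PT m)) → cl (D.PT m) = 1) →
  (∀ (c : Γ → ClassGroup D.A) (m : ℕ), P c → (∃ Q, ∀ σ, c σ ^ ℓ ^ m = tm σ Q / Q) →
    ∃ Q, ∀ σ, c σ = tm σ Q / Q) ∧
  ∀ R : ClassGroup D.A, (∀ σ, tm σ R = R) → ∃! Q, (∀ σ, tm σ Q = Q) ∧ Q ^ ℓ = R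

/-- the situation for the cocycles with values in the kernel of `1 - s` -/
structure CtD (ℓ n : ℕ) (K M : Type) [Field K] [NumberField K] [Field M] [NumberField M] [Algebra K M]
    (pm : (M ≃ₐ[K] M) →* Equiv.Perm (Fin n)) (D : Dat ℓ n M) (ζ : K)
    (tm : (SeparableClosure M ≃ₐ[K] SeparableClosure M) →*
      MulAut (ClassGroup (D.base (SeparableClosure M)).A))
    (χ : (SeparableClosure M ≃ₐ[K] SeparableClosure M) → Fin n → ℕ) : Prop where
  hG : ¬ ℓ ∣ Nat.card (M ≃ₐ[K] M)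
  hζ : D.ζ = algebraMap K M ζ
  hpm : ∀ γ i, γ (D.e i) = D.e (pm γ i)
  htm : ∀ σ : SeparableClosure M ≃ₐ[M] SeparableClosure M, ∀ c,
    tm (σ.restrictScalars K) c = D.mC (au σ) c
  hPT : ∀ (σ : SeparableClosure M ≃ₐ[K] SeparableClosure M) (γ : M ≃ₐ[K] M),
    (∀ x : M, σ (algebraMap M _ x) = algebraMap M _ (γ x)) → ∀ m : Fin n → ℕ,
    tm σ (cl ((D.base (SeparableClosure M)).PT m)) =
      cl ((D.base (SeparableClosure M)).PT (fun i => m ((pm γ)⁻¹ i)))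
  hlc : IsLocallyConstant (fun σ => cl ((D.base (SeparableClosure M)).PT (χ σ)))
  hco : ∀ σ τ, cl ((D.base (SeparableClosure M)).PT (χ (σ * τ))) =
    cl ((D.base (SeparableClosure M)).PT (χ σ)) * tm σ (cl ((D.base (SeparableClosure M)).PT (χ τ)))

/-- DKU: the Kummer classes of a cocycle over `K` are equivariant -/
def S_DKU : Prop := ∀ (ℓ n : ℕ) (K M : Type) [Field K] [NumberField K] [Field M] [NumberField M]
  [Algebra K M] [IsGalois K M] (pm : (M ≃ₐ[K] M) →* Equiv.Perm (Fin n)) (D : Dat ℓ n M) (ζ : K)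
  (tm : (SeparableClosure M ≃ₐ[K] SeparableClosure M) →*
      MulAut (ClassGroup (D.base (SeparableClosure M)).A))
  (χ : (SeparableClosure M ≃ₐ[K] SeparableClosure M) → Fin n → ℕ), CtD ℓ n K M pm D ζ tm χ →
  ∀ (kd : D.KD (fun σ : SeparableClosure M ≃ₐ[M] SeparableClosure M => χ (σ.restrictScalars K)))
    (x : Fin n → Mˣ), Kx D kd x → ∀ (γ : M ≃ₐ[K] M) (i : Fin n),
    ∃ z : Mˣ, γ (x i : M) = (x (pm γ i) : M) * (z : M) ^ ℓ

/-- DAV: a cocycle with values in the kernel of `1 - s` which is trivial on `Gal(M^sep / M)` -/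
def S_DAV : Prop := ∀ (ℓ n : ℕ) (K M : Type) [Field K] [NumberField K] [Field M] [NumberField M]
  [Algebra K M] [IsGalois K M] (pm : (M ≃ₐ[K] M) →* Equiv.Perm (Fin n)) (D : Dat ℓ n M) (ζ : K)
  (tm : (SeparableClosure M ≃ₐ[K] SeparableClosure M) →*
      MulAut (ClassGroup (D.base (SeparableClosure M)).A))
  (χ : (SeparableClosure M ≃ₐ[K] SeparableClosure M) → Fin n → ℕ), CtD ℓ n K M pm D ζ tm χ →
  (∀ σ : SeparableClosure M ≃ₐ[M] SeparableClosure M,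
    cl ((D.base (SeparableClosure M)).PT (χ (σ.restrictScalars K))) = 1) →
  ∃ m : Fin n → ℕ, ∀ σ, cl ((D.base (SeparableClosure M)).PT (χ σ)) =
    tm σ (cl ((D.base (SeparableClosure M)).PT m)) / cl ((D.base (SeparableClosure M)).PT m)

/-- DCR: locally trivial cocycles with values in the kernel of `1 - s` -/
def S_DCR : Prop := ∀ (ℓ n : ℕ) (_ : ℓ ≠ 2) (K M : Type) [Field K] [NumberField K] [Field M]
  [NumberField M] [Algebra K M] [IsGalois K M] (pm : (M ≃ₐ[K] M) →* Equiv.Perm (Fin n))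
  (D : Dat ℓ n M) (ζ : K)
  (tm : (SeparableClosure M ≃ₐ[K] SeparableClosure M) →*
      MulAut (ClassGroup (D.base (SeparableClosure M)).A))
  (χ : (SeparableClosure M ≃ₐ[K] SeparableClosure M) → Fin n → ℕ), CtD ℓ n K M pm D ζ tm χ →
  ∀ S : Finset (Pl K), (∀ w : Pl M, (lo w : Pl K) ∉ S → D.Sep1 w ∧ w.valuation M (ℓ : M) = 1) →
  SelMinG pm D S →
  (∀ w : Pl M, D.Triv (w.adicCompletion M) (SeparableClosure (w.adicCompletion M))
    (fun σ : SeparableClosure M ≃ₐ[M] SeparableClosure M =>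
      cl ((D.base (SeparableClosure M)).PT (χ (σ.restrictScalars K))))) →
  ∃ m : Fin n → ℕ, ∀ σ, cl ((D.base (SeparableClosure M)).PT (χ σ)) =
    tm σ (cl ((D.base (SeparableClosure M)).PT m)) / cl ((D.base (SeparableClosure M)).PT m)

/-- DMN: descent -/
def S_DMN : Prop := ∀ (ℓ n : ℕ) (_ : ℓ ≠ 2) (K M : Type) [Field K] [NumberField K] [Field M]
  [NumberField M] [Algebra K M] [IsGalois K M] (pm : (M ≃ₐ[K] M) →* Equiv.Perm (Fin n)),
  GPm ℓ n (M ≃ₐ[K] M) pm → ∀ (F : K[X]) (D : Dat ℓ n M) (ζ : K), D.ζ = algebraMap K M ζ →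
  D.f = F.map (algebraMap K M) → (∀ (γ : M ≃ₐ[K] M) (i : Fin n), γ (D.e i) = D.e (pm γ i)) →
  ∀ S : Finset (Pl K), (∀ w : Pl M, (lo w : Pl K) ∉ S → D.Sep1 w ∧ w.valuation M (ℓ : M) = 1) →
  SelMinG pm D S → Def.Zero ℓ K F

end Pool.Agent.T3h73.SG
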