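import Pool.Agent.T3h73.SG.StmZ

/-!
# Project SG. Part Z, continued: the moments
-/

set_option autoImplicit false
set_option linter.all false

open NumberField IsDedekindDomain Filter Topology

namespace Pool.Agent.T3h73.SG

open Pool.Agent.T3h73.SL (Pl IsP Pk loc)
open Pool.Agent.T3h73.SD (ee NA gA T0 SymSys SP Cl kap TYPQ S_T0L S_MASS S_UNL S_CNTU S_MAINU)
open Pool.Agent.T3h73.SN (Sz tens inc ClW slc hcW S_DISTA)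
open Pool.Agent.Y713.SE (Pw)

/-- ZBL: the bilinear sums for two linked colours -/
def S_ZBL : Prop := ∀ (ℓ n : ℕ) [Fact ℓ.Prime] (_ : ℓ ≠ 2) (K M : Type) [Field K] [NumberField K]
  [Field M] [NumberField M] [Algebra K M] [IsGalois K M] (pm : (M ≃ₐ[K] M) →* Equiv.Perm (Fin n))
  (S : Finset (Pl K)) (𝔪 : Ideal (𝓞 M)) (V : Type) [AddCommGroup V] [Module (ZMod ℓ) V] [Finite V]
  (av : (M ≃ₐ[K] M) →* Module.End (ZMod ℓ) V) (ψ : V →ₗ[ZMod ℓ] V →ₗ[ZMod ℓ] ZMod ℓ)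
  (L0 L1 : Submodule (ZMod ℓ) V) (LL : Submodule (ZMod ℓ) (Sz ℓ n V)) (π : V →ₗ[ZMod ℓ] L0)
  (u : L0) (d1 : V) (g : Fin n → Fin n → L0) (t : Pl M → V) (sy : Pl M → Pl M → ZMod ℓ),
  ModelG ℓ n K M pm S 𝔪 V av ψ L0 L1 LL π u d1 g t sy → ∀ (k : ℕ) (x y : CG pm ℓ k),
  lkG pm x y → ∃ E θ : ℝ, 0 < E ∧ 0 < θ ∧ ∀ M₀ N : ℝ, 1 ≤ M₀ → 1 ≤ N →
    ∀ 𝒜 ℬ : Finset (Finset (Pl M)),
    (∀ A ∈ 𝒜, Ad S (lo : Pl M → Pl K) (OmG pm x) A ∧ (NO (lo : Pl M → Pl K) A : ℝ) ≤ M₀) →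
    (∀ B ∈ ℬ, Ad S (lo : Pl M → Pl K) (OmG pm y) B ∧ (NO (lo : Pl M → Pl K) B : ℝ) ≤ N) →
    ∀ α β : Finset (Pl M) → ℂ, (∀ A, ‖α A‖ ≤ 1) → (∀ B, ‖β B‖ ≤ 1) →
    ‖∑ A ∈ 𝒜, ∑ B ∈ ℬ, open Classical in if Dj (lo : Pl M → Pl K) A B then α A * β B *
        ee ℓ (∑ w ∈ A, ∑ w' ∈ B, (rhoG pm sy x y w w' + rhoG pm sy y x w' w)) else 0‖ ≤
      E * M₀ * N * (min M₀ N) ^ (-θ) * (1 + Real.log M₀ + Real.log N) ^ E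

open Classical in
/-- ZEU: the sums over one variable -/
def S_ZEU : Prop := ∀ (ℓ n : ℕ) [Fact ℓ.Prime] (_ : ℓ ≠ 2) (K M : Type) [Field K] [NumberField K]
  [Field M] [NumberField M] [Algebra K M] [IsGalois K M] (pm : (M ≃ₐ[K] M) →* Equiv.Perm (Fin n))
  (S : Finset (Pl K)) (𝔪 : Ideal (𝓞 M)) (V : Type) [AddCommGroup V] [Module (ZMod ℓ) V] [Finite V]
  (av : (M ≃ₐ[K] M) →* Module.End (ZMod ℓ) V) (ψ : V →ₗ[ZMod ℓ] V →ₗ[ZMod ℓ] ZMod ℓ)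
  (L0 L1 : Submodule (ZMod ℓ) V) (LL : Submodule (ZMod ℓ) (Sz ℓ n V)) (π : V →ₗ[ZMod ℓ] L0)
  (u : L0) (d1 : V) (g : Fin n → Fin n → L0) (t : Pl M → V) (sy : Pl M → Pl M → ZMod ℓ),
  ModelG ℓ n K M pm S 𝔪 V av ψ L0 L1 LL π u d1 g t sy → ∀ (k : ℕ) (hh : ClW ℓ n k → L0),
  (∀ (D : Subgroup (M ≃ₐ[K] M)) (a : ClW ℓ n k), (∀ γ ∈ D, aC pm γ a = a) →
    ∀ γ ∈ D, av γ (hh a : V) = hh a) →
  ∀ x : CG pm ℓ k, goodG pm x → ∃ E : ℝ, 0 < E ∧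
  ∀ (B : CG pm ℓ k → Finset (Pl M)) (F : Finset (Pl K)),
    (∀ y, Ad S (lo : Pl M → Pl K) (OmG pm y) (B y)) →
    (∀ y z, y ≠ z → Dj (lo : Pl M → Pl K) (B y) (B z)) → B x = ∅ →
    (hh x.1.2.1 ≠ 0 ∨ ∃ y, lkG pm y x ∧ (B y).Nonempty) → ∀ s : ℝ, 1 < s → s ≤ 2 →
    ‖∑' A : Finset (Pl M), if Ad S (lo : Pl M → Pl K) (OmG pm x) A ∧
        (∀ y, Dj (lo : Pl M → Pl K) A (B y)) ∧ Disjoint (A.image (lo : Pl M → Pl K)) F then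
      ((lamG pm x ^ A.card * (NO (lo : Pl M → Pl K) A : ℝ) ^ (-s) : ℝ) : ℂ) *
        ee ℓ (∑ w ∈ A, (chiG pm ψ L0 t hh x w +
          ∑ y, ∑ b ∈ B y, (rhoG pm sy x y w b + rhoG pm sy y x b w))) else 0‖ ≤
      E * (1 + Real.log (∏ y, (NO (lo : Pl M → Pl K) (B y) : ℝ))) ^ E * gA F ^ E

/-- ZCS: the coloured system -/
def S_ZCS : Prop := ∀ (ℓ n : ℕ) [Fact ℓ.Prime] (_ : ℓ ≠ 2) (K M : Type) [Field K] [NumberField K]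
  [Field M] [NumberField M] [Algebra K M] [IsGalois K M] (pm : (M ≃ₐ[K] M) →* Equiv.Perm (Fin n))
  (S : Finset (Pl K)) (𝔪 : Ideal (𝓞 M)) (V : Type) [AddCommGroup V] [Module (ZMod ℓ) V] [Finite V]
  (av : (M ≃ₐ[K] M) →* Module.End (ZMod ℓ) V) (ψ : V →ₗ[ZMod ℓ] V →ₗ[ZMod ℓ] ZMod ℓ)
  (L0 L1 : Submodule (ZMod ℓ) V) (LL : Submodule (ZMod ℓ) (Sz ℓ n V)) (π : V →ₗ[ZMod ℓ] L0)
  (u : L0) (d1 : V) (g : Fin n → Fin n → L0) (t : Pl M → V) (sy : Pl M → Pl M → ZMod ℓ),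
  ModelG ℓ n K M pm S 𝔪 V av ψ L0 L1 LL π u d1 g t sy → ∀ (k : ℕ) (hh : ClW ℓ n k → L0),
  (∀ (D : Subgroup (M ≃ₐ[K] M)) (a : ClW ℓ n k), (∀ γ ∈ D, aC pm γ a = a) →
    ∀ γ ∈ D, av γ (hh a : V) = hh a) →
  CS ℓ K S (Pl M) lo (CG pm ℓ k) (OmG pm) (lamG pm) (muG pm) (IG pm ψ L0 t sy hh)
    (chiG pm ψ L0 t hh) (rhoG pm sy) (lkG pm) (goodG pm) (fun x => hh x.1.2.1 = 0)

/-- ZHI: the invariance of the characters of the colours -/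
def S_ZHI : Prop := ∀ (ℓ n : ℕ) [Fact ℓ.Prime] (G : Type) [Group G]
  (pm : G →* Equiv.Perm (Fin n)) (V : Type) [AddCommGroup V] [Module (ZMod ℓ) V]
  (av : G →* Module.End (ZMod ℓ) V) (ψ : V →ₗ[ZMod ℓ] V →ₗ[ZMod ℓ] ZMod ℓ)
  (L0 L1 : Submodule (ZMod ℓ) V) (LL : Submodule (ZMod ℓ) (Sz ℓ n V)) (π : V →ₗ[ZMod ℓ] L0)
  (u : L0) (d1 : V) (g : Fin n → Fin n → L0), LinG ℓ n G pm V av ψ L0 L1 LL π u d1 g →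
  ∀ (k : ℕ) (X : Fin k → {x : Sz ℓ n L0 // InvF pm av (fun i => ((x : Fin n → L0) i : V))})
  (α : {α : L0 // ∀ γ, av γ (α : V) = α}) (Z : Fin k → LL) (γ : G) (a : ClW ℓ n k),
  av γ (hcW π u g (fun s => (X s).1) α.1 Z a : V) = hcW π u g (fun s => (X s).1) α.1 Z (aC pm γ a)

open Classical in
/-- ZEX: the moments in terms of the coloured sums -/
def S_ZEX : Prop := ∀ (ℓ n : ℕ) [Fact ℓ.Prime] (_ : ℓ ≠ 2) (K M : Type) [Field K] [NumberField K]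
  [Field M] [NumberField M] [Algebra K M] [IsGalois K M] (pm : (M ≃ₐ[K] M) →* Equiv.Perm (Fin n))
  (S : Finset (Pl K)) (𝔪 : Ideal (𝓞 M)) (V : Type) [AddCommGroup V] [Module (ZMod ℓ) V] [Fintype V]
  (av : (M ≃ₐ[K] M) →* Module.End (ZMod ℓ) V) (ψ : V →ₗ[ZMod ℓ] V →ₗ[ZMod ℓ] ZMod ℓ)
  (L0 L1 : Submodule (ZMod ℓ) V) (LL : Submodule (ZMod ℓ) (Sz ℓ n V)) (π : V →ₗ[ZMod ℓ] L0)
  (u : L0) (d1 : V) (g : Fin n → Fin n → L0) (t : Pl M → V) (sy : Pl M → Pl M → ZMod ℓ),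
  ModelG ℓ n K M pm S 𝔪 V av ψ L0 L1 LL π u d1 g t sy → ∀ (k : ℕ) (s : ℝ), 1 < s → s ≤ 2 →
  ((SP (ℓ := ℓ) S (tK t : Pl K → V) d1
      (fun P => (nG pm av ψ L0 LL u g t sy P : ℝ) ^ k) s : ℝ) : ℂ) =
    ((Nat.card (L0G av L0) : ℂ) * (Nat.card (XG pm av L0) : ℂ) ^ k)⁻¹ *
      ∑ X : Fin k → XG pm av L0, ∑ α : L0G av L0, ∑ Z : Fin k → LL,
        ee ℓ ((Nat.card (M ≃ₐ[K] M) : ZMod ℓ)⁻¹ * (- ψ (α.1 : V) d1 +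
          ∑ r, ∑ i, ψ (((Z r : Sz ℓ n V) : Fin n → V) i) (((X r).1 : Fin n → L0) i : V))) *
        CSum S lo (OmG pm (k := k) (ℓ := ℓ)) (lamG pm)
          (IG pm ψ L0 t sy (hcW π u g (fun s => (X s).1) α.1 Z)) (rhoG pm sy) s

open Classical in
/-- ZMN: the contribution of `W ⊗ Y` -/
def S_ZMN : Prop := ∀ (ℓ n : ℕ) [Fact ℓ.Prime] (_ : ℓ ≠ 2) (G : Type) [Group G] [Finite G]
  (pm : G →* Equiv.Perm (Fin n)) (V : Type) [AddCommGroup V] [Module (ZMod ℓ) V] [Fintype V]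
  (av : G →* Module.End (ZMod ℓ) V) (ψ : V →ₗ[ZMod ℓ] V →ₗ[ZMod ℓ] ZMod ℓ)
  (L0 L1 : Submodule (ZMod ℓ) V) (LL : Submodule (ZMod ℓ) (Sz ℓ n V)) (π : V →ₗ[ZMod ℓ] L0)
  (u : L0) (d1 : V) (g : Fin n → Fin n → L0), LinG ℓ n G pm V av ψ L0 L1 LL π u d1 g →
  ∀ (k : ℕ) (Y : Submodule (ZMod ℓ) (Cl ℓ k)), Iso ℓ k Y →
  ∑ X : Fin k → {x : Sz ℓ n L0 // InvF pm av (fun i => ((x : Fin n → L0) i : V))},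
    ∑ α : {α : L0 // ∀ γ, av γ (α : V) = α}, ∑ Z : Fin k → LL,
      (if ∀ a : ClW ℓ n k, (∀ i, slc a i ∈ Y) → hcW π u g (fun s => (X s).1) α.1 Z a = 0 then
        ee ℓ ((Nat.card G : ZMod ℓ)⁻¹ * (- ψ (α.1 : V) d1 +
          ∑ r, ∑ i, ψ (((Z r : Sz ℓ n V) : Fin n → V) i) (((X r).1 : Fin n → L0) i : V))) else 0) =
    (Nat.card {x : Sz ℓ n L0 // InvF pm av (fun i => ((x : Fin n → L0) i : V))} : ℂ) ^ k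

/-- ZMO: the moments -/
def S_ZMO : Prop := ∀ (ℓ n : ℕ) [Fact ℓ.Prime] (_ : ℓ ≠ 2) (K M : Type) [Field K] [NumberField K]
  [Field M] [NumberField M] [Algebra K M] [IsGalois K M] (pm : (M ≃ₐ[K] M) →* Equiv.Perm (Fin n))
  (S : Finset (Pl K)) (𝔪 : Ideal (𝓞 M)) (V : Type) [AddCommGroup V] [Module (ZMod ℓ) V] [Finite V]
  (av : (M ≃ₐ[K] M) →* Module.End (ZMod ℓ) V) (ψ : V →ₗ[ZMod ℓ] V →ₗ[ZMod ℓ] ZMod ℓ)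
  (L0 L1 : Submodule (ZMod ℓ) V) (LL : Submodule (ZMod ℓ) (Sz ℓ n V)) (π : V →ₗ[ZMod ℓ] L0)
  (u : L0) (d1 : V) (g : Fin n → Fin n → L0) (t : Pl M → V) (sy : Pl M → Pl M → ZMod ℓ),
  ModelG ℓ n K M pm S 𝔪 V av ψ L0 L1 LL π u d1 g t sy → ∀ k : ℕ,
  Tendsto (fun s : ℝ => SP (ℓ := ℓ) S (tK t : Pl K → V) d1
      (fun P => (nG pm av ψ L0 LL u g t sy P : ℝ) ^ k) s / T0 S s) (𝓝[>] 1)
    (𝓝 ((Nat.card (L0G av L0) : ℝ)⁻¹ * ∏ i ∈ Finset.range k, (1 + (ℓ : ℝ) ^ i)))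

/-- ZOR: the order of the Selmer group of the model -/
def S_ZOR : Prop := ∀ (ℓ n : ℕ) [Fact ℓ.Prime] (K M : Type) [Field K] [NumberField K]
  [Field M] [NumberField M] [Algebra K M] [IsGalois K M] (pm : (M ≃ₐ[K] M) →* Equiv.Perm (Fin n))
  (V : Type) [AddCommGroup V] [Module (ZMod ℓ) V] [Finite V]
  (av : (M ≃ₐ[K] M) →* Module.End (ZMod ℓ) V) (ψ : V →ₗ[ZMod ℓ] V →ₗ[ZMod ℓ] ZMod ℓ)
  (L0 : Submodule (ZMod ℓ) V) (LL : Submodule (ZMod ℓ) (Sz ℓ n V))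
  (u : L0) (g : Fin n → Fin n → L0) (t : Pl M → V) (sy : Pl M → Pl M → ZMod ℓ),
  (∀ P : Finset (Pl K), ∃ r : ℕ, nG pm av ψ L0 LL u g t sy P = ℓ ^ r) ∧
  ∃ D m : ℕ, ∀ P : Finset (Pl K), nG pm av ψ L0 LL u g t sy P ≤ D * m ^ P.card

/-- the model controls the property `Q` (compare `MDLW` of project SN) -/
def MDLG (ℓ n : ℕ) (K M : Type) [Field K] [NumberField K] [Field M] [NumberField M]
    [Algebra K M] (pm : (M ≃ₐ[K] M) →* Equiv.Perm (Fin n)) (Q : Kˣ → Prop) : Prop :=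
  ∃ T₀ : Finset (Pl K), ∀ S : Finset (Pl K), T₀ ⊆ S →
  ∀ η : Kˣ, ∃ (𝔪 : Ideal (𝓞 M)) (V : Type) (_ : AddCommGroup V) (_ : Module (ZMod ℓ) V)
  (_ : Finite V) (av : (M ≃ₐ[K] M) →* Module.End (ZMod ℓ) V)
  (ψ : V →ₗ[ZMod ℓ] V →ₗ[ZMod ℓ] ZMod ℓ) (L0 L1 : Submodule (ZMod ℓ) V)
  (LL : Submodule (ZMod ℓ) (Sz ℓ n V)) (π : V →ₗ[ZMod ℓ] L0) (u : L0) (d1 : V)
  (g : Fin n → Fin n → L0) (t : Pl M → V) (sy : Pl M → Pl M → ZMod ℓ),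
  ModelG ℓ n K M pm S 𝔪 V av ψ L0 L1 LL π u d1 g t sy ∧
  (∀ (δ : Kˣ) (P : Finset (Pl K)), (∀ v ∈ S, ∃ z, loc v δ = loc v η * z ^ ℓ) → Disjoint P S →
    (∀ v ∈ P, Pw ℓ (v.valuation K (δ : K) * WithZero.exp (1 : ℤ))) →
    (∀ v, v ∉ S → v ∉ P → Pw ℓ (v.valuation K (δ : K))) →
    ∑ q ∈ P, (tK t q : V) = d1 ∧ (P.Nonempty → nG pm av ψ L0 LL u g t sy P = 1 → Q δ)) ∧
  (∀ P : Finset (Pl K), Disjoint P S → ∑ q ∈ P, (tK t q : V) = d1 → ∃ δ : Kˣ,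
    (∀ v ∈ S, ∃ z, loc v δ = loc v η * z ^ ℓ) ∧
    (∀ v ∈ P, v.valuation K (δ : K) = WithZero.exp (-1 : ℤ)) ∧
    ∀ v, v ∉ S → v ∉ P → v.valuation K (δ : K) = 1) ∧
  ∀ x : Kˣ, (∀ v ∈ S, IsP ℓ (loc v x)) → (∀ v, v ∉ S → Pw ℓ (v.valuation K (x : K))) → IsP ℓ x

/-- ZTY: the proportion for one type -/
def S_ZTY : Prop := ∀ (ℓ n : ℕ) (_ : ℓ.Prime) (_ : ℓ ≠ 2) (K M : Type) [Field K] [NumberField K]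
  [Field M] [NumberField M] [Algebra K M] [IsGalois K M] (pm : (M ≃ₐ[K] M) →* Equiv.Perm (Fin n))
  (Q : Kˣ → Prop), MDLG ℓ n K M pm Q → TYPQ ℓ K Q

end Pool.Agent.T3h73.SG
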