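import Pool.Agent.T3h73.SG.StmD
import Pool.Agent.T3h73.SD.Mdl3

/-!
# Project SG. Part V: construction of the model
-/

set_option autoImplicit false
set_option linter.all false

open NumberField IsDedekindDomain Polynomial

namespace Pool.Agent.T3h73.SG

open Pool.Agent.T3h73.SL (Pl IsP Pk loc Sg)
open Pool.Agent.T3h73.SD (Sv LN SymSys ee TYPQ VT S_SV S_CHS S_VSP S_LZ S_LAG S_DK)
open Pool.Agent.T3h73.SD.MDL (Ctx2 Ctx od)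
open Pool.Agent.T3h73.SN (Sz tens inc Lcv tor δu gu S_LCV S_LLW S_LNZ)
open Pool.Agent.Y713.SE Pool.Agent.Y713.SE.Dat

section
variable {K M : Type} [Field K] [Field M] [Algebra K M]

/-- the action on `M^*` -/
noncomputable def gU (γ : M ≃ₐ[K] M) : Mˣ →* Mˣ := Units.map ((γ : M →+* M) : M →* M)

/-- the inclusion of `K^*` in `M^*` -/
noncomputable def kU : Kˣ →* Mˣ := Units.map (algebraMap K M : K →* M)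

/-- the norm -/
noncomputable def nU : Mˣ →* Kˣ := Units.map (Algebra.norm K : M →* K)

end

/-- VTR: transport of the local notions by an automorphism of `M` -/
def S_VTR : Prop := ∀ (ℓ : ℕ) (_ : ℓ.Prime) (K M : Type) [Field K] [NumberField K] [Field M]
  [NumberField M] [Algebra K M] [IsGalois K M] (γ : M ≃ₐ[K] M),
  (∀ (w : Pl M) (x : Mˣ), IsP ℓ (loc (gp γ w) (gU γ x)) ↔ IsP ℓ (loc w x)) ∧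
  (∀ (w : Pl M) (a x : Mˣ), LN ℓ (gp γ w) (gU γ a) (gU γ x) ↔ LN ℓ w a x) ∧
  ∀ sv : Pl M → Mˣ → Mˣ → ZMod ℓ, Sv ℓ M sv → Sv ℓ M (fun w x y => sv (gp γ w) (gU γ x) (gU γ y))

/-- VUN: two systems of symbols are proportional -/
def S_VUN : Prop := ∀ (ℓ : ℕ) (_ : ℓ.Prime) (_ : ℓ ≠ 2) (K : Type) [Field K] [NumberField K] (ζ : K)
  (_ : IsPrimitiveRoot ζ ℓ) (sv sv' : Pl K → Kˣ → Kˣ → ZMod ℓ), Sv ℓ K sv → Sv ℓ K sv' →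
  ∃ c : ZMod ℓ, c ≠ 0 ∧ ∀ v x y, sv' v x y = c * sv v x y

/-- VGN: the decomposition groups generate the Galois group -/
def S_VGN : Prop := ∀ (K M : Type) [Field K] [NumberField K] [Field M] [NumberField M] [Algebra K M]
  [IsGalois K M] (S : Finset (Pl K)) (N : Subgroup (M ≃ₐ[K] M)),
  (∀ w : Pl M, (lo w : Pl K) ∉ S → ∀ γ : M ≃ₐ[K] M, gp γ w = w → γ ∈ N) → N = ⊤

/-- VNP: local powers and norms -/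
def S_VNP : Prop := ∀ (ℓ : ℕ) (_ : ℓ.Prime) (K M : Type) [Field K] [NumberField K] [Field M]
  [NumberField M] [Algebra K M] [IsGalois K M],
  (∀ (w : Pl M) (x : Kˣ), IsP ℓ (loc (lo w : Pl K) x) → IsP ℓ (loc w (kU x : Mˣ))) ∧
  (∀ (v : Pl K) (x : Mˣ), (∀ w : Pl M, lo w = v → IsP ℓ (loc w x)) → IsP ℓ (loc v (nU x))) ∧
  (¬ ℓ ∣ Nat.card (M ≃ₐ[K] M) → ∀ (v : Pl K) (x : Kˣ),
    (∀ w : Pl M, lo w = v → IsP ℓ (loc w (kU x : Mˣ))) → IsP ℓ (loc v x)) ∧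
  ∀ S : Finset (Pl K), Unr K M S → ∀ w : Pl M, (lo w : Pl K) ∉ S → ∀ x : Mˣ,
    (lo w : Pl K).valuation K (nU x : Kˣ) = ∏ γ : M ≃ₐ[K] M, (gp γ w).valuation M (x : M)

/-- VEQ: an equivariant system of symbols -/
def S_VEQ : Prop := ∀ (ℓ : ℕ) (_ : ℓ.Prime) (_ : ℓ ≠ 2) (K M : Type) [Field K] [NumberField K]
  [Field M] [NumberField M] [Algebra K M] [IsGalois K M] (ζ : K) (_ : IsPrimitiveRoot ζ ℓ),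
  ¬ ℓ ∣ Nat.card (M ≃ₐ[K] M) → ∃ sv : Pl M → Mˣ → Mˣ → ZMod ℓ, Sv ℓ M sv ∧
  ∀ (γ : M ≃ₐ[K] M) w x y, sv (gp γ w) (gU γ x) (gU γ y) = sv w x y

/-- VLG: a stable isotropic complement -/
def S_VLG : Prop := ∀ (ℓ : ℕ) [Fact ℓ.Prime] (G : Type) [Group G] [Finite G], ¬ ℓ ∣ Nat.card G →
  ∀ (V : Type) [AddCommGroup V] [Module (ZMod ℓ) V] (av : G →* Module.End (ZMod ℓ) V)
  (ψ : V →ₗ[ZMod ℓ] V →ₗ[ZMod ℓ] ZMod ℓ), (∀ x, ψ x x = 0) →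
  (∀ γ x y, ψ (av γ x) (av γ y) = ψ x y) → ∀ L0 L1' : Submodule (ZMod ℓ) V,
  (∀ γ, ∀ x ∈ L0, av γ x ∈ L0) → (∀ x ∈ L0, ∀ y ∈ L0, ψ x y = 0) → IsCompl L0 L1' →
  (∀ x ∈ L1', ∀ y ∈ L1', ψ x y = 0) → ∃ L1 : Submodule (ZMod ℓ) V, IsCompl L0 L1 ∧
    (∀ x ∈ L1, ∀ y ∈ L1, ψ x y = 0) ∧ ∀ γ, ∀ x ∈ L1, av γ x ∈ L1

/-- VLL: Lagrangian subspaces of the space of the invariant families -/
def S_VLL : Prop := ∀ (ℓ n : ℕ) [Fact ℓ.Prime] (_ : ℓ ≠ 2) (_ : ¬ ℓ ∣ n) (_ : 2 ≤ n) (G : Type)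
  [Group G] [Finite G] (pm : G →* Equiv.Perm (Fin n)), ¬ ℓ ∣ Nat.card G →
  ∀ (V : Type) [AddCommGroup V] [Module (ZMod ℓ) V] [Finite V] (av : G →* Module.End (ZMod ℓ) V)
  (ψ : V →ₗ[ZMod ℓ] V →ₗ[ZMod ℓ] ZMod ℓ), (∀ x, ψ x x = 0) → (∀ x, (∀ y, ψ x y = 0) → x = 0) →
  (∀ γ x y, ψ (av γ x) (av γ y) = ψ x y) → ∀ L0 L1 : Submodule (ZMod ℓ) V, IsCompl L0 L1 →
  (∀ x ∈ L0, ∀ y ∈ L0, ψ x y = 0) → (∀ x ∈ L1, ∀ y ∈ L1, ψ x y = 0) →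
  (∀ γ, ∀ x ∈ L0, av γ x ∈ L0) → (∀ γ, ∀ x ∈ L1, av γ x ∈ L1) →
  ∀ I : Submodule (ZMod ℓ) (Sz ℓ n V), (∀ x ∈ I, InvF pm av (x : Fin n → V)) →
  (∀ x ∈ I, ∀ y ∈ I, ∑ i, ψ ((x : Fin n → V) i) ((y : Fin n → V) i) = 0) →
  ∃ LL : Submodule (ZMod ℓ) (Sz ℓ n V), I ≤ LL ∧ (∀ x ∈ LL, InvF pm av (x : Fin n → V)) ∧
    (∀ x ∈ LL, ∀ y ∈ LL, ∑ i, ψ ((x : Fin n → V) i) ((y : Fin n → V) i) = 0) ∧
    Nat.card LL = Nat.card {x : Sz ℓ n L0 // InvF pm av (fun i => ((x : Fin n → L0) i : V))}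

/-- VDI: the dictionary between the model and the Selmer group (compare `S_DICW`) -/
def S_VDI : Prop := ∀ (ℓ n : ℕ) [Fact ℓ.Prime] (_ : ℓ ≠ 2) (_ : 2 ≤ n) (K M : Type) [Field K]
  [NumberField K] [Field M] [NumberField M] [Algebra K M] [IsGalois K M]
  (pm : (M ≃ₐ[K] M) →* Equiv.Perm (Fin n)) (S : Finset (Pl K)) (sv : Pl M → Mˣ → Mˣ → ZMod ℓ)
  (V : Type) [AddCommGroup V] [Module (ZMod ℓ) V] [Finite V]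
  (av : (M ≃ₐ[K] M) →* Module.End (ZMod ℓ) V) (ψ : V →ₗ[ZMod ℓ] V →ₗ[ZMod ℓ] ZMod ℓ)
  (cl : Mˣ → V) (η : Mˣ) (L0 L1 : Submodule (ZMod ℓ) V) (P : Pl M → Mˣ) (u : L0) (d1 : V),
  Ctx2 ℓ M sv (up S) V ψ cl η L0 L1 ⊤ P u d1 → (∀ γ x, av γ (cl x) = cl (gU γ x)) →
  (∀ γ, ∀ x ∈ L0, av γ x ∈ L0) → (∀ γ, ∀ x ∈ L1, av γ x ∈ L1) →
  (∀ (γ : M ≃ₐ[K] M) (w : Pl M), (lo w : Pl K) ∉ S → cl (P (gp γ w)) = av γ (cl (P w))) →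
  ∀ (δ : Mˣ) (a₀ : ℕ), 1 ≤ a₀ → a₀ < ℓ →
  ∀ (D : Dat ℓ n M), D.δ = (δ : M) ^ a₀ → (∀ w : Pl M, (lo w : Pl K) ∉ S → D.Sep1 w) →
  ∀ (g : Fin n → Fin n → L0), (∀ i j, (a₀ : ZMod ℓ) • (g i j : V) = cl (gu D i j)) →
  ∀ (LL : Submodule (ZMod ℓ) (Sz ℓ n V)),
  (∀ x : Fin n → Mˣ, (∀ w ∈ up S, (fun i => loc w (x i)) ∈ Lcv (D.base (w.adicCompletion M))) →
      ∀ y : Sz ℓ n V, (∀ i, (y : Fin n → V) i = cl (x i)) → InvF pm av (y : Fin n → V) → y ∈ LL) →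
  ∀ B : Finset (Pl K), Disjoint B S → (∀ w ∈ up S, ∃ z, loc w δ = loc w η * z ^ ℓ) →
    (∀ w : Pl M, (lo w : Pl K) ∈ B → Pw ℓ (w.valuation M (δ : M) * WithZero.exp (1 : ℤ))) →
    (∀ w : Pl M, (lo w : Pl K) ∉ S → (lo w : Pl K) ∉ B → Pw ℓ (w.valuation M (δ : M))) →
    nG pm av ψ L0 LL u g (fun w => cl (P w)) (fun p q => sv q (P p) (P q)) B = 1 →
    SelMinG pm D S

/-- the situation over `M`, with the action of the Galois group -/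
structure CtV (ℓ : ℕ) (K M : Type) [Field K] [NumberField K] [Field M] [NumberField M] [Algebra K M]
    (S : Finset (Pl K)) (sv : Pl M → Mˣ → Mˣ → ZMod ℓ) (V : Type) [AddCommGroup V]
    [Module (ZMod ℓ) V] (av : (M ≃ₐ[K] M) →* Module.End (ZMod ℓ) V)
    (ψ : V →ₗ[ZMod ℓ] V →ₗ[ZMod ℓ] ZMod ℓ) (cl : Mˣ → V) (η : Kˣ)
    (L0 L1 : Submodule (ZMod ℓ) V) (P : Pl M → Mˣ) (u : L0) (d1 : V) : Prop where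
  c2 : Ctx2 ℓ M sv (up S) V ψ cl (kU η) L0 L1 ⊤ P u d1
  ne : (up S : Finset (Pl M)).Nonempty
  unr : Unr K M S
  hG : ¬ ℓ ∣ Nat.card (M ≃ₐ[K] M)
  alt : ∀ x, ψ x x = 0
  nd : ∀ x, (∀ y, ψ x y = 0) → x = 0
  inv : ∀ γ x y, ψ (av γ x) (av γ y) = ψ x y
  iso0 : ∀ x ∈ L0, ∀ y ∈ L0, ψ x y = 0
  hav : ∀ γ x, av γ (cl x) = cl (gU γ x)
  st0 : ∀ γ, ∀ x ∈ L0, av γ x ∈ L0
  st1 : ∀ γ, ∀ x ∈ L1, av γ x ∈ L1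
  hP : ∀ (γ : M ≃ₐ[K] M) (w : Pl M), (lo w : Pl K) ∉ S → cl (P (gp γ w)) = av γ (cl (P w))
  eqv : ∀ (γ : M ≃ₐ[K] M) w x y, sv (gp γ w) (gU γ x) (gU γ y) = sv w x y

/-- VM1: the spaces and the uniformizers -/
def S_VM1 : Prop := ∀ (ℓ : ℕ) (_ : ℓ.Prime) (_ : ℓ ≠ 2) (K M : Type) [Field K] [NumberField K]
  [Field M] [NumberField M] [Algebra K M] [IsGalois K M] (ζ : K) (_ : IsPrimitiveRoot ζ ℓ),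
  ¬ ℓ ∣ Nat.card (M ≃ₐ[K] M) → ∀ sv : Pl M → Mˣ → Mˣ → ZMod ℓ, Sv ℓ M sv →
  (∀ (γ : M ≃ₐ[K] M) w x y, sv (gp γ w) (gU γ x) (gU γ y) = sv w x y) → ∀ B₀ : Finset (Pl M),
  ∃ T₀ : Finset (Pl K), ∀ S : Finset (Pl K), T₀ ⊆ S → (∀ w ∈ B₀, (lo w : Pl K) ∈ S) ∧
    (∀ m : Pl K → ℤ, {v | m v ≠ 0}.Finite →
      ∃ x : Kˣ, ∀ v, v ∉ S → v.valuation K (x : K) = WithZero.exp (-(m v))) ∧
    (∀ x : Kˣ, (∀ v ∈ S, IsP ℓ (loc v x)) → (∀ v, v ∉ S → Pw ℓ (v.valuation K (x : K))) →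
      IsP ℓ x) ∧
    ∀ η : Kˣ, ∃ (V : Type) (_ : AddCommGroup V) (_ : Module (ZMod ℓ) V) (_ : Finite V)
      (av : (M ≃ₐ[K] M) →* Module.End (ZMod ℓ) V) (ψ : V →ₗ[ZMod ℓ] V →ₗ[ZMod ℓ] ZMod ℓ)
      (cl : Mˣ → V) (L0 L1 : Submodule (ZMod ℓ) V) (P : Pl M → Mˣ) (u : L0) (d1 : V),
      CtV ℓ K M S sv V av ψ cl η L0 L1 P u d1

/-- VM2: the model -/
def S_VM2 : Prop := ∀ (ℓ n : ℕ) [Fact ℓ.Prime] (_ : ℓ ≠ 2) (K M : Type) [Field K] [NumberField K]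
  [Field M] [NumberField M] [Algebra K M] [IsGalois K M]
  (pm : (M ≃ₐ[K] M) →* Equiv.Perm (Fin n)), GPm ℓ n (M ≃ₐ[K] M) pm →
  ∀ (S : Finset (Pl K)) (sv : Pl M → Mˣ → Mˣ → ZMod ℓ) (V : Type) [AddCommGroup V]
  [Module (ZMod ℓ) V] [Finite V] (av : (M ≃ₐ[K] M) →* Module.End (ZMod ℓ) V)
  (ψ : V →ₗ[ZMod ℓ] V →ₗ[ZMod ℓ] ZMod ℓ) (cl : Mˣ → V) (η : Kˣ)
  (L0 L1 : Submodule (ZMod ℓ) V) (P : Pl M → Mˣ) (u : L0) (d1 : V),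
  CtV ℓ K M S sv V av ψ cl η L0 L1 P u d1 → ∀ (D : Dat ℓ n M),
  (∀ (γ : M ≃ₐ[K] M) (i : Fin n), γ (D.e i) = D.e (pm γ i)) →
  (∀ w : Pl M, (lo w : Pl K) ∉ S → D.Sep1 w) → ∀ a₀ : ℕ, 1 ≤ a₀ → a₀ < ℓ →
  ∃ (𝔪 : Ideal (𝓞 M)) (LL : Submodule (ZMod ℓ) (Sz ℓ n V)) (π : V →ₗ[ZMod ℓ] L0)
    (g : Fin n → Fin n → L0),
    ModelG ℓ n K M pm S 𝔪 V av ψ L0 L1 LL π u d1 g (fun w => cl (P w))
      (fun p q => sv q (P p) (P q)) ∧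
    (∀ i j, (a₀ : ZMod ℓ) • (g i j : V) = cl (gu D i j)) ∧
    ∀ x : Fin n → Mˣ, (∀ w ∈ up S, (fun i => loc w (x i)) ∈ Lcv (D.base (w.adicCompletion M))) →
      ∀ y : Sz ℓ n V, (∀ i, (y : Fin n → V) i = cl (x i)) → InvF pm av (y : Fin n → V) → y ∈ LL

/-- VM3: the model controls the arithmetic of the curves -/
def S_VM3 : Prop := ∀ (ℓ n : ℕ) [Fact ℓ.Prime] (_ : ℓ ≠ 2) (K M : Type) [Field K] [NumberField K]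
  [Field M] [NumberField M] [Algebra K M] [IsGalois K M]
  (pm : (M ≃ₐ[K] M) →* Equiv.Perm (Fin n)), GPm ℓ n (M ≃ₐ[K] M) pm →
  ∀ (ζ : K) (_ : IsPrimitiveRoot ζ ℓ) (e : Fin n → M), Function.Injective e →
  (∀ (γ : M ≃ₐ[K] M) (i : Fin n), γ (e i) = e (pm γ i)) → ∀ F : K[X],
  F.map (algebraMap K M) = ∏ i, (X - C (e i)) → ∀ a₀ : ℕ, 1 ≤ a₀ → a₀ < ℓ →
  MDLG ℓ n K M pm (fun δ => Def.Zero ℓ K (C ((δ : K) ^ a₀) * F))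

end Pool.Agent.T3h73.SG
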