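import Pool.Agent.T3h73.SD.StmQ

/-!
# Project SG (helper73, MP_a43263): generic superelliptic curves. Part X: analysis

Sums over coloured finite sets of marked places (`Ω`: the marked places, `kp w` the place of `K` below
`w`); every place of `K` has boundedly many marks.
-/

set_option autoImplicit false
set_option linter.all false

open NumberField IsDedekindDomain Filter Topology

namespace Pool.Agent.T3h73.SG

open Pool.Agent.T3h73.SL (Pl)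
open Pool.Agent.T3h73.SD (ee NA gA T0)

section
variable {K : Type} [Field K] [NumberField K] {Ω : Type}

/-- finite sets of marked places satisfying `Om`, with distinct places of `K`, not in `S` -/
def Ad (S : Finset (Pl K)) (kp : Ω → Pl K) (Om : Ω → Prop) (A : Finset Ω) : Prop :=
  (∀ w ∈ A, Om w ∧ kp w ∉ S) ∧ Set.InjOn kp (A : Set Ω)

/-- no common places of `K` -/
def Dj (kp : Ω → Pl K) (A B : Finset Ω) : Prop := ∀ w ∈ A, ∀ w' ∈ B, kp w ≠ kp w'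

/-- the norm of a set of marked places -/
noncomputable def NO (kp : Ω → Pl K) (A : Finset Ω) : ℕ := ∏ w ∈ A, Ideal.absNorm (kp w).asIdeal

/-- `∏ (1 + 1 / N w)` -/
noncomputable def gO (kp : Ω → Pl K) (A : Finset Ω) : ℝ :=
  ∏ w ∈ A, (1 + 1 / (Ideal.absNorm (kp w).asIdeal : ℝ))

/-- boundedly many marks at every place of `K` -/
def Fib (kp : Ω → Pl K) : Prop := ∃ g : ℕ, ∀ q : Pl K, {w | kp w = q}.Finite ∧ {w | kp w = q}.ncard ≤ g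

open Classical in
/-- the marked places satisfying `Om`, with weight `lam`, have mass at most `mu` -/
def Mass (S : Finset (Pl K)) (kp : Ω → Pl K) (Om : Ω → Prop) (lam mu : ℝ) : Prop :=
  ∃ C : ℝ, 0 < C ∧ ∀ s : ℝ, 1 < s → s ≤ 2 →
    lam * ∑' w : Ω, (if Om w ∧ kp w ∉ S then (Ideal.absNorm (kp w).asIdeal : ℝ) ^ (-s) else 0) ≤
      mu * Real.log (1 / (s - 1)) + C

open Classical in
/-- a coloured system: colours `c` with the marks `Om c`, weights `lam c`, masses `mu c`, arbitrary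
functions `I c` of the sets of colour `c`, characters `χ c`, pairings `ρ c c'`; some pairs of colours are
linked, some colours are good, some are trivial -/
structure CS (ℓ : ℕ) (K : Type) [Field K] [NumberField K] (S : Finset (Pl K)) (Ω : Type)
    (kp : Ω → Pl K) (C : Type) [Fintype C] (Om : C → Ω → Prop) (lam mu : C → ℝ)
    (I : C → Finset Ω → ℂ) (χ : C → Ω → ZMod ℓ) (ρ : C → C → Ω → Ω → ZMod ℓ) (lk : C → C → Prop)
    (good triv : C → Prop) : Prop where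
  fib : Fib kp
  lam_pos : ∀ c, 0 < lam c ∧ lam c ≤ 1
  mu_pos : ∀ c, 0 < mu c
  dens : ∀ c, Mass S kp (Om c) (lam c) (mu c)
  I_le : ∀ c A, ‖I c A‖ ≤ 1
  I_empty : ∀ c, I c ∅ = 1
  I_good : ∀ c, good c → ∀ A, Ad S kp (Om c) A → I c A = ee ℓ (∑ w ∈ A, χ c w)
  lk_symm : ∀ c c', lk c c' → lk c' c
  unl : ∀ c c', c ≠ c' → ¬ lk c c' → ∀ w w', Om c w → Om c' w' → kp w ∉ S → kp w' ∉ S →
    kp w ≠ kp w' → ρ c c' w w' + ρ c' c w' w = 0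
  BL : ∀ c c', c ≠ c' → lk c c' → ∃ E θ : ℝ, 0 < E ∧ 0 < θ ∧ ∀ M N : ℝ, 1 ≤ M → 1 ≤ N →
    ∀ 𝒜 ℬ : Finset (Finset Ω), (∀ A ∈ 𝒜, Ad S kp (Om c) A ∧ (NO kp A : ℝ) ≤ M) →
    (∀ B ∈ ℬ, Ad S kp (Om c') B ∧ (NO kp B : ℝ) ≤ N) →
    ∀ α β : Finset Ω → ℂ, (∀ A, ‖α A‖ ≤ 1) → (∀ B, ‖β B‖ ≤ 1) →
    ‖∑ A ∈ 𝒜, ∑ B ∈ ℬ, if Dj kp A B then α A * β B *
        ee ℓ (∑ w ∈ A, ∑ w' ∈ B, (ρ c c' w w' + ρ c' c w' w)) else 0‖ ≤
      E * M * N * (min M N) ^ (-θ) * (1 + Real.log M + Real.log N) ^ E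
  EUL : ∀ c, good c → ∃ E : ℝ, 0 < E ∧ ∀ (B : C → Finset Ω) (F : Finset (Pl K)),
    (∀ c', Ad S kp (Om c') (B c')) → (∀ c' c'', c' ≠ c'' → Dj kp (B c') (B c'')) → B c = ∅ →
    (¬ triv c ∨ ∃ c', lk c' c ∧ (B c').Nonempty) → ∀ s : ℝ, 1 < s → s ≤ 2 →
    ‖∑' A : Finset Ω, if Ad S kp (Om c) A ∧ (∀ c', Dj kp A (B c')) ∧ Disjoint (A.image kp) F then
      ((lam c ^ A.card * (NO kp A : ℝ) ^ (-s) : ℝ) : ℂ) *
        ee ℓ (∑ w ∈ A, (χ c w + ∑ c', ∑ b ∈ B c', (ρ c c' w b + ρ c' c b w))) else 0‖ ≤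
      E * (1 + Real.log (∏ c', (NO kp (B c') : ℝ))) ^ E * gA F ^ E
  trv : ∀ c, good c → triv c → ∀ w, Om c w → kp w ∉ S → χ c w = 0
  mass : ∀ U : Finset C, (∀ c ∈ U, ∀ c' ∈ U, c ≠ c' → ¬ lk c c') → ∑ c ∈ U, mu c ≤ 1
  full : ∀ U : Finset C, (∀ c ∈ U, ∀ c' ∈ U, c ≠ c' → ¬ lk c c') → ∑ c ∈ U, mu c = 1 →
    (∀ c ∈ U, good c) ∧ ∀ q : Pl K, q ∉ S →
      ∑ᶠ w ∈ {w : Ω | kp w = q}, ∑ c ∈ U, (if Om c w then lam c else 0) = 1

/-- families of sets without common places of `K` -/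
def TupX (S : Finset (Pl K)) (kp : Ω → Pl K) {C : Type} (Om : C → Ω → Prop)
    (A : C → Finset Ω) : Prop :=
  (∀ c, Ad S kp (Om c) (A c)) ∧ ∀ c c', c ≠ c' → Dj kp (A c) (A c')

open Classical in
/-- the term of a family -/
noncomputable def trmX {ℓ : ℕ} (kp : Ω → Pl K) {C : Type} [Fintype C] (lam : C → ℝ)
    (I : C → Finset Ω → ℂ) (ρ : C → C → Ω → Ω → ZMod ℓ) (s : ℝ) (A : C → Finset Ω) : ℂ :=
  ((∏ c, (lam c ^ (A c).card * (NO kp (A c) : ℝ) ^ (-s)) : ℝ) : ℂ) * (∏ c, I c (A c)) *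
    ee ℓ (∑ c, ∑ c', if c = c' then 0 else ∑ w ∈ A c, ∑ w' ∈ A c', ρ c c' w w')

open Classical in
/-- the coloured sum -/
noncomputable def CSum {ℓ : ℕ} (S : Finset (Pl K)) (kp : Ω → Pl K) {C : Type} [Fintype C]
    (Om : C → Ω → Prop) (lam : C → ℝ) (I : C → Finset Ω → ℂ) (ρ : C → C → Ω → Ω → ZMod ℓ)
    (s : ℝ) : ℂ :=
  ∑' A : C → Finset Ω, if TupX S kp Om A then trmX kp lam I ρ s A else 0

open Classical in
/-- the part of the sum where exactly the sets with colours in `W` have norm larger than `Z` -/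
noncomputable def MX {ℓ : ℕ} (S : Finset (Pl K)) (kp : Ω → Pl K) {C : Type} [Fintype C]
    (Om : C → Ω → Prop) (lam : C → ℝ) (I : C → Finset Ω → ℂ) (ρ : C → C → Ω → Ω → ZMod ℓ)
    (Z : ℝ) (W : Finset C) (s : ℝ) : ℂ :=
  ∑' A : C → Finset Ω, if TupX S kp Om A ∧ ∀ c, c ∈ W ↔ Z < (NO kp (A c) : ℝ) then
    trmX kp lam I ρ s A else 0

end

open Classical in
/-- XMAS: sums of absolute values for one colour -/
def S_XMAS : Prop := ∀ (K : Type) [Field K] [NumberField K] (S : Finset (Pl K)) (Ω : Type)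
  (kp : Ω → Pl K) (Om : Ω → Prop) (lam mu : ℝ), Fib kp → 0 < lam → lam ≤ 1 → 0 < mu →
  Mass S kp Om lam mu → ∀ (D : ℝ) (m : ℕ), 0 ≤ D → ∃ C : ℝ, 0 < C ∧ (∀ s : ℝ, 1 < s → s ≤ 2 →
    Summable (fun A : Finset Ω => if Ad S kp Om A then
      (m : ℝ) ^ A.card * (NO kp A : ℝ) ^ (-s) * gO kp A ^ D else 0) ∧
    ∑' A : Finset Ω, (if Ad S kp Om A then lam ^ A.card * (NO kp A : ℝ) ^ (-s) * gO kp A ^ D else 0) ≤
      C * (1 / (s - 1)) ^ mu) ∧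
  ∀ Z : ℝ, 1 ≤ Z → {A : Finset Ω | Ad S kp Om A ∧ (NO kp A : ℝ) ≤ Z}.Finite ∧
    ∑ᶠ A ∈ {A : Finset Ω | Ad S kp Om A ∧ (NO kp A : ℝ) ≤ Z},
      (m : ℝ) ^ A.card * ((NO kp A : ℝ))⁻¹ * gO kp A ^ D ≤ C * (1 + Real.log Z) ^ C

/-- XTUP: splitting the coloured sum -/
def S_XTUP : Prop := ∀ (ℓ : ℕ) (_ : ℓ.Prime) (K : Type) [Field K] [NumberField K]
  (S : Finset (Pl K)) (Ω : Type) (kp : Ω → Pl K) (C : Type) [Fintype C] (Om : C → Ω → Prop)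
  (lam mu : C → ℝ) (I : C → Finset Ω → ℂ) (χ : C → Ω → ZMod ℓ) (ρ : C → C → Ω → Ω → ZMod ℓ)
  (lk : C → C → Prop) (good triv : C → Prop), CS ℓ K S Ω kp C Om lam mu I χ ρ lk good triv →
  ∀ (s Z : ℝ), 1 < s → s ≤ 2 → CSum S kp Om lam I ρ s = ∑ W : Finset C, MX S kp Om lam I ρ Z W s

/-- XAN1: two large linked variables -/
def S_XAN1 : Prop := ∀ (ℓ : ℕ) (_ : ℓ.Prime) (K : Type) [Field K] [NumberField K]
  (S : Finset (Pl K)) (Ω : Type) (kp : Ω → Pl K) (C : Type) [Fintype C] (Om : C → Ω → Prop)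
  (lam mu : C → ℝ) (I : C → Finset Ω → ℂ) (χ : C → Ω → ZMod ℓ) (ρ : C → C → Ω → Ω → ZMod ℓ)
  (lk : C → C → Prop) (good triv : C → Prop), CS ℓ K S Ω kp C Om lam mu I χ ρ lk good triv →
  ∃ κ₀ : ℝ, 0 < κ₀ ∧ ∀ κ : ℝ, κ₀ ≤ κ → ∀ (W : Finset C) (a b : C), a ∈ W → b ∈ W → a ≠ b → lk a b →
    Tendsto (fun s : ℝ => ((s - 1 : ℝ) : ℂ) * MX S kp Om lam I ρ ((1 / (s - 1)) ^ κ) W s)
      (𝓝[>] 1) (𝓝 0)

/-- XAN2: the large variables have total mass less than `1` -/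
def S_XAN2 : Prop := ∀ (ℓ : ℕ) (_ : ℓ.Prime) (K : Type) [Field K] [NumberField K]
  (S : Finset (Pl K)) (Ω : Type) (kp : Ω → Pl K) (C : Type) [Fintype C] (Om : C → Ω → Prop)
  (lam mu : C → ℝ) (I : C → Finset Ω → ℂ) (χ : C → Ω → ZMod ℓ) (ρ : C → C → Ω → Ω → ZMod ℓ)
  (lk : C → C → Prop) (good triv : C → Prop), CS ℓ K S Ω kp C Om lam mu I χ ρ lk good triv →
  ∀ κ : ℝ, 0 < κ → ∀ W : Finset C, ∑ c ∈ W, mu c < 1 →
    Tendsto (fun s : ℝ => ((s - 1 : ℝ) : ℂ) * MX S kp Om lam I ρ ((1 / (s - 1)) ^ κ) W s)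
      (𝓝[>] 1) (𝓝 0)

open Classical in
/-- XAN3: the large variables are not linked and have total mass `1` -/
def S_XAN3 : Prop := ∀ (ℓ : ℕ) (_ : ℓ.Prime) (K : Type) [Field K] [NumberField K]
  (S : Finset (Pl K)) (Ω : Type) (kp : Ω → Pl K) (C : Type) [Fintype C] (Om : C → Ω → Prop)
  (lam mu : C → ℝ) (I : C → Finset Ω → ℂ) (χ : C → Ω → ZMod ℓ) (ρ : C → C → Ω → Ω → ZMod ℓ)
  (lk : C → C → Prop) (good triv : C → Prop), CS ℓ K S Ω kp C Om lam mu I χ ρ lk good triv →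
  ∀ κ : ℝ, 0 < κ → ∀ W : Finset C, (∀ c ∈ W, ∀ c' ∈ W, c ≠ c' → ¬ lk c c') → ∑ c ∈ W, mu c = 1 →
    Tendsto (fun s : ℝ => MX S kp Om lam I ρ ((1 / (s - 1)) ^ κ) W s / ((T0 S s : ℝ) : ℂ))
      (𝓝[>] 1) (𝓝 (if ∀ c ∈ W, triv c then 1 else 0))

/-- XAN: the asymptotics of the coloured sum -/
def S_XAN : Prop := ∀ (ℓ : ℕ) (_ : ℓ.Prime) (K : Type) [Field K] [NumberField K]
  (S : Finset (Pl K)) (Ω : Type) (kp : Ω → Pl K) (C : Type) [Fintype C] (Om : C → Ω → Prop)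
  (lam mu : C → ℝ) (I : C → Finset Ω → ℂ) (χ : C → Ω → ZMod ℓ) (ρ : C → C → Ω → Ω → ZMod ℓ)
  (lk : C → C → Prop) (good triv : C → Prop), CS ℓ K S Ω kp C Om lam mu I χ ρ lk good triv →
    Tendsto (fun s : ℝ => CSum S kp Om lam I ρ s / ((T0 S s : ℝ) : ℂ)) (𝓝[>] 1)
      (𝓝 (Nat.card {U : Finset C // (∀ c ∈ U, ∀ c' ∈ U, c ≠ c' → ¬ lk c c') ∧
        ∑ c ∈ U, mu c = 1 ∧ ∀ c ∈ U, triv c}))

end Pool.Agent.T3h73.SG
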