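import Pool.Agent.T3h73.SG.Pla

/-!
# Project SG. Part Y: equivariant systems of symbols on a Galois extension `M / K`

The sums over the marked places `w` of `M` with given decomposition group `D`; such places correspond to
places of degree one over `K` of the fixed field of `D`.
-/

set_option autoImplicit false
set_option linter.all false

open NumberField IsDedekindDomain Filter Topology

namespace Pool.Agent.T3h73.SG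

open Pool.Agent.T3h73.SL (Pl)
open Pool.Agent.T3h73.SD (ee NA gA T0 SymSys)
open Pool.Agent.Y773.G (IsModChar)
open Pool.Agent.Y773 (LI)

/-- an equivariant system of symbols on `M` -/
structure GSys (ℓ : ℕ) (K M : Type) [Field K] [NumberField K] [Field M] [NumberField M] [Algebra K M]
    (S : Finset (Pl K)) (𝔪 : Ideal (𝓞 M)) (Λ : Type) [AddCommGroup Λ] (χ : Λ → Pl M → ZMod ℓ)
    (sy : Pl M → Pl M → ZMod ℓ) : Prop where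
  unr : Unr K M S
  hG : ¬ ℓ ∣ Nat.card (M ≃ₐ[K] M)
  sys : SymSys ℓ M (up S) 𝔪 Λ χ sy
  eqs : ∀ (g : M ≃ₐ[K] M) (p q : Pl M), (lo p : Pl K) ∉ S → (lo q : Pl K) ∉ S →
    sy (gp g p) (gp g q) = sy p q

/-- LUD: the `L`-functions of ray class characters have a derivative of at most logarithmic growth -/
def S_LUD : Prop := ∀ (K : Type) [Field K] [NumberField K], ∃ C : ℝ, 0 < C ∧
  ∀ (𝔪 : Ideal (𝓞 K)) (η : Ideal (𝓞 K) →*₀ ℂ), IsModChar 𝔪 (fun _ => 0) η →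
  (∃ 𝔞, IsCoprime 𝔞 𝔪 ∧ η 𝔞 ≠ 1) → ∀ s t : ℝ, 1 < s → s ≤ t → t ≤ 2 →
  ‖LI η (t : ℂ) - LI η (s : ℂ)‖ ≤ C * (1 + Real.log (Ideal.absNorm 𝔪)) ^ C * (t - s)

/-- PSB: the sums over the primes of a ray class character of order `ℓ` -/
def S_PSB : Prop := ∀ (ℓ : ℕ) (_ : ℓ.Prime) (_ : ℓ ≠ 2) (K : Type) [Field K] [NumberField K],
  ∃ C : ℝ, 0 < C ∧ ∀ (𝔪 : Ideal (𝓞 K)) (η : Ideal (𝓞 K) →*₀ ℂ), IsModChar 𝔪 (fun _ => 0) η →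
  (∀ 𝔞, IsCoprime 𝔞 𝔪 → η 𝔞 ^ ℓ = 1) → (∃ 𝔞, IsCoprime 𝔞 𝔪 ∧ η 𝔞 ≠ 1) →
  ∀ s : ℝ, 1 < s → s ≤ 2 →
  |∑' q : Pl K, (η q.asIdeal).re * (Ideal.absNorm q.asIdeal : ℝ) ^ (-s)| ≤
    C * (1 + Real.log (1 + Real.log (Ideal.absNorm 𝔪)))

/-- RST: the characters of an equivariant system restricted to an intermediate field `E` -/
def S_RST : Prop := ∀ (ℓ : ℕ) (_ : ℓ.Prime) (K E M : Type) [Field K] [NumberField K] [Field E]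
  [NumberField E] [Field M] [NumberField M] [Algebra K E] [Algebra E M] [Algebra K M]
  [IsScalarTower K E M] [IsGalois K M] [IsGalois E M] (S : Finset (Pl K)) (𝔪 : Ideal (𝓞 M))
  (Λ : Type) [AddCommGroup Λ] (χ : Λ → Pl M → ZMod ℓ) (sy : Pl M → Pl M → ZMod ℓ),
  GSys ℓ K M S 𝔪 Λ χ sy → ∀ (h : Λ) (j : Pl M → ZMod ℓ) (B : Finset (Pl M)), Disjoint B (up S) →
  (∀ b, j b ≠ 0 ↔ b ∈ B) →
  (∀ (g : M ≃ₐ[E] M) (w : Pl M), (lo w : Pl K) ∉ S → χ h (gp (g.restrictScalars K) w) = χ h w) →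
  (∀ (g : M ≃ₐ[E] M) (w : Pl M), j (gp (g.restrictScalars K) w) = j w) →
  ∃ (𝔫 : Ideal (𝓞 E)) (η : Ideal (𝓞 E) →*₀ ℂ), IsModChar 𝔫 (fun _ => 0) η ∧
    (Ideal.absNorm 𝔫 : ℝ) ≤ Ideal.absNorm 𝔪 * NA B ∧
    (∀ q : Pl E, IsCoprime q.asIdeal 𝔫 ↔ ∀ w : Pl M, (lo w : Pl E) = q →
      (lo w : Pl K) ∉ S ∧ w ∉ B) ∧
    (∀ 𝔞, IsCoprime 𝔞 𝔫 → η 𝔞 ^ ℓ = 1) ∧
    (∀ q : Pl E, IsCoprime q.asIdeal 𝔫 → η q.asIdeal =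
      ∏ᶠ w ∈ {w : Pl M | (lo w : Pl E) = q}, ee ℓ (χ h w + ∑ b ∈ B, j b * sy b w)) ∧
    ((∃ w : Pl M, (lo w : Pl K) ∉ S ∧ χ h w ≠ 0) ∨ B.Nonempty → ∃ 𝔞, IsCoprime 𝔞 𝔫 ∧ η 𝔞 ≠ 1) ∧
    (B.Nonempty → ∃ α : 𝓞 E, IsCoprime (Ideal.span {α}) 𝔫 ∧ η (Ideal.span {α}) ≠ 1)

open Classical in
/-- GSM: the sums over the places with decomposition group `D` -/
def S_GSM : Prop := ∀ (ℓ : ℕ) (_ : ℓ.Prime) (_ : ℓ ≠ 2) (K M : Type) [Field K] [NumberField K]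
  [Field M] [NumberField M] [Algebra K M] [IsGalois K M] (S : Finset (Pl K)) (𝔪 : Ideal (𝓞 M))
  (Λ : Type) [AddCommGroup Λ] (χ : Λ → Pl M → ZMod ℓ) (sy : Pl M → Pl M → ZMod ℓ),
  GSys ℓ K M S 𝔪 Λ χ sy → ∀ D : Subgroup (M ≃ₐ[K] M), ∃ C : ℝ, 0 < C ∧
  ∀ (h : Λ) (j : Pl M → ZMod ℓ) (B : Finset (Pl M)), Disjoint B (up S) → (∀ b, j b ≠ 0 ↔ b ∈ B) →
  (∀ g ∈ D, ∀ w : Pl M, (lo w : Pl K) ∉ S → χ h (gp g w) = χ h w) →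
  (∀ g ∈ D, ∀ w : Pl M, j (gp g w) = j w) →
  ((∃ w : Pl M, (lo w : Pl K) ∉ S ∧ χ h w ≠ 0) ∨ B.Nonempty) → ∀ s : ℝ, 1 < s → s ≤ 2 →
  |∑' w : Pl M, if DG w D ∧ (lo w : Pl K) ∉ S ∧ w ∉ B then
    (ee ℓ (χ h w + ∑ b ∈ B, j b * sy b w)).re * (Ideal.absNorm (lo w : Pl K).asIdeal : ℝ) ^ (-s)
    else 0| ≤ C * (1 + Real.log (1 + Real.log (NA B)))

/-- YDN: the density of the places with given decomposition group (`D` cyclic) -/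
def S_YDN : Prop := ∀ (K M : Type) [Field K] [NumberField K] [Field M] [NumberField M] [Algebra K M]
  [IsGalois K M] (S : Finset (Pl K)), Unr K M S → ∀ D : Subgroup (M ≃ₐ[K] M), IsCyclic D →
  ∀ lam : ℝ, 0 < lam → Mass S (lo : Pl M → Pl K) (fun w => DG w D) lam
    (lam * (Nat.totient (Nat.card D) / Nat.card D : ℝ))

open Classical in
/-- YEU: the sums over one variable -/
def S_YEU : Prop := ∀ (ℓ : ℕ) (_ : ℓ.Prime) (_ : ℓ ≠ 2) (K M : Type) [Field K] [NumberField K]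
  [Field M] [NumberField M] [Algebra K M] [IsGalois K M] (S : Finset (Pl K)) (𝔪 : Ideal (𝓞 M))
  (Λ : Type) [AddCommGroup Λ] (χ : Λ → Pl M → ZMod ℓ) (sy : Pl M → Pl M → ZMod ℓ),
  GSys ℓ K M S 𝔪 Λ χ sy → ∀ (D : Subgroup (M ≃ₐ[K] M)) (lam : ℝ), 0 < lam → lam ≤ 1 →
  ∃ E : ℝ, 0 < E ∧
  ∀ (h : Λ) (j : Pl M → ZMod ℓ) (B : Finset (Pl M)) (F : Finset (Pl K)), Disjoint B (up S) →
  (∀ b, j b ≠ 0 ↔ b ∈ B) →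
  (∀ g ∈ D, ∀ w : Pl M, (lo w : Pl K) ∉ S → χ h (gp g w) = χ h w) →
  (∀ g ∈ D, ∀ w : Pl M, j (gp g w) = j w) →
  ((∃ w : Pl M, (lo w : Pl K) ∉ S ∧ χ h w ≠ 0) ∨ B.Nonempty) → ∀ s : ℝ, 1 < s → s ≤ 2 →
  ‖∑' A : Finset (Pl M), if Ad S (lo : Pl M → Pl K) (fun w => DG w D) A ∧
      (∀ w ∈ A, ∀ b ∈ B, (lo w : Pl K) ≠ lo b) ∧ Disjoint (A.image (lo : Pl M → Pl K)) F then
    ((lam ^ A.card * (NO (lo : Pl M → Pl K) A : ℝ) ^ (-s) : ℝ) : ℂ) *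
      ee ℓ (∑ w ∈ A, (χ h w + ∑ b ∈ B, j b * sy b w)) else 0‖ ≤
    E * (1 + Real.log (NA B)) ^ E * gA F ^ E

open Classical in
/-- YBL: bilinear sums over places with decomposition groups `D` and `D'` -/
def S_YBL : Prop := ∀ (ℓ : ℕ) (_ : ℓ.Prime) (K M : Type) [Field K] [NumberField K]
  [Field M] [NumberField M] [Algebra K M] [IsGalois K M] (S : Finset (Pl K)) (𝔪 : Ideal (𝓞 M))
  (Λ : Type) [AddCommGroup Λ] (χ : Λ → Pl M → ZMod ℓ) (sy : Pl M → Pl M → ZMod ℓ),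
  GSys ℓ K M S 𝔪 Λ χ sy → ∀ (D D' : Subgroup (M ≃ₐ[K] M)) (c : (M ≃ₐ[K] M) → ZMod ℓ),
  (∀ g, ∀ g' ∈ D', ∀ g'' ∈ D, c (g' * g * g'') = c g) → (∃ g, c g ≠ 0) →
  ∃ E θ : ℝ, 0 < E ∧ 0 < θ ∧ ∀ M₀ N : ℝ, 1 ≤ M₀ → 1 ≤ N → ∀ 𝒜 ℬ : Finset (Finset (Pl M)),
  (∀ A ∈ 𝒜, Ad S (lo : Pl M → Pl K) (fun w => DG w D) A ∧ (NO (lo : Pl M → Pl K) A : ℝ) ≤ M₀) →
  (∀ B ∈ ℬ, Ad S (lo : Pl M → Pl K) (fun w => DG w D') B ∧ (NO (lo : Pl M → Pl K) B : ℝ) ≤ N) →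
  ∀ α β : Finset (Pl M) → ℂ, (∀ A, ‖α A‖ ≤ 1) → (∀ B, ‖β B‖ ≤ 1) →
  ‖∑ A ∈ 𝒜, ∑ B ∈ ℬ, if Dj (lo : Pl M → Pl K) A B then α A * β B *
      ee ℓ (∑ w ∈ A, ∑ w' ∈ B, ∑ g : M ≃ₐ[K] M, c g * sy (gp g w) w') else 0‖ ≤
    E * M₀ * N * (min M₀ N) ^ (-θ) * (1 + Real.log M₀ + Real.log N) ^ E

end Pool.Agent.T3h73.SG
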