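import Pool.Agent.T3h73.SG.StmY
import Pool.Agent.T3h73.SN.Stm2

/-!
# Project SG. Part Z: the colours and the moments

`G` acts on the indices `1, ..., n` of the branch points by `pm`. The colours of a place `w` of `M` with
decomposition group `D` are the `D`-invariant elements `a` of `(W ⊗ 𝔽_ℓ ^ k) ⊕ (W ⊗ 𝔽_ℓ ^ k)`, `W` the
families of sum zero; every colour is taken twice.
-/

set_option autoImplicit false
set_option linter.all false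

open NumberField IsDedekindDomain Filter Topology

namespace Pool.Agent.T3h73.SG

open Pool.Agent.T3h73.SL (Pl IsP Pk loc)
open Pool.Agent.T3h73.SD (ee NA gA T0 SymSys SP Cl kap TYPQ S_T0L S_MASS S_UNL S_CNTU S_MAINU)
open Pool.Agent.T3h73.SN (Sz tens inc ClW slc hcW)
open Pool.Agent.Y713.SE (Pw)

/-- the group data: `G`, of order prime to `ℓ`, is transitive on the indices, and its permutations span
the endomorphisms of the space of the families of sum zero -/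
structure GPm (ℓ n : ℕ) (G : Type) [Group G] (pm : G →* Equiv.Perm (Fin n)) : Prop where
  hn : ¬ ℓ ∣ n
  hn2 : 2 ≤ n
  hG : ¬ ℓ ∣ Nat.card G
  tr : ∀ i j : Fin n, ∃ g : G, pm g i = j
  span : ∀ c : Fin n → Fin n → ZMod ℓ, (∀ i, ∑ j, c i j = 0) → (∀ j, ∑ i, c i j = 0) →
    (∀ g : G, ∑ i, c (pm g i) i = 0) → ∀ i j, c i j = 0

section
variable {ℓ n k : ℕ} {G : Type} [Group G] (pm : G →* Equiv.Perm (Fin n))

/-- the action on the families of sum zero -/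
def aW (g : G) (c : Sz ℓ n (ZMod ℓ)) : Sz ℓ n (ZMod ℓ) :=
  ⟨fun i => (c : Fin n → ZMod ℓ) ((pm g)⁻¹ i), by
    show ∑ i, (c : Fin n → ZMod ℓ) ((pm g)⁻¹ i) = 0
    rw [Equiv.sum_comp ((pm g)⁻¹) (fun i => (c : Fin n → ZMod ℓ) i)]
    exact c.2⟩

/-- the action on the colours -/
def aC (g : G) (a : ClW ℓ n k) : ClW ℓ n k := (fun s => aW pm g (a.1 s), fun s => aW pm g (a.2 s))

/-- the quadratic form on the colours -/
def QW (a : ClW ℓ n k) : ZMod ℓ :=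
  ∑ s, ∑ i, (a.1 s : Fin n → ZMod ℓ) i * (a.2 s : Fin n → ZMod ℓ) i

/-- the order of the group of the `D`-invariant families of sum zero -/
noncomputable def wD (ℓ : ℕ) (D : Subgroup G) : ℕ :=
  Nat.card {c : Sz ℓ n (ZMod ℓ) // ∀ g ∈ D, aW pm g c = c}

/-- the colours -/
def CG (ℓ k : ℕ) : Type := {x : Subgroup G × ClW ℓ n k × Fin 2 //
  IsCyclic x.1 ∧ ∀ g ∈ x.1, aC pm g x.2.1 = x.2.1}

noncomputable instance [Finite G] [Fact ℓ.Prime] : Fintype (CG pm ℓ k) := by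
  haveI : NeZero ℓ := ⟨(Fact.out : ℓ.Prime).ne_zero⟩
  haveI : Finite (CG pm ℓ k) :=
    inferInstanceAs (Finite {x : Subgroup G × ClW ℓ n k × Fin 2 //
      IsCyclic x.1 ∧ ∀ g ∈ x.1, aC pm g x.2.1 = x.2.1})
  exact Fintype.ofFinite _

/-- the linked colours -/
def lkG (x y : CG pm ℓ k) : Prop := ∃ g : G, QW (aC pm g x.1.2.1 - y.1.2.1) ≠ 0

/-- the good colours -/
def goodG (x : CG pm ℓ k) : Prop := ∀ g : G, QW (aC pm g x.1.2.1 - x.1.2.1) = 0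

/-- the weights -/
noncomputable def lamG (x : CG pm ℓ k) : ℝ :=
  1 / 2 * ((wD pm ℓ x.1.1 : ℝ) ^ k)⁻¹ * (Nat.card x.1.1 / Nat.card G : ℝ)

/-- the masses -/
noncomputable def muG (x : CG pm ℓ k) : ℝ :=
  1 / 2 * ((wD pm ℓ x.1.1 : ℝ) ^ k)⁻¹ * (Nat.totient (Nat.card x.1.1) / Nat.card G : ℝ)

/-- maximal totally isotropic subspaces -/
def Iso (ℓ k : ℕ) [Fact ℓ.Prime] (Y : Submodule (ZMod ℓ) (Cl ℓ k)) : Prop :=
  (∀ x ∈ Y, ∀ y ∈ Y, ∑ s, (x.1 s * y.2 s + y.1 s * x.2 s) = 0) ∧ Module.finrank (ZMod ℓ) Y = k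

open Classical in
/-- the colours in `W ⊗ Y` -/
noncomputable def UY [Finite G] [Fact ℓ.Prime] (Y : Submodule (ZMod ℓ) (Cl ℓ k)) :
    Finset (CG pm ℓ k) := Finset.univ.filter fun x => ∀ i, slc x.1.2.1 i ∈ Y

end

open Classical in
/-- ZUN: unlinked sets of colours -/
def S_ZUN : Prop := ∀ (ℓ n : ℕ) [Fact ℓ.Prime] (_ : ℓ ≠ 2) (G : Type) [Group G] [Finite G]
  (pm : G →* Equiv.Perm (Fin n)), GPm ℓ n G pm → ∀ (k : ℕ) (U : Finset (CG pm ℓ k)),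
  (∀ x ∈ U, ∀ y ∈ U, x ≠ y → ¬ lkG pm x y) →
  (∀ D : Subgroup G, IsCyclic D → (U.filter fun x => x.1.1 = D).card ≤ 2 * wD pm ℓ D ^ k) ∧
  ((∀ D : Subgroup G, IsCyclic D → (U.filter fun x => x.1.1 = D).card = 2 * wD pm ℓ D ^ k) →
    ∃ Y : Submodule (ZMod ℓ) (Cl ℓ k), Iso ℓ k Y ∧ U = UY pm Y)

open Classical in
/-- ZUY: the maximal unlinked sets and their number -/
def S_ZUY : Prop := ∀ (ℓ n : ℕ) [Fact ℓ.Prime] (_ : ℓ ≠ 2) (G : Type) [Group G] [Finite G]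
  (pm : G →* Equiv.Perm (Fin n)), GPm ℓ n G pm → ∀ (k : ℕ),
  (∀ Y : Submodule (ZMod ℓ) (Cl ℓ k), Iso ℓ k Y →
    (∀ x ∈ UY pm Y, ∀ y ∈ UY pm Y, ¬ lkG pm x y) ∧
    ∀ D : Subgroup G, IsCyclic D → ((UY pm Y).filter fun x => x.1.1 = D).card = 2 * wD pm ℓ D ^ k) ∧
  (∀ Y Y' : Submodule (ZMod ℓ) (Cl ℓ k), UY pm Y = UY pm Y' → Y = Y') ∧
  Nat.card {Y : Submodule (ZMod ℓ) (Cl ℓ k) // Iso ℓ k Y} = ∏ i ∈ Finset.range k, (1 + ℓ ^ i)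

open Classical in
/-- ZMF: the masses of the unlinked sets of colours -/
def S_ZMF : Prop := ∀ (ℓ n : ℕ) [Fact ℓ.Prime] (_ : ℓ ≠ 2) (G : Type) [Group G] [Finite G]
  (pm : G →* Equiv.Perm (Fin n)), GPm ℓ n G pm → ∀ (k : ℕ),
  (∀ x : CG pm ℓ k, 0 < lamG pm x ∧ lamG pm x ≤ 1 ∧ 0 < muG pm x) ∧
  (∀ U : Finset (CG pm ℓ k), (∀ x ∈ U, ∀ y ∈ U, x ≠ y → ¬ lkG pm x y) →
    ∑ x ∈ U, muG pm x ≤ 1 ∧
    (∑ x ∈ U, muG pm x = 1 → ∃ Y : Submodule (ZMod ℓ) (Cl ℓ k), Iso ℓ k Y ∧ U = UY pm Y)) ∧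
  ∀ Y : Submodule (ZMod ℓ) (Cl ℓ k), Iso ℓ k Y → ∑ x ∈ UY pm Y, muG pm x = 1 ∧
    (∀ x ∈ UY pm Y, goodG pm x) ∧ ∀ D : Subgroup G, IsCyclic D →
      ∑ x ∈ UY pm Y, (if x.1.1 = D then lamG pm x else 0) = (Nat.card D / Nat.card G : ℝ)

/-- invariant families -/
def InvF {ℓ n : ℕ} {G : Type} [Group G] (pm : G →* Equiv.Perm (Fin n)) {V : Type} [AddCommGroup V]
    [Module (ZMod ℓ) V] (av : G →* Module.End (ZMod ℓ) V) (x : Fin n → V) : Prop :=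
  ∀ (g : G) (i : Fin n), x (pm g i) = av g (x i)

/-- the linear algebra data (compare `LinW` of project SN), with the action of `G` -/
structure LinG (ℓ n : ℕ) (G : Type) [Group G] (pm : G →* Equiv.Perm (Fin n)) (V : Type)
    [AddCommGroup V] [Module (ZMod ℓ) V] (av : G →* Module.End (ZMod ℓ) V)
    (ψ : V →ₗ[ZMod ℓ] V →ₗ[ZMod ℓ] ZMod ℓ) (L0 L1 : Submodule (ZMod ℓ) V)
    (LL : Submodule (ZMod ℓ) (Sz ℓ n V)) (π : V →ₗ[ZMod ℓ] L0) (u : L0) (d1 : V)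
    (g : Fin n → Fin n → L0) : Prop where
  gpm : GPm ℓ n G pm
  alt : ∀ x, ψ x x = 0
  nd : ∀ x, (∀ y, ψ x y = 0) → x = 0
  compl : IsCompl L0 L1
  iso0 : ∀ x ∈ L0, ∀ y ∈ L0, ψ x y = 0
  iso1 : ∀ x ∈ L1, ∀ y ∈ L1, ψ x y = 0
  proj : ∀ x : V, x - (π x : V) ∈ L1
  d1_mem : d1 ∈ L1
  inv : ∀ γ x y, ψ (av γ x) (av γ y) = ψ x y
  st0 : ∀ γ, ∀ x ∈ L0, av γ x ∈ L0
  st1 : ∀ γ, ∀ x ∈ L1, av γ x ∈ L1
  u_inv : ∀ γ, av γ (u : V) = u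
  d1_inv : ∀ γ, av γ d1 = d1
  LL_inv : ∀ x ∈ LL, InvF pm av (x : Fin n → V)
  isoL : ∀ x ∈ LL, ∀ y ∈ LL, ∑ i, ψ ((x : Fin n → V) i) ((y : Fin n → V) i) = 0
  card : Nat.card LL = Nat.card {x : Sz ℓ n L0 // InvF pm av (fun i => ((x : Fin n → L0) i : V))}
  gsymm : ∀ i j, g i j = g j i
  gdiag : ∀ i, g i i = 0
  ginv : ∀ γ i j, (g (pm γ i) (pm γ j) : V) = av γ (g i j)

/-- the model -/
structure ModelG (ℓ n : ℕ) (K M : Type) [Field K] [NumberField K] [Field M] [NumberField M]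
    [Algebra K M] (pm : (M ≃ₐ[K] M) →* Equiv.Perm (Fin n)) (S : Finset (Pl K))
    (𝔪 : Ideal (𝓞 M)) (V : Type) [AddCommGroup V] [Module (ZMod ℓ) V]
    (av : (M ≃ₐ[K] M) →* Module.End (ZMod ℓ) V) (ψ : V →ₗ[ZMod ℓ] V →ₗ[ZMod ℓ] ZMod ℓ)
    (L0 L1 : Submodule (ZMod ℓ) V) (LL : Submodule (ZMod ℓ) (Sz ℓ n V)) (π : V →ₗ[ZMod ℓ] L0)
    (u : L0) (d1 : V) (g : Fin n → Fin n → L0) (t : Pl M → V) (sy : Pl M → Pl M → ZMod ℓ) :
    Prop where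
  lin : LinG ℓ n (M ≃ₐ[K] M) pm V av ψ L0 L1 LL π u d1 g
  t_mem : ∀ w : Pl M, (lo w : Pl K) ∉ S → t w ∈ L1
  t_eq : ∀ (γ : M ≃ₐ[K] M) (w : Pl M), (lo w : Pl K) ∉ S → t (gp γ w) = av γ (t w)
  sys : GSys ℓ K M S 𝔪 L0 (fun h w => ψ (h : V) (t w)) sy

section
variable {ℓ n : ℕ} {K M : Type} [Field K] [NumberField K] [Field M] [NumberField M] [Algebra K M]
  (pm : (M ≃ₐ[K] M) →* Equiv.Perm (Fin n)) {V : Type} [AddCommGroup V] [Module (ZMod ℓ) V]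
  (av : (M ≃ₐ[K] M) →* Module.End (ZMod ℓ) V) (ψ : V →ₗ[ZMod ℓ] V →ₗ[ZMod ℓ] ZMod ℓ)
  (L0 : Submodule (ZMod ℓ) V) (LL : Submodule (ZMod ℓ) (Sz ℓ n V)) (u : L0)
  (g : Fin n → Fin n → L0) (t : Pl M → V) (sy : Pl M → Pl M → ZMod ℓ)

/-- the sum of the `t w` over the places above `q` -/
noncomputable def tK (q : Pl K) : V := ∑ w ∈ up {q}, t w

/-- the Selmer group of the model for the finite set `P` of places of `K` -/
def MSelG (P : Finset (Pl K)) : Set (Sz ℓ n L0 × (Pl M → Sz ℓ n (ZMod ℓ))) :=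
  open Classical in
  {x | InvF pm av (fun i => ((x.1 : Fin n → L0) i : V)) ∧
    (∀ (γ : M ≃ₐ[K] M) (w : Pl M) (i : Fin n),
      (x.2 (gp γ w) : Fin n → ZMod ℓ) (pm γ i) = (x.2 w : Fin n → ZMod ℓ) i) ∧
    (∀ w : Pl M, (lo w : Pl K) ∉ P → x.2 w = 0) ∧
    inc x.1 + ∑ w ∈ up P, tens (x.2 w) (t w) ∈ LL ∧
    ∀ w ∈ up P, ∀ i : Fin n, - ψ ((x.1 : Fin n → L0) i : V) (t w) +
      (x.2 w : Fin n → ZMod ℓ) i * ψ (u : V) (t w) +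
      ∑ j, ((x.2 w : Fin n → ZMod ℓ) i - (x.2 w : Fin n → ZMod ℓ) j) * ψ (g i j : V) (t w) +
      ∑ p ∈ (up P).erase w, ((x.2 p : Fin n → ZMod ℓ) i - (x.2 w : Fin n → ZMod ℓ) i) * sy p w = 0}

/-- its order -/
noncomputable def nG (P : Finset (Pl K)) : ℕ := Nat.card (MSelG pm av ψ L0 LL u g t sy P)

/-- the invariant families in `L0` -/
abbrev XG : Type := {x : Sz ℓ n L0 // InvF pm av (fun i => ((x : Fin n → L0) i : V))}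

/-- the invariants of `L0` -/
abbrev L0G : Type := {α : L0 // ∀ γ : M ≃ₐ[K] M, av γ (α : V) = α}

variable {k : ℕ}

/-- the marked places of a colour -/
def OmG (x : CG pm ℓ k) (w : Pl M) : Prop := DG w x.1.1

/-- the characters of the colours -/
noncomputable def chiG (hh : ClW ℓ n k → L0) (x : CG pm ℓ k) (w : Pl M) : ZMod ℓ :=
  (Nat.card x.1.1 : ZMod ℓ)⁻¹ * ψ (hh x.1.2.1 : V) (t w)

open Classical in
/-- the pairings of the colours -/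
noncomputable def rhoG (x y : CG pm ℓ k) (w w' : Pl M) : ZMod ℓ :=
  - ((2 : ZMod ℓ)⁻¹ * (Nat.card x.1.1 : ZMod ℓ)⁻¹ * (Nat.card y.1.1 : ZMod ℓ)⁻¹ *
    ∑ γ : M ≃ₐ[K] M, QW (aC pm γ x.1.2.1 - y.1.2.1) * sy (gp γ w) w')

/-- the functions of the sets of one colour -/
noncomputable def IG (hh : ClW ℓ n k → L0) (x : CG pm ℓ k) (A : Finset (Pl M)) : ℂ :=
  ee ℓ (∑ w ∈ A, chiG pm ψ L0 t hh x w + ∑ w ∈ A, ∑ w' ∈ A, rhoG pm sy x x w w')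

end

end Pool.Agent.T3h73.SG
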