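import Pool.Agent.T3h73.SG.Pla
set_option autoImplicit false
set_option linter.all false
open NumberField IsDedekindDomain Filter Topology
open scoped Pointwise

namespace Pool.Agent.T3h73.SG.PLC

open Pool.Agent.T3h73.SL (Pl)
open Pool.Agent.T3h73.SG

section
variable {K M : Type} [Field K] [NumberField K] [Field M] [NumberField M] [Algebra K M]

theorem pl_ext {w w' : Pl M} (h : w.asIdeal = w'.asIdeal) : w = w' := by
  cases w; cases w'; simp only at h; subst h; rfl

theorem gp_ideal (g : M ≃ₐ[K] M) (w : Pl M) : (gp g w).asIdeal = g • w.asIdeal := by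
  ext x
  rw [Ideal.mem_pointwise_smul_iff_inv_smul_mem]
  rfl

instance lies (w : Pl M) : w.asIdeal.LiesOver (lo w : Pl K).asIdeal := ⟨rfl⟩

theorem lo_eq_iff (w : Pl M) (q : Pl K) : (lo w : Pl K) = q ↔ w.asIdeal.LiesOver q.asIdeal := by
  constructor
  · rintro rfl; exact ⟨rfl⟩
  · intro h
    exact pl_ext h.over.symm

theorem smul_alg (g : M ≃ₐ[K] M) (x : 𝓞 K) :
    g • (algebraMap (𝓞 K) (𝓞 M) x) = algebraMap (𝓞 K) (𝓞 M) x := by
  apply RingOfIntegers.ext
  exact g.commutes (x : K)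

theorem gp_one (w : Pl M) : gp (1 : M ≃ₐ[K] M) w = w := by
  apply pl_ext
  rw [gp_ideal, one_smul]

theorem gp_mul (g h : M ≃ₐ[K] M) (w : Pl M) : gp (g * h) w = gp g (gp h w) := by
  apply pl_ext
  rw [gp_ideal, gp_ideal, gp_ideal, mul_smul]

theorem lo_gp (g : M ≃ₐ[K] M) (w : Pl M) : (lo (gp g w) : Pl K) = lo w := by
  apply pl_ext
  show (gp g w).asIdeal.under (𝓞 K) = w.asIdeal.under (𝓞 K)
  ext x
  rw [Ideal.mem_comap, Ideal.mem_comap, gp_ideal, Ideal.mem_pointwise_smul_iff_inv_smul_mem,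
    smul_alg]

theorem trans [IsGalois K M] (w w' : Pl M) (h : (lo w : Pl K) = lo w') :
    ∃ g : M ≃ₐ[K] M, gp g w = w' := by
  haveI : w'.asIdeal.LiesOver (lo w : Pl K).asIdeal := by rw [h]; exact ⟨rfl⟩
  obtain ⟨g, hg⟩ := Ideal.exists_smul_eq_of_isGaloisGroup (lo w : Pl K).asIdeal w.asIdeal
    w'.asIdeal (M ≃ₐ[K] M)
  exact ⟨g, pl_ext ((gp_ideal g w).trans hg)⟩

theorem fiber_image (q : Pl K) : (fun w : Pl M => w.asIdeal) '' {w : Pl M | (lo w : Pl K) = q} =
    q.asIdeal.primesOver (𝓞 M) := by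
  ext P
  constructor
  · rintro ⟨w, hw, rfl⟩
    exact ⟨w.isPrime, (lo_eq_iff w q).mp hw⟩
  · rintro ⟨hP, hl⟩
    have hb : P ≠ ⊥ := by
      rintro rfl
      apply q.ne_bot
      rw [hl.over]
      ext x
      rw [Ideal.under_def, Ideal.mem_comap, Ideal.mem_bot, Ideal.mem_bot]
      exact map_eq_zero_iff _ (FaithfulSMul.algebraMap_injective (𝓞 K) (𝓞 M))
    exact ⟨⟨P, hP, hb⟩, (lo_eq_iff _ q).mpr hl, rfl⟩

theorem asIdeal_inj : Function.Injective (fun w : Pl M => w.asIdeal) := fun _ _ h => pl_ext h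

theorem fiber_finite (q : Pl K) : {w : Pl M | (lo w : Pl K) = q}.Finite := by
  apply Set.Finite.of_finite_image (f := fun w : Pl M => w.asIdeal) _ asIdeal_inj.injOn
  rw [fiber_image]
  exact Algebra.QuasiFinite.finite_primesOver q.asIdeal

theorem fiber_ncard (q : Pl K) : {w : Pl M | (lo w : Pl K) = q}.ncard =
    (q.asIdeal.primesOver (𝓞 M)).ncard := by
  rw [← fiber_image, Set.ncard_image_of_injective _ asIdeal_inj]

theorem fiber_nonempty (q : Pl K) : {w : Pl M | (lo w : Pl K) = q}.Nonempty := by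
  have h : (q.asIdeal.primesOver (𝓞 M)).Nonempty := by
    have : Nonempty (q.asIdeal.primesOver (𝓞 M)) := inferInstance
    exact Set.nonempty_coe_sort.mp this
  rw [← fiber_image] at h
  exact Set.image_nonempty.mp h

theorem mem_up (P : Finset (Pl K)) (w : Pl M) : w ∈ up P ↔ (lo w : Pl K) ∈ P := by
  classical
  have h : {w : Pl M | (lo w : Pl K) ∈ P}.Finite := by
    have : {w : Pl M | (lo w : Pl K) ∈ P} = ⋃ q ∈ P, {w : Pl M | (lo w : Pl K) = q} := by
      ext w; simp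
    rw [this]
    exact Set.Finite.biUnion P.finite_toSet (fun q _ => fiber_finite q)
  rw [up, dif_pos h, Set.Finite.mem_toFinset]
  rfl

theorem fib [IsGalois K M] : Fib (lo : Pl M → Pl K) := by
  refine ⟨Nat.card (M ≃ₐ[K] M), fun q => ⟨fiber_finite q, ?_⟩⟩
  rw [fiber_ncard]
  have h := Ideal.ncard_primesOver_mul_ramificationIdxIn_mul_inertiaDegIn q.asIdeal (𝓞 M)
    (M ≃ₐ[K] M)
  exact Nat.le_of_dvd Nat.card_pos ⟨_, h.symm⟩

theorem card_formula [IsGalois K M] (w : Pl M) :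
    {w' : Pl M | (lo w' : Pl K) = lo w}.ncard *
      ((lo w : Pl K).asIdeal.ramificationIdx' w.asIdeal * w.asIdeal.inertiaDeg (𝓞 K)) =
      Nat.card (M ≃ₐ[K] M) := by
  have h := Ideal.ncard_primesOver_mul_ramificationIdxIn_mul_inertiaDegIn (lo w : Pl K).asIdeal (𝓞 M)
    (M ≃ₐ[K] M)
  rw [← fiber_ncard, Ideal.ramificationIdxIn_eq_ramificationIdx _ w.asIdeal (M ≃ₐ[K] M),
    Ideal.inertiaDegIn_eq_inertiaDeg _ w.asIdeal (M ≃ₐ[K] M)] at h
  rw [Ideal.ramificationIdx'_eq_ramificationIdx _ _ (lo w : Pl K).ne_bot]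
  exact h

theorem ten [IsGalois K M] (w : Pl M) : ∃ e : ℕ, 0 < e ∧ e ∣ Nat.card (M ≃ₐ[K] M) ∧ ∀ x : K,
    w.valuation M (algebraMap K M x) = (lo w : Pl K).valuation K x ^ e := by
  have h := card_formula (K := K) w
  refine ⟨(lo w : Pl K).asIdeal.ramificationIdx' w.asIdeal, ?_, ?_, ?_⟩
  · rcases Nat.eq_zero_or_pos ((lo w : Pl K).asIdeal.ramificationIdx' w.asIdeal) with h0 | h0
    · rw [h0, zero_mul, mul_zero] at h
      exact absurd h.symm Nat.card_pos.ne'
    · exact h0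
  · rw [← h]
    exact Dvd.dvd.mul_left (dvd_mul_right _ _) _
  · intro x
    exact (HeightOneSpectrum.valuation_liesOver M (lo w : Pl K) w x).symm

theorem DG_stab (w : Pl M) (D : Subgroup (M ≃ₐ[K] M)) (hD : DG w D) :
    D = MulAction.stabilizer (M ≃ₐ[K] M) w.asIdeal := by
  ext g
  rw [hD g, MulAction.mem_stabilizer_iff, ← gp_ideal]
  constructor
  · intro h; rw [h]
  · intro h; exact pl_ext h

theorem val_le (g : M ≃ₐ[K] M) (w : Pl M) (x : 𝓞 M) :
    (gp g w).intValuation (g • x) ≤ w.intValuation x := by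
  by_cases hx : x = 0
  · rw [hx, smul_zero, map_zero, map_zero]
  have h1 := w.intValuation_eq_exp_neg_multiplicity hx
  rw [h1, HeightOneSpectrum.intValuation_le_pow_iff_mem, gp_ideal, ← smul_pow',
    Ideal.smul_mem_pointwise_smul_iff, ← HeightOneSpectrum.intValuation_le_pow_iff_mem, h1]

theorem val_int (g : M ≃ₐ[K] M) (w : Pl M) (x : 𝓞 M) :
    (gp g w).intValuation (g • x) = w.intValuation x := by
  apply le_antisymm (val_le g w x)
  have h := val_le g⁻¹ (gp g w) (g • x)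
  rwa [← gp_mul, inv_mul_cancel, gp_one, inv_smul_smul] at h

theorem val_gp (g : M ≃ₐ[K] M) (w : Pl M) (x : M) :
    (gp g w).valuation M (g x) = w.valuation M x := by
  obtain ⟨a, b, -, rfl⟩ := IsFractionRing.div_surjective (A := 𝓞 M) x
  have key : ∀ c : 𝓞 M, g (algebraMap (𝓞 M) M c) = algebraMap (𝓞 M) M (g • c) := fun c => rfl
  rw [map_div₀ g, map_div₀, map_div₀, key, key, HeightOneSpectrum.valuation_of_algebraMap,
    HeightOneSpectrum.valuation_of_algebraMap, HeightOneSpectrum.valuation_of_algebraMap,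
    HeightOneSpectrum.valuation_of_algebraMap, val_int, val_int]

/-- unramified places -/
def ur (K : Type) {M : Type} [Field K] [NumberField K] [Field M] [NumberField M] [Algebra K M]
    (w : Pl M) : Prop := (lo w : Pl K).asIdeal.ramificationIdx' w.asIdeal = 1

theorem ur_val (w : Pl M) (h : ur K w) (x : K) :
    w.valuation M (algebraMap K M x) = (lo w : Pl K).valuation K x := by
  rw [← HeightOneSpectrum.valuation_liesOver M (lo w : Pl K) w x, h, pow_one]

theorem card_quot (w : Pl M) : Finite (𝓞 M ⧸ w.asIdeal) := Ideal.finiteQuotientOfFreeOfNeBot _ w.ne_bot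

theorem perf (q : Pl K) : PerfectField q.asIdeal.ResidueField := by
  haveI : Finite (𝓞 K ⧸ q.asIdeal) := card_quot q
  haveI : q.asIdeal.IsMaximal := q.isMaximal
  haveI : Finite q.asIdeal.ResidueField := Finite.of_surjective
    (algebraMap (𝓞 K ⧸ q.asIdeal) q.asIdeal.ResidueField)
    (Ideal.bijective_algebraMap_quotient_residueField q.asIdeal).surjective
  infer_instance

theorem ur_card [IsGalois K M] (w : Pl M) (h : ur K w) :
    Nat.card (MulAction.stabilizer (M ≃ₐ[K] M) w.asIdeal) = w.asIdeal.inertiaDeg (𝓞 K) := by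
  haveI := perf (lo w : Pl K)
  rw [Ideal.card_stabilizer_eq (lo w : Pl K).asIdeal w.asIdeal,
    Ideal.ramificationIdxIn_eq_ramificationIdx _ w.asIdeal (M ≃ₐ[K] M),
    Ideal.inertiaDegIn_eq_inertiaDeg _ w.asIdeal (M ≃ₐ[K] M),
    ← Ideal.ramificationIdx'_eq_ramificationIdx _ _ (lo w : Pl K).ne_bot, h, one_mul]

theorem norm_eq (w : Pl M) : Ideal.absNorm w.asIdeal =
    Ideal.absNorm (lo w : Pl K).asIdeal ^ w.asIdeal.inertiaDeg (𝓞 K) := by
  haveI : w.asIdeal.IsMaximal := w.isMaximal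
  haveI : (lo w : Pl K).asIdeal.IsMaximal := (lo w : Pl K).isMaximal
  rw [← Ideal.inertiaDeg'_eq_inertiaDeg (lo w : Pl K).asIdeal w.asIdeal]
  exact Ideal.absNorm_eq_pow_inertiaDeg'_of_liesOver w.asIdeal (lo w : Pl K).asIdeal
    (lo w : Pl K).isPrime (lo w : Pl K).ne_bot

theorem ur_cyc [IsGalois K M] (w : Pl M) (h : ur K w) :
    IsCyclic (MulAction.stabilizer (M ≃ₐ[K] M) w.asIdeal) := by
  haveI := perf (lo w : Pl K)
  haveI : w.asIdeal.IsMaximal := w.isMaximal
  haveI : (lo w : Pl K).asIdeal.IsMaximal := (lo w : Pl K).isMaximal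
  haveI : Finite (𝓞 M ⧸ w.asIdeal) := card_quot w
  letI : Field (𝓞 K ⧸ (lo w : Pl K).asIdeal) := Ideal.Quotient.field _
  letI : Field (𝓞 M ⧸ w.asIdeal) := Ideal.Quotient.field _
  have hin : Nat.card (Ideal.inertia (M ≃ₐ[K] M) w.asIdeal) = 1 := by
    rw [Ideal.card_inertia_eq_ramificationIdxIn (lo w : Pl K).asIdeal w.asIdeal,
      Ideal.ramificationIdxIn_eq_ramificationIdx _ w.asIdeal (M ≃ₐ[K] M),
      ← Ideal.ramificationIdx'_eq_ramificationIdx _ _ (lo w : Pl K).ne_bot, h]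
  have hinj : Function.Injective (Ideal.Quotient.stabilizerHom w.asIdeal (lo w : Pl K).asIdeal
      (M ≃ₐ[K] M)) := by
    rw [← MonoidHom.ker_eq_bot_iff, Ideal.Quotient.ker_stabilizerHom, eq_bot_iff]
    intro g hg
    have h1 : (g : M ≃ₐ[K] M) ∈ Ideal.inertia (M ≃ₐ[K] M) w.asIdeal := by
      intro x
      exact hg x
    rw [Subgroup.card_eq_one.mp hin, Subgroup.mem_bot] at h1
    rw [Subgroup.mem_bot]
    exact Subtype.ext h1
  exact isCyclic_of_injective _ hinj

theorem unr [IsGalois K M] (S : Finset (Pl K)) (hS : ∀ w : Pl M, (lo w : Pl K) ∉ S → ur K w) :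
    Unr K M S := by
  intro w hw
  have h := hS w hw
  refine ⟨fun x => ur_val w h x, fun D hD => ?_⟩
  rw [DG_stab w D hD]
  refine ⟨ur_cyc w h, ?_, ?_⟩
  · rw [ur_card w h]; exact norm_eq w
  · rw [ur_card w h]
    have := card_formula (K := K) w
    rw [h, one_mul] at this
    exact this

theorem ur_fin [IsGalois K M] : ∃ S₀ : Finset (Pl K), ∀ w : Pl M, (lo w : Pl K) ∉ S₀ → ur K w := by
  classical
  have hfin : {v : Pl M | v.asIdeal ∣ differentIdeal (𝓞 K) (𝓞 M)}.Finite :=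
    Ideal.finite_factors differentIdeal_ne_bot
  refine ⟨hfin.toFinset.image lo, fun w hw => ?_⟩
  have h1 : ¬ w.asIdeal ∣ differentIdeal (𝓞 K) (𝓞 M) := by
    intro h
    exact hw (Finset.mem_image_of_mem _ (hfin.mem_toFinset.mpr h))
  haveI : Algebra.IsUnramifiedAt (𝓞 K) w.asIdeal := not_dvd_differentIdeal_iff.mp h1
  rw [ur, Ideal.ramificationIdx'_eq_ramificationIdx _ _ (lo w : Pl K).ne_bot]
  exact Ideal.ramificationIdx_eq_one_of_isUnramifiedAt

end

theorem t_PLC : S_PLC := by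
  intro K M _ _ _ _ _ _
  refine ⟨val_gp, gp_one, gp_mul, lo_gp, fun w w' h => trans w w' h,
    fun q => ⟨fiber_finite q, fiber_nonempty q⟩, mem_up, fib, ?_, ten⟩
  obtain ⟨S₀, hS⟩ := ur_fin (K := K) (M := M)
  exact ⟨S₀, unr S₀ hS⟩

end Pool.Agent.T3h73.SG.PLC
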