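import Pool.Agent.T3h73.SG.StmV
import Pool.Agent.TH115.TC.Compl

/-!
# Project SG, task VTR (helper7): transport of the local notions by an automorphism of `M`
-/

set_option autoImplicit false
set_option linter.all false

open NumberField IsDedekindDomain Polynomial Filter Topology

namespace Pool.Agent.T3h73.SG.VTR

open Pool.Agent.T3h73.SL (Pl IsP Pk loc Sg)
open Pool.Agent.T3h73.SD (Sv LN)
open Pool.Agent.Y713.SE (Pw)

/-! ### norms -/

theorem norm_tr {k k' : Type} [Field k] [Field k'] (e : k ≃+* k') (ℓ : ℕ) (a x : k)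
    (h : ∃ c : AdjoinRoot (X ^ ℓ - C a : k[X]), Algebra.norm k c = x) :
    ∃ c : AdjoinRoot (X ^ ℓ - C (e a) : k'[X]), Algebra.norm k' c = e x := by
  obtain ⟨c, hc⟩ := h
  have hm : (X ^ ℓ - C a : k[X]).map (e : k →+* k') = X ^ ℓ - C (e a) := by
    rw [Polynomial.map_sub, Polynomial.map_pow, map_X, map_C]
    rfl
  let e₂ : AdjoinRoot (X ^ ℓ - C a : k[X]) ≃+* AdjoinRoot (X ^ ℓ - C (e a) : k'[X]) :=
    AdjoinRoot.mapRingEquiv e _ _ (by rw [hm])
  have he : (algebraMap k' (AdjoinRoot (X ^ ℓ - C (e a) : k'[X]))).comp (e : k →+* k') =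
      (e₂ : AdjoinRoot (X ^ ℓ - C a : k[X]) →+* AdjoinRoot (X ^ ℓ - C (e a) : k'[X])).comp
        (algebraMap k (AdjoinRoot (X ^ ℓ - C a : k[X]))) := by
    ext r
    have h := AdjoinRoot.map_of (e : k →+* k') (X ^ ℓ - C a : k[X])
      (X ^ ℓ - C (e a) : k'[X]) (by rw [hm]) r
    exact h.symm
  refine ⟨e₂ c, ?_⟩
  have h1 := Algebra.norm_eq_of_equiv_equiv e e₂ he c
  rw [hc] at h1
  rw [h1, e.apply_symm_apply]

/-! ### completions -/

section compl
variable {M : Type} [Field M] [NumberField M]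

theorem near (w : Pl M) (y : w.adicCompletion M) (m : ℤ) :
    ∃ x : M, (Valued.v (y - algebraMap M (w.adicCompletion M) x) : WithZero (Multiplicative ℤ)) <
      WithZero.exp m := by
  obtain ⟨π, hπ⟩ := w.valuation_exists_uniformizer M
  have hπ0 : π ≠ 0 := by
    rintro rfl
    rw [map_zero] at hπ
    exact WithZero.exp_ne_zero hπ.symm
  have hv : (Valued.v (algebraMap M (w.adicCompletion M) (π ^ (-m))) :
      WithZero (Multiplicative ℤ)) = WithZero.exp m := by
    have vx : ∀ x : M, (Valued.v (algebraMap M (w.adicCompletion M) x) :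
      WithZero (Multiplicative ℤ)) = w.valuation M x :=
      fun x => HeightOneSpectrum.valuedAdicCompletion_eq_valuation' w x
    rw [vx, map_zpow₀, hπ, ← WithZero.exp_zsmul]
    congr 1
    simp
  have hU : {z : w.adicCompletion M | (Valued.v z : WithZero (Multiplicative ℤ)) <
      WithZero.exp m} ∈ 𝓝 (0 : w.adicCompletion M) := by
    have hne : (Valued.v (R := w.adicCompletion M)).restrict
        (algebraMap M (w.adicCompletion M) (π ^ (-m))) ≠ 0 := by
      rw [Valuation.ne_zero_iff]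
      exact (_root_.map_ne_zero _).2 (zpow_ne_zero _ hπ0)
    rw [Valued.mem_nhds_zero]
    refine ⟨Units.mk0 _ hne, fun z hz => ?_⟩
    have hz' : (Valued.v z : WithZero (Multiplicative ℤ)) <
      Valued.v (algebraMap M (w.adicCompletion M) (π ^ (-m))) :=
      (Valuation.restrict_lt_iff _).1 hz
    rw [hv] at hz'
    exact hz'
  have ht : Tendsto (fun z : w.adicCompletion M => y - z) (𝓝 y) (𝓝 0) := by
    have h5 : Tendsto (fun z : w.adicCompletion M => y - z) (𝓝 y) (𝓝 (y - y)) :=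
      tendsto_const_nhds.sub tendsto_id
    rwa [sub_self] at h5
  obtain ⟨z, hz, x, rfl⟩ := mem_closure_iff_nhds.1
    (HeightOneSpectrum.denseRange_algebraMap M w y) _ (ht hU)
  exact ⟨x, hz⟩

theorem id_of (w : Pl M) (θ : w.adicCompletion M →+* w.adicCompletion M)
    (h1 : ∀ x : M, θ (algebraMap M _ x) = algebraMap M _ x)
    (h2 : ∀ y, (Valued.v y : WithZero (Multiplicative ℤ)) < 1 →
      (Valued.v (θ y) : WithZero (Multiplicative ℤ)) < 1) : θ = RingHom.id _ := by
  refine RingHom.ext fun y => ?_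
  rw [RingHom.id_apply]
  by_contra hne
  have h0 : (Valued.v (θ y - y) : WithZero (Multiplicative ℤ)) ≠ 0 :=
    (Valuation.ne_zero_iff _).2 (sub_ne_zero.2 hne)
  set m := WithZero.log (Valued.v (θ y - y) : WithZero (Multiplicative ℤ)) with hm
  have hm' : WithZero.exp m = (Valued.v (θ y - y) : WithZero (Multiplicative ℤ)) :=
    WithZero.exp_log h0
  obtain ⟨x, hx⟩ := near w y m
  obtain ⟨π, hπ⟩ := w.valuation_exists_uniformizer M
  have hπ0 : π ≠ 0 := by
    rintro rfl
    rw [map_zero] at hπ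
    exact WithZero.exp_ne_zero hπ.symm
  have hv : (Valued.v (algebraMap M (w.adicCompletion M) (π ^ (-m))) :
      WithZero (Multiplicative ℤ)) = WithZero.exp m := by
    have vx : ∀ x : M, (Valued.v (algebraMap M (w.adicCompletion M) x) :
      WithZero (Multiplicative ℤ)) = w.valuation M x :=
      fun x => HeightOneSpectrum.valuedAdicCompletion_eq_valuation' w x
    rw [vx, map_zpow₀, hπ, ← WithZero.exp_zsmul]
    congr 1
    simp
  have hlt : (Valued.v ((y - algebraMap M (w.adicCompletion M) x) /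
      algebraMap M (w.adicCompletion M) (π ^ (-m))) : WithZero (Multiplicative ℤ)) < 1 := by
    rw [map_div₀, hv]
    exact (div_lt_one₀ (zero_lt_iff.2 WithZero.exp_ne_zero)).2 hx
  have h3 := h2 _ hlt
  rw [map_div₀ θ, map_sub, h1, h1, map_div₀, hv] at h3
  have h4 := (div_lt_one₀ (zero_lt_iff.2 WithZero.exp_ne_zero)).1 h3
  have h5 : (Valued.v (θ y - y) : WithZero (Multiplicative ℤ)) < WithZero.exp m := by
    have e1 : θ y - y = (θ y - algebraMap M (w.adicCompletion M) x) -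
      (y - algebraMap M (w.adicCompletion M) x) := by ring
    rw [e1]
    exact lt_of_le_of_lt (Valuation.map_sub _ _ _) (max_lt h4 hx)
  rw [hm'] at h5
  exact lt_irrefl _ h5

end compl

section
variable {K M : Type} [Field K] [NumberField K] [Field M] [NumberField M] [Algebra K M]
  [IsGalois K M]

theorem iso (hPLC : S_PLC) (γ : M ≃ₐ[K] M) (w : Pl M) :
    ∃ e : w.adicCompletion M ≃+* (gp γ w).adicCompletion M,
      ∀ x : M, e (algebraMap M _ x) = algebraMap M _ (γ x) := by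
  obtain ⟨q1, q2, q3, -⟩ := hPLC K M
  obtain ⟨j, hj1, hj2, hj3⟩ := Pool.Agent.TH115.GD.exists_compl_map w (gp γ w)
    ((γ : M →+* M)) (fun x hx => (q1 γ w x).le.trans hx) (fun x hx => (q1 γ w x).trans_lt hx)
  have q1' : ∀ x : M, w.valuation M (γ⁻¹ x) = (gp γ w).valuation M x := by
    intro x
    have h := q1 γ w (γ⁻¹ x)
    have h2 : γ (γ⁻¹ x) = x := by
      rw [← AlgEquiv.mul_apply, mul_inv_cancel, AlgEquiv.one_apply]
    rw [h2] at h
    exact h.symm
  obtain ⟨j', hj1', hj2', hj3'⟩ := Pool.Agent.TH115.GD.exists_compl_map (gp γ w) w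
    (((γ⁻¹ : M ≃ₐ[K] M) : M →+* M)) (fun x hx => (q1' x).le.trans hx)
    (fun x hx => (q1' x).trans_lt hx)
  have e1 : j'.comp j = RingHom.id _ := by
    apply id_of w
    · intro x
      rw [RingHom.comp_apply, hj1, hj1']
      congr 1
      show (γ⁻¹ : M ≃ₐ[K] M) (γ x) = x
      rw [← AlgEquiv.mul_apply, inv_mul_cancel, AlgEquiv.one_apply]
    · intro y hy
      exact hj3' _ (hj3 y hy)
  have e2 : j.comp j' = RingHom.id _ := by
    apply id_of (gp γ w)
    · intro x
      rw [RingHom.comp_apply, hj1', hj1]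
      congr 1
      show γ ((γ⁻¹ : M ≃ₐ[K] M) x) = x
      rw [← AlgEquiv.mul_apply, mul_inv_cancel, AlgEquiv.one_apply]
    · intro y hy
      exact hj3 _ (hj3' y hy)
  exact ⟨RingEquiv.ofRingHom j j' e2 e1, fun x => hj1 x⟩

theorem isP_equiv {ℓ : ℕ} {G H : Type} [CommGroup G] [CommGroup H] (e : G ≃* H) (x : G) :
    IsP ℓ (e x) ↔ IsP ℓ x := by
  constructor
  · rintro ⟨z, hz⟩
    refine ⟨e.symm z, ?_⟩
    rw [← map_pow, ← hz, e.symm_apply_apply]
  · rintro ⟨z, hz⟩
    exact ⟨e z, by rw [hz, map_pow]⟩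

theorem isP_tr (hPLC : S_PLC) {ℓ : ℕ} (γ : M ≃ₐ[K] M) (w : Pl M) (x : Mˣ) :
    IsP ℓ (loc (gp γ w) (gU γ x)) ↔ IsP ℓ (loc w x) := by
  obtain ⟨e, he⟩ := iso hPLC γ w
  have h : loc (gp γ w) (gU γ x) = Units.mapEquiv (e : w.adicCompletion M ≃*
      (gp γ w).adicCompletion M) (loc w x) := Units.ext (he x).symm
  rw [h, isP_equiv]

theorem ln_tr (hPLC : S_PLC) {ℓ : ℕ} (γ : M ≃ₐ[K] M) (w : Pl M) (a x : Mˣ)
    (h : LN ℓ w a x) : LN ℓ (gp γ w) (gU γ a) (gU γ x) := by
  rcases h with h | h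
  · exact Or.inl ((isP_tr hPLC γ w a).2 h)
  · right
    obtain ⟨e, he⟩ := iso hPLC γ w
    have h1 := norm_tr e ℓ _ _ h
    have h2 : ∀ y : Mˣ, e ((loc w y : (w.adicCompletion M)ˣ) : w.adicCompletion M) =
        ((loc (gp γ w) (gU γ y) : ((gp γ w).adicCompletion M)ˣ) : (gp γ w).adicCompletion M) :=
      fun y => he y
    rw [h2, h2] at h1
    exact h1

end

theorem t_VTR (hPLC : S_PLC) : S_VTR := by
  intro ℓ hℓ K M _ _ _ _ _ _ γ
  classical
  obtain ⟨q1, q2, q3, -⟩ := hPLC K M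
  have hinv : ∀ w : Pl M, gp γ⁻¹ (gp γ w) = w := by
    intro w
    rw [← q3, inv_mul_cancel, q2]
  have hinv' : ∀ w : Pl M, gp γ (gp γ⁻¹ w) = w := by
    intro w
    rw [← q3, mul_inv_cancel, q2]
  have hU : ∀ x : Mˣ, gU γ⁻¹ (gU γ x) = x := by
    intro x
    apply Units.ext
    show (γ⁻¹ : M ≃ₐ[K] M) (γ (x : M)) = x
    rw [← AlgEquiv.mul_apply, inv_mul_cancel, AlgEquiv.one_apply]
  have hU' : ∀ x : Mˣ, gU γ (gU γ⁻¹ x) = x := by
    intro x
    apply Units.ext
    show γ ((γ⁻¹ : M ≃ₐ[K] M) (x : M)) = x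
    rw [← AlgEquiv.mul_apply, mul_inv_cancel, AlgEquiv.one_apply]
  have hln : ∀ (w : Pl M) (a x : Mˣ), LN ℓ (gp γ w) (gU γ a) (gU γ x) ↔ LN ℓ w a x := by
    intro w a x
    constructor
    · intro h
      have h1 := ln_tr hPLC γ⁻¹ (gp γ w) _ _ h
      rwa [hinv, hU, hU] at h1
    · exact ln_tr hPLC γ w a x
  have hval : ∀ (w : Pl M) (x : Mˣ), (gp γ w).valuation M ((gU γ x : Mˣ) : M) =
      w.valuation M (x : M) := fun w x => q1 γ w x
  have hl : ∀ w : Pl M, (gp γ w).valuation M (ℓ : M) = w.valuation M (ℓ : M) := by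
    intro w
    have h := q1 γ w (ℓ : M)
    have h2 : γ (ℓ : M) = (ℓ : M) := map_natCast γ ℓ
    rwa [h2] at h
  refine ⟨fun w x => isP_tr hPLC γ w x, hln, fun sv H => ?_⟩
  refine ⟨?_, ?_, ?_, ?_, ?_, ?_, ?_, ?_, ?_⟩
  · intro v x x' y
    rw [map_mul, H.mul_left]
  · intro v x y y'
    rw [map_mul, H.mul_right]
  · intro v x
    exact H.alt _ _
  · intro v x y h
    exact H.ln _ _ _ ((hln v x y).2 h)
  · intro v x y h
    exact H.pow_left _ _ _ ((isP_tr hPLC γ v x).2 h)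
  · intro v x y h
    exact H.pow_right _ _ _ ((isP_tr hPLC γ v y).2 h)
  · intro v hv x y hx hy
    exact H.unr _ ((hl v).trans hv) _ _ (by rw [hval]; exact hx) (by rw [hval]; exact hy)
  · intro v x h
    apply (isP_tr hPLC γ v x).1
    apply H.nd
    intro y
    have h1 := h (gU γ⁻¹ y)
    rwa [hU'] at h1
  · intro B hB x y hxy
    have hinj : Function.Injective (gp γ : Pl M → Pl M) := fun a b hab => by
      rw [← hinv a, hab, hinv]
    have h1 := H.prod (B.image (gp γ)) (fun v hv => by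
      rw [Finset.mem_image]
      refine ⟨gp γ⁻¹ v, hB _ ?_, hinv' v⟩
      rw [← hl, hinv']
      exact hv) (gU γ x) (gU γ y) (fun v hv => by
      have h2 : gp γ⁻¹ v ∉ B := fun h => hv (Finset.mem_image.2 ⟨_, h, hinv' v⟩)
      have h3 := hxy _ h2
      rw [← hval, ← hval (gp γ⁻¹ v) y, hinv'] at h3
      exact h3)
    rw [Finset.sum_image (fun a _ b _ hab => hinj hab)] at h1
    exact h1

end Pool.Agent.T3h73.SG.VTR
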