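import Pool.Agent.T3h73.SG.ZeuC

/-!
# Project SG, task ZEU (helper49): the sums over one variable
-/

set_option autoImplicit false
set_option linter.all false

open NumberField IsDedekindDomain

namespace Pool.Agent.T3h73.SG.ZEU

open Pool.Agent.T3h73.SL (Pl IsP Pk loc)
open Pool.Agent.T3h73.SD (ee NA gA SymSys)
open Pool.Agent.T3h73.SN (Sz tens inc ClW slc hcW)

section
variable {ℓ n k : ℕ} [Fact ℓ.Prime] {K M : Type} [Field K] [NumberField K] [Field M] [NumberField M]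
  [Algebra K M] [IsGalois K M] {pm : (M ≃ₐ[K] M) →* Equiv.Perm (Fin n)}

lemma gp_inj (hPLC : S_PLC) (g : M ≃ₐ[K] M) (v w : Pl M) (h : gp g v = gp g w) : v = w := by
  obtain ⟨-, h1, hmul, -⟩ := hPLC K M
  have e : ∀ z : Pl M, gp g⁻¹ (gp g z) = z := by
    intro z
    rw [← hmul, inv_mul_cancel, h1]
  rw [← e v, ← e w, h]

open Classical in
/-- the coefficients of the symbols -/
noncomputable def jj (x : CG pm ℓ k) (B : CG pm ℓ k → Finset (Pl M)) (v : Pl M) : ZMod ℓ :=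
  ∑ y, ∑ b ∈ B y, ∑ g : M ≃ₐ[K] M, if gp g b = v then cc pm x y g else 0

open Classical in
/-- the conjugates of the places in the sets `B y` -/
noncomputable def big (B : CG pm ℓ k → Finset (Pl M)) : Finset (Pl M) :=
  (Finset.univ.biUnion B).biUnion fun b => Finset.univ.image fun g : M ≃ₐ[K] M => gp g b

open Classical in
/-- the support of `jj` -/
noncomputable def Bt (x : CG pm ℓ k) (B : CG pm ℓ k → Finset (Pl M)) : Finset (Pl M) :=
  (big B).filter fun v => jj x B v ≠ 0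

lemma mem_big (B : CG pm ℓ k → Finset (Pl M)) (v : Pl M) :
    v ∈ big B ↔ ∃ y, ∃ b ∈ B y, ∃ g : M ≃ₐ[K] M, gp g b = v := by
  classical
  unfold big
  simp only [Finset.mem_biUnion, Finset.mem_image, Finset.mem_univ, true_and]
  constructor
  · rintro ⟨b, ⟨y, hy⟩, g, hg⟩
    exact ⟨y, b, hy, g, hg⟩
  · rintro ⟨y, b, hy, g, hg⟩
    exact ⟨b, ⟨y, hy⟩, g, hg⟩

lemma jj_ne (x : CG pm ℓ k) (B : CG pm ℓ k → Finset (Pl M)) (v : Pl M) (hv : jj x B v ≠ 0) :
    v ∈ big B := by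
  classical
  by_contra hcon
  apply hv
  unfold jj
  refine Finset.sum_eq_zero fun y _ => Finset.sum_eq_zero fun b hb => Finset.sum_eq_zero fun g _ => ?_
  rw [if_neg]
  intro h
  exact hcon ((mem_big B v).2 ⟨y, b, hb, g, h⟩)

lemma mem_Bt (x : CG pm ℓ k) (B : CG pm ℓ k → Finset (Pl M)) (v : Pl M) :
    jj x B v ≠ 0 ↔ v ∈ Bt x B := by
  classical
  unfold Bt
  rw [Finset.mem_filter]
  exact ⟨fun h => ⟨jj_ne x B v h, h⟩, fun h => h.2⟩

lemma jj_sum (x : CG pm ℓ k) (B : CG pm ℓ k → Finset (Pl M)) (f : Pl M → ZMod ℓ) :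
    ∑ v ∈ Bt x B, jj x B v * f v = ∑ y, ∑ b ∈ B y, ∑ g : M ≃ₐ[K] M, cc pm x y g * f (gp g b) := by
  classical
  have h1 : ∑ v ∈ Bt x B, jj x B v * f v = ∑ v ∈ big B, jj x B v * f v := by
    unfold Bt
    refine Finset.sum_subset (Finset.filter_subset _ _) fun v hv hv' => ?_
    rw [Finset.mem_filter, not_and, not_not] at hv'
    rw [hv' hv, zero_mul]
  rw [h1]
  unfold jj
  simp_rw [Finset.sum_mul]
  rw [Finset.sum_comm]
  refine Finset.sum_congr rfl fun y _ => ?_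
  rw [Finset.sum_comm]
  refine Finset.sum_congr rfl fun b hb => ?_
  rw [Finset.sum_comm]
  refine Finset.sum_congr rfl fun g _ => ?_
  rw [Finset.sum_eq_single (gp g b)]
  · rw [if_pos rfl]
  · intro v _ hv
    rw [if_neg (fun h => hv h.symm), zero_mul]
  · intro h
    exact absurd ((mem_big B _).2 ⟨y, b, hb, g, rfl⟩) h

lemma jj_inv (hPLC : S_PLC) (x : CG pm ℓ k) (B : CG pm ℓ k → Finset (Pl M)) (g' : M ≃ₐ[K] M)
    (hg' : g' ∈ x.1.1) (v : Pl M) : jj x B (gp g' v) = jj x B v := by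
  classical
  obtain ⟨-, h1, hmul, -⟩ := hPLC K M
  unfold jj
  refine Finset.sum_congr rfl fun y _ => Finset.sum_congr rfl fun b _ => ?_
  rw [← Equiv.sum_comp (Equiv.mulLeft g')]
  refine Finset.sum_congr rfl fun g _ => ?_
  rw [Equiv.coe_mulLeft, cc_left pm x y g' g hg']
  have h2 : gp (g' * g) b = gp g' v ↔ gp g b = v := by
    rw [hmul]
    constructor
    · intro h
      exact gp_inj hPLC g' _ _ h
    · intro h
      rw [h]
  by_cases h3 : gp g b = v
  · rw [if_pos (h2.2 h3), if_pos h3]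
  · rw [if_neg (fun h => h3 (h2.1 h)), if_neg h3]

lemma jj_val (hPLC : S_PLC) (x : CG pm ℓ k) (B : CG pm ℓ k → Finset (Pl M)) (S : Finset (Pl K))
    (hB : ∀ y, Ad S (lo : Pl M → Pl K) (OmG pm y) (B y))
    (hD : ∀ y z, y ≠ z → Dj (lo : Pl M → Pl K) (B y) (B z)) (y : CG pm ℓ k) (b : Pl M) (hb : b ∈ B y)
    (g : M ≃ₐ[K] M) : jj x B (gp g b) = (Nat.card y.1.1 : ZMod ℓ) * cc pm x y g := by
  classical
  obtain ⟨-, h1, hmul, hlo, -⟩ := hPLC K M
  unfold jj
  have hlo2 : ∀ (b' : Pl M) (g' : M ≃ₐ[K] M), gp g' b' = gp g b → (lo b' : Pl K) = lo b := by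
    intro b' g' h
    have h2 := congrArg (lo : Pl M → Pl K) h
    rwa [hlo, hlo] at h2
  rw [Finset.sum_eq_single y]
  · rw [Finset.sum_eq_single b]
    · rw [← Equiv.sum_comp (Equiv.mulLeft g)]
      have h2 : ∀ g' : M ≃ₐ[K] M, (if gp ((Equiv.mulLeft g) g') b = gp g b then
          cc pm x y ((Equiv.mulLeft g) g') else 0) = if g' ∈ y.1.1 then cc pm x y g else 0 := by
        intro g'
        rw [Equiv.coe_mulLeft]
        have h3 : gp (g * g') b = gp g b ↔ g' ∈ y.1.1 := by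
          have hDG : DG b y.1.1 := ((hB y).1 b hb).1
          rw [hDG g', hmul]
          constructor
          · intro h
            exact gp_inj hPLC g _ _ h
          · intro h
            rw [h]
        by_cases h4 : g' ∈ y.1.1
        · rw [if_pos (h3.2 h4), if_pos h4, cc_right pm x y g g' h4]
        · rw [if_neg (fun h => h4 (h3.1 h)), if_neg h4]
      rw [Finset.sum_congr rfl fun g' _ => h2 g', ← Finset.sum_filter, Finset.sum_const, nsmul_eq_mul]
      congr 2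
      rw [Nat.card_eq_fintype_card, Fintype.card_subtype]
    · intro b' hb' hne
      refine Finset.sum_eq_zero fun g' _ => ?_
      rw [if_neg]
      intro h
      exact hne ((hB y).2 (Finset.mem_coe.2 hb') (Finset.mem_coe.2 hb) (hlo2 b' g' h))
    · intro h
      exact absurd hb h
  · intro y' _ hne
    refine Finset.sum_eq_zero fun b' hb' => Finset.sum_eq_zero fun g' _ => ?_
    rw [if_neg]
    intro h
    exact hD y' y hne b' hb' b hb (hlo2 b' g' h)
  · intro h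
    exact absurd (Finset.mem_univ _) h

lemma lam_pos_le (x : CG pm ℓ k) : 0 < lamG pm x ∧ lamG pm x ≤ 1 := by
  have hw : 1 ≤ wD pm ℓ x.1.1 := by
    unfold wD
    haveI : Nonempty {c : Sz ℓ n (ZMod ℓ) // ∀ g ∈ x.1.1, aW pm g c = c} :=
      ⟨⟨0, fun g _ => rfl⟩⟩
    exact Nat.card_pos
  have hD : 1 ≤ Nat.card x.1.1 := Nat.card_pos
  have hG : 1 ≤ Nat.card (M ≃ₐ[K] M) := Nat.card_pos
  have hDG : Nat.card x.1.1 ≤ Nat.card (M ≃ₐ[K] M) := Subgroup.card_le_card_group _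
  have h1 : (1 : ℝ) ≤ (wD pm ℓ x.1.1 : ℝ) ^ k := one_le_pow₀ (by exact_mod_cast hw)
  have h2 : (0 : ℝ) < Nat.card x.1.1 := by exact_mod_cast hD
  have h3 : (0 : ℝ) < Nat.card (M ≃ₐ[K] M) := by exact_mod_cast hG
  have h4 : (Nat.card x.1.1 : ℝ) / Nat.card (M ≃ₐ[K] M) ≤ 1 := by
    rw [div_le_one h3]
    exact_mod_cast hDG
  have h5 : ((wD pm ℓ x.1.1 : ℝ) ^ k)⁻¹ ≤ 1 := inv_le_one_of_one_le₀ h1
  unfold lamG
  constructor
  · positivity
  · have h6 : 1 / 2 * ((wD pm ℓ x.1.1 : ℝ) ^ k)⁻¹ ≤ 1 := by linarith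
    exact mul_le_one₀ h6 (by positivity) h4

end

open Classical in
theorem t_ZEU (hPLC : S_PLC) (hYEU : S_YEU) : S_ZEU := by
  intro ℓ n _ hℓ2 K M _ _ _ _ _ _ pm S 𝔪 V _ _ _ av ψ L0 L1 LL π u d1 g t sy hM k hh hinv x hgood
  have hℓ : ℓ.Prime := Fact.out
  obtain ⟨-, h1, hmul, hlo, -, -, hup, -⟩ := hPLC K M
  have hG0 : (Nat.card (M ≃ₐ[K] M) : ZMod ℓ) ≠ 0 := by
    rw [Ne, ZMod.natCast_eq_zero_iff]
    exact hM.sys.hG
  have hD0 : ∀ D : Subgroup (M ≃ₐ[K] M), (Nat.card D : ZMod ℓ) ≠ 0 := by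
    intro D
    rw [Ne, ZMod.natCast_eq_zero_iff]
    intro h
    exact hM.sys.hG (h.trans (Subgroup.card_subgroup_dvd_card D))
  obtain ⟨E, hE, hY⟩ := hYEU ℓ hℓ hℓ2 K M S 𝔪 L0 (fun h w => ψ (h : V) (t w)) sy hM.sys x.1.1
    (lamG pm x) (lam_pos_le x).1 (lam_pos_le x).2
  obtain ⟨C, hC, hgA⟩ := gA_log K
  obtain ⟨γ, hγ⟩ : ∃ γ : ℝ, γ = Nat.card (M ≃ₐ[K] M) := ⟨_, rfl⟩
  have hγ1 : 1 ≤ γ := by
    rw [hγ]
    have : 1 ≤ Nat.card (M ≃ₐ[K] M) := Nat.card_pos
    exact_mod_cast this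
  -- the constant
  obtain ⟨E', hE'⟩ : ∃ E' : ℝ, E' = max (E * γ ^ E * C ^ E) (E + C * E) := ⟨_, rfl⟩
  have hE1 : E * γ ^ E * C ^ E ≤ E' := by rw [hE']; exact le_max_left _ _
  have hE2 : E + C * E ≤ E' := by rw [hE']; exact le_max_right _ _
  have hE3 : E ≤ E' := by nlinarith [mul_pos hC hE]
  have hE0 : 0 < E' := lt_of_lt_of_le hE hE3
  refine ⟨E', hE0, fun B F hB hD hBx hnt s hs1 hs2 => ?_⟩
  obtain ⟨BB, hBB⟩ : ∃ BB : Finset (Pl M), BB = Finset.univ.biUnion B := ⟨_, rfl⟩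
  obtain ⟨Q, hQ⟩ : ∃ Q : Finset (Pl K), Q = BB.image lo := ⟨_, rfl⟩
  have hBBmem : ∀ b, b ∈ BB ↔ ∃ y, b ∈ B y := by
    intro b
    rw [hBB, Finset.mem_biUnion]
    simp
  have hQmem : ∀ q, q ∈ Q ↔ ∃ y, ∃ b ∈ B y, (lo b : Pl K) = q := by
    intro q
    rw [hQ, Finset.mem_image]
    constructor
    · rintro ⟨b, hb, rfl⟩
      obtain ⟨y, hy⟩ := (hBBmem b).1 hb
      exact ⟨y, b, hy, rfl⟩
    · rintro ⟨y, b, hb, rfl⟩
      exact ⟨b, (hBBmem b).2 ⟨y, hb⟩, rfl⟩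
  have hQS : ∀ q ∈ Q, q ∉ S := by
    intro q hq
    obtain ⟨y, b, hb, rfl⟩ := (hQmem q).1 hq
    exact ((hB y).1 b hb).2
  have hBtQ : ∀ v ∈ Bt x B, (lo v : Pl K) ∈ Q := by
    intro v hv
    obtain ⟨y, b, hb, g', rfl⟩ := (mem_big B v).1 (jj_ne x B v ((mem_Bt x B v).2 hv))
    rw [hlo]
    exact (hQmem _).2 ⟨y, b, hb, rfl⟩
  -- the hypotheses of YEU
  have c1 : Disjoint (Bt x B) (up S) := by
    rw [Finset.disjoint_left]
    intro v hv hv2
    exact hQS _ (hBtQ v hv) ((hup S v).1 hv2)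
  obtain ⟨hx, hhx⟩ : ∃ hx : L0, hx = ((Nat.card x.1.1 : ZMod ℓ)⁻¹) • hh x.1.2.1 := ⟨_, rfl⟩
  have c3 : ∀ g' ∈ x.1.1, ∀ w : Pl M, (lo w : Pl K) ∉ S →
      ψ (hx : V) (t (gp g' w)) = ψ (hx : V) (t w) := by
    intro g' hg' w hw
    have h2 : av g' (hx : V) = hx := by
      rw [hhx, Submodule.coe_smul, map_smul, hinv x.1.1 x.1.2.1 x.2.2 g' hg']
    rw [hM.t_eq g' w hw]
    nth_rewrite 1 [← h2]
    exact hM.lin.inv g' _ _
  have c5 : (∃ w : Pl M, (lo w : Pl K) ∉ S ∧ ψ (hx : V) (t w) ≠ 0) ∨ (Bt x B).Nonempty := by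
    rcases hnt with h2 | ⟨y, hy, b, hb⟩
    · left
      have hx0 : hx ≠ 0 := by
        rw [hhx]
        exact smul_ne_zero (inv_ne_zero (hD0 _)) h2
      obtain ⟨w, hw1, hw2⟩ := char_nontriv hℓ hM.sys.sys hx hx0
      exact ⟨w, fun h => hw1 ((hup S w).2 h), hw2⟩
    · right
      obtain ⟨g', hg'⟩ := hy
      refine ⟨gp g' b, (mem_Bt x B _).1 ?_⟩
      rw [jj_val hPLC x B S hB hD y b hb g']
      refine mul_ne_zero (hD0 _) ?_
      unfold cc
      exact neg_ne_zero.2 (mul_ne_zero (mul_ne_zero (inv_ne_zero (hD0 _)) (inv_ne_zero (hD0 _))) hg')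
  have key := hY hx (jj x B) (Bt x B) (F ∪ Q) c1 (mem_Bt x B) c3
    (fun g' hg' w => jj_inv hPLC x B g' hg' w) c5 s hs1 hs2
  -- the sums agree
  have hsum : (∑' A : Finset (Pl M), if Ad S (lo : Pl M → Pl K) (OmG pm x) A ∧
        (∀ y, Dj (lo : Pl M → Pl K) A (B y)) ∧ Disjoint (A.image (lo : Pl M → Pl K)) F then
      ((lamG pm x ^ A.card * (NO (lo : Pl M → Pl K) A : ℝ) ^ (-s) : ℝ) : ℂ) *
        ee ℓ (∑ w ∈ A, (chiG pm ψ L0 t hh x w +
          ∑ y, ∑ b ∈ B y, (rhoG pm sy x y w b + rhoG pm sy y x b w))) else 0) =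
      ∑' A : Finset (Pl M), if Ad S (lo : Pl M → Pl K) (fun w => DG w x.1.1) A ∧
      (∀ w ∈ A, ∀ b ∈ Bt x B, (lo w : Pl K) ≠ lo b) ∧
        Disjoint (A.image (lo : Pl M → Pl K)) (F ∪ Q) then
    ((lamG pm x ^ A.card * (NO (lo : Pl M → Pl K) A : ℝ) ^ (-s) : ℝ) : ℂ) *
      ee ℓ (∑ w ∈ A, (ψ (hx : V) (t w) + ∑ b ∈ Bt x B, jj x B b * sy b w)) else 0 := by
    refine tsum_congr fun A => ?_
    have hiff : (Ad S (lo : Pl M → Pl K) (OmG pm x) A ∧
        (∀ y, Dj (lo : Pl M → Pl K) A (B y)) ∧ Disjoint (A.image (lo : Pl M → Pl K)) F) ↔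
        (Ad S (lo : Pl M → Pl K) (fun w => DG w x.1.1) A ∧
      (∀ w ∈ A, ∀ b ∈ Bt x B, (lo w : Pl K) ≠ lo b) ∧
        Disjoint (A.image (lo : Pl M → Pl K)) (F ∪ Q)) := by
      constructor
      · rintro ⟨a1, a2, a3⟩
        have a4 : ∀ w ∈ A, (lo w : Pl K) ∉ Q := by
          intro w hw h
          obtain ⟨y, b, hb, h2⟩ := (hQmem _).1 h
          exact a2 y w hw b hb h2.symm
        refine ⟨a1, ?_, ?_⟩
        · intro w hw b hb h
          apply a4 w hw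
          rw [h]
          exact hBtQ b hb
        · rw [Finset.disjoint_union_right]
          refine ⟨a3, ?_⟩
          rw [Finset.disjoint_left]
          intro q hq
          obtain ⟨w, hw, rfl⟩ := Finset.mem_image.1 hq
          exact a4 w hw
      · rintro ⟨a1, -, a3⟩
        rw [Finset.disjoint_union_right] at a3
        refine ⟨a1, ?_, a3.1⟩
        intro y w hw b hb h
        exact Finset.disjoint_left.1 a3.2 (Finset.mem_image_of_mem _ hw) ((hQmem _).2 ⟨y, b, hb, h.symm⟩)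
    by_cases hA : Ad S (lo : Pl M → Pl K) (OmG pm x) A ∧
        (∀ y, Dj (lo : Pl M → Pl K) A (B y)) ∧ Disjoint (A.image (lo : Pl M → Pl K)) F
    · rw [if_pos hA, if_pos (hiff.1 hA)]
      congr 2
      refine Finset.sum_congr rfl fun w hw => ?_
      have hwS : (lo w : Pl K) ∉ S := (hA.1.1 w hw).2
      congr 1
      · unfold chiG
        rw [hhx, Submodule.coe_smul, map_smul, LinearMap.smul_apply, smul_eq_mul]
      · rw [jj_sum x B (fun v => sy v w)]
        refine Finset.sum_congr rfl fun y _ => Finset.sum_congr rfl fun b hb => ?_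
        exact rho_eq pm hℓ2 hPLC S 𝔪 L0 _ sy hM.sys x y w b hwS ((hB y).1 b hb).2
          (hA.2.1 y w hw b hb)
    · rw [if_neg hA, if_neg (fun h => hA (hiff.2 h))]
  rw [hsum]
  refine key.trans ?_
  -- the bounds
  have hNAQ : (NA Q : ℝ) = ∏ y, (NO (lo : Pl M → Pl K) (B y) : ℝ) := by
    have e1 : NA Q = ∏ w ∈ BB, Ideal.absNorm (lo w : Pl K).asIdeal := by
      unfold NA
      rw [hQ, Finset.prod_image]
      intro b hb b' hb' h
      obtain ⟨y, hy⟩ := (hBBmem b).1 (Finset.mem_coe.1 hb)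
      obtain ⟨y', hy'⟩ := (hBBmem b').1 (Finset.mem_coe.1 hb')
      by_cases hyy : y = y'
      · subst hyy
        exact (hB y).2 (Finset.mem_coe.2 hy) (Finset.mem_coe.2 hy') h
      · exact absurd h (hD y y' hyy b hy b' hy')
    have e2 : ∏ w ∈ BB, Ideal.absNorm (lo w : Pl K).asIdeal = ∏ y, NO (lo : Pl M → Pl K) (B y) := by
      rw [hBB, Finset.prod_biUnion]
      · rfl
      · intro y _ z _ hyz
        show Disjoint (B y) (B z)
        rw [Finset.disjoint_left]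
        intro b hb hb'
        exact hD y z hyz b hb b hb' rfl
    rw [e1, e2]
    push_cast
    rfl
  rw [← hNAQ]
  have hQpos : 1 ≤ NA Q := by
    unfold NA
    exact Finset.one_le_prod' fun q _ => by have := two_le_norm q; omega
  obtain ⟨L, hL⟩ : ∃ L : ℝ, L = Real.log (NA Q) := ⟨_, rfl⟩
  have hL0 : 0 ≤ L := by rw [hL]; exact Real.log_natCast_nonneg _
  rw [← hL]
  have b1 : Real.log (NA (Bt x B)) ≤ γ * L := by
    have e1 : NA (Bt x B) ≤ NA Q ^ Nat.card (M ≃ₐ[K] M) := by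
      rw [← NA_up hPLC S hM.sys.unr Q hQS]
      unfold NA
      refine Finset.prod_le_prod_of_subset_of_one_le' (fun v hv => (hup Q v).2 (hBtQ v hv)) fun q _ _ => ?_
      have := two_le_norm q
      omega
    have e2 : (0 : ℝ) < NA (Bt x B) := by
      have : 1 ≤ NA (Bt x B) := by
        unfold NA
        exact Finset.one_le_prod' fun q _ => by have := two_le_norm q; omega
      exact_mod_cast this
    have e3 : (NA (Bt x B) : ℝ) ≤ (NA Q : ℝ) ^ Nat.card (M ≃ₐ[K] M) := by exact_mod_cast e1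
    have e4 := Real.log_le_log e2 e3
    rw [Real.log_pow, ← hγ, ← hL] at e4
    exact e4
  have b1' : 0 ≤ Real.log (NA (Bt x B)) := Real.log_natCast_nonneg _
  have hgF1 : ∀ P : Finset (Pl K), 1 ≤ gA P := by
    intro P
    unfold gA
    refine Finset.prod_induction _ (fun r : ℝ => 1 ≤ r) (fun a b ha hb => one_le_mul_of_one_le_of_one_le ha hb)
      le_rfl fun q _ => ?_
    have : (0 : ℝ) ≤ 1 / (Ideal.absNorm q.asIdeal : ℝ) := by positivity
    linarith
  have b2 : gA (F ∪ Q) ≤ gA F * (C * (1 + L) ^ C) := by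
    have e1 : gA (F ∪ Q) ≤ gA F * gA Q := by
      have e2 : gA (F ∪ Q) * gA (F ∩ Q) = gA F * gA Q := by
        unfold gA
        exact Finset.prod_union_inter
      rw [← e2]
      exact le_mul_of_one_le_right (by linarith [hgF1 (F ∪ Q)]) (hgF1 _)
    refine e1.trans ?_
    rw [hL]
    exact mul_le_mul_of_nonneg_left (hgA Q) (by linarith [hgF1 F])
  have hF0 : 0 < gA F := by linarith [hgF1 F]
  have hL1 : 0 < 1 + L := by linarith
  calc E * (1 + Real.log (NA (Bt x B))) ^ E * gA (F ∪ Q) ^ E ≤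
      E * (γ * (1 + L)) ^ E * (gA F * (C * (1 + L) ^ C)) ^ E := by
        refine mul_le_mul ?_ ?_ (Real.rpow_nonneg (by linarith [hgF1 (F ∪ Q)]) _) (by positivity)
        · refine mul_le_mul_of_nonneg_left ?_ hE.le
          exact Real.rpow_le_rpow (by linarith) (by nlinarith) hE.le
        · exact Real.rpow_le_rpow (by linarith [hgF1 (F ∪ Q)]) b2 hE.le
    _ = (E * γ ^ E * C ^ E) * (1 + L) ^ (E + C * E) * gA F ^ E := by
        rw [Real.mul_rpow (by linarith) hL1.le, Real.mul_rpow hF0.le (by positivity),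
          Real.mul_rpow hC.le (by positivity), ← Real.rpow_mul hL1.le, Real.rpow_add hL1]
        ring
    _ ≤ E' * (1 + L) ^ E' * gA F ^ E' := by
        refine mul_le_mul ?_ ?_ (by positivity) (by positivity)
        · refine mul_le_mul hE1 ?_ (by positivity) hE0.le
          exact Real.rpow_le_rpow_of_exponent_le (by linarith) hE2
        · exact Real.rpow_le_rpow_of_exponent_le (hgF1 F) hE3

end Pool.Agent.T3h73.SG.ZEU
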