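import Pool.Agent.T3h73.SG.StmX
import Pool.Agent.T3h73.SD.An3B
import Pool.Agent.T3h73.SD.T_AN
import Pool.Agent.T3h73.SD.T_T0L

/-! Task XAN3 of project SG: the bounds for one variable. -/

set_option autoImplicit false
set_option linter.all false

open NumberField IsDedekindDomain Filter Topology

namespace Pool.Agent.T3h73.SG.XAN3

open Pool.Agent.T3h73.SG
open Pool.Agent.T3h73.SL (Pl)
open Pool.Agent.T3h73.SD (ee NA gA T0)
open Pool.Agent.T3h73.SD.Fam (norm_ee pi_sum lim_log)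

section
variable {K : Type} [Field K] [NumberField K] {Ω : Type}

theorem one_le_nm' (q : Pl K) : 1 ≤ Ideal.absNorm q.asIdeal :=
  Nat.one_le_iff_ne_zero.2 fun h => q.ne_bot (Ideal.absNorm_eq_zero_iff.1 h)

theorem one_le_NOn (kp : Ω → Pl K) (A : Finset Ω) : 1 ≤ NO kp A :=
  Finset.one_le_prod' fun w _ => one_le_nm' (kp w)

theorem one_le_NO (kp : Ω → Pl K) (A : Finset Ω) : (1 : ℝ) ≤ (NO kp A : ℝ) := by
  exact_mod_cast one_le_NOn kp A

theorem one_le_gO (kp : Ω → Pl K) (A : Finset Ω) : 1 ≤ gO kp A := by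
  unfold gO
  refine Finset.one_le_prod fun q _ => ?_
  have : 0 ≤ 1 / (Ideal.absNorm (kp q).asIdeal : ℝ) := by positivity
  linarith

/-- the weight of a finite set of marked places -/
noncomputable def wO (kp : Ω → Pl K) (lam s : ℝ) (A : Finset Ω) : ℝ :=
  lam ^ A.card * (NO kp A : ℝ) ^ (-s)

theorem wO_nonneg (kp : Ω → Pl K) {lam : ℝ} (hl : 0 ≤ lam) (s : ℝ) (A : Finset Ω) :
    0 ≤ wO kp lam s A := by
  unfold wO; positivity

open Classical in
/-- the weight with a factor `gO ^ D` -/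
noncomputable def w1 (S : Finset (Pl K)) (kp : Ω → Pl K) (Om : Ω → Prop) (lam s D : ℝ)
    (A : Finset Ω) : ℝ := if Ad S kp Om A then wO kp lam s A * gO kp A ^ D else 0

open Classical in
/-- the weight with a factor `gO ^ D`, small sets -/
noncomputable def w2 (S : Finset (Pl K)) (kp : Ω → Pl K) (Om : Ω → Prop) (lam s D Z : ℝ)
    (A : Finset Ω) : ℝ := if Ad S kp Om A ∧ (NO kp A : ℝ) ≤ Z then wO kp lam s A * gO kp A ^ D else 0

theorem w1_nonneg (S : Finset (Pl K)) (kp : Ω → Pl K) (Om : Ω → Prop) {lam : ℝ} (hl : 0 ≤ lam)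
    (s D : ℝ) (A : Finset Ω) : 0 ≤ w1 S kp Om lam s D A := by
  unfold w1
  split_ifs
  · exact mul_nonneg (wO_nonneg kp hl s A) (Real.rpow_nonneg (zero_le_one.trans (one_le_gO kp A)) _)
  · exact le_rfl

theorem w2_nonneg (S : Finset (Pl K)) (kp : Ω → Pl K) (Om : Ω → Prop) {lam : ℝ} (hl : 0 ≤ lam)
    (s D Z : ℝ) (A : Finset Ω) : 0 ≤ w2 S kp Om lam s D Z A := by
  unfold w2
  split_ifs
  · exact mul_nonneg (wO_nonneg kp hl s A) (Real.rpow_nonneg (zero_le_one.trans (one_le_gO kp A)) _)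
  · exact le_rfl

theorem w2_le_w1 (S : Finset (Pl K)) (kp : Ω → Pl K) (Om : Ω → Prop) {lam : ℝ} (hl : 0 ≤ lam)
    (s D Z : ℝ) (A : Finset Ω) : w2 S kp Om lam s D Z A ≤ w1 S kp Om lam s D A := by
  unfold w2
  split_ifs with h
  · unfold w1
    rw [if_pos h.1]
  · exact w1_nonneg S kp Om hl s D A

open Classical in
theorem one_varX (hX : S_XMAS) (S : Finset (Pl K)) (kp : Ω → Pl K) (hfib : Fib kp)
    (Om : Ω → Prop) (lam mu : ℝ) (hl : 0 < lam) (hl1 : lam ≤ 1) (hmu : 0 < mu)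
    (hM : Mass S kp Om lam mu) (D : ℝ) (hD : 0 ≤ D) :
    ∃ C : ℝ, 0 < C ∧
    (∀ s : ℝ, 1 < s → s ≤ 2 → Summable (w1 S kp Om lam s D) ∧
      ∑' A : Finset Ω, w1 S kp Om lam s D A ≤ C * (1 / (s - 1)) ^ mu) ∧
    ∀ (Z : ℝ), 1 ≤ Z → ∀ s : ℝ, 1 < s → s ≤ 2 → Summable (w2 S kp Om lam s D Z) ∧
      ∑' A : Finset Ω, w2 S kp Om lam s D Z A ≤ C * (1 + Real.log Z) ^ C := by
  obtain ⟨C, hC, h1, h2⟩ := hX K S Ω kp Om lam mu hfib hl hl1 hmu hM D 1 hD
  have hg : ∀ A : Finset Ω, 0 ≤ gO kp A ^ D := fun A =>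
    Real.rpow_nonneg (zero_le_one.trans (one_le_gO kp A)) _
  have hs1 : ∀ s : ℝ, 1 < s → s ≤ 2 → Summable (w1 S kp Om lam s D) := by
    intro s hs hs2
    refine Summable.of_nonneg_of_le (w1_nonneg S kp Om hl.le s D) (fun A => ?_) (h1 s hs hs2).1
    unfold w1
    split_ifs with h
    · refine mul_le_mul_of_nonneg_right ?_ (hg A)
      unfold wO
      refine mul_le_mul_of_nonneg_right ?_ (by positivity)
      rw [Nat.cast_one, one_pow]
      exact pow_le_one₀ hl.le hl1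
    · exact le_rfl
  refine ⟨C, hC, fun s hs hs2 => ⟨hs1 s hs hs2, (h1 s hs hs2).2⟩, fun Z hZ s hs hs2 => ?_⟩
  have hsum : Summable (w2 S kp Om lam s D Z) :=
    Summable.of_nonneg_of_le (w2_nonneg S kp Om hl.le s D Z) (w2_le_w1 S kp Om hl.le s D Z)
      (hs1 s hs hs2)
  refine ⟨hsum, ?_⟩
  obtain ⟨hfin, hle⟩ := h2 Z hZ
  refine le_trans ?_ hle
  rw [finsum_mem_eq_finite_toFinset_sum _ hfin, tsum_eq_sum (s := hfin.toFinset)]
  · refine Finset.sum_le_sum fun A hA => ?_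
    rw [Set.Finite.mem_toFinset] at hA
    have hA' : Ad S kp Om A ∧ (NO kp A : ℝ) ≤ Z := hA
    unfold w2
    rw [if_pos hA']
    refine mul_le_mul_of_nonneg_right ?_ (hg A)
    unfold wO
    have hN := one_le_NO kp A
    refine mul_le_mul ?_ ?_ (by positivity) (by positivity)
    · rw [Nat.cast_one, one_pow]
      exact pow_le_one₀ hl.le hl1
    · rw [← Real.rpow_neg_one]
      exact Real.rpow_le_rpow_of_exponent_le hN (by linarith)
  · intro A hA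
    rw [Set.Finite.mem_toFinset] at hA
    unfold w2
    exact if_neg hA

end

section
variable {K : Type} [Field K] [NumberField K] {ℓ : ℕ} {S : Finset (Pl K)} {Ω : Type}
  {kp : Ω → Pl K} {C : Type} [Fintype C] {Om : C → Ω → Prop} {lam mu : C → ℝ}
  {I : C → Finset Ω → ℂ} {χ : C → Ω → ZMod ℓ} {ρ : C → C → Ω → Ω → ZMod ℓ} {lk : C → C → Prop}
  {good triv : C → Prop}

/-- the bounds for one variable, with one constant for all colours -/
theorem one_varC (hX : S_XMAS) (hc : CS ℓ K S Ω kp C Om lam mu I χ ρ lk good triv) (D : ℝ)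
    (hD : 0 ≤ D) : ∃ (M : ℝ) (n : ℕ), 1 ≤ M ∧ ∀ c : C,
    (∀ s : ℝ, 1 < s → s ≤ 2 → Summable (w1 S kp (Om c) (lam c) s D) ∧
      ∑' A : Finset Ω, w1 S kp (Om c) (lam c) s D A ≤ M * (1 / (s - 1)) ^ (mu c)) ∧
    ∀ (Z : ℝ), 1 ≤ Z → ∀ s : ℝ, 1 < s → s ≤ 2 → Summable (w2 S kp (Om c) (lam c) s D Z) ∧
      ∑' A : Finset Ω, w2 S kp (Om c) (lam c) s D Z A ≤ M * (1 + Real.log Z) ^ n := by
  choose Cc hCc h1 h2 using fun c => one_varX hX S kp hc.fib (Om c) (lam c) (mu c) (hc.lam_pos c).1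
    (hc.lam_pos c).2 (hc.mu_pos c) (hc.dens c) D hD
  have hs : ∀ c, Cc c ≤ ∑ c, Cc c := fun c =>
    Finset.single_le_sum (fun c _ => (hCc c).le) (Finset.mem_univ c)
  have hs0 : 0 ≤ ∑ c, Cc c := Finset.sum_nonneg fun c _ => (hCc c).le
  refine ⟨1 + ∑ c, Cc c, ⌈∑ c, Cc c⌉₊, by linarith, fun c => ⟨fun s hs1 hs2 => ?_,
    fun Z hZ s hs1 hs2 => ?_⟩⟩
  · have hs0' : 0 < s - 1 := by linarith
    refine ⟨(h1 c s hs1 hs2).1, (h1 c s hs1 hs2).2.trans (mul_le_mul_of_nonneg_right ?_ ?_)⟩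
    · linarith [hs c]
    · positivity
  · refine ⟨(h2 c Z hZ s hs1 hs2).1, (h2 c Z hZ s hs1 hs2).2.trans ?_⟩
    have hl : 1 ≤ 1 + Real.log Z := by linarith [Real.log_nonneg hZ]
    refine mul_le_mul (by linarith [hs c]) ?_ (by positivity) (by linarith)
    rw [← Real.rpow_natCast]
    refine Real.rpow_le_rpow_of_exponent_le hl ?_
    exact (hs c).trans (Nat.le_ceil _)

end

/-- growth: `(s - 1) u ^ (1 - ε) (1 + κ log u) ^ N → 0` with `u = 1 / (s - 1)` -/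
theorem grow {κ ε : ℝ} (hκ : 0 < κ) (hε : 0 < ε) (M : ℝ) (N : ℕ) :
    Tendsto (fun s : ℝ => (s - 1) * (M * (1 + κ * Real.log (1 / (s - 1))) ^ N *
      (1 / (s - 1)) ^ (1 - ε))) (𝓝[>] 1) (𝓝 0) := by
  have h := (lim_log κ ε hκ hε N).const_mul M
  rw [mul_zero] at h
  refine h.congr' ?_
  filter_upwards [self_mem_nhdsWithin] with s hs
  have hs0 : 0 < s - 1 := sub_pos.mpr hs
  have e1 : (s - 1) * (1 / (s - 1)) ^ (1 - ε) = (s - 1) ^ ε := by
    rw [one_div, Real.inv_rpow hs0.le, ← Real.rpow_neg hs0.le, ← Real.rpow_one_add' hs0.le]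
    · congr 1
      ring
    · rw [show 1 + -(1 - ε) = ε by ring]
      exact hε.ne'
  rw [← e1]
  ring

/-- bounding the norm of a function of `s` near `1` -/
theorem zero_of_bound {f : ℝ → ℂ} {κ ε : ℝ} (hκ : 0 < κ) (hε : 0 < ε) (M : ℝ) (N : ℕ)
    (h : ∀ s : ℝ, 1 < s → s ≤ 2 → ‖f s‖ ≤ M * (1 + κ * Real.log (1 / (s - 1))) ^ N *
      (1 / (s - 1)) ^ (1 - ε)) :
    Tendsto (fun s : ℝ => ((s - 1 : ℝ) : ℂ) * f s) (𝓝[>] 1) (𝓝 0) := by
  rw [tendsto_zero_iff_norm_tendsto_zero]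
  refine squeeze_zero' (Eventually.of_forall fun s => norm_nonneg _) ?_ (grow hκ hε M N)
  have hev : ∀ᶠ s : ℝ in 𝓝[>] 1, s ≤ 2 :=
    (eventually_le_nhds (show (1 : ℝ) < 2 by norm_num)).filter_mono nhdsWithin_le_nhds
  filter_upwards [self_mem_nhdsWithin, hev] with s hs1 hs2
  have hs1' : 1 < s := hs1
  have hs0 : 0 < s - 1 := sub_pos.mpr hs1
  rw [norm_mul, Complex.norm_real, Real.norm_eq_abs, abs_of_pos hs0]
  exact mul_le_mul_of_nonneg_left (h s hs1' hs2) hs0.le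

end Pool.Agent.T3h73.SG.XAN3
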