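import Pool.Agent.T3h73.SG.Xan3A

/-! Task XAN3 of project SG: splitting off one set of a family. -/

set_option autoImplicit false
set_option linter.all false

open NumberField IsDedekindDomain Filter Topology

namespace Pool.Agent.T3h73.SG.XAN3

open Pool.Agent.T3h73.SG
open Pool.Agent.T3h73.SL (Pl)
open Pool.Agent.T3h73.SD (ee NA gA T0)
open Pool.Agent.T3h73.SD.Fam (norm_ee pi_sum lim_log)
open Pool.Agent.T3h73.SD.AN3 (ee_add ee_zero e2 e2_apply e2_val gA_pos)

section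
variable {K : Type} [Field K] [NumberField K] {ℓ : ℕ} {S : Finset (Pl K)} {Ω : Type}
  {kp : Ω → Pl K} {C : Type} [Fintype C] {Om : C → Ω → Prop} {lam mu : C → ℝ}
  {I : C → Finset Ω → ℂ} {χ : C → Ω → ZMod ℓ} {ρ : C → C → Ω → Ω → ZMod ℓ} {lk : C → C → Prop}
  {good triv : C → Prop}

open Classical in
/-- the exponent of the part of a family with colours in `J` -/
noncomputable def exX (ρ : C → C → Ω → Ω → ZMod ℓ) (J : Finset C) (A : C → Finset Ω) : ZMod ℓ :=
  ∑ c ∈ J, ∑ c' ∈ J, if c = c' then 0 else ∑ w ∈ A c, ∑ w' ∈ A c', ρ c c' w w'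

open Classical in
theorem trmX_eq (ρ : C → C → Ω → Ω → ZMod ℓ) (lam : C → ℝ) (I : C → Finset Ω → ℂ) (s : ℝ)
    (A : C → Finset Ω) : trmX kp lam I ρ s A =
      ((∏ c, wO kp (lam c) s (A c) : ℝ) : ℂ) * (∏ c, I c (A c)) * ee ℓ (exX ρ Finset.univ A) := rfl

open Classical in
theorem exX_insert (ρ : C → C → Ω → Ω → ZMod ℓ) (J : Finset C) (a : C) (ha : a ∉ J)
    (A : C → Finset Ω) : exX ρ (insert a J) A = exX ρ J A +
      ∑ c ∈ J, ∑ w ∈ A a, ∑ w' ∈ A c, (ρ a c w w' + ρ c a w' w) := by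
  unfold exX
  have hne : ∀ c ∈ J, a ≠ c := fun c hc e => ha (e ▸ hc)
  rw [Finset.sum_insert ha, Finset.sum_insert ha, if_pos rfl, zero_add]
  have h1 : ∑ c ∈ J, (if a = c then 0 else ∑ w ∈ A a, ∑ w' ∈ A c, ρ a c w w') =
      ∑ c ∈ J, ∑ w ∈ A a, ∑ w' ∈ A c, ρ a c w w' :=
    Finset.sum_congr rfl fun c hc => if_neg (hne c hc)
  have h2 : ∑ c ∈ J, ∑ c' ∈ insert a J, (if c = c' then 0 else
      ∑ w ∈ A c, ∑ w' ∈ A c', ρ c c' w w') =
      ∑ c ∈ J, ∑ w ∈ A c, ∑ w' ∈ A a, ρ c a w w' +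
        ∑ c ∈ J, ∑ c' ∈ J, if c = c' then 0 else ∑ w ∈ A c, ∑ w' ∈ A c', ρ c c' w w' := by
    rw [← Finset.sum_add_distrib]
    refine Finset.sum_congr rfl fun c hc => ?_
    rw [Finset.sum_insert ha, if_neg (hne c hc).symm]
  rw [h1, h2]
  have h3 : ∑ c ∈ J, ∑ w ∈ A a, ∑ w' ∈ A c, (ρ a c w w' + ρ c a w' w) =
      ∑ c ∈ J, ∑ w ∈ A a, ∑ w' ∈ A c, ρ a c w w' + ∑ c ∈ J, ∑ w ∈ A c, ∑ w' ∈ A a, ρ c a w w' := by
    rw [← Finset.sum_add_distrib]
    refine Finset.sum_congr rfl fun c hc => ?_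
    rw [Finset.sum_comm (s := A c) (t := A a), ← Finset.sum_add_distrib]
    exact Finset.sum_congr rfl fun w _ => Finset.sum_add_distrib
  rw [h3]
  ring

open Classical in
theorem exX_congr (ρ : C → C → Ω → Ω → ZMod ℓ) (J : Finset C) {A A' : C → Finset Ω}
    (hA : ∀ c ∈ J, A c = A' c) : exX ρ J A = exX ρ J A' := by
  unfold exX
  exact Finset.sum_congr rfl fun c hc => Finset.sum_congr rfl fun c' hc' => by
      rw [hA c hc, hA c' hc']

/-- the sets which may be put in place of `A a` -/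
def InnX (S : Finset (Pl K)) (kp : Ω → Pl K) (Oma : Ω → Prop) (J : Finset C) (A : C → Finset Ω)
    (X : Finset Ω) : Prop := Ad S kp Oma X ∧ ∀ c ∈ J, Dj kp X (A c)

open Classical in
/-- the sets with colours outside `W` -/
noncomputable def Bs (W : Finset C) (A : C → Finset Ω) (c : C) : Finset Ω :=
  if c ∈ W then ∅ else A c

open Classical in
/-- the places below the sets with colours in `J ∩ W` -/
noncomputable def Fs (kp : Ω → Pl K) (W J : Finset C) (A : C → Finset Ω) : Finset (Pl K) :=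
  (J ∩ W).biUnion fun c => (A c).image kp

theorem Dj_empty (kp : Ω → Pl K) (X : Finset Ω) : Dj kp X ∅ := fun w _ w' hw' =>
  absurd hw' (Finset.notMem_empty w')

theorem Dj_symm {kp : Ω → Pl K} {X Y : Finset Ω} (h : Dj kp X Y) : Dj kp Y X :=
  fun w hw w' hw' e => h w' hw' w hw e.symm

theorem Ad_empty (S : Finset (Pl K)) (kp : Ω → Pl K) (Om : Ω → Prop) : Ad S kp Om ∅ :=
  ⟨fun w hw => absurd hw (Finset.notMem_empty w), by simp⟩

open Classical in
theorem Dj_iff {kp : Ω → Pl K} {X Y : Finset Ω} : Dj kp X Y ↔ Disjoint (X.image kp) (Y.image kp) := by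
  unfold Dj
  rw [Finset.disjoint_left]
  constructor
  · intro h q hq hq'
    rw [Finset.mem_image] at hq hq'
    obtain ⟨w, hw, e⟩ := hq
    obtain ⟨w', hw', e'⟩ := hq'
    exact h w hw w' hw' (e.trans e'.symm)
  · intro h w hw w' hw' e
    exact h (Finset.mem_image_of_mem kp hw) (e ▸ Finset.mem_image_of_mem kp hw')

open Classical in
theorem Inn_iff {S : Finset (Pl K)} {kp : Ω → Pl K} {Oma : Ω → Prop} {W : Finset C} {a : C}
    (ha : a ∈ W) (A : C → Finset Ω) (X : Finset Ω) :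
    InnX S kp Oma (Finset.univ.erase a) A X ↔
      Ad S kp Oma X ∧ (∀ c', Dj kp X (Bs W A c')) ∧
        Disjoint (X.image kp) (Fs kp W (Finset.univ.erase a) A) := by
  unfold InnX
  refine and_congr_right fun _ => ?_
  unfold Fs
  rw [Finset.disjoint_biUnion_right]
  constructor
  · intro h
    refine ⟨fun c' => ?_, fun c hc => ?_⟩
    · unfold Bs
      split_ifs with hc'
      · exact Dj_empty kp X
      · exact h c' (Finset.mem_erase.2 ⟨fun e => hc' (e ▸ ha), Finset.mem_univ _⟩)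
    · exact Dj_iff.1 (h c (Finset.mem_inter.1 hc).1)
  · rintro ⟨h1, h2⟩ c hc
    by_cases hcW : c ∈ W
    · exact Dj_iff.2 (h2 c (Finset.mem_inter.2 ⟨hc, hcW⟩))
    · have := h1 c
      unfold Bs at this
      rwa [if_neg hcW] at this

open Classical in
/-- the term after a change of one set -/
theorem trmX_update [NeZero ℓ] (hc : CS ℓ K S Ω kp C Om lam mu I χ ρ lk good triv)
    (W : Finset C) (hW : ∀ c ∈ W, ∀ c' ∈ W, c ≠ c' → ¬ lk c c') (a : C) (ha : a ∈ W)
    (hgood : good a) (s : ℝ) (A : C → Finset Ω) (X : Finset Ω)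
    (hS : ∀ c ∈ Finset.univ.erase a, Ad S kp (Om c) (A c))
    (hX : InnX S kp (Om a) (Finset.univ.erase a) A X) :
    trmX kp lam I ρ s (Function.update A a X) =
      (((∏ c ∈ Finset.univ.erase a, wO kp (lam c) s (A c) : ℝ) : ℂ) *
        (∏ c ∈ Finset.univ.erase a, I c (A c)) * ee ℓ (exX ρ (Finset.univ.erase a) A)) *
      (((wO kp (lam a) s X : ℝ) : ℂ) * ee ℓ (∑ w ∈ X, (χ a w +
        ∑ c', ∑ b ∈ Bs W A c', (ρ a c' w b + ρ c' a b w)))) := by
  have hne : ∀ c ∈ Finset.univ.erase a, c ≠ a := fun c hc => (Finset.mem_erase.1 hc).1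
  have hup : ∀ c ∈ Finset.univ.erase a, Function.update A a X c = A c := fun c hc =>
    Function.update_of_ne (hne c hc) X A
  have hprod : ∏ c, wO kp (lam c) s (Function.update A a X c) =
      (∏ c ∈ Finset.univ.erase a, wO kp (lam c) s (A c)) * wO kp (lam a) s X := by
    rw [← Finset.mul_prod_erase Finset.univ _ (Finset.mem_univ a), Function.update_self, mul_comm]
    congr 1
    exact Finset.prod_congr rfl fun c hc => by rw [hup c hc]
  have hprodI : ∏ c, I c (Function.update A a X c) =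
      (∏ c ∈ Finset.univ.erase a, I c (A c)) * ee ℓ (∑ w ∈ X, χ a w) := by
    rw [← Finset.mul_prod_erase Finset.univ _ (Finset.mem_univ a), Function.update_self, mul_comm,
      hc.I_good a hgood X hX.1]
    congr 1
    exact Finset.prod_congr rfl fun c hc => by rw [hup c hc]
  have hex : exX ρ Finset.univ (Function.update A a X) =
      exX ρ (Finset.univ.erase a) A + ∑ w ∈ X, 
        ∑ c', ∑ b ∈ Bs W A c', (ρ a c' w b + ρ c' a b w) := by
    have h1 : (Finset.univ : Finset C) = insert a (Finset.univ.erase a) :=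
      (Finset.insert_erase (Finset.mem_univ a)).symm
    rw [show exX ρ Finset.univ (Function.update A a X) =
      exX ρ (insert a (Finset.univ.erase a)) (Function.update A a X) by rw [← h1],
      exX_insert ρ _ a (Finset.notMem_erase a _), exX_congr ρ _ hup, Function.update_self]
    congr 1
    rw [Finset.sum_comm (s := X) (t := Finset.univ), ← Finset.add_sum_erase Finset.univ
      (fun c' => ∑ w ∈ X, ∑ b ∈ Bs W A c', (ρ a c' w b + ρ c' a b w)) (Finset.mem_univ a)]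
    have h2 : ∑ w ∈ X, ∑ b ∈ Bs W A a, (ρ a a w b + ρ a a b w) = 0 := by
      refine Finset.sum_eq_zero fun w _ => ?_
      unfold Bs
      rw [if_pos ha, Finset.sum_empty]
    rw [h2, zero_add]
    refine Finset.sum_congr rfl fun c hcI => ?_
    rw [hup c hcI]
    by_cases hcW : c ∈ W
    · have h3 : ∑ w ∈ X, ∑ b ∈ Bs W A c, (ρ a c w b + ρ c a b w) = 0 := by
        refine Finset.sum_eq_zero fun w _ => ?_
        unfold Bs
        rw [if_pos hcW, Finset.sum_empty]
      rw [h3]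
      refine Finset.sum_eq_zero fun w hw => Finset.sum_eq_zero fun w' hw' => ?_
      exact hc.unl a c (hne c hcI).symm (hW a ha c hcW (hne c hcI).symm) w w' (hX.1.1 w hw).1
        ((hS c hcI).1 w' hw').1 (hX.1.1 w hw).2 ((hS c hcI).1 w' hw').2 (hX.2 c hcI w hw w' hw')
    · refine Finset.sum_congr rfl fun w hw => ?_
      unfold Bs
      rw [if_neg hcW]
  rw [trmX_eq, hprod, hprodI, hex, ee_add, Finset.sum_add_distrib, ee_add]
  push_cast
  ring

open Classical in
theorem gA_Fs {kp : Ω → Pl K} {W J : Finset C} {A : C → Finset Ω}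
    (hS : ∀ c ∈ J, Set.InjOn kp (A c : Set Ω))
    (hd : ∀ c ∈ J, ∀ c' ∈ J, c ≠ c' → Dj kp (A c) (A c')) :
    gA (Fs kp W J A) ≤ ∏ c ∈ J, gO kp (A c) := by
  unfold Fs
  have h1 : gA ((J ∩ W).biUnion fun c => (A c).image kp) = ∏ c ∈ J ∩ W, gO kp (A c) := by
    unfold gA
    rw [Finset.prod_biUnion]
    · refine Finset.prod_congr rfl fun c hc => ?_
      unfold gO
      rw [Finset.prod_image]
      intro x hx y hy e
      exact hS c (Finset.mem_inter.1 hc).1 hx hy e
    · intro c hc c' hc' hne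
      exact Dj_iff.1 (hd c (Finset.mem_inter.1 hc).1 c' (Finset.mem_inter.1 hc').1 hne)
  rw [h1]
  exact Finset.prod_le_prod_of_subset_of_one_le Finset.inter_subset_left
    (fun c _ => (zero_le_one.trans (one_le_gO kp _))) fun c _ _ => one_le_gO kp _

open Classical in
theorem log_Bs {kp : Ω → Pl K} {W : Finset C} {A : C → Finset Ω} {Z : ℝ} (hZ : 1 ≤ Z)
    (hk : ∀ c, c ∉ W → (NO kp (A c) : ℝ) ≤ Z) :
    0 ≤ Real.log (∏ c', (NO kp (Bs W A c') : ℝ)) ∧
    Real.log (∏ c', (NO kp (Bs W A c') : ℝ)) ≤ Fintype.card C * Real.log Z := by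
  rw [Real.log_prod (fun c _ => (zero_lt_one.trans_le (one_le_NO kp _)).ne')]
  have hlZ : 0 ≤ Real.log Z := Real.log_nonneg hZ
  refine ⟨Finset.sum_nonneg fun c _ => Real.log_nonneg (one_le_NO kp _), ?_⟩
  calc ∑ c', Real.log (NO kp (Bs W A c'))
      ≤ ∑ c' : C, Real.log Z := by
        refine Finset.sum_le_sum fun c _ => ?_
        refine Real.log_le_log (zero_lt_one.trans_le (one_le_NO kp _)) ?_
        unfold Bs
        split_ifs with h
        · simpa [NO] using hZ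
        · exact hk c h
    _ = _ := by
        rw [Finset.sum_const, nsmul_eq_mul, Finset.card_univ]

open Classical in
/-- the sum over one set of a family -/
theorem innerX [NeZero ℓ] (hc : CS ℓ K S Ω kp C Om lam mu I χ ρ lk good triv)
    (W : Finset C) (hW : ∀ c ∈ W, ∀ c' ∈ W, c ≠ c' → ¬ lk c c') (a : C) (ha : a ∈ W)
    (hgood : good a) {E : ℝ} (hE0 : 0 < E)
    (hE : ∀ (B : C → Finset Ω) (F : Finset (Pl K)),
      (∀ c', Ad S kp (Om c') (B c')) → (∀ c' c'', c' ≠ c'' → Dj kp (B c') (B c'')) → B a = ∅ →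
      (¬ triv a ∨ ∃ c', lk c' a ∧ (B c').Nonempty) → ∀ s : ℝ, 1 < s → s ≤ 2 →
      ‖∑' A : Finset Ω, if Ad S kp (Om a) A ∧ (∀ c', Dj kp A (B c')) ∧ Disjoint (A.image kp) F then
        ((lam a ^ A.card * (NO kp A : ℝ) ^ (-s) : ℝ) : ℂ) *
          ee ℓ (∑ w ∈ A, (χ a w + ∑ c', ∑ b ∈ B c', (ρ a c' w b + ρ c' a b w))) else 0‖ ≤
        E * (1 + Real.log (∏ c', (NO kp (B c') : ℝ))) ^ E * gA F ^ E)
    {T : ℝ} {s Z : ℝ} (hs1 : 1 < s) (hs2 : s ≤ 2) (hZ : 1 ≤ Z)
    (hsum : Summable (w1 S kp (Om a) (lam a) s E))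
    (hsum2 : Summable (w2 S kp (Om a) (lam a) s E Z))
    (hsm : ∑' A : Finset Ω, w2 S kp (Om a) (lam a) s E Z A ≤ T)
    (A : C → Finset Ω)
    (hS : ∀ c ∈ Finset.univ.erase a, Ad S kp (Om c) (A c))
    (hd : ∀ c ∈ Finset.univ.erase a, ∀ c' ∈ Finset.univ.erase a, c ≠ c' → Dj kp (A c) (A c'))
    (hk : ∀ c, c ∉ W → (NO kp (A c) : ℝ) ≤ Z)
    (hn : ¬ triv a ∨ ∃ c, c ∉ W ∧ lk c a ∧ (A c).Nonempty) :
    ‖∑' X : Finset Ω, if InnX S kp (Om a) (Finset.univ.erase a) A X ∧ Z < (NO kp X : ℝ) then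
      trmX kp lam I ρ s (Function.update A a X) else 0‖ ≤
      (∏ c ∈ Finset.univ.erase a, wO kp (lam c) s (A c)) *
        (E * (1 + Fintype.card C * Real.log Z) ^ E *
          (∏ c ∈ Finset.univ.erase a, gO kp (A c)) ^ E + T) := by
  set J := Finset.univ.erase a with hJ
  set B := Bs W A with hB
  set F := Fs kp W J A with hF
  have hla := hc.lam_pos a
  have hmemJ : ∀ c, c ∉ W → c ∈ J := fun c h =>
    Finset.mem_erase.2 ⟨fun e => h (e ▸ ha), Finset.mem_univ _⟩
  have hBAd : ∀ c', Ad S kp (Om c') (B c') := by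
    intro c'
    rw [hB]
    unfold Bs
    split_ifs with h
    · exact Ad_empty S kp _
    · exact hS c' (hmemJ c' h)
  have hBdj : ∀ c' c'', c' ≠ c'' → Dj kp (B c') (B c'') := by
    intro c' c'' hne
    rw [hB]
    unfold Bs
    by_cases h : c'' ∈ W
    · rw [if_pos h]
      exact Dj_empty kp _
    · by_cases h' : c' ∈ W
      · rw [if_pos h']
        exact Dj_symm (Dj_empty kp _)
      · rw [if_neg h, if_neg h']
        exact hd c' (hmemJ c' h') c'' (hmemJ c'' h) hne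
  have hBa : B a = ∅ := by
    rw [hB]
    unfold Bs
    rw [if_pos ha]
  have hBn : ¬ triv a ∨ ∃ c', lk c' a ∧ (B c').Nonempty := by
    rcases hn with h1 | ⟨c, h1, h2, h3⟩
    · exact Or.inl h1
    · refine Or.inr ⟨c, h2, ?_⟩
      rw [hB]
      unfold Bs
      rwa [if_neg h1]
  have hfull := hE B F hBAd hBdj hBa hBn s hs1 hs2
  set G : Finset Ω → ℂ := fun X => ((wO kp (lam a) s X : ℝ) : ℂ) *
    ee ℓ (∑ w ∈ X, (χ a w + ∑ c', ∑ b ∈ B c', (ρ a c' w b + ρ c' a b w))) with hG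
  have hGn : ∀ X, ‖G X‖ = wO kp (lam a) s X := by
    intro X
    simp only [hG]
    rw [norm_mul, norm_ee, mul_one, Complex.norm_real,
      Real.norm_of_nonneg (wO_nonneg kp hla.1.le s X)]
  have hGw : ∀ X, Ad S kp (Om a) X → ‖G X‖ ≤ w1 S kp (Om a) (lam a) s E X := by
    intro X hX
    rw [hGn]
    unfold w1
    rw [if_pos hX]
    exact le_mul_of_one_le_right (wO_nonneg kp hla.1.le s X)
      (Real.one_le_rpow (one_le_gO kp X) hE0.le)
  set c0 : ℂ := ((∏ c ∈ J, wO kp (lam c) s (A c) : ℝ) : ℂ) * (∏ c ∈ J, I c (A c)) *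
    ee ℓ (exX ρ J A) with hc0
  have hc0n : ‖c0‖ ≤ ∏ c ∈ J, wO kp (lam c) s (A c) := by
    rw [hc0, norm_mul, norm_mul, norm_ee, mul_one, Complex.norm_real,
      Real.norm_of_nonneg (Finset.prod_nonneg fun c _ => wO_nonneg kp (hc.lam_pos c).1.le s _)]
    refine mul_le_of_le_one_right
      (Finset.prod_nonneg fun c _ => wO_nonneg kp (hc.lam_pos c).1.le s _) ?_
    rw [norm_prod]
    exact Finset.prod_le_one (fun c _ => norm_nonneg _) fun c _ => hc.I_le c _
  have hterm : ∀ X, (if InnX S kp (Om a) J A X ∧ Z < (NO kp X : ℝ) then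
      trmX kp lam I ρ s (Function.update A a X) else 0) =
      c0 * ((if Ad S kp (Om a) X ∧ (∀ c', Dj kp X (B c')) ∧ Disjoint (X.image kp) F then G X
          else 0) -
        (if (Ad S kp (Om a) X ∧ (∀ c', Dj kp X (B c')) ∧ Disjoint (X.image kp) F) ∧
          (NO kp X : ℝ) ≤ Z then G X else 0)) := by
    intro X
    have hiff : InnX S kp (Om a) J A X ↔
        Ad S kp (Om a) X ∧ (∀ c', Dj kp X (B c')) ∧ Disjoint (X.image kp) F := Inn_iff ha A X
    by_cases h1 : InnX S kp (Om a) J A X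
    · have h2 := hiff.1 h1
      rcases lt_or_ge Z (NO kp X : ℝ) with h3 | h3
      · rw [if_pos ⟨h1, h3⟩, if_pos h2, if_neg fun h4 => absurd h4.2 (not_le.2 h3), sub_zero]
        exact trmX_update hc W hW a ha hgood s A X hS h1
      · rw [if_neg fun h4 => absurd h4.2 (not_lt.2 h3), if_pos h2, if_pos ⟨h2, h3⟩, sub_self,
          mul_zero]
    · have h2 : ¬ (Ad S kp (Om a) X ∧ (∀ c', Dj kp X (B c')) ∧ Disjoint (X.image kp) F) :=
        fun h3 => h1 (hiff.2 h3)
      rw [if_neg fun h4 => h1 h4.1, if_neg h2, if_neg fun h4 => h2 h4.1, sub_zero, mul_zero]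
  have hf1 : Summable fun X : Finset Ω =>
      if Ad S kp (Om a) X ∧ (∀ c', Dj kp X (B c')) ∧ Disjoint (X.image kp) F then G X else 0 := by
    refine Summable.of_norm_bounded hsum fun X => ?_
    split_ifs with h
    · exact hGw X h.1
    · rw [norm_zero]
      exact w1_nonneg S kp _ hla.1.le s E X
  have hf2 : Summable fun X : Finset Ω =>
      if (Ad S kp (Om a) X ∧ (∀ c', Dj kp X (B c')) ∧ Disjoint (X.image kp) F) ∧
        (NO kp X : ℝ) ≤ Z then G X else 0 := by
    refine Summable.of_norm_bounded hsum fun X => ?_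
    split_ifs with h
    · exact hGw X h.1.1
    · rw [norm_zero]
      exact w1_nonneg S kp _ hla.1.le s E X
  rw [tsum_congr hterm, tsum_mul_left, hf1.tsum_sub hf2, norm_mul]
  refine mul_le_mul hc0n ?_ (norm_nonneg _)
    (Finset.prod_nonneg fun c _ => wO_nonneg kp (hc.lam_pos c).1.le s _)
  refine (norm_sub_le _ _).trans (add_le_add ?_ ?_)
  · refine hfull.trans ?_
    obtain ⟨hlB0, hlB⟩ := log_Bs (kp := kp) (W := W) (A := A) hZ hk
    have hgF : gA F ≤ ∏ c ∈ J, gO kp (A c) := gA_Fs (fun c hc => (hS c hc).2) hd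
    have hgF1 : 1 ≤ gA F := gA_pos F
    have hlZ : 0 ≤ Real.log Z := Real.log_nonneg hZ
    have e1 : (1 + Real.log (∏ c', (NO kp (B c') : ℝ))) ^ E ≤
        (1 + Fintype.card C * Real.log Z) ^ E :=
      Real.rpow_le_rpow (by linarith) (by linarith) hE0.le
    have e2 : gA F ^ E ≤ (∏ c ∈ J, gO kp (A c)) ^ E :=
      Real.rpow_le_rpow (by linarith) hgF hE0.le
    have e3 : 0 ≤ (1 + Fintype.card C * Real.log Z) ^ E := Real.rpow_nonneg (by positivity) _
    exact mul_le_mul (mul_le_mul_of_nonneg_left e1 hE0.le) e2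
      (Real.rpow_nonneg (by linarith) _) (mul_nonneg hE0.le e3)
  · refine le_trans (tsum_of_norm_bounded hsum2.hasSum fun X => ?_) hsm
    unfold w2
    by_cases h1 : Ad S kp (Om a) X ∧ (NO kp X : ℝ) ≤ Z
    · rw [if_pos h1]
      split_ifs with h2
      · have := hGw X h1.1
        unfold w1 at this
        rwa [if_pos h1.1] at this
      · rw [norm_zero]
        exact mul_nonneg (wO_nonneg kp hla.1.le s X)
          (Real.rpow_nonneg (zero_le_one.trans (one_le_gO kp X)) _)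
    · rw [if_neg h1, if_neg fun h2 => h1 ⟨h2.1.1, h2.2⟩, norm_zero]

end

end Pool.Agent.T3h73.SG.XAN3
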