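import Pool.Agent.T3h73.SG.Xan3B

/-! Task XAN3 of project SG: the sum over the families with a set which gives cancellation. -/

set_option autoImplicit false
set_option linter.all false

open NumberField IsDedekindDomain Filter Topology

namespace Pool.Agent.T3h73.SG.XAN3

open Pool.Agent.T3h73.SG
open Pool.Agent.T3h73.SL (Pl)
open Pool.Agent.T3h73.SD (ee NA gA T0)
open Pool.Agent.T3h73.SD.Fam (norm_ee pi_sum lim_log)
open Pool.Agent.T3h73.SD.AN3 (ee_add ee_zero e2 e2_apply e2_val gA_pos)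

open Classical in
theorem prodT {C : Type} [Fintype C] (mu : C → ℝ) (W : Finset C) (a : C) (ha : a ∈ W)
    (hW1 : ∑ c ∈ W, mu c = 1) {M L u : ℝ} (hM : 1 ≤ M) (hL : 1 ≤ L) (hu : 1 ≤ u) (n : ℕ) :
    ∏ c : {j : C // j ≠ a}, (if (c : C) ∈ W then M * u ^ (mu c) else M * L ^ n) ≤
      (M * L ^ n) ^ Fintype.card C * u ^ (1 - mu a) := by
  have hu0 : 0 < u := by linarith
  have hLn : 1 ≤ L ^ n := one_le_pow₀ hL
  have hP1 : 1 ≤ M * L ^ n := by nlinarith
  set J : Finset C := Finset.univ.erase a with hJ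
  have h1 : ∏ c : {j : C // j ≠ a}, (if (c : C) ∈ W then M * u ^ (mu c) else M * L ^ n) ≤
      ∏ c : {j : C // j ≠ a}, ((M * L ^ n) * (if (c : C) ∈ W then u ^ (mu c) else 1)) := by
    refine Finset.prod_le_prod (fun c _ => ?_) fun c _ => ?_
    · split_ifs <;> positivity
    · split_ifs with h
      · refine mul_le_mul_of_nonneg_right ?_ (by positivity)
        exact le_mul_of_one_le_right (by linarith) hLn
      · rw [mul_one]
  refine h1.trans ?_
  have h2 : ∏ c : {j : C // j ≠ a}, ((M * L ^ n) * (if (c : C) ∈ W then u ^ (mu c) else 1)) =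
      ∏ c ∈ J, ((M * L ^ n) * (if c ∈ W then u ^ (mu c) else 1)) := by
    rw [Finset.prod_subtype J (p := fun c => c ≠ a)
      (fun c => ⟨fun hc => (Finset.mem_erase.1 hc).1,
        fun hc => Finset.mem_erase.2 ⟨hc, Finset.mem_univ _⟩⟩)
      (fun c => (M * L ^ n) * (if c ∈ W then u ^ (mu c) else 1))]
  rw [h2, Finset.prod_mul_distrib, Finset.prod_const, Finset.prod_ite_mem]
  have h3 : J ∩ W = W.erase a := by
    rw [hJ, Finset.erase_inter, Finset.univ_inter]
  have h4 : ∏ c ∈ J ∩ W, u ^ (mu c) = u ^ (1 - mu a) := by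
    rw [h3, ← Real.rpow_sum_of_pos hu0]
    congr 1
    rw [← hW1, ← Finset.add_sum_erase W mu ha]
    ring
  rw [h4]
  refine mul_le_mul_of_nonneg_right ?_ (by positivity)
  exact pow_le_pow_right₀ hP1 (Finset.card_le_univ _)

section
variable {K : Type} [Field K] [NumberField K] {ℓ : ℕ} {S : Finset (Pl K)} {Ω : Type}
  {kp : Ω → Pl K} {C : Type} [Fintype C] {Om : C → Ω → Prop} {lam mu : C → ℝ}
  {I : C → Finset Ω → ℂ} {χ : C → Ω → ZMod ℓ} {ρ : C → C → Ω → Ω → ZMod ℓ} {lk : C → C → Prop}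
  {good triv : C → Prop}

open Classical in
/-- the term of a family with property `Q` and large sets in `W` -/
noncomputable def mqX (S : Finset (Pl K)) (kp : Ω → Pl K) (Om : C → Ω → Prop) (lam : C → ℝ)
    (I : C → Finset Ω → ℂ) (ρ : C → C → Ω → Ω → ZMod ℓ) (Z : ℝ) (W : Finset C)
    (Q : (C → Finset Ω) → Prop) (s : ℝ) (A : C → Finset Ω) : ℂ :=
  if (TupX S kp Om A ∧ ∀ c, c ∈ W ↔ Z < (NO kp (A c) : ℝ)) ∧ Q A then trmX kp lam I ρ s A else 0

/-- the sum over the families with property `Q` and large sets in `W` -/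
noncomputable def MQX (S : Finset (Pl K)) (kp : Ω → Pl K) (Om : C → Ω → Prop) (lam : C → ℝ)
    (I : C → Finset Ω → ℂ) (ρ : C → C → Ω → Ω → ZMod ℓ) (Z : ℝ) (W : Finset C)
    (Q : (C → Finset Ω) → Prop) (s : ℝ) : ℂ :=
  ∑' A : C → Finset Ω, mqX S kp Om lam I ρ Z W Q s A

open Classical in
theorem norm_trmX (hc : CS ℓ K S Ω kp C Om lam mu I χ ρ lk good triv) (s : ℝ)
    (A : C → Finset Ω) : ‖trmX kp lam I ρ s A‖ ≤ ∏ c, wO kp (lam c) s (A c) := by
  rw [trmX_eq, norm_mul, norm_mul, norm_ee, mul_one, Complex.norm_real,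
    Real.norm_of_nonneg (Finset.prod_nonneg fun c _ => wO_nonneg kp (hc.lam_pos c).1.le s _)]
  refine mul_le_of_le_one_right
    (Finset.prod_nonneg fun c _ => wO_nonneg kp (hc.lam_pos c).1.le s _) ?_
  rw [norm_prod]
  exact Finset.prod_le_one (fun c _ => norm_nonneg _) fun c _ => hc.I_le c _

theorem wO_le_w1 {S : Finset (Pl K)} {kp : Ω → Pl K} {Om : Ω → Prop} {lam s D : ℝ} (hl : 0 ≤ lam)
    (hD : 0 ≤ D) {A : Finset Ω} (hA : Ad S kp Om A) : wO kp lam s A ≤ w1 S kp Om lam s D A := by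
  unfold w1
  rw [if_pos hA]
  exact le_mul_of_one_le_right (wO_nonneg kp hl s A) (Real.one_le_rpow (one_le_gO kp A) hD)

theorem wO_le_w2 {S : Finset (Pl K)} {kp : Ω → Pl K} {Om : Ω → Prop} {lam s D Z : ℝ} (hl : 0 ≤ lam)
    (hD : 0 ≤ D) {A : Finset Ω} (hA : Ad S kp Om A) (hZ : (NO kp A : ℝ) ≤ Z) :
    wO kp lam s A ≤ w2 S kp Om lam s D Z A := by
  unfold w2
  rw [if_pos ⟨hA, hZ⟩]
  exact le_mul_of_one_le_right (wO_nonneg kp hl s A) (Real.one_le_rpow (one_le_gO kp A) hD)

theorem summable_mqX (hc : CS ℓ K S Ω kp C Om lam mu I χ ρ lk good triv) {s D : ℝ} (hD : 0 ≤ D)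
    (h1 : ∀ c, Summable (w1 S kp (Om c) (lam c) s D)) (Z : ℝ) (W : Finset C)
    (Q : (C → Finset Ω) → Prop) : Summable (mqX S kp Om lam I ρ Z W Q s) := by
  classical
  refine Summable.of_norm_bounded (pi_sum (fun c A => w1 S kp (Om c) (lam c) s D A)
    (fun c A => w1_nonneg S kp (Om c) (hc.lam_pos c).1.le s D A) h1).1 fun A => ?_
  unfold mqX
  split_ifs with h
  · refine (norm_trmX hc s A).trans ?_
    exact Finset.prod_le_prod (fun c _ => wO_nonneg kp (hc.lam_pos c).1.le s _) fun c _ =>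
      wO_le_w1 (hc.lam_pos c).1.le hD (h.1.1.1 c)
  · rw [norm_zero]
    exact Finset.prod_nonneg fun c _ => w1_nonneg S kp (Om c) (hc.lam_pos c).1.le s D _

open Classical in
theorem outerX [NeZero ℓ] (hc : CS ℓ K S Ω kp C Om lam mu I χ ρ lk good triv)
    (W : Finset C) (hW : ∀ c ∈ W, ∀ c' ∈ W, c ≠ c' → ¬ lk c c') (hW1 : ∑ c ∈ W, mu c = 1)
    (a : C) (ha : a ∈ W) (hgood : good a) {E : ℝ} (hE0 : 0 < E)
    (hE : ∀ (B : C → Finset Ω) (F : Finset (Pl K)),
      (∀ c', Ad S kp (Om c') (B c')) → (∀ c' c'', c' ≠ c'' → Dj kp (B c') (B c'')) → B a = ∅ →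
      (¬ triv a ∨ ∃ c', lk c' a ∧ (B c').Nonempty) → ∀ s : ℝ, 1 < s → s ≤ 2 →
      ‖∑' A : Finset Ω, if Ad S kp (Om a) A ∧ (∀ c', Dj kp A (B c')) ∧ Disjoint (A.image kp) F then
        ((lam a ^ A.card * (NO kp A : ℝ) ^ (-s) : ℝ) : ℂ) *
          ee ℓ (∑ w ∈ A, (χ a w + ∑ c', ∑ b ∈ B c', (ρ a c' w b + ρ c' a b w))) else 0‖ ≤
        E * (1 + Real.log (∏ c', (NO kp (B c') : ℝ))) ^ E * gA F ^ E)
    {M : ℝ} {n : ℕ} (hM : 1 ≤ M) {s Z u : ℝ} (hs1 : 1 < s) (hs2 : s ≤ 2) (hZ : 1 ≤ Z) (hu : 1 ≤ u)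
    (h1 : ∀ c, Summable (w1 S kp (Om c) (lam c) s E))
    (h1t : ∀ c, ∑' A, w1 S kp (Om c) (lam c) s E A ≤ M * u ^ (mu c))
    (h2 : ∀ c, Summable (w2 S kp (Om c) (lam c) s E Z))
    (h2t : ∀ c, ∑' A, w2 S kp (Om c) (lam c) s E Z A ≤ M * (1 + Real.log Z) ^ n)
    (Q : (C → Finset Ω) → Prop) (hQ : ∀ A X, Q (Function.update A a X) ↔ Q A)
    (hQn : ∀ A, Q A → ¬ triv a ∨ ∃ c, c ∉ W ∧ lk c a ∧ (A c).Nonempty) :
    ‖MQX S kp Om lam I ρ Z W Q s‖ ≤
      (E * (1 + Fintype.card C * Real.log Z) ^ E + M * (1 + Real.log Z) ^ n) *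
        ((M * (1 + Real.log Z) ^ n) ^ Fintype.card C * u ^ (1 - mu a)) := by
  set J : Finset C := Finset.univ.erase a with hJ
  have hlZ : 0 ≤ Real.log Z := Real.log_nonneg hZ
  have hlam : ∀ c, 0 ≤ lam c := fun c => (hc.lam_pos c).1.le
  set Bd : ℝ := E * (1 + Fintype.card C * Real.log Z) ^ E + M * (1 + Real.log Z) ^ n with hBd
  have hBd0 : 0 ≤ Bd := by
    have : 0 ≤ (1 + Fintype.card C * Real.log Z) ^ E := Real.rpow_nonneg (by positivity) _
    have h3 : 0 ≤ M * (1 + Real.log Z) ^ n := by positivity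
    positivity
  set F : (C → Finset Ω) → ℂ := fun A => mqX S kp Om lam I ρ Z W Q s A with hF
  have hFs : Summable F := summable_mqX hc hE0.le h1 Z W Q
  have hg : ∀ A : Finset Ω, 1 ≤ gO kp A ^ E := fun A => Real.one_le_rpow (one_le_gO kp A) hE0.le
  -- the weights
  set t : {j : C // j ≠ a} → Finset Ω → ℝ := fun c A =>
    if (c : C) ∈ W then w1 S kp (Om c) (lam c) s E A else w2 S kp (Om c) (lam c) s E Z A with ht
  have ht0 : ∀ c A, 0 ≤ t c A := by
    intro c A
    simp only [ht]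
    split_ifs
    · exact w1_nonneg S kp _ (hlam _) s E A
    · exact w2_nonneg S kp _ (hlam _) s E Z A
  have hts : ∀ c, Summable (t c) := by
    intro c
    by_cases hc : (c : C) ∈ W
    · simpa only [ht, if_pos hc] using h1 c
    · simpa only [ht, if_neg hc] using h2 c
  obtain ⟨hp1, hp2⟩ := pi_sum t ht0 hts
  -- the sum over the other sets
  have hsplit : ∑' A, F A = ∑' A' : {j : C // j ≠ a} → Finset Ω,
      ∑' X : Finset Ω, F (e2 (Finset Ω) a (A', X)) := by
    rw [← (e2 (Finset Ω) a).tsum_eq F]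
    exact ((e2 (Finset Ω) a).summable_iff.2 hFs).tsum_prod
  have hin : ∀ A' : {j : C // j ≠ a} → Finset Ω,
      ‖∑' X : Finset Ω, F (e2 (Finset Ω) a (A', X))‖ ≤ Bd * ∏ c, t c (A' c) := by
    intro A'
    set A0 := e2 (Finset Ω) a (A', ∅) with hA0
    have hup : ∀ X, e2 (Finset Ω) a (A', X) = Function.update A0 a X := fun X =>
      e2_apply _ a A' X ∅
    have hval : ∀ c : {j : C // j ≠ a}, A0 c = A' c := fun c => e2_val _ a A' ∅ c
    have hne : ∀ c ∈ J, c ≠ a := fun c hc => (Finset.mem_erase.1 hc).1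
    have hmem : ∀ c, c ≠ a → c ∈ J := fun c hc => Finset.mem_erase.2 ⟨hc, Finset.mem_univ _⟩
    have hupn : ∀ X c, c ≠ a → Function.update A0 a X c = A0 c := fun X c hc =>
      Function.update_of_ne hc X A0
    have hprodI : ∀ f : C → Finset Ω → ℝ, ∏ c ∈ J, f c (A0 c) =
        ∏ c : {j : C // j ≠ a}, f c (A' c) := by
      intro f
      rw [Finset.prod_subtype J (p := fun c => c ≠ a) (fun c => ⟨hne c, hmem c⟩)
        (fun c => f c (A0 c))]
      exact Finset.prod_congr rfl fun c _ => by rw [hval]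
    have hrhs0 : 0 ≤ Bd * ∏ c, t c (A' c) :=
      mul_nonneg hBd0 (Finset.prod_nonneg fun c _ => ht0 c _)
    by_cases hout : (∀ c ∈ J, Ad S kp (Om c) (A0 c)) ∧
      (∀ c ∈ J, ∀ c' ∈ J, c ≠ c' → Dj kp (A0 c) (A0 c')) ∧
      (∀ c ∈ J, (c ∈ W ↔ Z < (NO kp (A0 c) : ℝ))) ∧ Q A0
    · obtain ⟨hS, hd, hL, hQ0⟩ := hout
      have hiff : ∀ X, ((TupX S kp Om (Function.update A0 a X) ∧
          ∀ c, c ∈ W ↔ Z < (NO kp (Function.update A0 a X c) : ℝ)) ∧
          Q (Function.update A0 a X)) ↔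
          (InnX S kp (Om a) J A0 X ∧ Z < (NO kp X : ℝ)) := by
        intro X
        constructor
        · rintro ⟨⟨hT, h1⟩, -⟩
          refine ⟨⟨?_, fun c hc => ?_⟩, ?_⟩
          · have := hT.1 a
            rwa [Function.update_self] at this
          · have := hT.2 a c (hne c hc).symm
            rwa [Function.update_self, hupn X c (hne c hc)] at this
          · have := (h1 a).1 ha
            rwa [Function.update_self] at this
        · rintro ⟨⟨h1, h2⟩, h3⟩
          refine ⟨⟨⟨fun c => ?_, fun c c' hcc => ?_⟩, fun c => ?_⟩, (hQ A0 X).2 hQ0⟩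
          · by_cases hc : c = a
            · subst hc
              rw [Function.update_self]
              exact h1
            · rw [hupn X c hc]
              exact hS c (hmem c hc)
          · by_cases hc : c = a
            · have hc' : c' ≠ a := fun h4 => hcc (hc.trans h4.symm)
              rw [hc, Function.update_self, hupn X c' hc']
              exact h2 c' (hmem c' hc')
            · rw [hupn X c hc]
              by_cases hc' : c' = a
              · rw [hc', Function.update_self]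
                exact Dj_symm (h2 c (hmem c hc))
              · rw [hupn X c' hc']
                exact hd c (hmem c hc) c' (hmem c' hc') hcc
          · by_cases hc : c = a
            · rw [hc, Function.update_self]
              exact ⟨fun _ => h3, fun _ => ha⟩
            · rw [hupn X c hc]
              exact hL c (hmem c hc)
      have hFX : ∀ X, F (e2 (Finset Ω) a (A', X)) =
          if InnX S kp (Om a) J A0 X ∧ Z < (NO kp X : ℝ) then
            trmX kp lam I ρ s (Function.update A0 a X) else 0 := by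
        intro X
        rw [hup X]
        simp only [hF]
        unfold mqX
        exact if_congr (hiff X) rfl rfl
      rw [tsum_congr hFX]
      have hkZ : ∀ c, c ∉ W → (NO kp (A0 c) : ℝ) ≤ Z := by
        intro c hcW
        by_contra h2
        exact hcW ((hL c (hmem c fun e => hcW (e ▸ ha))).2 (not_le.1 h2))
      have hinn := innerX hc W hW a ha hgood hE0 hE hs1 hs2 hZ (h1 a) (h2 a) (h2t a) A0 hS hd hkZ
        (hQn A0 hQ0)
      refine hinn.trans ?_
      have hg1 : (∏ c ∈ J, gO kp (A0 c)) ^ E = ∏ c ∈ J, gO kp (A0 c) ^ E :=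
        (Real.finset_prod_rpow J _ (fun c _ => zero_le_one.trans (one_le_gO kp _)) E).symm
      have hg2 : 1 ≤ ∏ c ∈ J, gO kp (A0 c) ^ E := Finset.one_le_prod fun c _ => hg _
      have hwp : 0 ≤ ∏ c ∈ J, wO kp (lam c) s (A0 c) :=
        Finset.prod_nonneg fun c _ => wO_nonneg kp (hlam c) s _
      have e1 : E * (1 + Fintype.card C * Real.log Z) ^ E * (∏ c ∈ J, gO kp (A0 c)) ^ E +
          M * (1 + Real.log Z) ^ n ≤ Bd * ∏ c ∈ J, gO kp (A0 c) ^ E := by
        rw [hg1, hBd, add_mul]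
        have : M * (1 + Real.log Z) ^ n ≤ M * (1 + Real.log Z) ^ n * ∏ c ∈ J, gO kp (A0 c) ^ E :=
          le_mul_of_one_le_right (by positivity) hg2
        linarith
      calc (∏ c ∈ J, wO kp (lam c) s (A0 c)) * (E * (1 + Fintype.card C * Real.log Z) ^ E *
            (∏ c ∈ J, gO kp (A0 c)) ^ E + M * (1 + Real.log Z) ^ n)
          ≤ (∏ c ∈ J, wO kp (lam c) s (A0 c)) * (Bd * ∏ c ∈ J, gO kp (A0 c) ^ E) :=
            mul_le_mul_of_nonneg_left e1 hwp
        _ = Bd * ∏ c ∈ J, (wO kp (lam c) s (A0 c) * gO kp (A0 c) ^ E) := by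
            rw [Finset.prod_mul_distrib]
            ring
        _ = Bd * ∏ c : {j : C // j ≠ a}, (wO kp (lam c) s (A' c) * gO kp (A' c) ^ E) := by
            rw [hprodI fun c X => wO kp (lam c) s X * gO kp X ^ E]
        _ ≤ Bd * ∏ c, t c (A' c) := by
            refine mul_le_mul_of_nonneg_left (le_of_eq ?_) hBd0
            refine Finset.prod_congr rfl fun c _ => ?_
            simp only [ht]
            have hAc := hS c (hmem c c.2)
            rw [hval c] at hAc
            by_cases hcW : (c : C) ∈ W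
            · rw [if_pos hcW]
              unfold w1
              rw [if_pos hAc]
            · rw [if_neg hcW]
              unfold w2
              rw [if_pos]
              refine ⟨hAc, ?_⟩
              have h1 := hL c (hmem c c.2)
              rw [hval c] at h1
              exact not_lt.1 fun h2 => hcW (h1.2 h2)
    · have hFX : ∀ X, F (e2 (Finset Ω) a (A', X)) = 0 := by
        intro X
        rw [hup X]
        simp only [hF]
        unfold mqX
        rw [if_neg]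
        rintro ⟨⟨hT, h1⟩, h2⟩
        apply hout
        refine ⟨fun c hc => ?_, fun c hc c' hc' hcc => ?_, fun c hc => ?_, (hQ A0 X).1 h2⟩
        · have := hT.1 c
          rwa [hupn X c (hne c hc)] at this
        · have := hT.2 c c' hcc
          rwa [hupn X c (hne c hc), hupn X c' (hne c' hc')] at this
        · have := h1 c
          rwa [hupn X c (hne c hc)] at this
      rw [tsum_congr hFX, tsum_zero, norm_zero]
      exact hrhs0
  unfold MQX
  rw [show (∑' A, mqX S kp Om lam I ρ Z W Q s A) = ∑' A, F A from rfl, hsplit]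
  refine (tsum_of_norm_bounded (hp1.mul_left Bd).hasSum hin).trans ?_
  rw [tsum_mul_left]
  refine mul_le_mul_of_nonneg_left (hp2.trans ?_) hBd0
  refine le_trans ?_ (prodT mu W a ha hW1 hM (by linarith : 1 ≤ 1 + Real.log Z) hu n)
  refine Finset.prod_le_prod (fun c _ => tsum_nonneg (ht0 c)) fun c _ => ?_
  by_cases hcW : (c : C) ∈ W
  · simp only [ht, if_pos hcW]
    exact h1t c
  · simp only [ht, if_neg hcW]
    exact h2t c

open Classical in
/-- a sum with cancellation in one set of a family -/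
theorem claim_zeroX (hX : S_XMAS) [NeZero ℓ] (hc : CS ℓ K S Ω kp C Om lam mu I χ ρ lk good triv)
    (W : Finset C) (hW : ∀ c ∈ W, ∀ c' ∈ W, c ≠ c' → ¬ lk c c') (hW1 : ∑ c ∈ W, mu c = 1)
    {κ : ℝ} (hκ : 0 < κ) (a : C) (ha : a ∈ W) (hgood : good a)
    (Q : (C → Finset Ω) → Prop) (hQ : ∀ A X, Q (Function.update A a X) ↔ Q A)
    (hQn : ∀ A, Q A → ¬ triv a ∨ ∃ c, c ∉ W ∧ lk c a ∧ (A c).Nonempty) :
    Tendsto (fun s : ℝ => ((s - 1 : ℝ) : ℂ) * MQX S kp Om lam I ρ ((1 / (s - 1)) ^ κ) W Q s)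
      (𝓝[>] 1) (𝓝 0) := by
  obtain ⟨E, hE0, hE⟩ := hc.EUL a hgood
  obtain ⟨M, n, hM, h12⟩ := one_varC hX hc E hE0.le
  refine zero_of_bound hκ (hc.mu_pos a) ((E * (1 + Fintype.card C) ^ E + M) * M ^ Fintype.card C)
    (⌈E⌉₊ + n + n * Fintype.card C) fun s hs1 hs2 => ?_
  have hs0 : 0 < s - 1 := by linarith
  set u : ℝ := 1 / (s - 1) with hu
  have hu1 : 1 ≤ u := by rw [hu, le_div_iff₀ hs0]; linarith
  have hu0 : 0 < u := by linarith
  set Z : ℝ := u ^ κ with hZ
  have hZ1 : 1 ≤ Z := Real.one_le_rpow hu1 hκ.le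
  have hlZ : Real.log Z = κ * Real.log u := by rw [hZ, Real.log_rpow hu0]
  have hlu : 0 ≤ Real.log u := Real.log_nonneg hu1
  have hout := outerX hc W hW hW1 a ha hgood hE0 hE (n := n) hM hs1 hs2 hZ1 hu1
    (fun c => ((h12 c).1 s hs1 hs2).1) (fun c => ((h12 c).1 s hs1 hs2).2)
    (fun c => ((h12 c).2 Z hZ1 s hs1 hs2).1) (fun c => ((h12 c).2 Z hZ1 s hs1 hs2).2) Q hQ hQn
  refine hout.trans ?_
  set G : ℝ := 1 + κ * Real.log u with hG
  have hk0 : 0 ≤ κ * Real.log u := by positivity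
  have hG1 : 1 ≤ G := by linarith
  rw [hlZ]
  have hcc : (0 : ℝ) ≤ Fintype.card C := Nat.cast_nonneg _
  have e1 : (1 + Fintype.card C * (κ * Real.log u)) ^ E ≤ (1 + Fintype.card C) ^ E * G ^ ⌈E⌉₊ := by
    have e2 : 1 + Fintype.card C * (κ * Real.log u) ≤ (1 + Fintype.card C) * G := by
      rw [hG]
      nlinarith
    calc (1 + Fintype.card C * (κ * Real.log u)) ^ E ≤ ((1 + Fintype.card C) * G) ^ E :=
          Real.rpow_le_rpow (by positivity) e2 hE0.le
      _ = (1 + Fintype.card C) ^ E * G ^ E := Real.mul_rpow (by positivity) (by linarith)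
      _ ≤ (1 + Fintype.card C) ^ E * G ^ ⌈E⌉₊ := by
          refine mul_le_mul_of_nonneg_left ?_ (Real.rpow_nonneg (by positivity) _)
          rw [← Real.rpow_natCast]
          exact Real.rpow_le_rpow_of_exponent_le hG1 (Nat.le_ceil E)
  have hGN : ∀ k l : ℕ, k ≤ l → G ^ k ≤ G ^ l := fun k l hkl => pow_le_pow_right₀ hG1 hkl
  have e3 : E * (1 + Fintype.card C * (κ * Real.log u)) ^ E + M * G ^ n ≤
      (E * (1 + Fintype.card C) ^ E + M) * G ^ (⌈E⌉₊ + n) := by
    have e4 : E * (1 + Fintype.card C * (κ * Real.log u)) ^ E ≤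
        E * ((1 + Fintype.card C) ^ E * G ^ (⌈E⌉₊ + n)) := by
      refine mul_le_mul_of_nonneg_left (e1.trans ?_) hE0.le
      exact mul_le_mul_of_nonneg_left (hGN _ _ (by omega)) (Real.rpow_nonneg (by positivity) _)
    have e5 : M * G ^ n ≤ M * G ^ (⌈E⌉₊ + n) :=
      mul_le_mul_of_nonneg_left (hGN _ _ (by omega)) (by linarith)
    linarith
  have hU0 : 0 ≤ (M * G ^ n) ^ Fintype.card C * u ^ (1 - mu a) := by positivity
  calc (E * (1 + Fintype.card C * (κ * Real.log u)) ^ E + M * G ^ n) *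
        ((M * G ^ n) ^ Fintype.card C * u ^ (1 - mu a))
      ≤ ((E * (1 + Fintype.card C) ^ E + M) * G ^ (⌈E⌉₊ + n)) *
        ((M * G ^ n) ^ Fintype.card C * u ^ (1 - mu a)) := mul_le_mul_of_nonneg_right e3 hU0
    _ = _ := by
      rw [mul_pow, ← pow_mul, pow_add G (⌈E⌉₊ + n)]
      ring

end

end Pool.Agent.T3h73.SG.XAN3
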