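import Pool.Agent.T3h73.SG.Xan3C

/-! Task XAN3 of project SG: grouping the families by the places of `K` below them. -/

set_option autoImplicit false
set_option linter.all false

open NumberField IsDedekindDomain Filter Topology

namespace Pool.Agent.T3h73.SG.XAN3

open Pool.Agent.T3h73.SG
open Pool.Agent.T3h73.SL (Pl)
open Pool.Agent.T3h73.SD (ee NA gA T0)
open Pool.Agent.T3h73.SD.Fam (norm_ee pi_sum lim_log)

section
variable {K : Type} [Field K] [NumberField K] {S : Finset (Pl K)} {Ω : Type}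
  {kp : Ω → Pl K} {C : Type} [Fintype C] {Om : C → Ω → Prop} {lam : C → ℝ}

open Classical in
/-- the marked colours at `q` -/
noncomputable def fb (kp : Ω → Pl K) (hfib : Fib kp) (Om : C → Ω → Prop) (W : Finset C)
    (q : Pl K) : Finset (C × Ω) :=
  (W ×ˢ (Classical.choose_spec hfib q).1.toFinset).filter fun x => Om x.1 x.2

theorem mem_fb (hfib : Fib kp) (W : Finset C) (q : Pl K) (x : C × Ω) :
    x ∈ fb kp hfib Om W q ↔ x.1 ∈ W ∧ kp x.2 = q ∧ Om x.1 x.2 := by
  classical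
  unfold fb
  rw [Finset.mem_filter, Finset.mem_product, Set.Finite.mem_toFinset, Set.mem_setOf_eq, and_assoc]

open Classical in
theorem sum_fb (hfib : Fib kp) (W : Finset C) (q : Pl K)
    (h : ∑ᶠ w ∈ {w : Ω | kp w = q}, ∑ c ∈ W, (if Om c w then lam c else 0) = 1) :
    ∑ x ∈ fb kp hfib Om W q, lam x.1 = 1 := by
  unfold fb
  rw [Finset.sum_filter, Finset.sum_product_right]
  rw [finsum_mem_eq_finite_toFinset_sum _ (Classical.choose_spec hfib q).1] at h
  exact h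

open Classical in
/-- the family given by a choice of marked colours -/
noncomputable def famOf (P : Finset (Pl K)) (φ : ∀ q ∈ P, C × Ω) (c : C) : Finset Ω :=
  (P.attach.filter fun q => (φ q.1 q.2).1 = c).image fun q => (φ q.1 q.2).2

theorem mem_famOf (P : Finset (Pl K)) (φ : ∀ q ∈ P, C × Ω) (c : C) (w : Ω) :
    w ∈ famOf P φ c ↔ ∃ (q : Pl K) (hq : q ∈ P), φ q hq = (c, w) := by
  classical
  unfold famOf
  rw [Finset.mem_image]
  constructor
  · rintro ⟨q, hq, e⟩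
    rw [Finset.mem_filter] at hq
    exact ⟨q.1, q.2, Prod.ext hq.2 e⟩
  · rintro ⟨q, hq, e⟩
    refine ⟨⟨q, hq⟩, ?_, ?_⟩
    · rw [Finset.mem_filter]
      exact ⟨Finset.mem_attach _ _, congrArg Prod.fst e⟩
    · exact congrArg Prod.snd e

open Classical in
/-- the places below a family -/
noncomputable def im (kp : Ω → Pl K) (A : C → Finset Ω) : Finset (Pl K) :=
  Finset.univ.biUnion fun c => (A c).image kp

theorem mem_im (A : C → Finset Ω) (q : Pl K) : q ∈ im kp A ↔ ∃ c, ∃ w ∈ A c, kp w = q := by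
  classical
  unfold im
  rw [Finset.mem_biUnion]
  constructor
  · rintro ⟨c, -, h⟩
    exact ⟨c, Finset.mem_image.1 h⟩
  · rintro ⟨c, h⟩
    exact ⟨c, Finset.mem_univ c, Finset.mem_image.2 h⟩

theorem wO_prod (kp : Ω → Pl K) (l s : ℝ) (A : Finset Ω) :
    wO kp l s A = ∏ w ∈ A, (l * (Ideal.absNorm (kp w).asIdeal : ℝ) ^ (-s)) := by
  unfold wO NO
  rw [Finset.prod_mul_distrib, Finset.prod_const, Nat.cast_prod,
    Real.finset_prod_rpow A _ (fun w _ => Nat.cast_nonneg _)]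

theorem NA_prod (s : ℝ) (P : Finset (Pl K)) :
    (NA P : ℝ) ^ (-s) = ∏ q ∈ P, (Ideal.absNorm q.asIdeal : ℝ) ^ (-s) := by
  unfold NA
  rw [Nat.cast_prod, Real.finset_prod_rpow P _ (fun w _ => Nat.cast_nonneg _)]

section fam
variable {P : Finset (Pl K)} {hfib : Fib kp} {W : Finset C} {φ : ∀ q ∈ P, C × Ω}

theorem kp_fam (hφ : ∀ q (hq : q ∈ P), φ q hq ∈ fb kp hfib Om W q) {q : Pl K} (hq : q ∈ P) {c : C}
    {w : Ω} (e : φ q hq = (c, w)) : c ∈ W ∧ kp w = q ∧ Om c w := by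
  have := (mem_fb hfib W q _).1 (hφ q hq)
  rwa [e] at this

theorem fam_tup (hP : Disjoint P S) (hφ : ∀ q (hq : q ∈ P), φ q hq ∈ fb kp hfib Om W q) :
    TupX S kp Om (famOf P φ) ∧ ∀ c, c ∉ W → famOf P φ c = ∅ := by
  refine ⟨⟨fun c => ⟨fun w hw => ?_, fun w hw w' hw' e => ?_⟩, fun c c' hcc w hw w' hw' e => ?_⟩,
    fun c hc => ?_⟩
  · obtain ⟨q, hq, e⟩ := (mem_famOf P φ c w).1 hw
    obtain ⟨h1, h2, h3⟩ := kp_fam hφ hq e
    exact ⟨h3, by rw [h2]; exact Finset.disjoint_left.1 hP hq⟩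
  · obtain ⟨q, hq, e1⟩ := (mem_famOf P φ c w).1 (Finset.mem_coe.1 hw)
    obtain ⟨q', hq', e2⟩ := (mem_famOf P φ c w').1 (Finset.mem_coe.1 hw')
    have h1 := (kp_fam hφ hq e1).2.1
    have h2 := (kp_fam hφ hq' e2).2.1
    have h3 : q = q' := by rw [← h1, ← h2, e]
    subst h3
    exact congrArg Prod.snd (e1.symm.trans e2)
  · obtain ⟨q, hq, e1⟩ := (mem_famOf P φ c w).1 hw
    obtain ⟨q', hq', e2⟩ := (mem_famOf P φ c' w').1 hw'
    have h1 := (kp_fam hφ hq e1).2.1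
    have h2 := (kp_fam hφ hq' e2).2.1
    have h3 : q = q' := by rw [← h1, ← h2, e]
    subst h3
    exact hcc (congrArg Prod.fst (e1.symm.trans e2))
  · rw [Finset.eq_empty_iff_forall_notMem]
    intro w hw
    obtain ⟨q, hq, e⟩ := (mem_famOf P φ c w).1 hw
    exact hc (kp_fam hφ hq e).1

theorem fam_im (hφ : ∀ q (hq : q ∈ P), φ q hq ∈ fb kp hfib Om W q) : im kp (famOf P φ) = P := by
  ext q
  rw [mem_im]
  constructor
  · rintro ⟨c, w, hw, e⟩
    obtain ⟨q', hq', e'⟩ := (mem_famOf P φ c w).1 hw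
    rw [← e, (kp_fam hφ hq' e').2.1]
    exact hq'
  · intro hq
    exact ⟨(φ q hq).1, (φ q hq).2, (mem_famOf P φ _ _).2 ⟨q, hq, rfl⟩,
      ((mem_fb hfib W q _).1 (hφ q hq)).2.1⟩

theorem fam_inj {φ' : ∀ q ∈ P, C × Ω} (hφ : ∀ q (hq : q ∈ P), φ q hq ∈ fb kp hfib Om W q)
    (hφ' : ∀ q (hq : q ∈ P), φ' q hq ∈ fb kp hfib Om W q) (h : famOf P φ = famOf P φ') :
    φ = φ' := by
  funext q hq
  have h1 : (φ q hq).2 ∈ famOf P φ (φ q hq).1 := (mem_famOf P φ _ _).2 ⟨q, hq, rfl⟩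
  rw [h] at h1
  obtain ⟨q', hq', e⟩ := (mem_famOf P φ' _ _).1 h1
  have h2 := (kp_fam hφ' hq' e).2.1
  have h3 := ((mem_fb hfib W q _).1 (hφ q hq)).2.1
  have h4 : q' = q := by rw [← h2, h3]
  subst h4
  exact e.symm

theorem fam_surj (A : C → Finset Ω) (hT : TupX S kp Om A) (hA : ∀ c, c ∉ W → A c = ∅)
    (him : im kp A = P) (hfib : Fib kp) :
    ∃ φ : ∀ q ∈ P, C × Ω, (∀ q (hq : q ∈ P), φ q hq ∈ fb kp hfib Om W q) ∧ famOf P φ = A := by
  have h1 : ∀ q ∈ P, ∃ x : C × Ω, x.2 ∈ A x.1 ∧ kp x.2 = q := by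
    intro q hq
    rw [← him, mem_im] at hq
    obtain ⟨c, w, hw, e⟩ := hq
    exact ⟨(c, w), hw, e⟩
  choose φ hφ1 hφ2 using h1
  have hmem : ∀ c w, w ∈ A c → c ∈ W := by
    intro c w hw
    by_contra hc
    rw [hA c hc] at hw
    exact absurd hw (Finset.notMem_empty w)
  refine ⟨φ, fun q hq => ?_, ?_⟩
  · rw [mem_fb]
    exact ⟨hmem _ _ (hφ1 q hq), hφ2 q hq, ((hT.1 _).1 _ (hφ1 q hq)).1⟩
  · funext c
    ext w
    rw [mem_famOf]
    constructor
    · rintro ⟨q, hq, e⟩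
      have := hφ1 q hq
      rwa [e] at this
    · intro hw
      have hq : kp w ∈ P := by
        rw [← him, mem_im]
        exact ⟨c, w, hw, rfl⟩
      refine ⟨kp w, hq, ?_⟩
      have h2 := hφ1 _ hq
      have h3 := hφ2 _ hq
      have h4 : (φ (kp w) hq).1 = c := by
        by_contra hne
        exact hT.2 _ _ hne _ h2 w hw h3
      rw [h4] at h2
      exact Prod.ext h4 ((hT.1 c).2 (Finset.mem_coe.2 h2) (Finset.mem_coe.2 hw) h3)

open Classical in
theorem fam_prod (hφ : ∀ q (hq : q ∈ P), φ q hq ∈ fb kp hfib Om W q) (s : ℝ) :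
    ∏ c, wO kp (lam c) s (famOf P φ c) =
      ∏ q ∈ P.attach, (lam (φ q.1 q.2).1 * (Ideal.absNorm q.1.asIdeal : ℝ) ^ (-s)) := by
  rw [← Finset.prod_fiberwise P.attach (fun q => (φ q.1 q.2).1)]
  refine Finset.prod_congr rfl fun c _ => ?_
  rw [wO_prod]
  unfold famOf
  have hkp : ∀ q : {x // x ∈ P}, kp (φ q.1 q.2).2 = q.1 := fun q =>
    ((mem_fb hfib W q.1 _).1 (hφ q.1 q.2)).2.1
  rw [Finset.prod_image]
  · refine Finset.prod_congr rfl fun q hq => ?_
    rw [Finset.mem_filter] at hq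
    rw [hkp q, hq.2]
  · intro q _ q' _ e
    apply Subtype.ext
    rw [← hkp q, ← hkp q']
    exact congrArg kp e

end fam

open Classical in
/-- the term of a family supported on `W` -/
noncomputable def HX (S : Finset (Pl K)) (kp : Ω → Pl K) (Om : C → Ω → Prop) (lam : C → ℝ)
    (W : Finset C) (s : ℝ) (A : C → Finset Ω) : ℝ :=
  if TupX S kp Om A ∧ ∀ c, c ∉ W → A c = ∅ then ∏ c, wO kp (lam c) s (A c) else 0

open Classical in
theorem sum_im (hfib : Fib kp) (W : Finset C) (hfull : ∀ q : Pl K, q ∉ S →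
      ∑ᶠ w ∈ {w : Ω | kp w = q}, ∑ c ∈ W, (if Om c w then lam c else 0) = 1) (s : ℝ)
    (P : Finset (Pl K)) :
    ∑' A : (im kp : (C → Finset Ω) → Finset (Pl K)) ⁻¹' {P}, HX S kp Om lam W s A =
      if Disjoint P S then (NA P : ℝ) ^ (-s) else 0 := by
  rw [tsum_subtype (im kp ⁻¹' {P}) (HX S kp Om lam W s)]
  by_cases hP : Disjoint P S
  · rw [if_pos hP]
    set Φ := P.pi (fun q => fb kp hfib Om W q) with hΦ
    have hmemΦ : ∀ φ, φ ∈ Φ ↔ ∀ q (hq : q ∈ P), φ q hq ∈ fb kp hfib Om W q := fun φ =>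
      Finset.mem_pi
    rw [tsum_eq_sum (s := Φ.image (famOf P))]
    · rw [Finset.sum_image]
      · have h1 : ∀ φ ∈ Φ, (im kp ⁻¹' {P}).indicator (HX S kp Om lam W s) (famOf P φ) =
            ∏ q ∈ P.attach, (lam (φ q.1 q.2).1 * (Ideal.absNorm q.1.asIdeal : ℝ) ^ (-s)) := by
          intro φ hφ
          rw [Set.indicator_of_mem (show famOf P φ ∈ im kp ⁻¹' {P} from fam_im ((hmemΦ φ).1 hφ))]
          unfold HX
          rw [if_pos (fam_tup hP ((hmemΦ φ).1 hφ))]
          exact fam_prod ((hmemΦ φ).1 hφ) s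
        rw [Finset.sum_congr rfl h1]
        have h2 := Finset.prod_sum P (fun q => fb kp hfib Om W q)
          (fun q x => lam x.1 * (Ideal.absNorm q.asIdeal : ℝ) ^ (-s))
        rw [hΦ, ← h2, NA_prod]
        refine Finset.prod_congr rfl fun q hq => ?_
        rw [← Finset.sum_mul, sum_fb hfib W q (hfull q (Finset.disjoint_left.1 hP hq)), one_mul]
      · intro φ hφ φ' hφ' e
        exact fam_inj ((hmemΦ φ).1 (Finset.mem_coe.1 hφ)) ((hmemΦ φ').1 (Finset.mem_coe.1 hφ')) e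
    · intro A hA
      by_contra hne
      have h3 : A ∈ im kp ⁻¹' {P} := by
        by_contra h4
        exact hne (Set.indicator_of_notMem h4 _)
      rw [Set.indicator_of_mem h3] at hne
      unfold HX at hne
      have h5 : TupX S kp Om A ∧ ∀ c, c ∉ W → A c = ∅ := by
        by_contra h6
        exact hne (if_neg h6)
      obtain ⟨φ, h7, h8⟩ := fam_surj A h5.1 h5.2 h3 hfib
      exact hA (Finset.mem_image.2 ⟨φ, (hmemΦ φ).2 h7, h8⟩)
  · rw [if_neg hP]
    have h1 : ∀ A, (im kp ⁻¹' {P}).indicator (HX S kp Om lam W s) A = 0 := by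
      intro A
      by_cases h2 : A ∈ im kp ⁻¹' {P}
      · rw [Set.indicator_of_mem h2]
        unfold HX
        refine if_neg fun h3 => hP ?_
        rw [Finset.disjoint_left]
        intro q hq
        have h4 : im kp A = P := h2
        rw [← h4, mem_im] at hq
        obtain ⟨c, w, hw, e⟩ := hq
        rw [← e]
        exact ((h3.1.1 c).1 w hw).2
      · exact Set.indicator_of_notMem h2 _
    rw [tsum_congr h1, tsum_zero]

open Classical in
/-- the sum over all families supported on `W` is the sum over all finite sets of places -/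
theorem sum_HX (hfib : Fib kp) (W : Finset C) (hfull : ∀ q : Pl K, q ∉ S →
      ∑ᶠ w ∈ {w : Ω | kp w = q}, ∑ c ∈ W, (if Om c w then lam c else 0) = 1) (s : ℝ)
    (hsum : Summable (HX S kp Om lam W s)) : ∑' A, HX S kp Om lam W s A = T0 S s := by
  have h1 := hsum.hasSum.tsum_fiberwise (im kp : (C → Finset Ω) → Finset (Pl K))
  rw [← h1.tsum_eq]
  unfold T0
  exact tsum_congr fun P => sum_im hfib W hfull s P

end

end Pool.Agent.T3h73.SG.XAN3
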