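import Pool.Agent.T3h73.SG.Xan3D
import Pool.Agent.T3h73.SD.T_AN3

/-! Task XAN3 of project SG: the main term. -/

set_option autoImplicit false
set_option linter.all false

open NumberField IsDedekindDomain Filter Topology

namespace Pool.Agent.T3h73.SG.XAN3

open Pool.Agent.T3h73.SG
open Pool.Agent.T3h73.SL (Pl)
open Pool.Agent.T3h73.SD (ee NA gA T0)
open Pool.Agent.T3h73.SD.Fam (norm_ee pi_sum lim_log)
open Pool.Agent.T3h73.SD.AN3 (ee_add ee_zero anti_sum)

section
variable {K : Type} [Field K] [NumberField K] {ℓ : ℕ} {S : Finset (Pl K)} {Ω : Type}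
  {kp : Ω → Pl K} {C : Type} [Fintype C] {Om : C → Ω → Prop} {lam mu : C → ℝ}
  {I : C → Finset Ω → ℂ} {χ : C → Ω → ZMod ℓ} {ρ : C → C → Ω → Ω → ZMod ℓ} {lk : C → C → Prop}
  {good triv : C → Prop}

open Classical in
/-- the colours outside `W` which are used -/
noncomputable def patX (W : Finset C) (A : C → Finset Ω) : Finset C :=
  Finset.univ.filter fun c => c ∉ W ∧ (A c).Nonempty

theorem patX_empty (W : Finset C) (A : C → Finset Ω) : patX W A = ∅ ↔ ∀ c, c ∉ W → A c = ∅ := by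
  classical
  unfold patX
  rw [Finset.filter_eq_empty_iff]
  constructor
  · intro h c hc
    by_contra h2
    exact h (Finset.mem_univ c) ⟨hc, Finset.nonempty_iff_ne_empty.2 h2⟩
  · rintro h c - ⟨h1, h2⟩
    rw [h c h1] at h2
    exact Finset.not_nonempty_empty h2

open Classical in
theorem MX_split (hc : CS ℓ K S Ω kp C Om lam mu I χ ρ lk good triv) {s D : ℝ} (hD : 0 ≤ D)
    (h1 : ∀ c, Summable (w1 S kp (Om c) (lam c) s D)) (Z : ℝ) (W : Finset C) :
    MX S kp Om lam I ρ Z W s =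
      ∑ B0 : Finset C, MQX S kp Om lam I ρ Z W (fun A => patX W A = B0) s := by
  have hs := Summable.tsum_finsetSum (s := (Finset.univ : Finset (Finset C)))
    (f := fun B0 => mqX S kp Om lam I ρ Z W (fun A => patX W A = B0) s) fun B0 _ =>
      summable_mqX hc hD h1 Z W _
  refine Eq.trans ?_ hs
  unfold MX
  refine tsum_congr fun A => ?_
  rw [Finset.sum_eq_single (patX W A)]
  · unfold mqX
    by_cases h2 : TupX S kp Om A ∧ ∀ c, c ∈ W ↔ Z < (NO kp (A c) : ℝ)
    · rw [if_pos h2, if_pos ⟨h2, rfl⟩]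
    · rw [if_neg h2, if_neg fun h3 => h2 h3.1]
  · intro B0 _ hB0
    unfold mqX
    rw [if_neg fun h3 => hB0 h3.2.symm]
  · intro h2
    exact absurd (Finset.mem_univ _) h2

open Classical in
/-- the terms of the main part -/
theorem trmX_triv [NeZero ℓ] (hc : CS ℓ K S Ω kp C Om lam mu I χ ρ lk good triv)
    (hI0 : ∀ c, I c ∅ = 1) (W : Finset C) (hW : ∀ c ∈ W, ∀ c' ∈ W, c ≠ c' → ¬ lk c c')
    (hg : ∀ c ∈ W, good c) (ht : ∀ c ∈ W, triv c) (s : ℝ) (A : C → Finset Ω)
    (hT : TupX S kp Om A) (hA : ∀ c, c ∉ W → A c = ∅) :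
    trmX kp lam I ρ s A = ((∏ c, wO kp (lam c) s (A c) : ℝ) : ℂ) := by
  rw [trmX_eq]
  have h1 : ∏ c, I c (A c) = 1 := by
    refine Finset.prod_eq_one fun c _ => ?_
    by_cases hcW : c ∈ W
    · rw [hc.I_good c (hg c hcW) _ (hT.1 c)]
      have : ∑ w ∈ A c, χ c w = 0 := Finset.sum_eq_zero fun w hw =>
        hc.trv c (hg c hcW) (ht c hcW) w ((hT.1 c).1 w hw).1 ((hT.1 c).1 w hw).2
      rw [this, ee_zero]
    · rw [hA c hcW, hI0]
  have h2 : exX ρ Finset.univ A = 0 := by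
    unfold exX
    refine anti_sum _ _ (fun c _ => if_pos rfl) fun c _ c' _ => ?_
    by_cases hcc : c = c'
    · rw [if_pos hcc, if_pos hcc.symm, add_zero]
    · rw [if_neg hcc, if_neg fun h => hcc h.symm, Finset.sum_comm (s := A c') (t := A c),
        ← Finset.sum_add_distrib]
      refine Finset.sum_eq_zero fun w hw => ?_
      rw [← Finset.sum_add_distrib]
      refine Finset.sum_eq_zero fun w' hw' => ?_
      have hcW : c ∈ W := by
        by_contra h
        rw [hA c h] at hw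
        exact absurd hw (Finset.notMem_empty w)
      have hcW' : c' ∈ W := by
        by_contra h
        rw [hA c' h] at hw'
        exact absurd hw' (Finset.notMem_empty w')
      exact hc.unl c c' hcc (hW c hcW c' hcW' hcc) w w' ((hT.1 c).1 w hw).1
        ((hT.1 c').1 w' hw').1 ((hT.1 c).1 w hw).2 ((hT.1 c').1 w' hw').2
        (hT.2 c c' hcc w hw w' hw')
  rw [h1, h2, ee_zero, mul_one, mul_one]

open Classical in
/-- the error: one of the sets with colours in `W` is small -/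
theorem err_bound [NeZero ℓ] (hc : CS ℓ K S Ω kp C Om lam mu I χ ρ lk good triv)
    (hI0 : ∀ c, I c ∅ = 1) (W : Finset C) (hW : ∀ c ∈ W, ∀ c' ∈ W, c ≠ c' → ¬ lk c c')
    (hW1 : ∑ c ∈ W, mu c = 1) (hg : ∀ c ∈ W, good c) (ht : ∀ c ∈ W, triv c)
    (hfull : ∀ q : Pl K, q ∉ S →
      ∑ᶠ w ∈ {w : Ω | kp w = q}, ∑ c ∈ W, (if Om c w then lam c else 0) = 1)
    {M : ℝ} {n : ℕ} (hM : 1 ≤ M) {s Z u : ℝ} (hs1 : 1 < s) (hs2 : s ≤ 2) (hZ : 1 ≤ Z) (hu : 1 ≤ u)
    (h1 : ∀ c, Summable (w1 S kp (Om c) (lam c) s 0))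
    (h1t : ∀ c, ∑' A, w1 S kp (Om c) (lam c) s 0 A ≤ M * u ^ (mu c))
    (h2 : ∀ c, Summable (w2 S kp (Om c) (lam c) s 0 Z))
    (h2t : ∀ c, ∑' A, w2 S kp (Om c) (lam c) s 0 Z A ≤ M * (1 + Real.log Z) ^ n) :
    ‖((T0 S s : ℝ) : ℂ) - MQX S kp Om lam I ρ Z W (fun A => patX W A = ∅) s‖ ≤
      ∑ a ∈ W, (M * (1 + Real.log Z) ^ n) * ((M * (1 + Real.log Z) ^ n) ^ Fintype.card C *
        u ^ (1 - mu a)) := by
  have hlam : ∀ c, 0 ≤ lam c := fun c => (hc.lam_pos c).1.le
  have hlZ : 0 ≤ Real.log Z := Real.log_nonneg hZ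
  have hw0 : ∀ c X, 0 ≤ wO kp (lam c) s X := fun c X => wO_nonneg kp (hlam c) s X
  -- the full sum
  have hHs : Summable (HX S kp Om lam W s) := by
    refine Summable.of_nonneg_of_le (fun A => ?_) (fun A => ?_)
      (pi_sum (fun c A => w1 S kp (Om c) (lam c) s 0 A)
        (fun c A => w1_nonneg S kp (Om c) (hlam c) s 0 A) h1).1
    · unfold HX
      split_ifs
      · exact Finset.prod_nonneg fun c _ => hw0 c _
      · exact le_rfl
    · unfold HX
      split_ifs with h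
      · exact Finset.prod_le_prod (fun c _ => hw0 c _) fun c _ =>
          wO_le_w1 (hlam c) le_rfl (h.1.1 c)
      · exact Finset.prod_nonneg fun c _ => w1_nonneg S kp (Om c) (hlam c) s 0 _
  have hT0 := sum_HX hc.fib W hfull s hHs
  have hms := summable_mqX hc le_rfl h1 Z W (fun A => patX W A = ∅)
  have hHc : Summable (fun A => ((HX S kp Om lam W s A : ℝ) : ℂ)) :=
    Complex.ofRealCLM.summable hHs
  rw [← hT0, Complex.ofReal_tsum]
  unfold MQX
  rw [← hHc.tsum_sub hms]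
  -- the weights
  set t : C → C → Finset Ω → ℝ := fun a c A =>
    if c ∈ W ∧ c ≠ a then w1 S kp (Om c) (lam c) s 0 A else w2 S kp (Om c) (lam c) s 0 Z A with ht'
  have ht0 : ∀ a c A, 0 ≤ t a c A := by
    intro a c A
    simp only [ht']
    split_ifs
    · exact w1_nonneg S kp _ (hlam _) s 0 A
    · exact w2_nonneg S kp _ (hlam _) s 0 Z A
  have hts : ∀ a c, Summable (t a c) := by
    intro a c
    by_cases hc : c ∈ W ∧ c ≠ a
    · simpa only [ht', if_pos hc] using h1 c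
    · simpa only [ht', if_neg hc] using h2 c
  have hp := fun a => pi_sum (t a) (ht0 a) (hts a)
  have hsum : Summable (fun A : C → Finset Ω => ∑ a ∈ W, ∏ c, t a c (A c)) :=
    summable_sum fun a _ => (hp a).1
  refine (tsum_of_norm_bounded hsum.hasSum fun A => ?_).trans ?_
  · -- pointwise
    have hnn : 0 ≤ ∑ a ∈ W, ∏ c, t a c (A c) :=
      Finset.sum_nonneg fun a _ => Finset.prod_nonneg fun c _ => ht0 a c _
    unfold HX mqX
    by_cases hA : TupX S kp Om A ∧ ∀ c, c ∉ W → A c = ∅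
    · rw [if_pos hA]
      by_cases hL : ∀ c ∈ W, Z < (NO kp (A c) : ℝ)
      · rw [if_pos, trmX_triv hc hI0 W hW hg ht s A hA.1 hA.2, sub_self, norm_zero]
        · exact hnn
        · refine ⟨⟨hA.1, fun c => ⟨hL c, fun h3 => ?_⟩⟩, (patX_empty W A).2 hA.2⟩
          by_contra hcW
          rw [hA.2 c hcW] at h3
          simp only [NO, Finset.prod_empty, Nat.cast_one] at h3
          linarith
      · rw [if_neg fun h3 => hL fun c hcW => (h3.1.2 c).1 hcW, sub_zero, Complex.norm_real,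
          Real.norm_of_nonneg (Finset.prod_nonneg fun c _ => hw0 c _)]
        push Not at hL
        obtain ⟨a, haW, haZ⟩ := hL
        refine le_trans ?_ (Finset.single_le_sum (f := fun a => ∏ c, t a c (A c))
          (fun a _ => Finset.prod_nonneg fun c _ => ht0 a c _) haW)
        refine Finset.prod_le_prod (fun c _ => hw0 c _) fun c _ => ?_
        simp only [ht']
        by_cases h4 : c ∈ W ∧ c ≠ a
        · rw [if_pos h4]
          exact wO_le_w1 (hlam c) le_rfl (hA.1.1 c)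
        · rw [if_neg h4]
          refine wO_le_w2 (hlam c) le_rfl (hA.1.1 c) ?_
          by_cases hca : c = a
          · rw [hca]
            exact haZ
          · have hcW : c ∉ W := fun h5 => h4 ⟨h5, hca⟩
            rw [hA.2 c hcW]
            simpa [NO] using hZ
    · rw [if_neg hA, if_neg fun h3 => hA ⟨h3.1.1, (patX_empty W A).1 h3.2⟩, Complex.ofReal_zero,
        sub_zero, norm_zero]
      exact hnn
  · rw [Summable.tsum_finsetSum fun a _ => (hp a).1]
    refine Finset.sum_le_sum fun a haW => (hp a).2.trans ?_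
    rw [← Finset.mul_prod_erase Finset.univ _ (Finset.mem_univ a)]
    refine mul_le_mul ?_ ?_ (Finset.prod_nonneg fun c _ => tsum_nonneg (ht0 a c)) (by positivity)
    · simp only [ht']
      have : ¬ (a ∈ W ∧ a ≠ a) := fun h => h.2 rfl
      simp only [if_neg this]
      exact h2t a
    · refine le_trans ?_ (prodT mu W a haW hW1 hM (by linarith : 1 ≤ 1 + Real.log Z) hu n)
      rw [Finset.prod_subtype (Finset.univ.erase a) (p := fun c => c ≠ a)
        (fun c => ⟨fun hc => (Finset.mem_erase.1 hc).1,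
          fun hc => Finset.mem_erase.2 ⟨hc, Finset.mem_univ _⟩⟩)
        (fun c => ∑' A, t a c A)]
      refine Finset.prod_le_prod (fun c _ => tsum_nonneg (ht0 a c)) fun c _ => ?_
      by_cases hcW : (c : C) ∈ W
      · have h4 : (c : C) ∈ W ∧ (c : C) ≠ a := ⟨hcW, c.2⟩
        simp only [ht', if_pos h4, if_pos hcW]
        exact h1t c
      · have h4 : ¬ ((c : C) ∈ W ∧ (c : C) ≠ a) := fun h => hcW h.1
        simp only [ht', if_neg h4, if_neg hcW]
        exact h2t c

open Classical in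
/-- the main term -/
theorem main_termX (hX : S_XMAS) [NeZero ℓ] (hc : CS ℓ K S Ω kp C Om lam mu I χ ρ lk good triv)
    (hI0 : ∀ c, I c ∅ = 1) (W : Finset C) (hW : ∀ c ∈ W, ∀ c' ∈ W, c ≠ c' → ¬ lk c c')
    (hW1 : ∑ c ∈ W, mu c = 1) (hg : ∀ c ∈ W, good c) (ht : ∀ c ∈ W, triv c)
    (hfull : ∀ q : Pl K, q ∉ S →
      ∑ᶠ w ∈ {w : Ω | kp w = q}, ∑ c ∈ W, (if Om c w then lam c else 0) = 1)
    {κ : ℝ} (hκ : 0 < κ) {c₀ s₀ : ℝ} (hc₀ : 0 < c₀) (hs₀ : 1 < s₀)
    (hT : ∀ s : ℝ, 1 < s → s < s₀ → c₀ / (s - 1) ≤ T0 S s) :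
    Tendsto (fun s : ℝ => MQX S kp Om lam I ρ ((1 / (s - 1)) ^ κ) W (fun A => patX W A = ∅) s /
      ((T0 S s : ℝ) : ℂ)) (𝓝[>] 1) (𝓝 1) := by
  obtain ⟨M, n, hM, h12⟩ := one_varC hX hc 0 le_rfl
  have h0 : Tendsto (fun s : ℝ => ((s - 1 : ℝ) : ℂ) * (((T0 S s : ℝ) : ℂ) -
      MQX S kp Om lam I ρ ((1 / (s - 1)) ^ κ) W (fun A => patX W A = ∅) s)) (𝓝[>] 1) (𝓝 0) := by
    rw [tendsto_zero_iff_norm_tendsto_zero]
    have hlim := tendsto_finset_sum W fun a (_ : a ∈ W) => grow hκ (hc.mu_pos a)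
      (M * M ^ Fintype.card C) (n + n * Fintype.card C)
    rw [Finset.sum_const_zero] at hlim
    refine squeeze_zero' (Eventually.of_forall fun s => norm_nonneg _) ?_ hlim
    have hev : ∀ᶠ s : ℝ in 𝓝[>] 1, s ≤ 2 :=
      (eventually_le_nhds (show (1 : ℝ) < 2 by norm_num)).filter_mono nhdsWithin_le_nhds
    filter_upwards [self_mem_nhdsWithin, hev] with s hs1' hs2
    have hs1 : 1 < s := hs1'
    have hs0 : 0 < s - 1 := sub_pos.mpr hs1
    set u : ℝ := 1 / (s - 1) with hu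
    have hu1 : 1 ≤ u := by rw [hu, le_div_iff₀ hs0]; linarith
    have hu0 : 0 < u := by linarith
    set Z : ℝ := u ^ κ with hZ
    have hZ1 : 1 ≤ Z := Real.one_le_rpow hu1 hκ.le
    have hlZ : Real.log Z = κ * Real.log u := by rw [hZ, Real.log_rpow hu0]
    have h3 := err_bound hc hI0 W hW hW1 hg ht hfull (n := n) hM hs1 hs2 hZ1 hu1
      (fun c => ((h12 c).1 s hs1 hs2).1) (fun c => ((h12 c).1 s hs1 hs2).2)
      (fun c => ((h12 c).2 Z hZ1 s hs1 hs2).1) (fun c => ((h12 c).2 Z hZ1 s hs1 hs2).2)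
    rw [hlZ] at h3
    rw [norm_mul, Complex.norm_real, Real.norm_eq_abs, abs_of_pos hs0]
    refine (mul_le_mul_of_nonneg_left h3 hs0.le).trans (le_of_eq ?_)
    rw [Finset.mul_sum]
    refine Finset.sum_congr rfl fun a _ => ?_
    rw [mul_pow, ← pow_mul, pow_add (1 + κ * Real.log u) n]
    ring
  have h1 := SD.AN.div_lim hc₀ hs₀ hT h0
  have h2 := h1.const_sub 1
  rw [sub_zero] at h2
  refine h2.congr' ?_
  have h3 : ∀ᶠ s : ℝ in 𝓝[>] 1, 1 < s ∧ s < s₀ := Ioo_mem_nhdsGT hs₀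
  filter_upwards [h3] with s hs
  have hT0 : (0 : ℝ) < T0 S s := (div_pos hc₀ (sub_pos.2 hs.1)).trans_le (hT s hs.1 hs.2)
  have hT0' : ((T0 S s : ℝ) : ℂ) ≠ 0 := by exact_mod_cast hT0.ne'
  field_simp
  ring

open Classical in
/-- XAN3, with the assumption on the empty set -/
theorem xan3 (hX : S_XMAS) (hℓ : ℓ.Prime) (hc : CS ℓ K S Ω kp C Om lam mu I χ ρ lk good triv)
    (hI0 : ∀ c, I c ∅ = 1) {κ : ℝ} (hκ : 0 < κ) (W : Finset C)
    (hW : ∀ c ∈ W, ∀ c' ∈ W, c ≠ c' → ¬ lk c c') (hW1 : ∑ c ∈ W, mu c = 1) :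
    Tendsto (fun s : ℝ => MX S kp Om lam I ρ ((1 / (s - 1)) ^ κ) W s / ((T0 S s : ℝ) : ℂ))
      (𝓝[>] 1) (𝓝 (if ∀ c ∈ W, triv c then 1 else 0)) := by
  haveI : NeZero ℓ := ⟨hℓ.ne_zero⟩
  obtain ⟨hg, hfull⟩ := hc.full W hW hW1
  obtain ⟨c₀, s₀, hc₀, hs₀, hT0⟩ := SD.T0L.t_T0L K S
  have hT : ∀ s : ℝ, 1 < s → s < s₀ → c₀ / (s - 1) ≤ T0 S s := fun s h1 h2 => (hT0 s h1 h2).2
  have hWne : W.Nonempty := by
    rw [Finset.nonempty_iff_ne_empty]
    rintro rfl
    simp at hW1
  have hQ : ∀ (a : C), a ∈ W → ∀ (B0 : Finset C) (A : C → Finset Ω) (X : Finset Ω),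
      patX W (Function.update A a X) = B0 ↔ patX W A = B0 := by
    intro a ha B0 A X
    have : patX W (Function.update A a X) = patX W A := by
      unfold patX
      refine Finset.filter_congr fun c _ => ?_
      by_cases hca : c = a
      · subst hca
        exact ⟨fun h1 => absurd ha h1.1, fun h1 => absurd ha h1.1⟩
      · rw [Function.update_of_ne hca]
    rw [this]
  -- the patterns
  have hpat : ∀ B0 : Finset C, Tendsto (fun s : ℝ =>
      MQX S kp Om lam I ρ ((1 / (s - 1)) ^ κ) W (fun A => patX W A = B0) s /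
        ((T0 S s : ℝ) : ℂ))
      (𝓝[>] 1) (𝓝 (if B0 = ∅ then (if ∀ a ∈ W, triv a then 1 else 0) else 0)) := by
    intro B0
    by_cases hB0 : B0 = ∅
    · rw [if_pos hB0]
      subst hB0
      by_cases h0 : ∀ a ∈ W, triv a
      · rw [if_pos h0]
        exact main_termX hX hc hI0 W hW hW1 hg h0 hfull hκ hc₀ hs₀ hT
      · rw [if_neg h0]
        push Not at h0
        obtain ⟨a, ha, ha0⟩ := h0
        exact SD.AN.div_lim hc₀ hs₀ hT (claim_zeroX hX hc W hW hW1 hκ a ha (hg a ha) _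
          (hQ a ha ∅) fun A _ => Or.inl ha0)
    · rw [if_neg hB0]
      obtain ⟨b, hb⟩ := Finset.nonempty_iff_ne_empty.2 hB0
      by_cases hbW : b ∈ W
      · obtain ⟨a, ha⟩ := hWne
        refine SD.AN.div_lim hc₀ hs₀ hT (claim_zeroX hX hc W hW hW1 hκ a ha (hg a ha) _
          (hQ a ha B0) fun A hA => ?_)
        exfalso
        have : b ∈ patX W A := by
          rw [hA]
          exact hb
        exact (Finset.mem_filter.1 this).2.1 hbW
      · have h2 : ∃ a ∈ W, lk b a := by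
          by_contra h3
          push Not at h3
          have h4 := hc.mass (insert b W) (by
            intro x hx y hy hxy
            rcases Finset.mem_insert.1 hx with hx1 | hx1
            · rcases Finset.mem_insert.1 hy with hy1 | hy1
              · exact absurd (hx1.trans hy1.symm) hxy
              · rw [hx1]
                exact h3 y hy1
            · rcases Finset.mem_insert.1 hy with hy1 | hy1
              · rw [hy1]
                exact fun h5 => h3 x hx1 (hc.lk_symm _ _ h5)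
              · exact hW x hx1 y hy1 hxy)
          rw [Finset.sum_insert hbW, hW1] at h4
          linarith [hc.mu_pos b]
        obtain ⟨a, ha, hab⟩ := h2
        refine SD.AN.div_lim hc₀ hs₀ hT (claim_zeroX hX hc W hW hW1 hκ a ha (hg a ha) _
          (hQ a ha B0) fun A hA => Or.inr ⟨b, hbW, hab, ?_⟩)
        have : b ∈ patX W A := by
          rw [hA]
          exact hb
        exact (Finset.mem_filter.1 this).2.2
  have hsum := tendsto_finset_sum (Finset.univ : Finset (Finset C)) fun B0 _ => hpat B0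
  rw [Finset.sum_ite_eq' Finset.univ ∅ fun _ => (if ∀ a ∈ W, triv a then (1 : ℂ) else 0),
    if_pos (Finset.mem_univ _)] at hsum
  refine hsum.congr' ?_
  obtain ⟨M, n, hM, h12⟩ := one_varC hX hc 0 le_rfl
  have hev : ∀ᶠ s : ℝ in 𝓝[>] 1, s ≤ 2 :=
    (eventually_le_nhds (show (1 : ℝ) < 2 by norm_num)).filter_mono nhdsWithin_le_nhds
  filter_upwards [self_mem_nhdsWithin, hev] with s hs1 hs2
  rw [MX_split hc le_rfl (fun c => ((h12 c).1 s hs1 hs2).1) _ W, Finset.sum_div]

end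

end Pool.Agent.T3h73.SG.XAN3
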