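import Pool.Agent.T3h73.SD.T_BL

/-! Project SG, task YBL (helper74), part a: the large sieve with Hölder's inequality for a separated
family of characters. -/

set_option autoImplicit false
set_option linter.all false

open NumberField IsDedekindDomain Filter Topology

namespace Pool.Agent.T3h73.SG.YBL

open Pool.Agent.T3h73.SL (Pl)
open Pool.Agent.T3h73.SD (ee NA gA S_LS)
open Pool.Agent.T3h73.SD.BL
open Pool.Agent.Y773.G (IsModChar)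
open Pool.Agent.N912.RC (IX)

/-- the large sieve for `E` with the constants `CL`, `D` -/
def LSH (E : Type) [Field E] [NumberField E] (CL D : ℝ) : Prop :=
  ∀ (ι : Type) [Fintype ι] (𝔪 : ι → Ideal (𝓞 E)) (η : ι → Ideal (𝓞 E) →*₀ ℂ) (R Y : ℝ), 1 ≤ R →
  1 ≤ Y → (∀ i, IsModChar (𝔪 i) (fun _ => 0) (η i)) → (∀ i 𝔞, ‖η i 𝔞‖ ≤ 1) →
  (∀ i, (Ideal.absNorm (𝔪 i) : ℝ) ≤ R) →
  (∀ i j, i ≠ j → ∃ α : 𝓞 E, IsCoprime (Ideal.span {α}) (𝔪 i * 𝔪 j) ∧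
    η i (Ideal.span {α}) ≠ η j (Ideal.span {α})) → ∀ ε : ι → ℂ, (∀ i, ‖ε i‖ ≤ 1) →
  ∑ 𝔠 ∈ IX E Y, ‖∑ i, ε i * η i 𝔠‖ ^ 2 ≤
    CL * (Fintype.card ι * Y + (Fintype.card ι : ℝ) ^ 2 * R ^ D * Y ^ (1 - 1 / D))

/-- a separated family of characters with moduli of norm at most `R` -/
structure Fam {E : Type} [Field E] [NumberField E] {Y : Type} (𝒴 : Finset Y)
    (𝔪 : Y → Ideal (𝓞 E)) (η : Y → Ideal (𝓞 E) →*₀ ℂ) (R : ℝ) : Prop where
  mc : ∀ y ∈ 𝒴, IsModChar (𝔪 y) (fun _ => 0) (η y)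
  le : ∀ y ∈ 𝒴, ∀ 𝔞, ‖η y 𝔞‖ ≤ 1
  nm : ∀ y ∈ 𝒴, (Ideal.absNorm (𝔪 y) : ℝ) ≤ R
  sep : ∀ y ∈ 𝒴, ∀ y' ∈ 𝒴, y ≠ y' → ∃ α : 𝓞 E, IsCoprime (Ideal.span {α}) (𝔪 y * 𝔪 y') ∧
    η y (Ideal.span {α}) ≠ η y' (Ideal.span {α})

open Classical in
lemma step {E : Type} [Field E] [NumberField E] {CL D C₁ : ℝ} (hCL : 1 ≤ CL) (hD : 1 ≤ D)
    (hLS : LSH E CL D) (hC₁ : 1 ≤ C₁) (hcount : ∀ x : ℝ, 1 ≤ x → ((IX E x).card : ℝ) ≤ C₁ * x)
    {c₀ k C₅ e : ℝ} (hc₀ : 1 ≤ c₀) (hk : 1 ≤ k) (hC₅ : 1 ≤ C₅) (he0 : 0 < e) (he : e ≤ 1)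
    (n : ℕ) (M N U : ℝ) (hM : 1 ≤ M) (hN : 1 ≤ N) (hU : 0 ≤ U)
    (hMN : N ^ (k * D + 2) ≤ (M ^ (n + 1)) ^ (1 / D))
    {Y : Type} (𝒴 : Finset Y) (𝔪 : Y → Ideal (𝓞 E)) (η : Y → Ideal (𝓞 E) →*₀ ℂ)
    (hfam : Fam 𝒴 𝔪 η (c₀ * N ^ k)) (hcard : (𝒴.card : ℝ) ≤ C₅ * N ^ (1 + e))
    (𝒜 : Finset (Finset (Pl E))) (h𝒜 : ∀ A ∈ 𝒜, (NA A : ℝ) ≤ M)
    (hrep : ∀ c : Ideal (𝓞 E), (((Fintype.piFinset (fun _ : Fin (n + 1) => 𝒜)).filter
      (fun t => ∏ i, II (t i) = c)).card : ℝ) ≤ U)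
    (α : Finset (Pl E) → ℂ) (hα : ∀ A, ‖α A‖ ≤ 1) :
    (∑ y ∈ 𝒴, ‖∑ A ∈ 𝒜, α A * η y (II A)‖) ^ (2 * (n + 1)) ≤
      (C₅ ^ (2 * n) * C₁ ^ (n + 1) * (CL * (C₅ + C₅ ^ 2 * c₀ ^ D))) * U *
        ((N ^ (1 + e)) ^ (2 * n) * N ^ (1 + e)) * (M ^ (n + 1) * M ^ (n + 1)) := by
  set X : ℝ := M ^ (n + 1) with hX
  set V : ℝ := N ^ (1 + e) with hV
  have hX1 : 1 ≤ X := one_le_pow₀ hM
  have hN0 : 0 < N := by linarith
  have hV0 : 0 < V := by positivity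
  have hac : (𝒜.card : ℝ) ≤ C₁ * M := card_le hM hcount 𝒜 h𝒜
  have hR1 : 1 ≤ c₀ * N ^ k := one_le_mul_of_one_le_of_one_le hc₀ (Real.one_le_rpow hN (by linarith))
  set L : ℝ := CL * ((𝒴.card : ℝ) * X + (𝒴.card : ℝ) ^ 2 * (c₀ * N ^ k) ^ D * X ^ (1 - 1 / D)) with hL
  have h1 := holder 𝒜 𝒴 II (fun y => ((η y : Ideal (𝓞 E) →*₀ ℂ) : Ideal (𝓞 E) →* ℂ)) α hα n
    (IX E X) U L (by
      intro t ht
      rw [Fintype.mem_piFinset] at ht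
      rw [mem_IX (by linarith)]
      constructor
      · rw [map_prod, Nat.cast_prod]
        refine (Finset.prod_le_prod (fun _ _ => Nat.cast_nonneg _) (g := fun _ => M) ?_).trans ?_
        · intro i _
          rw [norm_II]
          exact h𝒜 _ (ht i)
        · rw [Finset.prod_const, Finset.card_univ, Fintype.card_fin]
      · exact Finset.prod_ne_zero_iff.2 fun i _ => II_ne_bot _)
    (fun c _ => hrep c)
    (by
      intro ε hε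
      have h2 := hLS 𝒴 (fun i => 𝔪 i.1) (fun i => η i.1) (c₀ * N ^ k) X
        hR1 hX1 (fun i => hfam.mc i.1 i.2)
        (fun i 𝔞 => hfam.le i.1 i.2 𝔞)
        (fun i => hfam.nm i.1 i.2)
        (fun i i' hii => hfam.sep i.1 i.2 i'.1 i'.2 fun h => hii (Subtype.ext h))
        (fun i => ε i.1) (fun i => hε i.1)
      rw [Fintype.card_coe] at h2
      refine le_trans (le_of_eq ?_) h2
      refine Finset.sum_congr rfl fun c _ => ?_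
      congr 2
      exact (Finset.sum_coe_sort 𝒴 (fun B => ε B * η B c)).symm)
  refine h1.trans ?_
  have hb0 : (0 : ℝ) ≤ 𝒴.card := Nat.cast_nonneg _
  have ha0 : (0 : ℝ) ≤ 𝒜.card := Nat.cast_nonneg _
  have e1 : (𝒴.card : ℝ) ^ (2 * n) ≤ C₅ ^ (2 * n) * V ^ (2 * n) := by
    rw [← mul_pow]
    exact pow_le_pow_left₀ hb0 hcard _
  have e2 : (𝒜.card : ℝ) ^ (n + 1) ≤ C₁ ^ (n + 1) * M ^ (n + 1) := by
    rw [← mul_pow]
    exact pow_le_pow_left₀ ha0 hac _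
  have e3 : (𝒴.card : ℝ) ^ 2 * (c₀ * N ^ k) ^ D * X ^ (1 - 1 / D) ≤ C₅ ^ 2 * c₀ ^ D * (V * X) := by
    have f1 : (𝒴.card : ℝ) ^ 2 ≤ C₅ ^ 2 * V ^ 2 := by
      rw [← mul_pow]
      exact pow_le_pow_left₀ hb0 hcard _
    have f2 : (c₀ * N ^ k) ^ D = c₀ ^ D * N ^ (k * D) := by
      rw [Real.mul_rpow (by linarith) (by positivity), ← Real.rpow_mul hN0.le]
    have f3 : X ^ (1 - 1 / D) * N ^ (k * D + 2) ≤ X := by
      have : X ^ (1 - 1 / D) * N ^ (k * D + 2) ≤ X ^ (1 - 1 / D) * X ^ (1 / D) :=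
        mul_le_mul_of_nonneg_left hMN (by positivity)
      refine this.trans (le_of_eq ?_)
      rw [← Real.rpow_add (by linarith)]
      have : 1 - 1 / D + 1 / D = 1 := by ring
      rw [this, Real.rpow_one]
    have f4 : V * N ^ (k * D) ≤ N ^ (k * D + 2) := by
      rw [hV, ← Real.rpow_add hN0]
      exact Real.rpow_le_rpow_of_exponent_le hN (by linarith)
    have f5 : 0 ≤ c₀ ^ D := by positivity
    have f6 : 0 ≤ X ^ (1 - 1 / D) := by positivity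
    calc (𝒴.card : ℝ) ^ 2 * (c₀ * N ^ k) ^ D * X ^ (1 - 1 / D)
        ≤ (C₅ ^ 2 * V ^ 2) * (c₀ * N ^ k) ^ D * X ^ (1 - 1 / D) := by
          refine mul_le_mul_of_nonneg_right (mul_le_mul_of_nonneg_right f1 ?_) f6
          positivity
      _ = C₅ ^ 2 * c₀ ^ D * (V * (X ^ (1 - 1 / D) * (V * N ^ (k * D)))) := by
          rw [f2]
          ring
      _ ≤ C₅ ^ 2 * c₀ ^ D * (V * (X ^ (1 - 1 / D) * N ^ (k * D + 2))) := by
          refine mul_le_mul_of_nonneg_left ?_ (by positivity)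
          refine mul_le_mul_of_nonneg_left ?_ hV0.le
          exact mul_le_mul_of_nonneg_left f4 f6
      _ ≤ C₅ ^ 2 * c₀ ^ D * (V * X) := by
          refine mul_le_mul_of_nonneg_left ?_ (by positivity)
          exact mul_le_mul_of_nonneg_left f3 hV0.le
  have e4 : L ≤ CL * (C₅ + C₅ ^ 2 * c₀ ^ D) * (V * X) := by
    have hasc : CL * (C₅ + C₅ ^ 2 * c₀ ^ D) * (V * X) =
      CL * ((C₅ + C₅ ^ 2 * c₀ ^ D) * (V * X)) := by ring
    rw [hL, hasc]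
    refine mul_le_mul_of_nonneg_left ?_ (by linarith)
    have : (𝒴.card : ℝ) * X ≤ C₅ * (V * X) := by
      rw [← mul_assoc]
      exact mul_le_mul_of_nonneg_right hcard (by linarith)
    nlinarith
  have hL0 : 0 ≤ L := by
    rw [hL]
    positivity
  have hC0 : 0 ≤ C₅ ^ (2 * n) * V ^ (2 * n) := by positivity
  calc (𝒴.card : ℝ) ^ (2 * n) * (U * (𝒜.card : ℝ) ^ (n + 1)) * L
      ≤ (C₅ ^ (2 * n) * V ^ (2 * n)) * (U * (C₁ ^ (n + 1) * M ^ (n + 1))) *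
        (CL * (C₅ + C₅ ^ 2 * c₀ ^ D) * (V * X)) := by
        refine mul_le_mul ?_ e4 hL0 (by positivity)
        refine mul_le_mul e1 (mul_le_mul_of_nonneg_left e2 hU) (by positivity) hC0
    _ = _ := by ring

open Classical in
theorem core (h : S_LS) (E : Type) [Field E] [NumberField E] (k : ℝ) (hk : 1 ≤ k) :
    ∃ r : ℕ, ∀ c₀ C₅ : ℝ, 1 ≤ c₀ → 1 ≤ C₅ → ∃ C : ℝ, 1 ≤ C ∧
    ∀ M N : ℝ, 1 ≤ N → N ≤ M → ∀ (Y : Type) (𝒴 : Finset Y) (𝔪 : Y → Ideal (𝓞 E))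
      (η : Y → Ideal (𝓞 E) →*₀ ℂ), Fam 𝒴 𝔪 η (c₀ * N ^ k) →
      (𝒴.card : ℝ) ≤ C₅ * N ^ (1 + 1 / (4 * (2 * (r : ℝ) + 1))) →
      ∀ 𝒜 : Finset (Finset (Pl E)), (∀ A ∈ 𝒜, (NA A : ℝ) ≤ M) →
      ∀ α : Finset (Pl E) → ℂ, (∀ A, ‖α A‖ ≤ 1) →
      ∑ y ∈ 𝒴, ‖∑ A ∈ 𝒜, α A * η y (II A)‖ ≤ C * M * N ^ (1 - 1 / (4 * ((r : ℝ) + 1))) := by
  obtain ⟨CL, D, hCL, hD, hLS⟩ := h E
  obtain ⟨C₁, hC₁, hcount⟩ := count_IX E
  set F : ℝ := D * (k * D + 2) with hF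
  have hkD : 1 ≤ k * D := one_le_mul_of_one_le_of_one_le hk hD
  have hF1 : 1 ≤ F := by rw [hF]; nlinarith
  set r : ℕ := ⌈F⌉₊ with hr
  refine ⟨r, ?_⟩
  have hrF : F ≤ (r : ℝ) + 1 := (Nat.le_ceil F).trans (by linarith)
  have hr0 : (0 : ℝ) < (r : ℝ) + 1 := by positivity
  have hrn : (0 : ℝ) ≤ r := Nat.cast_nonneg _
  intro c₀ C₅ hc₀ hC₅
  set e : ℝ := 1 / (4 * (2 * (r : ℝ) + 1)) with he
  have he0 : 0 < e := by positivity
  have he1 : e ≤ 1 / 4 := by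
    rw [he]
    refine one_div_le_one_div_of_le (by norm_num) ?_
    linarith
  set t : ℝ := 1 / (4 * ((r : ℝ) + 1)) with ht
  have ht0 : 0 < t := by positivity
  have ht1 : t ≤ 1 / 4 := by
    rw [ht]
    refine one_div_le_one_div_of_le (by norm_num) ?_
    linarith
  set C₂ : ℕ → ℝ := fun n => C₅ ^ (2 * n) * C₁ ^ (n + 1) * (CL * (C₅ + C₅ ^ 2 * c₀ ^ D)) with hC₂
  set ε : ℝ := 1 / (4 * ((r : ℝ) + 1) * F) with hε
  have hε0 : 0 < ε := by positivity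
  obtain ⟨Cε, hCε1, hCε⟩ := rep_le (K := E) r ε hε0
  set C₃ : ℝ := max 1 (max (C₂ 0) (C₂ r * Cε)) with hC₃
  have hC31 : 1 ≤ C₃ := le_max_left _ _
  have hC32 : C₂ 0 ≤ C₃ := (le_max_left _ _).trans (le_max_right _ _)
  have hC33 : C₂ r * Cε ≤ C₃ := (le_max_right _ _).trans (le_max_right _ _)
  refine ⟨C₃, hC31, ?_⟩
  intro M N hN hNM Y 𝒴 𝔪 η hfam hcard 𝒜 h𝒜 α hα
  have hM : 1 ≤ M := hN.trans hNM
  have hN0 : 0 < N := by linarith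
  have hM0 : 0 < M := by linarith
  have hpos : 0 ≤ C₃ * M * N ^ (1 - t) := by positivity
  by_cases hbig : N ^ F ≤ M
  · -- very long: exponent one
    have h1 := step hCL hD hLS hC₁ hcount hc₀ hk hC₅ he0 (by linarith) 0 M N 1 hM hN zero_le_one (by
      have f2 : N ^ (k * D + 2) = (N ^ F) ^ (1 / D) := by
        rw [← Real.rpow_mul hN0.le, hF]
        congr 1
        field_simp
      rw [f2, zero_add, pow_one]
      exact Real.rpow_le_rpow (by positivity) hbig (by positivity)) 𝒴 𝔪 η hfam hcard 𝒜 h𝒜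
      (rep_le_one 𝒜) α hα
    refine le_of_pow_le_pow_left₀ (n := 2 * (0 + 1)) (by norm_num) hpos (h1.trans ?_)
    have f3 : N ^ (1 + e) ≤ (N ^ (1 - t)) ^ 2 := by
      have : (N ^ (1 - t)) ^ 2 = N ^ (2 - 2 * t) := by
        rw [← Real.rpow_natCast, ← Real.rpow_mul hN0.le]
        congr 1
        push_cast
        ring
      rw [this]
      exact Real.rpow_le_rpow_of_exponent_le hN (by linarith)
    have f5 : C₂ 0 ≤ C₃ ^ 2 := hC32.trans (by nlinarith)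
    have f6 : 0 ≤ C₂ 0 := by
      rw [hC₂]
      positivity
    calc C₂ 0 * 1 * ((N ^ (1 + e)) ^ (2 * 0) * N ^ (1 + e)) * (M ^ (0 + 1) * M ^ (0 + 1))
        = C₂ 0 * N ^ (1 + e) * M ^ 2 := by ring
      _ ≤ C₃ ^ 2 * (N ^ (1 - t)) ^ 2 * M ^ 2 := by
          refine mul_le_mul_of_nonneg_right ?_ (by positivity)
          exact mul_le_mul f5 f3 (by positivity) (by positivity)
      _ = (C₃ * M * N ^ (1 - t)) ^ (2 * (0 + 1)) := by ring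
  · push Not at hbig
    have h1 := step hCL hD hLS hC₁ hcount hc₀ hk hC₅ he0 (by linarith) r M N
      (Cε * (M ^ (r + 1)) ^ ε) hM hN (by positivity)
      (by
      have f1 : N ^ (k * D + 2) ≤ N ^ (((r : ℝ) + 1) * (1 / D)) := by
        refine Real.rpow_le_rpow_of_exponent_le hN ?_
        rw [mul_one_div, le_div_iff₀ (by linarith)]
        nlinarith
      refine f1.trans ?_
      rw [Real.rpow_mul hN0.le]
      refine Real.rpow_le_rpow (by positivity) ?_ (by positivity)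
      have : ((r : ℝ) + 1) = ((r + 1 : ℕ) : ℝ) := by push_cast; ring
      rw [this, Real.rpow_natCast]
      exact pow_le_pow_left₀ hN0.le hNM _) 𝒴 𝔪 η hfam hcard 𝒜 h𝒜
      (hCε M hM 𝒜 h𝒜) α hα
    refine le_of_pow_le_pow_left₀ (n := 2 * (r + 1)) (by omega) hpos (h1.trans ?_)
    have f2 : (M ^ (r + 1)) ^ ε ≤ N ^ (1 / 4 : ℝ) := by
      have f3 : M ^ (r + 1) ≤ (N ^ F) ^ (r + 1) := pow_le_pow_left₀ hM0.le hbig.le _
      refine (Real.rpow_le_rpow (by positivity) f3 hε0.le).trans (le_of_eq ?_)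
      rw [← Real.rpow_natCast, ← Real.rpow_mul hN0.le, ← Real.rpow_mul hN0.le]
      congr 1
      rw [hε]
      push_cast
      field_simp
    have f4 : N ^ (1 / 4 : ℝ) * ((N ^ (1 + e)) ^ (2 * r) * N ^ (1 + e)) =
        (N ^ (1 - t)) ^ (2 * (r + 1)) := by
      rw [← pow_succ, ← Real.rpow_natCast, ← Real.rpow_natCast, ← Real.rpow_mul hN0.le,
        ← Real.rpow_mul hN0.le, ← Real.rpow_add hN0]
      congr 1
      rw [he, ht]
      push_cast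
      field_simp
      ring
    have f5 : C₂ r * Cε ≤ C₃ ^ (2 * (r + 1)) :=
      hC33.trans (le_self_pow₀ hC31 (by omega))
    have f6 : 0 ≤ C₂ r := by
      rw [hC₂]
      positivity
    calc C₂ r * (Cε * (M ^ (r + 1)) ^ ε) * ((N ^ (1 + e)) ^ (2 * r) * N ^ (1 + e)) *
          (M ^ (r + 1) * M ^ (r + 1))
        = (C₂ r * Cε) * ((M ^ (r + 1)) ^ ε * ((N ^ (1 + e)) ^ (2 * r) * N ^ (1 + e))) *
          M ^ (2 * (r + 1)) := by ring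
      _ ≤ C₃ ^ (2 * (r + 1)) * (N ^ (1 / 4 : ℝ) * ((N ^ (1 + e)) ^ (2 * r) * N ^ (1 + e))) *
          M ^ (2 * (r + 1)) := by
          refine mul_le_mul_of_nonneg_right ?_ (by positivity)
          refine mul_le_mul f5 ?_ (by positivity) (by positivity)
          exact mul_le_mul_of_nonneg_right f2 (by positivity)
      _ = (C₃ * M * N ^ (1 - t)) ^ (2 * (r + 1)) := by
          rw [f4, ← mul_pow, ← mul_pow]
          congr 1
          ring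

end Pool.Agent.T3h73.SG.YBL
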