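import Pool.Agent.T3h73.SG.StmY
import Pool.Agent.T3h73.SG.T_XMAS

/-! Project SG, task YDN (helper47): cyclic groups; places of the fixed field. -/

set_option autoImplicit false
set_option linter.all false

open NumberField IsDedekindDomain Filter Topology

namespace Pool.Agent.T3h73.SG.YDN

open Pool.Agent.T3h73.SL (Pl)
open Pool.Agent.H921R2.TatePole
open Finset (univ)

section grp

theorem card_gen {G : Type*} [Group G] [Finite G] (D' : Subgroup G) [IsCyclic D'] [Fintype G]
    [DecidableEq G] [DecidablePred (· ∈ D')] [∀ g : G, Decidable (Subgroup.zpowers g = D')] :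
    (univ.filter fun g : G => Subgroup.zpowers g = D').card = Nat.totient (Nat.card D') := by
  classical
  have hcard : Fintype.card D' = Nat.card D' := (Nat.card_eq_fintype_card).symm
  rw [← IsCyclic.card_orderOf_eq_totient (α := D') (d := Nat.card D') (by rw [hcard])]
  symm
  refine Finset.card_bij (fun a _ => (a : G)) ?_ ?_ ?_
  · intro a ha
    rw [Finset.mem_filter] at ha ⊢
    refine ⟨Finset.mem_univ _, ?_⟩
    apply Subgroup.eq_of_le_of_card_ge
    · rw [Subgroup.zpowers_le]
      exact a.2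
    · rw [Nat.card_zpowers, ← ha.2, Subgroup.orderOf_coe]
  · intro a _ b _ h
    exact Subtype.ext h
  · intro g hg
    rw [Finset.mem_filter] at hg
    have h1 : g ∈ D' := by rw [← hg.2]; exact Subgroup.mem_zpowers g
    refine ⟨⟨g, h1⟩, ?_, rfl⟩
    rw [Finset.mem_filter]
    refine ⟨Finset.mem_univ _, ?_⟩
    rw [Subgroup.orderOf_mk, ← Nat.card_zpowers, hg.2]

theorem sum_totient {G : Type*} [Group G] [Finite G] [Fintype (Subgroup G)] (D : Subgroup G)
    [IsCyclic D] [DecidablePred fun D' : Subgroup G => D' ≤ D] :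
    ∑ D' ∈ univ.filter (fun D' : Subgroup G => D' ≤ D), Nat.totient (Nat.card D') = Nat.card D := by
  classical
  have : Fintype G := Fintype.ofFinite G
  have h1 : (univ.filter fun g : G => g ∈ D).card = Nat.card D := by
    rw [Nat.card_eq_fintype_card]
    exact (Fintype.card_subtype _).symm
  rw [← h1, Finset.card_eq_sum_card_fiberwise (f := fun g : G => Subgroup.zpowers g)
    (t := univ.filter (fun D' : Subgroup G => D' ≤ D))]
  · refine Finset.sum_congr rfl fun D' hD' => ?_
    have hle : D' ≤ D := (Finset.mem_filter.1 hD').2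
    have : IsCyclic D' := Subgroup.isCyclic_of_le hle
    rw [← card_gen D']
    congr 1
    ext g
    simp only [Finset.mem_filter, Finset.mem_univ, true_and]
    constructor
    · intro h
      refine ⟨hle ?_, h⟩
      rw [← h]
      exact Subgroup.mem_zpowers g
    · exact fun h => h.2
  · intro g hg
    simp only [Finset.coe_filter, Finset.mem_univ, true_and, Set.mem_ofPred_eq] at hg ⊢
    rwa [Subgroup.zpowers_le]

end grp

section fibre

/-- summation over the fibres -/
theorem fib_tsum {Ω Q : Type*} (π : Ω → Q) (hfin : ∀ q, {w | π w = q}.Finite)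
    (hne : ∀ q, {w | π w = q}.Nonempty) (f : Q → ℝ) (hf0 : ∀ q, 0 ≤ f q) (hs : Summable f) :
    Summable (fun w => f (π w) / ({w' | π w' = π w}.ncard : ℝ)) ∧
      ∑' w, f (π w) / ({w' | π w' = π w}.ncard : ℝ) = ∑' q, f q := by
  set F : Ω → ℝ := fun w => f (π w) / ({w' | π w' = π w}.ncard : ℝ) with hF
  have hF0 : ∀ w, 0 ≤ F w := fun w => div_nonneg (hf0 _) (Nat.cast_nonneg _)
  have hfinT : ∀ q, Finite {w // π w = q} := fun q => (hfin q).to_subtype
  have hval : ∀ (q : Q) (x : {w // π w = q}), F x.1 = f q / ({w' | π w' = q}.ncard : ℝ) := by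
    intro q x
    simp only [hF]
    rw [x.2]
  have hcard : ∀ q, Nat.card {w // π w = q} = {w' | π w' = q}.ncard := fun q =>
    Nat.card_coe_set_eq {w' | π w' = q}
  have hinner : ∀ q, ∑' x : {w // π w = q}, F x.1 = f q := by
    intro q
    have := hfinT q
    rw [tsum_congr (hval q), tsum_const, hcard, nsmul_eq_mul]
    have h0 : ({w' | π w' = q}.ncard : ℝ) ≠ 0 := by
      have := (Set.ncard_pos (hfin q)).2 (hne q)
      positivity
    field_simp
  let e := Equiv.sigmaFiberEquiv π
  have hsig : Summable fun x : (Σ q, {w // π w = q}) => F x.2.1 := by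
    rw [summable_sigma_of_nonneg fun x => hF0 _]
    refine ⟨fun q => ?_, ?_⟩
    · have := hfinT q
      exact Summable.of_finite
    · simp only [hinner]
      exact hs
  have hsum : Summable F := (e.summable_iff (f := F)).1 hsig
  refine ⟨hsum, ?_⟩
  rw [← e.tsum_eq F]
  change ∑' x : (Σ q, {w // π w = q}), F x.2.1 = _
  rw [hsig.tsum_sigma]
  exact tsum_congr hinner

end fibre

section
variable {K M : Type} [Field K] [NumberField K] [Field M] [NumberField M] [Algebra K M]

/-- the decomposition group of a place -/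
def dec (h1 : ∀ w : Pl M, gp (1 : M ≃ₐ[K] M) w = w)
    (h2 : ∀ (g h : M ≃ₐ[K] M) (w : Pl M), gp (g * h) w = gp g (gp h w)) (w : Pl M) :
    Subgroup (M ≃ₐ[K] M) where
  carrier := {g | gp g w = w}
  one_mem' := h1 w
  mul_mem' := by
    intro a b ha hb
    have ha' : gp a w = w := ha
    have hb' : gp b w = w := hb
    change gp (a * b) w = w
    rw [h2, hb', ha']
  inv_mem' := by
    intro a ha
    have ha' : gp a w = w := ha
    change gp a⁻¹ w = w
    calc gp a⁻¹ w = gp a⁻¹ (gp a w) := by rw [ha']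
      _ = gp (a⁻¹ * a) w := (h2 _ _ _).symm
      _ = w := by rw [inv_mul_cancel, h1]

/-- the places of the fixed field -/
theorem loc (hPLC : S_PLC) (hPLE : S_PLE) [IsGalois K M] {S : Finset (Pl K)} (hU : Unr K M S)
    (D : Subgroup (M ≃ₐ[K] M)) (w : Pl M) (hw : (lo w : Pl K) ∉ S) (Dw : Subgroup (M ≃ₐ[K] M))
    (hDw : DG w Dw) :
    {w' : Pl M | (lo w' : Pl (IntermediateField.fixedField D)) = lo w}.ncard *
        Nat.card (Dw ⊓ D : Subgroup (M ≃ₐ[K] M)) = Nat.card D ∧
      nm (lo w : Pl (IntermediateField.fixedField D)) ^ Nat.card (Dw ⊓ D : Subgroup (M ≃ₐ[K] M)) =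
        nm (lo w : Pl K) ^ Nat.card Dw := by
  obtain ⟨-, p2, p3, -⟩ := hPLC (IntermediateField.fixedField D) M
  obtain ⟨-, q2, -, q4, -⟩ := hPLE K (IntermediateField.fixedField D) M S hU w hw
  set φ := IntermediateField.subgroupEquivAlgEquiv D with hφ
  have hφr : ∀ g : D, (φ g).restrictScalars K = (g : M ≃ₐ[K] M) := by
    intro g
    ext x
    rfl
  obtain ⟨r1, r2⟩ := q4 (dec p2 p3 w) (fun g => Iff.rfl)
  have hc1 : Nat.card (dec p2 p3 w) = Nat.card (Dw ⊓ D : Subgroup (M ≃ₐ[K] M)) := by
    symm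
    refine Nat.card_eq_of_bijective (fun g : (Dw ⊓ D : Subgroup (M ≃ₐ[K] M)) =>
      (⟨φ ⟨g.1, (Subgroup.mem_inf.1 g.2).2⟩, ?_⟩ : dec p2 p3 w)) ⟨?_, ?_⟩
    · change gp (φ ⟨g.1, (Subgroup.mem_inf.1 g.2).2⟩) w = w
      rw [q2, hφr]
      exact (hDw g.1).1 (Subgroup.mem_inf.1 g.2).1
    · intro g g' h
      have h1 := congrArg Subtype.val h
      simp only at h1
      have h2 := congrArg Subtype.val (φ.injective h1)
      exact Subtype.ext h2
    · intro x
      have hx : gp x.1 w = w := x.2
      have h3 : φ (φ.symm x.1) = x.1 := φ.apply_symm_apply _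
      have h4 : gp ((φ.symm x.1 : D) : M ≃ₐ[K] M) w = w := by
        rw [← hφr, ← q2, h3]
        exact hx
      refine ⟨⟨(φ.symm x.1 : D), Subgroup.mem_inf.2 ⟨(hDw _).2 h4, (φ.symm x.1 : D).2⟩⟩, ?_⟩
      apply Subtype.ext
      simp only
      exact h3
  have hc2 : Nat.card (M ≃ₐ[IntermediateField.fixedField D] M) = Nat.card D :=
    (Nat.card_congr φ.toEquiv).symm
  rw [hc1] at r1 r2
  rw [hc2] at r2
  refine ⟨r2, ?_⟩
  have h5 := ((hU w hw).2 Dw hDw).2.1
  change Ideal.absNorm _ ^ _ = Ideal.absNorm _ ^ _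
  rw [← r1, h5]

end

end Pool.Agent.T3h73.SG.YDN
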