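import Pool.Agent.T3h73.SG.StmZ
import Pool.Agent.T3h73.SN.T_GDUW

/-!
# Project SG: common lemmas for the tasks ZUN, ZUY, ZMF (helper7)
-/

set_option autoImplicit false
set_option linter.all false

open Module

namespace Pool.Agent.T3h73.SG.ZB7

open Pool.Agent.T3h73.SD (Cl)
open Pool.Agent.T3h73.SN (Sz ClW slc)
open Pool.Agent.T3h73.SN.GDUW (two_ne)

section form
variable {ℓ k : ℕ} [Fact ℓ.Prime]

/-- the bilinear form -/
noncomputable def BL (ℓ k : ℕ) [Fact ℓ.Prime] : LinearMap.BilinForm (ZMod ℓ) (Cl ℓ k) :=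
  LinearMap.mk₂ (ZMod ℓ) (fun x y => ∑ s, (x.1 s * y.2 s + y.1 s * x.2 s))
    (by
      intro x x' y
      rw [← Finset.sum_add_distrib]
      refine Finset.sum_congr rfl fun s _ => ?_
      simp only [Prod.fst_add, Prod.snd_add, Pi.add_apply]
      ring)
    (by
      intro c x y
      rw [smul_eq_mul, Finset.mul_sum]
      refine Finset.sum_congr rfl fun s _ => ?_
      simp only [Prod.smul_fst, Prod.smul_snd, Pi.smul_apply, smul_eq_mul]
      ring)
    (by
      intro x y y'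
      rw [← Finset.sum_add_distrib]
      refine Finset.sum_congr rfl fun s _ => ?_
      simp only [Prod.fst_add, Prod.snd_add, Pi.add_apply]
      ring)
    (by
      intro c x y
      rw [smul_eq_mul, Finset.mul_sum]
      refine Finset.sum_congr rfl fun s _ => ?_
      simp only [Prod.smul_fst, Prod.smul_snd, Pi.smul_apply, smul_eq_mul]
      ring)

lemma BL_apply (x y : Cl ℓ k) : BL ℓ k x y = ∑ s, (x.1 s * y.2 s + y.1 s * x.2 s) := rfl

lemma BL_symm (x y : Cl ℓ k) : BL ℓ k x y = BL ℓ k y x := by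
  rw [BL_apply, BL_apply]
  exact Finset.sum_congr rfl fun s _ => by ring

lemma BL_sep (x : Cl ℓ k) (h : ∀ y, BL ℓ k x y = 0) : x = 0 := by
  classical
  refine Prod.ext ?_ ?_
  · funext s
    have h1 := h (0, Pi.single s 1)
    rw [BL_apply] at h1
    simpa [Pi.single_apply] using h1
  · funext s
    have h1 := h (Pi.single s 1, 0)
    rw [BL_apply] at h1
    simpa [Pi.single_apply] using h1

lemma BL_nondeg : (BL ℓ k).Nondegenerate := by
  refine ⟨fun x h => BL_sep x h, fun x h => BL_sep x fun y => ?_⟩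
  rw [BL_symm]
  exact h y

lemma BL_refl : (BL ℓ k).IsRefl := by
  intro x y h
  rw [BL_symm]
  exact h

/-- the quadratic form -/
def qf (x : Cl ℓ k) : ZMod ℓ := ∑ s, x.1 s * x.2 s

lemma two_qf (x : Cl ℓ k) : 2 * qf x = BL ℓ k x x := by
  rw [BL_apply, qf, Finset.mul_sum]
  exact Finset.sum_congr rfl fun s _ => by ring

lemma qf_zero (h2 : ℓ ≠ 2) (x : Cl ℓ k) (h : BL ℓ k x x = 0) : qf x = 0 := by
  rw [← two_qf] at h
  exact (mul_eq_zero.mp h).resolve_left (two_ne h2)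

lemma finrank_Cl : finrank (ZMod ℓ) (Cl ℓ k) = 2 * k := by
  rw [Module.finrank_prod, Module.finrank_fin_fun]
  ring

end form

section colours
variable {ℓ n k : ℕ} {G : Type} [Group G] {pm : G →* Equiv.Perm (Fin n)}

lemma slc_aC (g : G) (a : ClW ℓ n k) (i : Fin n) : slc (aC pm g a) i = slc a ((pm g)⁻¹ i) := rfl

lemma slc_sub (a b : ClW ℓ n k) (i : Fin n) : slc (a - b) i = slc a i - slc b i := rfl

lemma slc_ext {a b : ClW ℓ n k} (h : ∀ i, slc a i = slc b i) : a = b := by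
  refine Prod.ext ?_ ?_
  · funext s
    apply Subtype.ext
    funext i
    exact congrFun (congrArg Prod.fst (h i)) s
  · funext s
    apply Subtype.ext
    funext i
    exact congrFun (congrArg Prod.snd (h i)) s

lemma sum_slc (a : ClW ℓ n k) : ∑ i, slc a i = 0 := by
  refine Prod.ext ?_ ?_
  · rw [Prod.fst_sum]
    funext s
    rw [Finset.sum_apply]
    exact (a.1 s).2
  · rw [Prod.snd_sum]
    funext s
    rw [Finset.sum_apply]
    exact (a.2 s).2

lemma QW_eq [Fact ℓ.Prime] (a : ClW ℓ n k) : QW a = ∑ i, qf (slc a i) := by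
  rw [QW, Finset.sum_comm]
  rfl

lemma QW_aC [Fact ℓ.Prime] (g : G) (a : ClW ℓ n k) : QW (aC pm g a) = QW a := by
  rw [QW_eq, QW_eq]
  simp only [slc_aC]
  exact Equiv.sum_comp ((pm g)⁻¹) (fun i => qf (slc a i))

lemma qf_sub [Fact ℓ.Prime] (x y : Cl ℓ k) : qf (x - y) = qf x + qf y - BL ℓ k x y := by
  rw [qf, qf, qf, BL_apply, ← Finset.sum_add_distrib, ← Finset.sum_sub_distrib]
  refine Finset.sum_congr rfl fun s _ => ?_
  simp only [Prod.fst_sub, Prod.snd_sub, Pi.sub_apply]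
  ring

lemma QW_sub [Fact ℓ.Prime] (a b : ClW ℓ n k) :
    QW (a - b) = QW a + QW b - ∑ i, BL ℓ k (slc a i) (slc b i) := by
  rw [QW_eq, QW_eq, QW_eq, ← Finset.sum_add_distrib, ← Finset.sum_sub_distrib]
  refine Finset.sum_congr rfl fun i _ => ?_
  rw [slc_sub, qf_sub]

lemma cast_ne [Fact ℓ.Prime] {m : ℕ} (h : ¬ ℓ ∣ m) : (m : ZMod ℓ) ≠ 0 := by
  rwa [Ne, ZMod.natCast_eq_zero_iff]

/-- the sum of the translates is zero -/
lemma sum_trans [Fact ℓ.Prime] [Fintype G] (h : GPm ℓ n G pm) (a : ClW ℓ n k) (i : Fin n) :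
    ∑ g : G, slc a ((pm g)⁻¹ i) = 0 := by
  have h1 : ∀ j : Fin n, ∑ g : G, slc a ((pm g)⁻¹ j) = ∑ g : G, slc a ((pm g)⁻¹ i) := by
    intro j
    obtain ⟨γ, hγ⟩ := h.tr i j
    rw [← Equiv.sum_comp (Equiv.mulLeft γ) (fun g => slc a ((pm g)⁻¹ j))]
    refine Finset.sum_congr rfl fun g _ => ?_
    rw [Equiv.coe_mulLeft, map_mul, mul_inv_rev, Equiv.Perm.mul_apply]
    congr 2
    rw [← hγ]
    exact Equiv.symm_apply_apply _ _
  have h2 : ∑ j : Fin n, ∑ g : G, slc a ((pm g)⁻¹ j) = 0 := by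
    rw [Finset.sum_comm]
    refine Finset.sum_eq_zero fun g _ => ?_
    rw [Equiv.sum_comp ((pm g)⁻¹) (fun i => slc a i), sum_slc]
  rw [Finset.sum_congr rfl fun j _ => h1 j, Finset.sum_const, Finset.card_univ, Fintype.card_fin,
    ← Nat.cast_smul_eq_nsmul (ZMod ℓ)] at h2
  exact (smul_eq_zero.mp h2).resolve_left (cast_ne h.hn)

/-- the consequence of unlinkedness -/
lemma key [Fact ℓ.Prime] [Finite G] (h : GPm ℓ n G pm) (a b : ClW ℓ n k)
    (hab : ∀ g : G, QW (aC pm g a - b) = 0) :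
    QW a + QW b = 0 ∧ ∀ i j, BL ℓ k (slc a i) (slc b j) = 0 := by
  classical
  haveI := Fintype.ofFinite G
  have h1 : ∀ g : G, QW a + QW b - ∑ i, BL ℓ k (slc a ((pm g)⁻¹ i)) (slc b i) = 0 := by
    intro g
    rw [← hab g, QW_sub, QW_aC]
    rfl
  have h2 : QW a + QW b = 0 := by
    have h3 : ∑ g : G, (QW a + QW b - ∑ i, BL ℓ k (slc a ((pm g)⁻¹ i)) (slc b i)) = 0 :=
      Finset.sum_eq_zero fun g _ => h1 g
    rw [Finset.sum_sub_distrib, Finset.sum_comm] at h3
    have h4 : ∑ i, ∑ g : G, BL ℓ k (slc a ((pm g)⁻¹ i)) (slc b i) = 0 := by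
      refine Finset.sum_eq_zero fun i _ => ?_
      have := congrArg (fun x => BL ℓ k x (slc b i)) (sum_trans h a i)
      simpa only [map_sum, LinearMap.sum_apply, map_zero, LinearMap.zero_apply] using this
    rw [h4, sub_zero, Finset.sum_const, Finset.card_univ, ← Nat.card_eq_fintype_card,
      nsmul_eq_mul] at h3
    exact (mul_eq_zero.mp h3).resolve_left (cast_ne h.hG)
  refine ⟨h2, ?_⟩
  have h5 : ∀ i j, BL ℓ k (slc a j) (slc b i) = 0 := by
    refine h.span (fun i j => BL ℓ k (slc a j) (slc b i)) ?_ ?_ ?_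
    · intro i
      have := congrArg (fun x => BL ℓ k x (slc b i)) (sum_slc a)
      simpa only [map_sum, LinearMap.sum_apply, map_zero, LinearMap.zero_apply] using this
    · intro j
      have := congrArg (fun x => BL ℓ k (slc a j) x) (sum_slc b)
      simpa only [map_sum, map_zero] using this
    · intro g
      have h6 := h1 g
      rw [h2, zero_sub, neg_eq_zero] at h6
      rw [← h6]
      rw [← Equiv.sum_comp (pm g) (fun i => BL ℓ k (slc a ((pm g)⁻¹ i)) (slc b i))]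
      refine Finset.sum_congr rfl fun i _ => ?_
      have h7 : (pm g)⁻¹ ((pm g) i) = i := Equiv.symm_apply_apply _ _
      rw [h7]
  exact fun i j => h5 j i

/-- invariant families of sum zero -/
abbrev FI (pm : G →* Equiv.Perm (Fin n)) (D : Subgroup G) (M : Type) [AddCommGroup M] : Type :=
  {x : Fin n → M // ∑ i, x i = 0 ∧ ∀ g ∈ D, ∀ i, x ((pm g)⁻¹ i) = x i}

lemma card_FI_zmod (D : Subgroup G) : Nat.card (FI pm D (ZMod ℓ)) = wD pm ℓ D := by
  refine Nat.card_congr
    { toFun := fun x => ⟨⟨x.1, x.2.1⟩, fun g hg => Subtype.ext (funext fun i => x.2.2 g hg i)⟩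
      invFun := fun c => ⟨(c.1 : Fin n → ZMod ℓ), c.1.2, fun g hg i =>
        congrFun (congrArg Subtype.val (c.2 g hg)) i⟩
      left_inv := fun x => rfl
      right_inv := fun c => rfl }

/-- change of the module -/
def FI_congr (D : Subgroup G) {M N : Type} [AddCommGroup M] [AddCommGroup N] (e : M ≃+ N) :
    FI pm D M ≃ FI pm D N where
  toFun x := ⟨fun i => e (x.1 i), by rw [← map_sum, x.2.1, map_zero],
    fun g hg i => congrArg e (x.2.2 g hg i)⟩
  invFun y := ⟨fun i => e.symm (y.1 i), by rw [← map_sum, y.2.1, map_zero],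
    fun g hg i => congrArg e.symm (y.2.2 g hg i)⟩
  left_inv x := Subtype.ext (funext fun i => e.symm_apply_apply _)
  right_inv y := Subtype.ext (funext fun i => e.apply_symm_apply _)

/-- families with values in a product -/
def FI_pi (D : Subgroup G) {r : ℕ} {M : Type} [AddCommGroup M] :
    FI pm D (Fin r → M) ≃ (Fin r → FI pm D M) where
  toFun x := fun s => ⟨fun i => x.1 i s, by
    have := congrFun x.2.1 s
    rwa [Finset.sum_apply] at this, fun g hg i => congrFun (x.2.2 g hg i) s⟩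
  invFun y := ⟨fun i s => (y s).1 i, by
    funext s
    rw [Finset.sum_apply]
    exact (y s).2.1, fun g hg i => funext fun s => (y s).2.2 g hg i⟩
  left_inv x := rfl
  right_inv y := rfl

/-- the invariant colours with slices in a subspace -/
def FI_Y (D : Subgroup G) [Fact ℓ.Prime] (Y : Submodule (ZMod ℓ) (Cl ℓ k)) :
    {a : ClW ℓ n k // (∀ g ∈ D, aC pm g a = a) ∧ ∀ i, slc a i ∈ Y} ≃ FI pm D Y where
  toFun a := ⟨fun i => ⟨slc a.1 i, a.2.2 i⟩, by
    apply Subtype.ext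
    rw [Submodule.coe_sum, Submodule.coe_zero]
    exact sum_slc a.1, fun g hg i => Subtype.ext (by
      show slc a.1 ((pm g)⁻¹ i) = slc a.1 i
      rw [← slc_aC, a.2.1 g hg])⟩
  invFun y :=
    have h : ∑ i, ((y.1 i : Y) : Cl ℓ k) = 0 := by
      have h2 := congrArg Subtype.val y.2.1
      rwa [Submodule.coe_sum, Submodule.coe_zero] at h2
    ⟨(fun s => ⟨fun i => ((y.1 i : Y) : Cl ℓ k).1 s, by
        have h3 := congrFun (congrArg Prod.fst h) s
        rw [Prod.fst_sum, Finset.sum_apply] at h3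
        exact h3⟩,
      fun s => ⟨fun i => ((y.1 i : Y) : Cl ℓ k).2 s, by
        have h3 := congrFun (congrArg Prod.snd h) s
        rw [Prod.snd_sum, Finset.sum_apply] at h3
        exact h3⟩),
      fun g hg => slc_ext fun i => by
        show ((y.1 ((pm g)⁻¹ i) : Y) : Cl ℓ k) = ((y.1 i : Y) : Cl ℓ k)
        rw [y.2.2 g hg i],
      fun i => (y.1 i).2⟩
  left_inv a := rfl
  right_inv y := rfl

lemma card_inv [Fact ℓ.Prime] (D : Subgroup G) (Y : Submodule (ZMod ℓ) (Cl ℓ k)) :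
    Nat.card {a : ClW ℓ n k // (∀ g ∈ D, aC pm g a = a) ∧ ∀ i, slc a i ∈ Y} =
      wD pm ℓ D ^ finrank (ZMod ℓ) Y := by
  have e := (finBasis (ZMod ℓ) Y).equivFun.toAddEquiv
  rw [Nat.card_congr (FI_Y D Y), Nat.card_congr (FI_congr D e), Nat.card_congr (FI_pi D),
    Nat.card_fun, card_FI_zmod, Nat.card_fin]

lemma finite_sub [Fact ℓ.Prime] (D : Subgroup G) :
    Finite {c : Sz ℓ n (ZMod ℓ) // ∀ g ∈ D, aW pm g c = c} := by
  haveI : NeZero ℓ := ⟨(Fact.out : ℓ.Prime).ne_zero⟩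
  infer_instance

lemma wD_pos [Fact ℓ.Prime] (D : Subgroup G) : 0 < wD pm ℓ D := by
  haveI : NeZero ℓ := ⟨(Fact.out : ℓ.Prime).ne_zero⟩
  haveI : Nonempty {c : Sz ℓ n (ZMod ℓ) // ∀ g ∈ D, aW pm g c = c} :=
    ⟨⟨0, fun g _ => rfl⟩⟩
  exact Nat.card_pos

open Classical in
/-- the number of the colours of type `D` with slices in `Y` -/
lemma card_UY [Finite G] [Fact ℓ.Prime] (D : Subgroup G) (hD : IsCyclic D)
    (Y : Submodule (ZMod ℓ) (Cl ℓ k)) :
    ((UY pm Y).filter fun x => x.1.1 = D).card = 2 * wD pm ℓ D ^ finrank (ZMod ℓ) Y := by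
  have e : {x // x ∈ (UY pm Y).filter fun x => x.1.1 = D} ≃
      {a : ClW ℓ n k // (∀ g ∈ D, aC pm g a = a) ∧ ∀ i, slc a i ∈ Y} × Fin 2 :=
    { toFun := fun x => (⟨x.1.1.2.1, by
          have h1 := Finset.mem_filter.mp x.2
          exact ⟨fun g hg => x.1.2.2 g (by rw [h1.2]; exact hg), (Finset.mem_filter.mp h1.1).2⟩⟩,
        x.1.1.2.2)
      invFun := fun a => ⟨⟨(D, a.1.1, a.2), hD, a.1.2.1⟩,
        Finset.mem_filter.mpr ⟨Finset.mem_filter.mpr ⟨Finset.mem_univ _, a.1.2.2⟩, rfl⟩⟩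
      left_inv := fun x => by
        have h1 := (Finset.mem_filter.mp x.2).2
        apply Subtype.ext
        apply Subtype.ext
        exact Prod.ext h1.symm rfl
      right_inv := fun a => rfl }
  rw [← Fintype.card_coe, ← Nat.card_eq_fintype_card, Nat.card_congr e, Nat.card_prod, card_inv,
    Nat.card_fin, mul_comm]

lemma mem_UY [Finite G] [Fact ℓ.Prime] {Y : Submodule (ZMod ℓ) (Cl ℓ k)} {x : CG pm ℓ k} :
    x ∈ UY pm Y ↔ ∀ i, slc x.1.2.1 i ∈ Y := by
  classical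
  exact ⟨fun h => (Finset.mem_filter.mp h).2, fun h => Finset.mem_filter.mpr
    ⟨Finset.mem_univ _, h⟩⟩

lemma aC_one (a : ClW ℓ n k) : aC pm 1 a = a := by
  apply slc_ext
  intro i
  rw [slc_aC, map_one, inv_one, Equiv.Perm.one_apply]

/-- a nonzero invariant family gives many of them -/
lemma le_wD [Fact ℓ.Prime] (D : Subgroup G) (c : Sz ℓ n (ZMod ℓ)) (hc : c ≠ 0)
    (hD : ∀ g ∈ D, aW pm g c = c) : ℓ ≤ wD pm ℓ D := by
  haveI : NeZero ℓ := ⟨(Fact.out : ℓ.Prime).ne_zero⟩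
  have h1 : Function.Injective (fun t : ZMod ℓ =>
      (⟨t • c, fun g hg => by
        have h2 : aW pm g (t • c) = t • aW pm g c := rfl
        rw [h2, hD g hg]⟩ : {c : Sz ℓ n (ZMod ℓ) // ∀ g ∈ D, aW pm g c = c})) := by
    intro t t' htt
    have h3 := congrArg Subtype.val htt
    exact smul_left_injective (ZMod ℓ) hc h3
  have h4 := Nat.card_le_card_of_injective _ h1
  rwa [Nat.card_zmod] at h4

lemma three_le [Fact ℓ.Prime] (h2 : ℓ ≠ 2) : 3 ≤ ℓ := by
  have := (Fact.out : ℓ.Prime).two_le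
  omega

end colours

end Pool.Agent.T3h73.SG.ZB7
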