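import Pool.Agent.T3h73.SD.Stm2

/-!
# Project SG, task ZEU, part A (helper49): `gA Q` is at most a power of the logarithm of the norm
-/

set_option autoImplicit false
set_option linter.all false

open NumberField IsDedekindDomain

namespace Pool.Agent.T3h73.SG.ZEU
open Pool.Agent.T3h73.SL (Pl IsP Pk loc)
open Pool.Agent.T3h73.SD (ee NA gA)

variable {K : Type} [Field K] [NumberField K]

/-- the number of places with a given norm -/
lemma card_norm (Q : Finset (Pl K)) (n : ℕ) (hn : 2 ≤ n)
    (hQ : ∀ q ∈ Q, Ideal.absNorm q.asIdeal = n) : Q.card ≤ Module.finrank ℤ (𝓞 K) := by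
  have h1 : ∏ q ∈ Q, q.asIdeal ∣ Ideal.span {((n : ℕ) : 𝓞 K)} := by
    have hinj : Set.InjOn (fun q : Pl K => q.asIdeal) (Q : Set (Pl K)) := by
      intro a _ b _ h
      exact HeightOneSpectrum.ext h
    rw [← Finset.prod_image (f := fun I : Ideal (𝓞 K) => I) hinj]
    refine Finset.prod_primes_dvd _ ?_ ?_
    · intro I hI
      obtain ⟨q, hq, rfl⟩ := Finset.mem_image.1 hI
      exact q.prime
    · intro I hI
      obtain ⟨q, hq, rfl⟩ := Finset.mem_image.1 hI
      rw [Ideal.dvd_span_singleton, ← hQ q hq]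
      exact Ideal.absNorm_mem _
  have h2 := Ideal.absNorm_dvd_absNorm_of_le (Ideal.le_of_dvd h1)
  rw [Ideal.absNorm_span_natCast, map_prod, Finset.prod_congr rfl hQ, Finset.prod_const] at h2
  exact (Nat.pow_dvd_pow_iff_le_right (by omega)).1 h2

lemma two_le_norm (q : Pl K) : 2 ≤ Ideal.absNorm q.asIdeal := by
  have h1 : Ideal.absNorm q.asIdeal ≠ 0 := by
    rw [Ne, Ideal.absNorm_eq_zero_iff]
    exact q.ne_bot
  have h2 : Ideal.absNorm q.asIdeal ≠ 1 := by
    rw [Ne, Ideal.absNorm_eq_one_iff]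
    exact q.isPrime.ne_top
  omega

lemma prod_tele (m : ℕ) : ∏ n ∈ Finset.Icc 1 m, (1 + 1 / (n : ℝ)) = m + 1 := by
  induction m with
  | zero => simp
  | succ m ih =>
    rw [Finset.prod_Icc_succ_top (by omega), ih]
    push_cast
    have : (m : ℝ) + 1 ≠ 0 := by positivity
    field_simp

open Classical in
/-- `∏ (1 + 1 / N q)` grows at most like a power of the logarithm -/
lemma gA_le (Q : Finset (Pl K)) : gA Q ≤ Real.exp 1 * ((Q.card : ℝ) + 1) ^ Module.finrank ℤ (𝓞 K) := by
  rcases Nat.eq_zero_or_pos Q.card with h0 | hpos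
  · rw [Finset.card_eq_zero.1 h0]
    unfold gA
    simp
  obtain ⟨m, hm⟩ : ∃ m, m = Q.card := ⟨_, rfl⟩
  rw [← hm] at hpos ⊢
  have hmr : (0 : ℝ) < m := by exact_mod_cast hpos
  unfold gA
  rw [← Finset.prod_filter_mul_prod_filter_not Q (fun q => m < Ideal.absNorm q.asIdeal)]
  refine mul_le_mul ?_ ?_ (Finset.prod_nonneg fun q _ => by positivity) (Real.exp_pos _).le
  · calc ∏ q ∈ Q with m < Ideal.absNorm q.asIdeal, (1 + 1 / (Ideal.absNorm q.asIdeal : ℝ)) ≤
        ∏ q ∈ Q with m < Ideal.absNorm q.asIdeal, Real.exp (1 / m) := by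
          refine Finset.prod_le_prod (fun q _ => by positivity) fun q hq => ?_
          rw [Finset.mem_filter] at hq
          have h1 : (m : ℝ) ≤ Ideal.absNorm q.asIdeal := by exact_mod_cast hq.2.le
          have h2 : 1 / (Ideal.absNorm q.asIdeal : ℝ) ≤ 1 / m := one_div_le_one_div_of_le hmr h1
          have h3 := Real.add_one_le_exp (1 / (m : ℝ))
          linarith
      _ = Real.exp (1 / m) ^ (Q.filter fun q => m < Ideal.absNorm q.asIdeal).card := Finset.prod_const _
      _ ≤ Real.exp (1 / m) ^ m := by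
          refine pow_le_pow_right₀ (Real.one_le_exp (by positivity)) ?_
          rw [hm]
          exact Finset.card_filter_le _ _
      _ = Real.exp 1 := by
          rw [← Real.exp_nat_mul]
          congr 1
          field_simp
  · calc ∏ q ∈ Q with ¬ m < Ideal.absNorm q.asIdeal, (1 + 1 / (Ideal.absNorm q.asIdeal : ℝ)) =
        ∏ n ∈ Finset.Icc 1 m, ∏ q ∈ (Q.filter fun q => ¬ m < Ideal.absNorm q.asIdeal) with
          Ideal.absNorm q.asIdeal = n, (1 + 1 / (Ideal.absNorm q.asIdeal : ℝ)) := by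
          symm
          refine Finset.prod_fiberwise_of_maps_to (fun q hq => ?_) _
          rw [Finset.mem_filter] at hq
          rw [Finset.mem_Icc]
          exact ⟨by have := two_le_norm q; omega, by omega⟩
      _ ≤ ∏ n ∈ Finset.Icc 1 m, (1 + 1 / (n : ℝ)) ^ Module.finrank ℤ (𝓞 K) := by
          refine Finset.prod_le_prod (fun n _ => Finset.prod_nonneg fun q _ => by positivity) fun n hn => ?_
          have h1 : ∀ q ∈ ((Q.filter fun q => ¬ m < Ideal.absNorm q.asIdeal).filter fun q =>
              Ideal.absNorm q.asIdeal = n), (1 + 1 / (Ideal.absNorm q.asIdeal : ℝ)) = 1 + 1 / (n : ℝ) := by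
            intro q hq
            rw [(Finset.mem_filter.1 hq).2]
          rw [Finset.prod_congr rfl h1, Finset.prod_const]
          refine pow_le_pow_right₀ (by
            have : (0 : ℝ) ≤ 1 / (n : ℝ) := by positivity
            linarith) ?_
          by_cases h2 : 2 ≤ n
          · exact card_norm _ n h2 fun q hq => (Finset.mem_filter.1 hq).2
          · rw [Finset.card_eq_zero.2]
            · exact Nat.zero_le _
            · rw [Finset.filter_eq_empty_iff]
              intro q _ h3
              have := two_le_norm q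
              omega
      _ = (m + 1) ^ Module.finrank ℤ (𝓞 K) := by
          rw [Finset.prod_pow, prod_tele]

lemma card_le_log (Q : Finset (Pl K)) : (Q.card : ℝ) ≤ 2 * Real.log (NA Q) := by
  have h1 : (2 : ℝ) ^ Q.card ≤ NA Q := by
    unfold NA
    push_cast
    rw [← Finset.prod_const]
    refine Finset.prod_le_prod (fun _ _ => by norm_num) fun q _ => ?_
    exact_mod_cast two_le_norm q
  have h2 := Real.log_le_log (by positivity) h1
  rw [Real.log_pow] at h2
  have h3 : (1 : ℝ) / 2 ≤ Real.log 2 := by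
    have := Real.log_two_gt_d9
    linarith
  have h4 : (0 : ℝ) ≤ Q.card := by positivity
  nlinarith

/-- `gA` is at most a power of the logarithm of the norm -/
lemma gA_log (K : Type) [Field K] [NumberField K] : ∃ C : ℝ, 0 < C ∧ ∀ Q : Finset (Pl K), gA Q ≤ C * (1 + Real.log (NA Q)) ^ C := by
  obtain ⟨d, hd⟩ : ∃ d, d = Module.finrank ℤ (𝓞 K) := ⟨_, rfl⟩
  obtain ⟨C, hC⟩ : ∃ C : ℝ, C = max (Real.exp 1 * 2 ^ d) (max d 1) := ⟨_, rfl⟩
  have hC1 : Real.exp 1 * 2 ^ d ≤ C := by rw [hC]; exact le_max_left _ _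
  have hC2 : (d : ℝ) ≤ C := by rw [hC]; exact (le_max_left _ _).trans (le_max_right _ _)
  have hC3 : (1 : ℝ) ≤ C := by rw [hC]; exact (le_max_right _ _).trans (le_max_right _ _)
  refine ⟨C, by linarith, fun Q => ?_⟩
  have h1 := gA_le Q
  have h2 := card_le_log Q
  have h3 : (0 : ℝ) ≤ Real.log (NA Q) := Real.log_natCast_nonneg _
  rw [← hd] at h1
  calc gA Q ≤ Real.exp 1 * ((Q.card : ℝ) + 1) ^ d := h1
    _ ≤ Real.exp 1 * (2 * (1 + Real.log (NA Q))) ^ d := by
        refine mul_le_mul_of_nonneg_left ?_ (Real.exp_pos _).le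
        exact pow_le_pow_left₀ (by positivity) (by linarith) _
    _ = (Real.exp 1 * 2 ^ d) * (1 + Real.log (NA Q)) ^ (d : ℝ) := by
        rw [mul_pow, Real.rpow_natCast]; ring
    _ ≤ C * (1 + Real.log (NA Q)) ^ C := by
        refine mul_le_mul hC1 ?_ (by positivity) (by linarith)
        exact Real.rpow_le_rpow_of_exponent_le (by linarith) hC2

end Pool.Agent.T3h73.SG.ZEU
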