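import Pool.Agent.T3h73.SG.StmM
import Pool.Agent.T3h73.SG.ZeuA

/-!
# Project SG, task ZEU, part B (helper49): the pairings of the colours as sums of symbols
-/

set_option autoImplicit false
set_option linter.all false

open NumberField IsDedekindDomain

namespace Pool.Agent.T3h73.SG.ZEU

open Pool.Agent.T3h73.SL (Pl IsP Pk loc)
open Pool.Agent.T3h73.SD (ee NA gA SymSys)
open Pool.Agent.T3h73.SN (Sz tens inc ClW slc hcW)

section alg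
variable {ℓ n k : ℕ} {G : Type} [Group G] (pm : G →* Equiv.Perm (Fin n))

lemma aW_mul (g h : G) (c : Sz ℓ n (ZMod ℓ)) : aW pm (g * h) c = aW pm g (aW pm h c) := by
  apply Subtype.ext
  funext i
  show (c : Fin n → ZMod ℓ) ((pm (g * h))⁻¹ i) = (c : Fin n → ZMod ℓ) ((pm h)⁻¹ ((pm g)⁻¹ i))
  rw [map_mul, mul_inv_rev, Equiv.Perm.mul_apply]

lemma aC_mul (g h : G) (a : ClW ℓ n k) : aC pm (g * h) a = aC pm g (aC pm h a) := by
  unfold aC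
  simp only [aW_mul]

lemma aW_one (c : Sz ℓ n (ZMod ℓ)) : aW pm 1 c = c := by
  apply Subtype.ext
  funext i
  show (c : Fin n → ZMod ℓ) ((pm 1)⁻¹ i) = _
  rw [map_one, inv_one]
  rfl

lemma aC_one (a : ClW ℓ n k) : aC pm 1 a = a := by
  unfold aC
  simp only [aW_one]

lemma aC_sub (g : G) (a b : ClW ℓ n k) : aC pm g (a - b) = aC pm g a - aC pm g b := rfl

lemma QW_aC (g : G) (a : ClW ℓ n k) : QW (aC pm g a) = QW a := by
  unfold QW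
  refine Finset.sum_congr rfl fun s _ => ?_
  exact Equiv.sum_comp ((pm g)⁻¹) (fun i => (a.1 s : Fin n → ZMod ℓ) i * (a.2 s : Fin n → ZMod ℓ) i)

lemma QW_sub_comm (a b : ClW ℓ n k) : QW (a - b) = QW (b - a) := by
  unfold QW
  refine Finset.sum_congr rfl fun s _ => Finset.sum_congr rfl fun i _ => ?_
  show ((a.1 s : Fin n → ZMod ℓ) i - (b.1 s : Fin n → ZMod ℓ) i) *
    ((a.2 s : Fin n → ZMod ℓ) i - (b.2 s : Fin n → ZMod ℓ) i) =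
    ((b.1 s : Fin n → ZMod ℓ) i - (a.1 s : Fin n → ZMod ℓ) i) *
    ((b.2 s : Fin n → ZMod ℓ) i - (a.2 s : Fin n → ZMod ℓ) i)
  ring

/-- the coefficients -/
noncomputable def cc (x y : CG pm ℓ k) (g : G) : ZMod ℓ :=
  - ((Nat.card x.1.1 : ZMod ℓ)⁻¹ * (Nat.card y.1.1 : ZMod ℓ)⁻¹ * QW (aC pm g y.1.2.1 - x.1.2.1))

lemma cc_left (x y : CG pm ℓ k) (g' g : G) (hg : g' ∈ x.1.1) : cc pm x y (g' * g) = cc pm x y g := by
  unfold cc
  have h1 : aC pm (g' * g) y.1.2.1 - x.1.2.1 = aC pm g' (aC pm g y.1.2.1 - x.1.2.1) := by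
    rw [aC_sub, aC_mul, x.2.2 g' hg]
  rw [h1, QW_aC]

lemma cc_right (x y : CG pm ℓ k) (g g' : G) (hg : g' ∈ y.1.1) : cc pm x y (g * g') = cc pm x y g := by
  unfold cc
  rw [aC_mul, y.2.2 g' hg]

/-- the two quadratic forms agree -/
lemma QW_swap (g : G) (a b : ClW ℓ n k) : QW (aC pm g⁻¹ a - b) = QW (aC pm g b - a) := by
  rw [← QW_aC pm g, aC_sub, ← aC_mul, mul_inv_cancel, aC_one, QW_sub_comm]

end alg

section
variable {ℓ n k : ℕ} {K M : Type} [Field K] [NumberField K] [Field M] [NumberField M] [Algebra K M]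
  (pm : (M ≃ₐ[K] M) →* Equiv.Perm (Fin n))

open Classical in
/-- the pairings as sums of symbols -/
lemma rho_eq [Fact ℓ.Prime] (hℓ : ℓ ≠ 2) [IsGalois K M] (hPLC : S_PLC) (S : Finset (Pl K))
    (𝔪 : Ideal (𝓞 M)) (Λ : Type) [AddCommGroup Λ] (χ : Λ → Pl M → ZMod ℓ) (sy : Pl M → Pl M → ZMod ℓ)
    (hs : GSys ℓ K M S 𝔪 Λ χ sy) (x y : CG pm ℓ k) (w b : Pl M) (hw : (lo w : Pl K) ∉ S)
    (hb : (lo b : Pl K) ∉ S) (hwb : (lo w : Pl K) ≠ lo b) :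
    rhoG pm sy x y w b + rhoG pm sy y x b w = ∑ g : M ≃ₐ[K] M, cc pm x y g * sy (gp g b) w := by
  obtain ⟨-, h1, hmul, hlo, -, -, hup, -⟩ := hPLC K M
  have hup' : ∀ w : Pl M, w ∉ up S ↔ (lo w : Pl K) ∉ S := fun w => not_congr (hup S w)
  have e1 : rhoG pm sy x y w b = - ((2 : ZMod ℓ)⁻¹ * (Nat.card x.1.1 : ZMod ℓ)⁻¹ *
      (Nat.card y.1.1 : ZMod ℓ)⁻¹ * ∑ γ : M ≃ₐ[K] M, QW (aC pm γ y.1.2.1 - x.1.2.1) * sy (gp γ b) w) := by
    unfold rhoG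
    congr 2
    rw [← Equiv.sum_comp (Equiv.inv (M ≃ₐ[K] M))]
    refine Finset.sum_congr rfl fun γ _ => ?_
    rw [Equiv.inv_apply, QW_swap]
    congr 1
    have h2 : (lo (gp γ⁻¹ w) : Pl K) ∉ S := by rw [hlo]; exact hw
    have h3 : gp γ⁻¹ w ≠ b := by
      intro h
      apply hwb
      rw [← h, hlo]
    rw [hs.sys.symm _ _ ((hup' _).2 h2) ((hup' _).2 hb) h3]
    have h4 := hs.eqs γ b (gp γ⁻¹ w) hb h2
    rw [← hmul, mul_inv_cancel, h1] at h4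
    exact h4.symm
  have e2 : rhoG pm sy y x b w = - ((2 : ZMod ℓ)⁻¹ * (Nat.card x.1.1 : ZMod ℓ)⁻¹ *
      (Nat.card y.1.1 : ZMod ℓ)⁻¹ * ∑ γ : M ≃ₐ[K] M, QW (aC pm γ y.1.2.1 - x.1.2.1) * sy (gp γ b) w) := by
    unfold rhoG
    congr 2
    ring
  have h2 : (2 : ZMod ℓ) ≠ 0 := by
    intro h0
    have h1 : ((2 : ℕ) : ZMod ℓ) = 0 := by exact_mod_cast h0
    rw [ZMod.natCast_eq_zero_iff] at h1
    exact hℓ ((Nat.prime_dvd_prime_iff_eq (Fact.out) Nat.prime_two).1 h1)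
  have e3 : ∑ g : M ≃ₐ[K] M, cc pm x y g * sy (gp g b) w = - ((Nat.card x.1.1 : ZMod ℓ)⁻¹ *
      (Nat.card y.1.1 : ZMod ℓ)⁻¹ * ∑ γ : M ≃ₐ[K] M, QW (aC pm γ y.1.2.1 - x.1.2.1) * sy (gp γ b) w) := by
    rw [Finset.mul_sum, ← Finset.sum_neg_distrib]
    refine Finset.sum_congr rfl fun γ _ => ?_
    unfold cc
    ring
  rw [e1, e2, e3]
  have h4 : (2 : ZMod ℓ)⁻¹ + (2 : ZMod ℓ)⁻¹ = 1 := by
    rw [← two_mul, mul_inv_cancel₀ h2]
  linear_combination (- ((Nat.card x.1.1 : ZMod ℓ)⁻¹ *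
      (Nat.card y.1.1 : ZMod ℓ)⁻¹ * ∑ γ : M ≃ₐ[K] M, QW (aC pm γ y.1.2.1 - x.1.2.1) * sy (gp γ b) w)) * h4

end

end Pool.Agent.T3h73.SG.ZEU
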