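import Pool.Agent.T3h73.SG.ZeuB

/-!
# Project SG, task ZEU, part C (helper49): a nontrivial character is nontrivial at some place; the norm of
the set of the places above a set
-/

set_option autoImplicit false
set_option linter.all false

open NumberField IsDedekindDomain

namespace Pool.Agent.T3h73.SG.ZEU

open Pool.Agent.T3h73.SL (Pl IsP Pk loc)
open Pool.Agent.T3h73.SD (ee NA gA SymSys)

lemma ee_zero (ℓ : ℕ) [NeZero ℓ] : ee ℓ 0 = 1 := by
  unfold ee
  simp

lemma char_nontriv {ℓ : ℕ} (hℓ : ℓ.Prime) {M : Type} [Field M] [NumberField M] {T : Finset (Pl M)}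
    {𝔪 : Ideal (𝓞 M)} {Λ : Type} [AddCommGroup Λ] {χ : Λ → Pl M → ZMod ℓ} {sy : Pl M → Pl M → ZMod ℓ}
    (hs : SymSys ℓ M T 𝔪 Λ χ sy) (h : Λ) (hh : h ≠ 0) : ∃ w, w ∉ T ∧ χ h w ≠ 0 := by
  haveI : NeZero ℓ := ⟨hℓ.ne_zero⟩
  by_contra hcon
  push Not at hcon
  obtain ⟨η, -, hη1, hη2, hη3, -⟩ := hs.char h (fun _ => 0) ∅ (Finset.disjoint_empty_left _) (by
    intro b
    simp)
  rw [Finset.prod_empty, mul_one] at hη1 hη3
  obtain ⟨𝔞, ha1, ha2⟩ := hη3 (Or.inl hh)
  have h0 : 𝔞 ≠ 0 := by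
    rintro rfl
    have h1 := hη1 0 ha1
    rw [map_zero, zero_pow hℓ.ne_zero] at h1
    exact zero_ne_one h1
  have key : ∀ 𝔟 : Ideal (𝓞 M), 𝔟 ≠ 0 → IsCoprime 𝔟 𝔪 → η 𝔟 = 1 := by
    intro 𝔟
    induction 𝔟 using UniqueFactorizationMonoid.induction_on_prime with
    | h₁ => intro h; exact absurd rfl h
    | h₂ x hx =>
      intro _ _
      rw [Ideal.isUnit_iff.1 hx, ← Ideal.one_eq_top, map_one]
    | h₃ a p ha hp ih =>
      intro _ hc
      have hc1 : IsCoprime p 𝔪 := hc.of_mul_left_left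
      have hc2 : IsCoprime a 𝔪 := hc.of_mul_left_right
      rw [map_mul, ih ha hc2, mul_one]
      let w : Pl M := ⟨p, Ideal.isPrime_of_prime hp, hp.ne_zero⟩
      have hw : w ∉ T := (hs.cop w).1 hc1
      have h1 := hη2 w hw (Finset.notMem_empty _)
      rw [Finset.sum_empty, add_zero, hcon w hw, ee_zero] at h1
      exact h1
  exact ha2 (key 𝔞 h0 ha1)

section
variable {K M : Type} [Field K] [NumberField K] [Field M] [NumberField M] [Algebra K M] [IsGalois K M]

/-- the decomposition group -/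
def stab (hPLC : S_PLC) (w : Pl M) : Subgroup (M ≃ₐ[K] M) where
  carrier := {g | gp g w = w}
  one_mem' := (hPLC K M).2.1 w
  mul_mem' := by
    intro a b ha hb
    show gp (a * b) w = w
    rw [(hPLC K M).2.2.1, show gp b w = w from hb]
    exact ha
  inv_mem' := by
    intro a ha
    show gp a⁻¹ w = w
    have h1 : gp a⁻¹ (gp a w) = w := by
      rw [← (hPLC K M).2.2.1, inv_mul_cancel, (hPLC K M).2.1]
    rwa [show gp a w = w from ha] at h1

lemma stab_DG (hPLC : S_PLC) (w : Pl M) : DG w (stab (K := K) hPLC w) := fun g => Iff.rfl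

open Classical in
/-- the norm of the set of the places above a set of places -/
lemma NA_up (hPLC : S_PLC) (S : Finset (Pl K)) (hU : Unr K M S) (Q : Finset (Pl K))
    (hQ : ∀ q ∈ Q, q ∉ S) : NA (up Q : Finset (Pl M)) = NA Q ^ Nat.card (M ≃ₐ[K] M) := by
  obtain ⟨-, -, -, -, -, hfin, hup, -⟩ := hPLC K M
  unfold NA
  rw [← Finset.prod_fiberwise_of_maps_to (s := up Q) (t := Q) (g := fun w : Pl M => (lo w : Pl K))
    (fun w hw => (hup Q w).1 hw), ← Finset.prod_pow]
  refine Finset.prod_congr rfl fun q hq => ?_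
  obtain ⟨w₀, hw₀⟩ := (hfin q).2
  have hw₀' : (lo w₀ : Pl K) = q := hw₀
  have hS : (lo w₀ : Pl K) ∉ S := by rw [hw₀']; exact hQ q hq
  obtain ⟨-, h1, h2⟩ := (hU w₀ hS).2 _ (stab_DG hPLC w₀)
  have hcard : (Finset.filter (fun w : Pl M => (lo w : Pl K) = q) (up Q)).card =
      {w' : Pl M | (lo w' : Pl K) = lo w₀}.ncard := by
    rw [hw₀', ← Set.ncard_coe_finset]
    congr 1
    ext w
    simp only [Finset.coe_filter, Set.mem_setOf_eq]
    constructor
    · exact fun h => h.2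
    · intro h
      exact ⟨(hup Q w).2 (by rw [h]; exact hq), h⟩
  have hne : {w' : Pl M | (lo w' : Pl K) = lo w₀}.ncard ≠ 0 := by
    intro h
    rw [h, zero_mul] at h2
    exact Nat.card_pos.ne' h2.symm
  have hall : ∀ w ∈ Finset.filter (fun w : Pl M => (lo w : Pl K) = q) (up Q),
      Ideal.absNorm w.asIdeal = Ideal.absNorm q.asIdeal ^ Nat.card (stab (K := K) hPLC w₀) := by
    intro w hw
    have hwq : (lo w : Pl K) = q := (Finset.mem_filter.1 hw).2
    have hS' : (lo w : Pl K) ∉ S := by rw [hwq]; exact hQ q hq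
    obtain ⟨-, h3, h4⟩ := (hU w hS').2 _ (stab_DG hPLC w)
    rw [hwq, ← hw₀'] at h3 h4
    rw [h3, hw₀']
    congr 1
    have h5 := h4.trans h2.symm
    exact Nat.eq_of_mul_eq_mul_left (Nat.pos_of_ne_zero hne) h5
  rw [Finset.prod_congr rfl hall, Finset.prod_const, hcard, ← pow_mul, mul_comm, h2]

end

end Pool.Agent.T3h73.SG.ZEU
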