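import Pool.Agent.T3h73.SG.StmM
import Pool.Agent.T3h73.SN.T_EXPW

/-!
Project SG (helper73, MP_a43263), task ZEX (helper85), part 1: linear algebra with the action of `G`.
-/

set_option autoImplicit false
set_option linter.all false

open NumberField IsDedekindDomain Filter Topology

namespace Pool.Agent.T3h73.SG.ZEX

open Pool.Agent.T3h73.SL (Pl)
open Pool.Agent.T3h73.SD (ee)
open Pool.Agent.T3h73.SD.EXP (ee_eq ee_add ee_zero ee_sum sum_char sum_char_pos sum_char_neg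
  self_dual norm_ee)
open Pool.Agent.T3h73.SN (Sz tens inc ClW slc hcW RcW)
open Pool.Agent.T3h73.SN.EXPW (Psi Psi_apply Psi_alt Psi_nd SzL mem_SzL XXW XXW_sum dij dij_apply
  const_zero sz_sum card_Sz expoW)

variable {ℓ : ℕ} [Fact ℓ.Prime] {n : ℕ} {G : Type} [Group G] (pm : G →* Equiv.Perm (Fin n))

omit [Fact ℓ.Prime] in
lemma perm_inv {α : Type} (e : Equiv.Perm α) (i : α) : e⁻¹ (e i) = i := Equiv.symm_apply_apply e i

lemma aW_apply (γ : G) (c : Sz ℓ n (ZMod ℓ)) (i : Fin n) :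
    (aW pm γ c : Fin n → ZMod ℓ) i = (c : Fin n → ZMod ℓ) ((pm γ)⁻¹ i) := rfl

lemma aW_pm (γ : G) (c : Sz ℓ n (ZMod ℓ)) (i : Fin n) :
    (aW pm γ c : Fin n → ZMod ℓ) (pm γ i) = (c : Fin n → ZMod ℓ) i := by
  rw [aW_apply, perm_inv]

lemma aW_one (c : Sz ℓ n (ZMod ℓ)) : aW pm 1 c = c := by
  refine Subtype.ext (funext fun i => ?_)
  rw [aW_apply, map_one, inv_one, Equiv.Perm.one_apply]

lemma aW_mul (γ δ : G) (c : Sz ℓ n (ZMod ℓ)) : aW pm (γ * δ) c = aW pm γ (aW pm δ c) := by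
  refine Subtype.ext (funext fun i => ?_)
  rw [aW_apply, aW_apply, aW_apply, map_mul, mul_inv_rev, Equiv.Perm.mul_apply]

lemma aW_add (γ : G) (a b : Sz ℓ n (ZMod ℓ)) : aW pm γ (a + b) = aW pm γ a + aW pm γ b := rfl

lemma aW_zero (γ : G) : aW pm γ (0 : Sz ℓ n (ZMod ℓ)) = 0 := rfl

lemma aW_neg (γ : G) (a : Sz ℓ n (ZMod ℓ)) : aW pm γ (-a) = - aW pm γ a := rfl

lemma aC_one {k : ℕ} (a : ClW ℓ n k) : aC pm 1 a = a := by
  refine Prod.ext (funext fun s => ?_) (funext fun s => ?_)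
  · exact aW_one pm _
  · exact aW_one pm _

lemma aC_mul {k : ℕ} (γ δ : G) (a : ClW ℓ n k) : aC pm (γ * δ) a = aC pm γ (aC pm δ a) := by
  refine Prod.ext (funext fun s => ?_) (funext fun s => ?_)
  · exact aW_mul pm _ _ _
  · exact aW_mul pm _ _ _

lemma pair_aW (γ : G) (a b : Sz ℓ n (ZMod ℓ)) :
    ∑ i, (aW pm γ a : Fin n → ZMod ℓ) i * (aW pm γ b : Fin n → ZMod ℓ) i =
      ∑ i, (a : Fin n → ZMod ℓ) i * (b : Fin n → ZMod ℓ) i := by
  simp only [aW_apply]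
  exact Equiv.sum_comp ((pm γ)⁻¹) (fun i => (a : Fin n → ZMod ℓ) i * (b : Fin n → ZMod ℓ) i)

section eq
variable {ι : Type} (ac : G → ι → ι)

/-- the equivariant families of elements of `W` -/
def EqW (ℓ n : ℕ) {G : Type} [Group G] (pm : G →* Equiv.Perm (Fin n)) {ι : Type} (ac : G → ι → ι) :
    AddSubgroup (ι → Sz ℓ n (ZMod ℓ)) where
  carrier := {c | ∀ γ q, c (ac γ q) = aW pm γ (c q)}
  add_mem' := by
    intro a b ha hb γ q
    show a (ac γ q) + b (ac γ q) = aW pm γ (a q + b q)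
    rw [ha γ q, hb γ q]
    rfl
  zero_mem' := fun γ q => rfl
  neg_mem' := by
    intro a ha γ q
    show - a (ac γ q) = aW pm γ (- a q)
    rw [ha γ q]
    rfl

noncomputable instance [Finite ι] : Fintype (EqW ℓ n pm ac) := Fintype.ofFinite _

/-- the equivariant families of colours -/
def EqC (ℓ k : ℕ) {n : ℕ} {G : Type} [Group G] (pm : G →* Equiv.Perm (Fin n)) {ι : Type}
    (ac : G → ι → ι) : Type :=
  {c : ι → ClW ℓ n k // ∀ γ q, c (ac γ q) = aC pm γ (c q)}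

noncomputable instance {k : ℕ} [Finite ι] : Fintype (EqC ℓ k pm ac) := by
  haveI : NeZero ℓ := ⟨(Fact.out : ℓ.Prime).ne_zero⟩
  haveI h1 : Finite (ι → ClW ℓ n k) := Pi.finite
  haveI : Finite (EqC ℓ k pm ac) :=
    inferInstanceAs (Finite {c : ι → ClW ℓ n k // ∀ γ q, c (ac γ q) = aC pm γ (c q)})
  exact Fintype.ofFinite _

/-- the two descriptions of the equivariant families of colours -/
def eqE (k : ℕ) : (Fin k → EqW ℓ n pm ac) × (Fin k → EqW ℓ n pm ac) ≃ EqC ℓ k pm ac where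
  toFun x := ⟨fun q => (fun s => (x.1 s : ι → Sz ℓ n (ZMod ℓ)) q,
    fun s => (x.2 s : ι → Sz ℓ n (ZMod ℓ)) q), fun γ q =>
      Prod.ext (funext fun s => (x.1 s).2 γ q) (funext fun s => (x.2 s).2 γ q)⟩
  invFun c := (fun s => ⟨fun q => (c.1 q).1 s, fun γ q => congrFun (congrArg Prod.fst (c.2 γ q)) s⟩,
    fun s => ⟨fun q => (c.1 q).2 s, fun γ q => congrFun (congrArg Prod.snd (c.2 γ q)) s⟩)
  left_inv x := rfl
  right_inv c := rfl

end eq

section lin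
variable {V : Type} [AddCommGroup V] [Module (ZMod ℓ) V]
  (av : G →* Module.End (ZMod ℓ) V) (ψ : V →ₗ[ZMod ℓ] V →ₗ[ZMod ℓ] ZMod ℓ)

lemma av_one (x : V) : av 1 x = x := by rw [map_one]; rfl

lemma av_mul (γ δ : G) (x : V) : av (γ * δ) x = av γ (av δ x) := by rw [map_mul]; rfl

/-- the invariant families -/
def InvS (pm : G →* Equiv.Perm (Fin n)) (av : G →* Module.End (ZMod ℓ) V) :
    Submodule (ZMod ℓ) (Sz ℓ n V) where
  carrier := {x | InvF pm av (x : Fin n → V)}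
  add_mem' := by
    intro a b ha hb γ i
    show (a : Fin n → V) (pm γ i) + (b : Fin n → V) (pm γ i) =
      av γ ((a : Fin n → V) i + (b : Fin n → V) i)
    rw [ha γ i, hb γ i, map_add]
  zero_mem' := by
    intro γ i
    show (0 : V) = av γ 0
    rw [map_zero]
  smul_mem' := by
    intro c a ha γ i
    show c • (a : Fin n → V) (pm γ i) = av γ (c • (a : Fin n → V) i)
    rw [ha γ i, map_smul]

/-- the translate of a family -/
def avS (γ : G) (x : Sz ℓ n V) : Sz ℓ n V :=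
  ⟨fun i => av γ ((x : Fin n → V) ((pm γ)⁻¹ i)), by
    show ∑ i, av γ ((x : Fin n → V) ((pm γ)⁻¹ i)) = 0
    rw [← map_sum, Equiv.sum_comp ((pm γ)⁻¹) (fun i => (x : Fin n → V) i), sz_sum, map_zero]⟩

lemma sum_avS_mem [Fintype G] (x : Sz ℓ n V) : ∑ γ : G, avS pm av γ x ∈ InvS pm av := by
  intro δ i
  have h1 : ∀ j, ((∑ γ : G, avS pm av γ x : Sz ℓ n V) : Fin n → V) j =
      ∑ γ : G, av γ ((x : Fin n → V) ((pm γ)⁻¹ j)) := by
    intro j
    rw [Submodule.coe_sum, Finset.sum_apply]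
    rfl
  rw [h1, h1, map_sum]
  refine (Fintype.sum_equiv (Equiv.mulLeft δ) _ _ (fun γ => ?_)).symm
  show av δ (av γ ((x : Fin n → V) ((pm γ)⁻¹ i))) =
    av (δ * γ) ((x : Fin n → V) ((pm (δ * γ))⁻¹ (pm δ i)))
  rw [av_mul, map_mul pm, mul_inv_rev, Equiv.Perm.mul_apply, perm_inv]

lemma Psi_avS (inv : ∀ γ x y, ψ (av γ x) (av γ y) = ψ x y) (x y : Sz ℓ n V)
    (hx : InvF pm av (x : Fin n → V)) (γ : G) : Psi ψ n x (avS pm av γ y) = Psi ψ n x y := by
  rw [Psi_apply, Psi_apply, ← Equiv.sum_comp (pm γ)]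
  refine Finset.sum_congr rfl (fun i _ => ?_)
  show ψ ((x : Fin n → V) (pm γ i)) (av γ ((y : Fin n → V) ((pm γ)⁻¹ (pm γ i)))) = _
  rw [hx γ i, inv, perm_inv]

lemma card_ne [Fintype G] (hG : ¬ ℓ ∣ Nat.card G) : (Nat.card G : ZMod ℓ) ≠ 0 := by
  rwa [Ne, ZMod.natCast_eq_zero_iff]

lemma Psi_nd_inv [Fintype G] (hG : ¬ ℓ ∣ Nat.card G) (hn : ¬ ℓ ∣ n)
    (inv : ∀ γ x y, ψ (av γ x) (av γ y) = ψ x y)
    (nd : ∀ x, (∀ y, ψ x y = 0) → x = 0) (x : Sz ℓ n V) (hx : x ∈ InvS pm av)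
    (h : ∀ y ∈ InvS pm av, Psi ψ n x y = 0) : x = 0 := by
  refine Psi_nd ψ hn nd x (fun y => ?_)
  have h1 := h _ (sum_avS_mem pm av y)
  rw [map_sum, Finset.sum_congr rfl (fun γ _ => Psi_avS pm av ψ inv x y hx γ), Finset.sum_const,
    Finset.card_univ, nsmul_eq_mul, ← Nat.card_eq_fintype_card] at h1
  exact (mul_eq_zero.1 h1).resolve_left (card_ne hG)

/-- the projection commutes with the action -/
lemma pi_av (L0 L1 : Submodule (ZMod ℓ) V) (π : V →ₗ[ZMod ℓ] L0) (hc : IsCompl L0 L1)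
    (proj : ∀ x : V, x - (π x : V) ∈ L1) (st0 : ∀ γ, ∀ x ∈ L0, av γ x ∈ L0)
    (st1 : ∀ γ, ∀ x ∈ L1, av γ x ∈ L1) (γ : G) (x : V) : (π (av γ x) : V) = av γ (π x) := by
  rw [← sub_eq_zero]
  refine Submodule.disjoint_def.1 hc.disjoint _ ?_ ?_
  · exact L0.sub_mem (π (av γ x)).2 (st0 γ _ (π x).2)
  · have h1 := proj (av γ x)
    have h2 := st1 γ _ (proj x)
    have h3 := L1.sub_mem h2 h1
    rw [map_sub] at h3
    convert h3 using 1
    abel

open Classical in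
/-- `LL` is its own orthogonal in the invariant families -/
lemma self_dual_inv [Fintype G] [Fintype V] (hG : ¬ ℓ ∣ Nat.card G) (hn : ¬ ℓ ∣ n)
    (alt : ∀ x, ψ x x = 0) (nd : ∀ x, (∀ y, ψ x y = 0) → x = 0) (L0 L1 : Submodule (ZMod ℓ) V)
    (LL : Submodule (ZMod ℓ) (Sz ℓ n V)) (π : V →ₗ[ZMod ℓ] L0) (hc : IsCompl L0 L1)
    (iso0 : ∀ x ∈ L0, ∀ y ∈ L0, ψ x y = 0) (iso1 : ∀ x ∈ L1, ∀ y ∈ L1, ψ x y = 0)
    (proj : ∀ x : V, x - (π x : V) ∈ L1)
    (inv : ∀ γ x y, ψ (av γ x) (av γ y) = ψ x y)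
    (st0 : ∀ γ, ∀ x ∈ L0, av γ x ∈ L0) (st1 : ∀ γ, ∀ x ∈ L1, av γ x ∈ L1)
    (LL_inv : ∀ x ∈ LL, InvF pm av (x : Fin n → V))
    (isoL : ∀ x ∈ LL, ∀ y ∈ LL, Psi ψ n x y = 0)
    (card : Nat.card LL = Nat.card {x : Sz ℓ n L0 // InvF pm av (fun i => ((x : Fin n → L0) i : V))})
    (y : Sz ℓ n V) (hyI : y ∈ InvS pm av) (hy : ∀ z ∈ LL, Psi ψ n z y = 0) : y ∈ LL := by
  let I := InvS pm av
  let Ps : I →ₗ[ZMod ℓ] I →ₗ[ZMod ℓ] ZMod ℓ :=
    ((Psi ψ n).comp I.subtype).flip.comp I.subtype |>.flip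
  have hPs : ∀ x y : I, Ps x y = Psi ψ n (x : Sz ℓ n V) (y : Sz ℓ n V) := fun x y => rfl
  have hLI : LL ≤ I := fun x hx => LL_inv x hx
  have hpi : ∀ x : Sz ℓ n V, ∑ i, ((π ((x : Fin n → V) i) : L0) : V) = 0 := by
    intro x
    rw [← Submodule.coe_sum, ← map_sum, sz_sum x, map_zero, Submodule.coe_zero]
  have hcompl : IsCompl ((SzL L0 n).comap I.subtype) ((SzL L1 n).comap I.subtype) := by
    constructor
    · rw [Submodule.disjoint_def]
      intro x h0 h1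
      refine Subtype.ext (Subtype.ext (funext fun i => ?_))
      exact Submodule.disjoint_def.1 hc.disjoint _ (h0 i) (h1 i)
    · rw [codisjoint_iff, eq_top_iff]
      intro x _
      rw [Submodule.mem_sup]
      have ha : InvF pm av (fun i => (π (((x : Sz ℓ n V) : Fin n → V) i) : V)) := by
        intro γ i
        show (π (((x : Sz ℓ n V) : Fin n → V) (pm γ i)) : V) = _
        rw [x.2 γ i, pi_av av L0 L1 π hc proj st0 st1]
      refine ⟨⟨⟨fun i => (π (((x : Sz ℓ n V) : Fin n → V) i) : V), hpi _⟩, ha⟩,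
        fun i => (π (((x : Sz ℓ n V) : Fin n → V) i)).2,
        ⟨⟨fun i => ((x : Sz ℓ n V) : Fin n → V) i - (π (((x : Sz ℓ n V) : Fin n → V) i) : V), ?_⟩,
          ?_⟩, fun i => proj _, ?_⟩
      · show ∑ i, (((x : Sz ℓ n V) : Fin n → V) i - (π (((x : Sz ℓ n V) : Fin n → V) i) : V)) = 0
        rw [Finset.sum_sub_distrib, hpi, sz_sum, sub_zero]
      · intro γ i
        show ((x : Sz ℓ n V) : Fin n → V) (pm γ i) -
          (π (((x : Sz ℓ n V) : Fin n → V) (pm γ i)) : V) = av γ (_ - _)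
        rw [map_sub, x.2 γ i, pi_av av L0 L1 π hc proj st0 st1]
      · refine Subtype.ext (Subtype.ext (funext fun i => ?_))
        show (π (((x : Sz ℓ n V) : Fin n → V) i) : V) +
          (((x : Sz ℓ n V) : Fin n → V) i - (π (((x : Sz ℓ n V) : Fin n → V) i) : V)) = _
        rw [add_sub_cancel]
  have hfin : Fintype I := Fintype.ofFinite _
  have hcard : Nat.card (LL.comap I.subtype) = Nat.card ((SzL L0 n).comap I.subtype) := by
    have e1 : Nat.card (LL.comap I.subtype) = Nat.card LL :=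
      Nat.card_congr (Submodule.comapSubtypeEquivOfLe hLI).toEquiv
    rw [e1, card]
    refine Nat.card_eq_of_bijective (fun x : {x : Sz ℓ n L0 //
        InvF pm av (fun i => ((x : Fin n → L0) i : V))} =>
      (⟨⟨inc x.1, x.2⟩, fun i => ((x.1 : Fin n → L0) i).2⟩ : (SzL L0 n).comap I.subtype)) ⟨?_, ?_⟩
    · intro x y hxy
      refine Subtype.ext (Subtype.ext (funext fun i => Subtype.ext ?_))
      have h1 : inc x.1 = inc y.1 := congrArg (fun z => ((z : I) : Sz ℓ n V)) (congrArg Subtype.val hxy)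
      exact congrFun (congrArg Subtype.val h1) i
    · rintro ⟨⟨x, hxI⟩, hx⟩
      have hs : ∑ i, (⟨(x : Fin n → V) i, hx i⟩ : L0) = 0 := by
        refine Subtype.ext ?_
        rw [Submodule.coe_sum, Submodule.coe_zero]
        exact sz_sum x
      exact ⟨⟨⟨fun i => ⟨(x : Fin n → V) i, hx i⟩, hs⟩, hxI⟩, rfl⟩
  have hmain := self_dual (V := I) Ps (fun x => Psi_alt ψ alt _)
    (fun x hx => Subtype.ext (Psi_nd_inv pm av ψ hG hn inv nd x x.2 (fun y hy => hx ⟨y, hy⟩)))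
    ((SzL L0 n).comap I.subtype) ((SzL L1 n).comap I.subtype) (LL.comap I.subtype) hcompl
    (fun x hx y hy => by
      rw [hPs, Psi_apply]; exact Finset.sum_eq_zero (fun i _ => iso0 _ (hx i) _ (hy i)))
    (fun x hx y hy => by
      rw [hPs, Psi_apply]; exact Finset.sum_eq_zero (fun i _ => iso1 _ (hx i) _ (hy i)))
    (fun x hx y hy => isoL _ hx _ hy) hcard ⟨y, hyI⟩ (fun z hz => hy _ hz)
  exact hmain

end lin

end Pool.Agent.T3h73.SG.ZEX
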