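import Pool.Agent.T3h73.SG.Zex1

/-!
Project SG (helper73, MP_a43263), task ZEX (helper85), part 2: the sums over the characters.
-/

set_option autoImplicit false
set_option linter.all false

open NumberField IsDedekindDomain Filter Topology

namespace Pool.Agent.T3h73.SG.ZEX

open Pool.Agent.T3h73.SL (Pl)
open Pool.Agent.T3h73.SD (ee)
open Pool.Agent.T3h73.SD.EXP (ee_eq ee_add ee_zero ee_sum sum_char sum_char_pos sum_char_neg
  self_dual norm_ee)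
open Pool.Agent.T3h73.SN (Sz tens inc ClW slc hcW RcW)
open Pool.Agent.T3h73.SN.EXPW (Psi Psi_apply Psi_alt Psi_nd SzL mem_SzL XXW XXW_sum dij dij_apply
  const_zero sz_sum card_Sz expoW)

variable {ℓ : ℕ} [Fact ℓ.Prime] {n : ℕ} {G : Type} [Group G] (pm : G →* Equiv.Perm (Fin n))

open Classical in
lemma sum_scale {H : Type} [AddCommGroup H] [Fintype H] (φ : H →+ ZMod ℓ) (c : ZMod ℓ)
    (hc : c ≠ 0) : ∑ g, ee ℓ (c * φ g) = if ∀ g, φ g = 0 then (Fintype.card H : ℂ) else 0 := by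
  have h := sum_char (ℓ := ℓ) ((AddMonoidHom.mulLeft c).comp φ)
  have e : ∀ g, ((AddMonoidHom.mulLeft c).comp φ) g = c * φ g := fun g => rfl
  simp only [e] at h
  rw [h]
  have h2 : (∀ g, c * φ g = 0) ↔ ∀ g, φ g = 0 :=
    ⟨fun h3 g => (mul_eq_zero.1 (h3 g)).resolve_left hc, fun h3 g => by rw [h3 g, mul_zero]⟩
  by_cases h3 : ∀ g, φ g = 0
  · rw [if_pos (h2.2 h3), if_pos h3]
  · rw [if_neg (fun h4 => h3 (h2.1 h4)), if_neg h3]

section eq
variable {ι : Type} [Fintype ι] [DecidableEq ι] (ac : G → ι → ι) (h1 : ∀ q, ac 1 q = q)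
  (hm : ∀ γ δ q, ac (γ * δ) q = ac γ (ac δ q))

/-- the permutation of the index set -/
def acE (γ : G) : ι ≃ ι where
  toFun := ac γ
  invFun := ac γ⁻¹
  left_inv q := by rw [← hm, inv_mul_cancel, h1]
  right_inv q := by rw [← hm, mul_inv_cancel, h1]

include h1 hm in
lemma sum_ac {R : Type} [AddCommMonoid R] (γ : G) (F : ι → R) : ∑ q, F (ac γ q) = ∑ q, F q :=
  Equiv.sum_comp (acE ac h1 hm γ) F

include h1 hm in
lemma ac_inj (γ : G) (p q : ι) : ac γ p = ac γ q ↔ p = q :=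
  (acE ac h1 hm γ).injective.eq_iff

/-- the average of a family -/
def avW [Fintype G] (κ : ι → Sz ℓ n (ZMod ℓ)) : ι → Sz ℓ n (ZMod ℓ) :=
  fun q => ∑ γ : G, aW pm γ (κ (ac γ⁻¹ q))

lemma coe_sum_sz {J : Type} (s : Finset J) (f : J → Sz ℓ n (ZMod ℓ)) (i : Fin n) :
    ((∑ j ∈ s, f j : Sz ℓ n (ZMod ℓ)) : Fin n → ZMod ℓ) i = ∑ j ∈ s, (f j : Fin n → ZMod ℓ) i := by
  rw [Submodule.coe_sum, Finset.sum_apply]

include h1 hm in
lemma avW_mem [Fintype G] (κ : ι → Sz ℓ n (ZMod ℓ)) : avW pm ac κ ∈ EqW ℓ n pm ac := by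
  intro δ q
  refine Subtype.ext (funext fun i => ?_)
  rw [aW_apply]
  show ((∑ γ : G, aW pm γ (κ (ac γ⁻¹ (ac δ q))) : Sz ℓ n (ZMod ℓ)) : Fin n → ZMod ℓ) i =
    ((∑ γ : G, aW pm γ (κ (ac γ⁻¹ q)) : Sz ℓ n (ZMod ℓ)) : Fin n → ZMod ℓ) ((pm δ)⁻¹ i)
  rw [coe_sum_sz, coe_sum_sz]
  refine (Fintype.sum_equiv (Equiv.mulLeft δ) _ _ (fun γ => ?_)).symm
  show (κ (ac γ⁻¹ q) : Fin n → ZMod ℓ) ((pm γ)⁻¹ ((pm δ)⁻¹ i)) =
    (κ (ac (δ * γ)⁻¹ (ac δ q)) : Fin n → ZMod ℓ) ((pm (δ * γ))⁻¹ i)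
  have e : (pm (δ * γ))⁻¹ i = (pm γ)⁻¹ ((pm δ)⁻¹ i) := by
    rw [map_mul, mul_inv_rev, Equiv.Perm.mul_apply]
  rw [e, ← hm, mul_inv_rev, inv_mul_cancel_right]

include h1 hm in
lemma avW_pair [Fintype G] (κ : ι → Sz ℓ n (ZMod ℓ)) (X : ι → Fin n → ZMod ℓ)
    (hX : ∀ γ q i, X (ac γ q) (pm γ i) = X q i) :
    ∑ q, ∑ i, (avW pm ac κ q : Fin n → ZMod ℓ) i * X q i =
      (Nat.card G : ZMod ℓ) * ∑ q, ∑ i, (κ q : Fin n → ZMod ℓ) i * X q i := by
  have e1 : ∑ γ : G, ∑ q, ∑ i, (aW pm γ (κ (ac γ⁻¹ q)) : Fin n → ZMod ℓ) i * X q i =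
      ∑ q, ∑ i, (avW pm ac κ q : Fin n → ZMod ℓ) i * X q i := by
    rw [Finset.sum_comm]
    refine Finset.sum_congr rfl (fun q _ => ?_)
    rw [Finset.sum_comm]
    refine Finset.sum_congr rfl (fun i _ => ?_)
    rw [← Finset.sum_mul]
    congr 1
    exact (coe_sum_sz _ _ _).symm
  rw [← e1]
  have e2 : ∀ γ : G, ∑ q, ∑ i, (aW pm γ (κ (ac γ⁻¹ q)) : Fin n → ZMod ℓ) i * X q i =
      ∑ q, ∑ i, (κ q : Fin n → ZMod ℓ) i * X q i := by
    intro γ
    rw [← sum_ac ac h1 hm γ]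
    refine Finset.sum_congr rfl (fun q _ => ?_)
    rw [← Equiv.sum_comp (pm γ)]
    refine Finset.sum_congr rfl (fun i _ => ?_)
    rw [hX, aW_pm, ← hm, inv_mul_cancel, h1]
  rw [Finset.sum_congr rfl (fun γ _ => e2 γ), Finset.sum_const, Finset.card_univ, nsmul_eq_mul,
    ← Nat.card_eq_fintype_card]

include h1 hm in
open Classical in
lemma sum_EqW [Fintype G] (hG : ¬ ℓ ∣ Nat.card G) (hn : ¬ ℓ ∣ n) (c : ZMod ℓ) (hc : c ≠ 0)
    (X : ι → Fin n → ZMod ℓ) (hX0 : ∀ q, ∑ i, X q i = 0)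
    (hX : ∀ γ q i, X (ac γ q) (pm γ i) = X q i) :
    ∑ κ : EqW ℓ n pm ac, ee ℓ (c * ∑ q, ∑ i, ((κ : ι → Sz ℓ n (ZMod ℓ)) q : Fin n → ZMod ℓ) i *
      X q i) = if ∀ q i, X q i = 0 then (Nat.card (EqW ℓ n pm ac) : ℂ) else 0 := by
  have h := sum_scale (ℓ := ℓ) (H := EqW ℓ n pm ac)
    { toFun := fun κ => ∑ q, ∑ i, ((κ : ι → Sz ℓ n (ZMod ℓ)) q : Fin n → ZMod ℓ) i * X q i
      map_zero' := by simp
      map_add' := fun a b => by simp [add_mul, Finset.sum_add_distrib] } c hc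
  simp only [AddMonoidHom.coe_mk, ZeroHom.coe_mk] at h
  rw [h]
  have h2 : (∀ κ : EqW ℓ n pm ac, ∑ q, ∑ i, ((κ : ι → Sz ℓ n (ZMod ℓ)) q : Fin n → ZMod ℓ) i *
      X q i = 0) ↔ ∀ q i, X q i = 0 := by
    constructor
    · intro h3 q
      refine const_zero (ℓ := ℓ) (M := ZMod ℓ) hn (X q) (hX0 q) (fun i j => ?_)
      have h4 := h3 ⟨avW pm ac (Pi.single q (dij i j 1)), avW_mem pm ac h1 hm _⟩
      have h5 := avW_pair pm ac h1 hm (Pi.single q (dij i j 1)) X hX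
      have h6 := (mul_eq_zero.1 (h5.symm.trans h4)).resolve_left (card_ne hG)
      rw [Finset.sum_eq_single q] at h6
      · rw [Pi.single_eq_same] at h6
        simp only [dij_apply, sub_mul, Finset.sum_sub_distrib, ite_mul, one_mul, zero_mul,
          Finset.sum_ite_eq', Finset.mem_univ, if_true] at h6
        exact sub_eq_zero.1 h6
      · intro b _ hb
        rw [Pi.single_eq_of_ne hb]
        simp
      · intro h5; exact absurd (Finset.mem_univ q) h5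
    · intro h3 κ
      simp [h3]
  by_cases h3 : ∀ q i, X q i = 0
  · rw [if_pos (h2.2 h3), if_pos h3, Nat.card_eq_fintype_card]
  · rw [if_neg (fun h4 => h3 (h2.1 h4)), if_neg h3]

end eq

section lin
variable {V : Type} [AddCommGroup V] [Module (ZMod ℓ) V]
  (av : G →* Module.End (ZMod ℓ) V) (ψ : V →ₗ[ZMod ℓ] V →ₗ[ZMod ℓ] ZMod ℓ)

/-- the invariants of `L0` as a group -/
def L0S (av : G →* Module.End (ZMod ℓ) V) (L0 : Submodule (ZMod ℓ) V) : AddSubgroup L0 where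
  carrier := {α | ∀ γ : G, av γ (α : V) = α}
  add_mem' := by
    intro a b ha hb γ
    rw [Submodule.coe_add, map_add, ha γ, hb γ]
  zero_mem' := fun γ => by rw [Submodule.coe_zero, map_zero]
  neg_mem' := by
    intro a ha γ
    rw [Submodule.coe_neg, map_neg, ha γ]

open Classical in
lemma sum_L0G [Fintype G] [Fintype V] (hG : ¬ ℓ ∣ Nat.card G) (c : ZMod ℓ) (hcne : c ≠ 0)
    (alt : ∀ x, ψ x x = 0) (nd : ∀ x, (∀ y, ψ x y = 0) → x = 0)
    (L0 L1 : Submodule (ZMod ℓ) V) (hc : IsCompl L0 L1)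
    (iso1 : ∀ x ∈ L1, ∀ y ∈ L1, ψ x y = 0) (inv : ∀ γ x y, ψ (av γ x) (av γ y) = ψ x y)
    (st0 : ∀ γ, ∀ x ∈ L0, av γ x ∈ L0) (y : V) (hy : y ∈ L1) (hyi : ∀ γ, av γ y = y) :
    ∑ α : {α : L0 // ∀ γ : G, av γ (α : V) = α}, ee ℓ (c * ψ (α.1 : V) y) =
      if y = 0 then (Nat.card {α : L0 // ∀ γ : G, av γ (α : V) = α} : ℂ) else 0 := by
  let E : {α : L0 // ∀ γ : G, av γ (α : V) = α} ≃ L0S av L0 :=
    Equiv.subtypeEquivRight (fun _ => Iff.rfl)
  have e0 : ∑ α : {α : L0 // ∀ γ : G, av γ (α : V) = α}, ee ℓ (c * ψ (α.1 : V) y) =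
      ∑ α : L0S av L0, ee ℓ (c * ψ ((α : L0) : V) y) :=
    Fintype.sum_equiv E _ _ (fun _ => rfl)
  rw [e0]
  have h := sum_scale (ℓ := ℓ) (H := L0S av L0)
    { toFun := fun α => ψ ((α : L0) : V) y
      map_zero' := by simp
      map_add' := fun a b => by simp } c hcne
  simp only [AddMonoidHom.coe_mk, ZeroHom.coe_mk] at h
  rw [h]
  have h2 : (∀ α : L0S av L0, ψ ((α : L0) : V) y = 0) ↔ y = 0 := by
    constructor
    · intro h3
      apply nd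
      intro v
      have hasym : ψ y v = - ψ v y := by
        have h := alt (v + y)
        simp only [map_add, LinearMap.add_apply, alt, zero_add, add_zero] at h
        linear_combination h
      have hv : v ∈ L0 ⊔ L1 := by rw [hc.sup_eq_top]; trivial
      obtain ⟨a, ha, b, hb, hab⟩ := Submodule.mem_sup.1 hv
      have ha0 : ψ a y = 0 := by
        have hs : (∑ γ : G, av γ a) ∈ L0 := L0.sum_mem (fun γ _ => st0 γ a ha)
        have hsi : ∀ δ : G, av δ (∑ γ : G, av γ a) = ∑ γ : G, av γ a := by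
          intro δ
          rw [map_sum]
          exact Fintype.sum_equiv (Equiv.mulLeft δ) _ _ (fun γ => (av_mul av δ γ a).symm)
        have h4 := h3 ⟨⟨_, hs⟩, hsi⟩
        have h5 : ψ (∑ γ : G, av γ a) y = (Nat.card G : ZMod ℓ) * ψ a y := by
          rw [map_sum, LinearMap.sum_apply]
          have : ∀ γ : G, ψ (av γ a) y = ψ a y := by
            intro γ
            rw [← inv γ a y, hyi γ]
          rw [Finset.sum_congr rfl (fun γ _ => this γ), Finset.sum_const, Finset.card_univ,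
            nsmul_eq_mul, ← Nat.card_eq_fintype_card]
        rw [show ψ (∑ γ : G, av γ a) y = 0 from h4] at h5
        exact (mul_eq_zero.1 h5.symm).resolve_left (card_ne hG)
      rw [hasym, ← hab, map_add, LinearMap.add_apply, ha0, iso1 b hb y hy, add_zero, neg_zero]
    · intro h3 g
      rw [h3, map_zero]
  have hcard : (Fintype.card (L0S av L0) : ℂ) =
      (Nat.card {α : L0 // ∀ γ : G, av γ (α : V) = α} : ℂ) := by
    rw [← Nat.card_eq_fintype_card]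
    rfl
  by_cases h3 : y = 0
  · rw [if_pos (h2.2 h3), if_pos h3, hcard]
  · rw [if_neg (fun h4 => h3 (h2.1 h4)), if_neg h3]

open Classical in
lemma sum_LLc [Fintype V] (LL : Submodule (ZMod ℓ) (Sz ℓ n V))
    (isoL : ∀ x ∈ LL, ∀ y ∈ LL, Psi ψ n x y = 0) (c : ZMod ℓ) (hcne : c ≠ 0) (y : Sz ℓ n V)
    (hsd : (∀ z ∈ LL, Psi ψ n z y = 0) → y ∈ LL) :
    ∑ z : LL, ee ℓ (c * Psi ψ n (z : Sz ℓ n V) y) = if y ∈ LL then (Nat.card LL : ℂ) else 0 := by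
  have h := sum_scale (ℓ := ℓ) (H := LL)
    (((Psi ψ n).flip y).comp LL.subtype).toAddMonoidHom c hcne
  have e : ∀ z : LL, (((Psi ψ n).flip y).comp LL.subtype).toAddMonoidHom z =
      Psi ψ n (z : Sz ℓ n V) y := fun z => rfl
  simp only [e] at h
  rw [h]
  have h2 : (∀ g : LL, Psi ψ n (g : Sz ℓ n V) y = 0) ↔ y ∈ LL :=
    ⟨fun h3 => hsd (fun z hz => h3 ⟨z, hz⟩), fun h3 g => isoL g g.2 y h3⟩
  by_cases h3 : y ∈ LL
  · rw [if_pos h3, if_pos (h2.2 h3), Nat.card_eq_fintype_card]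
  · rw [if_neg h3, if_neg (fun h4 => h3 (h2.1 h4))]

section io
variable {ι : Type} [Fintype ι] [DecidableEq ι] (ac : G → ι → ι) (h1 : ∀ q, ac 1 q = q)
  (hm : ∀ γ δ q, ac (γ * δ) q = ac γ (ac δ q))

include h1 hm in
lemma XXW_eqv (inv : ∀ γ x y, ψ (av γ x) (av γ y) = ψ x y) (u : V) (g : Fin n → Fin n → V)
    (t : ι → V) (sy : ι → ι → ZMod ℓ) (w : Fin n → V) (c : ι → Fin n → ZMod ℓ)
    (hw : InvF pm av w) (hu : ∀ γ, av γ u = u) (hg : ∀ γ i j, g (pm γ i) (pm γ j) = av γ (g i j))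
    (ht : ∀ γ q, t (ac γ q) = av γ (t q)) (hsy : ∀ γ p q, sy (ac γ p) (ac γ q) = sy p q)
    (hc : ∀ γ q i, c (ac γ q) (pm γ i) = c q i) (γ : G) (q : ι) (i : Fin n) :
    XXW ψ u g t sy w c (ac γ q) (pm γ i) = XXW ψ u g t sy w c q i := by
  unfold XXW
  congr 1
  · congr 1
    · congr 1
      · rw [hw, ht, inv]
      · rw [hc, ht]
        nth_rewrite 1 [← hu γ]
        rw [inv]
    · rw [← Equiv.sum_comp (pm γ)]
      refine Finset.sum_congr rfl (fun j _ => ?_)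
      rw [hc, hc, hg, ht, inv]
  · rw [← sum_ac ac h1 hm γ]
    refine Finset.sum_congr rfl (fun p _ => ?_)
    by_cases hp : p = q
    · rw [if_pos hp, if_pos (by rw [hp])]
    · rw [if_neg hp, if_neg (fun h => hp ((ac_inj ac h1 hm γ p q).1 h)), hc, hc, hsy]

include h1 hm in
lemma inc_mem (L0 : Submodule (ZMod ℓ) V) (t : ι → V) (ht : ∀ γ q, t (ac γ q) = av γ (t q))
    (x : {x : Sz ℓ n L0 // InvF pm av (fun i => ((x : Fin n → L0) i : V))})
    (c : EqW ℓ n pm ac) :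
    inc x.1 + ∑ q, tens ((c : ι → Sz ℓ n (ZMod ℓ)) q) (t q) ∈ InvS pm av := by
  refine (InvS pm av).add_mem x.2 ?_
  intro γ i
  have e1 : ∀ j, ((∑ q, tens ((c : ι → Sz ℓ n (ZMod ℓ)) q) (t q) : Sz ℓ n V) : Fin n → V) j =
      ∑ q, ((c : ι → Sz ℓ n (ZMod ℓ)) q : Fin n → ZMod ℓ) j • t q := by
    intro j
    rw [Submodule.coe_sum, Finset.sum_apply]
    rfl
  rw [e1, e1, map_sum, ← sum_ac ac h1 hm γ]
  refine Finset.sum_congr rfl (fun q _ => ?_)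
  rw [c.2 γ q, aW_pm, ht, map_smul]

end io

end lin

end Pool.Agent.T3h73.SG.ZEX
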