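import Pool.Agent.T3h73.SG.Zex2

/-!
Project SG (helper73, MP_a43263), task ZEX (helper85), part 3: the sum over the characters for one set.
-/

set_option autoImplicit false
set_option linter.all false

open NumberField IsDedekindDomain Filter Topology

namespace Pool.Agent.T3h73.SG.ZEX

open Pool.Agent.T3h73.SL (Pl)
open Pool.Agent.T3h73.SD (ee)
open Pool.Agent.T3h73.SD.EXP (ee_eq ee_add ee_zero ee_sum sum_char sum_char_pos sum_char_neg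
  self_dual norm_ee)
open Pool.Agent.T3h73.SN (Sz tens inc ClW slc hcW RcW)
open Pool.Agent.T3h73.SN.EXPW (Psi Psi_apply Psi_alt Psi_nd SzL mem_SzL XXW XXW_sum dij dij_apply
  const_zero sz_sum card_Sz expoW)

variable {ℓ : ℕ} [Fact ℓ.Prime] {n : ℕ} {G : Type} [Group G] (pm : G →* Equiv.Perm (Fin n))
variable {V : Type} [AddCommGroup V] [Module (ZMod ℓ) V]
  (av : G →* Module.End (ZMod ℓ) V) (ψ : V →ₗ[ZMod ℓ] V →ₗ[ZMod ℓ] ZMod ℓ)
variable {ι : Type} [Fintype ι] [DecidableEq ι] (ac : G → ι → ι)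

/-- invariant families in `L0` -/
abbrev XT (L0 : Submodule (ZMod ℓ) V) : Type :=
  {x : Sz ℓ n L0 // InvF pm av (fun i => ((x : Fin n → L0) i : V))}

/-- invariants of `L0` -/
abbrev LT (L0 : Submodule (ZMod ℓ) V) : Type := {α : L0 // ∀ γ : G, av γ (α : V) = α}

/-- the values of an equivariant family -/
abbrev cf (c : EqW ℓ n pm ac) : ι → Sz ℓ n (ZMod ℓ) := (c : ι → Sz ℓ n (ZMod ℓ))

/-- the solutions -/
def Sol (L0 : Submodule (ZMod ℓ) V) (LL : Submodule (ZMod ℓ) (Sz ℓ n V)) (u : V)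
    (g : Fin n → Fin n → V) (t : ι → V) (sy : ι → ι → ZMod ℓ) : Type :=
  {x : XT pm av L0 × EqW ℓ n pm ac //
    inc x.1.1 + ∑ q, tens (cf pm ac x.2 q) (t q) ∈ LL ∧ ∀ q i,
      XXW ψ u g t sy (inc x.1.1 : Sz ℓ n V) (fun q => (cf pm ac x.2 q : Fin n → ZMod ℓ)) q i = 0}

/-- the exponent of one factor -/
noncomputable def EXG (L0 : Submodule (ZMod ℓ) V) (LL : Submodule (ZMod ℓ) (Sz ℓ n V)) (u : V)
    (g : Fin n → Fin n → V) (t : ι → V) (sy : ι → ι → ZMod ℓ) (x : XT pm av L0) (z : LL)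
    (c κ : EqW ℓ n pm ac) : ZMod ℓ :=
  Psi ψ n (z : Sz ℓ n V) (inc x.1 + ∑ q, tens (cf pm ac c q) (t q)) +
    ∑ q, ∑ i, (cf pm ac κ q : Fin n → ZMod ℓ) i *
      XXW ψ u g t sy (inc x.1 : Sz ℓ n V) (fun q => (cf pm ac c q : Fin n → ZMod ℓ)) q i

open Classical in
lemma sum_FFG [Fintype G] [Fintype V] (h1 : ∀ q, ac 1 q = q)
    (hm : ∀ γ δ q, ac (γ * δ) q = ac γ (ac δ q)) (hG : ¬ ℓ ∣ Nat.card G) (hn : ¬ ℓ ∣ n)
    (c : ZMod ℓ) (hc : c ≠ 0) (inv : ∀ γ x y, ψ (av γ x) (av γ y) = ψ x y)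
    (L0 : Submodule (ZMod ℓ) V) (LL : Submodule (ZMod ℓ) (Sz ℓ n V)) (u : V)
    (g : Fin n → Fin n → V) (t : ι → V) (sy : ι → ι → ZMod ℓ) (hu : ∀ γ, av γ u = u)
    (hgs : ∀ i j, g i j = g j i) (hg : ∀ γ i j, g (pm γ i) (pm γ j) = av γ (g i j))
    (ht : ∀ γ q, t (ac γ q) = av γ (t q)) (hsy : ∀ γ p q, sy (ac γ p) (ac γ q) = sy p q)
    (isoL : ∀ x ∈ LL, ∀ y ∈ LL, Psi ψ n x y = 0)
    (hsd : ∀ y ∈ InvS pm av, (∀ z ∈ LL, Psi ψ n z y = 0) → y ∈ LL) :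
    ∑ a : XT pm av L0 × LL × EqW ℓ n pm ac × EqW ℓ n pm ac,
      ee ℓ (c * EXG pm av ψ ac L0 LL u g t sy a.1 a.2.1 a.2.2.1 a.2.2.2) =
    (Nat.card LL : ℂ) * (Nat.card (EqW ℓ n pm ac) : ℂ) *
      (Nat.card (Sol pm av ψ ac L0 LL u g t sy) : ℂ) := by
  have e1 : ∑ a : XT pm av L0 × LL × EqW ℓ n pm ac × EqW ℓ n pm ac,
      ee ℓ (c * EXG pm av ψ ac L0 LL u g t sy a.1 a.2.1 a.2.2.1 a.2.2.2) =
      ∑ w : XT pm av L0, ∑ cc : EqW ℓ n pm ac,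
        ((∑ z : LL, ee ℓ (c * Psi ψ n (z : Sz ℓ n V) (inc w.1 + ∑ q, tens (cf pm ac cc q) (t q)))) *
        ∑ κ : EqW ℓ n pm ac, ee ℓ (c * ∑ q, ∑ i, (cf pm ac κ q : Fin n → ZMod ℓ) i *
          XXW ψ u g t sy (inc w.1 : Sz ℓ n V) (fun q => (cf pm ac cc q : Fin n → ZMod ℓ)) q i)) := by
    rw [Fintype.sum_prod_type]
    refine Finset.sum_congr rfl (fun w _ => ?_)
    rw [Fintype.sum_prod_type]
    simp_rw [Fintype.sum_prod_type]
    rw [Finset.sum_comm]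
    refine Finset.sum_congr rfl (fun cc _ => ?_)
    rw [Finset.sum_mul_sum]
    refine Finset.sum_congr rfl (fun z _ => Finset.sum_congr rfl (fun κ _ => ?_))
    rw [EXG, mul_add, ee_add]
  rw [e1]
  have e2 : ∀ (w : XT pm av L0) (cc : EqW ℓ n pm ac),
      ∑ z : LL, ee ℓ (c * Psi ψ n (z : Sz ℓ n V) (inc w.1 + ∑ q, tens (cf pm ac cc q) (t q))) =
      if inc w.1 + ∑ q, tens (cf pm ac cc q) (t q) ∈ LL then (Nat.card LL : ℂ) else 0 :=
    fun w cc => sum_LLc ψ LL isoL c hc _ (hsd _ (inc_mem pm av ac h1 hm L0 t ht w cc))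
  have e3 : ∀ (w : XT pm av L0) (cc : EqW ℓ n pm ac),
      ∑ κ : EqW ℓ n pm ac, ee ℓ (c * ∑ q, ∑ i, (cf pm ac κ q : Fin n → ZMod ℓ) i *
          XXW ψ u g t sy (inc w.1 : Sz ℓ n V) (fun q => (cf pm ac cc q : Fin n → ZMod ℓ)) q i) =
      if ∀ q i, XXW ψ u g t sy (inc w.1 : Sz ℓ n V)
        (fun q => (cf pm ac cc q : Fin n → ZMod ℓ)) q i = 0 then
        (Nat.card (EqW ℓ n pm ac) : ℂ) else 0 := by
    intro w cc
    refine sum_EqW pm ac h1 hm hG hn c hc _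
      (fun q => XXW_sum ψ u g t sy _ _ hgs (sz_sum _) (fun q => sz_sum _) q) (fun γ q i => ?_)
    refine XXW_eqv pm av ψ ac h1 hm inv u g t sy _ _ w.2 hu hg ht hsy (fun γ q i => ?_) γ q i
    show ((cc : ι → Sz ℓ n (ZMod ℓ)) (ac γ q) : Fin n → ZMod ℓ) (pm γ i) = _
    rw [cc.2 γ q, aW_pm]
  simp_rw [e2, e3]
  have hfin : Finite (Sol pm av ψ ac L0 LL u g t sy) := by unfold Sol; infer_instance
  have e4 : (Nat.card (Sol pm av ψ ac L0 LL u g t sy) : ℂ) =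
      ∑ w : XT pm av L0, ∑ cc : EqW ℓ n pm ac,
        (if inc w.1 + ∑ q, tens (cf pm ac cc q) (t q) ∈ LL ∧ ∀ q i,
          XXW ψ u g t sy (inc w.1 : Sz ℓ n V)
            (fun q => (cf pm ac cc q : Fin n → ZMod ℓ)) q i = 0 then (1 : ℂ) else 0) := by
    unfold Sol
    rw [Nat.card_eq_fintype_card, Fintype.card_subtype, Finset.card_filter, Nat.cast_sum,
      Fintype.sum_prod_type]
    refine Finset.sum_congr rfl (fun w _ => Finset.sum_congr rfl (fun cc _ => ?_))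
    push_cast
    rfl
  rw [e4, Finset.mul_sum]
  refine Finset.sum_congr rfl (fun w _ => ?_)
  rw [Finset.mul_sum]
  refine Finset.sum_congr rfl (fun cc _ => ?_)
  by_cases h2 : inc w.1 + ∑ q, tens (cf pm ac cc q) (t q) ∈ LL
  · by_cases h3 : ∀ q i, XXW ψ u g t sy (inc w.1 : Sz ℓ n V)
        (fun q => (cf pm ac cc q : Fin n → ZMod ℓ)) q i = 0
    · simp [h2, h3]
    · simp [h2, h3]
  · simp [h2]

open Classical in
/-- the whole sum for one set -/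
lemma wholeG [Fintype G] [Fintype V] (h1 : ∀ q, ac 1 q = q)
    (hm : ∀ γ δ q, ac (γ * δ) q = ac γ (ac δ q)) (L0 L1 : Submodule (ZMod ℓ) V)
    (LL : Submodule (ZMod ℓ) (Sz ℓ n V)) (π : V →ₗ[ZMod ℓ] L0) (u : L0) (d1 : V)
    (g : Fin n → Fin n → L0) (hL : LinG ℓ n G pm V av ψ L0 L1 LL π u d1 g)
    (t : ι → V) (ht1 : ∀ q, t q ∈ L1) (ht : ∀ γ q, t (ac γ q) = av γ (t q))
    (sy : ι → ι → ZMod ℓ) (hsy : ∀ γ p q, sy (ac γ p) (ac γ q) = sy p q) (k : ℕ)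
    (c : ZMod ℓ) (hc : c ≠ 0) :
    ∑ X : Fin k → XT pm av L0, ∑ α : LT av L0, ∑ Z : Fin k → LL,
      ee ℓ (c * (- ψ (α.1 : V) d1 +
        ∑ r, ∑ i, ψ (((Z r : Sz ℓ n V) : Fin n → V) i) (((X r).1 : Fin n → L0) i : V))) *
        ∑ col : EqC ℓ k pm ac,
          ee ℓ (c * (∑ q : ι, ψ ((hcW π u g (fun s => (X s).1) α.1 Z (col.1 q) : L0) : V) (t q) +
        ∑ p : ι, ∑ q : ι, if p = q then 0 else RcW ℓ n k (col.1 p) (col.1 q) * sy p q)) =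
    (if ∑ q, t q = d1 then (Nat.card (LT av L0) : ℂ) * ((Nat.card LL : ℂ) *
      (Nat.card (EqW ℓ n pm ac) : ℂ) * (Nat.card (Sol pm av ψ ac L0 LL (u : V)
        (fun i j => (g i j : V)) t sy) : ℂ)) ^ k else 0) := by
  have hsd : ∀ y ∈ InvS pm av, (∀ z ∈ LL, Psi ψ n z y = 0) → y ∈ LL := fun y hy h =>
    self_dual_inv pm av ψ hL.gpm.hG hL.gpm.hn hL.alt hL.nd L0 L1 LL π hL.compl hL.iso0 hL.iso1
      hL.proj hL.inv hL.st0 hL.st1 hL.LL_inv hL.isoL hL.card y hy h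
  have e1 : ∑ X : Fin k → XT pm av L0, ∑ α : LT av L0, ∑ Z : Fin k → LL,
      ee ℓ (c * (- ψ (α.1 : V) d1 +
        ∑ r, ∑ i, ψ (((Z r : Sz ℓ n V) : Fin n → V) i) (((X r).1 : Fin n → L0) i : V))) *
        ∑ col : EqC ℓ k pm ac,
          ee ℓ (c * (∑ q : ι, ψ ((hcW π u g (fun s => (X s).1) α.1 Z (col.1 q) : L0) : V) (t q) +
        ∑ p : ι, ∑ q : ι, if p = q then 0 else RcW ℓ n k (col.1 p) (col.1 q) * sy p q)) =
      ∑ X : Fin k → XT pm av L0, ∑ α : LT av L0, ∑ Z : Fin k → LL,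
        ∑ x : (Fin k → EqW ℓ n pm ac) × (Fin k → EqW ℓ n pm ac),
          ee ℓ (c * ψ (α.1 : V) ((∑ q, t q) - d1)) *
          ∏ r, ee ℓ (c * EXG pm av ψ ac L0 LL (u : V) (fun i j => (g i j : V)) t sy (X r) (Z r)
            (x.1 r) (x.2 r)) := by
    refine Finset.sum_congr rfl (fun X _ => Finset.sum_congr rfl (fun α _ =>
      Finset.sum_congr rfl (fun Z _ => ?_)))
    rw [Finset.mul_sum]
    refine (Fintype.sum_equiv (eqE pm ac k) _ _ (fun x => ?_)).symm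
    have h2 := expoW ψ L0 L1 LL π hL.iso1 hL.proj u d1 g t ht1 sy (fun s => (X s).1) α.1 Z
      ((eqE pm ac k x).1)
    rw [← ee_add, ← mul_add, h2, mul_add, ee_add, Finset.mul_sum, ee_sum]
    rfl
  rw [e1, Finset.sum_comm]
  have e2 : ∀ α : LT av L0, ∑ X : Fin k → XT pm av L0, ∑ Z : Fin k → LL,
        ∑ x : (Fin k → EqW ℓ n pm ac) × (Fin k → EqW ℓ n pm ac),
          ee ℓ (c * ψ (α.1 : V) ((∑ q, t q) - d1)) *
          ∏ r, ee ℓ (c * EXG pm av ψ ac L0 LL (u : V) (fun i j => (g i j : V)) t sy (X r) (Z r)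
            (x.1 r) (x.2 r)) =
      ee ℓ (c * ψ (α.1 : V) ((∑ q, t q) - d1)) *
        (∑ a : XT pm av L0 × LL × EqW ℓ n pm ac × EqW ℓ n pm ac,
      ee ℓ (c * EXG pm av ψ ac L0 LL (u : V) (fun i j => (g i j : V)) t sy a.1 a.2.1
        a.2.2.1 a.2.2.2)) ^ k := by
    intro α
    simp_rw [← Finset.mul_sum]
    congr 1
    rw [Fintype.sum_pow]
    symm
    rw [← Fintype.sum_prod_type', ← Fintype.sum_prod_type']
    let E : (Fin k → XT pm av L0 × LL × EqW ℓ n pm ac × EqW ℓ n pm ac) ≃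
        ((Fin k → XT pm av L0) × (Fin k → LL)) ×
          ((Fin k → EqW ℓ n pm ac) × (Fin k → EqW ℓ n pm ac)) :=
      { toFun := fun p => ((fun i => (p i).1, fun i => (p i).2.1),
          (fun i => (p i).2.2.1, fun i => (p i).2.2.2))
        invFun := fun x i => (x.1.1 i, x.1.2 i, x.2.1 i, x.2.2 i)
        left_inv := fun p => rfl
        right_inv := fun x => rfl }
    exact Fintype.sum_equiv E _ _ (fun p => rfl)
  simp_rw [e2]
  have hst : (∑ q, t q) - d1 ∈ L1 :=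
    L1.sub_mem (L1.sum_mem (fun q _ => ht1 q)) hL.d1_mem
  have hsi : ∀ γ : G, av γ ((∑ q, t q) - d1) = (∑ q, t q) - d1 := by
    intro γ
    rw [map_sub, hL.d1_inv γ, map_sum, ← sum_ac ac h1 hm γ t]
    simp_rw [ht]
  rw [← Finset.sum_mul, sum_FFG pm av ψ ac h1 hm hL.gpm.hG hL.gpm.hn c hc hL.inv L0 LL (u : V)
    (fun i j => (g i j : V)) t sy hL.u_inv (fun i j => by rw [hL.gsymm]) hL.ginv ht hsy hL.isoL hsd,
    sum_L0G av ψ hL.gpm.hG c hc hL.alt hL.nd L0 L1 hL.compl hL.iso1 hL.inv hL.st0 _ hst hsi]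
  by_cases h3 : ∑ q, t q = d1
  · rw [if_pos h3, if_pos (sub_eq_zero.2 h3)]
  · rw [if_neg h3, if_neg (fun h4 => h3 (sub_eq_zero.1 h4)), zero_mul]

end Pool.Agent.T3h73.SG.ZEX
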