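import Pool.Agent.T3h73.SG.Zex3

/-!
Project SG (helper73, MP_a43263), task ZEX (helper85), part 4: places and equivariant families.
-/

set_option autoImplicit false
set_option linter.all false

open NumberField IsDedekindDomain Filter Topology

namespace Pool.Agent.T3h73.SG.ZEX

open Pool.Agent.T3h73.SL (Pl)
open Pool.Agent.T3h73.SD (ee)
open Pool.Agent.T3h73.SN (Sz tens inc ClW slc hcW RcW)
open Pool.Agent.T3h73.SN.EXPW (Psi Psi_apply XXW sz_sum)

/-- the facts on the places which are used -/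
structure PF (K M : Type) [Field K] [NumberField K] [Field M] [NumberField M]
    [Algebra K M] : Prop where
  one : ∀ w : Pl M, gp (1 : M ≃ₐ[K] M) w = w
  mul : ∀ (g h : M ≃ₐ[K] M) (w : Pl M), gp (g * h) w = gp g (gp h w)
  lo_gp : ∀ (g : M ≃ₐ[K] M) (w : Pl M), (lo (gp g w) : Pl K) = lo w
  tr : ∀ w w' : Pl M, (lo w : Pl K) = lo w' → ∃ g : M ≃ₐ[K] M, gp g w = w'
  up_iff : ∀ (P : Finset (Pl K)) (w : Pl M), w ∈ up P ↔ (lo w : Pl K) ∈ P
  ne : ∀ q : Pl K, ∃ w : Pl M, (lo w : Pl K) = q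

lemma pf (hPLC : S_PLC) (K M : Type) [Field K] [NumberField K] [Field M] [NumberField M]
    [Algebra K M] [IsGalois K M] : PF K M := by
  obtain ⟨h1, h2, h3, h4, h5, h6, h7, -⟩ := hPLC K M
  exact ⟨h2, h3, h4, h5, h7, fun q => (h6 q).2⟩

section
variable {K M : Type} [Field K] [NumberField K] [Field M] [NumberField M] [Algebra K M]
  (H : PF K M)

/-- the decomposition group -/
def dec (H : PF K M) (w : Pl M) : Subgroup (M ≃ₐ[K] M) where
  carrier := {g | gp g w = w}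
  mul_mem' := by
    intro a b ha hb
    show gp (a * b) w = w
    rw [H.mul, show gp b w = w from hb, show gp a w = w from ha]
  one_mem' := H.one w
  inv_mem' := by
    intro a ha
    show gp a⁻¹ w = w
    have h : gp a w = w := ha
    conv_lhs => rw [← h, ← H.mul, inv_mul_cancel, H.one]

lemma mem_dec (w : Pl M) (g : M ≃ₐ[K] M) : g ∈ dec H w ↔ gp g w = w := Iff.rfl

lemma DG_dec (w : Pl M) : DG w (dec H w) := fun g => Iff.rfl

lemma DG_iff (w : Pl M) (D : Subgroup (M ≃ₐ[K] M)) : DG w D ↔ D = dec H w := by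
  constructor
  · intro h
    ext g
    rw [h g, mem_dec]
  · rintro rfl
    exact DG_dec H w

include H in
lemma gp_inv (g : M ≃ₐ[K] M) (w w' : Pl M) : gp g w = w' ↔ w = gp g⁻¹ w' := by
  constructor
  · rintro rfl
    rw [← H.mul, inv_mul_cancel, H.one]
  · rintro rfl
    rw [← H.mul, mul_inv_cancel, H.one]

open Classical in
/-- the sum over an orbit -/
lemma orbit_sum {R : Type} [AddCommMonoid R] [Fintype (M ≃ₐ[K] M)] (w : Pl M) (F : Pl M → R) :
    ∑ g : M ≃ₐ[K] M, F (gp g w) = Nat.card (dec H w) • ∑ w' ∈ up {(lo w : Pl K)}, F w' := by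
  have h1 : ∀ g ∈ (Finset.univ : Finset (M ≃ₐ[K] M)), gp g w ∈ up {(lo w : Pl K)} := by
    intro g _
    rw [H.up_iff, H.lo_gp]
    exact Finset.mem_singleton_self _
  rw [← Finset.sum_fiberwise_of_maps_to h1, Finset.smul_sum]
  refine Finset.sum_congr rfl (fun w' hw' => ?_)
  have h2 : ∑ g ∈ Finset.univ.filter (fun g : M ≃ₐ[K] M => gp g w = w'), F (gp g w) =
      ∑ g ∈ Finset.univ.filter (fun g : M ≃ₐ[K] M => gp g w = w'), F w' := by
    refine Finset.sum_congr rfl (fun g hg => ?_)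
    rw [(Finset.mem_filter.1 hg).2]
  rw [h2, Finset.sum_const]
  congr 1
  rw [H.up_iff, Finset.mem_singleton] at hw'
  obtain ⟨g₀, hg₀⟩ := H.tr w w' hw'.symm
  rw [Nat.card_eq_fintype_card, ← Fintype.card_subtype]
  refine Fintype.card_congr
    { toFun := fun g => ⟨g₀⁻¹ * g.1, ?_⟩
      invFun := fun g => ⟨g₀ * g.1, ?_⟩
      left_inv := fun g => Subtype.ext (mul_inv_cancel_left _ _)
      right_inv := fun g => Subtype.ext (inv_mul_cancel_left _ _) }
  · rw [mem_dec, H.mul, g.2, ← hg₀, ← H.mul, inv_mul_cancel, H.one]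
  · rw [H.mul, show gp g.1 w = w from g.2, hg₀]

include H in
open Classical in
/-- the sum over `up P` -/
lemma up_sum {R : Type} [AddCommMonoid R] (P : Finset (Pl K)) (F : Pl M → R) :
    ∑ w ∈ up P, F w = ∑ q ∈ P, ∑ w ∈ up {q}, F w := by
  have h1 : ∀ w ∈ up P, (lo w : Pl K) ∈ P := fun w hw => (H.up_iff P w).1 hw
  rw [← Finset.sum_fiberwise_of_maps_to h1]
  refine Finset.sum_congr rfl (fun q hq => Finset.sum_congr ?_ (fun _ _ => rfl))
  ext w
  rw [Finset.mem_filter, H.up_iff, H.up_iff, Finset.mem_singleton]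
  constructor
  · exact fun h => h.2
  · intro h
    exact ⟨by rw [h]; exact hq, h⟩

/-- the action on the places over `P` -/
noncomputable def acU (H : PF K M) (P : Finset (Pl K)) (g : M ≃ₐ[K] M) (w : up (M := M) P) :
    up (M := M) P :=
  ⟨gp g w.1, by rw [H.up_iff, H.lo_gp]; exact (H.up_iff P w.1).1 w.2⟩

lemma acU_one (P : Finset (Pl K)) (w : up (M := M) P) : acU H P 1 w = w :=
  Subtype.ext (H.one w.1)

lemma acU_mul (P : Finset (Pl K)) (g h : M ≃ₐ[K] M) (w : up (M := M) P) :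
    acU H P (g * h) w = acU H P g (acU H P h w) := Subtype.ext (H.mul g h w.1)

/-- equivariant families are given by their values at representatives -/
lemma eqv_inj {X : Type} (ax : (M ≃ₐ[K] M) → X → X) (P : Finset (Pl K)) (w : P → up (M := M) P)
    (hw : ∀ q : P, (lo (w q).1 : Pl K) = q) (c c' : up (M := M) P → X)
    (hc : ∀ γ q, c (acU H P γ q) = ax γ (c q)) (hc' : ∀ γ q, c' (acU H P γ q) = ax γ (c' q))
    (h : ∀ q, c (w q) = c' (w q)) : c = c' := by
  funext w'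
  have h1 : (lo w'.1 : Pl K) ∈ P := (H.up_iff P w'.1).1 w'.2
  obtain ⟨g, hg⟩ := H.tr (w ⟨_, h1⟩).1 w'.1 (hw ⟨_, h1⟩)
  have h2 : w' = acU H P g (w ⟨_, h1⟩) := Subtype.ext hg.symm
  rw [h2, hc, hc', h]

lemma eqv_surj {X : Type} (ax : (M ≃ₐ[K] M) → X → X) (hax1 : ∀ x, ax 1 x = x)
    (haxm : ∀ g h x, ax (g * h) x = ax g (ax h x)) (P : Finset (Pl K)) (w : P → up (M := M) P)
    (hw : ∀ q : P, (lo (w q).1 : Pl K) = q) (a : P → X)
    (ha : ∀ q, ∀ g ∈ dec H (w q).1, ax g (a q) = a q) :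
    ∃ c : up (M := M) P → X, (∀ γ q, c (acU H P γ q) = ax γ (c q)) ∧ ∀ q, c (w q) = a q := by
  have h1 : ∀ w' : up (M := M) P, (lo w'.1 : Pl K) ∈ P := fun w' => (H.up_iff P w'.1).1 w'.2
  choose γ hγ using fun w' : up (M := M) P => H.tr (w ⟨_, h1 w'⟩).1 w'.1 (hw ⟨_, h1 w'⟩)
  -- two elements of the group with the same effect
  have key : ∀ (q : P) (g h : M ≃ₐ[K] M), gp g (w q).1 = gp h (w q).1 → ax g (a q) = ax h (a q) := by
    intro q g h hgh
    have h2 : h⁻¹ * g ∈ dec H (w q).1 := by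
      rw [mem_dec, H.mul, hgh, ← H.mul, inv_mul_cancel, H.one]
    have h3 := ha q _ h2
    have h4 : ax h (ax (h⁻¹ * g) (a q)) = ax h (a q) := by rw [h3]
    rw [← haxm, mul_inv_cancel_left] at h4
    exact h4
  have lo_eq : ∀ (w' : up (M := M) P) (q : P), (lo w'.1 : Pl K) = q → (⟨_, h1 w'⟩ : P) = q :=
    fun w' q h => Subtype.ext h
  refine ⟨fun w' => ax (γ w') (a ⟨_, h1 w'⟩), fun g w' => ?_, fun q => ?_⟩
  · show ax (γ (acU H P g w')) (a ⟨_, h1 (acU H P g w')⟩) = ax g (ax (γ w') (a ⟨_, h1 w'⟩))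
    have e : (⟨_, h1 (acU H P g w')⟩ : P) = ⟨_, h1 w'⟩ := Subtype.ext (H.lo_gp g w'.1)
    have h4 := hγ (acU H P g w')
    rw [e] at h4 ⊢
    rw [← haxm]
    refine key _ _ _ ?_
    rw [h4, H.mul, hγ w']
    rfl
  · show ax (γ (w q)) (a ⟨_, h1 (w q)⟩) = a q
    have e : (⟨_, h1 (w q)⟩ : P) = q := Subtype.ext (hw q)
    have h4 := hγ (w q)
    rw [e] at h4 ⊢
    exact ha q _ h4

end

section sel
variable {ℓ n : ℕ} [Fact ℓ.Prime] {K M : Type} [Field K] [NumberField K] [Field M] [NumberField M]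
  [Algebra K M] (pm : (M ≃ₐ[K] M) →* Equiv.Perm (Fin n)) {V : Type} [AddCommGroup V]
  [Module (ZMod ℓ) V] (av : (M ≃ₐ[K] M) →* Module.End (ZMod ℓ) V)
  (ψ : V →ₗ[ZMod ℓ] V →ₗ[ZMod ℓ] ZMod ℓ)
  (L0 : Submodule (ZMod ℓ) V) (LL : Submodule (ZMod ℓ) (Sz ℓ n V)) (u : L0)
  (g : Fin n → Fin n → L0) (t : Pl M → V) (sy : Pl M → Pl M → ZMod ℓ)

open Classical in
/-- the Selmer group of the model as a set of solutions -/
lemma card_selG (H : PF K M) (P : Finset (Pl K)) :
    nG pm av ψ L0 LL u g t sy P = Nat.card (Sol pm av ψ (acU H P) L0 LL (u : V)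
      (fun i j => (g i j : V)) (fun q : up (M := M) P => t q)
      (fun p q : up (M := M) P => sy p q)) := by
  have hXX : ∀ (w : Sz ℓ n L0) (c : Pl M → Sz ℓ n (ZMod ℓ)) (q : up (M := M) P) (i : Fin n),
      XXW ψ (u : V) (fun i j => (g i j : V)) (fun q : up (M := M) P => t q)
        (fun p q : up (M := M) P => sy p q)
        (inc w : Sz ℓ n V) (fun q => (c q : Fin n → ZMod ℓ)) q i =
      - ψ ((w : Fin n → L0) i : V) (t q) + (c q : Fin n → ZMod ℓ) i * ψ (u : V) (t q) +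
      ∑ j, ((c q : Fin n → ZMod ℓ) i - (c q : Fin n → ZMod ℓ) j) * ψ (g i j : V) (t q) +
      ∑ p ∈ (up P).erase q, ((c p : Fin n → ZMod ℓ) i - (c q : Fin n → ZMod ℓ) i) * sy p q := by
    intro w c q i
    unfold XXW
    congr 1
    have h1 : ∑ p : up (M := M) P, (if p = q then 0 else
        ((c p : Fin n → ZMod ℓ) i - (c q : Fin n → ZMod ℓ) i) * sy p q) =
        ∑ p ∈ up P, (if p = (q : Pl M) then 0 else
          ((c p : Fin n → ZMod ℓ) i - (c q : Fin n → ZMod ℓ) i) * sy p q) := by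
      rw [← Finset.sum_coe_sort (up P) (fun p => if p = (q : Pl M) then 0 else
          ((c p : Fin n → ZMod ℓ) i - (c q : Fin n → ZMod ℓ) i) * sy p q)]
      refine Finset.sum_congr rfl (fun p _ => ?_)
      simp only [Subtype.ext_iff]
    rw [h1, ← Finset.sum_erase_add (up P) _ q.2, if_pos rfl, add_zero]
    refine Finset.sum_congr rfl (fun p hp => ?_)
    rw [if_neg (Finset.ne_of_mem_erase hp)]
  have hsum : ∀ c : Pl M → Sz ℓ n (ZMod ℓ), ∑ q : up (M := M) P, tens (c q) (t q) =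
      ∑ q ∈ up P, tens (c q) (t q) := fun c => Finset.sum_coe_sort (up P) (fun q => tens (c q) (t q))
  have heq : ∀ c : Pl M → Sz ℓ n (ZMod ℓ), (∀ (γ : M ≃ₐ[K] M) (w : Pl M) (i : Fin n),
      (c (gp γ w) : Fin n → ZMod ℓ) (pm γ i) = (c w : Fin n → ZMod ℓ) i) →
      ∀ γ w, c (gp γ w) = aW pm γ (c w) := by
    intro c h γ w
    refine Subtype.ext (funext fun i => ?_)
    rw [aW_apply, ← h γ w ((pm γ)⁻¹ i)]
    exact congrArg _ (Equiv.apply_symm_apply (pm γ) i).symm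
  unfold nG
  refine Nat.card_eq_of_bijective (fun x => ⟨(⟨x.1.1, x.2.1⟩,
    ⟨fun q => x.1.2 q.1, fun γ q => heq x.1.2 x.2.2.1 γ q.1⟩), ?_, ?_⟩) ⟨?_, ?_⟩
  · have := x.2.2.2.2.1
    rw [← hsum] at this
    exact this
  · intro q i
    have h2 := hXX x.1.1 x.1.2 q i
    have h3 := x.2.2.2.2.2 q.1 q.2 i
    refine (h2.trans ?_)
    convert h3
  · intro x y hxy
    have h2 := congrArg Subtype.val hxy
    rw [Prod.mk.injEq] at h2
    have h3 : x.1.1 = y.1.1 := congrArg Subtype.val h2.1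
    have h4 : (fun q : up (M := M) P => x.1.2 q.1) = fun q => y.1.2 q.1 := congrArg Subtype.val h2.2
    refine Subtype.ext (Prod.ext h3 (funext fun q => ?_))
    by_cases hq : q ∈ up P
    · exact congrFun h4 ⟨q, hq⟩
    · have hq' : (lo q : Pl K) ∉ P := fun h => hq ((H.up_iff P q).2 h)
      rw [x.2.2.2.1 q hq', y.2.2.2.1 q hq']
  · rintro ⟨⟨w, c⟩, h1, h2⟩
    let c' : Pl M → Sz ℓ n (ZMod ℓ) := fun q => if h : q ∈ up P then c.1 ⟨q, h⟩ else 0
    have hc' : (fun q : up (M := M) P => c' q) = c.1 := by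
      funext q
      simp [c']
    have hc'' : ∀ q : up (M := M) P, c' q = c.1 q := fun q => congrFun hc' q
    have hce : ∀ (γ : M ≃ₐ[K] M) (w : Pl M) (i : Fin n),
        (c' (gp γ w) : Fin n → ZMod ℓ) (pm γ i) = (c' w : Fin n → ZMod ℓ) i := by
      intro γ w' i
      by_cases hw : w' ∈ up P
      · have hw2 : gp γ w' ∈ up P := (acU H P γ ⟨w', hw⟩).2
        have e1 : c' (gp γ w') = c.1 (acU H P γ ⟨w', hw⟩) := hc'' (acU H P γ ⟨w', hw⟩)
        have e2 : c' w' = c.1 ⟨w', hw⟩ := hc'' ⟨w', hw⟩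
        rw [e1, e2, c.2 γ ⟨w', hw⟩, aW_pm]
      · have hw2 : gp γ w' ∉ up P := by
          intro h
          rw [H.up_iff, H.lo_gp] at h
          exact hw ((H.up_iff P w').2 h)
        simp only [c', dif_neg hw, dif_neg hw2]
        rfl
    refine ⟨⟨(w.1, c'), w.2, hce, fun q hq => ?_, ?_, ?_⟩, ?_⟩
    · have hq' : q ∉ up P := fun h => hq ((H.up_iff P q).1 h)
      simp only [c', dif_neg hq']
    · rw [← hsum]
      simp only [hc'']
      exact h1
    · intro q hq i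
      have h3 : XXW ψ (u : V) (fun i j => (g i j : V)) (fun q : up (M := M) P => t q)
          (fun p q : up (M := M) P => sy p q) (inc w.1 : Sz ℓ n V)
          (fun q : up (M := M) P => (c' q : Fin n → ZMod ℓ)) ⟨q, hq⟩ i = 0 := by
        simp only [hc'']
        exact h2 ⟨q, hq⟩ i
      rw [hXX w.1 c' ⟨q, hq⟩ i] at h3
      convert h3
    · refine Subtype.ext (Prod.ext rfl (Subtype.ext ?_))
      exact hc'

end sel

end Pool.Agent.T3h73.SG.ZEX
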