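import Pool.Agent.T3h73.SG.Zex4

/-!
Project SG (helper73, MP_a43263), task ZEX (helper85), part 5: families of marked places.
-/

set_option autoImplicit false
set_option linter.all false

open NumberField IsDedekindDomain Filter Topology

namespace Pool.Agent.T3h73.SG.ZEX

open Pool.Agent.T3h73.SL (Pl)
open Pool.Agent.T3h73.SD (ee NA)
open Pool.Agent.T3h73.SN (Sz tens inc ClW slc hcW RcW)

section
variable {K M : Type} [Field K] [NumberField K] [Field M] [NumberField M] [Algebra K M]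
  (H : PF K M)

include H in
lemma lo_up1 {q : Pl K} (w : up (M := M) {q}) : (lo w.1 : Pl K) = q :=
  Finset.mem_singleton.1 ((H.up_iff {q} w.1).1 w.2)

end

section
variable {ℓ n k : ℕ} [Fact ℓ.Prime] {K M : Type} [Field K] [NumberField K] [Field M]
  [NumberField M] [Algebra K M] (pm : (M ≃ₐ[K] M) →* Equiv.Perm (Fin n)) (H : PF K M)
  (P : Finset (Pl K)) (hcyc : ∀ w : Pl M, (lo w : Pl K) ∈ P → IsCyclic (dec H w))

/-- the data of a coloured family over `P` -/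
abbrev TT (ℓ k : ℕ) {n : ℕ} {K M : Type} [Field K] [NumberField K] [Field M]
    [NumberField M] [Algebra K M] (pm : (M ≃ₐ[K] M) →* Equiv.Perm (Fin n)) (H : PF K M)
    (P : Finset (Pl K)) : Type :=
  (∀ q : P, up (M := M) {q.1}) × (P → Fin 2) × EqC ℓ k pm (acU H P)

/-- the places of the data -/
noncomputable def wU (w : ∀ q : P, up (M := M) {q.1}) (q : P) : up (M := M) P :=
  ⟨(w q).1, by rw [H.up_iff, lo_up1 H]; exact q.2⟩

lemma lo_wU (w : ∀ q : P, up (M := M) {q.1}) (q : P) : (lo (wU H P w q).1 : Pl K) = q :=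
  lo_up1 H (w q)

/-- the colours of the data -/
noncomputable def xx (τ : TT ℓ k pm H P) (q : P) : CG pm ℓ k :=
  ⟨(dec H (τ.1 q).1, τ.2.2.1 (wU H P τ.1 q), τ.2.1 q),
    hcyc _ (by rw [lo_up1 H]; exact q.2), fun g hg => by
      show aC pm g (τ.2.2.1 (wU H P τ.1 q)) = τ.2.2.1 (wU H P τ.1 q)
      rw [← τ.2.2.2 g (wU H P τ.1 q)]
      exact congrArg τ.2.2.1 (Subtype.ext (show gp g (τ.1 q).1 = (τ.1 q).1 from hg))⟩

open Classical in
/-- the family of the data -/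
noncomputable def Fam (τ : TT ℓ k pm H P) (x : CG pm ℓ k) : Finset (Pl M) :=
  (Finset.univ.filter (fun q : P => xx pm H P hcyc τ q = x)).image (fun q => (τ.1 q).1)

lemma mem_Fam (τ : TT ℓ k pm H P) (x : CG pm ℓ k) (w : Pl M) :
    w ∈ Fam pm H P hcyc τ x ↔ ∃ q, xx pm H P hcyc τ q = x ∧ (τ.1 q).1 = w := by
  classical
  unfold Fam
  rw [Finset.mem_image]
  constructor
  · rintro ⟨q, hq, h⟩
    exact ⟨q, (Finset.mem_filter.1 hq).2, h⟩
  · rintro ⟨q, hq, h⟩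
    exact ⟨q, Finset.mem_filter.2 ⟨Finset.mem_univ _, hq⟩, h⟩

include H in
lemma w_inj (w : ∀ q : P, up (M := M) {q.1}) (q q' : P) (h : (w q).1 = (w q').1) : q = q' := by
  refine Subtype.ext ?_
  rw [← lo_up1 H (w q), ← lo_up1 H (w q'), h]

open Classical in
lemma sum_Fam {R : Type} [AddCommMonoid R] (τ : TT ℓ k pm H P) (f : CG pm ℓ k → Pl M → R) :
    ∑ x, ∑ w ∈ Fam pm H P hcyc τ x, f x w = ∑ q : P, f (xx pm H P hcyc τ q) (τ.1 q).1 := by
  rw [← Finset.sum_fiberwise Finset.univ (fun q : P => xx pm H P hcyc τ q)]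
  refine Finset.sum_congr rfl (fun x _ => ?_)
  unfold Fam
  rw [Finset.sum_image (fun q _ q' _ h => w_inj H P τ.1 q q' h)]
  refine Finset.sum_congr rfl (fun q hq => ?_)
  rw [(Finset.mem_filter.1 hq).2]

open Classical in
lemma prod_Fam {R : Type} [CommMonoid R] (τ : TT ℓ k pm H P) (f : CG pm ℓ k → Pl M → R) :
    ∏ x, ∏ w ∈ Fam pm H P hcyc τ x, f x w = ∏ q : P, f (xx pm H P hcyc τ q) (τ.1 q).1 := by
  rw [← Finset.prod_fiberwise Finset.univ (fun q : P => xx pm H P hcyc τ q)]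
  refine Finset.prod_congr rfl (fun x _ => ?_)
  unfold Fam
  rw [Finset.prod_image (fun q _ q' _ h => w_inj H P τ.1 q q' h)]
  refine Finset.prod_congr rfl (fun q hq => ?_)
  rw [(Finset.mem_filter.1 hq).2]

open Classical in
/-- the places of `K` below a family -/
noncomputable def prj (A : CG pm ℓ k → Finset (Pl M)) : Finset (Pl K) :=
  Finset.univ.biUnion (fun x => (A x).image (lo : Pl M → Pl K))

lemma mem_prj (A : CG pm ℓ k → Finset (Pl M)) (q : Pl K) :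
    q ∈ prj pm A ↔ ∃ x, ∃ w ∈ A x, (lo w : Pl K) = q := by
  classical
  unfold prj
  rw [Finset.mem_biUnion]
  constructor
  · rintro ⟨x, -, h⟩
    obtain ⟨w, hw, h⟩ := Finset.mem_image.1 h
    exact ⟨x, w, hw, h⟩
  · rintro ⟨x, w, hw, h⟩
    exact ⟨x, Finset.mem_univ _, Finset.mem_image.2 ⟨w, hw, h⟩⟩

lemma prj_Fam (τ : TT ℓ k pm H P) : prj pm (Fam pm H P hcyc τ) = P := by
  ext q
  rw [mem_prj]
  constructor
  · rintro ⟨x, w, hw, rfl⟩
    obtain ⟨q', -, rfl⟩ := (mem_Fam pm H P hcyc τ x w).1 hw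
    rw [lo_up1 H]
    exact q'.2
  · intro hq
    exact ⟨xx pm H P hcyc τ ⟨q, hq⟩, (τ.1 ⟨q, hq⟩).1,
      (mem_Fam pm H P hcyc τ _ _).2 ⟨⟨q, hq⟩, rfl, rfl⟩, lo_up1 H _⟩

lemma TupX_Fam (S : Finset (Pl K)) (hP : Disjoint P S) (τ : TT ℓ k pm H P) :
    TupX S (lo : Pl M → Pl K) (OmG pm) (Fam pm H P hcyc τ) := by
  constructor
  · intro x
    constructor
    · intro w hw
      obtain ⟨q, hq, rfl⟩ := (mem_Fam pm H P hcyc τ x w).1 hw
      constructor
      · show DG (τ.1 q).1 x.1.1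
        rw [← hq]
        exact DG_dec H _
      · rw [lo_up1 H]
        exact Finset.disjoint_left.1 hP q.2
    · intro w hw w' hw' h
      obtain ⟨q, hq, rfl⟩ := (mem_Fam pm H P hcyc τ x w).1 hw
      obtain ⟨q', hq', rfl⟩ := (mem_Fam pm H P hcyc τ x w').1 hw'
      have h2 : q = q' := by
        refine Subtype.ext ?_
        rw [← lo_up1 H (τ.1 q), ← lo_up1 H (τ.1 q')]
        exact h
      rw [h2]
  · intro x x' hxx w hw w' hw' h
    obtain ⟨q, hq, rfl⟩ := (mem_Fam pm H P hcyc τ x w).1 hw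
    obtain ⟨q', hq', rfl⟩ := (mem_Fam pm H P hcyc τ x' w').1 hw'
    have h2 : q = q' := by
      refine Subtype.ext ?_
      rw [← lo_up1 H (τ.1 q), ← lo_up1 H (τ.1 q')]
      exact h
    apply hxx
    rw [← hq, ← hq', h2]

lemma Fam_inj (τ τ' : TT ℓ k pm H P) (h : Fam pm H P hcyc τ = Fam pm H P hcyc τ') : τ = τ' := by
  have h1 : ∀ q : P, (τ.1 q).1 = (τ'.1 q).1 ∧ xx pm H P hcyc τ q = xx pm H P hcyc τ' q := by
    intro q
    have h2 : (τ.1 q).1 ∈ Fam pm H P hcyc τ (xx pm H P hcyc τ q) :=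
      (mem_Fam pm H P hcyc τ _ _).2 ⟨q, rfl, rfl⟩
    rw [h] at h2
    obtain ⟨q', h3, h4⟩ := (mem_Fam pm H P hcyc τ' _ _).1 h2
    have h5 : q' = q := by
      refine Subtype.ext ?_
      rw [← lo_up1 H (τ'.1 q'), ← lo_up1 H (τ.1 q), h4]
    subst h5
    exact ⟨h4.symm, h3.symm⟩
  have hw : τ.1 = τ'.1 := funext fun q => Subtype.ext (h1 q).1
  obtain ⟨w, ε, c⟩ := τ
  obtain ⟨w', ε', c'⟩ := τ'
  have hw' : w = w' := hw
  subst hw'
  have h6 : ∀ q, ε q = ε' q := fun q => congrArg (fun x : CG pm ℓ k => x.1.2.2) (h1 q).2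
  have h7 : ∀ q, c.1 (wU H P w q) = c'.1 (wU H P w q) := fun q =>
    congrArg (fun x : CG pm ℓ k => x.1.2.1) (h1 q).2
  have h8 : c = c' := Subtype.ext
    (eqv_inj H (aC pm) P (wU H P w) (lo_wU H P w) c.1 c'.1 c.2 c'.2 h7)
  rw [h8, show ε = ε' from funext h6]

lemma Fam_surj (S : Finset (Pl K)) (A : CG pm ℓ k → Finset (Pl M))
    (hA : TupX S (lo : Pl M → Pl K) (OmG pm) A) (hP : prj pm A = P) :
    ∃ τ : TT ℓ k pm H P, Fam pm H P hcyc τ = A := by
  have h1 : ∀ q : P, ∃ x, ∃ w ∈ A x, (lo w : Pl K) = q := by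
    intro q
    rw [← mem_prj, hP]
    exact q.2
  choose x w hw hlo using h1
  have hx : ∀ q, (x q).1.1 = dec H (w q) := by
    intro q
    have h2 : DG (w q) (x q).1.1 := ((hA.1 (x q)).1 (w q) (hw q)).1
    exact (DG_iff H (w q) _).1 h2
  let w₀ : ∀ q : P, up (M := M) {q.1} := fun q => ⟨w q, by
    rw [H.up_iff, hlo]; exact Finset.mem_singleton_self _⟩
  have ha : ∀ q, ∀ g ∈ dec H (wU H P w₀ q).1, aC pm g (x q).1.2.1 = (x q).1.2.1 := by
    intro q g hg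
    refine (x q).2.2 g ?_
    rw [hx q]
    exact hg
  obtain ⟨c, hc, hc2⟩ := eqv_surj H (aC pm) (aC_one pm) (aC_mul pm) P (wU H P w₀) (lo_wU H P w₀)
    (fun q => (x q).1.2.1) ha
  refine ⟨(w₀, fun q => (x q).1.2.2, ⟨c, hc⟩), ?_⟩
  have hxx : ∀ q, xx pm H P hcyc (w₀, fun q => (x q).1.2.2, ⟨c, hc⟩) q = x q := by
    intro q
    refine Subtype.ext (Prod.ext (hx q).symm (Prod.ext ?_ rfl))
    exact hc2 q
  funext y
  ext w'
  rw [mem_Fam]
  constructor
  · rintro ⟨q, h2, h3⟩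
    rw [hxx] at h2
    rw [← h2, ← h3]
    exact hw q
  · intro hw'
    have h2 : (lo w' : Pl K) ∈ P := by
      rw [← hP, mem_prj]
      exact ⟨y, w', hw', rfl⟩
    have h3 : x ⟨_, h2⟩ = y := by
      by_contra hne
      exact hA.2 _ _ hne (w ⟨_, h2⟩) (hw ⟨_, h2⟩) w' hw' (hlo ⟨_, h2⟩)
    refine ⟨⟨_, h2⟩, (hxx _).trans h3, ?_⟩
    show w ⟨_, h2⟩ = w'
    have h4 := hw ⟨_, h2⟩
    rw [h3] at h4
    exact (hA.1 y).2 h4 hw' (hlo ⟨_, h2⟩)

/-- the number of equivariant families -/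
lemma card_EqW (w : ∀ q : P, up (M := M) {q.1}) :
    Nat.card (EqW ℓ n pm (acU H P)) = ∏ q : P, wD pm ℓ (dec H (w q).1) := by
  unfold wD
  rw [← Nat.card_pi]
  refine Nat.card_eq_of_bijective (fun c q => ⟨(c : up (M := M) P → Sz ℓ n (ZMod ℓ)) (wU H P w q),
    fun g hg => ?_⟩) ⟨?_, ?_⟩
  · rw [← c.2 g (wU H P w q)]
    exact congrArg c.1 (Subtype.ext (show gp g (w q).1 = (w q).1 from hg))
  · intro c c' h
    exact Subtype.ext (eqv_inj H (aW pm) P (wU H P w) (lo_wU H P w) c.1 c'.1 c.2 c'.2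
      (fun q => congrArg Subtype.val (congrFun h q)))
  · intro a
    obtain ⟨c, hc, hc2⟩ := eqv_surj H (aW pm) (aW_one pm) (aW_mul pm) P (wU H P w) (lo_wU H P w)
      (fun q => (a q).1) (fun q g hg => (a q).2 g hg)
    exact ⟨⟨c, hc⟩, funext fun q => Subtype.ext (hc2 q)⟩

end

end Pool.Agent.T3h73.SG.ZEX
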