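import Pool.Agent.T3h73.SG.Zex5

/-!
Project SG (helper73, MP_a43263), task ZEX (helper85), part 6: the exponent.
-/

set_option autoImplicit false
set_option linter.all false

open NumberField IsDedekindDomain Filter Topology

namespace Pool.Agent.T3h73.SG.ZEX

open Pool.Agent.T3h73.SL (Pl)
open Pool.Agent.T3h73.SD (ee NA)
open Pool.Agent.T3h73.SD.EXP (ee_add ee_zero ee_sum norm_ee)
open Pool.Agent.T3h73.SN (Sz tens inc ClW slc hcW RcW)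

section col
variable {ℓ n k : ℕ} [Fact ℓ.Prime] {G : Type} [Group G] (pm : G →* Equiv.Perm (Fin n))

lemma RcW_inv (γ : G) (a b : ClW ℓ n k) : RcW ℓ n k (aC pm γ a) (aC pm γ b) = RcW ℓ n k a b := by
  unfold RcW
  refine Finset.sum_congr rfl (fun s _ => ?_)
  exact Equiv.sum_comp ((pm γ)⁻¹) (fun i => (b.2 s : Fin n → ZMod ℓ) i *
    ((a.1 s : Fin n → ZMod ℓ) i - (b.1 s : Fin n → ZMod ℓ) i))

lemma RcW_self (a : ClW ℓ n k) : RcW ℓ n k a a = 0 := by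
  unfold RcW
  simp

lemma RcW_add (a b : ClW ℓ n k) : RcW ℓ n k a b + RcW ℓ n k b a = - QW (a - b) := by
  unfold RcW QW
  rw [← Finset.sum_add_distrib, ← Finset.sum_neg_distrib]
  refine Finset.sum_congr rfl (fun s _ => ?_)
  rw [← Finset.sum_add_distrib, ← Finset.sum_neg_distrib]
  refine Finset.sum_congr rfl (fun i _ => ?_)
  show (b.2 s : Fin n → ZMod ℓ) i * ((a.1 s : Fin n → ZMod ℓ) i - (b.1 s : Fin n → ZMod ℓ) i) +
    (a.2 s : Fin n → ZMod ℓ) i * ((b.1 s : Fin n → ZMod ℓ) i - (a.1 s : Fin n → ZMod ℓ) i) =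
    - (((a.1 s : Fin n → ZMod ℓ) i - (b.1 s : Fin n → ZMod ℓ) i) *
      ((a.2 s : Fin n → ZMod ℓ) i - (b.2 s : Fin n → ZMod ℓ) i))
  ring

lemma QW_zero : QW (0 : ClW ℓ n k) = 0 := by
  unfold QW
  refine Finset.sum_eq_zero (fun s _ => Finset.sum_eq_zero (fun i _ => ?_))
  show (0 : ZMod ℓ) * 0 = 0
  ring

end col

section orb
variable {ℓ n k : ℕ} [Fact ℓ.Prime] {K M : Type} [Field K] [NumberField K] [Field M]
  [NumberField M] [Algebra K M] (H : PF K M) (P : Finset (Pl K))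

lemma card_dec_ne (hG : ¬ ℓ ∣ Nat.card (M ≃ₐ[K] M)) (w : Pl M) :
    (Nat.card (dec H w) : ZMod ℓ) ≠ 0 := by
  rw [Ne, ZMod.natCast_eq_zero_iff]
  intro h
  exact hG (h.trans (Subgroup.card_subgroup_dvd_card _))

open Classical in
lemma orb_sum (hG : ¬ ℓ ∣ Nat.card (M ≃ₐ[K] M)) (w : ∀ q : P, up (M := M) {q.1})
    (F : up (M := M) P → ZMod ℓ) :
    ∑ w' : up (M := M) P, F w' = ∑ q : P, (Nat.card (dec H (w q).1) : ZMod ℓ)⁻¹ *
      ∑ γ : M ≃ₐ[K] M, F (acU H P γ (wU H P w q)) := by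
  let F' : Pl M → ZMod ℓ := fun w' => if h : w' ∈ up P then F ⟨w', h⟩ else 0
  have hF' : ∀ w' : up (M := M) P, F' w' = F w' := by
    intro w'
    simp [F']
  have e1 : ∑ w' : up (M := M) P, F w' = ∑ w' ∈ up P, F' w' := by
    rw [← Finset.sum_coe_sort (up P) F']
    exact Finset.sum_congr rfl (fun w' _ => (hF' w').symm)
  rw [e1, up_sum H, ← Finset.sum_coe_sort P (fun q => ∑ w ∈ up {q}, F' w)]
  refine Finset.sum_congr rfl (fun q _ => ?_)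
  have e2 := orbit_sum H (w q).1 F'
  rw [lo_up1 H (w q), nsmul_eq_mul] at e2
  have e3 : ∑ γ : M ≃ₐ[K] M, F (acU H P γ (wU H P w q)) = ∑ γ : M ≃ₐ[K] M, F' (gp γ (w q).1) :=
    Finset.sum_congr rfl (fun γ _ => (hF' (acU H P γ (wU H P w q))).symm)
  rw [e3, e2, ← mul_assoc, inv_mul_cancel₀ (card_dec_ne H hG _), one_mul]

lemma orb_inv (hG : ¬ ℓ ∣ Nat.card (M ≃ₐ[K] M)) (w : ∀ q : P, up (M := M) {q.1})
    (F : up (M := M) P → ZMod ℓ) (hF : ∀ γ w', F (acU H P γ w') = F w') :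
    ∑ w' : up (M := M) P, F w' = (Nat.card (M ≃ₐ[K] M) : ZMod ℓ) *
      ∑ q : P, (Nat.card (dec H (w q).1) : ZMod ℓ)⁻¹ * F (wU H P w q) := by
  rw [orb_sum H P hG w F, Finset.mul_sum]
  refine Finset.sum_congr rfl (fun q _ => ?_)
  simp_rw [hF]
  rw [Finset.sum_const, Finset.card_univ, nsmul_eq_mul, ← Nat.card_eq_fintype_card]
  ring

lemma orb_inv2 (hG : ¬ ℓ ∣ Nat.card (M ≃ₐ[K] M)) (w : ∀ q : P, up (M := M) {q.1})
    (F : up (M := M) P → up (M := M) P → ZMod ℓ)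
    (hF : ∀ γ w' w'', F (acU H P γ w') (acU H P γ w'') = F w' w'') :
    ∑ w' : up (M := M) P, ∑ w'' : up (M := M) P, F w' w'' = (Nat.card (M ≃ₐ[K] M) : ZMod ℓ) *
      ∑ a : P, ∑ b : P, (Nat.card (dec H (w a).1) : ZMod ℓ)⁻¹ *
        (Nat.card (dec H (w b).1) : ZMod ℓ)⁻¹ *
        ∑ γ : M ≃ₐ[K] M, F (acU H P γ (wU H P w a)) (wU H P w b) := by
  rw [orb_sum H P hG w (fun w' => ∑ w'' : up (M := M) P, F w' w''), Finset.mul_sum]
  refine Finset.sum_congr rfl (fun a _ => ?_)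
  have e1 : ∀ γ : M ≃ₐ[K] M, ∑ w'' : up (M := M) P, F (acU H P γ (wU H P w a)) w'' =
      ∑ b : P, (Nat.card (dec H (w b).1) : ZMod ℓ)⁻¹ * ∑ δ : M ≃ₐ[K] M,
        F (acU H P γ (wU H P w a)) (acU H P δ (wU H P w b)) := fun γ => orb_sum H P hG w _
  have e2 : ∀ b : P, ∑ γ : M ≃ₐ[K] M, ∑ δ : M ≃ₐ[K] M,
        F (acU H P γ (wU H P w a)) (acU H P δ (wU H P w b)) =
      (Nat.card (M ≃ₐ[K] M) : ZMod ℓ) * ∑ γ : M ≃ₐ[K] M,
        F (acU H P γ (wU H P w a)) (wU H P w b) := by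
    intro b
    rw [Finset.sum_comm]
    have e3 : ∀ δ : M ≃ₐ[K] M, ∑ γ : M ≃ₐ[K] M,
        F (acU H P γ (wU H P w a)) (acU H P δ (wU H P w b)) =
        ∑ γ : M ≃ₐ[K] M, F (acU H P γ (wU H P w a)) (wU H P w b) := by
      intro δ
      rw [← Equiv.sum_comp (Equiv.mulLeft δ)]
      refine Finset.sum_congr rfl (fun γ _ => ?_)
      show F (acU H P (δ * γ) (wU H P w a)) (acU H P δ (wU H P w b)) = _
      rw [acU_mul, hF]
    rw [Finset.sum_congr rfl (fun δ _ => e3 δ), Finset.sum_const, Finset.card_univ, nsmul_eq_mul,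
      ← Nat.card_eq_fintype_card]
  simp_rw [e1]
  rw [Finset.sum_comm]
  simp_rw [← Finset.mul_sum]
  simp_rw [e2]
  rw [Finset.mul_sum, Finset.mul_sum]
  refine Finset.sum_congr rfl (fun b _ => ?_)
  ring

lemma orb_symm (hl2 : ℓ ≠ 2) (hG : ¬ ℓ ∣ Nat.card (M ≃ₐ[K] M))
    (w : ∀ q : P, up (M := M) {q.1})
    (F R : up (M := M) P → up (M := M) P → ZMod ℓ)
    (hF : ∀ γ w' w'', F (acU H P γ w') (acU H P γ w'') = F w' w'')
    (hR : ∀ w' w'', F w' w'' + F w'' w' = - R w' w'') :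
    ∑ a : P, ∑ b : P, (Nat.card (dec H (w a).1) : ZMod ℓ)⁻¹ *
        (Nat.card (dec H (w b).1) : ZMod ℓ)⁻¹ *
        ∑ γ : M ≃ₐ[K] M, F (acU H P γ (wU H P w a)) (wU H P w b) =
      ∑ a : P, ∑ b : P, - ((2 : ZMod ℓ)⁻¹ * (Nat.card (dec H (w a).1) : ZMod ℓ)⁻¹ *
        (Nat.card (dec H (w b).1) : ZMod ℓ)⁻¹ *
        ∑ γ : M ≃ₐ[K] M, R (acU H P γ (wU H P w a)) (wU H P w b)) := by
  have h2 : (2 : ZMod ℓ) ≠ 0 := by
    intro h
    have h3 : ((2 : ℕ) : ZMod ℓ) = 0 := by exact_mod_cast h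
    rw [ZMod.natCast_eq_zero_iff] at h3
    rcases (Nat.dvd_prime Nat.prime_two).1 h3 with h4 | h4
    · exact (Fact.out : ℓ.Prime).one_lt.ne' h4
    · exact hl2 h4
  set T : P → P → ZMod ℓ := fun a b => (Nat.card (dec H (w a).1) : ZMod ℓ)⁻¹ *
        (Nat.card (dec H (w b).1) : ZMod ℓ)⁻¹ *
        ∑ γ : M ≃ₐ[K] M, F (acU H P γ (wU H P w a)) (wU H P w b) with hT
  have e1 : ∀ a b, T b a = (Nat.card (dec H (w a).1) : ZMod ℓ)⁻¹ *
        (Nat.card (dec H (w b).1) : ZMod ℓ)⁻¹ *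
        ∑ γ : M ≃ₐ[K] M, F (wU H P w b) (acU H P γ (wU H P w a)) := by
    intro a b
    rw [hT]
    show (Nat.card (dec H (w b).1) : ZMod ℓ)⁻¹ * (Nat.card (dec H (w a).1) : ZMod ℓ)⁻¹ *
        ∑ γ : M ≃ₐ[K] M, F (acU H P γ (wU H P w b)) (wU H P w a) = _
    rw [← Equiv.sum_comp (Equiv.inv (M ≃ₐ[K] M))]
    have e2 : ∀ γ : M ≃ₐ[K] M, F (acU H P ((Equiv.inv (M ≃ₐ[K] M)) γ) (wU H P w b)) (wU H P w a) =
        F (wU H P w b) (acU H P γ (wU H P w a)) := by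
      intro γ
      show F (acU H P γ⁻¹ (wU H P w b)) (wU H P w a) = _
      rw [← hF γ, ← acU_mul, mul_inv_cancel, acU_one]
    simp_rw [e2]
    ring
  have e3 : (2 : ZMod ℓ) * ∑ a : P, ∑ b : P, T a b = ∑ a : P, ∑ b : P, (T a b + T b a) := by
    simp_rw [Finset.sum_add_distrib]
    rw [two_mul]
    congr 1
    exact Finset.sum_comm
  have e4 : ∑ a : P, ∑ b : P, T a b = (2 : ZMod ℓ)⁻¹ * ∑ a : P, ∑ b : P, (T a b + T b a) := by
    rw [← e3, ← mul_assoc, inv_mul_cancel₀ h2, one_mul]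
  show ∑ a : P, ∑ b : P, T a b = _
  rw [e4, Finset.mul_sum]
  refine Finset.sum_congr rfl (fun a _ => ?_)
  rw [Finset.mul_sum]
  refine Finset.sum_congr rfl (fun b _ => ?_)
  rw [e1 a b]
  show (2 : ZMod ℓ)⁻¹ * ((Nat.card (dec H (w a).1) : ZMod ℓ)⁻¹ *
        (Nat.card (dec H (w b).1) : ZMod ℓ)⁻¹ *
        ∑ γ : M ≃ₐ[K] M, F (acU H P γ (wU H P w a)) (wU H P w b) +
        (Nat.card (dec H (w a).1) : ZMod ℓ)⁻¹ *
        (Nat.card (dec H (w b).1) : ZMod ℓ)⁻¹ *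
        ∑ γ : M ≃ₐ[K] M, F (wU H P w b) (acU H P γ (wU H P w a))) = _
  rw [← mul_add, ← Finset.sum_add_distrib]
  simp_rw [hR]
  rw [Finset.sum_neg_distrib]
  ring

end orb

section expo
variable {ℓ n k : ℕ} [Fact ℓ.Prime] {K M : Type} [Field K] [NumberField K] [Field M]
  [NumberField M] [Algebra K M] (pm : (M ≃ₐ[K] M) →* Equiv.Perm (Fin n)) {V : Type}
  [AddCommGroup V] [Module (ZMod ℓ) V] (av : (M ≃ₐ[K] M) →* Module.End (ZMod ℓ) V)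
  (ψ : V →ₗ[ZMod ℓ] V →ₗ[ZMod ℓ] ZMod ℓ) (L0 : Submodule (ZMod ℓ) V) (t : Pl M → V)
  (sy : Pl M → Pl M → ZMod ℓ) (H : PF K M) (P : Finset (Pl K))
  (hcyc : ∀ w : Pl M, (lo w : Pl K) ∈ P → IsCyclic (dec H w))

open Classical in
/-- the exponent of the data -/
lemma expoG (hl2 : ℓ ≠ 2) (hG : ¬ ℓ ∣ Nat.card (M ≃ₐ[K] M))
    (inv : ∀ γ x y, ψ (av γ x) (av γ y) = ψ x y) (hh : ClW ℓ n k → L0)
    (hhi : ∀ γ a, av γ (hh a : V) = hh (aC pm γ a))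
    (ht : ∀ (γ : M ≃ₐ[K] M) (w : up (M := M) P), t (gp γ w.1) = av γ (t w.1))
    (hsy : ∀ (γ : M ≃ₐ[K] M) (w w' : up (M := M) P), sy (gp γ w.1) (gp γ w'.1) = sy w.1 w'.1)
    (hss : ∀ (w w' : up (M := M) P), w ≠ w' → sy w.1 w'.1 = sy w'.1 w.1)
    (τ : TT ℓ k pm H P) :
    ∑ q : P, chiG pm ψ L0 t hh (xx pm H P hcyc τ q) (τ.1 q).1 +
      ∑ a : P, ∑ b : P, rhoG pm sy (xx pm H P hcyc τ a) (xx pm H P hcyc τ b) (τ.1 a).1 (τ.1 b).1 =
    (Nat.card (M ≃ₐ[K] M) : ZMod ℓ)⁻¹ *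
      (∑ w : up (M := M) P, ψ (hh (τ.2.2.1 w) : V) (t w) +
        ∑ p : up (M := M) P, ∑ q : up (M := M) P, if p = q then 0 else
          RcW ℓ n k (τ.2.2.1 p) (τ.2.2.1 q) * sy p q) := by
  have hGne : (Nat.card (M ≃ₐ[K] M) : ZMod ℓ) ≠ 0 := by
    rwa [Ne, ZMod.natCast_eq_zero_iff]
  set c := τ.2.2.1 with hc
  have hce : ∀ γ w, c (acU H P γ w) = aC pm γ (c w) := τ.2.2.2
  have e1 := orb_inv H P hG τ.1 (fun w => ψ (hh (c w) : V) (t w)) (fun γ w => by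
    show ψ (hh (c (acU H P γ w)) : V) (t (gp γ w.1)) = _
    rw [hce, ← hhi, ht, inv])
  let F : up (M := M) P → up (M := M) P → ZMod ℓ := fun p q => if p = q then 0 else
    RcW ℓ n k (c p) (c q) * sy p q
  let R : up (M := M) P → up (M := M) P → ZMod ℓ := fun p q => QW (c p - c q) * sy p q
  have hF : ∀ γ w' w'', F (acU H P γ w') (acU H P γ w'') = F w' w'' := by
    intro γ w' w''
    show (if acU H P γ w' = acU H P γ w'' then 0 else _) = (if w' = w'' then 0 else _)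
    by_cases h : w' = w''
    · rw [if_pos h, if_pos (by rw [h])]
    · rw [if_neg h, if_neg (fun h2 => h ((ac_inj (acU H P) (acU_one H P) (acU_mul H P)
        γ w' w'').1 h2)), hce, hce, RcW_inv]
      exact congrArg _ (hsy γ w' w'')
  have hR : ∀ w' w'', F w' w'' + F w'' w' = - R w' w'' := by
    intro w' w''
    show (if w' = w'' then 0 else RcW ℓ n k (c w') (c w'') * sy w' w'') +
      (if w'' = w' then 0 else RcW ℓ n k (c w'') (c w') * sy w'' w') =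
      - (QW (c w' - c w'') * sy w' w'')
    by_cases h : w' = w''
    · rw [if_pos h, if_pos h.symm, h, sub_self, QW_zero]
      ring
    · rw [if_neg h, if_neg (fun h2 => h h2.symm), ← hss w' w'' h, ← add_mul, RcW_add]
      ring
  have e2 := orb_inv2 H P hG τ.1 F hF
  have e3 := orb_symm H P hl2 hG τ.1 F R hF hR
  have e4 : ∑ p : up (M := M) P, ∑ q : up (M := M) P, (if p = q then 0 else
          RcW ℓ n k (c p) (c q) * sy p q) = ∑ p, ∑ q, F p q := rfl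
  have e5 : ∀ a b : P, rhoG pm sy (xx pm H P hcyc τ a) (xx pm H P hcyc τ b) (τ.1 a).1 (τ.1 b).1 =
      - ((2 : ZMod ℓ)⁻¹ * (Nat.card (dec H (τ.1 a).1) : ZMod ℓ)⁻¹ *
        (Nat.card (dec H (τ.1 b).1) : ZMod ℓ)⁻¹ *
        ∑ γ : M ≃ₐ[K] M, R (acU H P γ (wU H P τ.1 a)) (wU H P τ.1 b)) := by
    intro a b
    have e6 : ∀ γ : M ≃ₐ[K] M, R (acU H P γ (wU H P τ.1 a)) (wU H P τ.1 b) =
        QW (aC pm γ (c (wU H P τ.1 a)) - c (wU H P τ.1 b)) * sy (gp γ (τ.1 a).1) (τ.1 b).1 := by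
      intro γ
      show QW (c (acU H P γ (wU H P τ.1 a)) - c (wU H P τ.1 b)) * _ = _
      rw [hce]
      rfl
    rw [Finset.sum_congr rfl (fun γ _ => e6 γ)]
    rfl
  have e7 : ∀ q : P, chiG pm ψ L0 t hh (xx pm H P hcyc τ q) (τ.1 q).1 =
      (Nat.card (dec H (τ.1 q).1) : ZMod ℓ)⁻¹ * ψ (hh (c (wU H P τ.1 q)) : V)
        (t (wU H P τ.1 q).1) := fun q => rfl
  rw [e4, e1, e2, e3, ← mul_add, ← mul_assoc, inv_mul_cancel₀ hGne, one_mul]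
  rw [Finset.sum_congr rfl (fun q _ => e7 q),
    Finset.sum_congr rfl (fun a _ => Finset.sum_congr rfl (fun b _ => e5 a b))]

end expo

end Pool.Agent.T3h73.SG.ZEX
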