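import Pool.Agent.T3h73.SG.Zex6

/-!
Project SG (helper73, MP_a43263), task ZEX (helper85), part 7: the sum over the families over one set.
-/

set_option autoImplicit false
set_option linter.all false

open NumberField IsDedekindDomain Filter Topology

namespace Pool.Agent.T3h73.SG.ZEX

open Pool.Agent.T3h73.SL (Pl)
open Pool.Agent.T3h73.SD (ee NA)
open Pool.Agent.T3h73.SD.EXP (ee_add ee_zero ee_sum norm_ee)
open Pool.Agent.T3h73.SN (Sz tens inc ClW slc hcW RcW)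

section
variable {ℓ n k : ℕ} [Fact ℓ.Prime] {K M : Type} [Field K] [NumberField K] [Field M]
  [NumberField M] [Algebra K M] (pm : (M ≃ₐ[K] M) →* Equiv.Perm (Fin n)) {V : Type}
  [AddCommGroup V] [Module (ZMod ℓ) V] (av : (M ≃ₐ[K] M) →* Module.End (ZMod ℓ) V)
  (ψ : V →ₗ[ZMod ℓ] V →ₗ[ZMod ℓ] ZMod ℓ) (L0 : Submodule (ZMod ℓ) V) (t : Pl M → V)
  (sy : Pl M → Pl M → ZMod ℓ) (H : PF K M) (P : Finset (Pl K))
  (hcyc : ∀ w : Pl M, (lo w : Pl K) ∈ P → IsCyclic (dec H w))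

open Classical in
lemma trm_Fam (hh : ClW ℓ n k → L0) (s : ℝ) (τ : TT ℓ k pm H P) :
    trmX (lo : Pl M → Pl K) (lamG pm) (IG pm ψ L0 t sy hh) (rhoG pm sy) s
      (Fam pm H P hcyc τ) =
    ((∏ q : P, (lamG pm (xx pm H P hcyc τ q) * (Ideal.absNorm q.1.asIdeal : ℝ) ^ (-s)) : ℝ) : ℂ) *
      ee ℓ (∑ q : P, chiG pm ψ L0 t hh (xx pm H P hcyc τ q) (τ.1 q).1 +
      ∑ a : P, ∑ b : P, rhoG pm sy (xx pm H P hcyc τ a) (xx pm H P hcyc τ b)
        (τ.1 a).1 (τ.1 b).1) := by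
  unfold trmX
  have e1 : (∏ x, (lamG pm x ^ (Fam pm H P hcyc τ x).card *
      (NO (lo : Pl M → Pl K) (Fam pm H P hcyc τ x) : ℝ) ^ (-s))) =
      ∏ q : P, (lamG pm (xx pm H P hcyc τ q) * (Ideal.absNorm q.1.asIdeal : ℝ) ^ (-s)) := by
    have e2 : ∀ x, lamG pm x ^ (Fam pm H P hcyc τ x).card *
      (NO (lo : Pl M → Pl K) (Fam pm H P hcyc τ x) : ℝ) ^ (-s) =
      ∏ w ∈ Fam pm H P hcyc τ x, (lamG pm x *
        (Ideal.absNorm (lo w : Pl K).asIdeal : ℝ) ^ (-s)) := by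
      intro x
      rw [Finset.prod_mul_distrib, Finset.prod_const, NO, Nat.cast_prod,
        Real.finset_prod_rpow _ _ (fun i _ => Nat.cast_nonneg _)]
    rw [Finset.prod_congr rfl (fun x _ => e2 x), prod_Fam pm H P hcyc τ (fun x w => lamG pm x *
        (Ideal.absNorm (lo w : Pl K).asIdeal : ℝ) ^ (-s))]
    refine Finset.prod_congr rfl (fun q _ => ?_)
    rw [lo_up1 H (τ.1 q)]
  rw [e1, mul_assoc]
  congr 1
  have e3 : ∏ x, IG pm ψ L0 t sy hh x (Fam pm H P hcyc τ x) =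
      ee ℓ (∑ x, (∑ w ∈ Fam pm H P hcyc τ x, chiG pm ψ L0 t hh x w +
        ∑ w ∈ Fam pm H P hcyc τ x, ∑ w' ∈ Fam pm H P hcyc τ x, rhoG pm sy x x w w')) := by
    rw [ee_sum]
    rfl
  rw [e3, ← ee_add]
  congr 1
  rw [Finset.sum_add_distrib, add_assoc, sum_Fam pm H P hcyc τ (chiG pm ψ L0 t hh)]
  congr 1
  rw [← Finset.sum_add_distrib]
  have e4 : ∀ x, ∑ w ∈ Fam pm H P hcyc τ x, ∑ w' ∈ Fam pm H P hcyc τ x, rhoG pm sy x x w w' +
      ∑ x', (if x = x' then 0 else ∑ w ∈ Fam pm H P hcyc τ x, ∑ w' ∈ Fam pm H P hcyc τ x',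
        rhoG pm sy x x' w w') =
      ∑ w ∈ Fam pm H P hcyc τ x, ∑ x', ∑ w' ∈ Fam pm H P hcyc τ x', rhoG pm sy x x' w w' := by
    intro x
    have e5 : ∑ w ∈ Fam pm H P hcyc τ x, ∑ x', ∑ w' ∈ Fam pm H P hcyc τ x', rhoG pm sy x x' w w' =
      ∑ x', ∑ w ∈ Fam pm H P hcyc τ x, ∑ w' ∈ Fam pm H P hcyc τ x', rhoG pm sy x x' w w' :=
      Finset.sum_comm
    rw [e5, ← Finset.add_sum_erase Finset.univ (fun x' => ∑ w ∈ Fam pm H P hcyc τ x,
      ∑ w' ∈ Fam pm H P hcyc τ x', rhoG pm sy x x' w w') (Finset.mem_univ x)]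
    congr 1
    rw [← Finset.add_sum_erase Finset.univ _ (Finset.mem_univ x), if_pos rfl, zero_add]
    refine Finset.sum_congr rfl (fun x' hx' => ?_)
    rw [if_neg (Finset.ne_of_mem_erase hx').symm]
  rw [Finset.sum_congr rfl (fun x _ => e4 x), sum_Fam pm H P hcyc τ (fun x w =>
    ∑ x', ∑ w' ∈ Fam pm H P hcyc τ x', rhoG pm sy x x' w w')]
  refine Finset.sum_congr rfl (fun a _ => ?_)
  exact sum_Fam pm H P hcyc τ (fun x' w' => rhoG pm sy (xx pm H P hcyc τ a) x' (τ.1 a).1 w')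

open Classical in
include H in
lemma sum_dec_one (q : Pl K) :
    ∑ w : up (M := M) {q}, (Nat.card (dec H w.1) / Nat.card (M ≃ₐ[K] M) : ℝ) = 1 := by
  have hG0 : (Nat.card (M ≃ₐ[K] M) : ℝ) ≠ 0 := by
    have : 0 < Nat.card (M ≃ₐ[K] M) := Nat.card_pos
    positivity
  obtain ⟨w₀, hw₀⟩ := H.ne q
  have hpos : 0 < (up (M := M) {q}).card :=
    Finset.card_pos.2 ⟨w₀, (H.up_iff {q} w₀).2 (by rw [hw₀]; exact Finset.mem_singleton_self _)⟩
  have hc0 : ((up (M := M) {q}).card : ℝ) ≠ 0 := by positivity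
  have e1 : ∀ w : up (M := M) {q}, (Nat.card (dec H w.1) / Nat.card (M ≃ₐ[K] M) : ℝ) =
      1 / ((up (M := M) {q}).card : ℝ) := by
    intro w
    have e2 := orbit_sum H w.1 (fun _ => (1 : ℕ))
    rw [lo_up1 H w] at e2
    simp only [Finset.sum_const, Finset.card_univ, smul_eq_mul, mul_one] at e2
    have e3 : (Nat.card (M ≃ₐ[K] M) : ℝ) = Nat.card (dec H w.1) * ((up (M := M) {q}).card : ℝ) := by
      rw [← Nat.cast_mul, ← e2, Nat.card_eq_fintype_card]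
    rw [div_eq_div_iff hG0 hc0, one_mul, e3]
  rw [Finset.sum_congr rfl (fun w _ => e1 w), Finset.sum_const, Finset.card_univ, Fintype.card_coe,
    nsmul_eq_mul]
  field_simp

open Classical in
/-- the sum over the data -/
lemma sum_TT (hl2 : ℓ ≠ 2) (hG : ¬ ℓ ∣ Nat.card (M ≃ₐ[K] M))
    (inv : ∀ γ x y, ψ (av γ x) (av γ y) = ψ x y) (hh : ClW ℓ n k → L0)
    (hhi : ∀ γ a, av γ (hh a : V) = hh (aC pm γ a))
    (ht : ∀ (γ : M ≃ₐ[K] M) (w : up (M := M) P), t (gp γ w.1) = av γ (t w.1))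
    (hsy : ∀ (γ : M ≃ₐ[K] M) (w w' : up (M := M) P), sy (gp γ w.1) (gp γ w'.1) = sy w.1 w'.1)
    (hss : ∀ (w w' : up (M := M) P), w ≠ w' → sy w.1 w'.1 = sy w'.1 w.1) (s : ℝ) :
    ∑ τ : TT ℓ k pm H P, trmX (lo : Pl M → Pl K) (lamG pm) (IG pm ψ L0 t sy hh) (rhoG pm sy) s
      (Fam pm H P hcyc τ) =
    (((NA P : ℝ) ^ (-s) : ℝ) : ℂ) * ((Nat.card (EqW ℓ n pm (acU H P)) : ℂ) ^ k)⁻¹ *
      ∑ c : EqC ℓ k pm (acU H P), ee ℓ ((Nat.card (M ≃ₐ[K] M) : ZMod ℓ)⁻¹ *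
      (∑ w : up (M := M) P, ψ (hh (c.1 w) : V) (t w) +
        ∑ p : up (M := M) P, ∑ q : up (M := M) P, if p = q then 0 else
          RcW ℓ n k (c.1 p) (c.1 q) * sy p q)) := by
  have hNA : (NA P : ℝ) ^ (-s) = ∏ q : P, (Ideal.absNorm q.1.asIdeal : ℝ) ^ (-s) := by
    rw [NA, Nat.cast_prod, ← Real.finset_prod_rpow _ _ (fun i _ => Nat.cast_nonneg _),
      ← Finset.prod_coe_sort P (fun q => (Ideal.absNorm q.asIdeal : ℝ) ^ (-s))]
  have e1 : ∀ τ : TT ℓ k pm H P, (∏ q : P, (lamG pm (xx pm H P hcyc τ q) *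
      (Ideal.absNorm q.1.asIdeal : ℝ) ^ (-s))) = (NA P : ℝ) ^ (-s) *
      ((Nat.card (EqW ℓ n pm (acU H P)) : ℝ) ^ k)⁻¹ * ((1 / 2) ^ P.card *
        ∏ q : P, (Nat.card (dec H (τ.1 q).1) / Nat.card (M ≃ₐ[K] M) : ℝ)) := by
    intro τ
    have e2 : ∀ q : P, lamG pm (xx pm H P hcyc τ q) = (1 / 2) *
        (((wD pm ℓ (dec H (τ.1 q).1) : ℝ)) ^ k)⁻¹ *
        (Nat.card (dec H (τ.1 q).1) / Nat.card (M ≃ₐ[K] M) : ℝ) := fun q => rfl
    rw [Finset.prod_mul_distrib, ← hNA, Finset.prod_congr rfl (fun q _ => e2 q),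
      Finset.prod_mul_distrib, Finset.prod_mul_distrib, Finset.prod_const, Finset.card_univ,
      Fintype.card_coe, card_EqW pm H P τ.1, Nat.cast_prod, Finset.prod_inv_distrib,
      Finset.prod_pow]
    ring
  have e3 : ∀ τ : TT ℓ k pm H P, trmX (lo : Pl M → Pl K) (lamG pm) (IG pm ψ L0 t sy hh)
      (rhoG pm sy) s (Fam pm H P hcyc τ) =
      (((NA P : ℝ) ^ (-s) : ℝ) : ℂ) * ((Nat.card (EqW ℓ n pm (acU H P)) : ℂ) ^ k)⁻¹ *
        ((((1 / 2) ^ P.card * ∏ q : P, (Nat.card (dec H (τ.1 q).1) /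
          Nat.card (M ≃ₐ[K] M) : ℝ) : ℝ) : ℂ) *
      ee ℓ ((Nat.card (M ≃ₐ[K] M) : ZMod ℓ)⁻¹ *
      (∑ w : up (M := M) P, ψ (hh (τ.2.2.1 w) : V) (t w) +
        ∑ p : up (M := M) P, ∑ q : up (M := M) P, if p = q then 0 else
          RcW ℓ n k (τ.2.2.1 p) (τ.2.2.1 q) * sy p q))) := by
    intro τ
    rw [trm_Fam, e1, expoG pm av ψ L0 t sy H P hcyc hl2 hG inv hh hhi ht hsy hss τ]
    push_cast
    ring
  rw [Finset.sum_congr rfl (fun τ _ => e3 τ), ← Finset.mul_sum]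
  congr 1
  rw [Fintype.sum_prod_type]
  have e4 : ∀ w : ∀ q : P, up (M := M) {q.1}, ∑ y : (P → Fin 2) × EqC ℓ k pm (acU H P),
      ((((1 / 2) ^ P.card * ∏ q : P, (Nat.card (dec H (w q).1) /
          Nat.card (M ≃ₐ[K] M) : ℝ) : ℝ) : ℂ) *
      ee ℓ ((Nat.card (M ≃ₐ[K] M) : ZMod ℓ)⁻¹ *
      (∑ w : up (M := M) P, ψ (hh (y.2.1 w) : V) (t w) +
        ∑ p : up (M := M) P, ∑ q : up (M := M) P, if p = q then 0 else
          RcW ℓ n k (y.2.1 p) (y.2.1 q) * sy p q))) =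
      (((∏ q : P, (Nat.card (dec H (w q).1) / Nat.card (M ≃ₐ[K] M) : ℝ) : ℝ) : ℂ) *
        ∑ c : EqC ℓ k pm (acU H P), ee ℓ ((Nat.card (M ≃ₐ[K] M) : ZMod ℓ)⁻¹ *
      (∑ w : up (M := M) P, ψ (hh (c.1 w) : V) (t w) +
        ∑ p : up (M := M) P, ∑ q : up (M := M) P, if p = q then 0 else
          RcW ℓ n k (c.1 p) (c.1 q) * sy p q))) := by
    intro w
    rw [Fintype.sum_prod_type]
    simp_rw [← Finset.mul_sum]
    rw [Finset.sum_const, Finset.card_univ, nsmul_eq_mul, ← mul_assoc]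
    congr 1
    rw [Fintype.card_pi, Finset.prod_const, Finset.card_univ, Fintype.card_coe, Fintype.card_fin]
    have h : ((1:ℂ)/2)^P.card * 2^P.card = 1 := by
      rw [← mul_pow]; norm_num
    push_cast
    linear_combination (∏ q : P, ((Nat.card (dec H (w q).1) : ℂ) /
      (Nat.card (M ≃ₐ[K] M) : ℂ))) * h
  rw [Finset.sum_congr rfl (fun w _ => e4 w), ← Finset.sum_mul, ← Complex.ofReal_sum]
  have e5 : ∑ w : ∀ q : P, up (M := M) {q.1}, ∏ q : P,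
      (Nat.card (dec H (w q).1) / Nat.card (M ≃ₐ[K] M) : ℝ) = 1 := by
    have e6 := Finset.prod_univ_sum (fun q : P => (Finset.univ : Finset (up (M := M) {q.1})))
      (fun (q : P) (w : up (M := M) {q.1}) =>
        (Nat.card (dec H w.1) / Nat.card (M ≃ₐ[K] M) : ℝ))
    rw [Fintype.piFinset_univ] at e6
    rw [← e6]
    exact Finset.prod_eq_one (fun q _ => sum_dec_one H q.1)
  rw [e5, Complex.ofReal_one, one_mul]

end

end Pool.Agent.T3h73.SG.ZEX
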