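import Pool.Agent.T3h73.SG.Zex7
import Pool.Agent.T3h73.SG.FamX

/-!
Project SG (helper73, MP_a43263), task ZEX (helper85), part 8: the coloured sum as a sum over the
finite sets of places of `K`.
-/

set_option autoImplicit false
set_option linter.all false

open NumberField IsDedekindDomain Filter Topology

namespace Pool.Agent.T3h73.SG.ZEX

open Pool.Agent.T3h73.SL (Pl)
open Pool.Agent.T3h73.SD (ee NA)
open Pool.Agent.T3h73.SD.EXP (ee_add ee_zero ee_sum norm_ee)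
open Pool.Agent.T3h73.SN (Sz tens inc ClW slc hcW RcW)
open Pool.Agent.T3h73.SG.FamX

section
variable {ℓ n k : ℕ} [Fact ℓ.Prime] {K M : Type} [Field K] [NumberField K] [Field M]
  [NumberField M] [Algebra K M] (pm : (M ≃ₐ[K] M) →* Equiv.Perm (Fin n))

lemma lamG_pos (x : CG pm ℓ k) : 0 < lamG pm x := by
  unfold lamG wD
  haveI : NeZero ℓ := ⟨(Fact.out : ℓ.Prime).ne_zero⟩
  haveI : Nonempty {c : Sz ℓ n (ZMod ℓ) // ∀ g ∈ x.1.1, aW pm g c = c} :=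
    ⟨⟨0, fun g _ => Subtype.ext rfl⟩⟩
  have h1 : 0 < Nat.card {c : Sz ℓ n (ZMod ℓ) // ∀ g ∈ x.1.1, aW pm g c = c} := Nat.card_pos
  have h2 : 0 < Nat.card x.1.1 := Nat.card_pos
  have h3 : 0 < Nat.card (M ≃ₐ[K] M) := Nat.card_pos
  positivity

lemma lamG_le (x : CG pm ℓ k) : lamG pm x ≤ 1 := by
  unfold lamG wD
  haveI : NeZero ℓ := ⟨(Fact.out : ℓ.Prime).ne_zero⟩
  haveI : Nonempty {c : Sz ℓ n (ZMod ℓ) // ∀ g ∈ x.1.1, aW pm g c = c} :=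
    ⟨⟨0, fun g _ => Subtype.ext rfl⟩⟩
  have h1 : 0 < Nat.card {c : Sz ℓ n (ZMod ℓ) // ∀ g ∈ x.1.1, aW pm g c = c} := Nat.card_pos
  have h2 : 0 < Nat.card x.1.1 := Nat.card_pos
  have h3 : 0 < Nat.card (M ≃ₐ[K] M) := Nat.card_pos
  have h4 : (Nat.card x.1.1 / Nat.card (M ≃ₐ[K] M) : ℝ) ≤ 1 := by
    rw [div_le_one (by positivity)]
    exact_mod_cast Nat.le_of_dvd h3 (Subgroup.card_subgroup_dvd_card x.1.1)
  have h5 : ((Nat.card {c : Sz ℓ n (ZMod ℓ) // ∀ g ∈ x.1.1, aW pm g c = c} : ℝ) ^ k)⁻¹ ≤ 1 := by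
    refine inv_le_one_of_one_le₀ (one_le_pow₀ ?_)
    exact_mod_cast h1
  have h6 : (0 : ℝ) ≤ (Nat.card x.1.1 / Nat.card (M ≃ₐ[K] M) : ℝ) := by positivity
  have h7 : (0 : ℝ) ≤ ((Nat.card {c : Sz ℓ n (ZMod ℓ) // ∀ g ∈ x.1.1, aW pm g c = c} : ℝ) ^ k)⁻¹ := by
    positivity
  calc _ ≤ (1 / 2 : ℝ) * 1 * 1 := by
        refine mul_le_mul (mul_le_mul_of_nonneg_left h5 (by norm_num)) h4 h6 (by norm_num)
    _ ≤ 1 := by norm_num

open Classical in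
lemma summ_CS [IsGalois K M] (hPLC : S_PLC) (hXMAS : S_XMAS) (hYDN : S_YDN) (S : Finset (Pl K))
    (hU : Unr K M S) (I : CG pm ℓ k → Finset (Pl M) → ℂ) (hI : ∀ c A, ‖I c A‖ ≤ 1)
    (ρ : CG pm ℓ k → CG pm ℓ k → Pl M → Pl M → ZMod ℓ) (s : ℝ) (hs : 1 < s) (hs2 : s ≤ 2) :
    Summable (fun A : CG pm ℓ k → Finset (Pl M) =>
      if TupX S (lo : Pl M → Pl K) (OmG pm) A then
        trmX (lo : Pl M → Pl K) (lamG pm) I ρ s A else 0) := by
  obtain ⟨-, -, -, -, -, -, -, hF, -⟩ := hPLC K M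
  have hsum : ∀ c : CG pm ℓ k, Summable (fun A : Finset (Pl M) =>
      wX S (lo : Pl M → Pl K) (OmG pm c) (lamG pm c) s A) := by
    intro c
    have h0 : 0 < Nat.card c.1.1 := Nat.card_pos
    have h1 : 0 < Nat.totient (Nat.card c.1.1) := Nat.totient_pos.2 h0
    have hl := lamG_pos pm c
    obtain ⟨C₁, -, h2, -⟩ := one_var hXMAS S (lo : Pl M → Pl K) (OmG pm c) (lamG pm c)
      (lamG pm c * (Nat.totient (Nat.card c.1.1) / Nat.card c.1.1 : ℝ)) hF hl (lamG_le pm c)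
      (by positivity) (hYDN K M S hU c.1.1 c.2.1 (lamG pm c) hl)
    exact (h2 s hs hs2).1
  have hw0 : ∀ (c : CG pm ℓ k) (A : Finset (Pl M)),
      0 ≤ wX S (lo : Pl M → Pl K) (OmG pm c) (lamG pm c) s A := fun c A =>
    wX_nonneg S _ _ (lamG_pos pm c).le s A
  obtain ⟨hP, -⟩ := SD.Fam.pi_sum (fun c A => wX S (lo : Pl M → Pl K) (OmG pm c) (lamG pm c) s A)
    hw0 hsum
  refine Summable.of_norm_bounded hP fun A => ?_
  split_ifs with h
  · exact norm_trmX_le S _ _ (lamG pm) (fun c => (lamG_pos pm c).le) I hI ρ s A h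
  · rw [norm_zero]
    exact Finset.prod_nonneg fun c _ => hw0 c _

end

section
variable {ℓ n k : ℕ} [Fact ℓ.Prime] {K M : Type} [Field K] [NumberField K] [Field M]
  [NumberField M] [Algebra K M] (pm : (M ≃ₐ[K] M) →* Equiv.Perm (Fin n)) {V : Type}
  [AddCommGroup V] [Module (ZMod ℓ) V] (av : (M ≃ₐ[K] M) →* Module.End (ZMod ℓ) V)
  (ψ : V →ₗ[ZMod ℓ] V →ₗ[ZMod ℓ] ZMod ℓ) (L0 : Submodule (ZMod ℓ) V) (t : Pl M → V)
  (sy : Pl M → Pl M → ZMod ℓ) (H : PF K M) (S : Finset (Pl K))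

open Classical in
/-- the sum over the families with given projection -/
noncomputable def RR (hh : ClW ℓ n k → L0) (s : ℝ) (P : Finset (Pl K)) : ℂ :=
  if Disjoint P S then
    (((NA P : ℝ) ^ (-s) : ℝ) : ℂ) * ((Nat.card (EqW ℓ n pm (acU H P)) : ℂ) ^ k)⁻¹ *
      ∑ c : EqC ℓ k pm (acU H P), ee ℓ ((Nat.card (M ≃ₐ[K] M) : ZMod ℓ)⁻¹ *
      (∑ w : up (M := M) P, ψ (hh (c.1 w) : V) (t w) +
        ∑ p : up (M := M) P, ∑ q : up (M := M) P, if p = q then 0 else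
          RcW ℓ n k (c.1 p) (c.1 q) * sy p q)) else 0

open Classical in
lemma fib_eq (hl2 : ℓ ≠ 2) (hG : ¬ ℓ ∣ Nat.card (M ≃ₐ[K] M))
    (inv : ∀ γ x y, ψ (av γ x) (av γ y) = ψ x y) (hh : ClW ℓ n k → L0)
    (hhi : ∀ γ a, av γ (hh a : V) = hh (aC pm γ a))
    (hcyc : ∀ w : Pl M, (lo w : Pl K) ∉ S → IsCyclic (dec H w))
    (ht : ∀ (γ : M ≃ₐ[K] M) (w : Pl M), (lo w : Pl K) ∉ S → t (gp γ w) = av γ (t w))
    (hsy : ∀ (γ : M ≃ₐ[K] M) (w w' : Pl M), (lo w : Pl K) ∉ S → (lo w' : Pl K) ∉ S →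
      sy (gp γ w) (gp γ w') = sy w w')
    (hss : ∀ (w w' : Pl M), (lo w : Pl K) ∉ S → (lo w' : Pl K) ∉ S → w ≠ w' → sy w w' = sy w' w)
    (s : ℝ) (P : Finset (Pl K)) :
    ∑' A : (prj pm : (CG pm ℓ k → Finset (Pl M)) → Finset (Pl K)) ⁻¹' {P},
      (if TupX S (lo : Pl M → Pl K) (OmG pm) A.1 then
        trmX (lo : Pl M → Pl K) (lamG pm) (IG pm ψ L0 t sy hh) (rhoG pm sy) s A.1 else 0) =
    RR pm ψ L0 t sy H S hh s P := by
  by_cases hP : Disjoint P S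
  · have hnS : ∀ q ∈ P, q ∉ S := fun q hq => Finset.disjoint_left.1 hP hq
    have hcyc' : ∀ w : Pl M, (lo w : Pl K) ∈ P → IsCyclic (dec H w) :=
      fun w hw => hcyc w (hnS _ hw)
    have hup : ∀ w : up (M := M) P, (lo w.1 : Pl K) ∉ S := fun w => hnS _ ((H.up_iff P w.1).1 w.2)
    let e : TT ℓ k pm H P → (prj pm : (CG pm ℓ k → Finset (Pl M)) → Finset (Pl K)) ⁻¹' {P} :=
      fun τ => ⟨Fam pm H P hcyc' τ, prj_Fam pm H P hcyc' τ⟩
    have he : Function.Injective e := fun τ τ' h =>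
      Fam_inj pm H P hcyc' τ τ' (congrArg Subtype.val h)
    have hsupp : Function.support (fun A : (prj pm : (CG pm ℓ k → Finset (Pl M)) →
        Finset (Pl K)) ⁻¹' {P} => (if TupX S (lo : Pl M → Pl K) (OmG pm) A.1 then
        trmX (lo : Pl M → Pl K) (lamG pm) (IG pm ψ L0 t sy hh) (rhoG pm sy) s A.1 else 0)) ⊆
        Set.range e := by
      intro A hA
      rw [Function.mem_support] at hA
      have h1 : TupX S (lo : Pl M → Pl K) (OmG pm) A.1 := by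
        by_contra h
        rw [if_neg h] at hA
        exact hA rfl
      obtain ⟨τ, hτ⟩ := Fam_surj pm H P hcyc' S A.1 h1 A.2
      exact ⟨τ, Subtype.ext hτ⟩
    rw [← he.tsum_eq hsupp, tsum_fintype]
    have h2 : ∀ τ : TT ℓ k pm H P, (if TupX S (lo : Pl M → Pl K) (OmG pm) (e τ).1 then
        trmX (lo : Pl M → Pl K) (lamG pm) (IG pm ψ L0 t sy hh) (rhoG pm sy) s (e τ).1 else 0) =
        trmX (lo : Pl M → Pl K) (lamG pm) (IG pm ψ L0 t sy hh) (rhoG pm sy) s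
          (Fam pm H P hcyc' τ) := fun τ => if_pos (TupX_Fam pm H P hcyc' S hP τ)
    rw [Finset.sum_congr rfl (fun τ _ => h2 τ), sum_TT pm av ψ L0 t sy H P hcyc' hl2 hG inv hh hhi
      (fun γ w => ht γ w.1 (hup w)) (fun γ w w' => hsy γ w.1 w'.1 (hup w) (hup w'))
      (fun w w' h => hss w.1 w'.1 (hup w) (hup w') (fun h2 => h (Subtype.ext h2))) s, RR, if_pos hP]
  · rw [RR, if_neg hP]
    have h0 : ∀ A : (prj pm : (CG pm ℓ k → Finset (Pl M)) → Finset (Pl K)) ⁻¹' {P},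
        (if TupX S (lo : Pl M → Pl K) (OmG pm) A.1 then
        trmX (lo : Pl M → Pl K) (lamG pm) (IG pm ψ L0 t sy hh) (rhoG pm sy) s A.1 else 0) = 0 := by
      intro A
      rw [if_neg]
      intro h1
      apply hP
      rw [Finset.disjoint_left]
      intro q hq
      have h2 : prj pm A.1 = P := A.2
      rw [← h2, mem_prj] at hq
      obtain ⟨x, w, hw, rfl⟩ := hq
      exact ((h1.1 x).1 w hw).2
    rw [tsum_congr h0, tsum_zero]

open Classical in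
lemma CSum_eq [IsGalois K M] (hPLC : S_PLC) (hXMAS : S_XMAS) (hYDN : S_YDN)
    (hU : Unr K M S) (hl2 : ℓ ≠ 2) (hG : ¬ ℓ ∣ Nat.card (M ≃ₐ[K] M))
    (inv : ∀ γ x y, ψ (av γ x) (av γ y) = ψ x y) (hh : ClW ℓ n k → L0)
    (hhi : ∀ γ a, av γ (hh a : V) = hh (aC pm γ a))
    (ht : ∀ (γ : M ≃ₐ[K] M) (w : Pl M), (lo w : Pl K) ∉ S → t (gp γ w) = av γ (t w))
    (hsy : ∀ (γ : M ≃ₐ[K] M) (w w' : Pl M), (lo w : Pl K) ∉ S → (lo w' : Pl K) ∉ S →
      sy (gp γ w) (gp γ w') = sy w w')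
    (hss : ∀ (w w' : Pl M), (lo w : Pl K) ∉ S → (lo w' : Pl K) ∉ S → w ≠ w' → sy w w' = sy w' w)
    (s : ℝ) (hs : 1 < s) (hs2 : s ≤ 2) :
    Summable (RR pm ψ L0 t sy H S hh s) ∧
    CSum S (lo : Pl M → Pl K) (OmG pm) (lamG pm) (IG pm ψ L0 t sy hh) (rhoG pm sy) s =
      ∑' P : Finset (Pl K), RR pm ψ L0 t sy H S hh s P := by
  have h1 := summ_CS pm hPLC hXMAS hYDN S hU (IG pm ψ L0 t sy hh)
    (fun c A => by unfold IG; rw [norm_ee]) (rhoG pm sy) s hs hs2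
  have h2 := h1.hasSum.tsum_fiberwise
    (prj pm : (CG pm ℓ k → Finset (Pl M)) → Finset (Pl K))
  have h3 : (fun P : Finset (Pl K) =>
      ∑' A : (prj pm : (CG pm ℓ k → Finset (Pl M)) → Finset (Pl K)) ⁻¹' {P},
      (if TupX S (lo : Pl M → Pl K) (OmG pm) A.1 then
        trmX (lo : Pl M → Pl K) (lamG pm) (IG pm ψ L0 t sy hh) (rhoG pm sy) s A.1 else 0)) =
      RR pm ψ L0 t sy H S hh s := by
    funext P
    exact fib_eq pm av ψ L0 t sy H S hl2 hG inv hh hhi (fun w hw => ((hU w hw).2 _ (DG_dec H w)).1)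
      ht hsy hss s P
  rw [h3] at h2
  refine ⟨h2.summable, ?_⟩
  rw [h2.tsum_eq]
  rfl

end

end Pool.Agent.T3h73.SG.ZEX
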